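import Pool.Agent.W847.T3.Ker

/-!
# Explicit form of one step of stage A
-/

set_option autoImplicit false
set_option maxRecDepth 100000

namespace Pool.Agent.W847.T3.Ker

/-- Type number 0. -/
def qat0 : List Nat := []

/-- Type number 1. -/
def qat1 : List Nat := [0, 0, 1]

/-- Type number 2. -/
def qat2 : List Nat := [0, 0, 2]

/-- Type number 3. -/
def qat3 : List Nat := [0, 1]

/-- Type number 4. -/
def qat4 : List Nat := [0, 1, 1]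

/-- Type number 5. -/
def qat5 : List Nat := [0, 2]

/-- Type number 6. -/
def qat6 : List Nat := [1]

/-- Type number 7. -/
def qat7 : List Nat := [1, 0, 1]

/-- Type number 8. -/
def qat8 : List Nat := [1, 0, 2]

/-- Type number 9. -/
def qat9 : List Nat := [1, 1]

/-- Type number 10. -/
def qat10 : List Nat := [1, 1, 1]

/-- Type number 11. -/
def qat11 : List Nat := [1, 2]

/-- Type number 12. -/
def qat12 : List Nat := [2]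

/-- Type number 13. -/
def qat13 : List Nat := [2, 0, 1]

/-- Type number 14. -/
def qat14 : List Nat := [2, 0, 2]

/-- Type number 15. -/
def qat15 : List Nat := [2, 1]

/-- Type number 16. -/
def qat16 : List Nat := [2, 1, 1]

/-- Type number 17. -/
def qat17 : List Nat := [2, 2]

/-- Type number 18. -/
def qat18 : List Nat := [3]

/-- Type number 19. -/
def qat19 : List Nat := [3, 0, 1]

/-- Type number 20. -/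
def qat20 : List Nat := [3, 1]

/-- Type number 21. -/
def qat21 : List Nat := [4]

/-- Type number 22. -/
def qat22 : List Nat := [4, 0, 1]

/-- Type number 23. -/
def qat23 : List Nat := [4, 1]

/-- Type number 24. -/
def qat24 : List Nat := [5]

/-- Type number 25. -/
def qat25 : List Nat := [6]

/-- Type number 26. -/
def qat26 : List Nat := [7]

/-- The types. -/
def qaty : List (List Nat) := [qat0, qat1, qat2, qat3, qat4, qat5, qat6, qat7, qat8, qat9, qat10, qat11, qat12, qat13, qat14, qat15, qat16, qat17, qat18, qat19, qat20, qat21, qat22, qat23, qat24, qat25, qat26]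

/-- Terms with least index 0. -/
noncomputable def qa0 (w0 w1 w2 w3 w4 w5 w6 w7 w8 w9 w10 w11 w12 w13 w14 w15 w16 w17 w18 w19 w20 w21 w22 w23 w24 w25 w26 : Nat) : Nat :=
  Nat.mul w0 (Nat.add (Nat.mul w0 (Nat.add (Nat.mul w0 (KA qat0 qat0 qat0)) (Nat.add (Nat.mul w1 (Nat.mul 3 (KA qat0 qat0 qat1))) (Nat.add (Nat.mul w2 (Nat.mul 3 (KA qat0 qat0 qat2))) (Nat.add (Nat.mul w3 (Nat.mul 3 (KA qat0 qat0 qat3))) (Nat.add (Nat.mul w4 (Nat.mul 3 (KA qat0 qat0 qat4))) (Nat.add (Nat.mul w5 (Nat.mul 3 (KA qat0 qat0 qat5))) (Nat.add (Nat.mul w6 (Nat.mul 3 (KA qat0 qat0 qat6))) (Nat.add (Nat.mul w7 (Nat.mul 3 (KA qat0 qat0 qat7))) (Nat.add (Nat.mul w8 (Nat.mul 3 (KA qat0 qat0 qat8))) (Nat.add (Nat.mul w9 (Nat.mul 3 (KA qat0 qat0 qat9))) (Nat.add (Nat.mul w10 (Nat.mul 3 (KA qat0 qat0 qat10))) (Nat.add (Nat.mul w11 (Nat.mul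 3 (KA qat0 qat0 qat11))) (Nat.add (Nat.mul w12 (Nat.mul 3 (KA qat0 qat0 qat12))) (Nat.add (Nat.mul w13 (Nat.mul 3 (KA qat0 qat0 qat13))) (Nat.add (Nat.mul w14 (Nat.mul 3 (KA qat0 qat0 qat14))) (Nat.add (Nat.mul w15 (Nat.mul 3 (KA qat0 qat0 qat15))) (Nat.add (Nat.mul w16 (Nat.mul 3 (KA qat0 qat0 qat16))) (Nat.add (Nat.mul w17 (Nat.mul 3 (KA qat0 qat0 qat17))) (Nat.add (Nat.mul w18 (Nat.mul 3 (KA qat0 qat0 qat18))) (Nat.add (Nat.mul w19 (Nat.mul 3 (KA qat0 qat0 qat19))) (Nat.add (Nat.mul w20 (Nat.mul 3 (KA qat0 qat0 qat20))) (Nat.add (Nat.mul w21 (Nat.mul 3 (KA qat0 qat0 qat21))) (Nat.add (Nat.mul w22 (Nat.mul 3 (KA qat0 qat0 qat22))) (Nat.add (Nat.mul w23 (Nat.mul 3 (KA qat0 qat0 qat23))) (Nat.add (Nat.mul w24 (Nat.mul 3 (KA qat0 qat0 qat24))) (Nat.add (Nat.mul w25 (Nat.mul 3 (KA qat0 qat0 qat25))) (Nat.add (Nat.mul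 w26 (Nat.mul 3 (KA qat0 qat0 qat26))) 0)))))))))))))))))))))))))))) (Nat.add (Nat.mul w1 (Nat.add (Nat.mul w1 (Nat.mul 3 (KA qat0 qat1 qat1))) (Nat.add (Nat.mul w2 (Nat.mul 6 (KA qat0 qat1 qat2))) (Nat.add (Nat.mul w3 (Nat.mul 6 (KA qat0 qat1 qat3))) (Nat.add (Nat.mul w4 (Nat.mul 6 (KA qat0 qat1 qat4))) (Nat.add (Nat.mul w5 (Nat.mul 6 (KA qat0 qat1 qat5))) (Nat.add (Nat.mul w6 (Nat.mul 6 (KA qat0 qat1 qat6))) (Nat.add (Nat.mul w7 (Nat.mul 6 (KA qat0 qat1 qat7))) (Nat.add (Nat.mul w8 (Nat.mul 6 (KA qat0 qat1 qat8))) (Nat.add (Nat.mul w9 (Nat.mul 6 (KA qat0 qat1 qat9))) (Nat.add (Nat.mul w10 (Nat.mul 6 (KA qat0 qat1 qat10))) (Nat.add (Nat.mul w11 (Nat.mul 6 (KA qat0 qat1 qat11))) (Nat.add (Nat.mul w12 (Nat.mul 6 (KA qat0 qat1 qat12))) (Nat.add (Nat.mul w13 (Nat.mul 6 (KA qat0 qat1 qat13))) (Nat.add (Nat.mul w14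 (Nat.mul 6 (KA qat0 qat1 qat14))) (Nat.add (Nat.mul w15 (Nat.mul 6 (KA qat0 qat1 qat15))) (Nat.add (Nat.mul w16 (Nat.mul 6 (KA qat0 qat1 qat16))) (Nat.add (Nat.mul w17 (Nat.mul 6 (KA qat0 qat1 qat17))) (Nat.add (Nat.mul w18 (Nat.mul 6 (KA qat0 qat1 qat18))) (Nat.add (Nat.mul w19 (Nat.mul 6 (KA qat0 qat1 qat19))) (Nat.add (Nat.mul w20 (Nat.mul 6 (KA qat0 qat1 qat20))) (Nat.add (Nat.mul w21 (Nat.mul 6 (KA qat0 qat1 qat21))) (Nat.add (Nat.mul w22 (Nat.mul 6 (KA qat0 qat1 qat22))) (Nat.add (Nat.mul w23 (Nat.mul 6 (KA qat0 qat1 qat23))) (Nat.add (Nat.mul w24 (Nat.mul 6 (KA qat0 qat1 qat24))) (Nat.add (Nat.mul w25 (Nat.mul 6 (KA qat0 qat1 qat25))) (Nat.add (Nat.mul w26 (Nat.mul 6 (KA qat0 qat1 qat26))) 0))))))))))))))))))))))))))) (Nat.add (Nat.mul w2 (Nat.add (Nat.mul w2 (Nat.mul 3 (KA qat0 qat2 qat2))) (Nat.add (Nat.mul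 w3 (Nat.mul 6 (KA qat0 qat2 qat3))) (Nat.add (Nat.mul w4 (Nat.mul 6 (KA qat0 qat2 qat4))) (Nat.add (Nat.mul w5 (Nat.mul 6 (KA qat0 qat2 qat5))) (Nat.add (Nat.mul w6 (Nat.mul 6 (KA qat0 qat2 qat6))) (Nat.add (Nat.mul w7 (Nat.mul 6 (KA qat0 qat2 qat7))) (Nat.add (Nat.mul w8 (Nat.mul 6 (KA qat0 qat2 qat8))) (Nat.add (Nat.mul w9 (Nat.mul 6 (KA qat0 qat2 qat9))) (Nat.add (Nat.mul w10 (Nat.mul 6 (KA qat0 qat2 qat10))) (Nat.add (Nat.mul w11 (Nat.mul 6 (KA qat0 qat2 qat11))) (Nat.add (Nat.mul w12 (Nat.mul 6 (KA qat0 qat2 qat12))) (Nat.add (Nat.mul w13 (Nat.mul 6 (KA qat0 qat2 qat13))) (Nat.add (Nat.mul w14 (Nat.mul 6 (KA qat0 qat2 qat14))) (Nat.add (Nat.mul w15 (Nat.mul 6 (KA qat0 qat2 qat15))) (Nat.add (Nat.mul w16 (Nat.mul 6 (KA qat0 qat2 qat16))) (Nat.add (Nat.mul w17 (Nat.mul 6 (KA qat0 qat2 qat17))) (Nat.add (Nat.mul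 w18 (Nat.mul 6 (KA qat0 qat2 qat18))) (Nat.add (Nat.mul w19 (Nat.mul 6 (KA qat0 qat2 qat19))) (Nat.add (Nat.mul w20 (Nat.mul 6 (KA qat0 qat2 qat20))) (Nat.add (Nat.mul w21 (Nat.mul 6 (KA qat0 qat2 qat21))) (Nat.add (Nat.mul w22 (Nat.mul 6 (KA qat0 qat2 qat22))) (Nat.add (Nat.mul w23 (Nat.mul 6 (KA qat0 qat2 qat23))) (Nat.add (Nat.mul w24 (Nat.mul 6 (KA qat0 qat2 qat24))) (Nat.add (Nat.mul w25 (Nat.mul 6 (KA qat0 qat2 qat25))) (Nat.add (Nat.mul w26 (Nat.mul 6 (KA qat0 qat2 qat26))) 0)))))))))))))))))))))))))) (Nat.add (Nat.mul w3 (Nat.add (Nat.mul w3 (Nat.mul 3 (KA qat0 qat3 qat3))) (Nat.add (Nat.mul w4 (Nat.mul 6 (KA qat0 qat3 qat4))) (Nat.add (Nat.mul w5 (Nat.mul 6 (KA qat0 qat3 qat5))) (Nat.add (Nat.mul w6 (Nat.mul 6 (KA qat0 qat3 qat6))) (Nat.add (Nat.mul w7 (Nat.mul 6 (KA qat0 qat3 qat7))) (Nat.add (Nat.mul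 w8 (Nat.mul 6 (KA qat0 qat3 qat8))) (Nat.add (Nat.mul w9 (Nat.mul 6 (KA qat0 qat3 qat9))) (Nat.add (Nat.mul w10 (Nat.mul 6 (KA qat0 qat3 qat10))) (Nat.add (Nat.mul w11 (Nat.mul 6 (KA qat0 qat3 qat11))) (Nat.add (Nat.mul w12 (Nat.mul 6 (KA qat0 qat3 qat12))) (Nat.add (Nat.mul w13 (Nat.mul 6 (KA qat0 qat3 qat13))) (Nat.add (Nat.mul w14 (Nat.mul 6 (KA qat0 qat3 qat14))) (Nat.add (Nat.mul w15 (Nat.mul 6 (KA qat0 qat3 qat15))) (Nat.add (Nat.mul w16 (Nat.mul 6 (KA qat0 qat3 qat16))) (Nat.add (Nat.mul w17 (Nat.mul 6 (KA qat0 qat3 qat17))) (Nat.add (Nat.mul w18 (Nat.mul 6 (KA qat0 qat3 qat18))) (Nat.add (Nat.mul w19 (Nat.mul 6 (KA qat0 qat3 qat19))) (Nat.add (Nat.mul w20 (Nat.mul 6 (KA qat0 qat3 qat20))) (Nat.add (Nat.mul w21 (Nat.mul 6 (KA qat0 qat3 qat21))) (Nat.add (Nat.mul w22 (Nat.mul 6 (KA qat0 qat3 qat22))) (Nat.add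 (Nat.mul w23 (Nat.mul 6 (KA qat0 qat3 qat23))) (Nat.add (Nat.mul w24 (Nat.mul 6 (KA qat0 qat3 qat24))) (Nat.add (Nat.mul w25 (Nat.mul 6 (KA qat0 qat3 qat25))) (Nat.add (Nat.mul w26 (Nat.mul 6 (KA qat0 qat3 qat26))) 0))))))))))))))))))))))))) (Nat.add (Nat.mul w4 (Nat.add (Nat.mul w4 (Nat.mul 3 (KA qat0 qat4 qat4))) (Nat.add (Nat.mul w5 (Nat.mul 6 (KA qat0 qat4 qat5))) (Nat.add (Nat.mul w6 (Nat.mul 6 (KA qat0 qat4 qat6))) (Nat.add (Nat.mul w7 (Nat.mul 6 (KA qat0 qat4 qat7))) (Nat.add (Nat.mul w8 (Nat.mul 6 (KA qat0 qat4 qat8))) (Nat.add (Nat.mul w9 (Nat.mul 6 (KA qat0 qat4 qat9))) (Nat.add (Nat.mul w10 (Nat.mul 6 (KA qat0 qat4 qat10))) (Nat.add (Nat.mul w11 (Nat.mul 6 (KA qat0 qat4 qat11))) (Nat.add (Nat.mul w12 (Nat.mul 6 (KA qat0 qat4 qat12))) (Nat.add (Nat.mul w13 (Nat.mul 6 (KA qat0 qat4 qat13))) (Nat.add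 (Nat.mul w14 (Nat.mul 6 (KA qat0 qat4 qat14))) (Nat.add (Nat.mul w15 (Nat.mul 6 (KA qat0 qat4 qat15))) (Nat.add (Nat.mul w16 (Nat.mul 6 (KA qat0 qat4 qat16))) (Nat.add (Nat.mul w17 (Nat.mul 6 (KA qat0 qat4 qat17))) (Nat.add (Nat.mul w18 (Nat.mul 6 (KA qat0 qat4 qat18))) (Nat.add (Nat.mul w19 (Nat.mul 6 (KA qat0 qat4 qat19))) (Nat.add (Nat.mul w20 (Nat.mul 6 (KA qat0 qat4 qat20))) (Nat.add (Nat.mul w21 (Nat.mul 6 (KA qat0 qat4 qat21))) (Nat.add (Nat.mul w22 (Nat.mul 6 (KA qat0 qat4 qat22))) (Nat.add (Nat.mul w23 (Nat.mul 6 (KA qat0 qat4 qat23))) (Nat.add (Nat.mul w24 (Nat.mul 6 (KA qat0 qat4 qat24))) (Nat.add (Nat.mul w25 (Nat.mul 6 (KA qat0 qat4 qat25))) (Nat.add (Nat.mul w26 (Nat.mul 6 (KA qat0 qat4 qat26))) 0)))))))))))))))))))))))) (Nat.add (Nat.mul w5 (Nat.add (Nat.mul w5 (Nat.mul 3 (KA qat0 qat5 qat5)))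 (Nat.add (Nat.mul w6 (Nat.mul 6 (KA qat0 qat5 qat6))) (Nat.add (Nat.mul w7 (Nat.mul 6 (KA qat0 qat5 qat7))) (Nat.add (Nat.mul w8 (Nat.mul 6 (KA qat0 qat5 qat8))) (Nat.add (Nat.mul w9 (Nat.mul 6 (KA qat0 qat5 qat9))) (Nat.add (Nat.mul w10 (Nat.mul 6 (KA qat0 qat5 qat10))) (Nat.add (Nat.mul w11 (Nat.mul 6 (KA qat0 qat5 qat11))) (Nat.add (Nat.mul w12 (Nat.mul 6 (KA qat0 qat5 qat12))) (Nat.add (Nat.mul w13 (Nat.mul 6 (KA qat0 qat5 qat13))) (Nat.add (Nat.mul w14 (Nat.mul 6 (KA qat0 qat5 qat14))) (Nat.add (Nat.mul w15 (Nat.mul 6 (KA qat0 qat5 qat15))) (Nat.add (Nat.mul w16 (Nat.mul 6 (KA qat0 qat5 qat16))) (Nat.add (Nat.mul w17 (Nat.mul 6 (KA qat0 qat5 qat17))) (Nat.add (Nat.mul w18 (Nat.mul 6 (KA qat0 qat5 qat18))) (Nat.add (Nat.mul w19 (Nat.mul 6 (KA qat0 qat5 qat19))) (Nat.add (Nat.mul w20 (Nat.mul 6 (KA qat0 qat5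 qat20))) (Nat.add (Nat.mul w21 (Nat.mul 6 (KA qat0 qat5 qat21))) (Nat.add (Nat.mul w22 (Nat.mul 6 (KA qat0 qat5 qat22))) (Nat.add (Nat.mul w23 (Nat.mul 6 (KA qat0 qat5 qat23))) (Nat.add (Nat.mul w24 (Nat.mul 6 (KA qat0 qat5 qat24))) (Nat.add (Nat.mul w25 (Nat.mul 6 (KA qat0 qat5 qat25))) (Nat.add (Nat.mul w26 (Nat.mul 6 (KA qat0 qat5 qat26))) 0))))))))))))))))))))))) (Nat.add (Nat.mul w6 (Nat.add (Nat.mul w6 (Nat.mul 3 (KA qat0 qat6 qat6))) (Nat.add (Nat.mul w7 (Nat.mul 6 (KA qat0 qat6 qat7))) (Nat.add (Nat.mul w8 (Nat.mul 6 (KA qat0 qat6 qat8))) (Nat.add (Nat.mul w9 (Nat.mul 6 (KA qat0 qat6 qat9))) (Nat.add (Nat.mul w10 (Nat.mul 6 (KA qat0 qat6 qat10))) (Nat.add (Nat.mul w11 (Nat.mul 6 (KA qat0 qat6 qat11))) (Nat.add (Nat.mul w12 (Nat.mul 6 (KA qat0 qat6 qat12))) (Nat.add (Nat.mul w13 (Nat.mul 6 (KA qat0 qat6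 qat13))) (Nat.add (Nat.mul w14 (Nat.mul 6 (KA qat0 qat6 qat14))) (Nat.add (Nat.mul w15 (Nat.mul 6 (KA qat0 qat6 qat15))) (Nat.add (Nat.mul w16 (Nat.mul 6 (KA qat0 qat6 qat16))) (Nat.add (Nat.mul w17 (Nat.mul 6 (KA qat0 qat6 qat17))) (Nat.add (Nat.mul w18 (Nat.mul 6 (KA qat0 qat6 qat18))) (Nat.add (Nat.mul w19 (Nat.mul 6 (KA qat0 qat6 qat19))) (Nat.add (Nat.mul w20 (Nat.mul 6 (KA qat0 qat6 qat20))) (Nat.add (Nat.mul w21 (Nat.mul 6 (KA qat0 qat6 qat21))) (Nat.add (Nat.mul w22 (Nat.mul 6 (KA qat0 qat6 qat22))) (Nat.add (Nat.mul w23 (Nat.mul 6 (KA qat0 qat6 qat23))) (Nat.add (Nat.mul w24 (Nat.mul 6 (KA qat0 qat6 qat24))) (Nat.add (Nat.mul w25 (Nat.mul 6 (KA qat0 qat6 qat25))) (Nat.add (Nat.mul w26 (Nat.mul 6 (KA qat0 qat6 qat26))) 0)))))))))))))))))))))) (Nat.add (Nat.mul w7 (Nat.add (Nat.mul w7 (Nat.mul 3 (KA qat0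 qat7 qat7))) (Nat.add (Nat.mul w8 (Nat.mul 6 (KA qat0 qat7 qat8))) (Nat.add (Nat.mul w9 (Nat.mul 6 (KA qat0 qat7 qat9))) (Nat.add (Nat.mul w10 (Nat.mul 6 (KA qat0 qat7 qat10))) (Nat.add (Nat.mul w11 (Nat.mul 6 (KA qat0 qat7 qat11))) (Nat.add (Nat.mul w12 (Nat.mul 6 (KA qat0 qat7 qat12))) (Nat.add (Nat.mul w13 (Nat.mul 6 (KA qat0 qat7 qat13))) (Nat.add (Nat.mul w14 (Nat.mul 6 (KA qat0 qat7 qat14))) (Nat.add (Nat.mul w15 (Nat.mul 6 (KA qat0 qat7 qat15))) (Nat.add (Nat.mul w16 (Nat.mul 6 (KA qat0 qat7 qat16))) (Nat.add (Nat.mul w17 (Nat.mul 6 (KA qat0 qat7 qat17))) (Nat.add (Nat.mul w18 (Nat.mul 6 (KA qat0 qat7 qat18))) (Nat.add (Nat.mul w19 (Nat.mul 6 (KA qat0 qat7 qat19))) (Nat.add (Nat.mul w20 (Nat.mul 6 (KA qat0 qat7 qat20))) (Nat.add (Nat.mul w21 (Nat.mul 6 (KA qat0 qat7 qat21))) (Nat.add (Nat.mul w22 (Nat.mul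 6 (KA qat0 qat7 qat22))) (Nat.add (Nat.mul w23 (Nat.mul 6 (KA qat0 qat7 qat23))) (Nat.add (Nat.mul w24 (Nat.mul 6 (KA qat0 qat7 qat24))) (Nat.add (Nat.mul w25 (Nat.mul 6 (KA qat0 qat7 qat25))) (Nat.add (Nat.mul w26 (Nat.mul 6 (KA qat0 qat7 qat26))) 0))))))))))))))))))))) (Nat.add (Nat.mul w8 (Nat.add (Nat.mul w8 (Nat.mul 3 (KA qat0 qat8 qat8))) (Nat.add (Nat.mul w9 (Nat.mul 6 (KA qat0 qat8 qat9))) (Nat.add (Nat.mul w10 (Nat.mul 6 (KA qat0 qat8 qat10))) (Nat.add (Nat.mul w11 (Nat.mul 6 (KA qat0 qat8 qat11))) (Nat.add (Nat.mul w12 (Nat.mul 6 (KA qat0 qat8 qat12))) (Nat.add (Nat.mul w13 (Nat.mul 6 (KA qat0 qat8 qat13))) (Nat.add (Nat.mul w14 (Nat.mul 6 (KA qat0 qat8 qat14))) (Nat.add (Nat.mul w15 (Nat.mul 6 (KA qat0 qat8 qat15))) (Nat.add (Nat.mul w16 (Nat.mul 6 (KA qat0 qat8 qat16))) (Nat.add (Nat.mul w17 (Nat.mul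 6 (KA qat0 qat8 qat17))) (Nat.add (Nat.mul w18 (Nat.mul 6 (KA qat0 qat8 qat18))) (Nat.add (Nat.mul w19 (Nat.mul 6 (KA qat0 qat8 qat19))) (Nat.add (Nat.mul w20 (Nat.mul 6 (KA qat0 qat8 qat20))) (Nat.add (Nat.mul w21 (Nat.mul 6 (KA qat0 qat8 qat21))) (Nat.add (Nat.mul w22 (Nat.mul 6 (KA qat0 qat8 qat22))) (Nat.add (Nat.mul w23 (Nat.mul 6 (KA qat0 qat8 qat23))) (Nat.add (Nat.mul w24 (Nat.mul 6 (KA qat0 qat8 qat24))) (Nat.add (Nat.mul w25 (Nat.mul 6 (KA qat0 qat8 qat25))) (Nat.add (Nat.mul w26 (Nat.mul 6 (KA qat0 qat8 qat26))) 0)))))))))))))))))))) (Nat.add (Nat.mul w9 (Nat.add (Nat.mul w9 (Nat.mul 3 (KA qat0 qat9 qat9))) (Nat.add (Nat.mul w10 (Nat.mul 6 (KA qat0 qat9 qat10))) (Nat.add (Nat.mul w11 (Nat.mul 6 (KA qat0 qat9 qat11))) (Nat.add (Nat.mul w12 (Nat.mul 6 (KA qat0 qat9 qat12))) (Nat.add (Nat.mul w13 (Nat.mul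 6 (KA qat0 qat9 qat13))) (Nat.add (Nat.mul w14 (Nat.mul 6 (KA qat0 qat9 qat14))) (Nat.add (Nat.mul w15 (Nat.mul 6 (KA qat0 qat9 qat15))) (Nat.add (Nat.mul w16 (Nat.mul 6 (KA qat0 qat9 qat16))) (Nat.add (Nat.mul w17 (Nat.mul 6 (KA qat0 qat9 qat17))) (Nat.add (Nat.mul w18 (Nat.mul 6 (KA qat0 qat9 qat18))) (Nat.add (Nat.mul w19 (Nat.mul 6 (KA qat0 qat9 qat19))) (Nat.add (Nat.mul w20 (Nat.mul 6 (KA qat0 qat9 qat20))) (Nat.add (Nat.mul w21 (Nat.mul 6 (KA qat0 qat9 qat21))) (Nat.add (Nat.mul w22 (Nat.mul 6 (KA qat0 qat9 qat22))) (Nat.add (Nat.mul w23 (Nat.mul 6 (KA qat0 qat9 qat23))) (Nat.add (Nat.mul w24 (Nat.mul 6 (KA qat0 qat9 qat24))) (Nat.add (Nat.mul w25 (Nat.mul 6 (KA qat0 qat9 qat25))) (Nat.add (Nat.mul w26 (Nat.mul 6 (KA qat0 qat9 qat26))) 0))))))))))))))))))) (Nat.add (Nat.mul w10 (Nat.add (Nat.mul w10 (Nat.mul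 3 (KA qat0 qat10 qat10))) (Nat.add (Nat.mul w11 (Nat.mul 6 (KA qat0 qat10 qat11))) (Nat.add (Nat.mul w12 (Nat.mul 6 (KA qat0 qat10 qat12))) (Nat.add (Nat.mul w13 (Nat.mul 6 (KA qat0 qat10 qat13))) (Nat.add (Nat.mul w14 (Nat.mul 6 (KA qat0 qat10 qat14))) (Nat.add (Nat.mul w15 (Nat.mul 6 (KA qat0 qat10 qat15))) (Nat.add (Nat.mul w16 (Nat.mul 6 (KA qat0 qat10 qat16))) (Nat.add (Nat.mul w17 (Nat.mul 6 (KA qat0 qat10 qat17))) (Nat.add (Nat.mul w18 (Nat.mul 6 (KA qat0 qat10 qat18))) (Nat.add (Nat.mul w19 (Nat.mul 6 (KA qat0 qat10 qat19))) (Nat.add (Nat.mul w20 (Nat.mul 6 (KA qat0 qat10 qat20))) (Nat.add (Nat.mul w21 (Nat.mul 6 (KA qat0 qat10 qat21))) (Nat.add (Nat.mul w22 (Nat.mul 6 (KA qat0 qat10 qat22))) (Nat.add (Nat.mul w23 (Nat.mul 6 (KA qat0 qat10 qat23))) (Nat.add (Nat.mul w24 (Nat.mul 6 (KA qat0 qat10 qat24)))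 (Nat.add (Nat.mul w25 (Nat.mul 6 (KA qat0 qat10 qat25))) (Nat.add (Nat.mul w26 (Nat.mul 6 (KA qat0 qat10 qat26))) 0)))))))))))))))))) (Nat.add (Nat.mul w11 (Nat.add (Nat.mul w11 (Nat.mul 3 (KA qat0 qat11 qat11))) (Nat.add (Nat.mul w12 (Nat.mul 6 (KA qat0 qat11 qat12))) (Nat.add (Nat.mul w13 (Nat.mul 6 (KA qat0 qat11 qat13))) (Nat.add (Nat.mul w14 (Nat.mul 6 (KA qat0 qat11 qat14))) (Nat.add (Nat.mul w15 (Nat.mul 6 (KA qat0 qat11 qat15))) (Nat.add (Nat.mul w16 (Nat.mul 6 (KA qat0 qat11 qat16))) (Nat.add (Nat.mul w17 (Nat.mul 6 (KA qat0 qat11 qat17))) (Nat.add (Nat.mul w18 (Nat.mul 6 (KA qat0 qat11 qat18))) (Nat.add (Nat.mul w19 (Nat.mul 6 (KA qat0 qat11 qat19))) (Nat.add (Nat.mul w20 (Nat.mul 6 (KA qat0 qat11 qat20))) (Nat.add (Nat.mul w21 (Nat.mul 6 (KA qat0 qat11 qat21))) (Nat.add (Nat.mul w22 (Nat.mul 6 (KA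 qat0 qat11 qat22))) (Nat.add (Nat.mul w23 (Nat.mul 6 (KA qat0 qat11 qat23))) (Nat.add (Nat.mul w24 (Nat.mul 6 (KA qat0 qat11 qat24))) (Nat.add (Nat.mul w25 (Nat.mul 6 (KA qat0 qat11 qat25))) (Nat.add (Nat.mul w26 (Nat.mul 6 (KA qat0 qat11 qat26))) 0))))))))))))))))) (Nat.add (Nat.mul w12 (Nat.add (Nat.mul w12 (Nat.mul 3 (KA qat0 qat12 qat12))) (Nat.add (Nat.mul w13 (Nat.mul 6 (KA qat0 qat12 qat13))) (Nat.add (Nat.mul w14 (Nat.mul 6 (KA qat0 qat12 qat14))) (Nat.add (Nat.mul w15 (Nat.mul 6 (KA qat0 qat12 qat15))) (Nat.add (Nat.mul w16 (Nat.mul 6 (KA qat0 qat12 qat16))) (Nat.add (Nat.mul w17 (Nat.mul 6 (KA qat0 qat12 qat17))) (Nat.add (Nat.mul w18 (Nat.mul 6 (KA qat0 qat12 qat18))) (Nat.add (Nat.mul w19 (Nat.mul 6 (KA qat0 qat12 qat19))) (Nat.add (Nat.mul w20 (Nat.mul 6 (KA qat0 qat12 qat20))) (Nat.add (Nat.mul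 w21 (Nat.mul 6 (KA qat0 qat12 qat21))) (Nat.add (Nat.mul w22 (Nat.mul 6 (KA qat0 qat12 qat22))) (Nat.add (Nat.mul w23 (Nat.mul 6 (KA qat0 qat12 qat23))) (Nat.add (Nat.mul w24 (Nat.mul 6 (KA qat0 qat12 qat24))) (Nat.add (Nat.mul w25 (Nat.mul 6 (KA qat0 qat12 qat25))) (Nat.add (Nat.mul w26 (Nat.mul 6 (KA qat0 qat12 qat26))) 0)))))))))))))))) (Nat.add (Nat.mul w13 (Nat.add (Nat.mul w13 (Nat.mul 3 (KA qat0 qat13 qat13))) (Nat.add (Nat.mul w14 (Nat.mul 6 (KA qat0 qat13 qat14))) (Nat.add (Nat.mul w15 (Nat.mul 6 (KA qat0 qat13 qat15))) (Nat.add (Nat.mul w16 (Nat.mul 6 (KA qat0 qat13 qat16))) (Nat.add (Nat.mul w17 (Nat.mul 6 (KA qat0 qat13 qat17))) (Nat.add (Nat.mul w18 (Nat.mul 6 (KA qat0 qat13 qat18))) (Nat.add (Nat.mul w19 (Nat.mul 6 (KA qat0 qat13 qat19))) (Nat.add (Nat.mul w20 (Nat.mul 6 (KA qat0 qat13 qat20)))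 (Nat.add (Nat.mul w21 (Nat.mul 6 (KA qat0 qat13 qat21))) (Nat.add (Nat.mul w22 (Nat.mul 6 (KA qat0 qat13 qat22))) (Nat.add (Nat.mul w23 (Nat.mul 6 (KA qat0 qat13 qat23))) (Nat.add (Nat.mul w24 (Nat.mul 6 (KA qat0 qat13 qat24))) (Nat.add (Nat.mul w25 (Nat.mul 6 (KA qat0 qat13 qat25))) (Nat.add (Nat.mul w26 (Nat.mul 6 (KA qat0 qat13 qat26))) 0))))))))))))))) (Nat.add (Nat.mul w14 (Nat.add (Nat.mul w14 (Nat.mul 3 (KA qat0 qat14 qat14))) (Nat.add (Nat.mul w15 (Nat.mul 6 (KA qat0 qat14 qat15))) (Nat.add (Nat.mul w16 (Nat.mul 6 (KA qat0 qat14 qat16))) (Nat.add (Nat.mul w17 (Nat.mul 6 (KA qat0 qat14 qat17))) (Nat.add (Nat.mul w18 (Nat.mul 6 (KA qat0 qat14 qat18))) (Nat.add (Nat.mul w19 (Nat.mul 6 (KA qat0 qat14 qat19))) (Nat.add (Nat.mul w20 (Nat.mul 6 (KA qat0 qat14 qat20))) (Nat.add (Nat.mul w21 (Nat.mul 6 (KA qat0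 qat14 qat21))) (Nat.add (Nat.mul w22 (Nat.mul 6 (KA qat0 qat14 qat22))) (Nat.add (Nat.mul w23 (Nat.mul 6 (KA qat0 qat14 qat23))) (Nat.add (Nat.mul w24 (Nat.mul 6 (KA qat0 qat14 qat24))) (Nat.add (Nat.mul w25 (Nat.mul 6 (KA qat0 qat14 qat25))) (Nat.add (Nat.mul w26 (Nat.mul 6 (KA qat0 qat14 qat26))) 0)))))))))))))) (Nat.add (Nat.mul w15 (Nat.add (Nat.mul w15 (Nat.mul 3 (KA qat0 qat15 qat15))) (Nat.add (Nat.mul w16 (Nat.mul 6 (KA qat0 qat15 qat16))) (Nat.add (Nat.mul w17 (Nat.mul 6 (KA qat0 qat15 qat17))) (Nat.add (Nat.mul w18 (Nat.mul 6 (KA qat0 qat15 qat18))) (Nat.add (Nat.mul w19 (Nat.mul 6 (KA qat0 qat15 qat19))) (Nat.add (Nat.mul w20 (Nat.mul 6 (KA qat0 qat15 qat20))) (Nat.add (Nat.mul w21 (Nat.mul 6 (KA qat0 qat15 qat21))) (Nat.add (Nat.mul w22 (Nat.mul 6 (KA qat0 qat15 qat22))) (Nat.add (Nat.mul w23 (Nat.mul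 6 (KA qat0 qat15 qat23))) (Nat.add (Nat.mul w24 (Nat.mul 6 (KA qat0 qat15 qat24))) (Nat.add (Nat.mul w25 (Nat.mul 6 (KA qat0 qat15 qat25))) (Nat.add (Nat.mul w26 (Nat.mul 6 (KA qat0 qat15 qat26))) 0))))))))))))) (Nat.add (Nat.mul w16 (Nat.add (Nat.mul w16 (Nat.mul 3 (KA qat0 qat16 qat16))) (Nat.add (Nat.mul w17 (Nat.mul 6 (KA qat0 qat16 qat17))) (Nat.add (Nat.mul w18 (Nat.mul 6 (KA qat0 qat16 qat18))) (Nat.add (Nat.mul w19 (Nat.mul 6 (KA qat0 qat16 qat19))) (Nat.add (Nat.mul w20 (Nat.mul 6 (KA qat0 qat16 qat20))) (Nat.add (Nat.mul w21 (Nat.mul 6 (KA qat0 qat16 qat21))) (Nat.add (Nat.mul w22 (Nat.mul 6 (KA qat0 qat16 qat22))) (Nat.add (Nat.mul w23 (Nat.mul 6 (KA qat0 qat16 qat23))) (Nat.add (Nat.mul w24 (Nat.mul 6 (KA qat0 qat16 qat24))) (Nat.add (Nat.mul w25 (Nat.mul 6 (KA qat0 qat16 qat25))) (Nat.add (Nat.mul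 w26 (Nat.mul 6 (KA qat0 qat16 qat26))) 0)))))))))))) (Nat.add (Nat.mul w17 (Nat.add (Nat.mul w17 (Nat.mul 3 (KA qat0 qat17 qat17))) (Nat.add (Nat.mul w18 (Nat.mul 6 (KA qat0 qat17 qat18))) (Nat.add (Nat.mul w19 (Nat.mul 6 (KA qat0 qat17 qat19))) (Nat.add (Nat.mul w20 (Nat.mul 6 (KA qat0 qat17 qat20))) (Nat.add (Nat.mul w21 (Nat.mul 6 (KA qat0 qat17 qat21))) (Nat.add (Nat.mul w22 (Nat.mul 6 (KA qat0 qat17 qat22))) (Nat.add (Nat.mul w23 (Nat.mul 6 (KA qat0 qat17 qat23))) (Nat.add (Nat.mul w24 (Nat.mul 6 (KA qat0 qat17 qat24))) (Nat.add (Nat.mul w25 (Nat.mul 6 (KA qat0 qat17 qat25))) (Nat.add (Nat.mul w26 (Nat.mul 6 (KA qat0 qat17 qat26))) 0))))))))))) (Nat.add (Nat.mul w18 (Nat.add (Nat.mul w18 (Nat.mul 3 (KA qat0 qat18 qat18))) (Nat.add (Nat.mul w19 (Nat.mul 6 (KA qat0 qat18 qat19))) (Nat.add (Nat.mul w20 (Nat.mul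 6 (KA qat0 qat18 qat20))) (Nat.add (Nat.mul w21 (Nat.mul 6 (KA qat0 qat18 qat21))) (Nat.add (Nat.mul w22 (Nat.mul 6 (KA qat0 qat18 qat22))) (Nat.add (Nat.mul w23 (Nat.mul 6 (KA qat0 qat18 qat23))) (Nat.add (Nat.mul w24 (Nat.mul 6 (KA qat0 qat18 qat24))) (Nat.add (Nat.mul w25 (Nat.mul 6 (KA qat0 qat18 qat25))) (Nat.add (Nat.mul w26 (Nat.mul 6 (KA qat0 qat18 qat26))) 0)))))))))) (Nat.add (Nat.mul w19 (Nat.add (Nat.mul w19 (Nat.mul 3 (KA qat0 qat19 qat19))) (Nat.add (Nat.mul w20 (Nat.mul 6 (KA qat0 qat19 qat20))) (Nat.add (Nat.mul w21 (Nat.mul 6 (KA qat0 qat19 qat21))) (Nat.add (Nat.mul w22 (Nat.mul 6 (KA qat0 qat19 qat22))) (Nat.add (Nat.mul w23 (Nat.mul 6 (KA qat0 qat19 qat23))) (Nat.add (Nat.mul w24 (Nat.mul 6 (KA qat0 qat19 qat24))) (Nat.add (Nat.mul w25 (Nat.mul 6 (KA qat0 qat19 qat25))) (Nat.add (Nat.mul w26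 (Nat.mul 6 (KA qat0 qat19 qat26))) 0))))))))) (Nat.add (Nat.mul w20 (Nat.add (Nat.mul w20 (Nat.mul 3 (KA qat0 qat20 qat20))) (Nat.add (Nat.mul w21 (Nat.mul 6 (KA qat0 qat20 qat21))) (Nat.add (Nat.mul w22 (Nat.mul 6 (KA qat0 qat20 qat22))) (Nat.add (Nat.mul w23 (Nat.mul 6 (KA qat0 qat20 qat23))) (Nat.add (Nat.mul w24 (Nat.mul 6 (KA qat0 qat20 qat24))) (Nat.add (Nat.mul w25 (Nat.mul 6 (KA qat0 qat20 qat25))) (Nat.add (Nat.mul w26 (Nat.mul 6 (KA qat0 qat20 qat26))) 0)))))))) (Nat.add (Nat.mul w21 (Nat.add (Nat.mul w21 (Nat.mul 3 (KA qat0 qat21 qat21))) (Nat.add (Nat.mul w22 (Nat.mul 6 (KA qat0 qat21 qat22))) (Nat.add (Nat.mul w23 (Nat.mul 6 (KA qat0 qat21 qat23))) (Nat.add (Nat.mul w24 (Nat.mul 6 (KA qat0 qat21 qat24))) (Nat.add (Nat.mul w25 (Nat.mul 6 (KA qat0 qat21 qat25))) (Nat.add (Nat.mul w26 (Nat.mul 6 (KA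 qat0 qat21 qat26))) 0))))))) (Nat.add (Nat.mul w22 (Nat.add (Nat.mul w22 (Nat.mul 3 (KA qat0 qat22 qat22))) (Nat.add (Nat.mul w23 (Nat.mul 6 (KA qat0 qat22 qat23))) (Nat.add (Nat.mul w24 (Nat.mul 6 (KA qat0 qat22 qat24))) (Nat.add (Nat.mul w25 (Nat.mul 6 (KA qat0 qat22 qat25))) (Nat.add (Nat.mul w26 (Nat.mul 6 (KA qat0 qat22 qat26))) 0)))))) (Nat.add (Nat.mul w23 (Nat.add (Nat.mul w23 (Nat.mul 3 (KA qat0 qat23 qat23))) (Nat.add (Nat.mul w24 (Nat.mul 6 (KA qat0 qat23 qat24))) (Nat.add (Nat.mul w25 (Nat.mul 6 (KA qat0 qat23 qat25))) (Nat.add (Nat.mul w26 (Nat.mul 6 (KA qat0 qat23 qat26))) 0))))) (Nat.add (Nat.mul w24 (Nat.add (Nat.mul w24 (Nat.mul 3 (KA qat0 qat24 qat24))) (Nat.add (Nat.mul w25 (Nat.mul 6 (KA qat0 qat24 qat25))) (Nat.add (Nat.mul w26 (Nat.mul 6 (KA qat0 qat24 qat26))) 0)))) (Nat.add (Nat.mul w25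 (Nat.add (Nat.mul w25 (Nat.mul 3 (KA qat0 qat25 qat25))) (Nat.add (Nat.mul w26 (Nat.mul 6 (KA qat0 qat25 qat26))) 0))) (Nat.add (Nat.mul w26 (Nat.add (Nat.mul w26 (Nat.mul 3 (KA qat0 qat26 qat26))) (0))) 0)))))))))))))))))))))))))))

/-- Terms with least index 1. -/
noncomputable def qa1 (w1 w2 w3 w4 w5 w6 w7 w8 w9 w10 w11 w12 w13 w14 w15 w16 w17 w18 w19 w20 w21 w22 w23 w24 w25 w26 : Nat) : Nat :=
  Nat.mul w1 (Nat.add (Nat.mul w1 (Nat.add (Nat.mul w1 (KA qat1 qat1 qat1)) (Nat.add (Nat.mul w2 (Nat.mul 3 (KA qat1 qat1 qat2))) (Nat.add (Nat.mul w3 (Nat.mul 3 (KA qat1 qat1 qat3))) (Nat.add (Nat.mul w4 (Nat.mul 3 (KA qat1 qat1 qat4))) (Nat.add (Nat.mul w5 (Nat.mul 3 (KA qat1 qat1 qat5))) (Nat.add (Nat.mul w6 (Nat.mul 3 (KA qat1 qat1 qat6))) (Nat.add (Nat.mul w7 (Nat.mul 3 (KA qat1 qat1 qat7))) (Nat.add (Nat.mul w8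 (Nat.mul 3 (KA qat1 qat1 qat8))) (Nat.add (Nat.mul w9 (Nat.mul 3 (KA qat1 qat1 qat9))) (Nat.add (Nat.mul w10 (Nat.mul 3 (KA qat1 qat1 qat10))) (Nat.add (Nat.mul w11 (Nat.mul 3 (KA qat1 qat1 qat11))) (Nat.add (Nat.mul w12 (Nat.mul 3 (KA qat1 qat1 qat12))) (Nat.add (Nat.mul w13 (Nat.mul 3 (KA qat1 qat1 qat13))) (Nat.add (Nat.mul w14 (Nat.mul 3 (KA qat1 qat1 qat14))) (Nat.add (Nat.mul w15 (Nat.mul 3 (KA qat1 qat1 qat15))) (Nat.add (Nat.mul w16 (Nat.mul 3 (KA qat1 qat1 qat16))) (Nat.add (Nat.mul w17 (Nat.mul 3 (KA qat1 qat1 qat17))) (Nat.add (Nat.mul w18 (Nat.mul 3 (KA qat1 qat1 qat18))) (Nat.add (Nat.mul w19 (Nat.mul 3 (KA qat1 qat1 qat19))) (Nat.add (Nat.mul w20 (Nat.mul 3 (KA qat1 qat1 qat20))) (Nat.add (Nat.mul w21 (Nat.mul 3 (KA qat1 qat1 qat21))) (Nat.add (Nat.mul w22 (Nat.mul 3 (KA qat1 qat1 qat22))) (Nat.add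 (Nat.mul w23 (Nat.mul 3 (KA qat1 qat1 qat23))) (Nat.add (Nat.mul w24 (Nat.mul 3 (KA qat1 qat1 qat24))) (Nat.add (Nat.mul w25 (Nat.mul 3 (KA qat1 qat1 qat25))) (Nat.add (Nat.mul w26 (Nat.mul 3 (KA qat1 qat1 qat26))) 0))))))))))))))))))))))))))) (Nat.add (Nat.mul w2 (Nat.add (Nat.mul w2 (Nat.mul 3 (KA qat1 qat2 qat2))) (Nat.add (Nat.mul w3 (Nat.mul 6 (KA qat1 qat2 qat3))) (Nat.add (Nat.mul w4 (Nat.mul 6 (KA qat1 qat2 qat4))) (Nat.add (Nat.mul w5 (Nat.mul 6 (KA qat1 qat2 qat5))) (Nat.add (Nat.mul w6 (Nat.mul 6 (KA qat1 qat2 qat6))) (Nat.add (Nat.mul w7 (Nat.mul 6 (KA qat1 qat2 qat7))) (Nat.add (Nat.mul w8 (Nat.mul 6 (KA qat1 qat2 qat8))) (Nat.add (Nat.mul w9 (Nat.mul 6 (KA qat1 qat2 qat9))) (Nat.add (Nat.mul w10 (Nat.mul 6 (KA qat1 qat2 qat10))) (Nat.add (Nat.mul w11 (Nat.mul 6 (KA qat1 qat2 qat11))) (Nat.add (Nat.mul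 w12 (Nat.mul 6 (KA qat1 qat2 qat12))) (Nat.add (Nat.mul w13 (Nat.mul 6 (KA qat1 qat2 qat13))) (Nat.add (Nat.mul w14 (Nat.mul 6 (KA qat1 qat2 qat14))) (Nat.add (Nat.mul w15 (Nat.mul 6 (KA qat1 qat2 qat15))) (Nat.add (Nat.mul w16 (Nat.mul 6 (KA qat1 qat2 qat16))) (Nat.add (Nat.mul w17 (Nat.mul 6 (KA qat1 qat2 qat17))) (Nat.add (Nat.mul w18 (Nat.mul 6 (KA qat1 qat2 qat18))) (Nat.add (Nat.mul w19 (Nat.mul 6 (KA qat1 qat2 qat19))) (Nat.add (Nat.mul w20 (Nat.mul 6 (KA qat1 qat2 qat20))) (Nat.add (Nat.mul w21 (Nat.mul 6 (KA qat1 qat2 qat21))) (Nat.add (Nat.mul w22 (Nat.mul 6 (KA qat1 qat2 qat22))) (Nat.add (Nat.mul w23 (Nat.mul 6 (KA qat1 qat2 qat23))) (Nat.add (Nat.mul w24 (Nat.mul 6 (KA qat1 qat2 qat24))) (Nat.add (Nat.mul w25 (Nat.mul 6 (KA qat1 qat2 qat25))) (Nat.add (Nat.mul w26 (Nat.mul 6 (KA qat1 qat2 qat26)))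 0)))))))))))))))))))))))))) (Nat.add (Nat.mul w3 (Nat.add (Nat.mul w3 (Nat.mul 3 (KA qat1 qat3 qat3))) (Nat.add (Nat.mul w4 (Nat.mul 6 (KA qat1 qat3 qat4))) (Nat.add (Nat.mul w5 (Nat.mul 6 (KA qat1 qat3 qat5))) (Nat.add (Nat.mul w6 (Nat.mul 6 (KA qat1 qat3 qat6))) (Nat.add (Nat.mul w7 (Nat.mul 6 (KA qat1 qat3 qat7))) (Nat.add (Nat.mul w8 (Nat.mul 6 (KA qat1 qat3 qat8))) (Nat.add (Nat.mul w9 (Nat.mul 6 (KA qat1 qat3 qat9))) (Nat.add (Nat.mul w10 (Nat.mul 6 (KA qat1 qat3 qat10))) (Nat.add (Nat.mul w11 (Nat.mul 6 (KA qat1 qat3 qat11))) (Nat.add (Nat.mul w12 (Nat.mul 6 (KA qat1 qat3 qat12))) (Nat.add (Nat.mul w13 (Nat.mul 6 (KA qat1 qat3 qat13))) (Nat.add (Nat.mul w14 (Nat.mul 6 (KA qat1 qat3 qat14))) (Nat.add (Nat.mul w15 (Nat.mul 6 (KA qat1 qat3 qat15))) (Nat.add (Nat.mul w16 (Nat.mul 6 (KA qat1 qat3 qat16))) (Nat.add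 (Nat.mul w17 (Nat.mul 6 (KA qat1 qat3 qat17))) (Nat.add (Nat.mul w18 (Nat.mul 6 (KA qat1 qat3 qat18))) (Nat.add (Nat.mul w19 (Nat.mul 6 (KA qat1 qat3 qat19))) (Nat.add (Nat.mul w20 (Nat.mul 6 (KA qat1 qat3 qat20))) (Nat.add (Nat.mul w21 (Nat.mul 6 (KA qat1 qat3 qat21))) (Nat.add (Nat.mul w22 (Nat.mul 6 (KA qat1 qat3 qat22))) (Nat.add (Nat.mul w23 (Nat.mul 6 (KA qat1 qat3 qat23))) (Nat.add (Nat.mul w24 (Nat.mul 6 (KA qat1 qat3 qat24))) (Nat.add (Nat.mul w25 (Nat.mul 6 (KA qat1 qat3 qat25))) (Nat.add (Nat.mul w26 (Nat.mul 6 (KA qat1 qat3 qat26))) 0))))))))))))))))))))))))) (Nat.add (Nat.mul w4 (Nat.add (Nat.mul w4 (Nat.mul 3 (KA qat1 qat4 qat4))) (Nat.add (Nat.mul w5 (Nat.mul 6 (KA qat1 qat4 qat5))) (Nat.add (Nat.mul w6 (Nat.mul 6 (KA qat1 qat4 qat6))) (Nat.add (Nat.mul w7 (Nat.mul 6 (KA qat1 qat4 qat7))) (Nat.add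 (Nat.mul w8 (Nat.mul 6 (KA qat1 qat4 qat8))) (Nat.add (Nat.mul w9 (Nat.mul 6 (KA qat1 qat4 qat9))) (Nat.add (Nat.mul w10 (Nat.mul 6 (KA qat1 qat4 qat10))) (Nat.add (Nat.mul w11 (Nat.mul 6 (KA qat1 qat4 qat11))) (Nat.add (Nat.mul w12 (Nat.mul 6 (KA qat1 qat4 qat12))) (Nat.add (Nat.mul w13 (Nat.mul 6 (KA qat1 qat4 qat13))) (Nat.add (Nat.mul w14 (Nat.mul 6 (KA qat1 qat4 qat14))) (Nat.add (Nat.mul w15 (Nat.mul 6 (KA qat1 qat4 qat15))) (Nat.add (Nat.mul w16 (Nat.mul 6 (KA qat1 qat4 qat16))) (Nat.add (Nat.mul w17 (Nat.mul 6 (KA qat1 qat4 qat17))) (Nat.add (Nat.mul w18 (Nat.mul 6 (KA qat1 qat4 qat18))) (Nat.add (Nat.mul w19 (Nat.mul 6 (KA qat1 qat4 qat19))) (Nat.add (Nat.mul w20 (Nat.mul 6 (KA qat1 qat4 qat20))) (Nat.add (Nat.mul w21 (Nat.mul 6 (KA qat1 qat4 qat21))) (Nat.add (Nat.mul w22 (Nat.mul 6 (KA qat1 qat4 qat22)))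 (Nat.add (Nat.mul w23 (Nat.mul 6 (KA qat1 qat4 qat23))) (Nat.add (Nat.mul w24 (Nat.mul 6 (KA qat1 qat4 qat24))) (Nat.add (Nat.mul w25 (Nat.mul 6 (KA qat1 qat4 qat25))) (Nat.add (Nat.mul w26 (Nat.mul 6 (KA qat1 qat4 qat26))) 0)))))))))))))))))))))))) (Nat.add (Nat.mul w5 (Nat.add (Nat.mul w5 (Nat.mul 3 (KA qat1 qat5 qat5))) (Nat.add (Nat.mul w6 (Nat.mul 6 (KA qat1 qat5 qat6))) (Nat.add (Nat.mul w7 (Nat.mul 6 (KA qat1 qat5 qat7))) (Nat.add (Nat.mul w8 (Nat.mul 6 (KA qat1 qat5 qat8))) (Nat.add (Nat.mul w9 (Nat.mul 6 (KA qat1 qat5 qat9))) (Nat.add (Nat.mul w10 (Nat.mul 6 (KA qat1 qat5 qat10))) (Nat.add (Nat.mul w11 (Nat.mul 6 (KA qat1 qat5 qat11))) (Nat.add (Nat.mul w12 (Nat.mul 6 (KA qat1 qat5 qat12))) (Nat.add (Nat.mul w13 (Nat.mul 6 (KA qat1 qat5 qat13))) (Nat.add (Nat.mul w14 (Nat.mul 6 (KA qat1 qat5 qat14)))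 (Nat.add (Nat.mul w15 (Nat.mul 6 (KA qat1 qat5 qat15))) (Nat.add (Nat.mul w16 (Nat.mul 6 (KA qat1 qat5 qat16))) (Nat.add (Nat.mul w17 (Nat.mul 6 (KA qat1 qat5 qat17))) (Nat.add (Nat.mul w18 (Nat.mul 6 (KA qat1 qat5 qat18))) (Nat.add (Nat.mul w19 (Nat.mul 6 (KA qat1 qat5 qat19))) (Nat.add (Nat.mul w20 (Nat.mul 6 (KA qat1 qat5 qat20))) (Nat.add (Nat.mul w21 (Nat.mul 6 (KA qat1 qat5 qat21))) (Nat.add (Nat.mul w22 (Nat.mul 6 (KA qat1 qat5 qat22))) (Nat.add (Nat.mul w23 (Nat.mul 6 (KA qat1 qat5 qat23))) (Nat.add (Nat.mul w24 (Nat.mul 6 (KA qat1 qat5 qat24))) (Nat.add (Nat.mul w25 (Nat.mul 6 (KA qat1 qat5 qat25))) (Nat.add (Nat.mul w26 (Nat.mul 6 (KA qat1 qat5 qat26))) 0))))))))))))))))))))))) (Nat.add (Nat.mul w6 (Nat.add (Nat.mul w6 (Nat.mul 3 (KA qat1 qat6 qat6))) (Nat.add (Nat.mul w7 (Nat.mul 6 (KA qat1 qat6 qat7)))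 (Nat.add (Nat.mul w8 (Nat.mul 6 (KA qat1 qat6 qat8))) (Nat.add (Nat.mul w9 (Nat.mul 6 (KA qat1 qat6 qat9))) (Nat.add (Nat.mul w10 (Nat.mul 6 (KA qat1 qat6 qat10))) (Nat.add (Nat.mul w11 (Nat.mul 6 (KA qat1 qat6 qat11))) (Nat.add (Nat.mul w12 (Nat.mul 6 (KA qat1 qat6 qat12))) (Nat.add (Nat.mul w13 (Nat.mul 6 (KA qat1 qat6 qat13))) (Nat.add (Nat.mul w14 (Nat.mul 6 (KA qat1 qat6 qat14))) (Nat.add (Nat.mul w15 (Nat.mul 6 (KA qat1 qat6 qat15))) (Nat.add (Nat.mul w16 (Nat.mul 6 (KA qat1 qat6 qat16))) (Nat.add (Nat.mul w17 (Nat.mul 6 (KA qat1 qat6 qat17))) (Nat.add (Nat.mul w18 (Nat.mul 6 (KA qat1 qat6 qat18))) (Nat.add (Nat.mul w19 (Nat.mul 6 (KA qat1 qat6 qat19))) (Nat.add (Nat.mul w20 (Nat.mul 6 (KA qat1 qat6 qat20))) (Nat.add (Nat.mul w21 (Nat.mul 6 (KA qat1 qat6 qat21))) (Nat.add (Nat.mul w22 (Nat.mul 6 (KA qat1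 qat6 qat22))) (Nat.add (Nat.mul w23 (Nat.mul 6 (KA qat1 qat6 qat23))) (Nat.add (Nat.mul w24 (Nat.mul 6 (KA qat1 qat6 qat24))) (Nat.add (Nat.mul w25 (Nat.mul 6 (KA qat1 qat6 qat25))) (Nat.add (Nat.mul w26 (Nat.mul 6 (KA qat1 qat6 qat26))) 0)))))))))))))))))))))) (Nat.add (Nat.mul w7 (Nat.add (Nat.mul w7 (Nat.mul 3 (KA qat1 qat7 qat7))) (Nat.add (Nat.mul w8 (Nat.mul 6 (KA qat1 qat7 qat8))) (Nat.add (Nat.mul w9 (Nat.mul 6 (KA qat1 qat7 qat9))) (Nat.add (Nat.mul w10 (Nat.mul 6 (KA qat1 qat7 qat10))) (Nat.add (Nat.mul w11 (Nat.mul 6 (KA qat1 qat7 qat11))) (Nat.add (Nat.mul w12 (Nat.mul 6 (KA qat1 qat7 qat12))) (Nat.add (Nat.mul w13 (Nat.mul 6 (KA qat1 qat7 qat13))) (Nat.add (Nat.mul w14 (Nat.mul 6 (KA qat1 qat7 qat14))) (Nat.add (Nat.mul w15 (Nat.mul 6 (KA qat1 qat7 qat15))) (Nat.add (Nat.mul w16 (Nat.mul 6 (KA qat1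 qat7 qat16))) (Nat.add (Nat.mul w17 (Nat.mul 6 (KA qat1 qat7 qat17))) (Nat.add (Nat.mul w18 (Nat.mul 6 (KA qat1 qat7 qat18))) (Nat.add (Nat.mul w19 (Nat.mul 6 (KA qat1 qat7 qat19))) (Nat.add (Nat.mul w20 (Nat.mul 6 (KA qat1 qat7 qat20))) (Nat.add (Nat.mul w21 (Nat.mul 6 (KA qat1 qat7 qat21))) (Nat.add (Nat.mul w22 (Nat.mul 6 (KA qat1 qat7 qat22))) (Nat.add (Nat.mul w23 (Nat.mul 6 (KA qat1 qat7 qat23))) (Nat.add (Nat.mul w24 (Nat.mul 6 (KA qat1 qat7 qat24))) (Nat.add (Nat.mul w25 (Nat.mul 6 (KA qat1 qat7 qat25))) (Nat.add (Nat.mul w26 (Nat.mul 6 (KA qat1 qat7 qat26))) 0))))))))))))))))))))) (Nat.add (Nat.mul w8 (Nat.add (Nat.mul w8 (Nat.mul 3 (KA qat1 qat8 qat8))) (Nat.add (Nat.mul w9 (Nat.mul 6 (KA qat1 qat8 qat9))) (Nat.add (Nat.mul w10 (Nat.mul 6 (KA qat1 qat8 qat10))) (Nat.add (Nat.mul w11 (Nat.mul 6 (KA qat1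 qat8 qat11))) (Nat.add (Nat.mul w12 (Nat.mul 6 (KA qat1 qat8 qat12))) (Nat.add (Nat.mul w13 (Nat.mul 6 (KA qat1 qat8 qat13))) (Nat.add (Nat.mul w14 (Nat.mul 6 (KA qat1 qat8 qat14))) (Nat.add (Nat.mul w15 (Nat.mul 6 (KA qat1 qat8 qat15))) (Nat.add (Nat.mul w16 (Nat.mul 6 (KA qat1 qat8 qat16))) (Nat.add (Nat.mul w17 (Nat.mul 6 (KA qat1 qat8 qat17))) (Nat.add (Nat.mul w18 (Nat.mul 6 (KA qat1 qat8 qat18))) (Nat.add (Nat.mul w19 (Nat.mul 6 (KA qat1 qat8 qat19))) (Nat.add (Nat.mul w20 (Nat.mul 6 (KA qat1 qat8 qat20))) (Nat.add (Nat.mul w21 (Nat.mul 6 (KA qat1 qat8 qat21))) (Nat.add (Nat.mul w22 (Nat.mul 6 (KA qat1 qat8 qat22))) (Nat.add (Nat.mul w23 (Nat.mul 6 (KA qat1 qat8 qat23))) (Nat.add (Nat.mul w24 (Nat.mul 6 (KA qat1 qat8 qat24))) (Nat.add (Nat.mul w25 (Nat.mul 6 (KA qat1 qat8 qat25))) (Nat.add (Nat.mul w26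 (Nat.mul 6 (KA qat1 qat8 qat26))) 0)))))))))))))))))))) (Nat.add (Nat.mul w9 (Nat.add (Nat.mul w9 (Nat.mul 3 (KA qat1 qat9 qat9))) (Nat.add (Nat.mul w10 (Nat.mul 6 (KA qat1 qat9 qat10))) (Nat.add (Nat.mul w11 (Nat.mul 6 (KA qat1 qat9 qat11))) (Nat.add (Nat.mul w12 (Nat.mul 6 (KA qat1 qat9 qat12))) (Nat.add (Nat.mul w13 (Nat.mul 6 (KA qat1 qat9 qat13))) (Nat.add (Nat.mul w14 (Nat.mul 6 (KA qat1 qat9 qat14))) (Nat.add (Nat.mul w15 (Nat.mul 6 (KA qat1 qat9 qat15))) (Nat.add (Nat.mul w16 (Nat.mul 6 (KA qat1 qat9 qat16))) (Nat.add (Nat.mul w17 (Nat.mul 6 (KA qat1 qat9 qat17))) (Nat.add (Nat.mul w18 (Nat.mul 6 (KA qat1 qat9 qat18))) (Nat.add (Nat.mul w19 (Nat.mul 6 (KA qat1 qat9 qat19))) (Nat.add (Nat.mul w20 (Nat.mul 6 (KA qat1 qat9 qat20))) (Nat.add (Nat.mul w21 (Nat.mul 6 (KA qat1 qat9 qat21))) (Nat.add (Nat.mul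 w22 (Nat.mul 6 (KA qat1 qat9 qat22))) (Nat.add (Nat.mul w23 (Nat.mul 6 (KA qat1 qat9 qat23))) (Nat.add (Nat.mul w24 (Nat.mul 6 (KA qat1 qat9 qat24))) (Nat.add (Nat.mul w25 (Nat.mul 6 (KA qat1 qat9 qat25))) (Nat.add (Nat.mul w26 (Nat.mul 6 (KA qat1 qat9 qat26))) 0))))))))))))))))))) (Nat.add (Nat.mul w10 (Nat.add (Nat.mul w10 (Nat.mul 3 (KA qat1 qat10 qat10))) (Nat.add (Nat.mul w11 (Nat.mul 6 (KA qat1 qat10 qat11))) (Nat.add (Nat.mul w12 (Nat.mul 6 (KA qat1 qat10 qat12))) (Nat.add (Nat.mul w13 (Nat.mul 6 (KA qat1 qat10 qat13))) (Nat.add (Nat.mul w14 (Nat.mul 6 (KA qat1 qat10 qat14))) (Nat.add (Nat.mul w15 (Nat.mul 6 (KA qat1 qat10 qat15))) (Nat.add (Nat.mul w16 (Nat.mul 6 (KA qat1 qat10 qat16))) (Nat.add (Nat.mul w17 (Nat.mul 6 (KA qat1 qat10 qat17))) (Nat.add (Nat.mul w18 (Nat.mul 6 (KA qat1 qat10 qat18))) (Nat.add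 (Nat.mul w19 (Nat.mul 6 (KA qat1 qat10 qat19))) (Nat.add (Nat.mul w20 (Nat.mul 6 (KA qat1 qat10 qat20))) (Nat.add (Nat.mul w21 (Nat.mul 6 (KA qat1 qat10 qat21))) (Nat.add (Nat.mul w22 (Nat.mul 6 (KA qat1 qat10 qat22))) (Nat.add (Nat.mul w23 (Nat.mul 6 (KA qat1 qat10 qat23))) (Nat.add (Nat.mul w24 (Nat.mul 6 (KA qat1 qat10 qat24))) (Nat.add (Nat.mul w25 (Nat.mul 6 (KA qat1 qat10 qat25))) (Nat.add (Nat.mul w26 (Nat.mul 6 (KA qat1 qat10 qat26))) 0)))))))))))))))))) (Nat.add (Nat.mul w11 (Nat.add (Nat.mul w11 (Nat.mul 3 (KA qat1 qat11 qat11))) (Nat.add (Nat.mul w12 (Nat.mul 6 (KA qat1 qat11 qat12))) (Nat.add (Nat.mul w13 (Nat.mul 6 (KA qat1 qat11 qat13))) (Nat.add (Nat.mul w14 (Nat.mul 6 (KA qat1 qat11 qat14))) (Nat.add (Nat.mul w15 (Nat.mul 6 (KA qat1 qat11 qat15))) (Nat.add (Nat.mul w16 (Nat.mul 6 (KA qat1 qat11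 qat16))) (Nat.add (Nat.mul w17 (Nat.mul 6 (KA qat1 qat11 qat17))) (Nat.add (Nat.mul w18 (Nat.mul 6 (KA qat1 qat11 qat18))) (Nat.add (Nat.mul w19 (Nat.mul 6 (KA qat1 qat11 qat19))) (Nat.add (Nat.mul w20 (Nat.mul 6 (KA qat1 qat11 qat20))) (Nat.add (Nat.mul w21 (Nat.mul 6 (KA qat1 qat11 qat21))) (Nat.add (Nat.mul w22 (Nat.mul 6 (KA qat1 qat11 qat22))) (Nat.add (Nat.mul w23 (Nat.mul 6 (KA qat1 qat11 qat23))) (Nat.add (Nat.mul w24 (Nat.mul 6 (KA qat1 qat11 qat24))) (Nat.add (Nat.mul w25 (Nat.mul 6 (KA qat1 qat11 qat25))) (Nat.add (Nat.mul w26 (Nat.mul 6 (KA qat1 qat11 qat26))) 0))))))))))))))))) (Nat.add (Nat.mul w12 (Nat.add (Nat.mul w12 (Nat.mul 3 (KA qat1 qat12 qat12))) (Nat.add (Nat.mul w13 (Nat.mul 6 (KA qat1 qat12 qat13))) (Nat.add (Nat.mul w14 (Nat.mul 6 (KA qat1 qat12 qat14))) (Nat.add (Nat.mul w15 (Nat.mul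 6 (KA qat1 qat12 qat15))) (Nat.add (Nat.mul w16 (Nat.mul 6 (KA qat1 qat12 qat16))) (Nat.add (Nat.mul w17 (Nat.mul 6 (KA qat1 qat12 qat17))) (Nat.add (Nat.mul w18 (Nat.mul 6 (KA qat1 qat12 qat18))) (Nat.add (Nat.mul w19 (Nat.mul 6 (KA qat1 qat12 qat19))) (Nat.add (Nat.mul w20 (Nat.mul 6 (KA qat1 qat12 qat20))) (Nat.add (Nat.mul w21 (Nat.mul 6 (KA qat1 qat12 qat21))) (Nat.add (Nat.mul w22 (Nat.mul 6 (KA qat1 qat12 qat22))) (Nat.add (Nat.mul w23 (Nat.mul 6 (KA qat1 qat12 qat23))) (Nat.add (Nat.mul w24 (Nat.mul 6 (KA qat1 qat12 qat24))) (Nat.add (Nat.mul w25 (Nat.mul 6 (KA qat1 qat12 qat25))) (Nat.add (Nat.mul w26 (Nat.mul 6 (KA qat1 qat12 qat26))) 0)))))))))))))))) (Nat.add (Nat.mul w13 (Nat.add (Nat.mul w13 (Nat.mul 3 (KA qat1 qat13 qat13))) (Nat.add (Nat.mul w14 (Nat.mul 6 (KA qat1 qat13 qat14))) (Nat.add (Nat.mul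 w15 (Nat.mul 6 (KA qat1 qat13 qat15))) (Nat.add (Nat.mul w16 (Nat.mul 6 (KA qat1 qat13 qat16))) (Nat.add (Nat.mul w17 (Nat.mul 6 (KA qat1 qat13 qat17))) (Nat.add (Nat.mul w18 (Nat.mul 6 (KA qat1 qat13 qat18))) (Nat.add (Nat.mul w19 (Nat.mul 6 (KA qat1 qat13 qat19))) (Nat.add (Nat.mul w20 (Nat.mul 6 (KA qat1 qat13 qat20))) (Nat.add (Nat.mul w21 (Nat.mul 6 (KA qat1 qat13 qat21))) (Nat.add (Nat.mul w22 (Nat.mul 6 (KA qat1 qat13 qat22))) (Nat.add (Nat.mul w23 (Nat.mul 6 (KA qat1 qat13 qat23))) (Nat.add (Nat.mul w24 (Nat.mul 6 (KA qat1 qat13 qat24))) (Nat.add (Nat.mul w25 (Nat.mul 6 (KA qat1 qat13 qat25))) (Nat.add (Nat.mul w26 (Nat.mul 6 (KA qat1 qat13 qat26))) 0))))))))))))))) (Nat.add (Nat.mul w14 (Nat.add (Nat.mul w14 (Nat.mul 3 (KA qat1 qat14 qat14))) (Nat.add (Nat.mul w15 (Nat.mul 6 (KA qat1 qat14 qat15))) (Nat.add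 (Nat.mul w16 (Nat.mul 6 (KA qat1 qat14 qat16))) (Nat.add (Nat.mul w17 (Nat.mul 6 (KA qat1 qat14 qat17))) (Nat.add (Nat.mul w18 (Nat.mul 6 (KA qat1 qat14 qat18))) (Nat.add (Nat.mul w19 (Nat.mul 6 (KA qat1 qat14 qat19))) (Nat.add (Nat.mul w20 (Nat.mul 6 (KA qat1 qat14 qat20))) (Nat.add (Nat.mul w21 (Nat.mul 6 (KA qat1 qat14 qat21))) (Nat.add (Nat.mul w22 (Nat.mul 6 (KA qat1 qat14 qat22))) (Nat.add (Nat.mul w23 (Nat.mul 6 (KA qat1 qat14 qat23))) (Nat.add (Nat.mul w24 (Nat.mul 6 (KA qat1 qat14 qat24))) (Nat.add (Nat.mul w25 (Nat.mul 6 (KA qat1 qat14 qat25))) (Nat.add (Nat.mul w26 (Nat.mul 6 (KA qat1 qat14 qat26))) 0)))))))))))))) (Nat.add (Nat.mul w15 (Nat.add (Nat.mul w15 (Nat.mul 3 (KA qat1 qat15 qat15))) (Nat.add (Nat.mul w16 (Nat.mul 6 (KA qat1 qat15 qat16))) (Nat.add (Nat.mul w17 (Nat.mul 6 (KA qat1 qat15 qat17)))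 (Nat.add (Nat.mul w18 (Nat.mul 6 (KA qat1 qat15 qat18))) (Nat.add (Nat.mul w19 (Nat.mul 6 (KA qat1 qat15 qat19))) (Nat.add (Nat.mul w20 (Nat.mul 6 (KA qat1 qat15 qat20))) (Nat.add (Nat.mul w21 (Nat.mul 6 (KA qat1 qat15 qat21))) (Nat.add (Nat.mul w22 (Nat.mul 6 (KA qat1 qat15 qat22))) (Nat.add (Nat.mul w23 (Nat.mul 6 (KA qat1 qat15 qat23))) (Nat.add (Nat.mul w24 (Nat.mul 6 (KA qat1 qat15 qat24))) (Nat.add (Nat.mul w25 (Nat.mul 6 (KA qat1 qat15 qat25))) (Nat.add (Nat.mul w26 (Nat.mul 6 (KA qat1 qat15 qat26))) 0))))))))))))) (Nat.add (Nat.mul w16 (Nat.add (Nat.mul w16 (Nat.mul 3 (KA qat1 qat16 qat16))) (Nat.add (Nat.mul w17 (Nat.mul 6 (KA qat1 qat16 qat17))) (Nat.add (Nat.mul w18 (Nat.mul 6 (KA qat1 qat16 qat18))) (Nat.add (Nat.mul w19 (Nat.mul 6 (KA qat1 qat16 qat19))) (Nat.add (Nat.mul w20 (Nat.mul 6 (KA qat1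 qat16 qat20))) (Nat.add (Nat.mul w21 (Nat.mul 6 (KA qat1 qat16 qat21))) (Nat.add (Nat.mul w22 (Nat.mul 6 (KA qat1 qat16 qat22))) (Nat.add (Nat.mul w23 (Nat.mul 6 (KA qat1 qat16 qat23))) (Nat.add (Nat.mul w24 (Nat.mul 6 (KA qat1 qat16 qat24))) (Nat.add (Nat.mul w25 (Nat.mul 6 (KA qat1 qat16 qat25))) (Nat.add (Nat.mul w26 (Nat.mul 6 (KA qat1 qat16 qat26))) 0)))))))))))) (Nat.add (Nat.mul w17 (Nat.add (Nat.mul w17 (Nat.mul 3 (KA qat1 qat17 qat17))) (Nat.add (Nat.mul w18 (Nat.mul 6 (KA qat1 qat17 qat18))) (Nat.add (Nat.mul w19 (Nat.mul 6 (KA qat1 qat17 qat19))) (Nat.add (Nat.mul w20 (Nat.mul 6 (KA qat1 qat17 qat20))) (Nat.add (Nat.mul w21 (Nat.mul 6 (KA qat1 qat17 qat21))) (Nat.add (Nat.mul w22 (Nat.mul 6 (KA qat1 qat17 qat22))) (Nat.add (Nat.mul w23 (Nat.mul 6 (KA qat1 qat17 qat23))) (Nat.add (Nat.mul w24 (Nat.mul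 6 (KA qat1 qat17 qat24))) (Nat.add (Nat.mul w25 (Nat.mul 6 (KA qat1 qat17 qat25))) (Nat.add (Nat.mul w26 (Nat.mul 6 (KA qat1 qat17 qat26))) 0))))))))))) (Nat.add (Nat.mul w18 (Nat.add (Nat.mul w18 (Nat.mul 3 (KA qat1 qat18 qat18))) (Nat.add (Nat.mul w19 (Nat.mul 6 (KA qat1 qat18 qat19))) (Nat.add (Nat.mul w20 (Nat.mul 6 (KA qat1 qat18 qat20))) (Nat.add (Nat.mul w21 (Nat.mul 6 (KA qat1 qat18 qat21))) (Nat.add (Nat.mul w22 (Nat.mul 6 (KA qat1 qat18 qat22))) (Nat.add (Nat.mul w23 (Nat.mul 6 (KA qat1 qat18 qat23))) (Nat.add (Nat.mul w24 (Nat.mul 6 (KA qat1 qat18 qat24))) (Nat.add (Nat.mul w25 (Nat.mul 6 (KA qat1 qat18 qat25))) (Nat.add (Nat.mul w26 (Nat.mul 6 (KA qat1 qat18 qat26))) 0)))))))))) (Nat.add (Nat.mul w19 (Nat.add (Nat.mul w19 (Nat.mul 3 (KA qat1 qat19 qat19))) (Nat.add (Nat.mul w20 (Nat.mul 6 (KA qat1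 qat19 qat20))) (Nat.add (Nat.mul w21 (Nat.mul 6 (KA qat1 qat19 qat21))) (Nat.add (Nat.mul w22 (Nat.mul 6 (KA qat1 qat19 qat22))) (Nat.add (Nat.mul w23 (Nat.mul 6 (KA qat1 qat19 qat23))) (Nat.add (Nat.mul w24 (Nat.mul 6 (KA qat1 qat19 qat24))) (Nat.add (Nat.mul w25 (Nat.mul 6 (KA qat1 qat19 qat25))) (Nat.add (Nat.mul w26 (Nat.mul 6 (KA qat1 qat19 qat26))) 0))))))))) (Nat.add (Nat.mul w20 (Nat.add (Nat.mul w20 (Nat.mul 3 (KA qat1 qat20 qat20))) (Nat.add (Nat.mul w21 (Nat.mul 6 (KA qat1 qat20 qat21))) (Nat.add (Nat.mul w22 (Nat.mul 6 (KA qat1 qat20 qat22))) (Nat.add (Nat.mul w23 (Nat.mul 6 (KA qat1 qat20 qat23))) (Nat.add (Nat.mul w24 (Nat.mul 6 (KA qat1 qat20 qat24))) (Nat.add (Nat.mul w25 (Nat.mul 6 (KA qat1 qat20 qat25))) (Nat.add (Nat.mul w26 (Nat.mul 6 (KA qat1 qat20 qat26))) 0)))))))) (Nat.add (Nat.mul w21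 (Nat.add (Nat.mul w21 (Nat.mul 3 (KA qat1 qat21 qat21))) (Nat.add (Nat.mul w22 (Nat.mul 6 (KA qat1 qat21 qat22))) (Nat.add (Nat.mul w23 (Nat.mul 6 (KA qat1 qat21 qat23))) (Nat.add (Nat.mul w24 (Nat.mul 6 (KA qat1 qat21 qat24))) (Nat.add (Nat.mul w25 (Nat.mul 6 (KA qat1 qat21 qat25))) (Nat.add (Nat.mul w26 (Nat.mul 6 (KA qat1 qat21 qat26))) 0))))))) (Nat.add (Nat.mul w22 (Nat.add (Nat.mul w22 (Nat.mul 3 (KA qat1 qat22 qat22))) (Nat.add (Nat.mul w23 (Nat.mul 6 (KA qat1 qat22 qat23))) (Nat.add (Nat.mul w24 (Nat.mul 6 (KA qat1 qat22 qat24))) (Nat.add (Nat.mul w25 (Nat.mul 6 (KA qat1 qat22 qat25))) (Nat.add (Nat.mul w26 (Nat.mul 6 (KA qat1 qat22 qat26))) 0)))))) (Nat.add (Nat.mul w23 (Nat.add (Nat.mul w23 (Nat.mul 3 (KA qat1 qat23 qat23))) (Nat.add (Nat.mul w24 (Nat.mul 6 (KA qat1 qat23 qat24))) (Nat.add (Nat.mul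 w25 (Nat.mul 6 (KA qat1 qat23 qat25))) (Nat.add (Nat.mul w26 (Nat.mul 6 (KA qat1 qat23 qat26))) 0))))) (Nat.add (Nat.mul w24 (Nat.add (Nat.mul w24 (Nat.mul 3 (KA qat1 qat24 qat24))) (Nat.add (Nat.mul w25 (Nat.mul 6 (KA qat1 qat24 qat25))) (Nat.add (Nat.mul w26 (Nat.mul 6 (KA qat1 qat24 qat26))) 0)))) (Nat.add (Nat.mul w25 (Nat.add (Nat.mul w25 (Nat.mul 3 (KA qat1 qat25 qat25))) (Nat.add (Nat.mul w26 (Nat.mul 6 (KA qat1 qat25 qat26))) 0))) (Nat.add (Nat.mul w26 (Nat.add (Nat.mul w26 (Nat.mul 3 (KA qat1 qat26 qat26))) (0))) 0))))))))))))))))))))))))))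

/-- Terms with least index 2. -/
noncomputable def qa2 (w2 w3 w4 w5 w6 w7 w8 w9 w10 w11 w12 w13 w14 w15 w16 w17 w18 w19 w20 w21 w22 w23 w24 w25 w26 : Nat) : Nat :=
  Nat.mul w2 (Nat.add (Nat.mul w2 (Nat.add (Nat.mul w2 (KA qat2 qat2 qat2)) (Nat.add (Nat.mul w3 (Nat.mul 3 (KA qat2 qat2 qat3))) (Nat.add (Nat.mul w4 (Nat.mul 3 (KA qat2 qat2 qat4))) (Nat.add (Nat.mul w5 (Nat.mul 3 (KA qat2 qat2 qat5))) (Nat.add (Nat.mul w6 (Nat.mul 3 (KA qat2 qat2 qat6))) (Nat.add (Nat.mul w7 (Nat.mul 3 (KA qat2 qat2 qat7))) (Nat.add (Nat.mul w8 (Nat.mul 3 (KA qat2 qat2 qat8))) (Nat.add (Nat.mul w9 (Nat.mul 3 (KA qat2 qat2 qat9))) (Nat.add (Nat.mul w10 (Nat.mul 3 (KA qat2 qat2 qat10))) (Nat.add (Nat.mul w11 (Nat.mul 3 (KA qat2 qat2 qat11))) (Nat.add (Nat.mul w12 (Nat.mul 3 (KA qat2 qat2 qat12))) (Nat.add (Nat.mul w13 (Nat.mul 3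 (KA qat2 qat2 qat13))) (Nat.add (Nat.mul w14 (Nat.mul 3 (KA qat2 qat2 qat14))) (Nat.add (Nat.mul w15 (Nat.mul 3 (KA qat2 qat2 qat15))) (Nat.add (Nat.mul w16 (Nat.mul 3 (KA qat2 qat2 qat16))) (Nat.add (Nat.mul w17 (Nat.mul 3 (KA qat2 qat2 qat17))) (Nat.add (Nat.mul w18 (Nat.mul 3 (KA qat2 qat2 qat18))) (Nat.add (Nat.mul w19 (Nat.mul 3 (KA qat2 qat2 qat19))) (Nat.add (Nat.mul w20 (Nat.mul 3 (KA qat2 qat2 qat20))) (Nat.add (Nat.mul w21 (Nat.mul 3 (KA qat2 qat2 qat21))) (Nat.add (Nat.mul w22 (Nat.mul 3 (KA qat2 qat2 qat22))) (Nat.add (Nat.mul w23 (Nat.mul 3 (KA qat2 qat2 qat23))) (Nat.add (Nat.mul w24 (Nat.mul 3 (KA qat2 qat2 qat24))) (Nat.add (Nat.mul w25 (Nat.mul 3 (KA qat2 qat2 qat25))) (Nat.add (Nat.mul w26 (Nat.mul 3 (KA qat2 qat2 qat26))) 0)))))))))))))))))))))))))) (Nat.add (Nat.mul w3 (Nat.add (Nat.mul w3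 (Nat.mul 3 (KA qat2 qat3 qat3))) (Nat.add (Nat.mul w4 (Nat.mul 6 (KA qat2 qat3 qat4))) (Nat.add (Nat.mul w5 (Nat.mul 6 (KA qat2 qat3 qat5))) (Nat.add (Nat.mul w6 (Nat.mul 6 (KA qat2 qat3 qat6))) (Nat.add (Nat.mul w7 (Nat.mul 6 (KA qat2 qat3 qat7))) (Nat.add (Nat.mul w8 (Nat.mul 6 (KA qat2 qat3 qat8))) (Nat.add (Nat.mul w9 (Nat.mul 6 (KA qat2 qat3 qat9))) (Nat.add (Nat.mul w10 (Nat.mul 6 (KA qat2 qat3 qat10))) (Nat.add (Nat.mul w11 (Nat.mul 6 (KA qat2 qat3 qat11))) (Nat.add (Nat.mul w12 (Nat.mul 6 (KA qat2 qat3 qat12))) (Nat.add (Nat.mul w13 (Nat.mul 6 (KA qat2 qat3 qat13))) (Nat.add (Nat.mul w14 (Nat.mul 6 (KA qat2 qat3 qat14))) (Nat.add (Nat.mul w15 (Nat.mul 6 (KA qat2 qat3 qat15))) (Nat.add (Nat.mul w16 (Nat.mul 6 (KA qat2 qat3 qat16))) (Nat.add (Nat.mul w17 (Nat.mul 6 (KA qat2 qat3 qat17))) (Nat.add (Nat.mul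 w18 (Nat.mul 6 (KA qat2 qat3 qat18))) (Nat.add (Nat.mul w19 (Nat.mul 6 (KA qat2 qat3 qat19))) (Nat.add (Nat.mul w20 (Nat.mul 6 (KA qat2 qat3 qat20))) (Nat.add (Nat.mul w21 (Nat.mul 6 (KA qat2 qat3 qat21))) (Nat.add (Nat.mul w22 (Nat.mul 6 (KA qat2 qat3 qat22))) (Nat.add (Nat.mul w23 (Nat.mul 6 (KA qat2 qat3 qat23))) (Nat.add (Nat.mul w24 (Nat.mul 6 (KA qat2 qat3 qat24))) (Nat.add (Nat.mul w25 (Nat.mul 6 (KA qat2 qat3 qat25))) (Nat.add (Nat.mul w26 (Nat.mul 6 (KA qat2 qat3 qat26))) 0))))))))))))))))))))))))) (Nat.add (Nat.mul w4 (Nat.add (Nat.mul w4 (Nat.mul 3 (KA qat2 qat4 qat4))) (Nat.add (Nat.mul w5 (Nat.mul 6 (KA qat2 qat4 qat5))) (Nat.add (Nat.mul w6 (Nat.mul 6 (KA qat2 qat4 qat6))) (Nat.add (Nat.mul w7 (Nat.mul 6 (KA qat2 qat4 qat7))) (Nat.add (Nat.mul w8 (Nat.mul 6 (KA qat2 qat4 qat8))) (Nat.add (Nat.mul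 w9 (Nat.mul 6 (KA qat2 qat4 qat9))) (Nat.add (Nat.mul w10 (Nat.mul 6 (KA qat2 qat4 qat10))) (Nat.add (Nat.mul w11 (Nat.mul 6 (KA qat2 qat4 qat11))) (Nat.add (Nat.mul w12 (Nat.mul 6 (KA qat2 qat4 qat12))) (Nat.add (Nat.mul w13 (Nat.mul 6 (KA qat2 qat4 qat13))) (Nat.add (Nat.mul w14 (Nat.mul 6 (KA qat2 qat4 qat14))) (Nat.add (Nat.mul w15 (Nat.mul 6 (KA qat2 qat4 qat15))) (Nat.add (Nat.mul w16 (Nat.mul 6 (KA qat2 qat4 qat16))) (Nat.add (Nat.mul w17 (Nat.mul 6 (KA qat2 qat4 qat17))) (Nat.add (Nat.mul w18 (Nat.mul 6 (KA qat2 qat4 qat18))) (Nat.add (Nat.mul w19 (Nat.mul 6 (KA qat2 qat4 qat19))) (Nat.add (Nat.mul w20 (Nat.mul 6 (KA qat2 qat4 qat20))) (Nat.add (Nat.mul w21 (Nat.mul 6 (KA qat2 qat4 qat21))) (Nat.add (Nat.mul w22 (Nat.mul 6 (KA qat2 qat4 qat22))) (Nat.add (Nat.mul w23 (Nat.mul 6 (KA qat2 qat4 qat23)))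 (Nat.add (Nat.mul w24 (Nat.mul 6 (KA qat2 qat4 qat24))) (Nat.add (Nat.mul w25 (Nat.mul 6 (KA qat2 qat4 qat25))) (Nat.add (Nat.mul w26 (Nat.mul 6 (KA qat2 qat4 qat26))) 0)))))))))))))))))))))))) (Nat.add (Nat.mul w5 (Nat.add (Nat.mul w5 (Nat.mul 3 (KA qat2 qat5 qat5))) (Nat.add (Nat.mul w6 (Nat.mul 6 (KA qat2 qat5 qat6))) (Nat.add (Nat.mul w7 (Nat.mul 6 (KA qat2 qat5 qat7))) (Nat.add (Nat.mul w8 (Nat.mul 6 (KA qat2 qat5 qat8))) (Nat.add (Nat.mul w9 (Nat.mul 6 (KA qat2 qat5 qat9))) (Nat.add (Nat.mul w10 (Nat.mul 6 (KA qat2 qat5 qat10))) (Nat.add (Nat.mul w11 (Nat.mul 6 (KA qat2 qat5 qat11))) (Nat.add (Nat.mul w12 (Nat.mul 6 (KA qat2 qat5 qat12))) (Nat.add (Nat.mul w13 (Nat.mul 6 (KA qat2 qat5 qat13))) (Nat.add (Nat.mul w14 (Nat.mul 6 (KA qat2 qat5 qat14))) (Nat.add (Nat.mul w15 (Nat.mul 6 (KA qat2 qat5 qat15)))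 (Nat.add (Nat.mul w16 (Nat.mul 6 (KA qat2 qat5 qat16))) (Nat.add (Nat.mul w17 (Nat.mul 6 (KA qat2 qat5 qat17))) (Nat.add (Nat.mul w18 (Nat.mul 6 (KA qat2 qat5 qat18))) (Nat.add (Nat.mul w19 (Nat.mul 6 (KA qat2 qat5 qat19))) (Nat.add (Nat.mul w20 (Nat.mul 6 (KA qat2 qat5 qat20))) (Nat.add (Nat.mul w21 (Nat.mul 6 (KA qat2 qat5 qat21))) (Nat.add (Nat.mul w22 (Nat.mul 6 (KA qat2 qat5 qat22))) (Nat.add (Nat.mul w23 (Nat.mul 6 (KA qat2 qat5 qat23))) (Nat.add (Nat.mul w24 (Nat.mul 6 (KA qat2 qat5 qat24))) (Nat.add (Nat.mul w25 (Nat.mul 6 (KA qat2 qat5 qat25))) (Nat.add (Nat.mul w26 (Nat.mul 6 (KA qat2 qat5 qat26))) 0))))))))))))))))))))))) (Nat.add (Nat.mul w6 (Nat.add (Nat.mul w6 (Nat.mul 3 (KA qat2 qat6 qat6))) (Nat.add (Nat.mul w7 (Nat.mul 6 (KA qat2 qat6 qat7))) (Nat.add (Nat.mul w8 (Nat.mul 6 (KA qat2 qat6 qat8)))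 (Nat.add (Nat.mul w9 (Nat.mul 6 (KA qat2 qat6 qat9))) (Nat.add (Nat.mul w10 (Nat.mul 6 (KA qat2 qat6 qat10))) (Nat.add (Nat.mul w11 (Nat.mul 6 (KA qat2 qat6 qat11))) (Nat.add (Nat.mul w12 (Nat.mul 6 (KA qat2 qat6 qat12))) (Nat.add (Nat.mul w13 (Nat.mul 6 (KA qat2 qat6 qat13))) (Nat.add (Nat.mul w14 (Nat.mul 6 (KA qat2 qat6 qat14))) (Nat.add (Nat.mul w15 (Nat.mul 6 (KA qat2 qat6 qat15))) (Nat.add (Nat.mul w16 (Nat.mul 6 (KA qat2 qat6 qat16))) (Nat.add (Nat.mul w17 (Nat.mul 6 (KA qat2 qat6 qat17))) (Nat.add (Nat.mul w18 (Nat.mul 6 (KA qat2 qat6 qat18))) (Nat.add (Nat.mul w19 (Nat.mul 6 (KA qat2 qat6 qat19))) (Nat.add (Nat.mul w20 (Nat.mul 6 (KA qat2 qat6 qat20))) (Nat.add (Nat.mul w21 (Nat.mul 6 (KA qat2 qat6 qat21))) (Nat.add (Nat.mul w22 (Nat.mul 6 (KA qat2 qat6 qat22))) (Nat.add (Nat.mul w23 (Nat.mul 6 (KA qat2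 qat6 qat23))) (Nat.add (Nat.mul w24 (Nat.mul 6 (KA qat2 qat6 qat24))) (Nat.add (Nat.mul w25 (Nat.mul 6 (KA qat2 qat6 qat25))) (Nat.add (Nat.mul w26 (Nat.mul 6 (KA qat2 qat6 qat26))) 0)))))))))))))))))))))) (Nat.add (Nat.mul w7 (Nat.add (Nat.mul w7 (Nat.mul 3 (KA qat2 qat7 qat7))) (Nat.add (Nat.mul w8 (Nat.mul 6 (KA qat2 qat7 qat8))) (Nat.add (Nat.mul w9 (Nat.mul 6 (KA qat2 qat7 qat9))) (Nat.add (Nat.mul w10 (Nat.mul 6 (KA qat2 qat7 qat10))) (Nat.add (Nat.mul w11 (Nat.mul 6 (KA qat2 qat7 qat11))) (Nat.add (Nat.mul w12 (Nat.mul 6 (KA qat2 qat7 qat12))) (Nat.add (Nat.mul w13 (Nat.mul 6 (KA qat2 qat7 qat13))) (Nat.add (Nat.mul w14 (Nat.mul 6 (KA qat2 qat7 qat14))) (Nat.add (Nat.mul w15 (Nat.mul 6 (KA qat2 qat7 qat15))) (Nat.add (Nat.mul w16 (Nat.mul 6 (KA qat2 qat7 qat16))) (Nat.add (Nat.mul w17 (Nat.mul 6 (KA qat2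 qat7 qat17))) (Nat.add (Nat.mul w18 (Nat.mul 6 (KA qat2 qat7 qat18))) (Nat.add (Nat.mul w19 (Nat.mul 6 (KA qat2 qat7 qat19))) (Nat.add (Nat.mul w20 (Nat.mul 6 (KA qat2 qat7 qat20))) (Nat.add (Nat.mul w21 (Nat.mul 6 (KA qat2 qat7 qat21))) (Nat.add (Nat.mul w22 (Nat.mul 6 (KA qat2 qat7 qat22))) (Nat.add (Nat.mul w23 (Nat.mul 6 (KA qat2 qat7 qat23))) (Nat.add (Nat.mul w24 (Nat.mul 6 (KA qat2 qat7 qat24))) (Nat.add (Nat.mul w25 (Nat.mul 6 (KA qat2 qat7 qat25))) (Nat.add (Nat.mul w26 (Nat.mul 6 (KA qat2 qat7 qat26))) 0))))))))))))))))))))) (Nat.add (Nat.mul w8 (Nat.add (Nat.mul w8 (Nat.mul 3 (KA qat2 qat8 qat8))) (Nat.add (Nat.mul w9 (Nat.mul 6 (KA qat2 qat8 qat9))) (Nat.add (Nat.mul w10 (Nat.mul 6 (KA qat2 qat8 qat10))) (Nat.add (Nat.mul w11 (Nat.mul 6 (KA qat2 qat8 qat11))) (Nat.add (Nat.mul w12 (Nat.mul 6 (KA qat2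 qat8 qat12))) (Nat.add (Nat.mul w13 (Nat.mul 6 (KA qat2 qat8 qat13))) (Nat.add (Nat.mul w14 (Nat.mul 6 (KA qat2 qat8 qat14))) (Nat.add (Nat.mul w15 (Nat.mul 6 (KA qat2 qat8 qat15))) (Nat.add (Nat.mul w16 (Nat.mul 6 (KA qat2 qat8 qat16))) (Nat.add (Nat.mul w17 (Nat.mul 6 (KA qat2 qat8 qat17))) (Nat.add (Nat.mul w18 (Nat.mul 6 (KA qat2 qat8 qat18))) (Nat.add (Nat.mul w19 (Nat.mul 6 (KA qat2 qat8 qat19))) (Nat.add (Nat.mul w20 (Nat.mul 6 (KA qat2 qat8 qat20))) (Nat.add (Nat.mul w21 (Nat.mul 6 (KA qat2 qat8 qat21))) (Nat.add (Nat.mul w22 (Nat.mul 6 (KA qat2 qat8 qat22))) (Nat.add (Nat.mul w23 (Nat.mul 6 (KA qat2 qat8 qat23))) (Nat.add (Nat.mul w24 (Nat.mul 6 (KA qat2 qat8 qat24))) (Nat.add (Nat.mul w25 (Nat.mul 6 (KA qat2 qat8 qat25))) (Nat.add (Nat.mul w26 (Nat.mul 6 (KA qat2 qat8 qat26))) 0))))))))))))))))))))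 (Nat.add (Nat.mul w9 (Nat.add (Nat.mul w9 (Nat.mul 3 (KA qat2 qat9 qat9))) (Nat.add (Nat.mul w10 (Nat.mul 6 (KA qat2 qat9 qat10))) (Nat.add (Nat.mul w11 (Nat.mul 6 (KA qat2 qat9 qat11))) (Nat.add (Nat.mul w12 (Nat.mul 6 (KA qat2 qat9 qat12))) (Nat.add (Nat.mul w13 (Nat.mul 6 (KA qat2 qat9 qat13))) (Nat.add (Nat.mul w14 (Nat.mul 6 (KA qat2 qat9 qat14))) (Nat.add (Nat.mul w15 (Nat.mul 6 (KA qat2 qat9 qat15))) (Nat.add (Nat.mul w16 (Nat.mul 6 (KA qat2 qat9 qat16))) (Nat.add (Nat.mul w17 (Nat.mul 6 (KA qat2 qat9 qat17))) (Nat.add (Nat.mul w18 (Nat.mul 6 (KA qat2 qat9 qat18))) (Nat.add (Nat.mul w19 (Nat.mul 6 (KA qat2 qat9 qat19))) (Nat.add (Nat.mul w20 (Nat.mul 6 (KA qat2 qat9 qat20))) (Nat.add (Nat.mul w21 (Nat.mul 6 (KA qat2 qat9 qat21))) (Nat.add (Nat.mul w22 (Nat.mul 6 (KA qat2 qat9 qat22))) (Nat.add (Nat.mul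 w23 (Nat.mul 6 (KA qat2 qat9 qat23))) (Nat.add (Nat.mul w24 (Nat.mul 6 (KA qat2 qat9 qat24))) (Nat.add (Nat.mul w25 (Nat.mul 6 (KA qat2 qat9 qat25))) (Nat.add (Nat.mul w26 (Nat.mul 6 (KA qat2 qat9 qat26))) 0))))))))))))))))))) (Nat.add (Nat.mul w10 (Nat.add (Nat.mul w10 (Nat.mul 3 (KA qat2 qat10 qat10))) (Nat.add (Nat.mul w11 (Nat.mul 6 (KA qat2 qat10 qat11))) (Nat.add (Nat.mul w12 (Nat.mul 6 (KA qat2 qat10 qat12))) (Nat.add (Nat.mul w13 (Nat.mul 6 (KA qat2 qat10 qat13))) (Nat.add (Nat.mul w14 (Nat.mul 6 (KA qat2 qat10 qat14))) (Nat.add (Nat.mul w15 (Nat.mul 6 (KA qat2 qat10 qat15))) (Nat.add (Nat.mul w16 (Nat.mul 6 (KA qat2 qat10 qat16))) (Nat.add (Nat.mul w17 (Nat.mul 6 (KA qat2 qat10 qat17))) (Nat.add (Nat.mul w18 (Nat.mul 6 (KA qat2 qat10 qat18))) (Nat.add (Nat.mul w19 (Nat.mul 6 (KA qat2 qat10 qat19))) (Nat.add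 (Nat.mul w20 (Nat.mul 6 (KA qat2 qat10 qat20))) (Nat.add (Nat.mul w21 (Nat.mul 6 (KA qat2 qat10 qat21))) (Nat.add (Nat.mul w22 (Nat.mul 6 (KA qat2 qat10 qat22))) (Nat.add (Nat.mul w23 (Nat.mul 6 (KA qat2 qat10 qat23))) (Nat.add (Nat.mul w24 (Nat.mul 6 (KA qat2 qat10 qat24))) (Nat.add (Nat.mul w25 (Nat.mul 6 (KA qat2 qat10 qat25))) (Nat.add (Nat.mul w26 (Nat.mul 6 (KA qat2 qat10 qat26))) 0)))))))))))))))))) (Nat.add (Nat.mul w11 (Nat.add (Nat.mul w11 (Nat.mul 3 (KA qat2 qat11 qat11))) (Nat.add (Nat.mul w12 (Nat.mul 6 (KA qat2 qat11 qat12))) (Nat.add (Nat.mul w13 (Nat.mul 6 (KA qat2 qat11 qat13))) (Nat.add (Nat.mul w14 (Nat.mul 6 (KA qat2 qat11 qat14))) (Nat.add (Nat.mul w15 (Nat.mul 6 (KA qat2 qat11 qat15))) (Nat.add (Nat.mul w16 (Nat.mul 6 (KA qat2 qat11 qat16))) (Nat.add (Nat.mul w17 (Nat.mul 6 (KA qat2 qat11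 qat17))) (Nat.add (Nat.mul w18 (Nat.mul 6 (KA qat2 qat11 qat18))) (Nat.add (Nat.mul w19 (Nat.mul 6 (KA qat2 qat11 qat19))) (Nat.add (Nat.mul w20 (Nat.mul 6 (KA qat2 qat11 qat20))) (Nat.add (Nat.mul w21 (Nat.mul 6 (KA qat2 qat11 qat21))) (Nat.add (Nat.mul w22 (Nat.mul 6 (KA qat2 qat11 qat22))) (Nat.add (Nat.mul w23 (Nat.mul 6 (KA qat2 qat11 qat23))) (Nat.add (Nat.mul w24 (Nat.mul 6 (KA qat2 qat11 qat24))) (Nat.add (Nat.mul w25 (Nat.mul 6 (KA qat2 qat11 qat25))) (Nat.add (Nat.mul w26 (Nat.mul 6 (KA qat2 qat11 qat26))) 0))))))))))))))))) (Nat.add (Nat.mul w12 (Nat.add (Nat.mul w12 (Nat.mul 3 (KA qat2 qat12 qat12))) (Nat.add (Nat.mul w13 (Nat.mul 6 (KA qat2 qat12 qat13))) (Nat.add (Nat.mul w14 (Nat.mul 6 (KA qat2 qat12 qat14))) (Nat.add (Nat.mul w15 (Nat.mul 6 (KA qat2 qat12 qat15))) (Nat.add (Nat.mul w16 (Nat.mul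 6 (KA qat2 qat12 qat16))) (Nat.add (Nat.mul w17 (Nat.mul 6 (KA qat2 qat12 qat17))) (Nat.add (Nat.mul w18 (Nat.mul 6 (KA qat2 qat12 qat18))) (Nat.add (Nat.mul w19 (Nat.mul 6 (KA qat2 qat12 qat19))) (Nat.add (Nat.mul w20 (Nat.mul 6 (KA qat2 qat12 qat20))) (Nat.add (Nat.mul w21 (Nat.mul 6 (KA qat2 qat12 qat21))) (Nat.add (Nat.mul w22 (Nat.mul 6 (KA qat2 qat12 qat22))) (Nat.add (Nat.mul w23 (Nat.mul 6 (KA qat2 qat12 qat23))) (Nat.add (Nat.mul w24 (Nat.mul 6 (KA qat2 qat12 qat24))) (Nat.add (Nat.mul w25 (Nat.mul 6 (KA qat2 qat12 qat25))) (Nat.add (Nat.mul w26 (Nat.mul 6 (KA qat2 qat12 qat26))) 0)))))))))))))))) (Nat.add (Nat.mul w13 (Nat.add (Nat.mul w13 (Nat.mul 3 (KA qat2 qat13 qat13))) (Nat.add (Nat.mul w14 (Nat.mul 6 (KA qat2 qat13 qat14))) (Nat.add (Nat.mul w15 (Nat.mul 6 (KA qat2 qat13 qat15))) (Nat.add (Nat.mul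 w16 (Nat.mul 6 (KA qat2 qat13 qat16))) (Nat.add (Nat.mul w17 (Nat.mul 6 (KA qat2 qat13 qat17))) (Nat.add (Nat.mul w18 (Nat.mul 6 (KA qat2 qat13 qat18))) (Nat.add (Nat.mul w19 (Nat.mul 6 (KA qat2 qat13 qat19))) (Nat.add (Nat.mul w20 (Nat.mul 6 (KA qat2 qat13 qat20))) (Nat.add (Nat.mul w21 (Nat.mul 6 (KA qat2 qat13 qat21))) (Nat.add (Nat.mul w22 (Nat.mul 6 (KA qat2 qat13 qat22))) (Nat.add (Nat.mul w23 (Nat.mul 6 (KA qat2 qat13 qat23))) (Nat.add (Nat.mul w24 (Nat.mul 6 (KA qat2 qat13 qat24))) (Nat.add (Nat.mul w25 (Nat.mul 6 (KA qat2 qat13 qat25))) (Nat.add (Nat.mul w26 (Nat.mul 6 (KA qat2 qat13 qat26))) 0))))))))))))))) (Nat.add (Nat.mul w14 (Nat.add (Nat.mul w14 (Nat.mul 3 (KA qat2 qat14 qat14))) (Nat.add (Nat.mul w15 (Nat.mul 6 (KA qat2 qat14 qat15))) (Nat.add (Nat.mul w16 (Nat.mul 6 (KA qat2 qat14 qat16))) (Nat.add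 (Nat.mul w17 (Nat.mul 6 (KA qat2 qat14 qat17))) (Nat.add (Nat.mul w18 (Nat.mul 6 (KA qat2 qat14 qat18))) (Nat.add (Nat.mul w19 (Nat.mul 6 (KA qat2 qat14 qat19))) (Nat.add (Nat.mul w20 (Nat.mul 6 (KA qat2 qat14 qat20))) (Nat.add (Nat.mul w21 (Nat.mul 6 (KA qat2 qat14 qat21))) (Nat.add (Nat.mul w22 (Nat.mul 6 (KA qat2 qat14 qat22))) (Nat.add (Nat.mul w23 (Nat.mul 6 (KA qat2 qat14 qat23))) (Nat.add (Nat.mul w24 (Nat.mul 6 (KA qat2 qat14 qat24))) (Nat.add (Nat.mul w25 (Nat.mul 6 (KA qat2 qat14 qat25))) (Nat.add (Nat.mul w26 (Nat.mul 6 (KA qat2 qat14 qat26))) 0)))))))))))))) (Nat.add (Nat.mul w15 (Nat.add (Nat.mul w15 (Nat.mul 3 (KA qat2 qat15 qat15))) (Nat.add (Nat.mul w16 (Nat.mul 6 (KA qat2 qat15 qat16))) (Nat.add (Nat.mul w17 (Nat.mul 6 (KA qat2 qat15 qat17))) (Nat.add (Nat.mul w18 (Nat.mul 6 (KA qat2 qat15 qat18)))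 (Nat.add (Nat.mul w19 (Nat.mul 6 (KA qat2 qat15 qat19))) (Nat.add (Nat.mul w20 (Nat.mul 6 (KA qat2 qat15 qat20))) (Nat.add (Nat.mul w21 (Nat.mul 6 (KA qat2 qat15 qat21))) (Nat.add (Nat.mul w22 (Nat.mul 6 (KA qat2 qat15 qat22))) (Nat.add (Nat.mul w23 (Nat.mul 6 (KA qat2 qat15 qat23))) (Nat.add (Nat.mul w24 (Nat.mul 6 (KA qat2 qat15 qat24))) (Nat.add (Nat.mul w25 (Nat.mul 6 (KA qat2 qat15 qat25))) (Nat.add (Nat.mul w26 (Nat.mul 6 (KA qat2 qat15 qat26))) 0))))))))))))) (Nat.add (Nat.mul w16 (Nat.add (Nat.mul w16 (Nat.mul 3 (KA qat2 qat16 qat16))) (Nat.add (Nat.mul w17 (Nat.mul 6 (KA qat2 qat16 qat17))) (Nat.add (Nat.mul w18 (Nat.mul 6 (KA qat2 qat16 qat18))) (Nat.add (Nat.mul w19 (Nat.mul 6 (KA qat2 qat16 qat19))) (Nat.add (Nat.mul w20 (Nat.mul 6 (KA qat2 qat16 qat20))) (Nat.add (Nat.mul w21 (Nat.mul 6 (KA qat2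 qat16 qat21))) (Nat.add (Nat.mul w22 (Nat.mul 6 (KA qat2 qat16 qat22))) (Nat.add (Nat.mul w23 (Nat.mul 6 (KA qat2 qat16 qat23))) (Nat.add (Nat.mul w24 (Nat.mul 6 (KA qat2 qat16 qat24))) (Nat.add (Nat.mul w25 (Nat.mul 6 (KA qat2 qat16 qat25))) (Nat.add (Nat.mul w26 (Nat.mul 6 (KA qat2 qat16 qat26))) 0)))))))))))) (Nat.add (Nat.mul w17 (Nat.add (Nat.mul w17 (Nat.mul 3 (KA qat2 qat17 qat17))) (Nat.add (Nat.mul w18 (Nat.mul 6 (KA qat2 qat17 qat18))) (Nat.add (Nat.mul w19 (Nat.mul 6 (KA qat2 qat17 qat19))) (Nat.add (Nat.mul w20 (Nat.mul 6 (KA qat2 qat17 qat20))) (Nat.add (Nat.mul w21 (Nat.mul 6 (KA qat2 qat17 qat21))) (Nat.add (Nat.mul w22 (Nat.mul 6 (KA qat2 qat17 qat22))) (Nat.add (Nat.mul w23 (Nat.mul 6 (KA qat2 qat17 qat23))) (Nat.add (Nat.mul w24 (Nat.mul 6 (KA qat2 qat17 qat24))) (Nat.add (Nat.mul w25 (Nat.mul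 6 (KA qat2 qat17 qat25))) (Nat.add (Nat.mul w26 (Nat.mul 6 (KA qat2 qat17 qat26))) 0))))))))))) (Nat.add (Nat.mul w18 (Nat.add (Nat.mul w18 (Nat.mul 3 (KA qat2 qat18 qat18))) (Nat.add (Nat.mul w19 (Nat.mul 6 (KA qat2 qat18 qat19))) (Nat.add (Nat.mul w20 (Nat.mul 6 (KA qat2 qat18 qat20))) (Nat.add (Nat.mul w21 (Nat.mul 6 (KA qat2 qat18 qat21))) (Nat.add (Nat.mul w22 (Nat.mul 6 (KA qat2 qat18 qat22))) (Nat.add (Nat.mul w23 (Nat.mul 6 (KA qat2 qat18 qat23))) (Nat.add (Nat.mul w24 (Nat.mul 6 (KA qat2 qat18 qat24))) (Nat.add (Nat.mul w25 (Nat.mul 6 (KA qat2 qat18 qat25))) (Nat.add (Nat.mul w26 (Nat.mul 6 (KA qat2 qat18 qat26))) 0)))))))))) (Nat.add (Nat.mul w19 (Nat.add (Nat.mul w19 (Nat.mul 3 (KA qat2 qat19 qat19))) (Nat.add (Nat.mul w20 (Nat.mul 6 (KA qat2 qat19 qat20))) (Nat.add (Nat.mul w21 (Nat.mul 6 (KA qat2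 qat19 qat21))) (Nat.add (Nat.mul w22 (Nat.mul 6 (KA qat2 qat19 qat22))) (Nat.add (Nat.mul w23 (Nat.mul 6 (KA qat2 qat19 qat23))) (Nat.add (Nat.mul w24 (Nat.mul 6 (KA qat2 qat19 qat24))) (Nat.add (Nat.mul w25 (Nat.mul 6 (KA qat2 qat19 qat25))) (Nat.add (Nat.mul w26 (Nat.mul 6 (KA qat2 qat19 qat26))) 0))))))))) (Nat.add (Nat.mul w20 (Nat.add (Nat.mul w20 (Nat.mul 3 (KA qat2 qat20 qat20))) (Nat.add (Nat.mul w21 (Nat.mul 6 (KA qat2 qat20 qat21))) (Nat.add (Nat.mul w22 (Nat.mul 6 (KA qat2 qat20 qat22))) (Nat.add (Nat.mul w23 (Nat.mul 6 (KA qat2 qat20 qat23))) (Nat.add (Nat.mul w24 (Nat.mul 6 (KA qat2 qat20 qat24))) (Nat.add (Nat.mul w25 (Nat.mul 6 (KA qat2 qat20 qat25))) (Nat.add (Nat.mul w26 (Nat.mul 6 (KA qat2 qat20 qat26))) 0)))))))) (Nat.add (Nat.mul w21 (Nat.add (Nat.mul w21 (Nat.mul 3 (KA qat2 qat21 qat21)))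 (Nat.add (Nat.mul w22 (Nat.mul 6 (KA qat2 qat21 qat22))) (Nat.add (Nat.mul w23 (Nat.mul 6 (KA qat2 qat21 qat23))) (Nat.add (Nat.mul w24 (Nat.mul 6 (KA qat2 qat21 qat24))) (Nat.add (Nat.mul w25 (Nat.mul 6 (KA qat2 qat21 qat25))) (Nat.add (Nat.mul w26 (Nat.mul 6 (KA qat2 qat21 qat26))) 0))))))) (Nat.add (Nat.mul w22 (Nat.add (Nat.mul w22 (Nat.mul 3 (KA qat2 qat22 qat22))) (Nat.add (Nat.mul w23 (Nat.mul 6 (KA qat2 qat22 qat23))) (Nat.add (Nat.mul w24 (Nat.mul 6 (KA qat2 qat22 qat24))) (Nat.add (Nat.mul w25 (Nat.mul 6 (KA qat2 qat22 qat25))) (Nat.add (Nat.mul w26 (Nat.mul 6 (KA qat2 qat22 qat26))) 0)))))) (Nat.add (Nat.mul w23 (Nat.add (Nat.mul w23 (Nat.mul 3 (KA qat2 qat23 qat23))) (Nat.add (Nat.mul w24 (Nat.mul 6 (KA qat2 qat23 qat24))) (Nat.add (Nat.mul w25 (Nat.mul 6 (KA qat2 qat23 qat25))) (Nat.add (Nat.mul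 w26 (Nat.mul 6 (KA qat2 qat23 qat26))) 0))))) (Nat.add (Nat.mul w24 (Nat.add (Nat.mul w24 (Nat.mul 3 (KA qat2 qat24 qat24))) (Nat.add (Nat.mul w25 (Nat.mul 6 (KA qat2 qat24 qat25))) (Nat.add (Nat.mul w26 (Nat.mul 6 (KA qat2 qat24 qat26))) 0)))) (Nat.add (Nat.mul w25 (Nat.add (Nat.mul w25 (Nat.mul 3 (KA qat2 qat25 qat25))) (Nat.add (Nat.mul w26 (Nat.mul 6 (KA qat2 qat25 qat26))) 0))) (Nat.add (Nat.mul w26 (Nat.add (Nat.mul w26 (Nat.mul 3 (KA qat2 qat26 qat26))) (0))) 0)))))))))))))))))))))))))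

/-- Terms with least index 3. -/
noncomputable def qa3 (w3 w4 w5 w6 w7 w8 w9 w10 w11 w12 w13 w14 w15 w16 w17 w18 w19 w20 w21 w22 w23 w24 w25 w26 : Nat) : Nat :=
  Nat.mul w3 (Nat.add (Nat.mul w3 (Nat.add (Nat.mul w3 (KA qat3 qat3 qat3)) (Nat.add (Nat.mul w4 (Nat.mul 3 (KA qat3 qat3 qat4))) (Nat.add (Nat.mul w5 (Nat.mul 3 (KA qat3 qat3 qat5))) (Nat.add (Nat.mul w6 (Nat.mul 3 (KA qat3 qat3 qat6))) (Nat.add (Nat.mul w7 (Nat.mul 3 (KA qat3 qat3 qat7))) (Nat.add (Nat.mul w8 (Nat.mul 3 (KA qat3 qat3 qat8))) (Nat.add (Nat.mul w9 (Nat.mul 3 (KA qat3 qat3 qat9))) (Nat.add (Nat.mul w10 (Nat.mul 3 (KA qat3 qat3 qat10))) (Nat.add (Nat.mul w11 (Nat.mul 3 (KA qat3 qat3 qat11))) (Nat.add (Nat.mul w12 (Nat.mul 3 (KA qat3 qat3 qat12))) (Nat.add (Nat.mul w13 (Nat.mul 3 (KA qat3 qat3 qat13))) (Nat.add (Nat.mul w14 (Nat.mul 3 (KA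 qat3 qat3 qat14))) (Nat.add (Nat.mul w15 (Nat.mul 3 (KA qat3 qat3 qat15))) (Nat.add (Nat.mul w16 (Nat.mul 3 (KA qat3 qat3 qat16))) (Nat.add (Nat.mul w17 (Nat.mul 3 (KA qat3 qat3 qat17))) (Nat.add (Nat.mul w18 (Nat.mul 3 (KA qat3 qat3 qat18))) (Nat.add (Nat.mul w19 (Nat.mul 3 (KA qat3 qat3 qat19))) (Nat.add (Nat.mul w20 (Nat.mul 3 (KA qat3 qat3 qat20))) (Nat.add (Nat.mul w21 (Nat.mul 3 (KA qat3 qat3 qat21))) (Nat.add (Nat.mul w22 (Nat.mul 3 (KA qat3 qat3 qat22))) (Nat.add (Nat.mul w23 (Nat.mul 3 (KA qat3 qat3 qat23))) (Nat.add (Nat.mul w24 (Nat.mul 3 (KA qat3 qat3 qat24))) (Nat.add (Nat.mul w25 (Nat.mul 3 (KA qat3 qat3 qat25))) (Nat.add (Nat.mul w26 (Nat.mul 3 (KA qat3 qat3 qat26))) 0))))))))))))))))))))))))) (Nat.add (Nat.mul w4 (Nat.add (Nat.mul w4 (Nat.mul 3 (KA qat3 qat4 qat4))) (Nat.add (Nat.mul w5 (Nat.mul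 6 (KA qat3 qat4 qat5))) (Nat.add (Nat.mul w6 (Nat.mul 6 (KA qat3 qat4 qat6))) (Nat.add (Nat.mul w7 (Nat.mul 6 (KA qat3 qat4 qat7))) (Nat.add (Nat.mul w8 (Nat.mul 6 (KA qat3 qat4 qat8))) (Nat.add (Nat.mul w9 (Nat.mul 6 (KA qat3 qat4 qat9))) (Nat.add (Nat.mul w10 (Nat.mul 6 (KA qat3 qat4 qat10))) (Nat.add (Nat.mul w11 (Nat.mul 6 (KA qat3 qat4 qat11))) (Nat.add (Nat.mul w12 (Nat.mul 6 (KA qat3 qat4 qat12))) (Nat.add (Nat.mul w13 (Nat.mul 6 (KA qat3 qat4 qat13))) (Nat.add (Nat.mul w14 (Nat.mul 6 (KA qat3 qat4 qat14))) (Nat.add (Nat.mul w15 (Nat.mul 6 (KA qat3 qat4 qat15))) (Nat.add (Nat.mul w16 (Nat.mul 6 (KA qat3 qat4 qat16))) (Nat.add (Nat.mul w17 (Nat.mul 6 (KA qat3 qat4 qat17))) (Nat.add (Nat.mul w18 (Nat.mul 6 (KA qat3 qat4 qat18))) (Nat.add (Nat.mul w19 (Nat.mul 6 (KA qat3 qat4 qat19))) (Nat.add (Nat.mul w20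 (Nat.mul 6 (KA qat3 qat4 qat20))) (Nat.add (Nat.mul w21 (Nat.mul 6 (KA qat3 qat4 qat21))) (Nat.add (Nat.mul w22 (Nat.mul 6 (KA qat3 qat4 qat22))) (Nat.add (Nat.mul w23 (Nat.mul 6 (KA qat3 qat4 qat23))) (Nat.add (Nat.mul w24 (Nat.mul 6 (KA qat3 qat4 qat24))) (Nat.add (Nat.mul w25 (Nat.mul 6 (KA qat3 qat4 qat25))) (Nat.add (Nat.mul w26 (Nat.mul 6 (KA qat3 qat4 qat26))) 0)))))))))))))))))))))))) (Nat.add (Nat.mul w5 (Nat.add (Nat.mul w5 (Nat.mul 3 (KA qat3 qat5 qat5))) (Nat.add (Nat.mul w6 (Nat.mul 6 (KA qat3 qat5 qat6))) (Nat.add (Nat.mul w7 (Nat.mul 6 (KA qat3 qat5 qat7))) (Nat.add (Nat.mul w8 (Nat.mul 6 (KA qat3 qat5 qat8))) (Nat.add (Nat.mul w9 (Nat.mul 6 (KA qat3 qat5 qat9))) (Nat.add (Nat.mul w10 (Nat.mul 6 (KA qat3 qat5 qat10))) (Nat.add (Nat.mul w11 (Nat.mul 6 (KA qat3 qat5 qat11))) (Nat.add (Nat.mul w12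 (Nat.mul 6 (KA qat3 qat5 qat12))) (Nat.add (Nat.mul w13 (Nat.mul 6 (KA qat3 qat5 qat13))) (Nat.add (Nat.mul w14 (Nat.mul 6 (KA qat3 qat5 qat14))) (Nat.add (Nat.mul w15 (Nat.mul 6 (KA qat3 qat5 qat15))) (Nat.add (Nat.mul w16 (Nat.mul 6 (KA qat3 qat5 qat16))) (Nat.add (Nat.mul w17 (Nat.mul 6 (KA qat3 qat5 qat17))) (Nat.add (Nat.mul w18 (Nat.mul 6 (KA qat3 qat5 qat18))) (Nat.add (Nat.mul w19 (Nat.mul 6 (KA qat3 qat5 qat19))) (Nat.add (Nat.mul w20 (Nat.mul 6 (KA qat3 qat5 qat20))) (Nat.add (Nat.mul w21 (Nat.mul 6 (KA qat3 qat5 qat21))) (Nat.add (Nat.mul w22 (Nat.mul 6 (KA qat3 qat5 qat22))) (Nat.add (Nat.mul w23 (Nat.mul 6 (KA qat3 qat5 qat23))) (Nat.add (Nat.mul w24 (Nat.mul 6 (KA qat3 qat5 qat24))) (Nat.add (Nat.mul w25 (Nat.mul 6 (KA qat3 qat5 qat25))) (Nat.add (Nat.mul w26 (Nat.mul 6 (KA qat3 qat5 qat26))) 0)))))))))))))))))))))))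 (Nat.add (Nat.mul w6 (Nat.add (Nat.mul w6 (Nat.mul 3 (KA qat3 qat6 qat6))) (Nat.add (Nat.mul w7 (Nat.mul 6 (KA qat3 qat6 qat7))) (Nat.add (Nat.mul w8 (Nat.mul 6 (KA qat3 qat6 qat8))) (Nat.add (Nat.mul w9 (Nat.mul 6 (KA qat3 qat6 qat9))) (Nat.add (Nat.mul w10 (Nat.mul 6 (KA qat3 qat6 qat10))) (Nat.add (Nat.mul w11 (Nat.mul 6 (KA qat3 qat6 qat11))) (Nat.add (Nat.mul w12 (Nat.mul 6 (KA qat3 qat6 qat12))) (Nat.add (Nat.mul w13 (Nat.mul 6 (KA qat3 qat6 qat13))) (Nat.add (Nat.mul w14 (Nat.mul 6 (KA qat3 qat6 qat14))) (Nat.add (Nat.mul w15 (Nat.mul 6 (KA qat3 qat6 qat15))) (Nat.add (Nat.mul w16 (Nat.mul 6 (KA qat3 qat6 qat16))) (Nat.add (Nat.mul w17 (Nat.mul 6 (KA qat3 qat6 qat17))) (Nat.add (Nat.mul w18 (Nat.mul 6 (KA qat3 qat6 qat18))) (Nat.add (Nat.mul w19 (Nat.mul 6 (KA qat3 qat6 qat19))) (Nat.add (Nat.mul w20 (Nat.mul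 6 (KA qat3 qat6 qat20))) (Nat.add (Nat.mul w21 (Nat.mul 6 (KA qat3 qat6 qat21))) (Nat.add (Nat.mul w22 (Nat.mul 6 (KA qat3 qat6 qat22))) (Nat.add (Nat.mul w23 (Nat.mul 6 (KA qat3 qat6 qat23))) (Nat.add (Nat.mul w24 (Nat.mul 6 (KA qat3 qat6 qat24))) (Nat.add (Nat.mul w25 (Nat.mul 6 (KA qat3 qat6 qat25))) (Nat.add (Nat.mul w26 (Nat.mul 6 (KA qat3 qat6 qat26))) 0)))))))))))))))))))))) (Nat.add (Nat.mul w7 (Nat.add (Nat.mul w7 (Nat.mul 3 (KA qat3 qat7 qat7))) (Nat.add (Nat.mul w8 (Nat.mul 6 (KA qat3 qat7 qat8))) (Nat.add (Nat.mul w9 (Nat.mul 6 (KA qat3 qat7 qat9))) (Nat.add (Nat.mul w10 (Nat.mul 6 (KA qat3 qat7 qat10))) (Nat.add (Nat.mul w11 (Nat.mul 6 (KA qat3 qat7 qat11))) (Nat.add (Nat.mul w12 (Nat.mul 6 (KA qat3 qat7 qat12))) (Nat.add (Nat.mul w13 (Nat.mul 6 (KA qat3 qat7 qat13))) (Nat.add (Nat.mul w14 (Nat.mul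 6 (KA qat3 qat7 qat14))) (Nat.add (Nat.mul w15 (Nat.mul 6 (KA qat3 qat7 qat15))) (Nat.add (Nat.mul w16 (Nat.mul 6 (KA qat3 qat7 qat16))) (Nat.add (Nat.mul w17 (Nat.mul 6 (KA qat3 qat7 qat17))) (Nat.add (Nat.mul w18 (Nat.mul 6 (KA qat3 qat7 qat18))) (Nat.add (Nat.mul w19 (Nat.mul 6 (KA qat3 qat7 qat19))) (Nat.add (Nat.mul w20 (Nat.mul 6 (KA qat3 qat7 qat20))) (Nat.add (Nat.mul w21 (Nat.mul 6 (KA qat3 qat7 qat21))) (Nat.add (Nat.mul w22 (Nat.mul 6 (KA qat3 qat7 qat22))) (Nat.add (Nat.mul w23 (Nat.mul 6 (KA qat3 qat7 qat23))) (Nat.add (Nat.mul w24 (Nat.mul 6 (KA qat3 qat7 qat24))) (Nat.add (Nat.mul w25 (Nat.mul 6 (KA qat3 qat7 qat25))) (Nat.add (Nat.mul w26 (Nat.mul 6 (KA qat3 qat7 qat26))) 0))))))))))))))))))))) (Nat.add (Nat.mul w8 (Nat.add (Nat.mul w8 (Nat.mul 3 (KA qat3 qat8 qat8))) (Nat.add (Nat.mul w9 (Nat.mul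 6 (KA qat3 qat8 qat9))) (Nat.add (Nat.mul w10 (Nat.mul 6 (KA qat3 qat8 qat10))) (Nat.add (Nat.mul w11 (Nat.mul 6 (KA qat3 qat8 qat11))) (Nat.add (Nat.mul w12 (Nat.mul 6 (KA qat3 qat8 qat12))) (Nat.add (Nat.mul w13 (Nat.mul 6 (KA qat3 qat8 qat13))) (Nat.add (Nat.mul w14 (Nat.mul 6 (KA qat3 qat8 qat14))) (Nat.add (Nat.mul w15 (Nat.mul 6 (KA qat3 qat8 qat15))) (Nat.add (Nat.mul w16 (Nat.mul 6 (KA qat3 qat8 qat16))) (Nat.add (Nat.mul w17 (Nat.mul 6 (KA qat3 qat8 qat17))) (Nat.add (Nat.mul w18 (Nat.mul 6 (KA qat3 qat8 qat18))) (Nat.add (Nat.mul w19 (Nat.mul 6 (KA qat3 qat8 qat19))) (Nat.add (Nat.mul w20 (Nat.mul 6 (KA qat3 qat8 qat20))) (Nat.add (Nat.mul w21 (Nat.mul 6 (KA qat3 qat8 qat21))) (Nat.add (Nat.mul w22 (Nat.mul 6 (KA qat3 qat8 qat22))) (Nat.add (Nat.mul w23 (Nat.mul 6 (KA qat3 qat8 qat23))) (Nat.add (Nat.mul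 w24 (Nat.mul 6 (KA qat3 qat8 qat24))) (Nat.add (Nat.mul w25 (Nat.mul 6 (KA qat3 qat8 qat25))) (Nat.add (Nat.mul w26 (Nat.mul 6 (KA qat3 qat8 qat26))) 0)))))))))))))))))))) (Nat.add (Nat.mul w9 (Nat.add (Nat.mul w9 (Nat.mul 3 (KA qat3 qat9 qat9))) (Nat.add (Nat.mul w10 (Nat.mul 6 (KA qat3 qat9 qat10))) (Nat.add (Nat.mul w11 (Nat.mul 6 (KA qat3 qat9 qat11))) (Nat.add (Nat.mul w12 (Nat.mul 6 (KA qat3 qat9 qat12))) (Nat.add (Nat.mul w13 (Nat.mul 6 (KA qat3 qat9 qat13))) (Nat.add (Nat.mul w14 (Nat.mul 6 (KA qat3 qat9 qat14))) (Nat.add (Nat.mul w15 (Nat.mul 6 (KA qat3 qat9 qat15))) (Nat.add (Nat.mul w16 (Nat.mul 6 (KA qat3 qat9 qat16))) (Nat.add (Nat.mul w17 (Nat.mul 6 (KA qat3 qat9 qat17))) (Nat.add (Nat.mul w18 (Nat.mul 6 (KA qat3 qat9 qat18))) (Nat.add (Nat.mul w19 (Nat.mul 6 (KA qat3 qat9 qat19))) (Nat.add (Nat.mul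 w20 (Nat.mul 6 (KA qat3 qat9 qat20))) (Nat.add (Nat.mul w21 (Nat.mul 6 (KA qat3 qat9 qat21))) (Nat.add (Nat.mul w22 (Nat.mul 6 (KA qat3 qat9 qat22))) (Nat.add (Nat.mul w23 (Nat.mul 6 (KA qat3 qat9 qat23))) (Nat.add (Nat.mul w24 (Nat.mul 6 (KA qat3 qat9 qat24))) (Nat.add (Nat.mul w25 (Nat.mul 6 (KA qat3 qat9 qat25))) (Nat.add (Nat.mul w26 (Nat.mul 6 (KA qat3 qat9 qat26))) 0))))))))))))))))))) (Nat.add (Nat.mul w10 (Nat.add (Nat.mul w10 (Nat.mul 3 (KA qat3 qat10 qat10))) (Nat.add (Nat.mul w11 (Nat.mul 6 (KA qat3 qat10 qat11))) (Nat.add (Nat.mul w12 (Nat.mul 6 (KA qat3 qat10 qat12))) (Nat.add (Nat.mul w13 (Nat.mul 6 (KA qat3 qat10 qat13))) (Nat.add (Nat.mul w14 (Nat.mul 6 (KA qat3 qat10 qat14))) (Nat.add (Nat.mul w15 (Nat.mul 6 (KA qat3 qat10 qat15))) (Nat.add (Nat.mul w16 (Nat.mul 6 (KA qat3 qat10 qat16))) (Nat.add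 (Nat.mul w17 (Nat.mul 6 (KA qat3 qat10 qat17))) (Nat.add (Nat.mul w18 (Nat.mul 6 (KA qat3 qat10 qat18))) (Nat.add (Nat.mul w19 (Nat.mul 6 (KA qat3 qat10 qat19))) (Nat.add (Nat.mul w20 (Nat.mul 6 (KA qat3 qat10 qat20))) (Nat.add (Nat.mul w21 (Nat.mul 6 (KA qat3 qat10 qat21))) (Nat.add (Nat.mul w22 (Nat.mul 6 (KA qat3 qat10 qat22))) (Nat.add (Nat.mul w23 (Nat.mul 6 (KA qat3 qat10 qat23))) (Nat.add (Nat.mul w24 (Nat.mul 6 (KA qat3 qat10 qat24))) (Nat.add (Nat.mul w25 (Nat.mul 6 (KA qat3 qat10 qat25))) (Nat.add (Nat.mul w26 (Nat.mul 6 (KA qat3 qat10 qat26))) 0)))))))))))))))))) (Nat.add (Nat.mul w11 (Nat.add (Nat.mul w11 (Nat.mul 3 (KA qat3 qat11 qat11))) (Nat.add (Nat.mul w12 (Nat.mul 6 (KA qat3 qat11 qat12))) (Nat.add (Nat.mul w13 (Nat.mul 6 (KA qat3 qat11 qat13))) (Nat.add (Nat.mul w14 (Nat.mul 6 (KA qat3 qat11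 qat14))) (Nat.add (Nat.mul w15 (Nat.mul 6 (KA qat3 qat11 qat15))) (Nat.add (Nat.mul w16 (Nat.mul 6 (KA qat3 qat11 qat16))) (Nat.add (Nat.mul w17 (Nat.mul 6 (KA qat3 qat11 qat17))) (Nat.add (Nat.mul w18 (Nat.mul 6 (KA qat3 qat11 qat18))) (Nat.add (Nat.mul w19 (Nat.mul 6 (KA qat3 qat11 qat19))) (Nat.add (Nat.mul w20 (Nat.mul 6 (KA qat3 qat11 qat20))) (Nat.add (Nat.mul w21 (Nat.mul 6 (KA qat3 qat11 qat21))) (Nat.add (Nat.mul w22 (Nat.mul 6 (KA qat3 qat11 qat22))) (Nat.add (Nat.mul w23 (Nat.mul 6 (KA qat3 qat11 qat23))) (Nat.add (Nat.mul w24 (Nat.mul 6 (KA qat3 qat11 qat24))) (Nat.add (Nat.mul w25 (Nat.mul 6 (KA qat3 qat11 qat25))) (Nat.add (Nat.mul w26 (Nat.mul 6 (KA qat3 qat11 qat26))) 0))))))))))))))))) (Nat.add (Nat.mul w12 (Nat.add (Nat.mul w12 (Nat.mul 3 (KA qat3 qat12 qat12))) (Nat.add (Nat.mul w13 (Nat.mul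 6 (KA qat3 qat12 qat13))) (Nat.add (Nat.mul w14 (Nat.mul 6 (KA qat3 qat12 qat14))) (Nat.add (Nat.mul w15 (Nat.mul 6 (KA qat3 qat12 qat15))) (Nat.add (Nat.mul w16 (Nat.mul 6 (KA qat3 qat12 qat16))) (Nat.add (Nat.mul w17 (Nat.mul 6 (KA qat3 qat12 qat17))) (Nat.add (Nat.mul w18 (Nat.mul 6 (KA qat3 qat12 qat18))) (Nat.add (Nat.mul w19 (Nat.mul 6 (KA qat3 qat12 qat19))) (Nat.add (Nat.mul w20 (Nat.mul 6 (KA qat3 qat12 qat20))) (Nat.add (Nat.mul w21 (Nat.mul 6 (KA qat3 qat12 qat21))) (Nat.add (Nat.mul w22 (Nat.mul 6 (KA qat3 qat12 qat22))) (Nat.add (Nat.mul w23 (Nat.mul 6 (KA qat3 qat12 qat23))) (Nat.add (Nat.mul w24 (Nat.mul 6 (KA qat3 qat12 qat24))) (Nat.add (Nat.mul w25 (Nat.mul 6 (KA qat3 qat12 qat25))) (Nat.add (Nat.mul w26 (Nat.mul 6 (KA qat3 qat12 qat26))) 0)))))))))))))))) (Nat.add (Nat.mul w13 (Nat.add (Nat.mul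 w13 (Nat.mul 3 (KA qat3 qat13 qat13))) (Nat.add (Nat.mul w14 (Nat.mul 6 (KA qat3 qat13 qat14))) (Nat.add (Nat.mul w15 (Nat.mul 6 (KA qat3 qat13 qat15))) (Nat.add (Nat.mul w16 (Nat.mul 6 (KA qat3 qat13 qat16))) (Nat.add (Nat.mul w17 (Nat.mul 6 (KA qat3 qat13 qat17))) (Nat.add (Nat.mul w18 (Nat.mul 6 (KA qat3 qat13 qat18))) (Nat.add (Nat.mul w19 (Nat.mul 6 (KA qat3 qat13 qat19))) (Nat.add (Nat.mul w20 (Nat.mul 6 (KA qat3 qat13 qat20))) (Nat.add (Nat.mul w21 (Nat.mul 6 (KA qat3 qat13 qat21))) (Nat.add (Nat.mul w22 (Nat.mul 6 (KA qat3 qat13 qat22))) (Nat.add (Nat.mul w23 (Nat.mul 6 (KA qat3 qat13 qat23))) (Nat.add (Nat.mul w24 (Nat.mul 6 (KA qat3 qat13 qat24))) (Nat.add (Nat.mul w25 (Nat.mul 6 (KA qat3 qat13 qat25))) (Nat.add (Nat.mul w26 (Nat.mul 6 (KA qat3 qat13 qat26))) 0))))))))))))))) (Nat.add (Nat.mul w14 (Nat.add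 (Nat.mul w14 (Nat.mul 3 (KA qat3 qat14 qat14))) (Nat.add (Nat.mul w15 (Nat.mul 6 (KA qat3 qat14 qat15))) (Nat.add (Nat.mul w16 (Nat.mul 6 (KA qat3 qat14 qat16))) (Nat.add (Nat.mul w17 (Nat.mul 6 (KA qat3 qat14 qat17))) (Nat.add (Nat.mul w18 (Nat.mul 6 (KA qat3 qat14 qat18))) (Nat.add (Nat.mul w19 (Nat.mul 6 (KA qat3 qat14 qat19))) (Nat.add (Nat.mul w20 (Nat.mul 6 (KA qat3 qat14 qat20))) (Nat.add (Nat.mul w21 (Nat.mul 6 (KA qat3 qat14 qat21))) (Nat.add (Nat.mul w22 (Nat.mul 6 (KA qat3 qat14 qat22))) (Nat.add (Nat.mul w23 (Nat.mul 6 (KA qat3 qat14 qat23))) (Nat.add (Nat.mul w24 (Nat.mul 6 (KA qat3 qat14 qat24))) (Nat.add (Nat.mul w25 (Nat.mul 6 (KA qat3 qat14 qat25))) (Nat.add (Nat.mul w26 (Nat.mul 6 (KA qat3 qat14 qat26))) 0)))))))))))))) (Nat.add (Nat.mul w15 (Nat.add (Nat.mul w15 (Nat.mul 3 (KA qat3 qat15 qat15)))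 (Nat.add (Nat.mul w16 (Nat.mul 6 (KA qat3 qat15 qat16))) (Nat.add (Nat.mul w17 (Nat.mul 6 (KA qat3 qat15 qat17))) (Nat.add (Nat.mul w18 (Nat.mul 6 (KA qat3 qat15 qat18))) (Nat.add (Nat.mul w19 (Nat.mul 6 (KA qat3 qat15 qat19))) (Nat.add (Nat.mul w20 (Nat.mul 6 (KA qat3 qat15 qat20))) (Nat.add (Nat.mul w21 (Nat.mul 6 (KA qat3 qat15 qat21))) (Nat.add (Nat.mul w22 (Nat.mul 6 (KA qat3 qat15 qat22))) (Nat.add (Nat.mul w23 (Nat.mul 6 (KA qat3 qat15 qat23))) (Nat.add (Nat.mul w24 (Nat.mul 6 (KA qat3 qat15 qat24))) (Nat.add (Nat.mul w25 (Nat.mul 6 (KA qat3 qat15 qat25))) (Nat.add (Nat.mul w26 (Nat.mul 6 (KA qat3 qat15 qat26))) 0))))))))))))) (Nat.add (Nat.mul w16 (Nat.add (Nat.mul w16 (Nat.mul 3 (KA qat3 qat16 qat16))) (Nat.add (Nat.mul w17 (Nat.mul 6 (KA qat3 qat16 qat17))) (Nat.add (Nat.mul w18 (Nat.mul 6 (KA qat3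 qat16 qat18))) (Nat.add (Nat.mul w19 (Nat.mul 6 (KA qat3 qat16 qat19))) (Nat.add (Nat.mul w20 (Nat.mul 6 (KA qat3 qat16 qat20))) (Nat.add (Nat.mul w21 (Nat.mul 6 (KA qat3 qat16 qat21))) (Nat.add (Nat.mul w22 (Nat.mul 6 (KA qat3 qat16 qat22))) (Nat.add (Nat.mul w23 (Nat.mul 6 (KA qat3 qat16 qat23))) (Nat.add (Nat.mul w24 (Nat.mul 6 (KA qat3 qat16 qat24))) (Nat.add (Nat.mul w25 (Nat.mul 6 (KA qat3 qat16 qat25))) (Nat.add (Nat.mul w26 (Nat.mul 6 (KA qat3 qat16 qat26))) 0)))))))))))) (Nat.add (Nat.mul w17 (Nat.add (Nat.mul w17 (Nat.mul 3 (KA qat3 qat17 qat17))) (Nat.add (Nat.mul w18 (Nat.mul 6 (KA qat3 qat17 qat18))) (Nat.add (Nat.mul w19 (Nat.mul 6 (KA qat3 qat17 qat19))) (Nat.add (Nat.mul w20 (Nat.mul 6 (KA qat3 qat17 qat20))) (Nat.add (Nat.mul w21 (Nat.mul 6 (KA qat3 qat17 qat21))) (Nat.add (Nat.mul w22 (Nat.mul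 6 (KA qat3 qat17 qat22))) (Nat.add (Nat.mul w23 (Nat.mul 6 (KA qat3 qat17 qat23))) (Nat.add (Nat.mul w24 (Nat.mul 6 (KA qat3 qat17 qat24))) (Nat.add (Nat.mul w25 (Nat.mul 6 (KA qat3 qat17 qat25))) (Nat.add (Nat.mul w26 (Nat.mul 6 (KA qat3 qat17 qat26))) 0))))))))))) (Nat.add (Nat.mul w18 (Nat.add (Nat.mul w18 (Nat.mul 3 (KA qat3 qat18 qat18))) (Nat.add (Nat.mul w19 (Nat.mul 6 (KA qat3 qat18 qat19))) (Nat.add (Nat.mul w20 (Nat.mul 6 (KA qat3 qat18 qat20))) (Nat.add (Nat.mul w21 (Nat.mul 6 (KA qat3 qat18 qat21))) (Nat.add (Nat.mul w22 (Nat.mul 6 (KA qat3 qat18 qat22))) (Nat.add (Nat.mul w23 (Nat.mul 6 (KA qat3 qat18 qat23))) (Nat.add (Nat.mul w24 (Nat.mul 6 (KA qat3 qat18 qat24))) (Nat.add (Nat.mul w25 (Nat.mul 6 (KA qat3 qat18 qat25))) (Nat.add (Nat.mul w26 (Nat.mul 6 (KA qat3 qat18 qat26))) 0)))))))))) (Nat.add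 (Nat.mul w19 (Nat.add (Nat.mul w19 (Nat.mul 3 (KA qat3 qat19 qat19))) (Nat.add (Nat.mul w20 (Nat.mul 6 (KA qat3 qat19 qat20))) (Nat.add (Nat.mul w21 (Nat.mul 6 (KA qat3 qat19 qat21))) (Nat.add (Nat.mul w22 (Nat.mul 6 (KA qat3 qat19 qat22))) (Nat.add (Nat.mul w23 (Nat.mul 6 (KA qat3 qat19 qat23))) (Nat.add (Nat.mul w24 (Nat.mul 6 (KA qat3 qat19 qat24))) (Nat.add (Nat.mul w25 (Nat.mul 6 (KA qat3 qat19 qat25))) (Nat.add (Nat.mul w26 (Nat.mul 6 (KA qat3 qat19 qat26))) 0))))))))) (Nat.add (Nat.mul w20 (Nat.add (Nat.mul w20 (Nat.mul 3 (KA qat3 qat20 qat20))) (Nat.add (Nat.mul w21 (Nat.mul 6 (KA qat3 qat20 qat21))) (Nat.add (Nat.mul w22 (Nat.mul 6 (KA qat3 qat20 qat22))) (Nat.add (Nat.mul w23 (Nat.mul 6 (KA qat3 qat20 qat23))) (Nat.add (Nat.mul w24 (Nat.mul 6 (KA qat3 qat20 qat24))) (Nat.add (Nat.mul w25 (Nat.mul 6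 (KA qat3 qat20 qat25))) (Nat.add (Nat.mul w26 (Nat.mul 6 (KA qat3 qat20 qat26))) 0)))))))) (Nat.add (Nat.mul w21 (Nat.add (Nat.mul w21 (Nat.mul 3 (KA qat3 qat21 qat21))) (Nat.add (Nat.mul w22 (Nat.mul 6 (KA qat3 qat21 qat22))) (Nat.add (Nat.mul w23 (Nat.mul 6 (KA qat3 qat21 qat23))) (Nat.add (Nat.mul w24 (Nat.mul 6 (KA qat3 qat21 qat24))) (Nat.add (Nat.mul w25 (Nat.mul 6 (KA qat3 qat21 qat25))) (Nat.add (Nat.mul w26 (Nat.mul 6 (KA qat3 qat21 qat26))) 0))))))) (Nat.add (Nat.mul w22 (Nat.add (Nat.mul w22 (Nat.mul 3 (KA qat3 qat22 qat22))) (Nat.add (Nat.mul w23 (Nat.mul 6 (KA qat3 qat22 qat23))) (Nat.add (Nat.mul w24 (Nat.mul 6 (KA qat3 qat22 qat24))) (Nat.add (Nat.mul w25 (Nat.mul 6 (KA qat3 qat22 qat25))) (Nat.add (Nat.mul w26 (Nat.mul 6 (KA qat3 qat22 qat26))) 0)))))) (Nat.add (Nat.mul w23 (Nat.add (Nat.mul w23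 (Nat.mul 3 (KA qat3 qat23 qat23))) (Nat.add (Nat.mul w24 (Nat.mul 6 (KA qat3 qat23 qat24))) (Nat.add (Nat.mul w25 (Nat.mul 6 (KA qat3 qat23 qat25))) (Nat.add (Nat.mul w26 (Nat.mul 6 (KA qat3 qat23 qat26))) 0))))) (Nat.add (Nat.mul w24 (Nat.add (Nat.mul w24 (Nat.mul 3 (KA qat3 qat24 qat24))) (Nat.add (Nat.mul w25 (Nat.mul 6 (KA qat3 qat24 qat25))) (Nat.add (Nat.mul w26 (Nat.mul 6 (KA qat3 qat24 qat26))) 0)))) (Nat.add (Nat.mul w25 (Nat.add (Nat.mul w25 (Nat.mul 3 (KA qat3 qat25 qat25))) (Nat.add (Nat.mul w26 (Nat.mul 6 (KA qat3 qat25 qat26))) 0))) (Nat.add (Nat.mul w26 (Nat.add (Nat.mul w26 (Nat.mul 3 (KA qat3 qat26 qat26))) (0))) 0))))))))))))))))))))))))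

/-- Terms with least index 4. -/
noncomputable def qa4 (w4 w5 w6 w7 w8 w9 w10 w11 w12 w13 w14 w15 w16 w17 w18 w19 w20 w21 w22 w23 w24 w25 w26 : Nat) : Nat :=
  Nat.mul w4 (Nat.add (Nat.mul w4 (Nat.add (Nat.mul w4 (KA qat4 qat4 qat4)) (Nat.add (Nat.mul w5 (Nat.mul 3 (KA qat4 qat4 qat5))) (Nat.add (Nat.mul w6 (Nat.mul 3 (KA qat4 qat4 qat6))) (Nat.add (Nat.mul w7 (Nat.mul 3 (KA qat4 qat4 qat7))) (Nat.add (Nat.mul w8 (Nat.mul 3 (KA qat4 qat4 qat8))) (Nat.add (Nat.mul w9 (Nat.mul 3 (KA qat4 qat4 qat9))) (Nat.add (Nat.mul w10 (Nat.mul 3 (KA qat4 qat4 qat10))) (Nat.add (Nat.mul w11 (Nat.mul 3 (KA qat4 qat4 qat11))) (Nat.add (Nat.mul w12 (Nat.mul 3 (KA qat4 qat4 qat12))) (Nat.add (Nat.mul w13 (Nat.mul 3 (KA qat4 qat4 qat13))) (Nat.add (Nat.mul w14 (Nat.mul 3 (KA qat4 qat4 qat14))) (Nat.add (Nat.mul w15 (Nat.mul 3 (KA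 qat4 qat4 qat15))) (Nat.add (Nat.mul w16 (Nat.mul 3 (KA qat4 qat4 qat16))) (Nat.add (Nat.mul w17 (Nat.mul 3 (KA qat4 qat4 qat17))) (Nat.add (Nat.mul w18 (Nat.mul 3 (KA qat4 qat4 qat18))) (Nat.add (Nat.mul w19 (Nat.mul 3 (KA qat4 qat4 qat19))) (Nat.add (Nat.mul w20 (Nat.mul 3 (KA qat4 qat4 qat20))) (Nat.add (Nat.mul w21 (Nat.mul 3 (KA qat4 qat4 qat21))) (Nat.add (Nat.mul w22 (Nat.mul 3 (KA qat4 qat4 qat22))) (Nat.add (Nat.mul w23 (Nat.mul 3 (KA qat4 qat4 qat23))) (Nat.add (Nat.mul w24 (Nat.mul 3 (KA qat4 qat4 qat24))) (Nat.add (Nat.mul w25 (Nat.mul 3 (KA qat4 qat4 qat25))) (Nat.add (Nat.mul w26 (Nat.mul 3 (KA qat4 qat4 qat26))) 0)))))))))))))))))))))))) (Nat.add (Nat.mul w5 (Nat.add (Nat.mul w5 (Nat.mul 3 (KA qat4 qat5 qat5))) (Nat.add (Nat.mul w6 (Nat.mul 6 (KA qat4 qat5 qat6))) (Nat.add (Nat.mul w7 (Nat.mul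 6 (KA qat4 qat5 qat7))) (Nat.add (Nat.mul w8 (Nat.mul 6 (KA qat4 qat5 qat8))) (Nat.add (Nat.mul w9 (Nat.mul 6 (KA qat4 qat5 qat9))) (Nat.add (Nat.mul w10 (Nat.mul 6 (KA qat4 qat5 qat10))) (Nat.add (Nat.mul w11 (Nat.mul 6 (KA qat4 qat5 qat11))) (Nat.add (Nat.mul w12 (Nat.mul 6 (KA qat4 qat5 qat12))) (Nat.add (Nat.mul w13 (Nat.mul 6 (KA qat4 qat5 qat13))) (Nat.add (Nat.mul w14 (Nat.mul 6 (KA qat4 qat5 qat14))) (Nat.add (Nat.mul w15 (Nat.mul 6 (KA qat4 qat5 qat15))) (Nat.add (Nat.mul w16 (Nat.mul 6 (KA qat4 qat5 qat16))) (Nat.add (Nat.mul w17 (Nat.mul 6 (KA qat4 qat5 qat17))) (Nat.add (Nat.mul w18 (Nat.mul 6 (KA qat4 qat5 qat18))) (Nat.add (Nat.mul w19 (Nat.mul 6 (KA qat4 qat5 qat19))) (Nat.add (Nat.mul w20 (Nat.mul 6 (KA qat4 qat5 qat20))) (Nat.add (Nat.mul w21 (Nat.mul 6 (KA qat4 qat5 qat21))) (Nat.add (Nat.mul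 w22 (Nat.mul 6 (KA qat4 qat5 qat22))) (Nat.add (Nat.mul w23 (Nat.mul 6 (KA qat4 qat5 qat23))) (Nat.add (Nat.mul w24 (Nat.mul 6 (KA qat4 qat5 qat24))) (Nat.add (Nat.mul w25 (Nat.mul 6 (KA qat4 qat5 qat25))) (Nat.add (Nat.mul w26 (Nat.mul 6 (KA qat4 qat5 qat26))) 0))))))))))))))))))))))) (Nat.add (Nat.mul w6 (Nat.add (Nat.mul w6 (Nat.mul 3 (KA qat4 qat6 qat6))) (Nat.add (Nat.mul w7 (Nat.mul 6 (KA qat4 qat6 qat7))) (Nat.add (Nat.mul w8 (Nat.mul 6 (KA qat4 qat6 qat8))) (Nat.add (Nat.mul w9 (Nat.mul 6 (KA qat4 qat6 qat9))) (Nat.add (Nat.mul w10 (Nat.mul 6 (KA qat4 qat6 qat10))) (Nat.add (Nat.mul w11 (Nat.mul 6 (KA qat4 qat6 qat11))) (Nat.add (Nat.mul w12 (Nat.mul 6 (KA qat4 qat6 qat12))) (Nat.add (Nat.mul w13 (Nat.mul 6 (KA qat4 qat6 qat13))) (Nat.add (Nat.mul w14 (Nat.mul 6 (KA qat4 qat6 qat14))) (Nat.add (Nat.mul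 w15 (Nat.mul 6 (KA qat4 qat6 qat15))) (Nat.add (Nat.mul w16 (Nat.mul 6 (KA qat4 qat6 qat16))) (Nat.add (Nat.mul w17 (Nat.mul 6 (KA qat4 qat6 qat17))) (Nat.add (Nat.mul w18 (Nat.mul 6 (KA qat4 qat6 qat18))) (Nat.add (Nat.mul w19 (Nat.mul 6 (KA qat4 qat6 qat19))) (Nat.add (Nat.mul w20 (Nat.mul 6 (KA qat4 qat6 qat20))) (Nat.add (Nat.mul w21 (Nat.mul 6 (KA qat4 qat6 qat21))) (Nat.add (Nat.mul w22 (Nat.mul 6 (KA qat4 qat6 qat22))) (Nat.add (Nat.mul w23 (Nat.mul 6 (KA qat4 qat6 qat23))) (Nat.add (Nat.mul w24 (Nat.mul 6 (KA qat4 qat6 qat24))) (Nat.add (Nat.mul w25 (Nat.mul 6 (KA qat4 qat6 qat25))) (Nat.add (Nat.mul w26 (Nat.mul 6 (KA qat4 qat6 qat26))) 0)))))))))))))))))))))) (Nat.add (Nat.mul w7 (Nat.add (Nat.mul w7 (Nat.mul 3 (KA qat4 qat7 qat7))) (Nat.add (Nat.mul w8 (Nat.mul 6 (KA qat4 qat7 qat8))) (Nat.add (Nat.mul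 w9 (Nat.mul 6 (KA qat4 qat7 qat9))) (Nat.add (Nat.mul w10 (Nat.mul 6 (KA qat4 qat7 qat10))) (Nat.add (Nat.mul w11 (Nat.mul 6 (KA qat4 qat7 qat11))) (Nat.add (Nat.mul w12 (Nat.mul 6 (KA qat4 qat7 qat12))) (Nat.add (Nat.mul w13 (Nat.mul 6 (KA qat4 qat7 qat13))) (Nat.add (Nat.mul w14 (Nat.mul 6 (KA qat4 qat7 qat14))) (Nat.add (Nat.mul w15 (Nat.mul 6 (KA qat4 qat7 qat15))) (Nat.add (Nat.mul w16 (Nat.mul 6 (KA qat4 qat7 qat16))) (Nat.add (Nat.mul w17 (Nat.mul 6 (KA qat4 qat7 qat17))) (Nat.add (Nat.mul w18 (Nat.mul 6 (KA qat4 qat7 qat18))) (Nat.add (Nat.mul w19 (Nat.mul 6 (KA qat4 qat7 qat19))) (Nat.add (Nat.mul w20 (Nat.mul 6 (KA qat4 qat7 qat20))) (Nat.add (Nat.mul w21 (Nat.mul 6 (KA qat4 qat7 qat21))) (Nat.add (Nat.mul w22 (Nat.mul 6 (KA qat4 qat7 qat22))) (Nat.add (Nat.mul w23 (Nat.mul 6 (KA qat4 qat7 qat23)))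 (Nat.add (Nat.mul w24 (Nat.mul 6 (KA qat4 qat7 qat24))) (Nat.add (Nat.mul w25 (Nat.mul 6 (KA qat4 qat7 qat25))) (Nat.add (Nat.mul w26 (Nat.mul 6 (KA qat4 qat7 qat26))) 0))))))))))))))))))))) (Nat.add (Nat.mul w8 (Nat.add (Nat.mul w8 (Nat.mul 3 (KA qat4 qat8 qat8))) (Nat.add (Nat.mul w9 (Nat.mul 6 (KA qat4 qat8 qat9))) (Nat.add (Nat.mul w10 (Nat.mul 6 (KA qat4 qat8 qat10))) (Nat.add (Nat.mul w11 (Nat.mul 6 (KA qat4 qat8 qat11))) (Nat.add (Nat.mul w12 (Nat.mul 6 (KA qat4 qat8 qat12))) (Nat.add (Nat.mul w13 (Nat.mul 6 (KA qat4 qat8 qat13))) (Nat.add (Nat.mul w14 (Nat.mul 6 (KA qat4 qat8 qat14))) (Nat.add (Nat.mul w15 (Nat.mul 6 (KA qat4 qat8 qat15))) (Nat.add (Nat.mul w16 (Nat.mul 6 (KA qat4 qat8 qat16))) (Nat.add (Nat.mul w17 (Nat.mul 6 (KA qat4 qat8 qat17))) (Nat.add (Nat.mul w18 (Nat.mul 6 (KA qat4 qat8 qat18)))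 (Nat.add (Nat.mul w19 (Nat.mul 6 (KA qat4 qat8 qat19))) (Nat.add (Nat.mul w20 (Nat.mul 6 (KA qat4 qat8 qat20))) (Nat.add (Nat.mul w21 (Nat.mul 6 (KA qat4 qat8 qat21))) (Nat.add (Nat.mul w22 (Nat.mul 6 (KA qat4 qat8 qat22))) (Nat.add (Nat.mul w23 (Nat.mul 6 (KA qat4 qat8 qat23))) (Nat.add (Nat.mul w24 (Nat.mul 6 (KA qat4 qat8 qat24))) (Nat.add (Nat.mul w25 (Nat.mul 6 (KA qat4 qat8 qat25))) (Nat.add (Nat.mul w26 (Nat.mul 6 (KA qat4 qat8 qat26))) 0)))))))))))))))))))) (Nat.add (Nat.mul w9 (Nat.add (Nat.mul w9 (Nat.mul 3 (KA qat4 qat9 qat9))) (Nat.add (Nat.mul w10 (Nat.mul 6 (KA qat4 qat9 qat10))) (Nat.add (Nat.mul w11 (Nat.mul 6 (KA qat4 qat9 qat11))) (Nat.add (Nat.mul w12 (Nat.mul 6 (KA qat4 qat9 qat12))) (Nat.add (Nat.mul w13 (Nat.mul 6 (KA qat4 qat9 qat13))) (Nat.add (Nat.mul w14 (Nat.mul 6 (KA qat4 qat9 qat14)))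 (Nat.add (Nat.mul w15 (Nat.mul 6 (KA qat4 qat9 qat15))) (Nat.add (Nat.mul w16 (Nat.mul 6 (KA qat4 qat9 qat16))) (Nat.add (Nat.mul w17 (Nat.mul 6 (KA qat4 qat9 qat17))) (Nat.add (Nat.mul w18 (Nat.mul 6 (KA qat4 qat9 qat18))) (Nat.add (Nat.mul w19 (Nat.mul 6 (KA qat4 qat9 qat19))) (Nat.add (Nat.mul w20 (Nat.mul 6 (KA qat4 qat9 qat20))) (Nat.add (Nat.mul w21 (Nat.mul 6 (KA qat4 qat9 qat21))) (Nat.add (Nat.mul w22 (Nat.mul 6 (KA qat4 qat9 qat22))) (Nat.add (Nat.mul w23 (Nat.mul 6 (KA qat4 qat9 qat23))) (Nat.add (Nat.mul w24 (Nat.mul 6 (KA qat4 qat9 qat24))) (Nat.add (Nat.mul w25 (Nat.mul 6 (KA qat4 qat9 qat25))) (Nat.add (Nat.mul w26 (Nat.mul 6 (KA qat4 qat9 qat26))) 0))))))))))))))))))) (Nat.add (Nat.mul w10 (Nat.add (Nat.mul w10 (Nat.mul 3 (KA qat4 qat10 qat10))) (Nat.add (Nat.mul w11 (Nat.mul 6 (KA qat4 qat10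 qat11))) (Nat.add (Nat.mul w12 (Nat.mul 6 (KA qat4 qat10 qat12))) (Nat.add (Nat.mul w13 (Nat.mul 6 (KA qat4 qat10 qat13))) (Nat.add (Nat.mul w14 (Nat.mul 6 (KA qat4 qat10 qat14))) (Nat.add (Nat.mul w15 (Nat.mul 6 (KA qat4 qat10 qat15))) (Nat.add (Nat.mul w16 (Nat.mul 6 (KA qat4 qat10 qat16))) (Nat.add (Nat.mul w17 (Nat.mul 6 (KA qat4 qat10 qat17))) (Nat.add (Nat.mul w18 (Nat.mul 6 (KA qat4 qat10 qat18))) (Nat.add (Nat.mul w19 (Nat.mul 6 (KA qat4 qat10 qat19))) (Nat.add (Nat.mul w20 (Nat.mul 6 (KA qat4 qat10 qat20))) (Nat.add (Nat.mul w21 (Nat.mul 6 (KA qat4 qat10 qat21))) (Nat.add (Nat.mul w22 (Nat.mul 6 (KA qat4 qat10 qat22))) (Nat.add (Nat.mul w23 (Nat.mul 6 (KA qat4 qat10 qat23))) (Nat.add (Nat.mul w24 (Nat.mul 6 (KA qat4 qat10 qat24))) (Nat.add (Nat.mul w25 (Nat.mul 6 (KA qat4 qat10 qat25))) (Nat.add (Nat.mul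 w26 (Nat.mul 6 (KA qat4 qat10 qat26))) 0)))))))))))))))))) (Nat.add (Nat.mul w11 (Nat.add (Nat.mul w11 (Nat.mul 3 (KA qat4 qat11 qat11))) (Nat.add (Nat.mul w12 (Nat.mul 6 (KA qat4 qat11 qat12))) (Nat.add (Nat.mul w13 (Nat.mul 6 (KA qat4 qat11 qat13))) (Nat.add (Nat.mul w14 (Nat.mul 6 (KA qat4 qat11 qat14))) (Nat.add (Nat.mul w15 (Nat.mul 6 (KA qat4 qat11 qat15))) (Nat.add (Nat.mul w16 (Nat.mul 6 (KA qat4 qat11 qat16))) (Nat.add (Nat.mul w17 (Nat.mul 6 (KA qat4 qat11 qat17))) (Nat.add (Nat.mul w18 (Nat.mul 6 (KA qat4 qat11 qat18))) (Nat.add (Nat.mul w19 (Nat.mul 6 (KA qat4 qat11 qat19))) (Nat.add (Nat.mul w20 (Nat.mul 6 (KA qat4 qat11 qat20))) (Nat.add (Nat.mul w21 (Nat.mul 6 (KA qat4 qat11 qat21))) (Nat.add (Nat.mul w22 (Nat.mul 6 (KA qat4 qat11 qat22))) (Nat.add (Nat.mul w23 (Nat.mul 6 (KA qat4 qat11 qat23)))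 (Nat.add (Nat.mul w24 (Nat.mul 6 (KA qat4 qat11 qat24))) (Nat.add (Nat.mul w25 (Nat.mul 6 (KA qat4 qat11 qat25))) (Nat.add (Nat.mul w26 (Nat.mul 6 (KA qat4 qat11 qat26))) 0))))))))))))))))) (Nat.add (Nat.mul w12 (Nat.add (Nat.mul w12 (Nat.mul 3 (KA qat4 qat12 qat12))) (Nat.add (Nat.mul w13 (Nat.mul 6 (KA qat4 qat12 qat13))) (Nat.add (Nat.mul w14 (Nat.mul 6 (KA qat4 qat12 qat14))) (Nat.add (Nat.mul w15 (Nat.mul 6 (KA qat4 qat12 qat15))) (Nat.add (Nat.mul w16 (Nat.mul 6 (KA qat4 qat12 qat16))) (Nat.add (Nat.mul w17 (Nat.mul 6 (KA qat4 qat12 qat17))) (Nat.add (Nat.mul w18 (Nat.mul 6 (KA qat4 qat12 qat18))) (Nat.add (Nat.mul w19 (Nat.mul 6 (KA qat4 qat12 qat19))) (Nat.add (Nat.mul w20 (Nat.mul 6 (KA qat4 qat12 qat20))) (Nat.add (Nat.mul w21 (Nat.mul 6 (KA qat4 qat12 qat21))) (Nat.add (Nat.mul w22 (Nat.mul 6 (KA qat4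 qat12 qat22))) (Nat.add (Nat.mul w23 (Nat.mul 6 (KA qat4 qat12 qat23))) (Nat.add (Nat.mul w24 (Nat.mul 6 (KA qat4 qat12 qat24))) (Nat.add (Nat.mul w25 (Nat.mul 6 (KA qat4 qat12 qat25))) (Nat.add (Nat.mul w26 (Nat.mul 6 (KA qat4 qat12 qat26))) 0)))))))))))))))) (Nat.add (Nat.mul w13 (Nat.add (Nat.mul w13 (Nat.mul 3 (KA qat4 qat13 qat13))) (Nat.add (Nat.mul w14 (Nat.mul 6 (KA qat4 qat13 qat14))) (Nat.add (Nat.mul w15 (Nat.mul 6 (KA qat4 qat13 qat15))) (Nat.add (Nat.mul w16 (Nat.mul 6 (KA qat4 qat13 qat16))) (Nat.add (Nat.mul w17 (Nat.mul 6 (KA qat4 qat13 qat17))) (Nat.add (Nat.mul w18 (Nat.mul 6 (KA qat4 qat13 qat18))) (Nat.add (Nat.mul w19 (Nat.mul 6 (KA qat4 qat13 qat19))) (Nat.add (Nat.mul w20 (Nat.mul 6 (KA qat4 qat13 qat20))) (Nat.add (Nat.mul w21 (Nat.mul 6 (KA qat4 qat13 qat21))) (Nat.add (Nat.mul w22 (Nat.mul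 6 (KA qat4 qat13 qat22))) (Nat.add (Nat.mul w23 (Nat.mul 6 (KA qat4 qat13 qat23))) (Nat.add (Nat.mul w24 (Nat.mul 6 (KA qat4 qat13 qat24))) (Nat.add (Nat.mul w25 (Nat.mul 6 (KA qat4 qat13 qat25))) (Nat.add (Nat.mul w26 (Nat.mul 6 (KA qat4 qat13 qat26))) 0))))))))))))))) (Nat.add (Nat.mul w14 (Nat.add (Nat.mul w14 (Nat.mul 3 (KA qat4 qat14 qat14))) (Nat.add (Nat.mul w15 (Nat.mul 6 (KA qat4 qat14 qat15))) (Nat.add (Nat.mul w16 (Nat.mul 6 (KA qat4 qat14 qat16))) (Nat.add (Nat.mul w17 (Nat.mul 6 (KA qat4 qat14 qat17))) (Nat.add (Nat.mul w18 (Nat.mul 6 (KA qat4 qat14 qat18))) (Nat.add (Nat.mul w19 (Nat.mul 6 (KA qat4 qat14 qat19))) (Nat.add (Nat.mul w20 (Nat.mul 6 (KA qat4 qat14 qat20))) (Nat.add (Nat.mul w21 (Nat.mul 6 (KA qat4 qat14 qat21))) (Nat.add (Nat.mul w22 (Nat.mul 6 (KA qat4 qat14 qat22))) (Nat.add (Nat.mul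 w23 (Nat.mul 6 (KA qat4 qat14 qat23))) (Nat.add (Nat.mul w24 (Nat.mul 6 (KA qat4 qat14 qat24))) (Nat.add (Nat.mul w25 (Nat.mul 6 (KA qat4 qat14 qat25))) (Nat.add (Nat.mul w26 (Nat.mul 6 (KA qat4 qat14 qat26))) 0)))))))))))))) (Nat.add (Nat.mul w15 (Nat.add (Nat.mul w15 (Nat.mul 3 (KA qat4 qat15 qat15))) (Nat.add (Nat.mul w16 (Nat.mul 6 (KA qat4 qat15 qat16))) (Nat.add (Nat.mul w17 (Nat.mul 6 (KA qat4 qat15 qat17))) (Nat.add (Nat.mul w18 (Nat.mul 6 (KA qat4 qat15 qat18))) (Nat.add (Nat.mul w19 (Nat.mul 6 (KA qat4 qat15 qat19))) (Nat.add (Nat.mul w20 (Nat.mul 6 (KA qat4 qat15 qat20))) (Nat.add (Nat.mul w21 (Nat.mul 6 (KA qat4 qat15 qat21))) (Nat.add (Nat.mul w22 (Nat.mul 6 (KA qat4 qat15 qat22))) (Nat.add (Nat.mul w23 (Nat.mul 6 (KA qat4 qat15 qat23))) (Nat.add (Nat.mul w24 (Nat.mul 6 (KA qat4 qat15 qat24))) (Nat.add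 (Nat.mul w25 (Nat.mul 6 (KA qat4 qat15 qat25))) (Nat.add (Nat.mul w26 (Nat.mul 6 (KA qat4 qat15 qat26))) 0))))))))))))) (Nat.add (Nat.mul w16 (Nat.add (Nat.mul w16 (Nat.mul 3 (KA qat4 qat16 qat16))) (Nat.add (Nat.mul w17 (Nat.mul 6 (KA qat4 qat16 qat17))) (Nat.add (Nat.mul w18 (Nat.mul 6 (KA qat4 qat16 qat18))) (Nat.add (Nat.mul w19 (Nat.mul 6 (KA qat4 qat16 qat19))) (Nat.add (Nat.mul w20 (Nat.mul 6 (KA qat4 qat16 qat20))) (Nat.add (Nat.mul w21 (Nat.mul 6 (KA qat4 qat16 qat21))) (Nat.add (Nat.mul w22 (Nat.mul 6 (KA qat4 qat16 qat22))) (Nat.add (Nat.mul w23 (Nat.mul 6 (KA qat4 qat16 qat23))) (Nat.add (Nat.mul w24 (Nat.mul 6 (KA qat4 qat16 qat24))) (Nat.add (Nat.mul w25 (Nat.mul 6 (KA qat4 qat16 qat25))) (Nat.add (Nat.mul w26 (Nat.mul 6 (KA qat4 qat16 qat26))) 0)))))))))))) (Nat.add (Nat.mul w17 (Nat.add (Nat.mul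 w17 (Nat.mul 3 (KA qat4 qat17 qat17))) (Nat.add (Nat.mul w18 (Nat.mul 6 (KA qat4 qat17 qat18))) (Nat.add (Nat.mul w19 (Nat.mul 6 (KA qat4 qat17 qat19))) (Nat.add (Nat.mul w20 (Nat.mul 6 (KA qat4 qat17 qat20))) (Nat.add (Nat.mul w21 (Nat.mul 6 (KA qat4 qat17 qat21))) (Nat.add (Nat.mul w22 (Nat.mul 6 (KA qat4 qat17 qat22))) (Nat.add (Nat.mul w23 (Nat.mul 6 (KA qat4 qat17 qat23))) (Nat.add (Nat.mul w24 (Nat.mul 6 (KA qat4 qat17 qat24))) (Nat.add (Nat.mul w25 (Nat.mul 6 (KA qat4 qat17 qat25))) (Nat.add (Nat.mul w26 (Nat.mul 6 (KA qat4 qat17 qat26))) 0))))))))))) (Nat.add (Nat.mul w18 (Nat.add (Nat.mul w18 (Nat.mul 3 (KA qat4 qat18 qat18))) (Nat.add (Nat.mul w19 (Nat.mul 6 (KA qat4 qat18 qat19))) (Nat.add (Nat.mul w20 (Nat.mul 6 (KA qat4 qat18 qat20))) (Nat.add (Nat.mul w21 (Nat.mul 6 (KA qat4 qat18 qat21))) (Nat.add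 (Nat.mul w22 (Nat.mul 6 (KA qat4 qat18 qat22))) (Nat.add (Nat.mul w23 (Nat.mul 6 (KA qat4 qat18 qat23))) (Nat.add (Nat.mul w24 (Nat.mul 6 (KA qat4 qat18 qat24))) (Nat.add (Nat.mul w25 (Nat.mul 6 (KA qat4 qat18 qat25))) (Nat.add (Nat.mul w26 (Nat.mul 6 (KA qat4 qat18 qat26))) 0)))))))))) (Nat.add (Nat.mul w19 (Nat.add (Nat.mul w19 (Nat.mul 3 (KA qat4 qat19 qat19))) (Nat.add (Nat.mul w20 (Nat.mul 6 (KA qat4 qat19 qat20))) (Nat.add (Nat.mul w21 (Nat.mul 6 (KA qat4 qat19 qat21))) (Nat.add (Nat.mul w22 (Nat.mul 6 (KA qat4 qat19 qat22))) (Nat.add (Nat.mul w23 (Nat.mul 6 (KA qat4 qat19 qat23))) (Nat.add (Nat.mul w24 (Nat.mul 6 (KA qat4 qat19 qat24))) (Nat.add (Nat.mul w25 (Nat.mul 6 (KA qat4 qat19 qat25))) (Nat.add (Nat.mul w26 (Nat.mul 6 (KA qat4 qat19 qat26))) 0))))))))) (Nat.add (Nat.mul w20 (Nat.add (Nat.mul w20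 (Nat.mul 3 (KA qat4 qat20 qat20))) (Nat.add (Nat.mul w21 (Nat.mul 6 (KA qat4 qat20 qat21))) (Nat.add (Nat.mul w22 (Nat.mul 6 (KA qat4 qat20 qat22))) (Nat.add (Nat.mul w23 (Nat.mul 6 (KA qat4 qat20 qat23))) (Nat.add (Nat.mul w24 (Nat.mul 6 (KA qat4 qat20 qat24))) (Nat.add (Nat.mul w25 (Nat.mul 6 (KA qat4 qat20 qat25))) (Nat.add (Nat.mul w26 (Nat.mul 6 (KA qat4 qat20 qat26))) 0)))))))) (Nat.add (Nat.mul w21 (Nat.add (Nat.mul w21 (Nat.mul 3 (KA qat4 qat21 qat21))) (Nat.add (Nat.mul w22 (Nat.mul 6 (KA qat4 qat21 qat22))) (Nat.add (Nat.mul w23 (Nat.mul 6 (KA qat4 qat21 qat23))) (Nat.add (Nat.mul w24 (Nat.mul 6 (KA qat4 qat21 qat24))) (Nat.add (Nat.mul w25 (Nat.mul 6 (KA qat4 qat21 qat25))) (Nat.add (Nat.mul w26 (Nat.mul 6 (KA qat4 qat21 qat26))) 0))))))) (Nat.add (Nat.mul w22 (Nat.add (Nat.mul w22 (Nat.mul 3 (KA qat4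 qat22 qat22))) (Nat.add (Nat.mul w23 (Nat.mul 6 (KA qat4 qat22 qat23))) (Nat.add (Nat.mul w24 (Nat.mul 6 (KA qat4 qat22 qat24))) (Nat.add (Nat.mul w25 (Nat.mul 6 (KA qat4 qat22 qat25))) (Nat.add (Nat.mul w26 (Nat.mul 6 (KA qat4 qat22 qat26))) 0)))))) (Nat.add (Nat.mul w23 (Nat.add (Nat.mul w23 (Nat.mul 3 (KA qat4 qat23 qat23))) (Nat.add (Nat.mul w24 (Nat.mul 6 (KA qat4 qat23 qat24))) (Nat.add (Nat.mul w25 (Nat.mul 6 (KA qat4 qat23 qat25))) (Nat.add (Nat.mul w26 (Nat.mul 6 (KA qat4 qat23 qat26))) 0))))) (Nat.add (Nat.mul w24 (Nat.add (Nat.mul w24 (Nat.mul 3 (KA qat4 qat24 qat24))) (Nat.add (Nat.mul w25 (Nat.mul 6 (KA qat4 qat24 qat25))) (Nat.add (Nat.mul w26 (Nat.mul 6 (KA qat4 qat24 qat26))) 0)))) (Nat.add (Nat.mul w25 (Nat.add (Nat.mul w25 (Nat.mul 3 (KA qat4 qat25 qat25))) (Nat.add (Nat.mul w26 (Nat.mul 6 (KA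 qat4 qat25 qat26))) 0))) (Nat.add (Nat.mul w26 (Nat.add (Nat.mul w26 (Nat.mul 3 (KA qat4 qat26 qat26))) (0))) 0)))))))))))))))))))))))

/-- Terms with least index 5. -/
noncomputable def qa5 (w5 w6 w7 w8 w9 w10 w11 w12 w13 w14 w15 w16 w17 w18 w19 w20 w21 w22 w23 w24 w25 w26 : Nat) : Nat :=
  Nat.mul w5 (Nat.add (Nat.mul w5 (Nat.add (Nat.mul w5 (KA qat5 qat5 qat5)) (Nat.add (Nat.mul w6 (Nat.mul 3 (KA qat5 qat5 qat6))) (Nat.add (Nat.mul w7 (Nat.mul 3 (KA qat5 qat5 qat7))) (Nat.add (Nat.mul w8 (Nat.mul 3 (KA qat5 qat5 qat8))) (Nat.add (Nat.mul w9 (Nat.mul 3 (KA qat5 qat5 qat9))) (Nat.add (Nat.mul w10 (Nat.mul 3 (KA qat5 qat5 qat10))) (Nat.add (Nat.mul w11 (Nat.mul 3 (KA qat5 qat5 qat11))) (Nat.add (Nat.mul w12 (Nat.mul 3 (KA qat5 qat5 qat12))) (Nat.add (Nat.mul w13 (Nat.mul 3 (KA qat5 qat5 qat13))) (Nat.add (Nat.mul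 w14 (Nat.mul 3 (KA qat5 qat5 qat14))) (Nat.add (Nat.mul w15 (Nat.mul 3 (KA qat5 qat5 qat15))) (Nat.add (Nat.mul w16 (Nat.mul 3 (KA qat5 qat5 qat16))) (Nat.add (Nat.mul w17 (Nat.mul 3 (KA qat5 qat5 qat17))) (Nat.add (Nat.mul w18 (Nat.mul 3 (KA qat5 qat5 qat18))) (Nat.add (Nat.mul w19 (Nat.mul 3 (KA qat5 qat5 qat19))) (Nat.add (Nat.mul w20 (Nat.mul 3 (KA qat5 qat5 qat20))) (Nat.add (Nat.mul w21 (Nat.mul 3 (KA qat5 qat5 qat21))) (Nat.add (Nat.mul w22 (Nat.mul 3 (KA qat5 qat5 qat22))) (Nat.add (Nat.mul w23 (Nat.mul 3 (KA qat5 qat5 qat23))) (Nat.add (Nat.mul w24 (Nat.mul 3 (KA qat5 qat5 qat24))) (Nat.add (Nat.mul w25 (Nat.mul 3 (KA qat5 qat5 qat25))) (Nat.add (Nat.mul w26 (Nat.mul 3 (KA qat5 qat5 qat26))) 0))))))))))))))))))))))) (Nat.add (Nat.mul w6 (Nat.add (Nat.mul w6 (Nat.mul 3 (KA qat5 qat6 qat6))) (Nat.add (Nat.mul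 w7 (Nat.mul 6 (KA qat5 qat6 qat7))) (Nat.add (Nat.mul w8 (Nat.mul 6 (KA qat5 qat6 qat8))) (Nat.add (Nat.mul w9 (Nat.mul 6 (KA qat5 qat6 qat9))) (Nat.add (Nat.mul w10 (Nat.mul 6 (KA qat5 qat6 qat10))) (Nat.add (Nat.mul w11 (Nat.mul 6 (KA qat5 qat6 qat11))) (Nat.add (Nat.mul w12 (Nat.mul 6 (KA qat5 qat6 qat12))) (Nat.add (Nat.mul w13 (Nat.mul 6 (KA qat5 qat6 qat13))) (Nat.add (Nat.mul w14 (Nat.mul 6 (KA qat5 qat6 qat14))) (Nat.add (Nat.mul w15 (Nat.mul 6 (KA qat5 qat6 qat15))) (Nat.add (Nat.mul w16 (Nat.mul 6 (KA qat5 qat6 qat16))) (Nat.add (Nat.mul w17 (Nat.mul 6 (KA qat5 qat6 qat17))) (Nat.add (Nat.mul w18 (Nat.mul 6 (KA qat5 qat6 qat18))) (Nat.add (Nat.mul w19 (Nat.mul 6 (KA qat5 qat6 qat19))) (Nat.add (Nat.mul w20 (Nat.mul 6 (KA qat5 qat6 qat20))) (Nat.add (Nat.mul w21 (Nat.mul 6 (KA qat5 qat6 qat21))) (Nat.add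 (Nat.mul w22 (Nat.mul 6 (KA qat5 qat6 qat22))) (Nat.add (Nat.mul w23 (Nat.mul 6 (KA qat5 qat6 qat23))) (Nat.add (Nat.mul w24 (Nat.mul 6 (KA qat5 qat6 qat24))) (Nat.add (Nat.mul w25 (Nat.mul 6 (KA qat5 qat6 qat25))) (Nat.add (Nat.mul w26 (Nat.mul 6 (KA qat5 qat6 qat26))) 0)))))))))))))))))))))) (Nat.add (Nat.mul w7 (Nat.add (Nat.mul w7 (Nat.mul 3 (KA qat5 qat7 qat7))) (Nat.add (Nat.mul w8 (Nat.mul 6 (KA qat5 qat7 qat8))) (Nat.add (Nat.mul w9 (Nat.mul 6 (KA qat5 qat7 qat9))) (Nat.add (Nat.mul w10 (Nat.mul 6 (KA qat5 qat7 qat10))) (Nat.add (Nat.mul w11 (Nat.mul 6 (KA qat5 qat7 qat11))) (Nat.add (Nat.mul w12 (Nat.mul 6 (KA qat5 qat7 qat12))) (Nat.add (Nat.mul w13 (Nat.mul 6 (KA qat5 qat7 qat13))) (Nat.add (Nat.mul w14 (Nat.mul 6 (KA qat5 qat7 qat14))) (Nat.add (Nat.mul w15 (Nat.mul 6 (KA qat5 qat7 qat15))) (Nat.add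 (Nat.mul w16 (Nat.mul 6 (KA qat5 qat7 qat16))) (Nat.add (Nat.mul w17 (Nat.mul 6 (KA qat5 qat7 qat17))) (Nat.add (Nat.mul w18 (Nat.mul 6 (KA qat5 qat7 qat18))) (Nat.add (Nat.mul w19 (Nat.mul 6 (KA qat5 qat7 qat19))) (Nat.add (Nat.mul w20 (Nat.mul 6 (KA qat5 qat7 qat20))) (Nat.add (Nat.mul w21 (Nat.mul 6 (KA qat5 qat7 qat21))) (Nat.add (Nat.mul w22 (Nat.mul 6 (KA qat5 qat7 qat22))) (Nat.add (Nat.mul w23 (Nat.mul 6 (KA qat5 qat7 qat23))) (Nat.add (Nat.mul w24 (Nat.mul 6 (KA qat5 qat7 qat24))) (Nat.add (Nat.mul w25 (Nat.mul 6 (KA qat5 qat7 qat25))) (Nat.add (Nat.mul w26 (Nat.mul 6 (KA qat5 qat7 qat26))) 0))))))))))))))))))))) (Nat.add (Nat.mul w8 (Nat.add (Nat.mul w8 (Nat.mul 3 (KA qat5 qat8 qat8))) (Nat.add (Nat.mul w9 (Nat.mul 6 (KA qat5 qat8 qat9))) (Nat.add (Nat.mul w10 (Nat.mul 6 (KA qat5 qat8 qat10))) (Nat.add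 (Nat.mul w11 (Nat.mul 6 (KA qat5 qat8 qat11))) (Nat.add (Nat.mul w12 (Nat.mul 6 (KA qat5 qat8 qat12))) (Nat.add (Nat.mul w13 (Nat.mul 6 (KA qat5 qat8 qat13))) (Nat.add (Nat.mul w14 (Nat.mul 6 (KA qat5 qat8 qat14))) (Nat.add (Nat.mul w15 (Nat.mul 6 (KA qat5 qat8 qat15))) (Nat.add (Nat.mul w16 (Nat.mul 6 (KA qat5 qat8 qat16))) (Nat.add (Nat.mul w17 (Nat.mul 6 (KA qat5 qat8 qat17))) (Nat.add (Nat.mul w18 (Nat.mul 6 (KA qat5 qat8 qat18))) (Nat.add (Nat.mul w19 (Nat.mul 6 (KA qat5 qat8 qat19))) (Nat.add (Nat.mul w20 (Nat.mul 6 (KA qat5 qat8 qat20))) (Nat.add (Nat.mul w21 (Nat.mul 6 (KA qat5 qat8 qat21))) (Nat.add (Nat.mul w22 (Nat.mul 6 (KA qat5 qat8 qat22))) (Nat.add (Nat.mul w23 (Nat.mul 6 (KA qat5 qat8 qat23))) (Nat.add (Nat.mul w24 (Nat.mul 6 (KA qat5 qat8 qat24))) (Nat.add (Nat.mul w25 (Nat.mul 6 (KA qat5 qat8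 qat25))) (Nat.add (Nat.mul w26 (Nat.mul 6 (KA qat5 qat8 qat26))) 0)))))))))))))))))))) (Nat.add (Nat.mul w9 (Nat.add (Nat.mul w9 (Nat.mul 3 (KA qat5 qat9 qat9))) (Nat.add (Nat.mul w10 (Nat.mul 6 (KA qat5 qat9 qat10))) (Nat.add (Nat.mul w11 (Nat.mul 6 (KA qat5 qat9 qat11))) (Nat.add (Nat.mul w12 (Nat.mul 6 (KA qat5 qat9 qat12))) (Nat.add (Nat.mul w13 (Nat.mul 6 (KA qat5 qat9 qat13))) (Nat.add (Nat.mul w14 (Nat.mul 6 (KA qat5 qat9 qat14))) (Nat.add (Nat.mul w15 (Nat.mul 6 (KA qat5 qat9 qat15))) (Nat.add (Nat.mul w16 (Nat.mul 6 (KA qat5 qat9 qat16))) (Nat.add (Nat.mul w17 (Nat.mul 6 (KA qat5 qat9 qat17))) (Nat.add (Nat.mul w18 (Nat.mul 6 (KA qat5 qat9 qat18))) (Nat.add (Nat.mul w19 (Nat.mul 6 (KA qat5 qat9 qat19))) (Nat.add (Nat.mul w20 (Nat.mul 6 (KA qat5 qat9 qat20))) (Nat.add (Nat.mul w21 (Nat.mul 6 (KA qat5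 qat9 qat21))) (Nat.add (Nat.mul w22 (Nat.mul 6 (KA qat5 qat9 qat22))) (Nat.add (Nat.mul w23 (Nat.mul 6 (KA qat5 qat9 qat23))) (Nat.add (Nat.mul w24 (Nat.mul 6 (KA qat5 qat9 qat24))) (Nat.add (Nat.mul w25 (Nat.mul 6 (KA qat5 qat9 qat25))) (Nat.add (Nat.mul w26 (Nat.mul 6 (KA qat5 qat9 qat26))) 0))))))))))))))))))) (Nat.add (Nat.mul w10 (Nat.add (Nat.mul w10 (Nat.mul 3 (KA qat5 qat10 qat10))) (Nat.add (Nat.mul w11 (Nat.mul 6 (KA qat5 qat10 qat11))) (Nat.add (Nat.mul w12 (Nat.mul 6 (KA qat5 qat10 qat12))) (Nat.add (Nat.mul w13 (Nat.mul 6 (KA qat5 qat10 qat13))) (Nat.add (Nat.mul w14 (Nat.mul 6 (KA qat5 qat10 qat14))) (Nat.add (Nat.mul w15 (Nat.mul 6 (KA qat5 qat10 qat15))) (Nat.add (Nat.mul w16 (Nat.mul 6 (KA qat5 qat10 qat16))) (Nat.add (Nat.mul w17 (Nat.mul 6 (KA qat5 qat10 qat17))) (Nat.add (Nat.mul w18 (Nat.mul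 6 (KA qat5 qat10 qat18))) (Nat.add (Nat.mul w19 (Nat.mul 6 (KA qat5 qat10 qat19))) (Nat.add (Nat.mul w20 (Nat.mul 6 (KA qat5 qat10 qat20))) (Nat.add (Nat.mul w21 (Nat.mul 6 (KA qat5 qat10 qat21))) (Nat.add (Nat.mul w22 (Nat.mul 6 (KA qat5 qat10 qat22))) (Nat.add (Nat.mul w23 (Nat.mul 6 (KA qat5 qat10 qat23))) (Nat.add (Nat.mul w24 (Nat.mul 6 (KA qat5 qat10 qat24))) (Nat.add (Nat.mul w25 (Nat.mul 6 (KA qat5 qat10 qat25))) (Nat.add (Nat.mul w26 (Nat.mul 6 (KA qat5 qat10 qat26))) 0)))))))))))))))))) (Nat.add (Nat.mul w11 (Nat.add (Nat.mul w11 (Nat.mul 3 (KA qat5 qat11 qat11))) (Nat.add (Nat.mul w12 (Nat.mul 6 (KA qat5 qat11 qat12))) (Nat.add (Nat.mul w13 (Nat.mul 6 (KA qat5 qat11 qat13))) (Nat.add (Nat.mul w14 (Nat.mul 6 (KA qat5 qat11 qat14))) (Nat.add (Nat.mul w15 (Nat.mul 6 (KA qat5 qat11 qat15))) (Nat.add (Nat.mul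 w16 (Nat.mul 6 (KA qat5 qat11 qat16))) (Nat.add (Nat.mul w17 (Nat.mul 6 (KA qat5 qat11 qat17))) (Nat.add (Nat.mul w18 (Nat.mul 6 (KA qat5 qat11 qat18))) (Nat.add (Nat.mul w19 (Nat.mul 6 (KA qat5 qat11 qat19))) (Nat.add (Nat.mul w20 (Nat.mul 6 (KA qat5 qat11 qat20))) (Nat.add (Nat.mul w21 (Nat.mul 6 (KA qat5 qat11 qat21))) (Nat.add (Nat.mul w22 (Nat.mul 6 (KA qat5 qat11 qat22))) (Nat.add (Nat.mul w23 (Nat.mul 6 (KA qat5 qat11 qat23))) (Nat.add (Nat.mul w24 (Nat.mul 6 (KA qat5 qat11 qat24))) (Nat.add (Nat.mul w25 (Nat.mul 6 (KA qat5 qat11 qat25))) (Nat.add (Nat.mul w26 (Nat.mul 6 (KA qat5 qat11 qat26))) 0))))))))))))))))) (Nat.add (Nat.mul w12 (Nat.add (Nat.mul w12 (Nat.mul 3 (KA qat5 qat12 qat12))) (Nat.add (Nat.mul w13 (Nat.mul 6 (KA qat5 qat12 qat13))) (Nat.add (Nat.mul w14 (Nat.mul 6 (KA qat5 qat12 qat14)))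 (Nat.add (Nat.mul w15 (Nat.mul 6 (KA qat5 qat12 qat15))) (Nat.add (Nat.mul w16 (Nat.mul 6 (KA qat5 qat12 qat16))) (Nat.add (Nat.mul w17 (Nat.mul 6 (KA qat5 qat12 qat17))) (Nat.add (Nat.mul w18 (Nat.mul 6 (KA qat5 qat12 qat18))) (Nat.add (Nat.mul w19 (Nat.mul 6 (KA qat5 qat12 qat19))) (Nat.add (Nat.mul w20 (Nat.mul 6 (KA qat5 qat12 qat20))) (Nat.add (Nat.mul w21 (Nat.mul 6 (KA qat5 qat12 qat21))) (Nat.add (Nat.mul w22 (Nat.mul 6 (KA qat5 qat12 qat22))) (Nat.add (Nat.mul w23 (Nat.mul 6 (KA qat5 qat12 qat23))) (Nat.add (Nat.mul w24 (Nat.mul 6 (KA qat5 qat12 qat24))) (Nat.add (Nat.mul w25 (Nat.mul 6 (KA qat5 qat12 qat25))) (Nat.add (Nat.mul w26 (Nat.mul 6 (KA qat5 qat12 qat26))) 0)))))))))))))))) (Nat.add (Nat.mul w13 (Nat.add (Nat.mul w13 (Nat.mul 3 (KA qat5 qat13 qat13))) (Nat.add (Nat.mul w14 (Nat.mul 6 (KA qat5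 qat13 qat14))) (Nat.add (Nat.mul w15 (Nat.mul 6 (KA qat5 qat13 qat15))) (Nat.add (Nat.mul w16 (Nat.mul 6 (KA qat5 qat13 qat16))) (Nat.add (Nat.mul w17 (Nat.mul 6 (KA qat5 qat13 qat17))) (Nat.add (Nat.mul w18 (Nat.mul 6 (KA qat5 qat13 qat18))) (Nat.add (Nat.mul w19 (Nat.mul 6 (KA qat5 qat13 qat19))) (Nat.add (Nat.mul w20 (Nat.mul 6 (KA qat5 qat13 qat20))) (Nat.add (Nat.mul w21 (Nat.mul 6 (KA qat5 qat13 qat21))) (Nat.add (Nat.mul w22 (Nat.mul 6 (KA qat5 qat13 qat22))) (Nat.add (Nat.mul w23 (Nat.mul 6 (KA qat5 qat13 qat23))) (Nat.add (Nat.mul w24 (Nat.mul 6 (KA qat5 qat13 qat24))) (Nat.add (Nat.mul w25 (Nat.mul 6 (KA qat5 qat13 qat25))) (Nat.add (Nat.mul w26 (Nat.mul 6 (KA qat5 qat13 qat26))) 0))))))))))))))) (Nat.add (Nat.mul w14 (Nat.add (Nat.mul w14 (Nat.mul 3 (KA qat5 qat14 qat14))) (Nat.add (Nat.mul w15 (Nat.mul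 6 (KA qat5 qat14 qat15))) (Nat.add (Nat.mul w16 (Nat.mul 6 (KA qat5 qat14 qat16))) (Nat.add (Nat.mul w17 (Nat.mul 6 (KA qat5 qat14 qat17))) (Nat.add (Nat.mul w18 (Nat.mul 6 (KA qat5 qat14 qat18))) (Nat.add (Nat.mul w19 (Nat.mul 6 (KA qat5 qat14 qat19))) (Nat.add (Nat.mul w20 (Nat.mul 6 (KA qat5 qat14 qat20))) (Nat.add (Nat.mul w21 (Nat.mul 6 (KA qat5 qat14 qat21))) (Nat.add (Nat.mul w22 (Nat.mul 6 (KA qat5 qat14 qat22))) (Nat.add (Nat.mul w23 (Nat.mul 6 (KA qat5 qat14 qat23))) (Nat.add (Nat.mul w24 (Nat.mul 6 (KA qat5 qat14 qat24))) (Nat.add (Nat.mul w25 (Nat.mul 6 (KA qat5 qat14 qat25))) (Nat.add (Nat.mul w26 (Nat.mul 6 (KA qat5 qat14 qat26))) 0)))))))))))))) (Nat.add (Nat.mul w15 (Nat.add (Nat.mul w15 (Nat.mul 3 (KA qat5 qat15 qat15))) (Nat.add (Nat.mul w16 (Nat.mul 6 (KA qat5 qat15 qat16))) (Nat.add (Nat.mul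 w17 (Nat.mul 6 (KA qat5 qat15 qat17))) (Nat.add (Nat.mul w18 (Nat.mul 6 (KA qat5 qat15 qat18))) (Nat.add (Nat.mul w19 (Nat.mul 6 (KA qat5 qat15 qat19))) (Nat.add (Nat.mul w20 (Nat.mul 6 (KA qat5 qat15 qat20))) (Nat.add (Nat.mul w21 (Nat.mul 6 (KA qat5 qat15 qat21))) (Nat.add (Nat.mul w22 (Nat.mul 6 (KA qat5 qat15 qat22))) (Nat.add (Nat.mul w23 (Nat.mul 6 (KA qat5 qat15 qat23))) (Nat.add (Nat.mul w24 (Nat.mul 6 (KA qat5 qat15 qat24))) (Nat.add (Nat.mul w25 (Nat.mul 6 (KA qat5 qat15 qat25))) (Nat.add (Nat.mul w26 (Nat.mul 6 (KA qat5 qat15 qat26))) 0))))))))))))) (Nat.add (Nat.mul w16 (Nat.add (Nat.mul w16 (Nat.mul 3 (KA qat5 qat16 qat16))) (Nat.add (Nat.mul w17 (Nat.mul 6 (KA qat5 qat16 qat17))) (Nat.add (Nat.mul w18 (Nat.mul 6 (KA qat5 qat16 qat18))) (Nat.add (Nat.mul w19 (Nat.mul 6 (KA qat5 qat16 qat19))) (Nat.add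 (Nat.mul w20 (Nat.mul 6 (KA qat5 qat16 qat20))) (Nat.add (Nat.mul w21 (Nat.mul 6 (KA qat5 qat16 qat21))) (Nat.add (Nat.mul w22 (Nat.mul 6 (KA qat5 qat16 qat22))) (Nat.add (Nat.mul w23 (Nat.mul 6 (KA qat5 qat16 qat23))) (Nat.add (Nat.mul w24 (Nat.mul 6 (KA qat5 qat16 qat24))) (Nat.add (Nat.mul w25 (Nat.mul 6 (KA qat5 qat16 qat25))) (Nat.add (Nat.mul w26 (Nat.mul 6 (KA qat5 qat16 qat26))) 0)))))))))))) (Nat.add (Nat.mul w17 (Nat.add (Nat.mul w17 (Nat.mul 3 (KA qat5 qat17 qat17))) (Nat.add (Nat.mul w18 (Nat.mul 6 (KA qat5 qat17 qat18))) (Nat.add (Nat.mul w19 (Nat.mul 6 (KA qat5 qat17 qat19))) (Nat.add (Nat.mul w20 (Nat.mul 6 (KA qat5 qat17 qat20))) (Nat.add (Nat.mul w21 (Nat.mul 6 (KA qat5 qat17 qat21))) (Nat.add (Nat.mul w22 (Nat.mul 6 (KA qat5 qat17 qat22))) (Nat.add (Nat.mul w23 (Nat.mul 6 (KA qat5 qat17 qat23)))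 (Nat.add (Nat.mul w24 (Nat.mul 6 (KA qat5 qat17 qat24))) (Nat.add (Nat.mul w25 (Nat.mul 6 (KA qat5 qat17 qat25))) (Nat.add (Nat.mul w26 (Nat.mul 6 (KA qat5 qat17 qat26))) 0))))))))))) (Nat.add (Nat.mul w18 (Nat.add (Nat.mul w18 (Nat.mul 3 (KA qat5 qat18 qat18))) (Nat.add (Nat.mul w19 (Nat.mul 6 (KA qat5 qat18 qat19))) (Nat.add (Nat.mul w20 (Nat.mul 6 (KA qat5 qat18 qat20))) (Nat.add (Nat.mul w21 (Nat.mul 6 (KA qat5 qat18 qat21))) (Nat.add (Nat.mul w22 (Nat.mul 6 (KA qat5 qat18 qat22))) (Nat.add (Nat.mul w23 (Nat.mul 6 (KA qat5 qat18 qat23))) (Nat.add (Nat.mul w24 (Nat.mul 6 (KA qat5 qat18 qat24))) (Nat.add (Nat.mul w25 (Nat.mul 6 (KA qat5 qat18 qat25))) (Nat.add (Nat.mul w26 (Nat.mul 6 (KA qat5 qat18 qat26))) 0)))))))))) (Nat.add (Nat.mul w19 (Nat.add (Nat.mul w19 (Nat.mul 3 (KA qat5 qat19 qat19))) (Nat.add (Nat.mul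 w20 (Nat.mul 6 (KA qat5 qat19 qat20))) (Nat.add (Nat.mul w21 (Nat.mul 6 (KA qat5 qat19 qat21))) (Nat.add (Nat.mul w22 (Nat.mul 6 (KA qat5 qat19 qat22))) (Nat.add (Nat.mul w23 (Nat.mul 6 (KA qat5 qat19 qat23))) (Nat.add (Nat.mul w24 (Nat.mul 6 (KA qat5 qat19 qat24))) (Nat.add (Nat.mul w25 (Nat.mul 6 (KA qat5 qat19 qat25))) (Nat.add (Nat.mul w26 (Nat.mul 6 (KA qat5 qat19 qat26))) 0))))))))) (Nat.add (Nat.mul w20 (Nat.add (Nat.mul w20 (Nat.mul 3 (KA qat5 qat20 qat20))) (Nat.add (Nat.mul w21 (Nat.mul 6 (KA qat5 qat20 qat21))) (Nat.add (Nat.mul w22 (Nat.mul 6 (KA qat5 qat20 qat22))) (Nat.add (Nat.mul w23 (Nat.mul 6 (KA qat5 qat20 qat23))) (Nat.add (Nat.mul w24 (Nat.mul 6 (KA qat5 qat20 qat24))) (Nat.add (Nat.mul w25 (Nat.mul 6 (KA qat5 qat20 qat25))) (Nat.add (Nat.mul w26 (Nat.mul 6 (KA qat5 qat20 qat26))) 0))))))))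 (Nat.add (Nat.mul w21 (Nat.add (Nat.mul w21 (Nat.mul 3 (KA qat5 qat21 qat21))) (Nat.add (Nat.mul w22 (Nat.mul 6 (KA qat5 qat21 qat22))) (Nat.add (Nat.mul w23 (Nat.mul 6 (KA qat5 qat21 qat23))) (Nat.add (Nat.mul w24 (Nat.mul 6 (KA qat5 qat21 qat24))) (Nat.add (Nat.mul w25 (Nat.mul 6 (KA qat5 qat21 qat25))) (Nat.add (Nat.mul w26 (Nat.mul 6 (KA qat5 qat21 qat26))) 0))))))) (Nat.add (Nat.mul w22 (Nat.add (Nat.mul w22 (Nat.mul 3 (KA qat5 qat22 qat22))) (Nat.add (Nat.mul w23 (Nat.mul 6 (KA qat5 qat22 qat23))) (Nat.add (Nat.mul w24 (Nat.mul 6 (KA qat5 qat22 qat24))) (Nat.add (Nat.mul w25 (Nat.mul 6 (KA qat5 qat22 qat25))) (Nat.add (Nat.mul w26 (Nat.mul 6 (KA qat5 qat22 qat26))) 0)))))) (Nat.add (Nat.mul w23 (Nat.add (Nat.mul w23 (Nat.mul 3 (KA qat5 qat23 qat23))) (Nat.add (Nat.mul w24 (Nat.mul 6 (KA qat5 qat23 qat24)))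 (Nat.add (Nat.mul w25 (Nat.mul 6 (KA qat5 qat23 qat25))) (Nat.add (Nat.mul w26 (Nat.mul 6 (KA qat5 qat23 qat26))) 0))))) (Nat.add (Nat.mul w24 (Nat.add (Nat.mul w24 (Nat.mul 3 (KA qat5 qat24 qat24))) (Nat.add (Nat.mul w25 (Nat.mul 6 (KA qat5 qat24 qat25))) (Nat.add (Nat.mul w26 (Nat.mul 6 (KA qat5 qat24 qat26))) 0)))) (Nat.add (Nat.mul w25 (Nat.add (Nat.mul w25 (Nat.mul 3 (KA qat5 qat25 qat25))) (Nat.add (Nat.mul w26 (Nat.mul 6 (KA qat5 qat25 qat26))) 0))) (Nat.add (Nat.mul w26 (Nat.add (Nat.mul w26 (Nat.mul 3 (KA qat5 qat26 qat26))) (0))) 0))))))))))))))))))))))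

/-- Terms with least index 6. -/
noncomputable def qa6 (w6 w7 w8 w9 w10 w11 w12 w13 w14 w15 w16 w17 w18 w19 w20 w21 w22 w23 w24 w25 w26 : Nat) : Nat :=
  Nat.mul w6 (Nat.add (Nat.mul w6 (Nat.add (Nat.mul w6 (KA qat6 qat6 qat6)) (Nat.add (Nat.mul w7 (Nat.mul 3 (KA qat6 qat6 qat7))) (Nat.add (Nat.mul w8 (Nat.mul 3 (KA qat6 qat6 qat8))) (Nat.add (Nat.mul w9 (Nat.mul 3 (KA qat6 qat6 qat9))) (Nat.add (Nat.mul w10 (Nat.mul 3 (KA qat6 qat6 qat10))) (Nat.add (Nat.mul w11 (Nat.mul 3 (KA qat6 qat6 qat11))) (Nat.add (Nat.mul w12 (Nat.mul 3 (KA qat6 qat6 qat12))) (Nat.add (Nat.mul w13 (Nat.mul 3 (KA qat6 qat6 qat13))) (Nat.add (Nat.mul w14 (Nat.mul 3 (KA qat6 qat6 qat14))) (Nat.add (Nat.mul w15 (Nat.mul 3 (KA qat6 qat6 qat15))) (Nat.add (Nat.mul w16 (Nat.mul 3 (KA qat6 qat6 qat16))) (Nat.add (Nat.mul w17 (Nat.mul 3 (KA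 qat6 qat6 qat17))) (Nat.add (Nat.mul w18 (Nat.mul 3 (KA qat6 qat6 qat18))) (Nat.add (Nat.mul w19 (Nat.mul 3 (KA qat6 qat6 qat19))) (Nat.add (Nat.mul w20 (Nat.mul 3 (KA qat6 qat6 qat20))) (Nat.add (Nat.mul w21 (Nat.mul 3 (KA qat6 qat6 qat21))) (Nat.add (Nat.mul w22 (Nat.mul 3 (KA qat6 qat6 qat22))) (Nat.add (Nat.mul w23 (Nat.mul 3 (KA qat6 qat6 qat23))) (Nat.add (Nat.mul w24 (Nat.mul 3 (KA qat6 qat6 qat24))) (Nat.add (Nat.mul w25 (Nat.mul 3 (KA qat6 qat6 qat25))) (Nat.add (Nat.mul w26 (Nat.mul 3 (KA qat6 qat6 qat26))) 0)))))))))))))))))))))) (Nat.add (Nat.mul w7 (Nat.add (Nat.mul w7 (Nat.mul 3 (KA qat6 qat7 qat7))) (Nat.add (Nat.mul w8 (Nat.mul 6 (KA qat6 qat7 qat8))) (Nat.add (Nat.mul w9 (Nat.mul 6 (KA qat6 qat7 qat9))) (Nat.add (Nat.mul w10 (Nat.mul 6 (KA qat6 qat7 qat10))) (Nat.add (Nat.mul w11 (Nat.mul 6 (KA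 qat6 qat7 qat11))) (Nat.add (Nat.mul w12 (Nat.mul 6 (KA qat6 qat7 qat12))) (Nat.add (Nat.mul w13 (Nat.mul 6 (KA qat6 qat7 qat13))) (Nat.add (Nat.mul w14 (Nat.mul 6 (KA qat6 qat7 qat14))) (Nat.add (Nat.mul w15 (Nat.mul 6 (KA qat6 qat7 qat15))) (Nat.add (Nat.mul w16 (Nat.mul 6 (KA qat6 qat7 qat16))) (Nat.add (Nat.mul w17 (Nat.mul 6 (KA qat6 qat7 qat17))) (Nat.add (Nat.mul w18 (Nat.mul 6 (KA qat6 qat7 qat18))) (Nat.add (Nat.mul w19 (Nat.mul 6 (KA qat6 qat7 qat19))) (Nat.add (Nat.mul w20 (Nat.mul 6 (KA qat6 qat7 qat20))) (Nat.add (Nat.mul w21 (Nat.mul 6 (KA qat6 qat7 qat21))) (Nat.add (Nat.mul w22 (Nat.mul 6 (KA qat6 qat7 qat22))) (Nat.add (Nat.mul w23 (Nat.mul 6 (KA qat6 qat7 qat23))) (Nat.add (Nat.mul w24 (Nat.mul 6 (KA qat6 qat7 qat24))) (Nat.add (Nat.mul w25 (Nat.mul 6 (KA qat6 qat7 qat25))) (Nat.add (Nat.mul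 w26 (Nat.mul 6 (KA qat6 qat7 qat26))) 0))))))))))))))))))))) (Nat.add (Nat.mul w8 (Nat.add (Nat.mul w8 (Nat.mul 3 (KA qat6 qat8 qat8))) (Nat.add (Nat.mul w9 (Nat.mul 6 (KA qat6 qat8 qat9))) (Nat.add (Nat.mul w10 (Nat.mul 6 (KA qat6 qat8 qat10))) (Nat.add (Nat.mul w11 (Nat.mul 6 (KA qat6 qat8 qat11))) (Nat.add (Nat.mul w12 (Nat.mul 6 (KA qat6 qat8 qat12))) (Nat.add (Nat.mul w13 (Nat.mul 6 (KA qat6 qat8 qat13))) (Nat.add (Nat.mul w14 (Nat.mul 6 (KA qat6 qat8 qat14))) (Nat.add (Nat.mul w15 (Nat.mul 6 (KA qat6 qat8 qat15))) (Nat.add (Nat.mul w16 (Nat.mul 6 (KA qat6 qat8 qat16))) (Nat.add (Nat.mul w17 (Nat.mul 6 (KA qat6 qat8 qat17))) (Nat.add (Nat.mul w18 (Nat.mul 6 (KA qat6 qat8 qat18))) (Nat.add (Nat.mul w19 (Nat.mul 6 (KA qat6 qat8 qat19))) (Nat.add (Nat.mul w20 (Nat.mul 6 (KA qat6 qat8 qat20))) (Nat.add (Nat.mul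 w21 (Nat.mul 6 (KA qat6 qat8 qat21))) (Nat.add (Nat.mul w22 (Nat.mul 6 (KA qat6 qat8 qat22))) (Nat.add (Nat.mul w23 (Nat.mul 6 (KA qat6 qat8 qat23))) (Nat.add (Nat.mul w24 (Nat.mul 6 (KA qat6 qat8 qat24))) (Nat.add (Nat.mul w25 (Nat.mul 6 (KA qat6 qat8 qat25))) (Nat.add (Nat.mul w26 (Nat.mul 6 (KA qat6 qat8 qat26))) 0)))))))))))))))))))) (Nat.add (Nat.mul w9 (Nat.add (Nat.mul w9 (Nat.mul 3 (KA qat6 qat9 qat9))) (Nat.add (Nat.mul w10 (Nat.mul 6 (KA qat6 qat9 qat10))) (Nat.add (Nat.mul w11 (Nat.mul 6 (KA qat6 qat9 qat11))) (Nat.add (Nat.mul w12 (Nat.mul 6 (KA qat6 qat9 qat12))) (Nat.add (Nat.mul w13 (Nat.mul 6 (KA qat6 qat9 qat13))) (Nat.add (Nat.mul w14 (Nat.mul 6 (KA qat6 qat9 qat14))) (Nat.add (Nat.mul w15 (Nat.mul 6 (KA qat6 qat9 qat15))) (Nat.add (Nat.mul w16 (Nat.mul 6 (KA qat6 qat9 qat16))) (Nat.add (Nat.mul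 w17 (Nat.mul 6 (KA qat6 qat9 qat17))) (Nat.add (Nat.mul w18 (Nat.mul 6 (KA qat6 qat9 qat18))) (Nat.add (Nat.mul w19 (Nat.mul 6 (KA qat6 qat9 qat19))) (Nat.add (Nat.mul w20 (Nat.mul 6 (KA qat6 qat9 qat20))) (Nat.add (Nat.mul w21 (Nat.mul 6 (KA qat6 qat9 qat21))) (Nat.add (Nat.mul w22 (Nat.mul 6 (KA qat6 qat9 qat22))) (Nat.add (Nat.mul w23 (Nat.mul 6 (KA qat6 qat9 qat23))) (Nat.add (Nat.mul w24 (Nat.mul 6 (KA qat6 qat9 qat24))) (Nat.add (Nat.mul w25 (Nat.mul 6 (KA qat6 qat9 qat25))) (Nat.add (Nat.mul w26 (Nat.mul 6 (KA qat6 qat9 qat26))) 0))))))))))))))))))) (Nat.add (Nat.mul w10 (Nat.add (Nat.mul w10 (Nat.mul 3 (KA qat6 qat10 qat10))) (Nat.add (Nat.mul w11 (Nat.mul 6 (KA qat6 qat10 qat11))) (Nat.add (Nat.mul w12 (Nat.mul 6 (KA qat6 qat10 qat12))) (Nat.add (Nat.mul w13 (Nat.mul 6 (KA qat6 qat10 qat13))) (Nat.add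 (Nat.mul w14 (Nat.mul 6 (KA qat6 qat10 qat14))) (Nat.add (Nat.mul w15 (Nat.mul 6 (KA qat6 qat10 qat15))) (Nat.add (Nat.mul w16 (Nat.mul 6 (KA qat6 qat10 qat16))) (Nat.add (Nat.mul w17 (Nat.mul 6 (KA qat6 qat10 qat17))) (Nat.add (Nat.mul w18 (Nat.mul 6 (KA qat6 qat10 qat18))) (Nat.add (Nat.mul w19 (Nat.mul 6 (KA qat6 qat10 qat19))) (Nat.add (Nat.mul w20 (Nat.mul 6 (KA qat6 qat10 qat20))) (Nat.add (Nat.mul w21 (Nat.mul 6 (KA qat6 qat10 qat21))) (Nat.add (Nat.mul w22 (Nat.mul 6 (KA qat6 qat10 qat22))) (Nat.add (Nat.mul w23 (Nat.mul 6 (KA qat6 qat10 qat23))) (Nat.add (Nat.mul w24 (Nat.mul 6 (KA qat6 qat10 qat24))) (Nat.add (Nat.mul w25 (Nat.mul 6 (KA qat6 qat10 qat25))) (Nat.add (Nat.mul w26 (Nat.mul 6 (KA qat6 qat10 qat26))) 0)))))))))))))))))) (Nat.add (Nat.mul w11 (Nat.add (Nat.mul w11 (Nat.mul 3 (KA qat6 qat11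 qat11))) (Nat.add (Nat.mul w12 (Nat.mul 6 (KA qat6 qat11 qat12))) (Nat.add (Nat.mul w13 (Nat.mul 6 (KA qat6 qat11 qat13))) (Nat.add (Nat.mul w14 (Nat.mul 6 (KA qat6 qat11 qat14))) (Nat.add (Nat.mul w15 (Nat.mul 6 (KA qat6 qat11 qat15))) (Nat.add (Nat.mul w16 (Nat.mul 6 (KA qat6 qat11 qat16))) (Nat.add (Nat.mul w17 (Nat.mul 6 (KA qat6 qat11 qat17))) (Nat.add (Nat.mul w18 (Nat.mul 6 (KA qat6 qat11 qat18))) (Nat.add (Nat.mul w19 (Nat.mul 6 (KA qat6 qat11 qat19))) (Nat.add (Nat.mul w20 (Nat.mul 6 (KA qat6 qat11 qat20))) (Nat.add (Nat.mul w21 (Nat.mul 6 (KA qat6 qat11 qat21))) (Nat.add (Nat.mul w22 (Nat.mul 6 (KA qat6 qat11 qat22))) (Nat.add (Nat.mul w23 (Nat.mul 6 (KA qat6 qat11 qat23))) (Nat.add (Nat.mul w24 (Nat.mul 6 (KA qat6 qat11 qat24))) (Nat.add (Nat.mul w25 (Nat.mul 6 (KA qat6 qat11 qat25))) (Nat.add (Nat.mul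 w26 (Nat.mul 6 (KA qat6 qat11 qat26))) 0))))))))))))))))) (Nat.add (Nat.mul w12 (Nat.add (Nat.mul w12 (Nat.mul 3 (KA qat6 qat12 qat12))) (Nat.add (Nat.mul w13 (Nat.mul 6 (KA qat6 qat12 qat13))) (Nat.add (Nat.mul w14 (Nat.mul 6 (KA qat6 qat12 qat14))) (Nat.add (Nat.mul w15 (Nat.mul 6 (KA qat6 qat12 qat15))) (Nat.add (Nat.mul w16 (Nat.mul 6 (KA qat6 qat12 qat16))) (Nat.add (Nat.mul w17 (Nat.mul 6 (KA qat6 qat12 qat17))) (Nat.add (Nat.mul w18 (Nat.mul 6 (KA qat6 qat12 qat18))) (Nat.add (Nat.mul w19 (Nat.mul 6 (KA qat6 qat12 qat19))) (Nat.add (Nat.mul w20 (Nat.mul 6 (KA qat6 qat12 qat20))) (Nat.add (Nat.mul w21 (Nat.mul 6 (KA qat6 qat12 qat21))) (Nat.add (Nat.mul w22 (Nat.mul 6 (KA qat6 qat12 qat22))) (Nat.add (Nat.mul w23 (Nat.mul 6 (KA qat6 qat12 qat23))) (Nat.add (Nat.mul w24 (Nat.mul 6 (KA qat6 qat12 qat24)))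 (Nat.add (Nat.mul w25 (Nat.mul 6 (KA qat6 qat12 qat25))) (Nat.add (Nat.mul w26 (Nat.mul 6 (KA qat6 qat12 qat26))) 0)))))))))))))))) (Nat.add (Nat.mul w13 (Nat.add (Nat.mul w13 (Nat.mul 3 (KA qat6 qat13 qat13))) (Nat.add (Nat.mul w14 (Nat.mul 6 (KA qat6 qat13 qat14))) (Nat.add (Nat.mul w15 (Nat.mul 6 (KA qat6 qat13 qat15))) (Nat.add (Nat.mul w16 (Nat.mul 6 (KA qat6 qat13 qat16))) (Nat.add (Nat.mul w17 (Nat.mul 6 (KA qat6 qat13 qat17))) (Nat.add (Nat.mul w18 (Nat.mul 6 (KA qat6 qat13 qat18))) (Nat.add (Nat.mul w19 (Nat.mul 6 (KA qat6 qat13 qat19))) (Nat.add (Nat.mul w20 (Nat.mul 6 (KA qat6 qat13 qat20))) (Nat.add (Nat.mul w21 (Nat.mul 6 (KA qat6 qat13 qat21))) (Nat.add (Nat.mul w22 (Nat.mul 6 (KA qat6 qat13 qat22))) (Nat.add (Nat.mul w23 (Nat.mul 6 (KA qat6 qat13 qat23))) (Nat.add (Nat.mul w24 (Nat.mul 6 (KA qat6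 qat13 qat24))) (Nat.add (Nat.mul w25 (Nat.mul 6 (KA qat6 qat13 qat25))) (Nat.add (Nat.mul w26 (Nat.mul 6 (KA qat6 qat13 qat26))) 0))))))))))))))) (Nat.add (Nat.mul w14 (Nat.add (Nat.mul w14 (Nat.mul 3 (KA qat6 qat14 qat14))) (Nat.add (Nat.mul w15 (Nat.mul 6 (KA qat6 qat14 qat15))) (Nat.add (Nat.mul w16 (Nat.mul 6 (KA qat6 qat14 qat16))) (Nat.add (Nat.mul w17 (Nat.mul 6 (KA qat6 qat14 qat17))) (Nat.add (Nat.mul w18 (Nat.mul 6 (KA qat6 qat14 qat18))) (Nat.add (Nat.mul w19 (Nat.mul 6 (KA qat6 qat14 qat19))) (Nat.add (Nat.mul w20 (Nat.mul 6 (KA qat6 qat14 qat20))) (Nat.add (Nat.mul w21 (Nat.mul 6 (KA qat6 qat14 qat21))) (Nat.add (Nat.mul w22 (Nat.mul 6 (KA qat6 qat14 qat22))) (Nat.add (Nat.mul w23 (Nat.mul 6 (KA qat6 qat14 qat23))) (Nat.add (Nat.mul w24 (Nat.mul 6 (KA qat6 qat14 qat24))) (Nat.add (Nat.mul w25 (Nat.mul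 6 (KA qat6 qat14 qat25))) (Nat.add (Nat.mul w26 (Nat.mul 6 (KA qat6 qat14 qat26))) 0)))))))))))))) (Nat.add (Nat.mul w15 (Nat.add (Nat.mul w15 (Nat.mul 3 (KA qat6 qat15 qat15))) (Nat.add (Nat.mul w16 (Nat.mul 6 (KA qat6 qat15 qat16))) (Nat.add (Nat.mul w17 (Nat.mul 6 (KA qat6 qat15 qat17))) (Nat.add (Nat.mul w18 (Nat.mul 6 (KA qat6 qat15 qat18))) (Nat.add (Nat.mul w19 (Nat.mul 6 (KA qat6 qat15 qat19))) (Nat.add (Nat.mul w20 (Nat.mul 6 (KA qat6 qat15 qat20))) (Nat.add (Nat.mul w21 (Nat.mul 6 (KA qat6 qat15 qat21))) (Nat.add (Nat.mul w22 (Nat.mul 6 (KA qat6 qat15 qat22))) (Nat.add (Nat.mul w23 (Nat.mul 6 (KA qat6 qat15 qat23))) (Nat.add (Nat.mul w24 (Nat.mul 6 (KA qat6 qat15 qat24))) (Nat.add (Nat.mul w25 (Nat.mul 6 (KA qat6 qat15 qat25))) (Nat.add (Nat.mul w26 (Nat.mul 6 (KA qat6 qat15 qat26))) 0)))))))))))))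 (Nat.add (Nat.mul w16 (Nat.add (Nat.mul w16 (Nat.mul 3 (KA qat6 qat16 qat16))) (Nat.add (Nat.mul w17 (Nat.mul 6 (KA qat6 qat16 qat17))) (Nat.add (Nat.mul w18 (Nat.mul 6 (KA qat6 qat16 qat18))) (Nat.add (Nat.mul w19 (Nat.mul 6 (KA qat6 qat16 qat19))) (Nat.add (Nat.mul w20 (Nat.mul 6 (KA qat6 qat16 qat20))) (Nat.add (Nat.mul w21 (Nat.mul 6 (KA qat6 qat16 qat21))) (Nat.add (Nat.mul w22 (Nat.mul 6 (KA qat6 qat16 qat22))) (Nat.add (Nat.mul w23 (Nat.mul 6 (KA qat6 qat16 qat23))) (Nat.add (Nat.mul w24 (Nat.mul 6 (KA qat6 qat16 qat24))) (Nat.add (Nat.mul w25 (Nat.mul 6 (KA qat6 qat16 qat25))) (Nat.add (Nat.mul w26 (Nat.mul 6 (KA qat6 qat16 qat26))) 0)))))))))))) (Nat.add (Nat.mul w17 (Nat.add (Nat.mul w17 (Nat.mul 3 (KA qat6 qat17 qat17))) (Nat.add (Nat.mul w18 (Nat.mul 6 (KA qat6 qat17 qat18))) (Nat.add (Nat.mul w19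 (Nat.mul 6 (KA qat6 qat17 qat19))) (Nat.add (Nat.mul w20 (Nat.mul 6 (KA qat6 qat17 qat20))) (Nat.add (Nat.mul w21 (Nat.mul 6 (KA qat6 qat17 qat21))) (Nat.add (Nat.mul w22 (Nat.mul 6 (KA qat6 qat17 qat22))) (Nat.add (Nat.mul w23 (Nat.mul 6 (KA qat6 qat17 qat23))) (Nat.add (Nat.mul w24 (Nat.mul 6 (KA qat6 qat17 qat24))) (Nat.add (Nat.mul w25 (Nat.mul 6 (KA qat6 qat17 qat25))) (Nat.add (Nat.mul w26 (Nat.mul 6 (KA qat6 qat17 qat26))) 0))))))))))) (Nat.add (Nat.mul w18 (Nat.add (Nat.mul w18 (Nat.mul 3 (KA qat6 qat18 qat18))) (Nat.add (Nat.mul w19 (Nat.mul 6 (KA qat6 qat18 qat19))) (Nat.add (Nat.mul w20 (Nat.mul 6 (KA qat6 qat18 qat20))) (Nat.add (Nat.mul w21 (Nat.mul 6 (KA qat6 qat18 qat21))) (Nat.add (Nat.mul w22 (Nat.mul 6 (KA qat6 qat18 qat22))) (Nat.add (Nat.mul w23 (Nat.mul 6 (KA qat6 qat18 qat23))) (Nat.add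 (Nat.mul w24 (Nat.mul 6 (KA qat6 qat18 qat24))) (Nat.add (Nat.mul w25 (Nat.mul 6 (KA qat6 qat18 qat25))) (Nat.add (Nat.mul w26 (Nat.mul 6 (KA qat6 qat18 qat26))) 0)))))))))) (Nat.add (Nat.mul w19 (Nat.add (Nat.mul w19 (Nat.mul 3 (KA qat6 qat19 qat19))) (Nat.add (Nat.mul w20 (Nat.mul 6 (KA qat6 qat19 qat20))) (Nat.add (Nat.mul w21 (Nat.mul 6 (KA qat6 qat19 qat21))) (Nat.add (Nat.mul w22 (Nat.mul 6 (KA qat6 qat19 qat22))) (Nat.add (Nat.mul w23 (Nat.mul 6 (KA qat6 qat19 qat23))) (Nat.add (Nat.mul w24 (Nat.mul 6 (KA qat6 qat19 qat24))) (Nat.add (Nat.mul w25 (Nat.mul 6 (KA qat6 qat19 qat25))) (Nat.add (Nat.mul w26 (Nat.mul 6 (KA qat6 qat19 qat26))) 0))))))))) (Nat.add (Nat.mul w20 (Nat.add (Nat.mul w20 (Nat.mul 3 (KA qat6 qat20 qat20))) (Nat.add (Nat.mul w21 (Nat.mul 6 (KA qat6 qat20 qat21))) (Nat.add (Nat.mul w22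 (Nat.mul 6 (KA qat6 qat20 qat22))) (Nat.add (Nat.mul w23 (Nat.mul 6 (KA qat6 qat20 qat23))) (Nat.add (Nat.mul w24 (Nat.mul 6 (KA qat6 qat20 qat24))) (Nat.add (Nat.mul w25 (Nat.mul 6 (KA qat6 qat20 qat25))) (Nat.add (Nat.mul w26 (Nat.mul 6 (KA qat6 qat20 qat26))) 0)))))))) (Nat.add (Nat.mul w21 (Nat.add (Nat.mul w21 (Nat.mul 3 (KA qat6 qat21 qat21))) (Nat.add (Nat.mul w22 (Nat.mul 6 (KA qat6 qat21 qat22))) (Nat.add (Nat.mul w23 (Nat.mul 6 (KA qat6 qat21 qat23))) (Nat.add (Nat.mul w24 (Nat.mul 6 (KA qat6 qat21 qat24))) (Nat.add (Nat.mul w25 (Nat.mul 6 (KA qat6 qat21 qat25))) (Nat.add (Nat.mul w26 (Nat.mul 6 (KA qat6 qat21 qat26))) 0))))))) (Nat.add (Nat.mul w22 (Nat.add (Nat.mul w22 (Nat.mul 3 (KA qat6 qat22 qat22))) (Nat.add (Nat.mul w23 (Nat.mul 6 (KA qat6 qat22 qat23))) (Nat.add (Nat.mul w24 (Nat.mul 6 (KA qat6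 qat22 qat24))) (Nat.add (Nat.mul w25 (Nat.mul 6 (KA qat6 qat22 qat25))) (Nat.add (Nat.mul w26 (Nat.mul 6 (KA qat6 qat22 qat26))) 0)))))) (Nat.add (Nat.mul w23 (Nat.add (Nat.mul w23 (Nat.mul 3 (KA qat6 qat23 qat23))) (Nat.add (Nat.mul w24 (Nat.mul 6 (KA qat6 qat23 qat24))) (Nat.add (Nat.mul w25 (Nat.mul 6 (KA qat6 qat23 qat25))) (Nat.add (Nat.mul w26 (Nat.mul 6 (KA qat6 qat23 qat26))) 0))))) (Nat.add (Nat.mul w24 (Nat.add (Nat.mul w24 (Nat.mul 3 (KA qat6 qat24 qat24))) (Nat.add (Nat.mul w25 (Nat.mul 6 (KA qat6 qat24 qat25))) (Nat.add (Nat.mul w26 (Nat.mul 6 (KA qat6 qat24 qat26))) 0)))) (Nat.add (Nat.mul w25 (Nat.add (Nat.mul w25 (Nat.mul 3 (KA qat6 qat25 qat25))) (Nat.add (Nat.mul w26 (Nat.mul 6 (KA qat6 qat25 qat26))) 0))) (Nat.add (Nat.mul w26 (Nat.add (Nat.mul w26 (Nat.mul 3 (KA qat6 qat26 qat26))) (0))) 0)))))))))))))))))))))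

/-- Terms with least index 7. -/
noncomputable def qa7 (w7 w8 w9 w10 w11 w12 w13 w14 w15 w16 w17 w18 w19 w20 w21 w22 w23 w24 w25 w26 : Nat) : Nat :=
  Nat.mul w7 (Nat.add (Nat.mul w7 (Nat.add (Nat.mul w7 (KA qat7 qat7 qat7)) (Nat.add (Nat.mul w8 (Nat.mul 3 (KA qat7 qat7 qat8))) (Nat.add (Nat.mul w9 (Nat.mul 3 (KA qat7 qat7 qat9))) (Nat.add (Nat.mul w10 (Nat.mul 3 (KA qat7 qat7 qat10))) (Nat.add (Nat.mul w11 (Nat.mul 3 (KA qat7 qat7 qat11))) (Nat.add (Nat.mul w12 (Nat.mul 3 (KA qat7 qat7 qat12))) (Nat.add (Nat.mul w13 (Nat.mul 3 (KA qat7 qat7 qat13))) (Nat.add (Nat.mul w14 (Nat.mul 3 (KA qat7 qat7 qat14))) (Nat.add (Nat.mul w15 (Nat.mul 3 (KA qat7 qat7 qat15))) (Nat.add (Nat.mul w16 (Nat.mul 3 (KA qat7 qat7 qat16))) (Nat.add (Nat.mul w17 (Nat.mul 3 (KA qat7 qat7 qat17))) (Nat.add (Nat.mul w18 (Nat.mul 3 (KA qat7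 qat7 qat18))) (Nat.add (Nat.mul w19 (Nat.mul 3 (KA qat7 qat7 qat19))) (Nat.add (Nat.mul w20 (Nat.mul 3 (KA qat7 qat7 qat20))) (Nat.add (Nat.mul w21 (Nat.mul 3 (KA qat7 qat7 qat21))) (Nat.add (Nat.mul w22 (Nat.mul 3 (KA qat7 qat7 qat22))) (Nat.add (Nat.mul w23 (Nat.mul 3 (KA qat7 qat7 qat23))) (Nat.add (Nat.mul w24 (Nat.mul 3 (KA qat7 qat7 qat24))) (Nat.add (Nat.mul w25 (Nat.mul 3 (KA qat7 qat7 qat25))) (Nat.add (Nat.mul w26 (Nat.mul 3 (KA qat7 qat7 qat26))) 0))))))))))))))))))))) (Nat.add (Nat.mul w8 (Nat.add (Nat.mul w8 (Nat.mul 3 (KA qat7 qat8 qat8))) (Nat.add (Nat.mul w9 (Nat.mul 6 (KA qat7 qat8 qat9))) (Nat.add (Nat.mul w10 (Nat.mul 6 (KA qat7 qat8 qat10))) (Nat.add (Nat.mul w11 (Nat.mul 6 (KA qat7 qat8 qat11))) (Nat.add (Nat.mul w12 (Nat.mul 6 (KA qat7 qat8 qat12))) (Nat.add (Nat.mul w13 (Nat.mul 6 (KA qat7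 qat8 qat13))) (Nat.add (Nat.mul w14 (Nat.mul 6 (KA qat7 qat8 qat14))) (Nat.add (Nat.mul w15 (Nat.mul 6 (KA qat7 qat8 qat15))) (Nat.add (Nat.mul w16 (Nat.mul 6 (KA qat7 qat8 qat16))) (Nat.add (Nat.mul w17 (Nat.mul 6 (KA qat7 qat8 qat17))) (Nat.add (Nat.mul w18 (Nat.mul 6 (KA qat7 qat8 qat18))) (Nat.add (Nat.mul w19 (Nat.mul 6 (KA qat7 qat8 qat19))) (Nat.add (Nat.mul w20 (Nat.mul 6 (KA qat7 qat8 qat20))) (Nat.add (Nat.mul w21 (Nat.mul 6 (KA qat7 qat8 qat21))) (Nat.add (Nat.mul w22 (Nat.mul 6 (KA qat7 qat8 qat22))) (Nat.add (Nat.mul w23 (Nat.mul 6 (KA qat7 qat8 qat23))) (Nat.add (Nat.mul w24 (Nat.mul 6 (KA qat7 qat8 qat24))) (Nat.add (Nat.mul w25 (Nat.mul 6 (KA qat7 qat8 qat25))) (Nat.add (Nat.mul w26 (Nat.mul 6 (KA qat7 qat8 qat26))) 0)))))))))))))))))))) (Nat.add (Nat.mul w9 (Nat.add (Nat.mul w9 (Nat.mul 3 (KA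 qat7 qat9 qat9))) (Nat.add (Nat.mul w10 (Nat.mul 6 (KA qat7 qat9 qat10))) (Nat.add (Nat.mul w11 (Nat.mul 6 (KA qat7 qat9 qat11))) (Nat.add (Nat.mul w12 (Nat.mul 6 (KA qat7 qat9 qat12))) (Nat.add (Nat.mul w13 (Nat.mul 6 (KA qat7 qat9 qat13))) (Nat.add (Nat.mul w14 (Nat.mul 6 (KA qat7 qat9 qat14))) (Nat.add (Nat.mul w15 (Nat.mul 6 (KA qat7 qat9 qat15))) (Nat.add (Nat.mul w16 (Nat.mul 6 (KA qat7 qat9 qat16))) (Nat.add (Nat.mul w17 (Nat.mul 6 (KA qat7 qat9 qat17))) (Nat.add (Nat.mul w18 (Nat.mul 6 (KA qat7 qat9 qat18))) (Nat.add (Nat.mul w19 (Nat.mul 6 (KA qat7 qat9 qat19))) (Nat.add (Nat.mul w20 (Nat.mul 6 (KA qat7 qat9 qat20))) (Nat.add (Nat.mul w21 (Nat.mul 6 (KA qat7 qat9 qat21))) (Nat.add (Nat.mul w22 (Nat.mul 6 (KA qat7 qat9 qat22))) (Nat.add (Nat.mul w23 (Nat.mul 6 (KA qat7 qat9 qat23))) (Nat.add (Nat.mul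 w24 (Nat.mul 6 (KA qat7 qat9 qat24))) (Nat.add (Nat.mul w25 (Nat.mul 6 (KA qat7 qat9 qat25))) (Nat.add (Nat.mul w26 (Nat.mul 6 (KA qat7 qat9 qat26))) 0))))))))))))))))))) (Nat.add (Nat.mul w10 (Nat.add (Nat.mul w10 (Nat.mul 3 (KA qat7 qat10 qat10))) (Nat.add (Nat.mul w11 (Nat.mul 6 (KA qat7 qat10 qat11))) (Nat.add (Nat.mul w12 (Nat.mul 6 (KA qat7 qat10 qat12))) (Nat.add (Nat.mul w13 (Nat.mul 6 (KA qat7 qat10 qat13))) (Nat.add (Nat.mul w14 (Nat.mul 6 (KA qat7 qat10 qat14))) (Nat.add (Nat.mul w15 (Nat.mul 6 (KA qat7 qat10 qat15))) (Nat.add (Nat.mul w16 (Nat.mul 6 (KA qat7 qat10 qat16))) (Nat.add (Nat.mul w17 (Nat.mul 6 (KA qat7 qat10 qat17))) (Nat.add (Nat.mul w18 (Nat.mul 6 (KA qat7 qat10 qat18))) (Nat.add (Nat.mul w19 (Nat.mul 6 (KA qat7 qat10 qat19))) (Nat.add (Nat.mul w20 (Nat.mul 6 (KA qat7 qat10 qat20)))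 (Nat.add (Nat.mul w21 (Nat.mul 6 (KA qat7 qat10 qat21))) (Nat.add (Nat.mul w22 (Nat.mul 6 (KA qat7 qat10 qat22))) (Nat.add (Nat.mul w23 (Nat.mul 6 (KA qat7 qat10 qat23))) (Nat.add (Nat.mul w24 (Nat.mul 6 (KA qat7 qat10 qat24))) (Nat.add (Nat.mul w25 (Nat.mul 6 (KA qat7 qat10 qat25))) (Nat.add (Nat.mul w26 (Nat.mul 6 (KA qat7 qat10 qat26))) 0)))))))))))))))))) (Nat.add (Nat.mul w11 (Nat.add (Nat.mul w11 (Nat.mul 3 (KA qat7 qat11 qat11))) (Nat.add (Nat.mul w12 (Nat.mul 6 (KA qat7 qat11 qat12))) (Nat.add (Nat.mul w13 (Nat.mul 6 (KA qat7 qat11 qat13))) (Nat.add (Nat.mul w14 (Nat.mul 6 (KA qat7 qat11 qat14))) (Nat.add (Nat.mul w15 (Nat.mul 6 (KA qat7 qat11 qat15))) (Nat.add (Nat.mul w16 (Nat.mul 6 (KA qat7 qat11 qat16))) (Nat.add (Nat.mul w17 (Nat.mul 6 (KA qat7 qat11 qat17))) (Nat.add (Nat.mul w18 (Nat.mul 6 (KA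 qat7 qat11 qat18))) (Nat.add (Nat.mul w19 (Nat.mul 6 (KA qat7 qat11 qat19))) (Nat.add (Nat.mul w20 (Nat.mul 6 (KA qat7 qat11 qat20))) (Nat.add (Nat.mul w21 (Nat.mul 6 (KA qat7 qat11 qat21))) (Nat.add (Nat.mul w22 (Nat.mul 6 (KA qat7 qat11 qat22))) (Nat.add (Nat.mul w23 (Nat.mul 6 (KA qat7 qat11 qat23))) (Nat.add (Nat.mul w24 (Nat.mul 6 (KA qat7 qat11 qat24))) (Nat.add (Nat.mul w25 (Nat.mul 6 (KA qat7 qat11 qat25))) (Nat.add (Nat.mul w26 (Nat.mul 6 (KA qat7 qat11 qat26))) 0))))))))))))))))) (Nat.add (Nat.mul w12 (Nat.add (Nat.mul w12 (Nat.mul 3 (KA qat7 qat12 qat12))) (Nat.add (Nat.mul w13 (Nat.mul 6 (KA qat7 qat12 qat13))) (Nat.add (Nat.mul w14 (Nat.mul 6 (KA qat7 qat12 qat14))) (Nat.add (Nat.mul w15 (Nat.mul 6 (KA qat7 qat12 qat15))) (Nat.add (Nat.mul w16 (Nat.mul 6 (KA qat7 qat12 qat16))) (Nat.add (Nat.mul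 w17 (Nat.mul 6 (KA qat7 qat12 qat17))) (Nat.add (Nat.mul w18 (Nat.mul 6 (KA qat7 qat12 qat18))) (Nat.add (Nat.mul w19 (Nat.mul 6 (KA qat7 qat12 qat19))) (Nat.add (Nat.mul w20 (Nat.mul 6 (KA qat7 qat12 qat20))) (Nat.add (Nat.mul w21 (Nat.mul 6 (KA qat7 qat12 qat21))) (Nat.add (Nat.mul w22 (Nat.mul 6 (KA qat7 qat12 qat22))) (Nat.add (Nat.mul w23 (Nat.mul 6 (KA qat7 qat12 qat23))) (Nat.add (Nat.mul w24 (Nat.mul 6 (KA qat7 qat12 qat24))) (Nat.add (Nat.mul w25 (Nat.mul 6 (KA qat7 qat12 qat25))) (Nat.add (Nat.mul w26 (Nat.mul 6 (KA qat7 qat12 qat26))) 0)))))))))))))))) (Nat.add (Nat.mul w13 (Nat.add (Nat.mul w13 (Nat.mul 3 (KA qat7 qat13 qat13))) (Nat.add (Nat.mul w14 (Nat.mul 6 (KA qat7 qat13 qat14))) (Nat.add (Nat.mul w15 (Nat.mul 6 (KA qat7 qat13 qat15))) (Nat.add (Nat.mul w16 (Nat.mul 6 (KA qat7 qat13 qat16)))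 (Nat.add (Nat.mul w17 (Nat.mul 6 (KA qat7 qat13 qat17))) (Nat.add (Nat.mul w18 (Nat.mul 6 (KA qat7 qat13 qat18))) (Nat.add (Nat.mul w19 (Nat.mul 6 (KA qat7 qat13 qat19))) (Nat.add (Nat.mul w20 (Nat.mul 6 (KA qat7 qat13 qat20))) (Nat.add (Nat.mul w21 (Nat.mul 6 (KA qat7 qat13 qat21))) (Nat.add (Nat.mul w22 (Nat.mul 6 (KA qat7 qat13 qat22))) (Nat.add (Nat.mul w23 (Nat.mul 6 (KA qat7 qat13 qat23))) (Nat.add (Nat.mul w24 (Nat.mul 6 (KA qat7 qat13 qat24))) (Nat.add (Nat.mul w25 (Nat.mul 6 (KA qat7 qat13 qat25))) (Nat.add (Nat.mul w26 (Nat.mul 6 (KA qat7 qat13 qat26))) 0))))))))))))))) (Nat.add (Nat.mul w14 (Nat.add (Nat.mul w14 (Nat.mul 3 (KA qat7 qat14 qat14))) (Nat.add (Nat.mul w15 (Nat.mul 6 (KA qat7 qat14 qat15))) (Nat.add (Nat.mul w16 (Nat.mul 6 (KA qat7 qat14 qat16))) (Nat.add (Nat.mul w17 (Nat.mul 6 (KA qat7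 qat14 qat17))) (Nat.add (Nat.mul w18 (Nat.mul 6 (KA qat7 qat14 qat18))) (Nat.add (Nat.mul w19 (Nat.mul 6 (KA qat7 qat14 qat19))) (Nat.add (Nat.mul w20 (Nat.mul 6 (KA qat7 qat14 qat20))) (Nat.add (Nat.mul w21 (Nat.mul 6 (KA qat7 qat14 qat21))) (Nat.add (Nat.mul w22 (Nat.mul 6 (KA qat7 qat14 qat22))) (Nat.add (Nat.mul w23 (Nat.mul 6 (KA qat7 qat14 qat23))) (Nat.add (Nat.mul w24 (Nat.mul 6 (KA qat7 qat14 qat24))) (Nat.add (Nat.mul w25 (Nat.mul 6 (KA qat7 qat14 qat25))) (Nat.add (Nat.mul w26 (Nat.mul 6 (KA qat7 qat14 qat26))) 0)))))))))))))) (Nat.add (Nat.mul w15 (Nat.add (Nat.mul w15 (Nat.mul 3 (KA qat7 qat15 qat15))) (Nat.add (Nat.mul w16 (Nat.mul 6 (KA qat7 qat15 qat16))) (Nat.add (Nat.mul w17 (Nat.mul 6 (KA qat7 qat15 qat17))) (Nat.add (Nat.mul w18 (Nat.mul 6 (KA qat7 qat15 qat18))) (Nat.add (Nat.mul w19 (Nat.mul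 6 (KA qat7 qat15 qat19))) (Nat.add (Nat.mul w20 (Nat.mul 6 (KA qat7 qat15 qat20))) (Nat.add (Nat.mul w21 (Nat.mul 6 (KA qat7 qat15 qat21))) (Nat.add (Nat.mul w22 (Nat.mul 6 (KA qat7 qat15 qat22))) (Nat.add (Nat.mul w23 (Nat.mul 6 (KA qat7 qat15 qat23))) (Nat.add (Nat.mul w24 (Nat.mul 6 (KA qat7 qat15 qat24))) (Nat.add (Nat.mul w25 (Nat.mul 6 (KA qat7 qat15 qat25))) (Nat.add (Nat.mul w26 (Nat.mul 6 (KA qat7 qat15 qat26))) 0))))))))))))) (Nat.add (Nat.mul w16 (Nat.add (Nat.mul w16 (Nat.mul 3 (KA qat7 qat16 qat16))) (Nat.add (Nat.mul w17 (Nat.mul 6 (KA qat7 qat16 qat17))) (Nat.add (Nat.mul w18 (Nat.mul 6 (KA qat7 qat16 qat18))) (Nat.add (Nat.mul w19 (Nat.mul 6 (KA qat7 qat16 qat19))) (Nat.add (Nat.mul w20 (Nat.mul 6 (KA qat7 qat16 qat20))) (Nat.add (Nat.mul w21 (Nat.mul 6 (KA qat7 qat16 qat21))) (Nat.add (Nat.mul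 w22 (Nat.mul 6 (KA qat7 qat16 qat22))) (Nat.add (Nat.mul w23 (Nat.mul 6 (KA qat7 qat16 qat23))) (Nat.add (Nat.mul w24 (Nat.mul 6 (KA qat7 qat16 qat24))) (Nat.add (Nat.mul w25 (Nat.mul 6 (KA qat7 qat16 qat25))) (Nat.add (Nat.mul w26 (Nat.mul 6 (KA qat7 qat16 qat26))) 0)))))))))))) (Nat.add (Nat.mul w17 (Nat.add (Nat.mul w17 (Nat.mul 3 (KA qat7 qat17 qat17))) (Nat.add (Nat.mul w18 (Nat.mul 6 (KA qat7 qat17 qat18))) (Nat.add (Nat.mul w19 (Nat.mul 6 (KA qat7 qat17 qat19))) (Nat.add (Nat.mul w20 (Nat.mul 6 (KA qat7 qat17 qat20))) (Nat.add (Nat.mul w21 (Nat.mul 6 (KA qat7 qat17 qat21))) (Nat.add (Nat.mul w22 (Nat.mul 6 (KA qat7 qat17 qat22))) (Nat.add (Nat.mul w23 (Nat.mul 6 (KA qat7 qat17 qat23))) (Nat.add (Nat.mul w24 (Nat.mul 6 (KA qat7 qat17 qat24))) (Nat.add (Nat.mul w25 (Nat.mul 6 (KA qat7 qat17 qat25))) (Nat.add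 (Nat.mul w26 (Nat.mul 6 (KA qat7 qat17 qat26))) 0))))))))))) (Nat.add (Nat.mul w18 (Nat.add (Nat.mul w18 (Nat.mul 3 (KA qat7 qat18 qat18))) (Nat.add (Nat.mul w19 (Nat.mul 6 (KA qat7 qat18 qat19))) (Nat.add (Nat.mul w20 (Nat.mul 6 (KA qat7 qat18 qat20))) (Nat.add (Nat.mul w21 (Nat.mul 6 (KA qat7 qat18 qat21))) (Nat.add (Nat.mul w22 (Nat.mul 6 (KA qat7 qat18 qat22))) (Nat.add (Nat.mul w23 (Nat.mul 6 (KA qat7 qat18 qat23))) (Nat.add (Nat.mul w24 (Nat.mul 6 (KA qat7 qat18 qat24))) (Nat.add (Nat.mul w25 (Nat.mul 6 (KA qat7 qat18 qat25))) (Nat.add (Nat.mul w26 (Nat.mul 6 (KA qat7 qat18 qat26))) 0)))))))))) (Nat.add (Nat.mul w19 (Nat.add (Nat.mul w19 (Nat.mul 3 (KA qat7 qat19 qat19))) (Nat.add (Nat.mul w20 (Nat.mul 6 (KA qat7 qat19 qat20))) (Nat.add (Nat.mul w21 (Nat.mul 6 (KA qat7 qat19 qat21))) (Nat.add (Nat.mul w22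 (Nat.mul 6 (KA qat7 qat19 qat22))) (Nat.add (Nat.mul w23 (Nat.mul 6 (KA qat7 qat19 qat23))) (Nat.add (Nat.mul w24 (Nat.mul 6 (KA qat7 qat19 qat24))) (Nat.add (Nat.mul w25 (Nat.mul 6 (KA qat7 qat19 qat25))) (Nat.add (Nat.mul w26 (Nat.mul 6 (KA qat7 qat19 qat26))) 0))))))))) (Nat.add (Nat.mul w20 (Nat.add (Nat.mul w20 (Nat.mul 3 (KA qat7 qat20 qat20))) (Nat.add (Nat.mul w21 (Nat.mul 6 (KA qat7 qat20 qat21))) (Nat.add (Nat.mul w22 (Nat.mul 6 (KA qat7 qat20 qat22))) (Nat.add (Nat.mul w23 (Nat.mul 6 (KA qat7 qat20 qat23))) (Nat.add (Nat.mul w24 (Nat.mul 6 (KA qat7 qat20 qat24))) (Nat.add (Nat.mul w25 (Nat.mul 6 (KA qat7 qat20 qat25))) (Nat.add (Nat.mul w26 (Nat.mul 6 (KA qat7 qat20 qat26))) 0)))))))) (Nat.add (Nat.mul w21 (Nat.add (Nat.mul w21 (Nat.mul 3 (KA qat7 qat21 qat21))) (Nat.add (Nat.mul w22 (Nat.mul 6 (KA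 qat7 qat21 qat22))) (Nat.add (Nat.mul w23 (Nat.mul 6 (KA qat7 qat21 qat23))) (Nat.add (Nat.mul w24 (Nat.mul 6 (KA qat7 qat21 qat24))) (Nat.add (Nat.mul w25 (Nat.mul 6 (KA qat7 qat21 qat25))) (Nat.add (Nat.mul w26 (Nat.mul 6 (KA qat7 qat21 qat26))) 0))))))) (Nat.add (Nat.mul w22 (Nat.add (Nat.mul w22 (Nat.mul 3 (KA qat7 qat22 qat22))) (Nat.add (Nat.mul w23 (Nat.mul 6 (KA qat7 qat22 qat23))) (Nat.add (Nat.mul w24 (Nat.mul 6 (KA qat7 qat22 qat24))) (Nat.add (Nat.mul w25 (Nat.mul 6 (KA qat7 qat22 qat25))) (Nat.add (Nat.mul w26 (Nat.mul 6 (KA qat7 qat22 qat26))) 0)))))) (Nat.add (Nat.mul w23 (Nat.add (Nat.mul w23 (Nat.mul 3 (KA qat7 qat23 qat23))) (Nat.add (Nat.mul w24 (Nat.mul 6 (KA qat7 qat23 qat24))) (Nat.add (Nat.mul w25 (Nat.mul 6 (KA qat7 qat23 qat25))) (Nat.add (Nat.mul w26 (Nat.mul 6 (KA qat7 qat23 qat26)))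 0))))) (Nat.add (Nat.mul w24 (Nat.add (Nat.mul w24 (Nat.mul 3 (KA qat7 qat24 qat24))) (Nat.add (Nat.mul w25 (Nat.mul 6 (KA qat7 qat24 qat25))) (Nat.add (Nat.mul w26 (Nat.mul 6 (KA qat7 qat24 qat26))) 0)))) (Nat.add (Nat.mul w25 (Nat.add (Nat.mul w25 (Nat.mul 3 (KA qat7 qat25 qat25))) (Nat.add (Nat.mul w26 (Nat.mul 6 (KA qat7 qat25 qat26))) 0))) (Nat.add (Nat.mul w26 (Nat.add (Nat.mul w26 (Nat.mul 3 (KA qat7 qat26 qat26))) (0))) 0))))))))))))))))))))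

/-- Terms with least index 8. -/
noncomputable def qa8 (w8 w9 w10 w11 w12 w13 w14 w15 w16 w17 w18 w19 w20 w21 w22 w23 w24 w25 w26 : Nat) : Nat :=
  Nat.mul w8 (Nat.add (Nat.mul w8 (Nat.add (Nat.mul w8 (KA qat8 qat8 qat8)) (Nat.add (Nat.mul w9 (Nat.mul 3 (KA qat8 qat8 qat9))) (Nat.add (Nat.mul w10 (Nat.mul 3 (KA qat8 qat8 qat10))) (Nat.add (Nat.mul w11 (Nat.mul 3 (KA qat8 qat8 qat11))) (Nat.add (Nat.mul w12 (Nat.mul 3 (KA qat8 qat8 qat12))) (Nat.add (Nat.mul w13 (Nat.mul 3 (KA qat8 qat8 qat13))) (Nat.add (Nat.mul w14 (Nat.mul 3 (KA qat8 qat8 qat14))) (Nat.add (Nat.mul w15 (Nat.mul 3 (KA qat8 qat8 qat15))) (Nat.add (Nat.mul w16 (Nat.mul 3 (KA qat8 qat8 qat16))) (Nat.add (Nat.mul w17 (Nat.mul 3 (KA qat8 qat8 qat17))) (Nat.add (Nat.mul w18 (Nat.mul 3 (KA qat8 qat8 qat18))) (Nat.add (Nat.mul w19 (Nat.mul 3 (KA qat8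 qat8 qat19))) (Nat.add (Nat.mul w20 (Nat.mul 3 (KA qat8 qat8 qat20))) (Nat.add (Nat.mul w21 (Nat.mul 3 (KA qat8 qat8 qat21))) (Nat.add (Nat.mul w22 (Nat.mul 3 (KA qat8 qat8 qat22))) (Nat.add (Nat.mul w23 (Nat.mul 3 (KA qat8 qat8 qat23))) (Nat.add (Nat.mul w24 (Nat.mul 3 (KA qat8 qat8 qat24))) (Nat.add (Nat.mul w25 (Nat.mul 3 (KA qat8 qat8 qat25))) (Nat.add (Nat.mul w26 (Nat.mul 3 (KA qat8 qat8 qat26))) 0)))))))))))))))))))) (Nat.add (Nat.mul w9 (Nat.add (Nat.mul w9 (Nat.mul 3 (KA qat8 qat9 qat9))) (Nat.add (Nat.mul w10 (Nat.mul 6 (KA qat8 qat9 qat10))) (Nat.add (Nat.mul w11 (Nat.mul 6 (KA qat8 qat9 qat11))) (Nat.add (Nat.mul w12 (Nat.mul 6 (KA qat8 qat9 qat12))) (Nat.add (Nat.mul w13 (Nat.mul 6 (KA qat8 qat9 qat13))) (Nat.add (Nat.mul w14 (Nat.mul 6 (KA qat8 qat9 qat14))) (Nat.add (Nat.mul w15 (Nat.mul 6 (KA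 qat8 qat9 qat15))) (Nat.add (Nat.mul w16 (Nat.mul 6 (KA qat8 qat9 qat16))) (Nat.add (Nat.mul w17 (Nat.mul 6 (KA qat8 qat9 qat17))) (Nat.add (Nat.mul w18 (Nat.mul 6 (KA qat8 qat9 qat18))) (Nat.add (Nat.mul w19 (Nat.mul 6 (KA qat8 qat9 qat19))) (Nat.add (Nat.mul w20 (Nat.mul 6 (KA qat8 qat9 qat20))) (Nat.add (Nat.mul w21 (Nat.mul 6 (KA qat8 qat9 qat21))) (Nat.add (Nat.mul w22 (Nat.mul 6 (KA qat8 qat9 qat22))) (Nat.add (Nat.mul w23 (Nat.mul 6 (KA qat8 qat9 qat23))) (Nat.add (Nat.mul w24 (Nat.mul 6 (KA qat8 qat9 qat24))) (Nat.add (Nat.mul w25 (Nat.mul 6 (KA qat8 qat9 qat25))) (Nat.add (Nat.mul w26 (Nat.mul 6 (KA qat8 qat9 qat26))) 0))))))))))))))))))) (Nat.add (Nat.mul w10 (Nat.add (Nat.mul w10 (Nat.mul 3 (KA qat8 qat10 qat10))) (Nat.add (Nat.mul w11 (Nat.mul 6 (KA qat8 qat10 qat11))) (Nat.add (Nat.mul w12 (Nat.mul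 6 (KA qat8 qat10 qat12))) (Nat.add (Nat.mul w13 (Nat.mul 6 (KA qat8 qat10 qat13))) (Nat.add (Nat.mul w14 (Nat.mul 6 (KA qat8 qat10 qat14))) (Nat.add (Nat.mul w15 (Nat.mul 6 (KA qat8 qat10 qat15))) (Nat.add (Nat.mul w16 (Nat.mul 6 (KA qat8 qat10 qat16))) (Nat.add (Nat.mul w17 (Nat.mul 6 (KA qat8 qat10 qat17))) (Nat.add (Nat.mul w18 (Nat.mul 6 (KA qat8 qat10 qat18))) (Nat.add (Nat.mul w19 (Nat.mul 6 (KA qat8 qat10 qat19))) (Nat.add (Nat.mul w20 (Nat.mul 6 (KA qat8 qat10 qat20))) (Nat.add (Nat.mul w21 (Nat.mul 6 (KA qat8 qat10 qat21))) (Nat.add (Nat.mul w22 (Nat.mul 6 (KA qat8 qat10 qat22))) (Nat.add (Nat.mul w23 (Nat.mul 6 (KA qat8 qat10 qat23))) (Nat.add (Nat.mul w24 (Nat.mul 6 (KA qat8 qat10 qat24))) (Nat.add (Nat.mul w25 (Nat.mul 6 (KA qat8 qat10 qat25))) (Nat.add (Nat.mul w26 (Nat.mul 6 (KA qat8 qat10 qat26)))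 0)))))))))))))))))) (Nat.add (Nat.mul w11 (Nat.add (Nat.mul w11 (Nat.mul 3 (KA qat8 qat11 qat11))) (Nat.add (Nat.mul w12 (Nat.mul 6 (KA qat8 qat11 qat12))) (Nat.add (Nat.mul w13 (Nat.mul 6 (KA qat8 qat11 qat13))) (Nat.add (Nat.mul w14 (Nat.mul 6 (KA qat8 qat11 qat14))) (Nat.add (Nat.mul w15 (Nat.mul 6 (KA qat8 qat11 qat15))) (Nat.add (Nat.mul w16 (Nat.mul 6 (KA qat8 qat11 qat16))) (Nat.add (Nat.mul w17 (Nat.mul 6 (KA qat8 qat11 qat17))) (Nat.add (Nat.mul w18 (Nat.mul 6 (KA qat8 qat11 qat18))) (Nat.add (Nat.mul w19 (Nat.mul 6 (KA qat8 qat11 qat19))) (Nat.add (Nat.mul w20 (Nat.mul 6 (KA qat8 qat11 qat20))) (Nat.add (Nat.mul w21 (Nat.mul 6 (KA qat8 qat11 qat21))) (Nat.add (Nat.mul w22 (Nat.mul 6 (KA qat8 qat11 qat22))) (Nat.add (Nat.mul w23 (Nat.mul 6 (KA qat8 qat11 qat23))) (Nat.add (Nat.mul w24 (Nat.mul 6 (KA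 qat8 qat11 qat24))) (Nat.add (Nat.mul w25 (Nat.mul 6 (KA qat8 qat11 qat25))) (Nat.add (Nat.mul w26 (Nat.mul 6 (KA qat8 qat11 qat26))) 0))))))))))))))))) (Nat.add (Nat.mul w12 (Nat.add (Nat.mul w12 (Nat.mul 3 (KA qat8 qat12 qat12))) (Nat.add (Nat.mul w13 (Nat.mul 6 (KA qat8 qat12 qat13))) (Nat.add (Nat.mul w14 (Nat.mul 6 (KA qat8 qat12 qat14))) (Nat.add (Nat.mul w15 (Nat.mul 6 (KA qat8 qat12 qat15))) (Nat.add (Nat.mul w16 (Nat.mul 6 (KA qat8 qat12 qat16))) (Nat.add (Nat.mul w17 (Nat.mul 6 (KA qat8 qat12 qat17))) (Nat.add (Nat.mul w18 (Nat.mul 6 (KA qat8 qat12 qat18))) (Nat.add (Nat.mul w19 (Nat.mul 6 (KA qat8 qat12 qat19))) (Nat.add (Nat.mul w20 (Nat.mul 6 (KA qat8 qat12 qat20))) (Nat.add (Nat.mul w21 (Nat.mul 6 (KA qat8 qat12 qat21))) (Nat.add (Nat.mul w22 (Nat.mul 6 (KA qat8 qat12 qat22))) (Nat.add (Nat.mul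 w23 (Nat.mul 6 (KA qat8 qat12 qat23))) (Nat.add (Nat.mul w24 (Nat.mul 6 (KA qat8 qat12 qat24))) (Nat.add (Nat.mul w25 (Nat.mul 6 (KA qat8 qat12 qat25))) (Nat.add (Nat.mul w26 (Nat.mul 6 (KA qat8 qat12 qat26))) 0)))))))))))))))) (Nat.add (Nat.mul w13 (Nat.add (Nat.mul w13 (Nat.mul 3 (KA qat8 qat13 qat13))) (Nat.add (Nat.mul w14 (Nat.mul 6 (KA qat8 qat13 qat14))) (Nat.add (Nat.mul w15 (Nat.mul 6 (KA qat8 qat13 qat15))) (Nat.add (Nat.mul w16 (Nat.mul 6 (KA qat8 qat13 qat16))) (Nat.add (Nat.mul w17 (Nat.mul 6 (KA qat8 qat13 qat17))) (Nat.add (Nat.mul w18 (Nat.mul 6 (KA qat8 qat13 qat18))) (Nat.add (Nat.mul w19 (Nat.mul 6 (KA qat8 qat13 qat19))) (Nat.add (Nat.mul w20 (Nat.mul 6 (KA qat8 qat13 qat20))) (Nat.add (Nat.mul w21 (Nat.mul 6 (KA qat8 qat13 qat21))) (Nat.add (Nat.mul w22 (Nat.mul 6 (KA qat8 qat13 qat22)))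 (Nat.add (Nat.mul w23 (Nat.mul 6 (KA qat8 qat13 qat23))) (Nat.add (Nat.mul w24 (Nat.mul 6 (KA qat8 qat13 qat24))) (Nat.add (Nat.mul w25 (Nat.mul 6 (KA qat8 qat13 qat25))) (Nat.add (Nat.mul w26 (Nat.mul 6 (KA qat8 qat13 qat26))) 0))))))))))))))) (Nat.add (Nat.mul w14 (Nat.add (Nat.mul w14 (Nat.mul 3 (KA qat8 qat14 qat14))) (Nat.add (Nat.mul w15 (Nat.mul 6 (KA qat8 qat14 qat15))) (Nat.add (Nat.mul w16 (Nat.mul 6 (KA qat8 qat14 qat16))) (Nat.add (Nat.mul w17 (Nat.mul 6 (KA qat8 qat14 qat17))) (Nat.add (Nat.mul w18 (Nat.mul 6 (KA qat8 qat14 qat18))) (Nat.add (Nat.mul w19 (Nat.mul 6 (KA qat8 qat14 qat19))) (Nat.add (Nat.mul w20 (Nat.mul 6 (KA qat8 qat14 qat20))) (Nat.add (Nat.mul w21 (Nat.mul 6 (KA qat8 qat14 qat21))) (Nat.add (Nat.mul w22 (Nat.mul 6 (KA qat8 qat14 qat22))) (Nat.add (Nat.mul w23 (Nat.mul 6 (KA qat8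 qat14 qat23))) (Nat.add (Nat.mul w24 (Nat.mul 6 (KA qat8 qat14 qat24))) (Nat.add (Nat.mul w25 (Nat.mul 6 (KA qat8 qat14 qat25))) (Nat.add (Nat.mul w26 (Nat.mul 6 (KA qat8 qat14 qat26))) 0)))))))))))))) (Nat.add (Nat.mul w15 (Nat.add (Nat.mul w15 (Nat.mul 3 (KA qat8 qat15 qat15))) (Nat.add (Nat.mul w16 (Nat.mul 6 (KA qat8 qat15 qat16))) (Nat.add (Nat.mul w17 (Nat.mul 6 (KA qat8 qat15 qat17))) (Nat.add (Nat.mul w18 (Nat.mul 6 (KA qat8 qat15 qat18))) (Nat.add (Nat.mul w19 (Nat.mul 6 (KA qat8 qat15 qat19))) (Nat.add (Nat.mul w20 (Nat.mul 6 (KA qat8 qat15 qat20))) (Nat.add (Nat.mul w21 (Nat.mul 6 (KA qat8 qat15 qat21))) (Nat.add (Nat.mul w22 (Nat.mul 6 (KA qat8 qat15 qat22))) (Nat.add (Nat.mul w23 (Nat.mul 6 (KA qat8 qat15 qat23))) (Nat.add (Nat.mul w24 (Nat.mul 6 (KA qat8 qat15 qat24))) (Nat.add (Nat.mul w25 (Nat.mul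 6 (KA qat8 qat15 qat25))) (Nat.add (Nat.mul w26 (Nat.mul 6 (KA qat8 qat15 qat26))) 0))))))))))))) (Nat.add (Nat.mul w16 (Nat.add (Nat.mul w16 (Nat.mul 3 (KA qat8 qat16 qat16))) (Nat.add (Nat.mul w17 (Nat.mul 6 (KA qat8 qat16 qat17))) (Nat.add (Nat.mul w18 (Nat.mul 6 (KA qat8 qat16 qat18))) (Nat.add (Nat.mul w19 (Nat.mul 6 (KA qat8 qat16 qat19))) (Nat.add (Nat.mul w20 (Nat.mul 6 (KA qat8 qat16 qat20))) (Nat.add (Nat.mul w21 (Nat.mul 6 (KA qat8 qat16 qat21))) (Nat.add (Nat.mul w22 (Nat.mul 6 (KA qat8 qat16 qat22))) (Nat.add (Nat.mul w23 (Nat.mul 6 (KA qat8 qat16 qat23))) (Nat.add (Nat.mul w24 (Nat.mul 6 (KA qat8 qat16 qat24))) (Nat.add (Nat.mul w25 (Nat.mul 6 (KA qat8 qat16 qat25))) (Nat.add (Nat.mul w26 (Nat.mul 6 (KA qat8 qat16 qat26))) 0)))))))))))) (Nat.add (Nat.mul w17 (Nat.add (Nat.mul w17 (Nat.mul 3 (KA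 qat8 qat17 qat17))) (Nat.add (Nat.mul w18 (Nat.mul 6 (KA qat8 qat17 qat18))) (Nat.add (Nat.mul w19 (Nat.mul 6 (KA qat8 qat17 qat19))) (Nat.add (Nat.mul w20 (Nat.mul 6 (KA qat8 qat17 qat20))) (Nat.add (Nat.mul w21 (Nat.mul 6 (KA qat8 qat17 qat21))) (Nat.add (Nat.mul w22 (Nat.mul 6 (KA qat8 qat17 qat22))) (Nat.add (Nat.mul w23 (Nat.mul 6 (KA qat8 qat17 qat23))) (Nat.add (Nat.mul w24 (Nat.mul 6 (KA qat8 qat17 qat24))) (Nat.add (Nat.mul w25 (Nat.mul 6 (KA qat8 qat17 qat25))) (Nat.add (Nat.mul w26 (Nat.mul 6 (KA qat8 qat17 qat26))) 0))))))))))) (Nat.add (Nat.mul w18 (Nat.add (Nat.mul w18 (Nat.mul 3 (KA qat8 qat18 qat18))) (Nat.add (Nat.mul w19 (Nat.mul 6 (KA qat8 qat18 qat19))) (Nat.add (Nat.mul w20 (Nat.mul 6 (KA qat8 qat18 qat20))) (Nat.add (Nat.mul w21 (Nat.mul 6 (KA qat8 qat18 qat21))) (Nat.add (Nat.mul w22 (Nat.mul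 6 (KA qat8 qat18 qat22))) (Nat.add (Nat.mul w23 (Nat.mul 6 (KA qat8 qat18 qat23))) (Nat.add (Nat.mul w24 (Nat.mul 6 (KA qat8 qat18 qat24))) (Nat.add (Nat.mul w25 (Nat.mul 6 (KA qat8 qat18 qat25))) (Nat.add (Nat.mul w26 (Nat.mul 6 (KA qat8 qat18 qat26))) 0)))))))))) (Nat.add (Nat.mul w19 (Nat.add (Nat.mul w19 (Nat.mul 3 (KA qat8 qat19 qat19))) (Nat.add (Nat.mul w20 (Nat.mul 6 (KA qat8 qat19 qat20))) (Nat.add (Nat.mul w21 (Nat.mul 6 (KA qat8 qat19 qat21))) (Nat.add (Nat.mul w22 (Nat.mul 6 (KA qat8 qat19 qat22))) (Nat.add (Nat.mul w23 (Nat.mul 6 (KA qat8 qat19 qat23))) (Nat.add (Nat.mul w24 (Nat.mul 6 (KA qat8 qat19 qat24))) (Nat.add (Nat.mul w25 (Nat.mul 6 (KA qat8 qat19 qat25))) (Nat.add (Nat.mul w26 (Nat.mul 6 (KA qat8 qat19 qat26))) 0))))))))) (Nat.add (Nat.mul w20 (Nat.add (Nat.mul w20 (Nat.mul 3 (KA qat8 qat20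 qat20))) (Nat.add (Nat.mul w21 (Nat.mul 6 (KA qat8 qat20 qat21))) (Nat.add (Nat.mul w22 (Nat.mul 6 (KA qat8 qat20 qat22))) (Nat.add (Nat.mul w23 (Nat.mul 6 (KA qat8 qat20 qat23))) (Nat.add (Nat.mul w24 (Nat.mul 6 (KA qat8 qat20 qat24))) (Nat.add (Nat.mul w25 (Nat.mul 6 (KA qat8 qat20 qat25))) (Nat.add (Nat.mul w26 (Nat.mul 6 (KA qat8 qat20 qat26))) 0)))))))) (Nat.add (Nat.mul w21 (Nat.add (Nat.mul w21 (Nat.mul 3 (KA qat8 qat21 qat21))) (Nat.add (Nat.mul w22 (Nat.mul 6 (KA qat8 qat21 qat22))) (Nat.add (Nat.mul w23 (Nat.mul 6 (KA qat8 qat21 qat23))) (Nat.add (Nat.mul w24 (Nat.mul 6 (KA qat8 qat21 qat24))) (Nat.add (Nat.mul w25 (Nat.mul 6 (KA qat8 qat21 qat25))) (Nat.add (Nat.mul w26 (Nat.mul 6 (KA qat8 qat21 qat26))) 0))))))) (Nat.add (Nat.mul w22 (Nat.add (Nat.mul w22 (Nat.mul 3 (KA qat8 qat22 qat22))) (Nat.add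 (Nat.mul w23 (Nat.mul 6 (KA qat8 qat22 qat23))) (Nat.add (Nat.mul w24 (Nat.mul 6 (KA qat8 qat22 qat24))) (Nat.add (Nat.mul w25 (Nat.mul 6 (KA qat8 qat22 qat25))) (Nat.add (Nat.mul w26 (Nat.mul 6 (KA qat8 qat22 qat26))) 0)))))) (Nat.add (Nat.mul w23 (Nat.add (Nat.mul w23 (Nat.mul 3 (KA qat8 qat23 qat23))) (Nat.add (Nat.mul w24 (Nat.mul 6 (KA qat8 qat23 qat24))) (Nat.add (Nat.mul w25 (Nat.mul 6 (KA qat8 qat23 qat25))) (Nat.add (Nat.mul w26 (Nat.mul 6 (KA qat8 qat23 qat26))) 0))))) (Nat.add (Nat.mul w24 (Nat.add (Nat.mul w24 (Nat.mul 3 (KA qat8 qat24 qat24))) (Nat.add (Nat.mul w25 (Nat.mul 6 (KA qat8 qat24 qat25))) (Nat.add (Nat.mul w26 (Nat.mul 6 (KA qat8 qat24 qat26))) 0)))) (Nat.add (Nat.mul w25 (Nat.add (Nat.mul w25 (Nat.mul 3 (KA qat8 qat25 qat25))) (Nat.add (Nat.mul w26 (Nat.mul 6 (KA qat8 qat25 qat26))) 0)))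 (Nat.add (Nat.mul w26 (Nat.add (Nat.mul w26 (Nat.mul 3 (KA qat8 qat26 qat26))) (0))) 0)))))))))))))))))))

/-- Terms with least index 9. -/
noncomputable def qa9 (w9 w10 w11 w12 w13 w14 w15 w16 w17 w18 w19 w20 w21 w22 w23 w24 w25 w26 : Nat) : Nat :=
  Nat.mul w9 (Nat.add (Nat.mul w9 (Nat.add (Nat.mul w9 (KA qat9 qat9 qat9)) (Nat.add (Nat.mul w10 (Nat.mul 3 (KA qat9 qat9 qat10))) (Nat.add (Nat.mul w11 (Nat.mul 3 (KA qat9 qat9 qat11))) (Nat.add (Nat.mul w12 (Nat.mul 3 (KA qat9 qat9 qat12))) (Nat.add (Nat.mul w13 (Nat.mul 3 (KA qat9 qat9 qat13))) (Nat.add (Nat.mul w14 (Nat.mul 3 (KA qat9 qat9 qat14))) (Nat.add (Nat.mul w15 (Nat.mul 3 (KA qat9 qat9 qat15))) (Nat.add (Nat.mul w16 (Nat.mul 3 (KA qat9 qat9 qat16))) (Nat.add (Nat.mul w17 (Nat.mul 3 (KA qat9 qat9 qat17))) (Nat.add (Nat.mul w18 (Nat.mul 3 (KA qat9 qat9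 qat18))) (Nat.add (Nat.mul w19 (Nat.mul 3 (KA qat9 qat9 qat19))) (Nat.add (Nat.mul w20 (Nat.mul 3 (KA qat9 qat9 qat20))) (Nat.add (Nat.mul w21 (Nat.mul 3 (KA qat9 qat9 qat21))) (Nat.add (Nat.mul w22 (Nat.mul 3 (KA qat9 qat9 qat22))) (Nat.add (Nat.mul w23 (Nat.mul 3 (KA qat9 qat9 qat23))) (Nat.add (Nat.mul w24 (Nat.mul 3 (KA qat9 qat9 qat24))) (Nat.add (Nat.mul w25 (Nat.mul 3 (KA qat9 qat9 qat25))) (Nat.add (Nat.mul w26 (Nat.mul 3 (KA qat9 qat9 qat26))) 0))))))))))))))))))) (Nat.add (Nat.mul w10 (Nat.add (Nat.mul w10 (Nat.mul 3 (KA qat9 qat10 qat10))) (Nat.add (Nat.mul w11 (Nat.mul 6 (KA qat9 qat10 qat11))) (Nat.add (Nat.mul w12 (Nat.mul 6 (KA qat9 qat10 qat12))) (Nat.add (Nat.mul w13 (Nat.mul 6 (KA qat9 qat10 qat13))) (Nat.add (Nat.mul w14 (Nat.mul 6 (KA qat9 qat10 qat14))) (Nat.add (Nat.mul w15 (Nat.mul 6 (KA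 qat9 qat10 qat15))) (Nat.add (Nat.mul w16 (Nat.mul 6 (KA qat9 qat10 qat16))) (Nat.add (Nat.mul w17 (Nat.mul 6 (KA qat9 qat10 qat17))) (Nat.add (Nat.mul w18 (Nat.mul 6 (KA qat9 qat10 qat18))) (Nat.add (Nat.mul w19 (Nat.mul 6 (KA qat9 qat10 qat19))) (Nat.add (Nat.mul w20 (Nat.mul 6 (KA qat9 qat10 qat20))) (Nat.add (Nat.mul w21 (Nat.mul 6 (KA qat9 qat10 qat21))) (Nat.add (Nat.mul w22 (Nat.mul 6 (KA qat9 qat10 qat22))) (Nat.add (Nat.mul w23 (Nat.mul 6 (KA qat9 qat10 qat23))) (Nat.add (Nat.mul w24 (Nat.mul 6 (KA qat9 qat10 qat24))) (Nat.add (Nat.mul w25 (Nat.mul 6 (KA qat9 qat10 qat25))) (Nat.add (Nat.mul w26 (Nat.mul 6 (KA qat9 qat10 qat26))) 0)))))))))))))))))) (Nat.add (Nat.mul w11 (Nat.add (Nat.mul w11 (Nat.mul 3 (KA qat9 qat11 qat11))) (Nat.add (Nat.mul w12 (Nat.mul 6 (KA qat9 qat11 qat12))) (Nat.add (Nat.mul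 w13 (Nat.mul 6 (KA qat9 qat11 qat13))) (Nat.add (Nat.mul w14 (Nat.mul 6 (KA qat9 qat11 qat14))) (Nat.add (Nat.mul w15 (Nat.mul 6 (KA qat9 qat11 qat15))) (Nat.add (Nat.mul w16 (Nat.mul 6 (KA qat9 qat11 qat16))) (Nat.add (Nat.mul w17 (Nat.mul 6 (KA qat9 qat11 qat17))) (Nat.add (Nat.mul w18 (Nat.mul 6 (KA qat9 qat11 qat18))) (Nat.add (Nat.mul w19 (Nat.mul 6 (KA qat9 qat11 qat19))) (Nat.add (Nat.mul w20 (Nat.mul 6 (KA qat9 qat11 qat20))) (Nat.add (Nat.mul w21 (Nat.mul 6 (KA qat9 qat11 qat21))) (Nat.add (Nat.mul w22 (Nat.mul 6 (KA qat9 qat11 qat22))) (Nat.add (Nat.mul w23 (Nat.mul 6 (KA qat9 qat11 qat23))) (Nat.add (Nat.mul w24 (Nat.mul 6 (KA qat9 qat11 qat24))) (Nat.add (Nat.mul w25 (Nat.mul 6 (KA qat9 qat11 qat25))) (Nat.add (Nat.mul w26 (Nat.mul 6 (KA qat9 qat11 qat26))) 0))))))))))))))))) (Nat.add (Nat.mul w12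 (Nat.add (Nat.mul w12 (Nat.mul 3 (KA qat9 qat12 qat12))) (Nat.add (Nat.mul w13 (Nat.mul 6 (KA qat9 qat12 qat13))) (Nat.add (Nat.mul w14 (Nat.mul 6 (KA qat9 qat12 qat14))) (Nat.add (Nat.mul w15 (Nat.mul 6 (KA qat9 qat12 qat15))) (Nat.add (Nat.mul w16 (Nat.mul 6 (KA qat9 qat12 qat16))) (Nat.add (Nat.mul w17 (Nat.mul 6 (KA qat9 qat12 qat17))) (Nat.add (Nat.mul w18 (Nat.mul 6 (KA qat9 qat12 qat18))) (Nat.add (Nat.mul w19 (Nat.mul 6 (KA qat9 qat12 qat19))) (Nat.add (Nat.mul w20 (Nat.mul 6 (KA qat9 qat12 qat20))) (Nat.add (Nat.mul w21 (Nat.mul 6 (KA qat9 qat12 qat21))) (Nat.add (Nat.mul w22 (Nat.mul 6 (KA qat9 qat12 qat22))) (Nat.add (Nat.mul w23 (Nat.mul 6 (KA qat9 qat12 qat23))) (Nat.add (Nat.mul w24 (Nat.mul 6 (KA qat9 qat12 qat24))) (Nat.add (Nat.mul w25 (Nat.mul 6 (KA qat9 qat12 qat25))) (Nat.add (Nat.mul w26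 (Nat.mul 6 (KA qat9 qat12 qat26))) 0)))))))))))))))) (Nat.add (Nat.mul w13 (Nat.add (Nat.mul w13 (Nat.mul 3 (KA qat9 qat13 qat13))) (Nat.add (Nat.mul w14 (Nat.mul 6 (KA qat9 qat13 qat14))) (Nat.add (Nat.mul w15 (Nat.mul 6 (KA qat9 qat13 qat15))) (Nat.add (Nat.mul w16 (Nat.mul 6 (KA qat9 qat13 qat16))) (Nat.add (Nat.mul w17 (Nat.mul 6 (KA qat9 qat13 qat17))) (Nat.add (Nat.mul w18 (Nat.mul 6 (KA qat9 qat13 qat18))) (Nat.add (Nat.mul w19 (Nat.mul 6 (KA qat9 qat13 qat19))) (Nat.add (Nat.mul w20 (Nat.mul 6 (KA qat9 qat13 qat20))) (Nat.add (Nat.mul w21 (Nat.mul 6 (KA qat9 qat13 qat21))) (Nat.add (Nat.mul w22 (Nat.mul 6 (KA qat9 qat13 qat22))) (Nat.add (Nat.mul w23 (Nat.mul 6 (KA qat9 qat13 qat23))) (Nat.add (Nat.mul w24 (Nat.mul 6 (KA qat9 qat13 qat24))) (Nat.add (Nat.mul w25 (Nat.mul 6 (KA qat9 qat13 qat25))) (Nat.add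 (Nat.mul w26 (Nat.mul 6 (KA qat9 qat13 qat26))) 0))))))))))))))) (Nat.add (Nat.mul w14 (Nat.add (Nat.mul w14 (Nat.mul 3 (KA qat9 qat14 qat14))) (Nat.add (Nat.mul w15 (Nat.mul 6 (KA qat9 qat14 qat15))) (Nat.add (Nat.mul w16 (Nat.mul 6 (KA qat9 qat14 qat16))) (Nat.add (Nat.mul w17 (Nat.mul 6 (KA qat9 qat14 qat17))) (Nat.add (Nat.mul w18 (Nat.mul 6 (KA qat9 qat14 qat18))) (Nat.add (Nat.mul w19 (Nat.mul 6 (KA qat9 qat14 qat19))) (Nat.add (Nat.mul w20 (Nat.mul 6 (KA qat9 qat14 qat20))) (Nat.add (Nat.mul w21 (Nat.mul 6 (KA qat9 qat14 qat21))) (Nat.add (Nat.mul w22 (Nat.mul 6 (KA qat9 qat14 qat22))) (Nat.add (Nat.mul w23 (Nat.mul 6 (KA qat9 qat14 qat23))) (Nat.add (Nat.mul w24 (Nat.mul 6 (KA qat9 qat14 qat24))) (Nat.add (Nat.mul w25 (Nat.mul 6 (KA qat9 qat14 qat25))) (Nat.add (Nat.mul w26 (Nat.mul 6 (KA qat9 qat14 qat26)))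 0)))))))))))))) (Nat.add (Nat.mul w15 (Nat.add (Nat.mul w15 (Nat.mul 3 (KA qat9 qat15 qat15))) (Nat.add (Nat.mul w16 (Nat.mul 6 (KA qat9 qat15 qat16))) (Nat.add (Nat.mul w17 (Nat.mul 6 (KA qat9 qat15 qat17))) (Nat.add (Nat.mul w18 (Nat.mul 6 (KA qat9 qat15 qat18))) (Nat.add (Nat.mul w19 (Nat.mul 6 (KA qat9 qat15 qat19))) (Nat.add (Nat.mul w20 (Nat.mul 6 (KA qat9 qat15 qat20))) (Nat.add (Nat.mul w21 (Nat.mul 6 (KA qat9 qat15 qat21))) (Nat.add (Nat.mul w22 (Nat.mul 6 (KA qat9 qat15 qat22))) (Nat.add (Nat.mul w23 (Nat.mul 6 (KA qat9 qat15 qat23))) (Nat.add (Nat.mul w24 (Nat.mul 6 (KA qat9 qat15 qat24))) (Nat.add (Nat.mul w25 (Nat.mul 6 (KA qat9 qat15 qat25))) (Nat.add (Nat.mul w26 (Nat.mul 6 (KA qat9 qat15 qat26))) 0))))))))))))) (Nat.add (Nat.mul w16 (Nat.add (Nat.mul w16 (Nat.mul 3 (KA qat9 qat16 qat16))) (Nat.add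 (Nat.mul w17 (Nat.mul 6 (KA qat9 qat16 qat17))) (Nat.add (Nat.mul w18 (Nat.mul 6 (KA qat9 qat16 qat18))) (Nat.add (Nat.mul w19 (Nat.mul 6 (KA qat9 qat16 qat19))) (Nat.add (Nat.mul w20 (Nat.mul 6 (KA qat9 qat16 qat20))) (Nat.add (Nat.mul w21 (Nat.mul 6 (KA qat9 qat16 qat21))) (Nat.add (Nat.mul w22 (Nat.mul 6 (KA qat9 qat16 qat22))) (Nat.add (Nat.mul w23 (Nat.mul 6 (KA qat9 qat16 qat23))) (Nat.add (Nat.mul w24 (Nat.mul 6 (KA qat9 qat16 qat24))) (Nat.add (Nat.mul w25 (Nat.mul 6 (KA qat9 qat16 qat25))) (Nat.add (Nat.mul w26 (Nat.mul 6 (KA qat9 qat16 qat26))) 0)))))))))))) (Nat.add (Nat.mul w17 (Nat.add (Nat.mul w17 (Nat.mul 3 (KA qat9 qat17 qat17))) (Nat.add (Nat.mul w18 (Nat.mul 6 (KA qat9 qat17 qat18))) (Nat.add (Nat.mul w19 (Nat.mul 6 (KA qat9 qat17 qat19))) (Nat.add (Nat.mul w20 (Nat.mul 6 (KA qat9 qat17 qat20)))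 (Nat.add (Nat.mul w21 (Nat.mul 6 (KA qat9 qat17 qat21))) (Nat.add (Nat.mul w22 (Nat.mul 6 (KA qat9 qat17 qat22))) (Nat.add (Nat.mul w23 (Nat.mul 6 (KA qat9 qat17 qat23))) (Nat.add (Nat.mul w24 (Nat.mul 6 (KA qat9 qat17 qat24))) (Nat.add (Nat.mul w25 (Nat.mul 6 (KA qat9 qat17 qat25))) (Nat.add (Nat.mul w26 (Nat.mul 6 (KA qat9 qat17 qat26))) 0))))))))))) (Nat.add (Nat.mul w18 (Nat.add (Nat.mul w18 (Nat.mul 3 (KA qat9 qat18 qat18))) (Nat.add (Nat.mul w19 (Nat.mul 6 (KA qat9 qat18 qat19))) (Nat.add (Nat.mul w20 (Nat.mul 6 (KA qat9 qat18 qat20))) (Nat.add (Nat.mul w21 (Nat.mul 6 (KA qat9 qat18 qat21))) (Nat.add (Nat.mul w22 (Nat.mul 6 (KA qat9 qat18 qat22))) (Nat.add (Nat.mul w23 (Nat.mul 6 (KA qat9 qat18 qat23))) (Nat.add (Nat.mul w24 (Nat.mul 6 (KA qat9 qat18 qat24))) (Nat.add (Nat.mul w25 (Nat.mul 6 (KA qat9 qat18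 qat25))) (Nat.add (Nat.mul w26 (Nat.mul 6 (KA qat9 qat18 qat26))) 0)))))))))) (Nat.add (Nat.mul w19 (Nat.add (Nat.mul w19 (Nat.mul 3 (KA qat9 qat19 qat19))) (Nat.add (Nat.mul w20 (Nat.mul 6 (KA qat9 qat19 qat20))) (Nat.add (Nat.mul w21 (Nat.mul 6 (KA qat9 qat19 qat21))) (Nat.add (Nat.mul w22 (Nat.mul 6 (KA qat9 qat19 qat22))) (Nat.add (Nat.mul w23 (Nat.mul 6 (KA qat9 qat19 qat23))) (Nat.add (Nat.mul w24 (Nat.mul 6 (KA qat9 qat19 qat24))) (Nat.add (Nat.mul w25 (Nat.mul 6 (KA qat9 qat19 qat25))) (Nat.add (Nat.mul w26 (Nat.mul 6 (KA qat9 qat19 qat26))) 0))))))))) (Nat.add (Nat.mul w20 (Nat.add (Nat.mul w20 (Nat.mul 3 (KA qat9 qat20 qat20))) (Nat.add (Nat.mul w21 (Nat.mul 6 (KA qat9 qat20 qat21))) (Nat.add (Nat.mul w22 (Nat.mul 6 (KA qat9 qat20 qat22))) (Nat.add (Nat.mul w23 (Nat.mul 6 (KA qat9 qat20 qat23))) (Nat.add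 (Nat.mul w24 (Nat.mul 6 (KA qat9 qat20 qat24))) (Nat.add (Nat.mul w25 (Nat.mul 6 (KA qat9 qat20 qat25))) (Nat.add (Nat.mul w26 (Nat.mul 6 (KA qat9 qat20 qat26))) 0)))))))) (Nat.add (Nat.mul w21 (Nat.add (Nat.mul w21 (Nat.mul 3 (KA qat9 qat21 qat21))) (Nat.add (Nat.mul w22 (Nat.mul 6 (KA qat9 qat21 qat22))) (Nat.add (Nat.mul w23 (Nat.mul 6 (KA qat9 qat21 qat23))) (Nat.add (Nat.mul w24 (Nat.mul 6 (KA qat9 qat21 qat24))) (Nat.add (Nat.mul w25 (Nat.mul 6 (KA qat9 qat21 qat25))) (Nat.add (Nat.mul w26 (Nat.mul 6 (KA qat9 qat21 qat26))) 0))))))) (Nat.add (Nat.mul w22 (Nat.add (Nat.mul w22 (Nat.mul 3 (KA qat9 qat22 qat22))) (Nat.add (Nat.mul w23 (Nat.mul 6 (KA qat9 qat22 qat23))) (Nat.add (Nat.mul w24 (Nat.mul 6 (KA qat9 qat22 qat24))) (Nat.add (Nat.mul w25 (Nat.mul 6 (KA qat9 qat22 qat25))) (Nat.add (Nat.mul w26 (Nat.mul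 6 (KA qat9 qat22 qat26))) 0)))))) (Nat.add (Nat.mul w23 (Nat.add (Nat.mul w23 (Nat.mul 3 (KA qat9 qat23 qat23))) (Nat.add (Nat.mul w24 (Nat.mul 6 (KA qat9 qat23 qat24))) (Nat.add (Nat.mul w25 (Nat.mul 6 (KA qat9 qat23 qat25))) (Nat.add (Nat.mul w26 (Nat.mul 6 (KA qat9 qat23 qat26))) 0))))) (Nat.add (Nat.mul w24 (Nat.add (Nat.mul w24 (Nat.mul 3 (KA qat9 qat24 qat24))) (Nat.add (Nat.mul w25 (Nat.mul 6 (KA qat9 qat24 qat25))) (Nat.add (Nat.mul w26 (Nat.mul 6 (KA qat9 qat24 qat26))) 0)))) (Nat.add (Nat.mul w25 (Nat.add (Nat.mul w25 (Nat.mul 3 (KA qat9 qat25 qat25))) (Nat.add (Nat.mul w26 (Nat.mul 6 (KA qat9 qat25 qat26))) 0))) (Nat.add (Nat.mul w26 (Nat.add (Nat.mul w26 (Nat.mul 3 (KA qat9 qat26 qat26))) (0))) 0))))))))))))))))))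

/-- Terms with least index 10. -/
noncomputable def qa10 (w10 w11 w12 w13 w14 w15 w16 w17 w18 w19 w20 w21 w22 w23 w24 w25 w26 : Nat) : Nat :=
  Nat.mul w10 (Nat.add (Nat.mul w10 (Nat.add (Nat.mul w10 (KA qat10 qat10 qat10)) (Nat.add (Nat.mul w11 (Nat.mul 3 (KA qat10 qat10 qat11))) (Nat.add (Nat.mul w12 (Nat.mul 3 (KA qat10 qat10 qat12))) (Nat.add (Nat.mul w13 (Nat.mul 3 (KA qat10 qat10 qat13))) (Nat.add (Nat.mul w14 (Nat.mul 3 (KA qat10 qat10 qat14))) (Nat.add (Nat.mul w15 (Nat.mul 3 (KA qat10 qat10 qat15))) (Nat.add (Nat.mul w16 (Nat.mul 3 (KA qat10 qat10 qat16))) (Nat.add (Nat.mul w17 (Nat.mul 3 (KA qat10 qat10 qat17))) (Nat.add (Nat.mul w18 (Nat.mul 3 (KA qat10 qat10 qat18))) (Nat.add (Nat.mul w19 (Nat.mul 3 (KA qat10 qat10 qat19))) (Nat.add (Nat.mul w20 (Nat.mul 3 (KA qat10 qat10 qat20))) (Nat.add (Nat.mul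 w21 (Nat.mul 3 (KA qat10 qat10 qat21))) (Nat.add (Nat.mul w22 (Nat.mul 3 (KA qat10 qat10 qat22))) (Nat.add (Nat.mul w23 (Nat.mul 3 (KA qat10 qat10 qat23))) (Nat.add (Nat.mul w24 (Nat.mul 3 (KA qat10 qat10 qat24))) (Nat.add (Nat.mul w25 (Nat.mul 3 (KA qat10 qat10 qat25))) (Nat.add (Nat.mul w26 (Nat.mul 3 (KA qat10 qat10 qat26))) 0)))))))))))))))))) (Nat.add (Nat.mul w11 (Nat.add (Nat.mul w11 (Nat.mul 3 (KA qat10 qat11 qat11))) (Nat.add (Nat.mul w12 (Nat.mul 6 (KA qat10 qat11 qat12))) (Nat.add (Nat.mul w13 (Nat.mul 6 (KA qat10 qat11 qat13))) (Nat.add (Nat.mul w14 (Nat.mul 6 (KA qat10 qat11 qat14))) (Nat.add (Nat.mul w15 (Nat.mul 6 (KA qat10 qat11 qat15))) (Nat.add (Nat.mul w16 (Nat.mul 6 (KA qat10 qat11 qat16))) (Nat.add (Nat.mul w17 (Nat.mul 6 (KA qat10 qat11 qat17))) (Nat.add (Nat.mul w18 (Nat.mul 6 (KA qat10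 qat11 qat18))) (Nat.add (Nat.mul w19 (Nat.mul 6 (KA qat10 qat11 qat19))) (Nat.add (Nat.mul w20 (Nat.mul 6 (KA qat10 qat11 qat20))) (Nat.add (Nat.mul w21 (Nat.mul 6 (KA qat10 qat11 qat21))) (Nat.add (Nat.mul w22 (Nat.mul 6 (KA qat10 qat11 qat22))) (Nat.add (Nat.mul w23 (Nat.mul 6 (KA qat10 qat11 qat23))) (Nat.add (Nat.mul w24 (Nat.mul 6 (KA qat10 qat11 qat24))) (Nat.add (Nat.mul w25 (Nat.mul 6 (KA qat10 qat11 qat25))) (Nat.add (Nat.mul w26 (Nat.mul 6 (KA qat10 qat11 qat26))) 0))))))))))))))))) (Nat.add (Nat.mul w12 (Nat.add (Nat.mul w12 (Nat.mul 3 (KA qat10 qat12 qat12))) (Nat.add (Nat.mul w13 (Nat.mul 6 (KA qat10 qat12 qat13))) (Nat.add (Nat.mul w14 (Nat.mul 6 (KA qat10 qat12 qat14))) (Nat.add (Nat.mul w15 (Nat.mul 6 (KA qat10 qat12 qat15))) (Nat.add (Nat.mul w16 (Nat.mul 6 (KA qat10 qat12 qat16))) (Nat.add (Nat.mul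 w17 (Nat.mul 6 (KA qat10 qat12 qat17))) (Nat.add (Nat.mul w18 (Nat.mul 6 (KA qat10 qat12 qat18))) (Nat.add (Nat.mul w19 (Nat.mul 6 (KA qat10 qat12 qat19))) (Nat.add (Nat.mul w20 (Nat.mul 6 (KA qat10 qat12 qat20))) (Nat.add (Nat.mul w21 (Nat.mul 6 (KA qat10 qat12 qat21))) (Nat.add (Nat.mul w22 (Nat.mul 6 (KA qat10 qat12 qat22))) (Nat.add (Nat.mul w23 (Nat.mul 6 (KA qat10 qat12 qat23))) (Nat.add (Nat.mul w24 (Nat.mul 6 (KA qat10 qat12 qat24))) (Nat.add (Nat.mul w25 (Nat.mul 6 (KA qat10 qat12 qat25))) (Nat.add (Nat.mul w26 (Nat.mul 6 (KA qat10 qat12 qat26))) 0)))))))))))))))) (Nat.add (Nat.mul w13 (Nat.add (Nat.mul w13 (Nat.mul 3 (KA qat10 qat13 qat13))) (Nat.add (Nat.mul w14 (Nat.mul 6 (KA qat10 qat13 qat14))) (Nat.add (Nat.mul w15 (Nat.mul 6 (KA qat10 qat13 qat15))) (Nat.add (Nat.mul w16 (Nat.mul 6 (KA qat10 qat13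 qat16))) (Nat.add (Nat.mul w17 (Nat.mul 6 (KA qat10 qat13 qat17))) (Nat.add (Nat.mul w18 (Nat.mul 6 (KA qat10 qat13 qat18))) (Nat.add (Nat.mul w19 (Nat.mul 6 (KA qat10 qat13 qat19))) (Nat.add (Nat.mul w20 (Nat.mul 6 (KA qat10 qat13 qat20))) (Nat.add (Nat.mul w21 (Nat.mul 6 (KA qat10 qat13 qat21))) (Nat.add (Nat.mul w22 (Nat.mul 6 (KA qat10 qat13 qat22))) (Nat.add (Nat.mul w23 (Nat.mul 6 (KA qat10 qat13 qat23))) (Nat.add (Nat.mul w24 (Nat.mul 6 (KA qat10 qat13 qat24))) (Nat.add (Nat.mul w25 (Nat.mul 6 (KA qat10 qat13 qat25))) (Nat.add (Nat.mul w26 (Nat.mul 6 (KA qat10 qat13 qat26))) 0))))))))))))))) (Nat.add (Nat.mul w14 (Nat.add (Nat.mul w14 (Nat.mul 3 (KA qat10 qat14 qat14))) (Nat.add (Nat.mul w15 (Nat.mul 6 (KA qat10 qat14 qat15))) (Nat.add (Nat.mul w16 (Nat.mul 6 (KA qat10 qat14 qat16))) (Nat.add (Nat.mul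 w17 (Nat.mul 6 (KA qat10 qat14 qat17))) (Nat.add (Nat.mul w18 (Nat.mul 6 (KA qat10 qat14 qat18))) (Nat.add (Nat.mul w19 (Nat.mul 6 (KA qat10 qat14 qat19))) (Nat.add (Nat.mul w20 (Nat.mul 6 (KA qat10 qat14 qat20))) (Nat.add (Nat.mul w21 (Nat.mul 6 (KA qat10 qat14 qat21))) (Nat.add (Nat.mul w22 (Nat.mul 6 (KA qat10 qat14 qat22))) (Nat.add (Nat.mul w23 (Nat.mul 6 (KA qat10 qat14 qat23))) (Nat.add (Nat.mul w24 (Nat.mul 6 (KA qat10 qat14 qat24))) (Nat.add (Nat.mul w25 (Nat.mul 6 (KA qat10 qat14 qat25))) (Nat.add (Nat.mul w26 (Nat.mul 6 (KA qat10 qat14 qat26))) 0)))))))))))))) (Nat.add (Nat.mul w15 (Nat.add (Nat.mul w15 (Nat.mul 3 (KA qat10 qat15 qat15))) (Nat.add (Nat.mul w16 (Nat.mul 6 (KA qat10 qat15 qat16))) (Nat.add (Nat.mul w17 (Nat.mul 6 (KA qat10 qat15 qat17))) (Nat.add (Nat.mul w18 (Nat.mul 6 (KA qat10 qat15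 qat18))) (Nat.add (Nat.mul w19 (Nat.mul 6 (KA qat10 qat15 qat19))) (Nat.add (Nat.mul w20 (Nat.mul 6 (KA qat10 qat15 qat20))) (Nat.add (Nat.mul w21 (Nat.mul 6 (KA qat10 qat15 qat21))) (Nat.add (Nat.mul w22 (Nat.mul 6 (KA qat10 qat15 qat22))) (Nat.add (Nat.mul w23 (Nat.mul 6 (KA qat10 qat15 qat23))) (Nat.add (Nat.mul w24 (Nat.mul 6 (KA qat10 qat15 qat24))) (Nat.add (Nat.mul w25 (Nat.mul 6 (KA qat10 qat15 qat25))) (Nat.add (Nat.mul w26 (Nat.mul 6 (KA qat10 qat15 qat26))) 0))))))))))))) (Nat.add (Nat.mul w16 (Nat.add (Nat.mul w16 (Nat.mul 3 (KA qat10 qat16 qat16))) (Nat.add (Nat.mul w17 (Nat.mul 6 (KA qat10 qat16 qat17))) (Nat.add (Nat.mul w18 (Nat.mul 6 (KA qat10 qat16 qat18))) (Nat.add (Nat.mul w19 (Nat.mul 6 (KA qat10 qat16 qat19))) (Nat.add (Nat.mul w20 (Nat.mul 6 (KA qat10 qat16 qat20))) (Nat.add (Nat.mul w21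 (Nat.mul 6 (KA qat10 qat16 qat21))) (Nat.add (Nat.mul w22 (Nat.mul 6 (KA qat10 qat16 qat22))) (Nat.add (Nat.mul w23 (Nat.mul 6 (KA qat10 qat16 qat23))) (Nat.add (Nat.mul w24 (Nat.mul 6 (KA qat10 qat16 qat24))) (Nat.add (Nat.mul w25 (Nat.mul 6 (KA qat10 qat16 qat25))) (Nat.add (Nat.mul w26 (Nat.mul 6 (KA qat10 qat16 qat26))) 0)))))))))))) (Nat.add (Nat.mul w17 (Nat.add (Nat.mul w17 (Nat.mul 3 (KA qat10 qat17 qat17))) (Nat.add (Nat.mul w18 (Nat.mul 6 (KA qat10 qat17 qat18))) (Nat.add (Nat.mul w19 (Nat.mul 6 (KA qat10 qat17 qat19))) (Nat.add (Nat.mul w20 (Nat.mul 6 (KA qat10 qat17 qat20))) (Nat.add (Nat.mul w21 (Nat.mul 6 (KA qat10 qat17 qat21))) (Nat.add (Nat.mul w22 (Nat.mul 6 (KA qat10 qat17 qat22))) (Nat.add (Nat.mul w23 (Nat.mul 6 (KA qat10 qat17 qat23))) (Nat.add (Nat.mul w24 (Nat.mul 6 (KA qat10 qat17 qat24)))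 (Nat.add (Nat.mul w25 (Nat.mul 6 (KA qat10 qat17 qat25))) (Nat.add (Nat.mul w26 (Nat.mul 6 (KA qat10 qat17 qat26))) 0))))))))))) (Nat.add (Nat.mul w18 (Nat.add (Nat.mul w18 (Nat.mul 3 (KA qat10 qat18 qat18))) (Nat.add (Nat.mul w19 (Nat.mul 6 (KA qat10 qat18 qat19))) (Nat.add (Nat.mul w20 (Nat.mul 6 (KA qat10 qat18 qat20))) (Nat.add (Nat.mul w21 (Nat.mul 6 (KA qat10 qat18 qat21))) (Nat.add (Nat.mul w22 (Nat.mul 6 (KA qat10 qat18 qat22))) (Nat.add (Nat.mul w23 (Nat.mul 6 (KA qat10 qat18 qat23))) (Nat.add (Nat.mul w24 (Nat.mul 6 (KA qat10 qat18 qat24))) (Nat.add (Nat.mul w25 (Nat.mul 6 (KA qat10 qat18 qat25))) (Nat.add (Nat.mul w26 (Nat.mul 6 (KA qat10 qat18 qat26))) 0)))))))))) (Nat.add (Nat.mul w19 (Nat.add (Nat.mul w19 (Nat.mul 3 (KA qat10 qat19 qat19))) (Nat.add (Nat.mul w20 (Nat.mul 6 (KA qat10 qat19 qat20)))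 (Nat.add (Nat.mul w21 (Nat.mul 6 (KA qat10 qat19 qat21))) (Nat.add (Nat.mul w22 (Nat.mul 6 (KA qat10 qat19 qat22))) (Nat.add (Nat.mul w23 (Nat.mul 6 (KA qat10 qat19 qat23))) (Nat.add (Nat.mul w24 (Nat.mul 6 (KA qat10 qat19 qat24))) (Nat.add (Nat.mul w25 (Nat.mul 6 (KA qat10 qat19 qat25))) (Nat.add (Nat.mul w26 (Nat.mul 6 (KA qat10 qat19 qat26))) 0))))))))) (Nat.add (Nat.mul w20 (Nat.add (Nat.mul w20 (Nat.mul 3 (KA qat10 qat20 qat20))) (Nat.add (Nat.mul w21 (Nat.mul 6 (KA qat10 qat20 qat21))) (Nat.add (Nat.mul w22 (Nat.mul 6 (KA qat10 qat20 qat22))) (Nat.add (Nat.mul w23 (Nat.mul 6 (KA qat10 qat20 qat23))) (Nat.add (Nat.mul w24 (Nat.mul 6 (KA qat10 qat20 qat24))) (Nat.add (Nat.mul w25 (Nat.mul 6 (KA qat10 qat20 qat25))) (Nat.add (Nat.mul w26 (Nat.mul 6 (KA qat10 qat20 qat26))) 0)))))))) (Nat.add (Nat.mul w21 (Nat.add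 (Nat.mul w21 (Nat.mul 3 (KA qat10 qat21 qat21))) (Nat.add (Nat.mul w22 (Nat.mul 6 (KA qat10 qat21 qat22))) (Nat.add (Nat.mul w23 (Nat.mul 6 (KA qat10 qat21 qat23))) (Nat.add (Nat.mul w24 (Nat.mul 6 (KA qat10 qat21 qat24))) (Nat.add (Nat.mul w25 (Nat.mul 6 (KA qat10 qat21 qat25))) (Nat.add (Nat.mul w26 (Nat.mul 6 (KA qat10 qat21 qat26))) 0))))))) (Nat.add (Nat.mul w22 (Nat.add (Nat.mul w22 (Nat.mul 3 (KA qat10 qat22 qat22))) (Nat.add (Nat.mul w23 (Nat.mul 6 (KA qat10 qat22 qat23))) (Nat.add (Nat.mul w24 (Nat.mul 6 (KA qat10 qat22 qat24))) (Nat.add (Nat.mul w25 (Nat.mul 6 (KA qat10 qat22 qat25))) (Nat.add (Nat.mul w26 (Nat.mul 6 (KA qat10 qat22 qat26))) 0)))))) (Nat.add (Nat.mul w23 (Nat.add (Nat.mul w23 (Nat.mul 3 (KA qat10 qat23 qat23))) (Nat.add (Nat.mul w24 (Nat.mul 6 (KA qat10 qat23 qat24))) (Nat.add (Nat.mul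 w25 (Nat.mul 6 (KA qat10 qat23 qat25))) (Nat.add (Nat.mul w26 (Nat.mul 6 (KA qat10 qat23 qat26))) 0))))) (Nat.add (Nat.mul w24 (Nat.add (Nat.mul w24 (Nat.mul 3 (KA qat10 qat24 qat24))) (Nat.add (Nat.mul w25 (Nat.mul 6 (KA qat10 qat24 qat25))) (Nat.add (Nat.mul w26 (Nat.mul 6 (KA qat10 qat24 qat26))) 0)))) (Nat.add (Nat.mul w25 (Nat.add (Nat.mul w25 (Nat.mul 3 (KA qat10 qat25 qat25))) (Nat.add (Nat.mul w26 (Nat.mul 6 (KA qat10 qat25 qat26))) 0))) (Nat.add (Nat.mul w26 (Nat.add (Nat.mul w26 (Nat.mul 3 (KA qat10 qat26 qat26))) (0))) 0)))))))))))))))))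

/-- Terms with least index 11. -/
noncomputable def qa11 (w11 w12 w13 w14 w15 w16 w17 w18 w19 w20 w21 w22 w23 w24 w25 w26 : Nat) : Nat :=
  Nat.mul w11 (Nat.add (Nat.mul w11 (Nat.add (Nat.mul w11 (KA qat11 qat11 qat11)) (Nat.add (Nat.mul w12 (Nat.mul 3 (KA qat11 qat11 qat12))) (Nat.add (Nat.mul w13 (Nat.mul 3 (KA qat11 qat11 qat13))) (Nat.add (Nat.mul w14 (Nat.mul 3 (KA qat11 qat11 qat14))) (Nat.add (Nat.mul w15 (Nat.mul 3 (KA qat11 qat11 qat15))) (Nat.add (Nat.mul w16 (Nat.mul 3 (KA qat11 qat11 qat16))) (Nat.add (Nat.mul w17 (Nat.mul 3 (KA qat11 qat11 qat17))) (Nat.add (Nat.mul w18 (Nat.mul 3 (KA qat11 qat11 qat18))) (Nat.add (Nat.mul w19 (Nat.mul 3 (KA qat11 qat11 qat19))) (Nat.add (Nat.mul w20 (Nat.mul 3 (KA qat11 qat11 qat20))) (Nat.add (Nat.mul w21 (Nat.mul 3 (KA qat11 qat11 qat21))) (Nat.add (Nat.mul w22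 (Nat.mul 3 (KA qat11 qat11 qat22))) (Nat.add (Nat.mul w23 (Nat.mul 3 (KA qat11 qat11 qat23))) (Nat.add (Nat.mul w24 (Nat.mul 3 (KA qat11 qat11 qat24))) (Nat.add (Nat.mul w25 (Nat.mul 3 (KA qat11 qat11 qat25))) (Nat.add (Nat.mul w26 (Nat.mul 3 (KA qat11 qat11 qat26))) 0))))))))))))))))) (Nat.add (Nat.mul w12 (Nat.add (Nat.mul w12 (Nat.mul 3 (KA qat11 qat12 qat12))) (Nat.add (Nat.mul w13 (Nat.mul 6 (KA qat11 qat12 qat13))) (Nat.add (Nat.mul w14 (Nat.mul 6 (KA qat11 qat12 qat14))) (Nat.add (Nat.mul w15 (Nat.mul 6 (KA qat11 qat12 qat15))) (Nat.add (Nat.mul w16 (Nat.mul 6 (KA qat11 qat12 qat16))) (Nat.add (Nat.mul w17 (Nat.mul 6 (KA qat11 qat12 qat17))) (Nat.add (Nat.mul w18 (Nat.mul 6 (KA qat11 qat12 qat18))) (Nat.add (Nat.mul w19 (Nat.mul 6 (KA qat11 qat12 qat19))) (Nat.add (Nat.mul w20 (Nat.mul 6 (KA qat11 qat12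 qat20))) (Nat.add (Nat.mul w21 (Nat.mul 6 (KA qat11 qat12 qat21))) (Nat.add (Nat.mul w22 (Nat.mul 6 (KA qat11 qat12 qat22))) (Nat.add (Nat.mul w23 (Nat.mul 6 (KA qat11 qat12 qat23))) (Nat.add (Nat.mul w24 (Nat.mul 6 (KA qat11 qat12 qat24))) (Nat.add (Nat.mul w25 (Nat.mul 6 (KA qat11 qat12 qat25))) (Nat.add (Nat.mul w26 (Nat.mul 6 (KA qat11 qat12 qat26))) 0)))))))))))))))) (Nat.add (Nat.mul w13 (Nat.add (Nat.mul w13 (Nat.mul 3 (KA qat11 qat13 qat13))) (Nat.add (Nat.mul w14 (Nat.mul 6 (KA qat11 qat13 qat14))) (Nat.add (Nat.mul w15 (Nat.mul 6 (KA qat11 qat13 qat15))) (Nat.add (Nat.mul w16 (Nat.mul 6 (KA qat11 qat13 qat16))) (Nat.add (Nat.mul w17 (Nat.mul 6 (KA qat11 qat13 qat17))) (Nat.add (Nat.mul w18 (Nat.mul 6 (KA qat11 qat13 qat18))) (Nat.add (Nat.mul w19 (Nat.mul 6 (KA qat11 qat13 qat19))) (Nat.add (Nat.mul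 w20 (Nat.mul 6 (KA qat11 qat13 qat20))) (Nat.add (Nat.mul w21 (Nat.mul 6 (KA qat11 qat13 qat21))) (Nat.add (Nat.mul w22 (Nat.mul 6 (KA qat11 qat13 qat22))) (Nat.add (Nat.mul w23 (Nat.mul 6 (KA qat11 qat13 qat23))) (Nat.add (Nat.mul w24 (Nat.mul 6 (KA qat11 qat13 qat24))) (Nat.add (Nat.mul w25 (Nat.mul 6 (KA qat11 qat13 qat25))) (Nat.add (Nat.mul w26 (Nat.mul 6 (KA qat11 qat13 qat26))) 0))))))))))))))) (Nat.add (Nat.mul w14 (Nat.add (Nat.mul w14 (Nat.mul 3 (KA qat11 qat14 qat14))) (Nat.add (Nat.mul w15 (Nat.mul 6 (KA qat11 qat14 qat15))) (Nat.add (Nat.mul w16 (Nat.mul 6 (KA qat11 qat14 qat16))) (Nat.add (Nat.mul w17 (Nat.mul 6 (KA qat11 qat14 qat17))) (Nat.add (Nat.mul w18 (Nat.mul 6 (KA qat11 qat14 qat18))) (Nat.add (Nat.mul w19 (Nat.mul 6 (KA qat11 qat14 qat19))) (Nat.add (Nat.mul w20 (Nat.mul 6 (KA qat11 qat14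 qat20))) (Nat.add (Nat.mul w21 (Nat.mul 6 (KA qat11 qat14 qat21))) (Nat.add (Nat.mul w22 (Nat.mul 6 (KA qat11 qat14 qat22))) (Nat.add (Nat.mul w23 (Nat.mul 6 (KA qat11 qat14 qat23))) (Nat.add (Nat.mul w24 (Nat.mul 6 (KA qat11 qat14 qat24))) (Nat.add (Nat.mul w25 (Nat.mul 6 (KA qat11 qat14 qat25))) (Nat.add (Nat.mul w26 (Nat.mul 6 (KA qat11 qat14 qat26))) 0)))))))))))))) (Nat.add (Nat.mul w15 (Nat.add (Nat.mul w15 (Nat.mul 3 (KA qat11 qat15 qat15))) (Nat.add (Nat.mul w16 (Nat.mul 6 (KA qat11 qat15 qat16))) (Nat.add (Nat.mul w17 (Nat.mul 6 (KA qat11 qat15 qat17))) (Nat.add (Nat.mul w18 (Nat.mul 6 (KA qat11 qat15 qat18))) (Nat.add (Nat.mul w19 (Nat.mul 6 (KA qat11 qat15 qat19))) (Nat.add (Nat.mul w20 (Nat.mul 6 (KA qat11 qat15 qat20))) (Nat.add (Nat.mul w21 (Nat.mul 6 (KA qat11 qat15 qat21))) (Nat.add (Nat.mul w22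 (Nat.mul 6 (KA qat11 qat15 qat22))) (Nat.add (Nat.mul w23 (Nat.mul 6 (KA qat11 qat15 qat23))) (Nat.add (Nat.mul w24 (Nat.mul 6 (KA qat11 qat15 qat24))) (Nat.add (Nat.mul w25 (Nat.mul 6 (KA qat11 qat15 qat25))) (Nat.add (Nat.mul w26 (Nat.mul 6 (KA qat11 qat15 qat26))) 0))))))))))))) (Nat.add (Nat.mul w16 (Nat.add (Nat.mul w16 (Nat.mul 3 (KA qat11 qat16 qat16))) (Nat.add (Nat.mul w17 (Nat.mul 6 (KA qat11 qat16 qat17))) (Nat.add (Nat.mul w18 (Nat.mul 6 (KA qat11 qat16 qat18))) (Nat.add (Nat.mul w19 (Nat.mul 6 (KA qat11 qat16 qat19))) (Nat.add (Nat.mul w20 (Nat.mul 6 (KA qat11 qat16 qat20))) (Nat.add (Nat.mul w21 (Nat.mul 6 (KA qat11 qat16 qat21))) (Nat.add (Nat.mul w22 (Nat.mul 6 (KA qat11 qat16 qat22))) (Nat.add (Nat.mul w23 (Nat.mul 6 (KA qat11 qat16 qat23))) (Nat.add (Nat.mul w24 (Nat.mul 6 (KA qat11 qat16 qat24)))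 (Nat.add (Nat.mul w25 (Nat.mul 6 (KA qat11 qat16 qat25))) (Nat.add (Nat.mul w26 (Nat.mul 6 (KA qat11 qat16 qat26))) 0)))))))))))) (Nat.add (Nat.mul w17 (Nat.add (Nat.mul w17 (Nat.mul 3 (KA qat11 qat17 qat17))) (Nat.add (Nat.mul w18 (Nat.mul 6 (KA qat11 qat17 qat18))) (Nat.add (Nat.mul w19 (Nat.mul 6 (KA qat11 qat17 qat19))) (Nat.add (Nat.mul w20 (Nat.mul 6 (KA qat11 qat17 qat20))) (Nat.add (Nat.mul w21 (Nat.mul 6 (KA qat11 qat17 qat21))) (Nat.add (Nat.mul w22 (Nat.mul 6 (KA qat11 qat17 qat22))) (Nat.add (Nat.mul w23 (Nat.mul 6 (KA qat11 qat17 qat23))) (Nat.add (Nat.mul w24 (Nat.mul 6 (KA qat11 qat17 qat24))) (Nat.add (Nat.mul w25 (Nat.mul 6 (KA qat11 qat17 qat25))) (Nat.add (Nat.mul w26 (Nat.mul 6 (KA qat11 qat17 qat26))) 0))))))))))) (Nat.add (Nat.mul w18 (Nat.add (Nat.mul w18 (Nat.mul 3 (KA qat11 qat18 qat18)))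 (Nat.add (Nat.mul w19 (Nat.mul 6 (KA qat11 qat18 qat19))) (Nat.add (Nat.mul w20 (Nat.mul 6 (KA qat11 qat18 qat20))) (Nat.add (Nat.mul w21 (Nat.mul 6 (KA qat11 qat18 qat21))) (Nat.add (Nat.mul w22 (Nat.mul 6 (KA qat11 qat18 qat22))) (Nat.add (Nat.mul w23 (Nat.mul 6 (KA qat11 qat18 qat23))) (Nat.add (Nat.mul w24 (Nat.mul 6 (KA qat11 qat18 qat24))) (Nat.add (Nat.mul w25 (Nat.mul 6 (KA qat11 qat18 qat25))) (Nat.add (Nat.mul w26 (Nat.mul 6 (KA qat11 qat18 qat26))) 0)))))))))) (Nat.add (Nat.mul w19 (Nat.add (Nat.mul w19 (Nat.mul 3 (KA qat11 qat19 qat19))) (Nat.add (Nat.mul w20 (Nat.mul 6 (KA qat11 qat19 qat20))) (Nat.add (Nat.mul w21 (Nat.mul 6 (KA qat11 qat19 qat21))) (Nat.add (Nat.mul w22 (Nat.mul 6 (KA qat11 qat19 qat22))) (Nat.add (Nat.mul w23 (Nat.mul 6 (KA qat11 qat19 qat23))) (Nat.add (Nat.mul w24 (Nat.mul 6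 (KA qat11 qat19 qat24))) (Nat.add (Nat.mul w25 (Nat.mul 6 (KA qat11 qat19 qat25))) (Nat.add (Nat.mul w26 (Nat.mul 6 (KA qat11 qat19 qat26))) 0))))))))) (Nat.add (Nat.mul w20 (Nat.add (Nat.mul w20 (Nat.mul 3 (KA qat11 qat20 qat20))) (Nat.add (Nat.mul w21 (Nat.mul 6 (KA qat11 qat20 qat21))) (Nat.add (Nat.mul w22 (Nat.mul 6 (KA qat11 qat20 qat22))) (Nat.add (Nat.mul w23 (Nat.mul 6 (KA qat11 qat20 qat23))) (Nat.add (Nat.mul w24 (Nat.mul 6 (KA qat11 qat20 qat24))) (Nat.add (Nat.mul w25 (Nat.mul 6 (KA qat11 qat20 qat25))) (Nat.add (Nat.mul w26 (Nat.mul 6 (KA qat11 qat20 qat26))) 0)))))))) (Nat.add (Nat.mul w21 (Nat.add (Nat.mul w21 (Nat.mul 3 (KA qat11 qat21 qat21))) (Nat.add (Nat.mul w22 (Nat.mul 6 (KA qat11 qat21 qat22))) (Nat.add (Nat.mul w23 (Nat.mul 6 (KA qat11 qat21 qat23))) (Nat.add (Nat.mul w24 (Nat.mul 6 (KA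 qat11 qat21 qat24))) (Nat.add (Nat.mul w25 (Nat.mul 6 (KA qat11 qat21 qat25))) (Nat.add (Nat.mul w26 (Nat.mul 6 (KA qat11 qat21 qat26))) 0))))))) (Nat.add (Nat.mul w22 (Nat.add (Nat.mul w22 (Nat.mul 3 (KA qat11 qat22 qat22))) (Nat.add (Nat.mul w23 (Nat.mul 6 (KA qat11 qat22 qat23))) (Nat.add (Nat.mul w24 (Nat.mul 6 (KA qat11 qat22 qat24))) (Nat.add (Nat.mul w25 (Nat.mul 6 (KA qat11 qat22 qat25))) (Nat.add (Nat.mul w26 (Nat.mul 6 (KA qat11 qat22 qat26))) 0)))))) (Nat.add (Nat.mul w23 (Nat.add (Nat.mul w23 (Nat.mul 3 (KA qat11 qat23 qat23))) (Nat.add (Nat.mul w24 (Nat.mul 6 (KA qat11 qat23 qat24))) (Nat.add (Nat.mul w25 (Nat.mul 6 (KA qat11 qat23 qat25))) (Nat.add (Nat.mul w26 (Nat.mul 6 (KA qat11 qat23 qat26))) 0))))) (Nat.add (Nat.mul w24 (Nat.add (Nat.mul w24 (Nat.mul 3 (KA qat11 qat24 qat24))) (Nat.add (Nat.mul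 w25 (Nat.mul 6 (KA qat11 qat24 qat25))) (Nat.add (Nat.mul w26 (Nat.mul 6 (KA qat11 qat24 qat26))) 0)))) (Nat.add (Nat.mul w25 (Nat.add (Nat.mul w25 (Nat.mul 3 (KA qat11 qat25 qat25))) (Nat.add (Nat.mul w26 (Nat.mul 6 (KA qat11 qat25 qat26))) 0))) (Nat.add (Nat.mul w26 (Nat.add (Nat.mul w26 (Nat.mul 3 (KA qat11 qat26 qat26))) (0))) 0))))))))))))))))

/-- Terms with least index 12. -/
noncomputable def qa12 (w12 w13 w14 w15 w16 w17 w18 w19 w20 w21 w22 w23 w24 w25 w26 : Nat) : Nat :=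
  Nat.mul w12 (Nat.add (Nat.mul w12 (Nat.add (Nat.mul w12 (KA qat12 qat12 qat12)) (Nat.add (Nat.mul w13 (Nat.mul 3 (KA qat12 qat12 qat13))) (Nat.add (Nat.mul w14 (Nat.mul 3 (KA qat12 qat12 qat14))) (Nat.add (Nat.mul w15 (Nat.mul 3 (KA qat12 qat12 qat15))) (Nat.add (Nat.mul w16 (Nat.mul 3 (KA qat12 qat12 qat16))) (Nat.add (Nat.mul w17 (Nat.mul 3 (KA qat12 qat12 qat17))) (Nat.add (Nat.mul w18 (Nat.mul 3 (KA qat12 qat12 qat18))) (Nat.add (Nat.mul w19 (Nat.mul 3 (KA qat12 qat12 qat19))) (Nat.add (Nat.mul w20 (Nat.mul 3 (KA qat12 qat12 qat20))) (Nat.add (Nat.mul w21 (Nat.mul 3 (KA qat12 qat12 qat21))) (Nat.add (Nat.mul w22 (Nat.mul 3 (KA qat12 qat12 qat22))) (Nat.add (Nat.mul w23 (Nat.mul 3 (KA qat12 qat12 qat23))) (Nat.add (Nat.mul w24 (Nat.mul 3 (KA qat12 qat12 qat24))) (Nat.add (Nat.mul w25 (Nat.mul 3 (KA qat12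 qat12 qat25))) (Nat.add (Nat.mul w26 (Nat.mul 3 (KA qat12 qat12 qat26))) 0)))))))))))))))) (Nat.add (Nat.mul w13 (Nat.add (Nat.mul w13 (Nat.mul 3 (KA qat12 qat13 qat13))) (Nat.add (Nat.mul w14 (Nat.mul 6 (KA qat12 qat13 qat14))) (Nat.add (Nat.mul w15 (Nat.mul 6 (KA qat12 qat13 qat15))) (Nat.add (Nat.mul w16 (Nat.mul 6 (KA qat12 qat13 qat16))) (Nat.add (Nat.mul w17 (Nat.mul 6 (KA qat12 qat13 qat17))) (Nat.add (Nat.mul w18 (Nat.mul 6 (KA qat12 qat13 qat18))) (Nat.add (Nat.mul w19 (Nat.mul 6 (KA qat12 qat13 qat19))) (Nat.add (Nat.mul w20 (Nat.mul 6 (KA qat12 qat13 qat20))) (Nat.add (Nat.mul w21 (Nat.mul 6 (KA qat12 qat13 qat21))) (Nat.add (Nat.mul w22 (Nat.mul 6 (KA qat12 qat13 qat22))) (Nat.add (Nat.mul w23 (Nat.mul 6 (KA qat12 qat13 qat23))) (Nat.add (Nat.mul w24 (Nat.mul 6 (KA qat12 qat13 qat24))) (Nat.add (Nat.mul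 w25 (Nat.mul 6 (KA qat12 qat13 qat25))) (Nat.add (Nat.mul w26 (Nat.mul 6 (KA qat12 qat13 qat26))) 0))))))))))))))) (Nat.add (Nat.mul w14 (Nat.add (Nat.mul w14 (Nat.mul 3 (KA qat12 qat14 qat14))) (Nat.add (Nat.mul w15 (Nat.mul 6 (KA qat12 qat14 qat15))) (Nat.add (Nat.mul w16 (Nat.mul 6 (KA qat12 qat14 qat16))) (Nat.add (Nat.mul w17 (Nat.mul 6 (KA qat12 qat14 qat17))) (Nat.add (Nat.mul w18 (Nat.mul 6 (KA qat12 qat14 qat18))) (Nat.add (Nat.mul w19 (Nat.mul 6 (KA qat12 qat14 qat19))) (Nat.add (Nat.mul w20 (Nat.mul 6 (KA qat12 qat14 qat20))) (Nat.add (Nat.mul w21 (Nat.mul 6 (KA qat12 qat14 qat21))) (Nat.add (Nat.mul w22 (Nat.mul 6 (KA qat12 qat14 qat22))) (Nat.add (Nat.mul w23 (Nat.mul 6 (KA qat12 qat14 qat23))) (Nat.add (Nat.mul w24 (Nat.mul 6 (KA qat12 qat14 qat24))) (Nat.add (Nat.mul w25 (Nat.mul 6 (KA qat12 qat14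 qat25))) (Nat.add (Nat.mul w26 (Nat.mul 6 (KA qat12 qat14 qat26))) 0)))))))))))))) (Nat.add (Nat.mul w15 (Nat.add (Nat.mul w15 (Nat.mul 3 (KA qat12 qat15 qat15))) (Nat.add (Nat.mul w16 (Nat.mul 6 (KA qat12 qat15 qat16))) (Nat.add (Nat.mul w17 (Nat.mul 6 (KA qat12 qat15 qat17))) (Nat.add (Nat.mul w18 (Nat.mul 6 (KA qat12 qat15 qat18))) (Nat.add (Nat.mul w19 (Nat.mul 6 (KA qat12 qat15 qat19))) (Nat.add (Nat.mul w20 (Nat.mul 6 (KA qat12 qat15 qat20))) (Nat.add (Nat.mul w21 (Nat.mul 6 (KA qat12 qat15 qat21))) (Nat.add (Nat.mul w22 (Nat.mul 6 (KA qat12 qat15 qat22))) (Nat.add (Nat.mul w23 (Nat.mul 6 (KA qat12 qat15 qat23))) (Nat.add (Nat.mul w24 (Nat.mul 6 (KA qat12 qat15 qat24))) (Nat.add (Nat.mul w25 (Nat.mul 6 (KA qat12 qat15 qat25))) (Nat.add (Nat.mul w26 (Nat.mul 6 (KA qat12 qat15 qat26))) 0))))))))))))) (Nat.add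 (Nat.mul w16 (Nat.add (Nat.mul w16 (Nat.mul 3 (KA qat12 qat16 qat16))) (Nat.add (Nat.mul w17 (Nat.mul 6 (KA qat12 qat16 qat17))) (Nat.add (Nat.mul w18 (Nat.mul 6 (KA qat12 qat16 qat18))) (Nat.add (Nat.mul w19 (Nat.mul 6 (KA qat12 qat16 qat19))) (Nat.add (Nat.mul w20 (Nat.mul 6 (KA qat12 qat16 qat20))) (Nat.add (Nat.mul w21 (Nat.mul 6 (KA qat12 qat16 qat21))) (Nat.add (Nat.mul w22 (Nat.mul 6 (KA qat12 qat16 qat22))) (Nat.add (Nat.mul w23 (Nat.mul 6 (KA qat12 qat16 qat23))) (Nat.add (Nat.mul w24 (Nat.mul 6 (KA qat12 qat16 qat24))) (Nat.add (Nat.mul w25 (Nat.mul 6 (KA qat12 qat16 qat25))) (Nat.add (Nat.mul w26 (Nat.mul 6 (KA qat12 qat16 qat26))) 0)))))))))))) (Nat.add (Nat.mul w17 (Nat.add (Nat.mul w17 (Nat.mul 3 (KA qat12 qat17 qat17))) (Nat.add (Nat.mul w18 (Nat.mul 6 (KA qat12 qat17 qat18))) (Nat.add (Nat.mul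 w19 (Nat.mul 6 (KA qat12 qat17 qat19))) (Nat.add (Nat.mul w20 (Nat.mul 6 (KA qat12 qat17 qat20))) (Nat.add (Nat.mul w21 (Nat.mul 6 (KA qat12 qat17 qat21))) (Nat.add (Nat.mul w22 (Nat.mul 6 (KA qat12 qat17 qat22))) (Nat.add (Nat.mul w23 (Nat.mul 6 (KA qat12 qat17 qat23))) (Nat.add (Nat.mul w24 (Nat.mul 6 (KA qat12 qat17 qat24))) (Nat.add (Nat.mul w25 (Nat.mul 6 (KA qat12 qat17 qat25))) (Nat.add (Nat.mul w26 (Nat.mul 6 (KA qat12 qat17 qat26))) 0))))))))))) (Nat.add (Nat.mul w18 (Nat.add (Nat.mul w18 (Nat.mul 3 (KA qat12 qat18 qat18))) (Nat.add (Nat.mul w19 (Nat.mul 6 (KA qat12 qat18 qat19))) (Nat.add (Nat.mul w20 (Nat.mul 6 (KA qat12 qat18 qat20))) (Nat.add (Nat.mul w21 (Nat.mul 6 (KA qat12 qat18 qat21))) (Nat.add (Nat.mul w22 (Nat.mul 6 (KA qat12 qat18 qat22))) (Nat.add (Nat.mul w23 (Nat.mul 6 (KA qat12 qat18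 qat23))) (Nat.add (Nat.mul w24 (Nat.mul 6 (KA qat12 qat18 qat24))) (Nat.add (Nat.mul w25 (Nat.mul 6 (KA qat12 qat18 qat25))) (Nat.add (Nat.mul w26 (Nat.mul 6 (KA qat12 qat18 qat26))) 0)))))))))) (Nat.add (Nat.mul w19 (Nat.add (Nat.mul w19 (Nat.mul 3 (KA qat12 qat19 qat19))) (Nat.add (Nat.mul w20 (Nat.mul 6 (KA qat12 qat19 qat20))) (Nat.add (Nat.mul w21 (Nat.mul 6 (KA qat12 qat19 qat21))) (Nat.add (Nat.mul w22 (Nat.mul 6 (KA qat12 qat19 qat22))) (Nat.add (Nat.mul w23 (Nat.mul 6 (KA qat12 qat19 qat23))) (Nat.add (Nat.mul w24 (Nat.mul 6 (KA qat12 qat19 qat24))) (Nat.add (Nat.mul w25 (Nat.mul 6 (KA qat12 qat19 qat25))) (Nat.add (Nat.mul w26 (Nat.mul 6 (KA qat12 qat19 qat26))) 0))))))))) (Nat.add (Nat.mul w20 (Nat.add (Nat.mul w20 (Nat.mul 3 (KA qat12 qat20 qat20))) (Nat.add (Nat.mul w21 (Nat.mul 6 (KA qat12 qat20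 qat21))) (Nat.add (Nat.mul w22 (Nat.mul 6 (KA qat12 qat20 qat22))) (Nat.add (Nat.mul w23 (Nat.mul 6 (KA qat12 qat20 qat23))) (Nat.add (Nat.mul w24 (Nat.mul 6 (KA qat12 qat20 qat24))) (Nat.add (Nat.mul w25 (Nat.mul 6 (KA qat12 qat20 qat25))) (Nat.add (Nat.mul w26 (Nat.mul 6 (KA qat12 qat20 qat26))) 0)))))))) (Nat.add (Nat.mul w21 (Nat.add (Nat.mul w21 (Nat.mul 3 (KA qat12 qat21 qat21))) (Nat.add (Nat.mul w22 (Nat.mul 6 (KA qat12 qat21 qat22))) (Nat.add (Nat.mul w23 (Nat.mul 6 (KA qat12 qat21 qat23))) (Nat.add (Nat.mul w24 (Nat.mul 6 (KA qat12 qat21 qat24))) (Nat.add (Nat.mul w25 (Nat.mul 6 (KA qat12 qat21 qat25))) (Nat.add (Nat.mul w26 (Nat.mul 6 (KA qat12 qat21 qat26))) 0))))))) (Nat.add (Nat.mul w22 (Nat.add (Nat.mul w22 (Nat.mul 3 (KA qat12 qat22 qat22))) (Nat.add (Nat.mul w23 (Nat.mul 6 (KA qat12 qat22 qat23)))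 (Nat.add (Nat.mul w24 (Nat.mul 6 (KA qat12 qat22 qat24))) (Nat.add (Nat.mul w25 (Nat.mul 6 (KA qat12 qat22 qat25))) (Nat.add (Nat.mul w26 (Nat.mul 6 (KA qat12 qat22 qat26))) 0)))))) (Nat.add (Nat.mul w23 (Nat.add (Nat.mul w23 (Nat.mul 3 (KA qat12 qat23 qat23))) (Nat.add (Nat.mul w24 (Nat.mul 6 (KA qat12 qat23 qat24))) (Nat.add (Nat.mul w25 (Nat.mul 6 (KA qat12 qat23 qat25))) (Nat.add (Nat.mul w26 (Nat.mul 6 (KA qat12 qat23 qat26))) 0))))) (Nat.add (Nat.mul w24 (Nat.add (Nat.mul w24 (Nat.mul 3 (KA qat12 qat24 qat24))) (Nat.add (Nat.mul w25 (Nat.mul 6 (KA qat12 qat24 qat25))) (Nat.add (Nat.mul w26 (Nat.mul 6 (KA qat12 qat24 qat26))) 0)))) (Nat.add (Nat.mul w25 (Nat.add (Nat.mul w25 (Nat.mul 3 (KA qat12 qat25 qat25))) (Nat.add (Nat.mul w26 (Nat.mul 6 (KA qat12 qat25 qat26))) 0))) (Nat.add (Nat.mul w26 (Nat.add (Nat.mul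 w26 (Nat.mul 3 (KA qat12 qat26 qat26))) (0))) 0)))))))))))))))

/-- Terms with least index 13. -/
noncomputable def qa13 (w13 w14 w15 w16 w17 w18 w19 w20 w21 w22 w23 w24 w25 w26 : Nat) : Nat :=
  Nat.mul w13 (Nat.add (Nat.mul w13 (Nat.add (Nat.mul w13 (KA qat13 qat13 qat13)) (Nat.add (Nat.mul w14 (Nat.mul 3 (KA qat13 qat13 qat14))) (Nat.add (Nat.mul w15 (Nat.mul 3 (KA qat13 qat13 qat15))) (Nat.add (Nat.mul w16 (Nat.mul 3 (KA qat13 qat13 qat16))) (Nat.add (Nat.mul w17 (Nat.mul 3 (KA qat13 qat13 qat17))) (Nat.add (Nat.mul w18 (Nat.mul 3 (KA qat13 qat13 qat18))) (Nat.add (Nat.mul w19 (Nat.mul 3 (KA qat13 qat13 qat19))) (Nat.add (Nat.mul w20 (Nat.mul 3 (KA qat13 qat13 qat20))) (Nat.add (Nat.mul w21 (Nat.mul 3 (KA qat13 qat13 qat21))) (Nat.add (Nat.mul w22 (Nat.mul 3 (KA qat13 qat13 qat22))) (Nat.add (Nat.mul w23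 (Nat.mul 3 (KA qat13 qat13 qat23))) (Nat.add (Nat.mul w24 (Nat.mul 3 (KA qat13 qat13 qat24))) (Nat.add (Nat.mul w25 (Nat.mul 3 (KA qat13 qat13 qat25))) (Nat.add (Nat.mul w26 (Nat.mul 3 (KA qat13 qat13 qat26))) 0))))))))))))))) (Nat.add (Nat.mul w14 (Nat.add (Nat.mul w14 (Nat.mul 3 (KA qat13 qat14 qat14))) (Nat.add (Nat.mul w15 (Nat.mul 6 (KA qat13 qat14 qat15))) (Nat.add (Nat.mul w16 (Nat.mul 6 (KA qat13 qat14 qat16))) (Nat.add (Nat.mul w17 (Nat.mul 6 (KA qat13 qat14 qat17))) (Nat.add (Nat.mul w18 (Nat.mul 6 (KA qat13 qat14 qat18))) (Nat.add (Nat.mul w19 (Nat.mul 6 (KA qat13 qat14 qat19))) (Nat.add (Nat.mul w20 (Nat.mul 6 (KA qat13 qat14 qat20))) (Nat.add (Nat.mul w21 (Nat.mul 6 (KA qat13 qat14 qat21))) (Nat.add (Nat.mul w22 (Nat.mul 6 (KA qat13 qat14 qat22))) (Nat.add (Nat.mul w23 (Nat.mul 6 (KA qat13 qat14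 qat23))) (Nat.add (Nat.mul w24 (Nat.mul 6 (KA qat13 qat14 qat24))) (Nat.add (Nat.mul w25 (Nat.mul 6 (KA qat13 qat14 qat25))) (Nat.add (Nat.mul w26 (Nat.mul 6 (KA qat13 qat14 qat26))) 0)))))))))))))) (Nat.add (Nat.mul w15 (Nat.add (Nat.mul w15 (Nat.mul 3 (KA qat13 qat15 qat15))) (Nat.add (Nat.mul w16 (Nat.mul 6 (KA qat13 qat15 qat16))) (Nat.add (Nat.mul w17 (Nat.mul 6 (KA qat13 qat15 qat17))) (Nat.add (Nat.mul w18 (Nat.mul 6 (KA qat13 qat15 qat18))) (Nat.add (Nat.mul w19 (Nat.mul 6 (KA qat13 qat15 qat19))) (Nat.add (Nat.mul w20 (Nat.mul 6 (KA qat13 qat15 qat20))) (Nat.add (Nat.mul w21 (Nat.mul 6 (KA qat13 qat15 qat21))) (Nat.add (Nat.mul w22 (Nat.mul 6 (KA qat13 qat15 qat22))) (Nat.add (Nat.mul w23 (Nat.mul 6 (KA qat13 qat15 qat23))) (Nat.add (Nat.mul w24 (Nat.mul 6 (KA qat13 qat15 qat24))) (Nat.add (Nat.mul w25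 (Nat.mul 6 (KA qat13 qat15 qat25))) (Nat.add (Nat.mul w26 (Nat.mul 6 (KA qat13 qat15 qat26))) 0))))))))))))) (Nat.add (Nat.mul w16 (Nat.add (Nat.mul w16 (Nat.mul 3 (KA qat13 qat16 qat16))) (Nat.add (Nat.mul w17 (Nat.mul 6 (KA qat13 qat16 qat17))) (Nat.add (Nat.mul w18 (Nat.mul 6 (KA qat13 qat16 qat18))) (Nat.add (Nat.mul w19 (Nat.mul 6 (KA qat13 qat16 qat19))) (Nat.add (Nat.mul w20 (Nat.mul 6 (KA qat13 qat16 qat20))) (Nat.add (Nat.mul w21 (Nat.mul 6 (KA qat13 qat16 qat21))) (Nat.add (Nat.mul w22 (Nat.mul 6 (KA qat13 qat16 qat22))) (Nat.add (Nat.mul w23 (Nat.mul 6 (KA qat13 qat16 qat23))) (Nat.add (Nat.mul w24 (Nat.mul 6 (KA qat13 qat16 qat24))) (Nat.add (Nat.mul w25 (Nat.mul 6 (KA qat13 qat16 qat25))) (Nat.add (Nat.mul w26 (Nat.mul 6 (KA qat13 qat16 qat26))) 0)))))))))))) (Nat.add (Nat.mul w17 (Nat.add (Nat.mul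 w17 (Nat.mul 3 (KA qat13 qat17 qat17))) (Nat.add (Nat.mul w18 (Nat.mul 6 (KA qat13 qat17 qat18))) (Nat.add (Nat.mul w19 (Nat.mul 6 (KA qat13 qat17 qat19))) (Nat.add (Nat.mul w20 (Nat.mul 6 (KA qat13 qat17 qat20))) (Nat.add (Nat.mul w21 (Nat.mul 6 (KA qat13 qat17 qat21))) (Nat.add (Nat.mul w22 (Nat.mul 6 (KA qat13 qat17 qat22))) (Nat.add (Nat.mul w23 (Nat.mul 6 (KA qat13 qat17 qat23))) (Nat.add (Nat.mul w24 (Nat.mul 6 (KA qat13 qat17 qat24))) (Nat.add (Nat.mul w25 (Nat.mul 6 (KA qat13 qat17 qat25))) (Nat.add (Nat.mul w26 (Nat.mul 6 (KA qat13 qat17 qat26))) 0))))))))))) (Nat.add (Nat.mul w18 (Nat.add (Nat.mul w18 (Nat.mul 3 (KA qat13 qat18 qat18))) (Nat.add (Nat.mul w19 (Nat.mul 6 (KA qat13 qat18 qat19))) (Nat.add (Nat.mul w20 (Nat.mul 6 (KA qat13 qat18 qat20))) (Nat.add (Nat.mul w21 (Nat.mul 6 (KA qat13 qat18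 qat21))) (Nat.add (Nat.mul w22 (Nat.mul 6 (KA qat13 qat18 qat22))) (Nat.add (Nat.mul w23 (Nat.mul 6 (KA qat13 qat18 qat23))) (Nat.add (Nat.mul w24 (Nat.mul 6 (KA qat13 qat18 qat24))) (Nat.add (Nat.mul w25 (Nat.mul 6 (KA qat13 qat18 qat25))) (Nat.add (Nat.mul w26 (Nat.mul 6 (KA qat13 qat18 qat26))) 0)))))))))) (Nat.add (Nat.mul w19 (Nat.add (Nat.mul w19 (Nat.mul 3 (KA qat13 qat19 qat19))) (Nat.add (Nat.mul w20 (Nat.mul 6 (KA qat13 qat19 qat20))) (Nat.add (Nat.mul w21 (Nat.mul 6 (KA qat13 qat19 qat21))) (Nat.add (Nat.mul w22 (Nat.mul 6 (KA qat13 qat19 qat22))) (Nat.add (Nat.mul w23 (Nat.mul 6 (KA qat13 qat19 qat23))) (Nat.add (Nat.mul w24 (Nat.mul 6 (KA qat13 qat19 qat24))) (Nat.add (Nat.mul w25 (Nat.mul 6 (KA qat13 qat19 qat25))) (Nat.add (Nat.mul w26 (Nat.mul 6 (KA qat13 qat19 qat26))) 0))))))))) (Nat.add (Nat.mul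 w20 (Nat.add (Nat.mul w20 (Nat.mul 3 (KA qat13 qat20 qat20))) (Nat.add (Nat.mul w21 (Nat.mul 6 (KA qat13 qat20 qat21))) (Nat.add (Nat.mul w22 (Nat.mul 6 (KA qat13 qat20 qat22))) (Nat.add (Nat.mul w23 (Nat.mul 6 (KA qat13 qat20 qat23))) (Nat.add (Nat.mul w24 (Nat.mul 6 (KA qat13 qat20 qat24))) (Nat.add (Nat.mul w25 (Nat.mul 6 (KA qat13 qat20 qat25))) (Nat.add (Nat.mul w26 (Nat.mul 6 (KA qat13 qat20 qat26))) 0)))))))) (Nat.add (Nat.mul w21 (Nat.add (Nat.mul w21 (Nat.mul 3 (KA qat13 qat21 qat21))) (Nat.add (Nat.mul w22 (Nat.mul 6 (KA qat13 qat21 qat22))) (Nat.add (Nat.mul w23 (Nat.mul 6 (KA qat13 qat21 qat23))) (Nat.add (Nat.mul w24 (Nat.mul 6 (KA qat13 qat21 qat24))) (Nat.add (Nat.mul w25 (Nat.mul 6 (KA qat13 qat21 qat25))) (Nat.add (Nat.mul w26 (Nat.mul 6 (KA qat13 qat21 qat26))) 0))))))) (Nat.add (Nat.mul w22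 (Nat.add (Nat.mul w22 (Nat.mul 3 (KA qat13 qat22 qat22))) (Nat.add (Nat.mul w23 (Nat.mul 6 (KA qat13 qat22 qat23))) (Nat.add (Nat.mul w24 (Nat.mul 6 (KA qat13 qat22 qat24))) (Nat.add (Nat.mul w25 (Nat.mul 6 (KA qat13 qat22 qat25))) (Nat.add (Nat.mul w26 (Nat.mul 6 (KA qat13 qat22 qat26))) 0)))))) (Nat.add (Nat.mul w23 (Nat.add (Nat.mul w23 (Nat.mul 3 (KA qat13 qat23 qat23))) (Nat.add (Nat.mul w24 (Nat.mul 6 (KA qat13 qat23 qat24))) (Nat.add (Nat.mul w25 (Nat.mul 6 (KA qat13 qat23 qat25))) (Nat.add (Nat.mul w26 (Nat.mul 6 (KA qat13 qat23 qat26))) 0))))) (Nat.add (Nat.mul w24 (Nat.add (Nat.mul w24 (Nat.mul 3 (KA qat13 qat24 qat24))) (Nat.add (Nat.mul w25 (Nat.mul 6 (KA qat13 qat24 qat25))) (Nat.add (Nat.mul w26 (Nat.mul 6 (KA qat13 qat24 qat26))) 0)))) (Nat.add (Nat.mul w25 (Nat.add (Nat.mul w25 (Nat.mul 3 (KA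 qat13 qat25 qat25))) (Nat.add (Nat.mul w26 (Nat.mul 6 (KA qat13 qat25 qat26))) 0))) (Nat.add (Nat.mul w26 (Nat.add (Nat.mul w26 (Nat.mul 3 (KA qat13 qat26 qat26))) (0))) 0))))))))))))))

/-- Terms with least index 14. -/
noncomputable def qa14 (w14 w15 w16 w17 w18 w19 w20 w21 w22 w23 w24 w25 w26 : Nat) : Nat :=
  Nat.mul w14 (Nat.add (Nat.mul w14 (Nat.add (Nat.mul w14 (KA qat14 qat14 qat14)) (Nat.add (Nat.mul w15 (Nat.mul 3 (KA qat14 qat14 qat15))) (Nat.add (Nat.mul w16 (Nat.mul 3 (KA qat14 qat14 qat16))) (Nat.add (Nat.mul w17 (Nat.mul 3 (KA qat14 qat14 qat17))) (Nat.add (Nat.mul w18 (Nat.mul 3 (KA qat14 qat14 qat18))) (Nat.add (Nat.mul w19 (Nat.mul 3 (KA qat14 qat14 qat19))) (Nat.add (Nat.mul w20 (Nat.mul 3 (KA qat14 qat14 qat20))) (Nat.add (Nat.mul w21 (Nat.mul 3 (KA qat14 qat14 qat21))) (Nat.add (Nat.mul w22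 (Nat.mul 3 (KA qat14 qat14 qat22))) (Nat.add (Nat.mul w23 (Nat.mul 3 (KA qat14 qat14 qat23))) (Nat.add (Nat.mul w24 (Nat.mul 3 (KA qat14 qat14 qat24))) (Nat.add (Nat.mul w25 (Nat.mul 3 (KA qat14 qat14 qat25))) (Nat.add (Nat.mul w26 (Nat.mul 3 (KA qat14 qat14 qat26))) 0)))))))))))))) (Nat.add (Nat.mul w15 (Nat.add (Nat.mul w15 (Nat.mul 3 (KA qat14 qat15 qat15))) (Nat.add (Nat.mul w16 (Nat.mul 6 (KA qat14 qat15 qat16))) (Nat.add (Nat.mul w17 (Nat.mul 6 (KA qat14 qat15 qat17))) (Nat.add (Nat.mul w18 (Nat.mul 6 (KA qat14 qat15 qat18))) (Nat.add (Nat.mul w19 (Nat.mul 6 (KA qat14 qat15 qat19))) (Nat.add (Nat.mul w20 (Nat.mul 6 (KA qat14 qat15 qat20))) (Nat.add (Nat.mul w21 (Nat.mul 6 (KA qat14 qat15 qat21))) (Nat.add (Nat.mul w22 (Nat.mul 6 (KA qat14 qat15 qat22))) (Nat.add (Nat.mul w23 (Nat.mul 6 (KA qat14 qat15 qat23)))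 (Nat.add (Nat.mul w24 (Nat.mul 6 (KA qat14 qat15 qat24))) (Nat.add (Nat.mul w25 (Nat.mul 6 (KA qat14 qat15 qat25))) (Nat.add (Nat.mul w26 (Nat.mul 6 (KA qat14 qat15 qat26))) 0))))))))))))) (Nat.add (Nat.mul w16 (Nat.add (Nat.mul w16 (Nat.mul 3 (KA qat14 qat16 qat16))) (Nat.add (Nat.mul w17 (Nat.mul 6 (KA qat14 qat16 qat17))) (Nat.add (Nat.mul w18 (Nat.mul 6 (KA qat14 qat16 qat18))) (Nat.add (Nat.mul w19 (Nat.mul 6 (KA qat14 qat16 qat19))) (Nat.add (Nat.mul w20 (Nat.mul 6 (KA qat14 qat16 qat20))) (Nat.add (Nat.mul w21 (Nat.mul 6 (KA qat14 qat16 qat21))) (Nat.add (Nat.mul w22 (Nat.mul 6 (KA qat14 qat16 qat22))) (Nat.add (Nat.mul w23 (Nat.mul 6 (KA qat14 qat16 qat23))) (Nat.add (Nat.mul w24 (Nat.mul 6 (KA qat14 qat16 qat24))) (Nat.add (Nat.mul w25 (Nat.mul 6 (KA qat14 qat16 qat25))) (Nat.add (Nat.mul w26 (Nat.mul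 6 (KA qat14 qat16 qat26))) 0)))))))))))) (Nat.add (Nat.mul w17 (Nat.add (Nat.mul w17 (Nat.mul 3 (KA qat14 qat17 qat17))) (Nat.add (Nat.mul w18 (Nat.mul 6 (KA qat14 qat17 qat18))) (Nat.add (Nat.mul w19 (Nat.mul 6 (KA qat14 qat17 qat19))) (Nat.add (Nat.mul w20 (Nat.mul 6 (KA qat14 qat17 qat20))) (Nat.add (Nat.mul w21 (Nat.mul 6 (KA qat14 qat17 qat21))) (Nat.add (Nat.mul w22 (Nat.mul 6 (KA qat14 qat17 qat22))) (Nat.add (Nat.mul w23 (Nat.mul 6 (KA qat14 qat17 qat23))) (Nat.add (Nat.mul w24 (Nat.mul 6 (KA qat14 qat17 qat24))) (Nat.add (Nat.mul w25 (Nat.mul 6 (KA qat14 qat17 qat25))) (Nat.add (Nat.mul w26 (Nat.mul 6 (KA qat14 qat17 qat26))) 0))))))))))) (Nat.add (Nat.mul w18 (Nat.add (Nat.mul w18 (Nat.mul 3 (KA qat14 qat18 qat18))) (Nat.add (Nat.mul w19 (Nat.mul 6 (KA qat14 qat18 qat19))) (Nat.add (Nat.mul w20 (Nat.mul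 6 (KA qat14 qat18 qat20))) (Nat.add (Nat.mul w21 (Nat.mul 6 (KA qat14 qat18 qat21))) (Nat.add (Nat.mul w22 (Nat.mul 6 (KA qat14 qat18 qat22))) (Nat.add (Nat.mul w23 (Nat.mul 6 (KA qat14 qat18 qat23))) (Nat.add (Nat.mul w24 (Nat.mul 6 (KA qat14 qat18 qat24))) (Nat.add (Nat.mul w25 (Nat.mul 6 (KA qat14 qat18 qat25))) (Nat.add (Nat.mul w26 (Nat.mul 6 (KA qat14 qat18 qat26))) 0)))))))))) (Nat.add (Nat.mul w19 (Nat.add (Nat.mul w19 (Nat.mul 3 (KA qat14 qat19 qat19))) (Nat.add (Nat.mul w20 (Nat.mul 6 (KA qat14 qat19 qat20))) (Nat.add (Nat.mul w21 (Nat.mul 6 (KA qat14 qat19 qat21))) (Nat.add (Nat.mul w22 (Nat.mul 6 (KA qat14 qat19 qat22))) (Nat.add (Nat.mul w23 (Nat.mul 6 (KA qat14 qat19 qat23))) (Nat.add (Nat.mul w24 (Nat.mul 6 (KA qat14 qat19 qat24))) (Nat.add (Nat.mul w25 (Nat.mul 6 (KA qat14 qat19 qat25))) (Nat.add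 (Nat.mul w26 (Nat.mul 6 (KA qat14 qat19 qat26))) 0))))))))) (Nat.add (Nat.mul w20 (Nat.add (Nat.mul w20 (Nat.mul 3 (KA qat14 qat20 qat20))) (Nat.add (Nat.mul w21 (Nat.mul 6 (KA qat14 qat20 qat21))) (Nat.add (Nat.mul w22 (Nat.mul 6 (KA qat14 qat20 qat22))) (Nat.add (Nat.mul w23 (Nat.mul 6 (KA qat14 qat20 qat23))) (Nat.add (Nat.mul w24 (Nat.mul 6 (KA qat14 qat20 qat24))) (Nat.add (Nat.mul w25 (Nat.mul 6 (KA qat14 qat20 qat25))) (Nat.add (Nat.mul w26 (Nat.mul 6 (KA qat14 qat20 qat26))) 0)))))))) (Nat.add (Nat.mul w21 (Nat.add (Nat.mul w21 (Nat.mul 3 (KA qat14 qat21 qat21))) (Nat.add (Nat.mul w22 (Nat.mul 6 (KA qat14 qat21 qat22))) (Nat.add (Nat.mul w23 (Nat.mul 6 (KA qat14 qat21 qat23))) (Nat.add (Nat.mul w24 (Nat.mul 6 (KA qat14 qat21 qat24))) (Nat.add (Nat.mul w25 (Nat.mul 6 (KA qat14 qat21 qat25))) (Nat.add (Nat.mul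 w26 (Nat.mul 6 (KA qat14 qat21 qat26))) 0))))))) (Nat.add (Nat.mul w22 (Nat.add (Nat.mul w22 (Nat.mul 3 (KA qat14 qat22 qat22))) (Nat.add (Nat.mul w23 (Nat.mul 6 (KA qat14 qat22 qat23))) (Nat.add (Nat.mul w24 (Nat.mul 6 (KA qat14 qat22 qat24))) (Nat.add (Nat.mul w25 (Nat.mul 6 (KA qat14 qat22 qat25))) (Nat.add (Nat.mul w26 (Nat.mul 6 (KA qat14 qat22 qat26))) 0)))))) (Nat.add (Nat.mul w23 (Nat.add (Nat.mul w23 (Nat.mul 3 (KA qat14 qat23 qat23))) (Nat.add (Nat.mul w24 (Nat.mul 6 (KA qat14 qat23 qat24))) (Nat.add (Nat.mul w25 (Nat.mul 6 (KA qat14 qat23 qat25))) (Nat.add (Nat.mul w26 (Nat.mul 6 (KA qat14 qat23 qat26))) 0))))) (Nat.add (Nat.mul w24 (Nat.add (Nat.mul w24 (Nat.mul 3 (KA qat14 qat24 qat24))) (Nat.add (Nat.mul w25 (Nat.mul 6 (KA qat14 qat24 qat25))) (Nat.add (Nat.mul w26 (Nat.mul 6 (KA qat14 qat24 qat26)))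 0)))) (Nat.add (Nat.mul w25 (Nat.add (Nat.mul w25 (Nat.mul 3 (KA qat14 qat25 qat25))) (Nat.add (Nat.mul w26 (Nat.mul 6 (KA qat14 qat25 qat26))) 0))) (Nat.add (Nat.mul w26 (Nat.add (Nat.mul w26 (Nat.mul 3 (KA qat14 qat26 qat26))) (0))) 0)))))))))))))

/-- Terms with least index 15. -/
noncomputable def qa15 (w15 w16 w17 w18 w19 w20 w21 w22 w23 w24 w25 w26 : Nat) : Nat :=
  Nat.mul w15 (Nat.add (Nat.mul w15 (Nat.add (Nat.mul w15 (KA qat15 qat15 qat15)) (Nat.add (Nat.mul w16 (Nat.mul 3 (KA qat15 qat15 qat16))) (Nat.add (Nat.mul w17 (Nat.mul 3 (KA qat15 qat15 qat17))) (Nat.add (Nat.mul w18 (Nat.mul 3 (KA qat15 qat15 qat18))) (Nat.add (Nat.mul w19 (Nat.mul 3 (KA qat15 qat15 qat19))) (Nat.add (Nat.mul w20 (Nat.mul 3 (KA qat15 qat15 qat20))) (Nat.add (Nat.mul w21 (Nat.mul 3 (KA qat15 qat15 qat21))) (Nat.add (Nat.mul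 w22 (Nat.mul 3 (KA qat15 qat15 qat22))) (Nat.add (Nat.mul w23 (Nat.mul 3 (KA qat15 qat15 qat23))) (Nat.add (Nat.mul w24 (Nat.mul 3 (KA qat15 qat15 qat24))) (Nat.add (Nat.mul w25 (Nat.mul 3 (KA qat15 qat15 qat25))) (Nat.add (Nat.mul w26 (Nat.mul 3 (KA qat15 qat15 qat26))) 0))))))))))))) (Nat.add (Nat.mul w16 (Nat.add (Nat.mul w16 (Nat.mul 3 (KA qat15 qat16 qat16))) (Nat.add (Nat.mul w17 (Nat.mul 6 (KA qat15 qat16 qat17))) (Nat.add (Nat.mul w18 (Nat.mul 6 (KA qat15 qat16 qat18))) (Nat.add (Nat.mul w19 (Nat.mul 6 (KA qat15 qat16 qat19))) (Nat.add (Nat.mul w20 (Nat.mul 6 (KA qat15 qat16 qat20))) (Nat.add (Nat.mul w21 (Nat.mul 6 (KA qat15 qat16 qat21))) (Nat.add (Nat.mul w22 (Nat.mul 6 (KA qat15 qat16 qat22))) (Nat.add (Nat.mul w23 (Nat.mul 6 (KA qat15 qat16 qat23))) (Nat.add (Nat.mul w24 (Nat.mul 6 (KA qat15 qat16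 qat24))) (Nat.add (Nat.mul w25 (Nat.mul 6 (KA qat15 qat16 qat25))) (Nat.add (Nat.mul w26 (Nat.mul 6 (KA qat15 qat16 qat26))) 0)))))))))))) (Nat.add (Nat.mul w17 (Nat.add (Nat.mul w17 (Nat.mul 3 (KA qat15 qat17 qat17))) (Nat.add (Nat.mul w18 (Nat.mul 6 (KA qat15 qat17 qat18))) (Nat.add (Nat.mul w19 (Nat.mul 6 (KA qat15 qat17 qat19))) (Nat.add (Nat.mul w20 (Nat.mul 6 (KA qat15 qat17 qat20))) (Nat.add (Nat.mul w21 (Nat.mul 6 (KA qat15 qat17 qat21))) (Nat.add (Nat.mul w22 (Nat.mul 6 (KA qat15 qat17 qat22))) (Nat.add (Nat.mul w23 (Nat.mul 6 (KA qat15 qat17 qat23))) (Nat.add (Nat.mul w24 (Nat.mul 6 (KA qat15 qat17 qat24))) (Nat.add (Nat.mul w25 (Nat.mul 6 (KA qat15 qat17 qat25))) (Nat.add (Nat.mul w26 (Nat.mul 6 (KA qat15 qat17 qat26))) 0))))))))))) (Nat.add (Nat.mul w18 (Nat.add (Nat.mul w18 (Nat.mul 3 (KA qat15 qat18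 qat18))) (Nat.add (Nat.mul w19 (Nat.mul 6 (KA qat15 qat18 qat19))) (Nat.add (Nat.mul w20 (Nat.mul 6 (KA qat15 qat18 qat20))) (Nat.add (Nat.mul w21 (Nat.mul 6 (KA qat15 qat18 qat21))) (Nat.add (Nat.mul w22 (Nat.mul 6 (KA qat15 qat18 qat22))) (Nat.add (Nat.mul w23 (Nat.mul 6 (KA qat15 qat18 qat23))) (Nat.add (Nat.mul w24 (Nat.mul 6 (KA qat15 qat18 qat24))) (Nat.add (Nat.mul w25 (Nat.mul 6 (KA qat15 qat18 qat25))) (Nat.add (Nat.mul w26 (Nat.mul 6 (KA qat15 qat18 qat26))) 0)))))))))) (Nat.add (Nat.mul w19 (Nat.add (Nat.mul w19 (Nat.mul 3 (KA qat15 qat19 qat19))) (Nat.add (Nat.mul w20 (Nat.mul 6 (KA qat15 qat19 qat20))) (Nat.add (Nat.mul w21 (Nat.mul 6 (KA qat15 qat19 qat21))) (Nat.add (Nat.mul w22 (Nat.mul 6 (KA qat15 qat19 qat22))) (Nat.add (Nat.mul w23 (Nat.mul 6 (KA qat15 qat19 qat23))) (Nat.add (Nat.mul w24 (Nat.mul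 6 (KA qat15 qat19 qat24))) (Nat.add (Nat.mul w25 (Nat.mul 6 (KA qat15 qat19 qat25))) (Nat.add (Nat.mul w26 (Nat.mul 6 (KA qat15 qat19 qat26))) 0))))))))) (Nat.add (Nat.mul w20 (Nat.add (Nat.mul w20 (Nat.mul 3 (KA qat15 qat20 qat20))) (Nat.add (Nat.mul w21 (Nat.mul 6 (KA qat15 qat20 qat21))) (Nat.add (Nat.mul w22 (Nat.mul 6 (KA qat15 qat20 qat22))) (Nat.add (Nat.mul w23 (Nat.mul 6 (KA qat15 qat20 qat23))) (Nat.add (Nat.mul w24 (Nat.mul 6 (KA qat15 qat20 qat24))) (Nat.add (Nat.mul w25 (Nat.mul 6 (KA qat15 qat20 qat25))) (Nat.add (Nat.mul w26 (Nat.mul 6 (KA qat15 qat20 qat26))) 0)))))))) (Nat.add (Nat.mul w21 (Nat.add (Nat.mul w21 (Nat.mul 3 (KA qat15 qat21 qat21))) (Nat.add (Nat.mul w22 (Nat.mul 6 (KA qat15 qat21 qat22))) (Nat.add (Nat.mul w23 (Nat.mul 6 (KA qat15 qat21 qat23))) (Nat.add (Nat.mul w24 (Nat.mul 6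 (KA qat15 qat21 qat24))) (Nat.add (Nat.mul w25 (Nat.mul 6 (KA qat15 qat21 qat25))) (Nat.add (Nat.mul w26 (Nat.mul 6 (KA qat15 qat21 qat26))) 0))))))) (Nat.add (Nat.mul w22 (Nat.add (Nat.mul w22 (Nat.mul 3 (KA qat15 qat22 qat22))) (Nat.add (Nat.mul w23 (Nat.mul 6 (KA qat15 qat22 qat23))) (Nat.add (Nat.mul w24 (Nat.mul 6 (KA qat15 qat22 qat24))) (Nat.add (Nat.mul w25 (Nat.mul 6 (KA qat15 qat22 qat25))) (Nat.add (Nat.mul w26 (Nat.mul 6 (KA qat15 qat22 qat26))) 0)))))) (Nat.add (Nat.mul w23 (Nat.add (Nat.mul w23 (Nat.mul 3 (KA qat15 qat23 qat23))) (Nat.add (Nat.mul w24 (Nat.mul 6 (KA qat15 qat23 qat24))) (Nat.add (Nat.mul w25 (Nat.mul 6 (KA qat15 qat23 qat25))) (Nat.add (Nat.mul w26 (Nat.mul 6 (KA qat15 qat23 qat26))) 0))))) (Nat.add (Nat.mul w24 (Nat.add (Nat.mul w24 (Nat.mul 3 (KA qat15 qat24 qat24))) (Nat.add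 (Nat.mul w25 (Nat.mul 6 (KA qat15 qat24 qat25))) (Nat.add (Nat.mul w26 (Nat.mul 6 (KA qat15 qat24 qat26))) 0)))) (Nat.add (Nat.mul w25 (Nat.add (Nat.mul w25 (Nat.mul 3 (KA qat15 qat25 qat25))) (Nat.add (Nat.mul w26 (Nat.mul 6 (KA qat15 qat25 qat26))) 0))) (Nat.add (Nat.mul w26 (Nat.add (Nat.mul w26 (Nat.mul 3 (KA qat15 qat26 qat26))) (0))) 0))))))))))))

/-- Terms with least index 16. -/
noncomputable def qa16 (w16 w17 w18 w19 w20 w21 w22 w23 w24 w25 w26 : Nat) : Nat :=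
  Nat.mul w16 (Nat.add (Nat.mul w16 (Nat.add (Nat.mul w16 (KA qat16 qat16 qat16)) (Nat.add (Nat.mul w17 (Nat.mul 3 (KA qat16 qat16 qat17))) (Nat.add (Nat.mul w18 (Nat.mul 3 (KA qat16 qat16 qat18))) (Nat.add (Nat.mul w19 (Nat.mul 3 (KA qat16 qat16 qat19))) (Nat.add (Nat.mul w20 (Nat.mul 3 (KA qat16 qat16 qat20))) (Nat.add (Nat.mul w21 (Nat.mul 3 (KA qat16 qat16 qat21))) (Nat.add (Nat.mul w22 (Nat.mul 3 (KA qat16 qat16 qat22))) (Nat.add (Nat.mul w23 (Nat.mul 3 (KA qat16 qat16 qat23))) (Nat.add (Nat.mul w24 (Nat.mul 3 (KA qat16 qat16 qat24))) (Nat.add (Nat.mul w25 (Nat.mul 3 (KA qat16 qat16 qat25))) (Nat.add (Nat.mul w26 (Nat.mul 3 (KA qat16 qat16 qat26))) 0)))))))))))) (Nat.add (Nat.mul w17 (Nat.add (Nat.mul w17 (Nat.mul 3 (KA qat16 qat17 qat17))) (Nat.add (Nat.mul w18 (Nat.mul 6 (KA qat16 qat17 qat18))) (Nat.add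 (Nat.mul w19 (Nat.mul 6 (KA qat16 qat17 qat19))) (Nat.add (Nat.mul w20 (Nat.mul 6 (KA qat16 qat17 qat20))) (Nat.add (Nat.mul w21 (Nat.mul 6 (KA qat16 qat17 qat21))) (Nat.add (Nat.mul w22 (Nat.mul 6 (KA qat16 qat17 qat22))) (Nat.add (Nat.mul w23 (Nat.mul 6 (KA qat16 qat17 qat23))) (Nat.add (Nat.mul w24 (Nat.mul 6 (KA qat16 qat17 qat24))) (Nat.add (Nat.mul w25 (Nat.mul 6 (KA qat16 qat17 qat25))) (Nat.add (Nat.mul w26 (Nat.mul 6 (KA qat16 qat17 qat26))) 0))))))))))) (Nat.add (Nat.mul w18 (Nat.add (Nat.mul w18 (Nat.mul 3 (KA qat16 qat18 qat18))) (Nat.add (Nat.mul w19 (Nat.mul 6 (KA qat16 qat18 qat19))) (Nat.add (Nat.mul w20 (Nat.mul 6 (KA qat16 qat18 qat20))) (Nat.add (Nat.mul w21 (Nat.mul 6 (KA qat16 qat18 qat21))) (Nat.add (Nat.mul w22 (Nat.mul 6 (KA qat16 qat18 qat22))) (Nat.add (Nat.mul w23 (Nat.mul 6 (KA qat16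 qat18 qat23))) (Nat.add (Nat.mul w24 (Nat.mul 6 (KA qat16 qat18 qat24))) (Nat.add (Nat.mul w25 (Nat.mul 6 (KA qat16 qat18 qat25))) (Nat.add (Nat.mul w26 (Nat.mul 6 (KA qat16 qat18 qat26))) 0)))))))))) (Nat.add (Nat.mul w19 (Nat.add (Nat.mul w19 (Nat.mul 3 (KA qat16 qat19 qat19))) (Nat.add (Nat.mul w20 (Nat.mul 6 (KA qat16 qat19 qat20))) (Nat.add (Nat.mul w21 (Nat.mul 6 (KA qat16 qat19 qat21))) (Nat.add (Nat.mul w22 (Nat.mul 6 (KA qat16 qat19 qat22))) (Nat.add (Nat.mul w23 (Nat.mul 6 (KA qat16 qat19 qat23))) (Nat.add (Nat.mul w24 (Nat.mul 6 (KA qat16 qat19 qat24))) (Nat.add (Nat.mul w25 (Nat.mul 6 (KA qat16 qat19 qat25))) (Nat.add (Nat.mul w26 (Nat.mul 6 (KA qat16 qat19 qat26))) 0))))))))) (Nat.add (Nat.mul w20 (Nat.add (Nat.mul w20 (Nat.mul 3 (KA qat16 qat20 qat20))) (Nat.add (Nat.mul w21 (Nat.mul 6 (KA qat16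 qat20 qat21))) (Nat.add (Nat.mul w22 (Nat.mul 6 (KA qat16 qat20 qat22))) (Nat.add (Nat.mul w23 (Nat.mul 6 (KA qat16 qat20 qat23))) (Nat.add (Nat.mul w24 (Nat.mul 6 (KA qat16 qat20 qat24))) (Nat.add (Nat.mul w25 (Nat.mul 6 (KA qat16 qat20 qat25))) (Nat.add (Nat.mul w26 (Nat.mul 6 (KA qat16 qat20 qat26))) 0)))))))) (Nat.add (Nat.mul w21 (Nat.add (Nat.mul w21 (Nat.mul 3 (KA qat16 qat21 qat21))) (Nat.add (Nat.mul w22 (Nat.mul 6 (KA qat16 qat21 qat22))) (Nat.add (Nat.mul w23 (Nat.mul 6 (KA qat16 qat21 qat23))) (Nat.add (Nat.mul w24 (Nat.mul 6 (KA qat16 qat21 qat24))) (Nat.add (Nat.mul w25 (Nat.mul 6 (KA qat16 qat21 qat25))) (Nat.add (Nat.mul w26 (Nat.mul 6 (KA qat16 qat21 qat26))) 0))))))) (Nat.add (Nat.mul w22 (Nat.add (Nat.mul w22 (Nat.mul 3 (KA qat16 qat22 qat22))) (Nat.add (Nat.mul w23 (Nat.mul 6 (KA qat16 qat22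 qat23))) (Nat.add (Nat.mul w24 (Nat.mul 6 (KA qat16 qat22 qat24))) (Nat.add (Nat.mul w25 (Nat.mul 6 (KA qat16 qat22 qat25))) (Nat.add (Nat.mul w26 (Nat.mul 6 (KA qat16 qat22 qat26))) 0)))))) (Nat.add (Nat.mul w23 (Nat.add (Nat.mul w23 (Nat.mul 3 (KA qat16 qat23 qat23))) (Nat.add (Nat.mul w24 (Nat.mul 6 (KA qat16 qat23 qat24))) (Nat.add (Nat.mul w25 (Nat.mul 6 (KA qat16 qat23 qat25))) (Nat.add (Nat.mul w26 (Nat.mul 6 (KA qat16 qat23 qat26))) 0))))) (Nat.add (Nat.mul w24 (Nat.add (Nat.mul w24 (Nat.mul 3 (KA qat16 qat24 qat24))) (Nat.add (Nat.mul w25 (Nat.mul 6 (KA qat16 qat24 qat25))) (Nat.add (Nat.mul w26 (Nat.mul 6 (KA qat16 qat24 qat26))) 0)))) (Nat.add (Nat.mul w25 (Nat.add (Nat.mul w25 (Nat.mul 3 (KA qat16 qat25 qat25))) (Nat.add (Nat.mul w26 (Nat.mul 6 (KA qat16 qat25 qat26))) 0))) (Nat.add (Nat.mul w26 (Nat.add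 (Nat.mul w26 (Nat.mul 3 (KA qat16 qat26 qat26))) (0))) 0)))))))))))

/-- Terms with least index 17. -/
noncomputable def qa17 (w17 w18 w19 w20 w21 w22 w23 w24 w25 w26 : Nat) : Nat :=
  Nat.mul w17 (Nat.add (Nat.mul w17 (Nat.add (Nat.mul w17 (KA qat17 qat17 qat17)) (Nat.add (Nat.mul w18 (Nat.mul 3 (KA qat17 qat17 qat18))) (Nat.add (Nat.mul w19 (Nat.mul 3 (KA qat17 qat17 qat19))) (Nat.add (Nat.mul w20 (Nat.mul 3 (KA qat17 qat17 qat20))) (Nat.add (Nat.mul w21 (Nat.mul 3 (KA qat17 qat17 qat21))) (Nat.add (Nat.mul w22 (Nat.mul 3 (KA qat17 qat17 qat22))) (Nat.add (Nat.mul w23 (Nat.mul 3 (KA qat17 qat17 qat23))) (Nat.add (Nat.mul w24 (Nat.mul 3 (KA qat17 qat17 qat24))) (Nat.add (Nat.mul w25 (Nat.mul 3 (KA qat17 qat17 qat25))) (Nat.add (Nat.mul w26 (Nat.mul 3 (KA qat17 qat17 qat26))) 0))))))))))) (Nat.add (Nat.mul w18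 (Nat.add (Nat.mul w18 (Nat.mul 3 (KA qat17 qat18 qat18))) (Nat.add (Nat.mul w19 (Nat.mul 6 (KA qat17 qat18 qat19))) (Nat.add (Nat.mul w20 (Nat.mul 6 (KA qat17 qat18 qat20))) (Nat.add (Nat.mul w21 (Nat.mul 6 (KA qat17 qat18 qat21))) (Nat.add (Nat.mul w22 (Nat.mul 6 (KA qat17 qat18 qat22))) (Nat.add (Nat.mul w23 (Nat.mul 6 (KA qat17 qat18 qat23))) (Nat.add (Nat.mul w24 (Nat.mul 6 (KA qat17 qat18 qat24))) (Nat.add (Nat.mul w25 (Nat.mul 6 (KA qat17 qat18 qat25))) (Nat.add (Nat.mul w26 (Nat.mul 6 (KA qat17 qat18 qat26))) 0)))))))))) (Nat.add (Nat.mul w19 (Nat.add (Nat.mul w19 (Nat.mul 3 (KA qat17 qat19 qat19))) (Nat.add (Nat.mul w20 (Nat.mul 6 (KA qat17 qat19 qat20))) (Nat.add (Nat.mul w21 (Nat.mul 6 (KA qat17 qat19 qat21))) (Nat.add (Nat.mul w22 (Nat.mul 6 (KA qat17 qat19 qat22))) (Nat.add (Nat.mul w23 (Nat.mul 6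 (KA qat17 qat19 qat23))) (Nat.add (Nat.mul w24 (Nat.mul 6 (KA qat17 qat19 qat24))) (Nat.add (Nat.mul w25 (Nat.mul 6 (KA qat17 qat19 qat25))) (Nat.add (Nat.mul w26 (Nat.mul 6 (KA qat17 qat19 qat26))) 0))))))))) (Nat.add (Nat.mul w20 (Nat.add (Nat.mul w20 (Nat.mul 3 (KA qat17 qat20 qat20))) (Nat.add (Nat.mul w21 (Nat.mul 6 (KA qat17 qat20 qat21))) (Nat.add (Nat.mul w22 (Nat.mul 6 (KA qat17 qat20 qat22))) (Nat.add (Nat.mul w23 (Nat.mul 6 (KA qat17 qat20 qat23))) (Nat.add (Nat.mul w24 (Nat.mul 6 (KA qat17 qat20 qat24))) (Nat.add (Nat.mul w25 (Nat.mul 6 (KA qat17 qat20 qat25))) (Nat.add (Nat.mul w26 (Nat.mul 6 (KA qat17 qat20 qat26))) 0)))))))) (Nat.add (Nat.mul w21 (Nat.add (Nat.mul w21 (Nat.mul 3 (KA qat17 qat21 qat21))) (Nat.add (Nat.mul w22 (Nat.mul 6 (KA qat17 qat21 qat22))) (Nat.add (Nat.mul w23 (Nat.mul 6 (KA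 qat17 qat21 qat23))) (Nat.add (Nat.mul w24 (Nat.mul 6 (KA qat17 qat21 qat24))) (Nat.add (Nat.mul w25 (Nat.mul 6 (KA qat17 qat21 qat25))) (Nat.add (Nat.mul w26 (Nat.mul 6 (KA qat17 qat21 qat26))) 0))))))) (Nat.add (Nat.mul w22 (Nat.add (Nat.mul w22 (Nat.mul 3 (KA qat17 qat22 qat22))) (Nat.add (Nat.mul w23 (Nat.mul 6 (KA qat17 qat22 qat23))) (Nat.add (Nat.mul w24 (Nat.mul 6 (KA qat17 qat22 qat24))) (Nat.add (Nat.mul w25 (Nat.mul 6 (KA qat17 qat22 qat25))) (Nat.add (Nat.mul w26 (Nat.mul 6 (KA qat17 qat22 qat26))) 0)))))) (Nat.add (Nat.mul w23 (Nat.add (Nat.mul w23 (Nat.mul 3 (KA qat17 qat23 qat23))) (Nat.add (Nat.mul w24 (Nat.mul 6 (KA qat17 qat23 qat24))) (Nat.add (Nat.mul w25 (Nat.mul 6 (KA qat17 qat23 qat25))) (Nat.add (Nat.mul w26 (Nat.mul 6 (KA qat17 qat23 qat26))) 0))))) (Nat.add (Nat.mul w24 (Nat.add (Nat.mul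 w24 (Nat.mul 3 (KA qat17 qat24 qat24))) (Nat.add (Nat.mul w25 (Nat.mul 6 (KA qat17 qat24 qat25))) (Nat.add (Nat.mul w26 (Nat.mul 6 (KA qat17 qat24 qat26))) 0)))) (Nat.add (Nat.mul w25 (Nat.add (Nat.mul w25 (Nat.mul 3 (KA qat17 qat25 qat25))) (Nat.add (Nat.mul w26 (Nat.mul 6 (KA qat17 qat25 qat26))) 0))) (Nat.add (Nat.mul w26 (Nat.add (Nat.mul w26 (Nat.mul 3 (KA qat17 qat26 qat26))) (0))) 0))))))))))

/-- Terms with least index 18. -/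
noncomputable def qa18 (w18 w19 w20 w21 w22 w23 w24 w25 w26 : Nat) : Nat :=
  Nat.mul w18 (Nat.add (Nat.mul w18 (Nat.add (Nat.mul w18 (KA qat18 qat18 qat18)) (Nat.add (Nat.mul w19 (Nat.mul 3 (KA qat18 qat18 qat19))) (Nat.add (Nat.mul w20 (Nat.mul 3 (KA qat18 qat18 qat20))) (Nat.add (Nat.mul w21 (Nat.mul 3 (KA qat18 qat18 qat21))) (Nat.add (Nat.mul w22 (Nat.mul 3 (KA qat18 qat18 qat22))) (Nat.add (Nat.mul w23 (Nat.mul 3 (KA qat18 qat18 qat23))) (Nat.add (Nat.mul w24 (Nat.mul 3 (KA qat18 qat18 qat24))) (Nat.add (Nat.mul w25 (Nat.mul 3 (KA qat18 qat18 qat25))) (Nat.add (Nat.mul w26 (Nat.mul 3 (KA qat18 qat18 qat26))) 0)))))))))) (Nat.add (Nat.mul w19 (Nat.add (Nat.mul w19 (Nat.mul 3 (KA qat18 qat19 qat19))) (Nat.add (Nat.mul w20 (Nat.mul 6 (KA qat18 qat19 qat20))) (Nat.add (Nat.mul w21 (Nat.mul 6 (KA qat18 qat19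 qat21))) (Nat.add (Nat.mul w22 (Nat.mul 6 (KA qat18 qat19 qat22))) (Nat.add (Nat.mul w23 (Nat.mul 6 (KA qat18 qat19 qat23))) (Nat.add (Nat.mul w24 (Nat.mul 6 (KA qat18 qat19 qat24))) (Nat.add (Nat.mul w25 (Nat.mul 6 (KA qat18 qat19 qat25))) (Nat.add (Nat.mul w26 (Nat.mul 6 (KA qat18 qat19 qat26))) 0))))))))) (Nat.add (Nat.mul w20 (Nat.add (Nat.mul w20 (Nat.mul 3 (KA qat18 qat20 qat20))) (Nat.add (Nat.mul w21 (Nat.mul 6 (KA qat18 qat20 qat21))) (Nat.add (Nat.mul w22 (Nat.mul 6 (KA qat18 qat20 qat22))) (Nat.add (Nat.mul w23 (Nat.mul 6 (KA qat18 qat20 qat23))) (Nat.add (Nat.mul w24 (Nat.mul 6 (KA qat18 qat20 qat24))) (Nat.add (Nat.mul w25 (Nat.mul 6 (KA qat18 qat20 qat25))) (Nat.add (Nat.mul w26 (Nat.mul 6 (KA qat18 qat20 qat26))) 0)))))))) (Nat.add (Nat.mul w21 (Nat.add (Nat.mul w21 (Nat.mul 3 (KA qat18 qat21 qat21)))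 (Nat.add (Nat.mul w22 (Nat.mul 6 (KA qat18 qat21 qat22))) (Nat.add (Nat.mul w23 (Nat.mul 6 (KA qat18 qat21 qat23))) (Nat.add (Nat.mul w24 (Nat.mul 6 (KA qat18 qat21 qat24))) (Nat.add (Nat.mul w25 (Nat.mul 6 (KA qat18 qat21 qat25))) (Nat.add (Nat.mul w26 (Nat.mul 6 (KA qat18 qat21 qat26))) 0))))))) (Nat.add (Nat.mul w22 (Nat.add (Nat.mul w22 (Nat.mul 3 (KA qat18 qat22 qat22))) (Nat.add (Nat.mul w23 (Nat.mul 6 (KA qat18 qat22 qat23))) (Nat.add (Nat.mul w24 (Nat.mul 6 (KA qat18 qat22 qat24))) (Nat.add (Nat.mul w25 (Nat.mul 6 (KA qat18 qat22 qat25))) (Nat.add (Nat.mul w26 (Nat.mul 6 (KA qat18 qat22 qat26))) 0)))))) (Nat.add (Nat.mul w23 (Nat.add (Nat.mul w23 (Nat.mul 3 (KA qat18 qat23 qat23))) (Nat.add (Nat.mul w24 (Nat.mul 6 (KA qat18 qat23 qat24))) (Nat.add (Nat.mul w25 (Nat.mul 6 (KA qat18 qat23 qat25))) (Nat.add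 (Nat.mul w26 (Nat.mul 6 (KA qat18 qat23 qat26))) 0))))) (Nat.add (Nat.mul w24 (Nat.add (Nat.mul w24 (Nat.mul 3 (KA qat18 qat24 qat24))) (Nat.add (Nat.mul w25 (Nat.mul 6 (KA qat18 qat24 qat25))) (Nat.add (Nat.mul w26 (Nat.mul 6 (KA qat18 qat24 qat26))) 0)))) (Nat.add (Nat.mul w25 (Nat.add (Nat.mul w25 (Nat.mul 3 (KA qat18 qat25 qat25))) (Nat.add (Nat.mul w26 (Nat.mul 6 (KA qat18 qat25 qat26))) 0))) (Nat.add (Nat.mul w26 (Nat.add (Nat.mul w26 (Nat.mul 3 (KA qat18 qat26 qat26))) (0))) 0)))))))))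

/-- Terms with least index 19. -/
noncomputable def qa19 (w19 w20 w21 w22 w23 w24 w25 w26 : Nat) : Nat :=
  Nat.mul w19 (Nat.add (Nat.mul w19 (Nat.add (Nat.mul w19 (KA qat19 qat19 qat19)) (Nat.add (Nat.mul w20 (Nat.mul 3 (KA qat19 qat19 qat20))) (Nat.add (Nat.mul w21 (Nat.mul 3 (KA qat19 qat19 qat21))) (Nat.add (Nat.mul w22 (Nat.mul 3 (KA qat19 qat19 qat22))) (Nat.add (Nat.mul w23 (Nat.mul 3 (KA qat19 qat19 qat23))) (Nat.add (Nat.mul w24 (Nat.mul 3 (KA qat19 qat19 qat24))) (Nat.add (Nat.mul w25 (Nat.mul 3 (KA qat19 qat19 qat25))) (Nat.add (Nat.mul w26 (Nat.mul 3 (KA qat19 qat19 qat26))) 0))))))))) (Nat.add (Nat.mul w20 (Nat.add (Nat.mul w20 (Nat.mul 3 (KA qat19 qat20 qat20))) (Nat.add (Nat.mul w21 (Nat.mul 6 (KA qat19 qat20 qat21))) (Nat.add (Nat.mul w22 (Nat.mul 6 (KA qat19 qat20 qat22))) (Nat.add (Nat.mul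 w23 (Nat.mul 6 (KA qat19 qat20 qat23))) (Nat.add (Nat.mul w24 (Nat.mul 6 (KA qat19 qat20 qat24))) (Nat.add (Nat.mul w25 (Nat.mul 6 (KA qat19 qat20 qat25))) (Nat.add (Nat.mul w26 (Nat.mul 6 (KA qat19 qat20 qat26))) 0)))))))) (Nat.add (Nat.mul w21 (Nat.add (Nat.mul w21 (Nat.mul 3 (KA qat19 qat21 qat21))) (Nat.add (Nat.mul w22 (Nat.mul 6 (KA qat19 qat21 qat22))) (Nat.add (Nat.mul w23 (Nat.mul 6 (KA qat19 qat21 qat23))) (Nat.add (Nat.mul w24 (Nat.mul 6 (KA qat19 qat21 qat24))) (Nat.add (Nat.mul w25 (Nat.mul 6 (KA qat19 qat21 qat25))) (Nat.add (Nat.mul w26 (Nat.mul 6 (KA qat19 qat21 qat26))) 0))))))) (Nat.add (Nat.mul w22 (Nat.add (Nat.mul w22 (Nat.mul 3 (KA qat19 qat22 qat22))) (Nat.add (Nat.mul w23 (Nat.mul 6 (KA qat19 qat22 qat23))) (Nat.add (Nat.mul w24 (Nat.mul 6 (KA qat19 qat22 qat24))) (Nat.add (Nat.mul w25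 (Nat.mul 6 (KA qat19 qat22 qat25))) (Nat.add (Nat.mul w26 (Nat.mul 6 (KA qat19 qat22 qat26))) 0)))))) (Nat.add (Nat.mul w23 (Nat.add (Nat.mul w23 (Nat.mul 3 (KA qat19 qat23 qat23))) (Nat.add (Nat.mul w24 (Nat.mul 6 (KA qat19 qat23 qat24))) (Nat.add (Nat.mul w25 (Nat.mul 6 (KA qat19 qat23 qat25))) (Nat.add (Nat.mul w26 (Nat.mul 6 (KA qat19 qat23 qat26))) 0))))) (Nat.add (Nat.mul w24 (Nat.add (Nat.mul w24 (Nat.mul 3 (KA qat19 qat24 qat24))) (Nat.add (Nat.mul w25 (Nat.mul 6 (KA qat19 qat24 qat25))) (Nat.add (Nat.mul w26 (Nat.mul 6 (KA qat19 qat24 qat26))) 0)))) (Nat.add (Nat.mul w25 (Nat.add (Nat.mul w25 (Nat.mul 3 (KA qat19 qat25 qat25))) (Nat.add (Nat.mul w26 (Nat.mul 6 (KA qat19 qat25 qat26))) 0))) (Nat.add (Nat.mul w26 (Nat.add (Nat.mul w26 (Nat.mul 3 (KA qat19 qat26 qat26))) (0))) 0))))))))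

/-- Terms with least index 20. -/
noncomputable def qa20 (w20 w21 w22 w23 w24 w25 w26 : Nat) : Nat :=
  Nat.mul w20 (Nat.add (Nat.mul w20 (Nat.add (Nat.mul w20 (KA qat20 qat20 qat20)) (Nat.add (Nat.mul w21 (Nat.mul 3 (KA qat20 qat20 qat21))) (Nat.add (Nat.mul w22 (Nat.mul 3 (KA qat20 qat20 qat22))) (Nat.add (Nat.mul w23 (Nat.mul 3 (KA qat20 qat20 qat23))) (Nat.add (Nat.mul w24 (Nat.mul 3 (KA qat20 qat20 qat24))) (Nat.add (Nat.mul w25 (Nat.mul 3 (KA qat20 qat20 qat25))) (Nat.add (Nat.mul w26 (Nat.mul 3 (KA qat20 qat20 qat26))) 0)))))))) (Nat.add (Nat.mul w21 (Nat.add (Nat.mul w21 (Nat.mul 3 (KA qat20 qat21 qat21))) (Nat.add (Nat.mul w22 (Nat.mul 6 (KA qat20 qat21 qat22))) (Nat.add (Nat.mul w23 (Nat.mul 6 (KA qat20 qat21 qat23))) (Nat.add (Nat.mul w24 (Nat.mul 6 (KA qat20 qat21 qat24))) (Nat.add (Nat.mul w25 (Nat.mul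 6 (KA qat20 qat21 qat25))) (Nat.add (Nat.mul w26 (Nat.mul 6 (KA qat20 qat21 qat26))) 0))))))) (Nat.add (Nat.mul w22 (Nat.add (Nat.mul w22 (Nat.mul 3 (KA qat20 qat22 qat22))) (Nat.add (Nat.mul w23 (Nat.mul 6 (KA qat20 qat22 qat23))) (Nat.add (Nat.mul w24 (Nat.mul 6 (KA qat20 qat22 qat24))) (Nat.add (Nat.mul w25 (Nat.mul 6 (KA qat20 qat22 qat25))) (Nat.add (Nat.mul w26 (Nat.mul 6 (KA qat20 qat22 qat26))) 0)))))) (Nat.add (Nat.mul w23 (Nat.add (Nat.mul w23 (Nat.mul 3 (KA qat20 qat23 qat23))) (Nat.add (Nat.mul w24 (Nat.mul 6 (KA qat20 qat23 qat24))) (Nat.add (Nat.mul w25 (Nat.mul 6 (KA qat20 qat23 qat25))) (Nat.add (Nat.mul w26 (Nat.mul 6 (KA qat20 qat23 qat26))) 0))))) (Nat.add (Nat.mul w24 (Nat.add (Nat.mul w24 (Nat.mul 3 (KA qat20 qat24 qat24))) (Nat.add (Nat.mul w25 (Nat.mul 6 (KA qat20 qat24 qat25))) (Nat.add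 (Nat.mul w26 (Nat.mul 6 (KA qat20 qat24 qat26))) 0)))) (Nat.add (Nat.mul w25 (Nat.add (Nat.mul w25 (Nat.mul 3 (KA qat20 qat25 qat25))) (Nat.add (Nat.mul w26 (Nat.mul 6 (KA qat20 qat25 qat26))) 0))) (Nat.add (Nat.mul w26 (Nat.add (Nat.mul w26 (Nat.mul 3 (KA qat20 qat26 qat26))) (0))) 0)))))))

/-- Terms with least index 21. -/
noncomputable def qa21 (w21 w22 w23 w24 w25 w26 : Nat) : Nat :=
  Nat.mul w21 (Nat.add (Nat.mul w21 (Nat.add (Nat.mul w21 (KA qat21 qat21 qat21)) (Nat.add (Nat.mul w22 (Nat.mul 3 (KA qat21 qat21 qat22))) (Nat.add (Nat.mul w23 (Nat.mul 3 (KA qat21 qat21 qat23))) (Nat.add (Nat.mul w24 (Nat.mul 3 (KA qat21 qat21 qat24))) (Nat.add (Nat.mul w25 (Nat.mul 3 (KA qat21 qat21 qat25))) (Nat.add (Nat.mul w26 (Nat.mul 3 (KA qat21 qat21 qat26))) 0))))))) (Nat.add (Nat.mul w22 (Nat.add (Nat.mul w22 (Nat.mul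 3 (KA qat21 qat22 qat22))) (Nat.add (Nat.mul w23 (Nat.mul 6 (KA qat21 qat22 qat23))) (Nat.add (Nat.mul w24 (Nat.mul 6 (KA qat21 qat22 qat24))) (Nat.add (Nat.mul w25 (Nat.mul 6 (KA qat21 qat22 qat25))) (Nat.add (Nat.mul w26 (Nat.mul 6 (KA qat21 qat22 qat26))) 0)))))) (Nat.add (Nat.mul w23 (Nat.add (Nat.mul w23 (Nat.mul 3 (KA qat21 qat23 qat23))) (Nat.add (Nat.mul w24 (Nat.mul 6 (KA qat21 qat23 qat24))) (Nat.add (Nat.mul w25 (Nat.mul 6 (KA qat21 qat23 qat25))) (Nat.add (Nat.mul w26 (Nat.mul 6 (KA qat21 qat23 qat26))) 0))))) (Nat.add (Nat.mul w24 (Nat.add (Nat.mul w24 (Nat.mul 3 (KA qat21 qat24 qat24))) (Nat.add (Nat.mul w25 (Nat.mul 6 (KA qat21 qat24 qat25))) (Nat.add (Nat.mul w26 (Nat.mul 6 (KA qat21 qat24 qat26))) 0)))) (Nat.add (Nat.mul w25 (Nat.add (Nat.mul w25 (Nat.mul 3 (KA qat21 qat25 qat25))) (Nat.add (Nat.mul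 w26 (Nat.mul 6 (KA qat21 qat25 qat26))) 0))) (Nat.add (Nat.mul w26 (Nat.add (Nat.mul w26 (Nat.mul 3 (KA qat21 qat26 qat26))) (0))) 0))))))

/-- Terms with least index 22. -/
noncomputable def qa22 (w22 w23 w24 w25 w26 : Nat) : Nat :=
  Nat.mul w22 (Nat.add (Nat.mul w22 (Nat.add (Nat.mul w22 (KA qat22 qat22 qat22)) (Nat.add (Nat.mul w23 (Nat.mul 3 (KA qat22 qat22 qat23))) (Nat.add (Nat.mul w24 (Nat.mul 3 (KA qat22 qat22 qat24))) (Nat.add (Nat.mul w25 (Nat.mul 3 (KA qat22 qat22 qat25))) (Nat.add (Nat.mul w26 (Nat.mul 3 (KA qat22 qat22 qat26))) 0)))))) (Nat.add (Nat.mul w23 (Nat.add (Nat.mul w23 (Nat.mul 3 (KA qat22 qat23 qat23))) (Nat.add (Nat.mul w24 (Nat.mul 6 (KA qat22 qat23 qat24))) (Nat.add (Nat.mul w25 (Nat.mul 6 (KA qat22 qat23 qat25))) (Nat.add (Nat.mul w26 (Nat.mul 6 (KA qat22 qat23 qat26))) 0))))) (Nat.add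 (Nat.mul w24 (Nat.add (Nat.mul w24 (Nat.mul 3 (KA qat22 qat24 qat24))) (Nat.add (Nat.mul w25 (Nat.mul 6 (KA qat22 qat24 qat25))) (Nat.add (Nat.mul w26 (Nat.mul 6 (KA qat22 qat24 qat26))) 0)))) (Nat.add (Nat.mul w25 (Nat.add (Nat.mul w25 (Nat.mul 3 (KA qat22 qat25 qat25))) (Nat.add (Nat.mul w26 (Nat.mul 6 (KA qat22 qat25 qat26))) 0))) (Nat.add (Nat.mul w26 (Nat.add (Nat.mul w26 (Nat.mul 3 (KA qat22 qat26 qat26))) (0))) 0)))))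

/-- Terms with least index 23. -/
noncomputable def qa23 (w23 w24 w25 w26 : Nat) : Nat :=
  Nat.mul w23 (Nat.add (Nat.mul w23 (Nat.add (Nat.mul w23 (KA qat23 qat23 qat23)) (Nat.add (Nat.mul w24 (Nat.mul 3 (KA qat23 qat23 qat24))) (Nat.add (Nat.mul w25 (Nat.mul 3 (KA qat23 qat23 qat25))) (Nat.add (Nat.mul w26 (Nat.mul 3 (KA qat23 qat23 qat26))) 0))))) (Nat.add (Nat.mul w24 (Nat.add (Nat.mul w24 (Nat.mul 3 (KA qat23 qat24 qat24))) (Nat.add (Nat.mul w25 (Nat.mul 6 (KA qat23 qat24 qat25))) (Nat.add (Nat.mul w26 (Nat.mul 6 (KA qat23 qat24 qat26))) 0)))) (Nat.add (Nat.mul w25 (Nat.add (Nat.mul w25 (Nat.mul 3 (KA qat23 qat25 qat25))) (Nat.add (Nat.mul w26 (Nat.mul 6 (KA qat23 qat25 qat26))) 0))) (Nat.add (Nat.mul w26 (Nat.add (Nat.mul w26 (Nat.mul 3 (KA qat23 qat26 qat26))) (0))) 0))))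

/-- Terms with least index 24. -/
noncomputable def qa24 (w24 w25 w26 : Nat) : Nat :=
  Nat.mul w24 (Nat.add (Nat.mul w24 (Nat.add (Nat.mul w24 (KA qat24 qat24 qat24)) (Nat.add (Nat.mul w25 (Nat.mul 3 (KA qat24 qat24 qat25))) (Nat.add (Nat.mul w26 (Nat.mul 3 (KA qat24 qat24 qat26))) 0)))) (Nat.add (Nat.mul w25 (Nat.add (Nat.mul w25 (Nat.mul 3 (KA qat24 qat25 qat25))) (Nat.add (Nat.mul w26 (Nat.mul 6 (KA qat24 qat25 qat26))) 0))) (Nat.add (Nat.mul w26 (Nat.add (Nat.mul w26 (Nat.mul 3 (KA qat24 qat26 qat26))) (0))) 0)))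

/-- Terms with least index 25. -/
noncomputable def qa25 (w25 w26 : Nat) : Nat :=
  Nat.mul w25 (Nat.add (Nat.mul w25 (Nat.add (Nat.mul w25 (KA qat25 qat25 qat25)) (Nat.add (Nat.mul w26 (Nat.mul 3 (KA qat25 qat25 qat26))) 0))) (Nat.add (Nat.mul w26 (Nat.add (Nat.mul w26 (Nat.mul 3 (KA qat25 qat26 qat26))) (0))) 0))

/-- Terms with least index 26. -/
noncomputable def qa26 (w26 : Nat) : Nat :=
  Nat.mul w26 (Nat.add (Nat.mul w26 (Nat.add (Nat.mul w26 (KA qat26 qat26 qat26)) (0))) (0))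

/-- Sum over all triples. -/
noncomputable def qa (w0 w1 w2 w3 w4 w5 w6 w7 w8 w9 w10 w11 w12 w13 w14 w15 w16 w17 w18 w19 w20 w21 w22 w23 w24 w25 w26 : Nat) : Nat :=
  Nat.add (qa0 w0 w1 w2 w3 w4 w5 w6 w7 w8 w9 w10 w11 w12 w13 w14 w15 w16 w17 w18 w19 w20 w21 w22 w23 w24 w25 w26) (Nat.add (qa1 w1 w2 w3 w4 w5 w6 w7 w8 w9 w10 w11 w12 w13 w14 w15 w16 w17 w18 w19 w20 w21 w22 w23 w24 w25 w26) (Nat.add (qa2 w2 w3 w4 w5 w6 w7 w8 w9 w10 w11 w12 w13 w14 w15 w16 w17 w18 w19 w20 w21 w22 w23 w24 w25 w26) (Nat.add (qa3 w3 w4 w5 w6 w7 w8 w9 w10 w11 w12 w13 w14 w15 w16 w17 w18 w19 w20 w21 w22 w23 w24 w25 w26) (Nat.add (qa4 w4 w5 w6 w7 w8 w9 w10 w11 w12 w13 w14 w15 w16 w17 w18 w19 w20 w21 w22 w23 w24 w25 w26) (Nat.add (qa5 w5 w6 w7 w8 w9 w10 w11 w12 w13 w14 w15 w16 w17 w18 w19 w20 w21 w22 w23 w24 w25 w26) (Nat.add (qa6 w6 w7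 w8 w9 w10 w11 w12 w13 w14 w15 w16 w17 w18 w19 w20 w21 w22 w23 w24 w25 w26) (Nat.add (qa7 w7 w8 w9 w10 w11 w12 w13 w14 w15 w16 w17 w18 w19 w20 w21 w22 w23 w24 w25 w26) (Nat.add (qa8 w8 w9 w10 w11 w12 w13 w14 w15 w16 w17 w18 w19 w20 w21 w22 w23 w24 w25 w26) (Nat.add (qa9 w9 w10 w11 w12 w13 w14 w15 w16 w17 w18 w19 w20 w21 w22 w23 w24 w25 w26) (Nat.add (qa10 w10 w11 w12 w13 w14 w15 w16 w17 w18 w19 w20 w21 w22 w23 w24 w25 w26) (Nat.add (qa11 w11 w12 w13 w14 w15 w16 w17 w18 w19 w20 w21 w22 w23 w24 w25 w26) (Nat.add (qa12 w12 w13 w14 w15 w16 w17 w18 w19 w20 w21 w22 w23 w24 w25 w26) (Nat.add (qa13 w13 w14 w15 w16 w17 w18 w19 w20 w21 w22 w23 w24 w25 w26) (Nat.add (qa14 w14 w15 w16 w17 w18 w19 w20 w21 w22 w23 w24 w25 w26) (Nat.add (qa15 w15 w16 w17 w18 w19 w20 w21 w22 w23 w24 w25 w26) (Nat.add (qa16 w16 w17 w18 w19 w20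 w21 w22 w23 w24 w25 w26) (Nat.add (qa17 w17 w18 w19 w20 w21 w22 w23 w24 w25 w26) (Nat.add (qa18 w18 w19 w20 w21 w22 w23 w24 w25 w26) (Nat.add (qa19 w19 w20 w21 w22 w23 w24 w25 w26) (Nat.add (qa20 w20 w21 w22 w23 w24 w25 w26) (Nat.add (qa21 w21 w22 w23 w24 w25 w26) (Nat.add (qa22 w22 w23 w24 w25 w26) (Nat.add (qa23 w23 w24 w25 w26) (Nat.add (qa24 w24 w25 w26) (Nat.add (qa25 w25 w26) (Nat.add (qa26 w26) 0))))))))))))))))))))))))))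

/-- Sum for a packed law. -/
noncomputable def qau (v0 : Nat) : Nat :=
  st (Nat.mul (Nat.mod v0 W) (Nat.pow 3 7)) (fun w0 => st (Nat.div v0 W) (fun v1 => st (Nat.mul (Nat.mod v1 W) (Nat.pow 3 6)) (fun w1 => st (Nat.div v1 W) (fun v2 => st (Nat.mul (Nat.mod v2 W) (Nat.pow 3 5)) (fun w2 => st (Nat.div v2 W) (fun v3 => st (Nat.mul (Nat.mod v3 W) (Nat.pow 3 6)) (fun w3 => st (Nat.div v3 W) (fun v4 => st (Nat.mul (Nat.mod v4 W) (Nat.pow 3 5)) (fun w4 => st (Nat.div v4 W) (fun v5 => st (Nat.mul (Nat.mod v5 W) (Nat.pow 3 5)) (fun w5 => st (Nat.div v5 W) (fun v6 => st (Nat.mul (Nat.mod v6 W) (Nat.pow 3 6)) (fun w6 => st (Nat.div v6 W) (fun v7 => st (Nat.mul (Nat.mod v7 W) (Nat.pow 3 5)) (fun w7 => st (Nat.div v7 W) (fun v8 => st (Nat.mul (Nat.mod v8 W) (Nat.pow 3 4)) (fun w8 => st (Nat.div v8 W) (fun v9 => st (Nat.mul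 (Nat.mod v9 W) (Nat.pow 3 5)) (fun w9 => st (Nat.div v9 W) (fun v10 => st (Nat.mul (Nat.mod v10 W) (Nat.pow 3 4)) (fun w10 => st (Nat.div v10 W) (fun v11 => st (Nat.mul (Nat.mod v11 W) (Nat.pow 3 4)) (fun w11 => st (Nat.div v11 W) (fun v12 => st (Nat.mul (Nat.mod v12 W) (Nat.pow 3 5)) (fun w12 => st (Nat.div v12 W) (fun v13 => st (Nat.mul (Nat.mod v13 W) (Nat.pow 3 4)) (fun w13 => st (Nat.div v13 W) (fun v14 => st (Nat.mul (Nat.mod v14 W) (Nat.pow 3 3)) (fun w14 => st (Nat.div v14 W) (fun v15 => st (Nat.mul (Nat.mod v15 W) (Nat.pow 3 4)) (fun w15 => st (Nat.div v15 W) (fun v16 => st (Nat.mul (Nat.mod v16 W) (Nat.pow 3 3)) (fun w16 => st (Nat.div v16 W) (fun v17 => st (Nat.mul (Nat.mod v17 W) (Nat.pow 3 3)) (fun w17 => st (Nat.div v17 W) (fun v18 => st (Nat.mul (Nat.mod v18 W) (Nat.pow 3 4)) (fun w18 => st (Nat.div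 v18 W) (fun v19 => st (Nat.mul (Nat.mod v19 W) (Nat.pow 3 3)) (fun w19 => st (Nat.div v19 W) (fun v20 => st (Nat.mul (Nat.mod v20 W) (Nat.pow 3 3)) (fun w20 => st (Nat.div v20 W) (fun v21 => st (Nat.mul (Nat.mod v21 W) (Nat.pow 3 3)) (fun w21 => st (Nat.div v21 W) (fun v22 => st (Nat.mul (Nat.mod v22 W) (Nat.pow 3 2)) (fun w22 => st (Nat.div v22 W) (fun v23 => st (Nat.mul (Nat.mod v23 W) (Nat.pow 3 2)) (fun w23 => st (Nat.div v23 W) (fun v24 => st (Nat.mul (Nat.mod v24 W) (Nat.pow 3 2)) (fun w24 => st (Nat.div v24 W) (fun v25 => st (Nat.mul (Nat.mod v25 W) (Nat.pow 3 1)) (fun w25 => st (Nat.div v25 W) (fun v26 => st (Nat.mul (Nat.mod v26 W) (Nat.pow 3 0)) (fun w26 => qa w0 w1 w2 w3 w4 w5 w6 w7 w8 w9 w10 w11 w12 w13 w14 w15 w16 w17 w18 w19 w20 w21 w22 w23 w24 w25 w26)))))))))))))))))))))))))))))))))))))))))))))))))))))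

/-- One step of stage A. -/
noncomputable def fstepA (v : Nat) : Nat := st (qau v) (fun F => st (nlA F) (addz 26))

end Pool.Agent.W847.T3.Ker
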