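import Pool.Agent.W847.T3.Ker

/-!
# Explicit form of one step of stage B
-/

set_option autoImplicit false
set_option maxRecDepth 100000

namespace Pool.Agent.W847.T3.Ker

/-- Type number 0. -/
def qbt0 : List Nat := []

/-- Type number 1. -/
def qbt1 : List Nat := [1]

/-- Type number 2. -/
def qbt2 : List Nat := [2]

/-- Type number 3. -/
def qbt3 : List Nat := [3]

/-- Type number 4. -/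
def qbt4 : List Nat := [4]

/-- Type number 5. -/
def qbt5 : List Nat := [5]

/-- Type number 6. -/
def qbt6 : List Nat := [6]

/-- Type number 7. -/
def qbt7 : List Nat := [7]

/-- Type number 8. -/
def qbt8 : List Nat := [8]

/-- Type number 9. -/
def qbt9 : List Nat := [9]

/-- Type number 10. -/
def qbt10 : List Nat := [10]

/-- Type number 11. -/
def qbt11 : List Nat := [11]

/-- Type number 12. -/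
def qbt12 : List Nat := [12]

/-- Type number 13. -/
def qbt13 : List Nat := [13]

/-- Type number 14. -/
def qbt14 : List Nat := [14]

/-- Type number 15. -/
def qbt15 : List Nat := [15]

/-- Type number 16. -/
def qbt16 : List Nat := [16]

/-- Type number 17. -/
def qbt17 : List Nat := [17]

/-- Type number 18. -/
def qbt18 : List Nat := [18]

/-- Type number 19. -/
def qbt19 : List Nat := [19]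

/-- Type number 20. -/
def qbt20 : List Nat := [20]

/-- Type number 21. -/
def qbt21 : List Nat := [21]

/-- Type number 22. -/
def qbt22 : List Nat := [22]

/-- Type number 23. -/
def qbt23 : List Nat := [23]

/-- Type number 24. -/
def qbt24 : List Nat := [24]

/-- The types. -/
def qbty : List (List Nat) := [qbt0, qbt1, qbt2, qbt3, qbt4, qbt5, qbt6, qbt7, qbt8, qbt9, qbt10, qbt11, qbt12, qbt13, qbt14, qbt15, qbt16, qbt17, qbt18, qbt19, qbt20, qbt21, qbt22, qbt23, qbt24]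

/-- Terms with least index 0. -/
noncomputable def qb0 (w0 w1 w2 w3 w4 w5 w6 w7 w8 w9 w10 w11 w12 w13 w14 w15 w16 w17 w18 w19 w20 w21 w22 w23 w24 : Nat) : Nat :=
  Nat.mul w0 (Nat.add (Nat.mul w0 (Nat.add (Nat.mul w0 (KB qbt0 qbt0 qbt0)) (Nat.add (Nat.mul w1 (Nat.mul 3 (KB qbt0 qbt0 qbt1))) (Nat.add (Nat.mul w2 (Nat.mul 3 (KB qbt0 qbt0 qbt2))) (Nat.add (Nat.mul w3 (Nat.mul 3 (KB qbt0 qbt0 qbt3))) (Nat.add (Nat.mul w4 (Nat.mul 3 (KB qbt0 qbt0 qbt4))) (Nat.add (Nat.mul w5 (Nat.mul 3 (KB qbt0 qbt0 qbt5))) (Nat.add (Nat.mul w6 (Nat.mul 3 (KB qbt0 qbt0 qbt6))) (Nat.add (Nat.mul w7 (Nat.mul 3 (KB qbt0 qbt0 qbt7))) (Nat.add (Nat.mul w8 (Nat.mul 3 (KB qbt0 qbt0 qbt8))) (Nat.add (Nat.mul w9 (Nat.mul 3 (KB qbt0 qbt0 qbt9))) (Nat.add (Nat.mul w10 (Nat.mul 3 (KB qbt0 qbt0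 qbt10))) (Nat.add (Nat.mul w11 (Nat.mul 3 (KB qbt0 qbt0 qbt11))) (Nat.add (Nat.mul w12 (Nat.mul 3 (KB qbt0 qbt0 qbt12))) (Nat.add (Nat.mul w13 (Nat.mul 3 (KB qbt0 qbt0 qbt13))) (Nat.add (Nat.mul w14 (Nat.mul 3 (KB qbt0 qbt0 qbt14))) (Nat.add (Nat.mul w15 (Nat.mul 3 (KB qbt0 qbt0 qbt15))) (Nat.add (Nat.mul w16 (Nat.mul 3 (KB qbt0 qbt0 qbt16))) (Nat.add (Nat.mul w17 (Nat.mul 3 (KB qbt0 qbt0 qbt17))) (Nat.add (Nat.mul w18 (Nat.mul 3 (KB qbt0 qbt0 qbt18))) (Nat.add (Nat.mul w19 (Nat.mul 3 (KB qbt0 qbt0 qbt19))) (Nat.add (Nat.mul w20 (Nat.mul 3 (KB qbt0 qbt0 qbt20))) (Nat.add (Nat.mul w21 (Nat.mul 3 (KB qbt0 qbt0 qbt21))) (Nat.add (Nat.mul w22 (Nat.mul 3 (KB qbt0 qbt0 qbt22))) (Nat.add (Nat.mul w23 (Nat.mul 3 (KB qbt0 qbt0 qbt23))) (Nat.add (Nat.mul w24 (Nat.mul 3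 (KB qbt0 qbt0 qbt24))) 0)))))))))))))))))))))))))) (Nat.add (Nat.mul w1 (Nat.add (Nat.mul w1 (Nat.mul 3 (KB qbt0 qbt1 qbt1))) (Nat.add (Nat.mul w2 (Nat.mul 6 (KB qbt0 qbt1 qbt2))) (Nat.add (Nat.mul w3 (Nat.mul 6 (KB qbt0 qbt1 qbt3))) (Nat.add (Nat.mul w4 (Nat.mul 6 (KB qbt0 qbt1 qbt4))) (Nat.add (Nat.mul w5 (Nat.mul 6 (KB qbt0 qbt1 qbt5))) (Nat.add (Nat.mul w6 (Nat.mul 6 (KB qbt0 qbt1 qbt6))) (Nat.add (Nat.mul w7 (Nat.mul 6 (KB qbt0 qbt1 qbt7))) (Nat.add (Nat.mul w8 (Nat.mul 6 (KB qbt0 qbt1 qbt8))) (Nat.add (Nat.mul w9 (Nat.mul 6 (KB qbt0 qbt1 qbt9))) (Nat.add (Nat.mul w10 (Nat.mul 6 (KB qbt0 qbt1 qbt10))) (Nat.add (Nat.mul w11 (Nat.mul 6 (KB qbt0 qbt1 qbt11))) (Nat.add (Nat.mul w12 (Nat.mul 6 (KB qbt0 qbt1 qbt12))) (Nat.add (Nat.mul w13 (Nat.mul 6 (KB qbt0 qbt1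 qbt13))) (Nat.add (Nat.mul w14 (Nat.mul 6 (KB qbt0 qbt1 qbt14))) (Nat.add (Nat.mul w15 (Nat.mul 6 (KB qbt0 qbt1 qbt15))) (Nat.add (Nat.mul w16 (Nat.mul 6 (KB qbt0 qbt1 qbt16))) (Nat.add (Nat.mul w17 (Nat.mul 6 (KB qbt0 qbt1 qbt17))) (Nat.add (Nat.mul w18 (Nat.mul 6 (KB qbt0 qbt1 qbt18))) (Nat.add (Nat.mul w19 (Nat.mul 6 (KB qbt0 qbt1 qbt19))) (Nat.add (Nat.mul w20 (Nat.mul 6 (KB qbt0 qbt1 qbt20))) (Nat.add (Nat.mul w21 (Nat.mul 6 (KB qbt0 qbt1 qbt21))) (Nat.add (Nat.mul w22 (Nat.mul 6 (KB qbt0 qbt1 qbt22))) (Nat.add (Nat.mul w23 (Nat.mul 6 (KB qbt0 qbt1 qbt23))) (Nat.add (Nat.mul w24 (Nat.mul 6 (KB qbt0 qbt1 qbt24))) 0))))))))))))))))))))))))) (Nat.add (Nat.mul w2 (Nat.add (Nat.mul w2 (Nat.mul 3 (KB qbt0 qbt2 qbt2))) (Nat.add (Nat.mul w3 (Nat.mul 6 (KB qbt0 qbt2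 qbt3))) (Nat.add (Nat.mul w4 (Nat.mul 6 (KB qbt0 qbt2 qbt4))) (Nat.add (Nat.mul w5 (Nat.mul 6 (KB qbt0 qbt2 qbt5))) (Nat.add (Nat.mul w6 (Nat.mul 6 (KB qbt0 qbt2 qbt6))) (Nat.add (Nat.mul w7 (Nat.mul 6 (KB qbt0 qbt2 qbt7))) (Nat.add (Nat.mul w8 (Nat.mul 6 (KB qbt0 qbt2 qbt8))) (Nat.add (Nat.mul w9 (Nat.mul 6 (KB qbt0 qbt2 qbt9))) (Nat.add (Nat.mul w10 (Nat.mul 6 (KB qbt0 qbt2 qbt10))) (Nat.add (Nat.mul w11 (Nat.mul 6 (KB qbt0 qbt2 qbt11))) (Nat.add (Nat.mul w12 (Nat.mul 6 (KB qbt0 qbt2 qbt12))) (Nat.add (Nat.mul w13 (Nat.mul 6 (KB qbt0 qbt2 qbt13))) (Nat.add (Nat.mul w14 (Nat.mul 6 (KB qbt0 qbt2 qbt14))) (Nat.add (Nat.mul w15 (Nat.mul 6 (KB qbt0 qbt2 qbt15))) (Nat.add (Nat.mul w16 (Nat.mul 6 (KB qbt0 qbt2 qbt16))) (Nat.add (Nat.mul w17 (Nat.mul 6 (KB qbt0 qbt2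 qbt17))) (Nat.add (Nat.mul w18 (Nat.mul 6 (KB qbt0 qbt2 qbt18))) (Nat.add (Nat.mul w19 (Nat.mul 6 (KB qbt0 qbt2 qbt19))) (Nat.add (Nat.mul w20 (Nat.mul 6 (KB qbt0 qbt2 qbt20))) (Nat.add (Nat.mul w21 (Nat.mul 6 (KB qbt0 qbt2 qbt21))) (Nat.add (Nat.mul w22 (Nat.mul 6 (KB qbt0 qbt2 qbt22))) (Nat.add (Nat.mul w23 (Nat.mul 6 (KB qbt0 qbt2 qbt23))) (Nat.add (Nat.mul w24 (Nat.mul 6 (KB qbt0 qbt2 qbt24))) 0)))))))))))))))))))))))) (Nat.add (Nat.mul w3 (Nat.add (Nat.mul w3 (Nat.mul 3 (KB qbt0 qbt3 qbt3))) (Nat.add (Nat.mul w4 (Nat.mul 6 (KB qbt0 qbt3 qbt4))) (Nat.add (Nat.mul w5 (Nat.mul 6 (KB qbt0 qbt3 qbt5))) (Nat.add (Nat.mul w6 (Nat.mul 6 (KB qbt0 qbt3 qbt6))) (Nat.add (Nat.mul w7 (Nat.mul 6 (KB qbt0 qbt3 qbt7))) (Nat.add (Nat.mul w8 (Nat.mul 6 (KB qbt0 qbt3 qbt8)))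 (Nat.add (Nat.mul w9 (Nat.mul 6 (KB qbt0 qbt3 qbt9))) (Nat.add (Nat.mul w10 (Nat.mul 6 (KB qbt0 qbt3 qbt10))) (Nat.add (Nat.mul w11 (Nat.mul 6 (KB qbt0 qbt3 qbt11))) (Nat.add (Nat.mul w12 (Nat.mul 6 (KB qbt0 qbt3 qbt12))) (Nat.add (Nat.mul w13 (Nat.mul 6 (KB qbt0 qbt3 qbt13))) (Nat.add (Nat.mul w14 (Nat.mul 6 (KB qbt0 qbt3 qbt14))) (Nat.add (Nat.mul w15 (Nat.mul 6 (KB qbt0 qbt3 qbt15))) (Nat.add (Nat.mul w16 (Nat.mul 6 (KB qbt0 qbt3 qbt16))) (Nat.add (Nat.mul w17 (Nat.mul 6 (KB qbt0 qbt3 qbt17))) (Nat.add (Nat.mul w18 (Nat.mul 6 (KB qbt0 qbt3 qbt18))) (Nat.add (Nat.mul w19 (Nat.mul 6 (KB qbt0 qbt3 qbt19))) (Nat.add (Nat.mul w20 (Nat.mul 6 (KB qbt0 qbt3 qbt20))) (Nat.add (Nat.mul w21 (Nat.mul 6 (KB qbt0 qbt3 qbt21))) (Nat.add (Nat.mul w22 (Nat.mul 6 (KB qbt0 qbt3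 qbt22))) (Nat.add (Nat.mul w23 (Nat.mul 6 (KB qbt0 qbt3 qbt23))) (Nat.add (Nat.mul w24 (Nat.mul 6 (KB qbt0 qbt3 qbt24))) 0))))))))))))))))))))))) (Nat.add (Nat.mul w4 (Nat.add (Nat.mul w4 (Nat.mul 3 (KB qbt0 qbt4 qbt4))) (Nat.add (Nat.mul w5 (Nat.mul 6 (KB qbt0 qbt4 qbt5))) (Nat.add (Nat.mul w6 (Nat.mul 6 (KB qbt0 qbt4 qbt6))) (Nat.add (Nat.mul w7 (Nat.mul 6 (KB qbt0 qbt4 qbt7))) (Nat.add (Nat.mul w8 (Nat.mul 6 (KB qbt0 qbt4 qbt8))) (Nat.add (Nat.mul w9 (Nat.mul 6 (KB qbt0 qbt4 qbt9))) (Nat.add (Nat.mul w10 (Nat.mul 6 (KB qbt0 qbt4 qbt10))) (Nat.add (Nat.mul w11 (Nat.mul 6 (KB qbt0 qbt4 qbt11))) (Nat.add (Nat.mul w12 (Nat.mul 6 (KB qbt0 qbt4 qbt12))) (Nat.add (Nat.mul w13 (Nat.mul 6 (KB qbt0 qbt4 qbt13))) (Nat.add (Nat.mul w14 (Nat.mul 6 (KB qbt0 qbt4 qbt14)))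 (Nat.add (Nat.mul w15 (Nat.mul 6 (KB qbt0 qbt4 qbt15))) (Nat.add (Nat.mul w16 (Nat.mul 6 (KB qbt0 qbt4 qbt16))) (Nat.add (Nat.mul w17 (Nat.mul 6 (KB qbt0 qbt4 qbt17))) (Nat.add (Nat.mul w18 (Nat.mul 6 (KB qbt0 qbt4 qbt18))) (Nat.add (Nat.mul w19 (Nat.mul 6 (KB qbt0 qbt4 qbt19))) (Nat.add (Nat.mul w20 (Nat.mul 6 (KB qbt0 qbt4 qbt20))) (Nat.add (Nat.mul w21 (Nat.mul 6 (KB qbt0 qbt4 qbt21))) (Nat.add (Nat.mul w22 (Nat.mul 6 (KB qbt0 qbt4 qbt22))) (Nat.add (Nat.mul w23 (Nat.mul 6 (KB qbt0 qbt4 qbt23))) (Nat.add (Nat.mul w24 (Nat.mul 6 (KB qbt0 qbt4 qbt24))) 0)))))))))))))))))))))) (Nat.add (Nat.mul w5 (Nat.add (Nat.mul w5 (Nat.mul 3 (KB qbt0 qbt5 qbt5))) (Nat.add (Nat.mul w6 (Nat.mul 6 (KB qbt0 qbt5 qbt6))) (Nat.add (Nat.mul w7 (Nat.mul 6 (KB qbt0 qbt5 qbt7))) (Nat.add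 (Nat.mul w8 (Nat.mul 6 (KB qbt0 qbt5 qbt8))) (Nat.add (Nat.mul w9 (Nat.mul 6 (KB qbt0 qbt5 qbt9))) (Nat.add (Nat.mul w10 (Nat.mul 6 (KB qbt0 qbt5 qbt10))) (Nat.add (Nat.mul w11 (Nat.mul 6 (KB qbt0 qbt5 qbt11))) (Nat.add (Nat.mul w12 (Nat.mul 6 (KB qbt0 qbt5 qbt12))) (Nat.add (Nat.mul w13 (Nat.mul 6 (KB qbt0 qbt5 qbt13))) (Nat.add (Nat.mul w14 (Nat.mul 6 (KB qbt0 qbt5 qbt14))) (Nat.add (Nat.mul w15 (Nat.mul 6 (KB qbt0 qbt5 qbt15))) (Nat.add (Nat.mul w16 (Nat.mul 6 (KB qbt0 qbt5 qbt16))) (Nat.add (Nat.mul w17 (Nat.mul 6 (KB qbt0 qbt5 qbt17))) (Nat.add (Nat.mul w18 (Nat.mul 6 (KB qbt0 qbt5 qbt18))) (Nat.add (Nat.mul w19 (Nat.mul 6 (KB qbt0 qbt5 qbt19))) (Nat.add (Nat.mul w20 (Nat.mul 6 (KB qbt0 qbt5 qbt20))) (Nat.add (Nat.mul w21 (Nat.mul 6 (KB qbt0 qbt5 qbt21)))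 (Nat.add (Nat.mul w22 (Nat.mul 6 (KB qbt0 qbt5 qbt22))) (Nat.add (Nat.mul w23 (Nat.mul 6 (KB qbt0 qbt5 qbt23))) (Nat.add (Nat.mul w24 (Nat.mul 6 (KB qbt0 qbt5 qbt24))) 0))))))))))))))))))))) (Nat.add (Nat.mul w6 (Nat.add (Nat.mul w6 (Nat.mul 3 (KB qbt0 qbt6 qbt6))) (Nat.add (Nat.mul w7 (Nat.mul 6 (KB qbt0 qbt6 qbt7))) (Nat.add (Nat.mul w8 (Nat.mul 6 (KB qbt0 qbt6 qbt8))) (Nat.add (Nat.mul w9 (Nat.mul 6 (KB qbt0 qbt6 qbt9))) (Nat.add (Nat.mul w10 (Nat.mul 6 (KB qbt0 qbt6 qbt10))) (Nat.add (Nat.mul w11 (Nat.mul 6 (KB qbt0 qbt6 qbt11))) (Nat.add (Nat.mul w12 (Nat.mul 6 (KB qbt0 qbt6 qbt12))) (Nat.add (Nat.mul w13 (Nat.mul 6 (KB qbt0 qbt6 qbt13))) (Nat.add (Nat.mul w14 (Nat.mul 6 (KB qbt0 qbt6 qbt14))) (Nat.add (Nat.mul w15 (Nat.mul 6 (KB qbt0 qbt6 qbt15))) (Nat.add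 (Nat.mul w16 (Nat.mul 6 (KB qbt0 qbt6 qbt16))) (Nat.add (Nat.mul w17 (Nat.mul 6 (KB qbt0 qbt6 qbt17))) (Nat.add (Nat.mul w18 (Nat.mul 6 (KB qbt0 qbt6 qbt18))) (Nat.add (Nat.mul w19 (Nat.mul 6 (KB qbt0 qbt6 qbt19))) (Nat.add (Nat.mul w20 (Nat.mul 6 (KB qbt0 qbt6 qbt20))) (Nat.add (Nat.mul w21 (Nat.mul 6 (KB qbt0 qbt6 qbt21))) (Nat.add (Nat.mul w22 (Nat.mul 6 (KB qbt0 qbt6 qbt22))) (Nat.add (Nat.mul w23 (Nat.mul 6 (KB qbt0 qbt6 qbt23))) (Nat.add (Nat.mul w24 (Nat.mul 6 (KB qbt0 qbt6 qbt24))) 0)))))))))))))))))))) (Nat.add (Nat.mul w7 (Nat.add (Nat.mul w7 (Nat.mul 3 (KB qbt0 qbt7 qbt7))) (Nat.add (Nat.mul w8 (Nat.mul 6 (KB qbt0 qbt7 qbt8))) (Nat.add (Nat.mul w9 (Nat.mul 6 (KB qbt0 qbt7 qbt9))) (Nat.add (Nat.mul w10 (Nat.mul 6 (KB qbt0 qbt7 qbt10))) (Nat.add (Nat.mul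 w11 (Nat.mul 6 (KB qbt0 qbt7 qbt11))) (Nat.add (Nat.mul w12 (Nat.mul 6 (KB qbt0 qbt7 qbt12))) (Nat.add (Nat.mul w13 (Nat.mul 6 (KB qbt0 qbt7 qbt13))) (Nat.add (Nat.mul w14 (Nat.mul 6 (KB qbt0 qbt7 qbt14))) (Nat.add (Nat.mul w15 (Nat.mul 6 (KB qbt0 qbt7 qbt15))) (Nat.add (Nat.mul w16 (Nat.mul 6 (KB qbt0 qbt7 qbt16))) (Nat.add (Nat.mul w17 (Nat.mul 6 (KB qbt0 qbt7 qbt17))) (Nat.add (Nat.mul w18 (Nat.mul 6 (KB qbt0 qbt7 qbt18))) (Nat.add (Nat.mul w19 (Nat.mul 6 (KB qbt0 qbt7 qbt19))) (Nat.add (Nat.mul w20 (Nat.mul 6 (KB qbt0 qbt7 qbt20))) (Nat.add (Nat.mul w21 (Nat.mul 6 (KB qbt0 qbt7 qbt21))) (Nat.add (Nat.mul w22 (Nat.mul 6 (KB qbt0 qbt7 qbt22))) (Nat.add (Nat.mul w23 (Nat.mul 6 (KB qbt0 qbt7 qbt23))) (Nat.add (Nat.mul w24 (Nat.mul 6 (KB qbt0 qbt7 qbt24))) 0)))))))))))))))))))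 (Nat.add (Nat.mul w8 (Nat.add (Nat.mul w8 (Nat.mul 3 (KB qbt0 qbt8 qbt8))) (Nat.add (Nat.mul w9 (Nat.mul 6 (KB qbt0 qbt8 qbt9))) (Nat.add (Nat.mul w10 (Nat.mul 6 (KB qbt0 qbt8 qbt10))) (Nat.add (Nat.mul w11 (Nat.mul 6 (KB qbt0 qbt8 qbt11))) (Nat.add (Nat.mul w12 (Nat.mul 6 (KB qbt0 qbt8 qbt12))) (Nat.add (Nat.mul w13 (Nat.mul 6 (KB qbt0 qbt8 qbt13))) (Nat.add (Nat.mul w14 (Nat.mul 6 (KB qbt0 qbt8 qbt14))) (Nat.add (Nat.mul w15 (Nat.mul 6 (KB qbt0 qbt8 qbt15))) (Nat.add (Nat.mul w16 (Nat.mul 6 (KB qbt0 qbt8 qbt16))) (Nat.add (Nat.mul w17 (Nat.mul 6 (KB qbt0 qbt8 qbt17))) (Nat.add (Nat.mul w18 (Nat.mul 6 (KB qbt0 qbt8 qbt18))) (Nat.add (Nat.mul w19 (Nat.mul 6 (KB qbt0 qbt8 qbt19))) (Nat.add (Nat.mul w20 (Nat.mul 6 (KB qbt0 qbt8 qbt20))) (Nat.add (Nat.mul w21 (Nat.mul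 6 (KB qbt0 qbt8 qbt21))) (Nat.add (Nat.mul w22 (Nat.mul 6 (KB qbt0 qbt8 qbt22))) (Nat.add (Nat.mul w23 (Nat.mul 6 (KB qbt0 qbt8 qbt23))) (Nat.add (Nat.mul w24 (Nat.mul 6 (KB qbt0 qbt8 qbt24))) 0)))))))))))))))))) (Nat.add (Nat.mul w9 (Nat.add (Nat.mul w9 (Nat.mul 3 (KB qbt0 qbt9 qbt9))) (Nat.add (Nat.mul w10 (Nat.mul 6 (KB qbt0 qbt9 qbt10))) (Nat.add (Nat.mul w11 (Nat.mul 6 (KB qbt0 qbt9 qbt11))) (Nat.add (Nat.mul w12 (Nat.mul 6 (KB qbt0 qbt9 qbt12))) (Nat.add (Nat.mul w13 (Nat.mul 6 (KB qbt0 qbt9 qbt13))) (Nat.add (Nat.mul w14 (Nat.mul 6 (KB qbt0 qbt9 qbt14))) (Nat.add (Nat.mul w15 (Nat.mul 6 (KB qbt0 qbt9 qbt15))) (Nat.add (Nat.mul w16 (Nat.mul 6 (KB qbt0 qbt9 qbt16))) (Nat.add (Nat.mul w17 (Nat.mul 6 (KB qbt0 qbt9 qbt17))) (Nat.add (Nat.mul w18 (Nat.mul 6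 (KB qbt0 qbt9 qbt18))) (Nat.add (Nat.mul w19 (Nat.mul 6 (KB qbt0 qbt9 qbt19))) (Nat.add (Nat.mul w20 (Nat.mul 6 (KB qbt0 qbt9 qbt20))) (Nat.add (Nat.mul w21 (Nat.mul 6 (KB qbt0 qbt9 qbt21))) (Nat.add (Nat.mul w22 (Nat.mul 6 (KB qbt0 qbt9 qbt22))) (Nat.add (Nat.mul w23 (Nat.mul 6 (KB qbt0 qbt9 qbt23))) (Nat.add (Nat.mul w24 (Nat.mul 6 (KB qbt0 qbt9 qbt24))) 0))))))))))))))))) (Nat.add (Nat.mul w10 (Nat.add (Nat.mul w10 (Nat.mul 3 (KB qbt0 qbt10 qbt10))) (Nat.add (Nat.mul w11 (Nat.mul 6 (KB qbt0 qbt10 qbt11))) (Nat.add (Nat.mul w12 (Nat.mul 6 (KB qbt0 qbt10 qbt12))) (Nat.add (Nat.mul w13 (Nat.mul 6 (KB qbt0 qbt10 qbt13))) (Nat.add (Nat.mul w14 (Nat.mul 6 (KB qbt0 qbt10 qbt14))) (Nat.add (Nat.mul w15 (Nat.mul 6 (KB qbt0 qbt10 qbt15))) (Nat.add (Nat.mul w16 (Nat.mul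 6 (KB qbt0 qbt10 qbt16))) (Nat.add (Nat.mul w17 (Nat.mul 6 (KB qbt0 qbt10 qbt17))) (Nat.add (Nat.mul w18 (Nat.mul 6 (KB qbt0 qbt10 qbt18))) (Nat.add (Nat.mul w19 (Nat.mul 6 (KB qbt0 qbt10 qbt19))) (Nat.add (Nat.mul w20 (Nat.mul 6 (KB qbt0 qbt10 qbt20))) (Nat.add (Nat.mul w21 (Nat.mul 6 (KB qbt0 qbt10 qbt21))) (Nat.add (Nat.mul w22 (Nat.mul 6 (KB qbt0 qbt10 qbt22))) (Nat.add (Nat.mul w23 (Nat.mul 6 (KB qbt0 qbt10 qbt23))) (Nat.add (Nat.mul w24 (Nat.mul 6 (KB qbt0 qbt10 qbt24))) 0)))))))))))))))) (Nat.add (Nat.mul w11 (Nat.add (Nat.mul w11 (Nat.mul 3 (KB qbt0 qbt11 qbt11))) (Nat.add (Nat.mul w12 (Nat.mul 6 (KB qbt0 qbt11 qbt12))) (Nat.add (Nat.mul w13 (Nat.mul 6 (KB qbt0 qbt11 qbt13))) (Nat.add (Nat.mul w14 (Nat.mul 6 (KB qbt0 qbt11 qbt14))) (Nat.add (Nat.mul w15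 (Nat.mul 6 (KB qbt0 qbt11 qbt15))) (Nat.add (Nat.mul w16 (Nat.mul 6 (KB qbt0 qbt11 qbt16))) (Nat.add (Nat.mul w17 (Nat.mul 6 (KB qbt0 qbt11 qbt17))) (Nat.add (Nat.mul w18 (Nat.mul 6 (KB qbt0 qbt11 qbt18))) (Nat.add (Nat.mul w19 (Nat.mul 6 (KB qbt0 qbt11 qbt19))) (Nat.add (Nat.mul w20 (Nat.mul 6 (KB qbt0 qbt11 qbt20))) (Nat.add (Nat.mul w21 (Nat.mul 6 (KB qbt0 qbt11 qbt21))) (Nat.add (Nat.mul w22 (Nat.mul 6 (KB qbt0 qbt11 qbt22))) (Nat.add (Nat.mul w23 (Nat.mul 6 (KB qbt0 qbt11 qbt23))) (Nat.add (Nat.mul w24 (Nat.mul 6 (KB qbt0 qbt11 qbt24))) 0))))))))))))))) (Nat.add (Nat.mul w12 (Nat.add (Nat.mul w12 (Nat.mul 3 (KB qbt0 qbt12 qbt12))) (Nat.add (Nat.mul w13 (Nat.mul 6 (KB qbt0 qbt12 qbt13))) (Nat.add (Nat.mul w14 (Nat.mul 6 (KB qbt0 qbt12 qbt14))) (Nat.add (Nat.mul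 w15 (Nat.mul 6 (KB qbt0 qbt12 qbt15))) (Nat.add (Nat.mul w16 (Nat.mul 6 (KB qbt0 qbt12 qbt16))) (Nat.add (Nat.mul w17 (Nat.mul 6 (KB qbt0 qbt12 qbt17))) (Nat.add (Nat.mul w18 (Nat.mul 6 (KB qbt0 qbt12 qbt18))) (Nat.add (Nat.mul w19 (Nat.mul 6 (KB qbt0 qbt12 qbt19))) (Nat.add (Nat.mul w20 (Nat.mul 6 (KB qbt0 qbt12 qbt20))) (Nat.add (Nat.mul w21 (Nat.mul 6 (KB qbt0 qbt12 qbt21))) (Nat.add (Nat.mul w22 (Nat.mul 6 (KB qbt0 qbt12 qbt22))) (Nat.add (Nat.mul w23 (Nat.mul 6 (KB qbt0 qbt12 qbt23))) (Nat.add (Nat.mul w24 (Nat.mul 6 (KB qbt0 qbt12 qbt24))) 0)))))))))))))) (Nat.add (Nat.mul w13 (Nat.add (Nat.mul w13 (Nat.mul 3 (KB qbt0 qbt13 qbt13))) (Nat.add (Nat.mul w14 (Nat.mul 6 (KB qbt0 qbt13 qbt14))) (Nat.add (Nat.mul w15 (Nat.mul 6 (KB qbt0 qbt13 qbt15))) (Nat.add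 (Nat.mul w16 (Nat.mul 6 (KB qbt0 qbt13 qbt16))) (Nat.add (Nat.mul w17 (Nat.mul 6 (KB qbt0 qbt13 qbt17))) (Nat.add (Nat.mul w18 (Nat.mul 6 (KB qbt0 qbt13 qbt18))) (Nat.add (Nat.mul w19 (Nat.mul 6 (KB qbt0 qbt13 qbt19))) (Nat.add (Nat.mul w20 (Nat.mul 6 (KB qbt0 qbt13 qbt20))) (Nat.add (Nat.mul w21 (Nat.mul 6 (KB qbt0 qbt13 qbt21))) (Nat.add (Nat.mul w22 (Nat.mul 6 (KB qbt0 qbt13 qbt22))) (Nat.add (Nat.mul w23 (Nat.mul 6 (KB qbt0 qbt13 qbt23))) (Nat.add (Nat.mul w24 (Nat.mul 6 (KB qbt0 qbt13 qbt24))) 0))))))))))))) (Nat.add (Nat.mul w14 (Nat.add (Nat.mul w14 (Nat.mul 3 (KB qbt0 qbt14 qbt14))) (Nat.add (Nat.mul w15 (Nat.mul 6 (KB qbt0 qbt14 qbt15))) (Nat.add (Nat.mul w16 (Nat.mul 6 (KB qbt0 qbt14 qbt16))) (Nat.add (Nat.mul w17 (Nat.mul 6 (KB qbt0 qbt14 qbt17)))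 (Nat.add (Nat.mul w18 (Nat.mul 6 (KB qbt0 qbt14 qbt18))) (Nat.add (Nat.mul w19 (Nat.mul 6 (KB qbt0 qbt14 qbt19))) (Nat.add (Nat.mul w20 (Nat.mul 6 (KB qbt0 qbt14 qbt20))) (Nat.add (Nat.mul w21 (Nat.mul 6 (KB qbt0 qbt14 qbt21))) (Nat.add (Nat.mul w22 (Nat.mul 6 (KB qbt0 qbt14 qbt22))) (Nat.add (Nat.mul w23 (Nat.mul 6 (KB qbt0 qbt14 qbt23))) (Nat.add (Nat.mul w24 (Nat.mul 6 (KB qbt0 qbt14 qbt24))) 0)))))))))))) (Nat.add (Nat.mul w15 (Nat.add (Nat.mul w15 (Nat.mul 3 (KB qbt0 qbt15 qbt15))) (Nat.add (Nat.mul w16 (Nat.mul 6 (KB qbt0 qbt15 qbt16))) (Nat.add (Nat.mul w17 (Nat.mul 6 (KB qbt0 qbt15 qbt17))) (Nat.add (Nat.mul w18 (Nat.mul 6 (KB qbt0 qbt15 qbt18))) (Nat.add (Nat.mul w19 (Nat.mul 6 (KB qbt0 qbt15 qbt19))) (Nat.add (Nat.mul w20 (Nat.mul 6 (KB qbt0 qbt15 qbt20)))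 (Nat.add (Nat.mul w21 (Nat.mul 6 (KB qbt0 qbt15 qbt21))) (Nat.add (Nat.mul w22 (Nat.mul 6 (KB qbt0 qbt15 qbt22))) (Nat.add (Nat.mul w23 (Nat.mul 6 (KB qbt0 qbt15 qbt23))) (Nat.add (Nat.mul w24 (Nat.mul 6 (KB qbt0 qbt15 qbt24))) 0))))))))))) (Nat.add (Nat.mul w16 (Nat.add (Nat.mul w16 (Nat.mul 3 (KB qbt0 qbt16 qbt16))) (Nat.add (Nat.mul w17 (Nat.mul 6 (KB qbt0 qbt16 qbt17))) (Nat.add (Nat.mul w18 (Nat.mul 6 (KB qbt0 qbt16 qbt18))) (Nat.add (Nat.mul w19 (Nat.mul 6 (KB qbt0 qbt16 qbt19))) (Nat.add (Nat.mul w20 (Nat.mul 6 (KB qbt0 qbt16 qbt20))) (Nat.add (Nat.mul w21 (Nat.mul 6 (KB qbt0 qbt16 qbt21))) (Nat.add (Nat.mul w22 (Nat.mul 6 (KB qbt0 qbt16 qbt22))) (Nat.add (Nat.mul w23 (Nat.mul 6 (KB qbt0 qbt16 qbt23))) (Nat.add (Nat.mul w24 (Nat.mul 6 (KB qbt0 qbt16 qbt24)))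 0)))))))))) (Nat.add (Nat.mul w17 (Nat.add (Nat.mul w17 (Nat.mul 3 (KB qbt0 qbt17 qbt17))) (Nat.add (Nat.mul w18 (Nat.mul 6 (KB qbt0 qbt17 qbt18))) (Nat.add (Nat.mul w19 (Nat.mul 6 (KB qbt0 qbt17 qbt19))) (Nat.add (Nat.mul w20 (Nat.mul 6 (KB qbt0 qbt17 qbt20))) (Nat.add (Nat.mul w21 (Nat.mul 6 (KB qbt0 qbt17 qbt21))) (Nat.add (Nat.mul w22 (Nat.mul 6 (KB qbt0 qbt17 qbt22))) (Nat.add (Nat.mul w23 (Nat.mul 6 (KB qbt0 qbt17 qbt23))) (Nat.add (Nat.mul w24 (Nat.mul 6 (KB qbt0 qbt17 qbt24))) 0))))))))) (Nat.add (Nat.mul w18 (Nat.add (Nat.mul w18 (Nat.mul 3 (KB qbt0 qbt18 qbt18))) (Nat.add (Nat.mul w19 (Nat.mul 6 (KB qbt0 qbt18 qbt19))) (Nat.add (Nat.mul w20 (Nat.mul 6 (KB qbt0 qbt18 qbt20))) (Nat.add (Nat.mul w21 (Nat.mul 6 (KB qbt0 qbt18 qbt21))) (Nat.add (Nat.mul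 w22 (Nat.mul 6 (KB qbt0 qbt18 qbt22))) (Nat.add (Nat.mul w23 (Nat.mul 6 (KB qbt0 qbt18 qbt23))) (Nat.add (Nat.mul w24 (Nat.mul 6 (KB qbt0 qbt18 qbt24))) 0)))))))) (Nat.add (Nat.mul w19 (Nat.add (Nat.mul w19 (Nat.mul 3 (KB qbt0 qbt19 qbt19))) (Nat.add (Nat.mul w20 (Nat.mul 6 (KB qbt0 qbt19 qbt20))) (Nat.add (Nat.mul w21 (Nat.mul 6 (KB qbt0 qbt19 qbt21))) (Nat.add (Nat.mul w22 (Nat.mul 6 (KB qbt0 qbt19 qbt22))) (Nat.add (Nat.mul w23 (Nat.mul 6 (KB qbt0 qbt19 qbt23))) (Nat.add (Nat.mul w24 (Nat.mul 6 (KB qbt0 qbt19 qbt24))) 0))))))) (Nat.add (Nat.mul w20 (Nat.add (Nat.mul w20 (Nat.mul 3 (KB qbt0 qbt20 qbt20))) (Nat.add (Nat.mul w21 (Nat.mul 6 (KB qbt0 qbt20 qbt21))) (Nat.add (Nat.mul w22 (Nat.mul 6 (KB qbt0 qbt20 qbt22))) (Nat.add (Nat.mul w23 (Nat.mul 6 (KB qbt0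 qbt20 qbt23))) (Nat.add (Nat.mul w24 (Nat.mul 6 (KB qbt0 qbt20 qbt24))) 0)))))) (Nat.add (Nat.mul w21 (Nat.add (Nat.mul w21 (Nat.mul 3 (KB qbt0 qbt21 qbt21))) (Nat.add (Nat.mul w22 (Nat.mul 6 (KB qbt0 qbt21 qbt22))) (Nat.add (Nat.mul w23 (Nat.mul 6 (KB qbt0 qbt21 qbt23))) (Nat.add (Nat.mul w24 (Nat.mul 6 (KB qbt0 qbt21 qbt24))) 0))))) (Nat.add (Nat.mul w22 (Nat.add (Nat.mul w22 (Nat.mul 3 (KB qbt0 qbt22 qbt22))) (Nat.add (Nat.mul w23 (Nat.mul 6 (KB qbt0 qbt22 qbt23))) (Nat.add (Nat.mul w24 (Nat.mul 6 (KB qbt0 qbt22 qbt24))) 0)))) (Nat.add (Nat.mul w23 (Nat.add (Nat.mul w23 (Nat.mul 3 (KB qbt0 qbt23 qbt23))) (Nat.add (Nat.mul w24 (Nat.mul 6 (KB qbt0 qbt23 qbt24))) 0))) (Nat.add (Nat.mul w24 (Nat.add (Nat.mul w24 (Nat.mul 3 (KB qbt0 qbt24 qbt24))) (0))) 0)))))))))))))))))))))))))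

/-- Terms with least index 1. -/
noncomputable def qb1 (w1 w2 w3 w4 w5 w6 w7 w8 w9 w10 w11 w12 w13 w14 w15 w16 w17 w18 w19 w20 w21 w22 w23 w24 : Nat) : Nat :=
  Nat.mul w1 (Nat.add (Nat.mul w1 (Nat.add (Nat.mul w1 (KB qbt1 qbt1 qbt1)) (Nat.add (Nat.mul w2 (Nat.mul 3 (KB qbt1 qbt1 qbt2))) (Nat.add (Nat.mul w3 (Nat.mul 3 (KB qbt1 qbt1 qbt3))) (Nat.add (Nat.mul w4 (Nat.mul 3 (KB qbt1 qbt1 qbt4))) (Nat.add (Nat.mul w5 (Nat.mul 3 (KB qbt1 qbt1 qbt5))) (Nat.add (Nat.mul w6 (Nat.mul 3 (KB qbt1 qbt1 qbt6))) (Nat.add (Nat.mul w7 (Nat.mul 3 (KB qbt1 qbt1 qbt7))) (Nat.add (Nat.mul w8 (Nat.mul 3 (KB qbt1 qbt1 qbt8))) (Nat.add (Nat.mul w9 (Nat.mul 3 (KB qbt1 qbt1 qbt9))) (Nat.add (Nat.mul w10 (Nat.mul 3 (KB qbt1 qbt1 qbt10))) (Nat.add (Nat.mul w11 (Nat.mul 3 (KB qbt1 qbt1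 qbt11))) (Nat.add (Nat.mul w12 (Nat.mul 3 (KB qbt1 qbt1 qbt12))) (Nat.add (Nat.mul w13 (Nat.mul 3 (KB qbt1 qbt1 qbt13))) (Nat.add (Nat.mul w14 (Nat.mul 3 (KB qbt1 qbt1 qbt14))) (Nat.add (Nat.mul w15 (Nat.mul 3 (KB qbt1 qbt1 qbt15))) (Nat.add (Nat.mul w16 (Nat.mul 3 (KB qbt1 qbt1 qbt16))) (Nat.add (Nat.mul w17 (Nat.mul 3 (KB qbt1 qbt1 qbt17))) (Nat.add (Nat.mul w18 (Nat.mul 3 (KB qbt1 qbt1 qbt18))) (Nat.add (Nat.mul w19 (Nat.mul 3 (KB qbt1 qbt1 qbt19))) (Nat.add (Nat.mul w20 (Nat.mul 3 (KB qbt1 qbt1 qbt20))) (Nat.add (Nat.mul w21 (Nat.mul 3 (KB qbt1 qbt1 qbt21))) (Nat.add (Nat.mul w22 (Nat.mul 3 (KB qbt1 qbt1 qbt22))) (Nat.add (Nat.mul w23 (Nat.mul 3 (KB qbt1 qbt1 qbt23))) (Nat.add (Nat.mul w24 (Nat.mul 3 (KB qbt1 qbt1 qbt24))) 0))))))))))))))))))))))))) (Nat.add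 (Nat.mul w2 (Nat.add (Nat.mul w2 (Nat.mul 3 (KB qbt1 qbt2 qbt2))) (Nat.add (Nat.mul w3 (Nat.mul 6 (KB qbt1 qbt2 qbt3))) (Nat.add (Nat.mul w4 (Nat.mul 6 (KB qbt1 qbt2 qbt4))) (Nat.add (Nat.mul w5 (Nat.mul 6 (KB qbt1 qbt2 qbt5))) (Nat.add (Nat.mul w6 (Nat.mul 6 (KB qbt1 qbt2 qbt6))) (Nat.add (Nat.mul w7 (Nat.mul 6 (KB qbt1 qbt2 qbt7))) (Nat.add (Nat.mul w8 (Nat.mul 6 (KB qbt1 qbt2 qbt8))) (Nat.add (Nat.mul w9 (Nat.mul 6 (KB qbt1 qbt2 qbt9))) (Nat.add (Nat.mul w10 (Nat.mul 6 (KB qbt1 qbt2 qbt10))) (Nat.add (Nat.mul w11 (Nat.mul 6 (KB qbt1 qbt2 qbt11))) (Nat.add (Nat.mul w12 (Nat.mul 6 (KB qbt1 qbt2 qbt12))) (Nat.add (Nat.mul w13 (Nat.mul 6 (KB qbt1 qbt2 qbt13))) (Nat.add (Nat.mul w14 (Nat.mul 6 (KB qbt1 qbt2 qbt14))) (Nat.add (Nat.mul w15 (Nat.mul 6 (KB qbt1 qbt2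 qbt15))) (Nat.add (Nat.mul w16 (Nat.mul 6 (KB qbt1 qbt2 qbt16))) (Nat.add (Nat.mul w17 (Nat.mul 6 (KB qbt1 qbt2 qbt17))) (Nat.add (Nat.mul w18 (Nat.mul 6 (KB qbt1 qbt2 qbt18))) (Nat.add (Nat.mul w19 (Nat.mul 6 (KB qbt1 qbt2 qbt19))) (Nat.add (Nat.mul w20 (Nat.mul 6 (KB qbt1 qbt2 qbt20))) (Nat.add (Nat.mul w21 (Nat.mul 6 (KB qbt1 qbt2 qbt21))) (Nat.add (Nat.mul w22 (Nat.mul 6 (KB qbt1 qbt2 qbt22))) (Nat.add (Nat.mul w23 (Nat.mul 6 (KB qbt1 qbt2 qbt23))) (Nat.add (Nat.mul w24 (Nat.mul 6 (KB qbt1 qbt2 qbt24))) 0)))))))))))))))))))))))) (Nat.add (Nat.mul w3 (Nat.add (Nat.mul w3 (Nat.mul 3 (KB qbt1 qbt3 qbt3))) (Nat.add (Nat.mul w4 (Nat.mul 6 (KB qbt1 qbt3 qbt4))) (Nat.add (Nat.mul w5 (Nat.mul 6 (KB qbt1 qbt3 qbt5))) (Nat.add (Nat.mul w6 (Nat.mul 6 (KB qbt1 qbt3 qbt6)))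 (Nat.add (Nat.mul w7 (Nat.mul 6 (KB qbt1 qbt3 qbt7))) (Nat.add (Nat.mul w8 (Nat.mul 6 (KB qbt1 qbt3 qbt8))) (Nat.add (Nat.mul w9 (Nat.mul 6 (KB qbt1 qbt3 qbt9))) (Nat.add (Nat.mul w10 (Nat.mul 6 (KB qbt1 qbt3 qbt10))) (Nat.add (Nat.mul w11 (Nat.mul 6 (KB qbt1 qbt3 qbt11))) (Nat.add (Nat.mul w12 (Nat.mul 6 (KB qbt1 qbt3 qbt12))) (Nat.add (Nat.mul w13 (Nat.mul 6 (KB qbt1 qbt3 qbt13))) (Nat.add (Nat.mul w14 (Nat.mul 6 (KB qbt1 qbt3 qbt14))) (Nat.add (Nat.mul w15 (Nat.mul 6 (KB qbt1 qbt3 qbt15))) (Nat.add (Nat.mul w16 (Nat.mul 6 (KB qbt1 qbt3 qbt16))) (Nat.add (Nat.mul w17 (Nat.mul 6 (KB qbt1 qbt3 qbt17))) (Nat.add (Nat.mul w18 (Nat.mul 6 (KB qbt1 qbt3 qbt18))) (Nat.add (Nat.mul w19 (Nat.mul 6 (KB qbt1 qbt3 qbt19))) (Nat.add (Nat.mul w20 (Nat.mul 6 (KB qbt1 qbt3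 qbt20))) (Nat.add (Nat.mul w21 (Nat.mul 6 (KB qbt1 qbt3 qbt21))) (Nat.add (Nat.mul w22 (Nat.mul 6 (KB qbt1 qbt3 qbt22))) (Nat.add (Nat.mul w23 (Nat.mul 6 (KB qbt1 qbt3 qbt23))) (Nat.add (Nat.mul w24 (Nat.mul 6 (KB qbt1 qbt3 qbt24))) 0))))))))))))))))))))))) (Nat.add (Nat.mul w4 (Nat.add (Nat.mul w4 (Nat.mul 3 (KB qbt1 qbt4 qbt4))) (Nat.add (Nat.mul w5 (Nat.mul 6 (KB qbt1 qbt4 qbt5))) (Nat.add (Nat.mul w6 (Nat.mul 6 (KB qbt1 qbt4 qbt6))) (Nat.add (Nat.mul w7 (Nat.mul 6 (KB qbt1 qbt4 qbt7))) (Nat.add (Nat.mul w8 (Nat.mul 6 (KB qbt1 qbt4 qbt8))) (Nat.add (Nat.mul w9 (Nat.mul 6 (KB qbt1 qbt4 qbt9))) (Nat.add (Nat.mul w10 (Nat.mul 6 (KB qbt1 qbt4 qbt10))) (Nat.add (Nat.mul w11 (Nat.mul 6 (KB qbt1 qbt4 qbt11))) (Nat.add (Nat.mul w12 (Nat.mul 6 (KB qbt1 qbt4 qbt12)))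 (Nat.add (Nat.mul w13 (Nat.mul 6 (KB qbt1 qbt4 qbt13))) (Nat.add (Nat.mul w14 (Nat.mul 6 (KB qbt1 qbt4 qbt14))) (Nat.add (Nat.mul w15 (Nat.mul 6 (KB qbt1 qbt4 qbt15))) (Nat.add (Nat.mul w16 (Nat.mul 6 (KB qbt1 qbt4 qbt16))) (Nat.add (Nat.mul w17 (Nat.mul 6 (KB qbt1 qbt4 qbt17))) (Nat.add (Nat.mul w18 (Nat.mul 6 (KB qbt1 qbt4 qbt18))) (Nat.add (Nat.mul w19 (Nat.mul 6 (KB qbt1 qbt4 qbt19))) (Nat.add (Nat.mul w20 (Nat.mul 6 (KB qbt1 qbt4 qbt20))) (Nat.add (Nat.mul w21 (Nat.mul 6 (KB qbt1 qbt4 qbt21))) (Nat.add (Nat.mul w22 (Nat.mul 6 (KB qbt1 qbt4 qbt22))) (Nat.add (Nat.mul w23 (Nat.mul 6 (KB qbt1 qbt4 qbt23))) (Nat.add (Nat.mul w24 (Nat.mul 6 (KB qbt1 qbt4 qbt24))) 0)))))))))))))))))))))) (Nat.add (Nat.mul w5 (Nat.add (Nat.mul w5 (Nat.mul 3 (KB qbt1 qbt5 qbt5)))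 (Nat.add (Nat.mul w6 (Nat.mul 6 (KB qbt1 qbt5 qbt6))) (Nat.add (Nat.mul w7 (Nat.mul 6 (KB qbt1 qbt5 qbt7))) (Nat.add (Nat.mul w8 (Nat.mul 6 (KB qbt1 qbt5 qbt8))) (Nat.add (Nat.mul w9 (Nat.mul 6 (KB qbt1 qbt5 qbt9))) (Nat.add (Nat.mul w10 (Nat.mul 6 (KB qbt1 qbt5 qbt10))) (Nat.add (Nat.mul w11 (Nat.mul 6 (KB qbt1 qbt5 qbt11))) (Nat.add (Nat.mul w12 (Nat.mul 6 (KB qbt1 qbt5 qbt12))) (Nat.add (Nat.mul w13 (Nat.mul 6 (KB qbt1 qbt5 qbt13))) (Nat.add (Nat.mul w14 (Nat.mul 6 (KB qbt1 qbt5 qbt14))) (Nat.add (Nat.mul w15 (Nat.mul 6 (KB qbt1 qbt5 qbt15))) (Nat.add (Nat.mul w16 (Nat.mul 6 (KB qbt1 qbt5 qbt16))) (Nat.add (Nat.mul w17 (Nat.mul 6 (KB qbt1 qbt5 qbt17))) (Nat.add (Nat.mul w18 (Nat.mul 6 (KB qbt1 qbt5 qbt18))) (Nat.add (Nat.mul w19 (Nat.mul 6 (KB qbt1 qbt5 qbt19)))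 (Nat.add (Nat.mul w20 (Nat.mul 6 (KB qbt1 qbt5 qbt20))) (Nat.add (Nat.mul w21 (Nat.mul 6 (KB qbt1 qbt5 qbt21))) (Nat.add (Nat.mul w22 (Nat.mul 6 (KB qbt1 qbt5 qbt22))) (Nat.add (Nat.mul w23 (Nat.mul 6 (KB qbt1 qbt5 qbt23))) (Nat.add (Nat.mul w24 (Nat.mul 6 (KB qbt1 qbt5 qbt24))) 0))))))))))))))))))))) (Nat.add (Nat.mul w6 (Nat.add (Nat.mul w6 (Nat.mul 3 (KB qbt1 qbt6 qbt6))) (Nat.add (Nat.mul w7 (Nat.mul 6 (KB qbt1 qbt6 qbt7))) (Nat.add (Nat.mul w8 (Nat.mul 6 (KB qbt1 qbt6 qbt8))) (Nat.add (Nat.mul w9 (Nat.mul 6 (KB qbt1 qbt6 qbt9))) (Nat.add (Nat.mul w10 (Nat.mul 6 (KB qbt1 qbt6 qbt10))) (Nat.add (Nat.mul w11 (Nat.mul 6 (KB qbt1 qbt6 qbt11))) (Nat.add (Nat.mul w12 (Nat.mul 6 (KB qbt1 qbt6 qbt12))) (Nat.add (Nat.mul w13 (Nat.mul 6 (KB qbt1 qbt6 qbt13))) (Nat.add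 (Nat.mul w14 (Nat.mul 6 (KB qbt1 qbt6 qbt14))) (Nat.add (Nat.mul w15 (Nat.mul 6 (KB qbt1 qbt6 qbt15))) (Nat.add (Nat.mul w16 (Nat.mul 6 (KB qbt1 qbt6 qbt16))) (Nat.add (Nat.mul w17 (Nat.mul 6 (KB qbt1 qbt6 qbt17))) (Nat.add (Nat.mul w18 (Nat.mul 6 (KB qbt1 qbt6 qbt18))) (Nat.add (Nat.mul w19 (Nat.mul 6 (KB qbt1 qbt6 qbt19))) (Nat.add (Nat.mul w20 (Nat.mul 6 (KB qbt1 qbt6 qbt20))) (Nat.add (Nat.mul w21 (Nat.mul 6 (KB qbt1 qbt6 qbt21))) (Nat.add (Nat.mul w22 (Nat.mul 6 (KB qbt1 qbt6 qbt22))) (Nat.add (Nat.mul w23 (Nat.mul 6 (KB qbt1 qbt6 qbt23))) (Nat.add (Nat.mul w24 (Nat.mul 6 (KB qbt1 qbt6 qbt24))) 0)))))))))))))))))))) (Nat.add (Nat.mul w7 (Nat.add (Nat.mul w7 (Nat.mul 3 (KB qbt1 qbt7 qbt7))) (Nat.add (Nat.mul w8 (Nat.mul 6 (KB qbt1 qbt7 qbt8))) (Nat.add (Nat.mul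 w9 (Nat.mul 6 (KB qbt1 qbt7 qbt9))) (Nat.add (Nat.mul w10 (Nat.mul 6 (KB qbt1 qbt7 qbt10))) (Nat.add (Nat.mul w11 (Nat.mul 6 (KB qbt1 qbt7 qbt11))) (Nat.add (Nat.mul w12 (Nat.mul 6 (KB qbt1 qbt7 qbt12))) (Nat.add (Nat.mul w13 (Nat.mul 6 (KB qbt1 qbt7 qbt13))) (Nat.add (Nat.mul w14 (Nat.mul 6 (KB qbt1 qbt7 qbt14))) (Nat.add (Nat.mul w15 (Nat.mul 6 (KB qbt1 qbt7 qbt15))) (Nat.add (Nat.mul w16 (Nat.mul 6 (KB qbt1 qbt7 qbt16))) (Nat.add (Nat.mul w17 (Nat.mul 6 (KB qbt1 qbt7 qbt17))) (Nat.add (Nat.mul w18 (Nat.mul 6 (KB qbt1 qbt7 qbt18))) (Nat.add (Nat.mul w19 (Nat.mul 6 (KB qbt1 qbt7 qbt19))) (Nat.add (Nat.mul w20 (Nat.mul 6 (KB qbt1 qbt7 qbt20))) (Nat.add (Nat.mul w21 (Nat.mul 6 (KB qbt1 qbt7 qbt21))) (Nat.add (Nat.mul w22 (Nat.mul 6 (KB qbt1 qbt7 qbt22))) (Nat.add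 (Nat.mul w23 (Nat.mul 6 (KB qbt1 qbt7 qbt23))) (Nat.add (Nat.mul w24 (Nat.mul 6 (KB qbt1 qbt7 qbt24))) 0))))))))))))))))))) (Nat.add (Nat.mul w8 (Nat.add (Nat.mul w8 (Nat.mul 3 (KB qbt1 qbt8 qbt8))) (Nat.add (Nat.mul w9 (Nat.mul 6 (KB qbt1 qbt8 qbt9))) (Nat.add (Nat.mul w10 (Nat.mul 6 (KB qbt1 qbt8 qbt10))) (Nat.add (Nat.mul w11 (Nat.mul 6 (KB qbt1 qbt8 qbt11))) (Nat.add (Nat.mul w12 (Nat.mul 6 (KB qbt1 qbt8 qbt12))) (Nat.add (Nat.mul w13 (Nat.mul 6 (KB qbt1 qbt8 qbt13))) (Nat.add (Nat.mul w14 (Nat.mul 6 (KB qbt1 qbt8 qbt14))) (Nat.add (Nat.mul w15 (Nat.mul 6 (KB qbt1 qbt8 qbt15))) (Nat.add (Nat.mul w16 (Nat.mul 6 (KB qbt1 qbt8 qbt16))) (Nat.add (Nat.mul w17 (Nat.mul 6 (KB qbt1 qbt8 qbt17))) (Nat.add (Nat.mul w18 (Nat.mul 6 (KB qbt1 qbt8 qbt18))) (Nat.add (Nat.mul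 w19 (Nat.mul 6 (KB qbt1 qbt8 qbt19))) (Nat.add (Nat.mul w20 (Nat.mul 6 (KB qbt1 qbt8 qbt20))) (Nat.add (Nat.mul w21 (Nat.mul 6 (KB qbt1 qbt8 qbt21))) (Nat.add (Nat.mul w22 (Nat.mul 6 (KB qbt1 qbt8 qbt22))) (Nat.add (Nat.mul w23 (Nat.mul 6 (KB qbt1 qbt8 qbt23))) (Nat.add (Nat.mul w24 (Nat.mul 6 (KB qbt1 qbt8 qbt24))) 0)))))))))))))))))) (Nat.add (Nat.mul w9 (Nat.add (Nat.mul w9 (Nat.mul 3 (KB qbt1 qbt9 qbt9))) (Nat.add (Nat.mul w10 (Nat.mul 6 (KB qbt1 qbt9 qbt10))) (Nat.add (Nat.mul w11 (Nat.mul 6 (KB qbt1 qbt9 qbt11))) (Nat.add (Nat.mul w12 (Nat.mul 6 (KB qbt1 qbt9 qbt12))) (Nat.add (Nat.mul w13 (Nat.mul 6 (KB qbt1 qbt9 qbt13))) (Nat.add (Nat.mul w14 (Nat.mul 6 (KB qbt1 qbt9 qbt14))) (Nat.add (Nat.mul w15 (Nat.mul 6 (KB qbt1 qbt9 qbt15))) (Nat.add (Nat.mul w16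 (Nat.mul 6 (KB qbt1 qbt9 qbt16))) (Nat.add (Nat.mul w17 (Nat.mul 6 (KB qbt1 qbt9 qbt17))) (Nat.add (Nat.mul w18 (Nat.mul 6 (KB qbt1 qbt9 qbt18))) (Nat.add (Nat.mul w19 (Nat.mul 6 (KB qbt1 qbt9 qbt19))) (Nat.add (Nat.mul w20 (Nat.mul 6 (KB qbt1 qbt9 qbt20))) (Nat.add (Nat.mul w21 (Nat.mul 6 (KB qbt1 qbt9 qbt21))) (Nat.add (Nat.mul w22 (Nat.mul 6 (KB qbt1 qbt9 qbt22))) (Nat.add (Nat.mul w23 (Nat.mul 6 (KB qbt1 qbt9 qbt23))) (Nat.add (Nat.mul w24 (Nat.mul 6 (KB qbt1 qbt9 qbt24))) 0))))))))))))))))) (Nat.add (Nat.mul w10 (Nat.add (Nat.mul w10 (Nat.mul 3 (KB qbt1 qbt10 qbt10))) (Nat.add (Nat.mul w11 (Nat.mul 6 (KB qbt1 qbt10 qbt11))) (Nat.add (Nat.mul w12 (Nat.mul 6 (KB qbt1 qbt10 qbt12))) (Nat.add (Nat.mul w13 (Nat.mul 6 (KB qbt1 qbt10 qbt13))) (Nat.add (Nat.mul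 w14 (Nat.mul 6 (KB qbt1 qbt10 qbt14))) (Nat.add (Nat.mul w15 (Nat.mul 6 (KB qbt1 qbt10 qbt15))) (Nat.add (Nat.mul w16 (Nat.mul 6 (KB qbt1 qbt10 qbt16))) (Nat.add (Nat.mul w17 (Nat.mul 6 (KB qbt1 qbt10 qbt17))) (Nat.add (Nat.mul w18 (Nat.mul 6 (KB qbt1 qbt10 qbt18))) (Nat.add (Nat.mul w19 (Nat.mul 6 (KB qbt1 qbt10 qbt19))) (Nat.add (Nat.mul w20 (Nat.mul 6 (KB qbt1 qbt10 qbt20))) (Nat.add (Nat.mul w21 (Nat.mul 6 (KB qbt1 qbt10 qbt21))) (Nat.add (Nat.mul w22 (Nat.mul 6 (KB qbt1 qbt10 qbt22))) (Nat.add (Nat.mul w23 (Nat.mul 6 (KB qbt1 qbt10 qbt23))) (Nat.add (Nat.mul w24 (Nat.mul 6 (KB qbt1 qbt10 qbt24))) 0)))))))))))))))) (Nat.add (Nat.mul w11 (Nat.add (Nat.mul w11 (Nat.mul 3 (KB qbt1 qbt11 qbt11))) (Nat.add (Nat.mul w12 (Nat.mul 6 (KB qbt1 qbt11 qbt12))) (Nat.add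 (Nat.mul w13 (Nat.mul 6 (KB qbt1 qbt11 qbt13))) (Nat.add (Nat.mul w14 (Nat.mul 6 (KB qbt1 qbt11 qbt14))) (Nat.add (Nat.mul w15 (Nat.mul 6 (KB qbt1 qbt11 qbt15))) (Nat.add (Nat.mul w16 (Nat.mul 6 (KB qbt1 qbt11 qbt16))) (Nat.add (Nat.mul w17 (Nat.mul 6 (KB qbt1 qbt11 qbt17))) (Nat.add (Nat.mul w18 (Nat.mul 6 (KB qbt1 qbt11 qbt18))) (Nat.add (Nat.mul w19 (Nat.mul 6 (KB qbt1 qbt11 qbt19))) (Nat.add (Nat.mul w20 (Nat.mul 6 (KB qbt1 qbt11 qbt20))) (Nat.add (Nat.mul w21 (Nat.mul 6 (KB qbt1 qbt11 qbt21))) (Nat.add (Nat.mul w22 (Nat.mul 6 (KB qbt1 qbt11 qbt22))) (Nat.add (Nat.mul w23 (Nat.mul 6 (KB qbt1 qbt11 qbt23))) (Nat.add (Nat.mul w24 (Nat.mul 6 (KB qbt1 qbt11 qbt24))) 0))))))))))))))) (Nat.add (Nat.mul w12 (Nat.add (Nat.mul w12 (Nat.mul 3 (KB qbt1 qbt12 qbt12)))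 (Nat.add (Nat.mul w13 (Nat.mul 6 (KB qbt1 qbt12 qbt13))) (Nat.add (Nat.mul w14 (Nat.mul 6 (KB qbt1 qbt12 qbt14))) (Nat.add (Nat.mul w15 (Nat.mul 6 (KB qbt1 qbt12 qbt15))) (Nat.add (Nat.mul w16 (Nat.mul 6 (KB qbt1 qbt12 qbt16))) (Nat.add (Nat.mul w17 (Nat.mul 6 (KB qbt1 qbt12 qbt17))) (Nat.add (Nat.mul w18 (Nat.mul 6 (KB qbt1 qbt12 qbt18))) (Nat.add (Nat.mul w19 (Nat.mul 6 (KB qbt1 qbt12 qbt19))) (Nat.add (Nat.mul w20 (Nat.mul 6 (KB qbt1 qbt12 qbt20))) (Nat.add (Nat.mul w21 (Nat.mul 6 (KB qbt1 qbt12 qbt21))) (Nat.add (Nat.mul w22 (Nat.mul 6 (KB qbt1 qbt12 qbt22))) (Nat.add (Nat.mul w23 (Nat.mul 6 (KB qbt1 qbt12 qbt23))) (Nat.add (Nat.mul w24 (Nat.mul 6 (KB qbt1 qbt12 qbt24))) 0)))))))))))))) (Nat.add (Nat.mul w13 (Nat.add (Nat.mul w13 (Nat.mul 3 (KB qbt1 qbt13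 qbt13))) (Nat.add (Nat.mul w14 (Nat.mul 6 (KB qbt1 qbt13 qbt14))) (Nat.add (Nat.mul w15 (Nat.mul 6 (KB qbt1 qbt13 qbt15))) (Nat.add (Nat.mul w16 (Nat.mul 6 (KB qbt1 qbt13 qbt16))) (Nat.add (Nat.mul w17 (Nat.mul 6 (KB qbt1 qbt13 qbt17))) (Nat.add (Nat.mul w18 (Nat.mul 6 (KB qbt1 qbt13 qbt18))) (Nat.add (Nat.mul w19 (Nat.mul 6 (KB qbt1 qbt13 qbt19))) (Nat.add (Nat.mul w20 (Nat.mul 6 (KB qbt1 qbt13 qbt20))) (Nat.add (Nat.mul w21 (Nat.mul 6 (KB qbt1 qbt13 qbt21))) (Nat.add (Nat.mul w22 (Nat.mul 6 (KB qbt1 qbt13 qbt22))) (Nat.add (Nat.mul w23 (Nat.mul 6 (KB qbt1 qbt13 qbt23))) (Nat.add (Nat.mul w24 (Nat.mul 6 (KB qbt1 qbt13 qbt24))) 0))))))))))))) (Nat.add (Nat.mul w14 (Nat.add (Nat.mul w14 (Nat.mul 3 (KB qbt1 qbt14 qbt14))) (Nat.add (Nat.mul w15 (Nat.mul 6 (KB qbt1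 qbt14 qbt15))) (Nat.add (Nat.mul w16 (Nat.mul 6 (KB qbt1 qbt14 qbt16))) (Nat.add (Nat.mul w17 (Nat.mul 6 (KB qbt1 qbt14 qbt17))) (Nat.add (Nat.mul w18 (Nat.mul 6 (KB qbt1 qbt14 qbt18))) (Nat.add (Nat.mul w19 (Nat.mul 6 (KB qbt1 qbt14 qbt19))) (Nat.add (Nat.mul w20 (Nat.mul 6 (KB qbt1 qbt14 qbt20))) (Nat.add (Nat.mul w21 (Nat.mul 6 (KB qbt1 qbt14 qbt21))) (Nat.add (Nat.mul w22 (Nat.mul 6 (KB qbt1 qbt14 qbt22))) (Nat.add (Nat.mul w23 (Nat.mul 6 (KB qbt1 qbt14 qbt23))) (Nat.add (Nat.mul w24 (Nat.mul 6 (KB qbt1 qbt14 qbt24))) 0)))))))))))) (Nat.add (Nat.mul w15 (Nat.add (Nat.mul w15 (Nat.mul 3 (KB qbt1 qbt15 qbt15))) (Nat.add (Nat.mul w16 (Nat.mul 6 (KB qbt1 qbt15 qbt16))) (Nat.add (Nat.mul w17 (Nat.mul 6 (KB qbt1 qbt15 qbt17))) (Nat.add (Nat.mul w18 (Nat.mul 6 (KB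 qbt1 qbt15 qbt18))) (Nat.add (Nat.mul w19 (Nat.mul 6 (KB qbt1 qbt15 qbt19))) (Nat.add (Nat.mul w20 (Nat.mul 6 (KB qbt1 qbt15 qbt20))) (Nat.add (Nat.mul w21 (Nat.mul 6 (KB qbt1 qbt15 qbt21))) (Nat.add (Nat.mul w22 (Nat.mul 6 (KB qbt1 qbt15 qbt22))) (Nat.add (Nat.mul w23 (Nat.mul 6 (KB qbt1 qbt15 qbt23))) (Nat.add (Nat.mul w24 (Nat.mul 6 (KB qbt1 qbt15 qbt24))) 0))))))))))) (Nat.add (Nat.mul w16 (Nat.add (Nat.mul w16 (Nat.mul 3 (KB qbt1 qbt16 qbt16))) (Nat.add (Nat.mul w17 (Nat.mul 6 (KB qbt1 qbt16 qbt17))) (Nat.add (Nat.mul w18 (Nat.mul 6 (KB qbt1 qbt16 qbt18))) (Nat.add (Nat.mul w19 (Nat.mul 6 (KB qbt1 qbt16 qbt19))) (Nat.add (Nat.mul w20 (Nat.mul 6 (KB qbt1 qbt16 qbt20))) (Nat.add (Nat.mul w21 (Nat.mul 6 (KB qbt1 qbt16 qbt21))) (Nat.add (Nat.mul w22 (Nat.mul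 6 (KB qbt1 qbt16 qbt22))) (Nat.add (Nat.mul w23 (Nat.mul 6 (KB qbt1 qbt16 qbt23))) (Nat.add (Nat.mul w24 (Nat.mul 6 (KB qbt1 qbt16 qbt24))) 0)))))))))) (Nat.add (Nat.mul w17 (Nat.add (Nat.mul w17 (Nat.mul 3 (KB qbt1 qbt17 qbt17))) (Nat.add (Nat.mul w18 (Nat.mul 6 (KB qbt1 qbt17 qbt18))) (Nat.add (Nat.mul w19 (Nat.mul 6 (KB qbt1 qbt17 qbt19))) (Nat.add (Nat.mul w20 (Nat.mul 6 (KB qbt1 qbt17 qbt20))) (Nat.add (Nat.mul w21 (Nat.mul 6 (KB qbt1 qbt17 qbt21))) (Nat.add (Nat.mul w22 (Nat.mul 6 (KB qbt1 qbt17 qbt22))) (Nat.add (Nat.mul w23 (Nat.mul 6 (KB qbt1 qbt17 qbt23))) (Nat.add (Nat.mul w24 (Nat.mul 6 (KB qbt1 qbt17 qbt24))) 0))))))))) (Nat.add (Nat.mul w18 (Nat.add (Nat.mul w18 (Nat.mul 3 (KB qbt1 qbt18 qbt18))) (Nat.add (Nat.mul w19 (Nat.mul 6 (KB qbt1 qbt18 qbt19)))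 (Nat.add (Nat.mul w20 (Nat.mul 6 (KB qbt1 qbt18 qbt20))) (Nat.add (Nat.mul w21 (Nat.mul 6 (KB qbt1 qbt18 qbt21))) (Nat.add (Nat.mul w22 (Nat.mul 6 (KB qbt1 qbt18 qbt22))) (Nat.add (Nat.mul w23 (Nat.mul 6 (KB qbt1 qbt18 qbt23))) (Nat.add (Nat.mul w24 (Nat.mul 6 (KB qbt1 qbt18 qbt24))) 0)))))))) (Nat.add (Nat.mul w19 (Nat.add (Nat.mul w19 (Nat.mul 3 (KB qbt1 qbt19 qbt19))) (Nat.add (Nat.mul w20 (Nat.mul 6 (KB qbt1 qbt19 qbt20))) (Nat.add (Nat.mul w21 (Nat.mul 6 (KB qbt1 qbt19 qbt21))) (Nat.add (Nat.mul w22 (Nat.mul 6 (KB qbt1 qbt19 qbt22))) (Nat.add (Nat.mul w23 (Nat.mul 6 (KB qbt1 qbt19 qbt23))) (Nat.add (Nat.mul w24 (Nat.mul 6 (KB qbt1 qbt19 qbt24))) 0))))))) (Nat.add (Nat.mul w20 (Nat.add (Nat.mul w20 (Nat.mul 3 (KB qbt1 qbt20 qbt20))) (Nat.add (Nat.mul w21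 (Nat.mul 6 (KB qbt1 qbt20 qbt21))) (Nat.add (Nat.mul w22 (Nat.mul 6 (KB qbt1 qbt20 qbt22))) (Nat.add (Nat.mul w23 (Nat.mul 6 (KB qbt1 qbt20 qbt23))) (Nat.add (Nat.mul w24 (Nat.mul 6 (KB qbt1 qbt20 qbt24))) 0)))))) (Nat.add (Nat.mul w21 (Nat.add (Nat.mul w21 (Nat.mul 3 (KB qbt1 qbt21 qbt21))) (Nat.add (Nat.mul w22 (Nat.mul 6 (KB qbt1 qbt21 qbt22))) (Nat.add (Nat.mul w23 (Nat.mul 6 (KB qbt1 qbt21 qbt23))) (Nat.add (Nat.mul w24 (Nat.mul 6 (KB qbt1 qbt21 qbt24))) 0))))) (Nat.add (Nat.mul w22 (Nat.add (Nat.mul w22 (Nat.mul 3 (KB qbt1 qbt22 qbt22))) (Nat.add (Nat.mul w23 (Nat.mul 6 (KB qbt1 qbt22 qbt23))) (Nat.add (Nat.mul w24 (Nat.mul 6 (KB qbt1 qbt22 qbt24))) 0)))) (Nat.add (Nat.mul w23 (Nat.add (Nat.mul w23 (Nat.mul 3 (KB qbt1 qbt23 qbt23))) (Nat.add (Nat.mul w24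 (Nat.mul 6 (KB qbt1 qbt23 qbt24))) 0))) (Nat.add (Nat.mul w24 (Nat.add (Nat.mul w24 (Nat.mul 3 (KB qbt1 qbt24 qbt24))) (0))) 0))))))))))))))))))))))))

/-- Terms with least index 2. -/
noncomputable def qb2 (w2 w3 w4 w5 w6 w7 w8 w9 w10 w11 w12 w13 w14 w15 w16 w17 w18 w19 w20 w21 w22 w23 w24 : Nat) : Nat :=
  Nat.mul w2 (Nat.add (Nat.mul w2 (Nat.add (Nat.mul w2 (KB qbt2 qbt2 qbt2)) (Nat.add (Nat.mul w3 (Nat.mul 3 (KB qbt2 qbt2 qbt3))) (Nat.add (Nat.mul w4 (Nat.mul 3 (KB qbt2 qbt2 qbt4))) (Nat.add (Nat.mul w5 (Nat.mul 3 (KB qbt2 qbt2 qbt5))) (Nat.add (Nat.mul w6 (Nat.mul 3 (KB qbt2 qbt2 qbt6))) (Nat.add (Nat.mul w7 (Nat.mul 3 (KB qbt2 qbt2 qbt7))) (Nat.add (Nat.mul w8 (Nat.mul 3 (KB qbt2 qbt2 qbt8))) (Nat.add (Nat.mul w9 (Nat.mul 3 (KB qbt2 qbt2 qbt9))) (Nat.add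 (Nat.mul w10 (Nat.mul 3 (KB qbt2 qbt2 qbt10))) (Nat.add (Nat.mul w11 (Nat.mul 3 (KB qbt2 qbt2 qbt11))) (Nat.add (Nat.mul w12 (Nat.mul 3 (KB qbt2 qbt2 qbt12))) (Nat.add (Nat.mul w13 (Nat.mul 3 (KB qbt2 qbt2 qbt13))) (Nat.add (Nat.mul w14 (Nat.mul 3 (KB qbt2 qbt2 qbt14))) (Nat.add (Nat.mul w15 (Nat.mul 3 (KB qbt2 qbt2 qbt15))) (Nat.add (Nat.mul w16 (Nat.mul 3 (KB qbt2 qbt2 qbt16))) (Nat.add (Nat.mul w17 (Nat.mul 3 (KB qbt2 qbt2 qbt17))) (Nat.add (Nat.mul w18 (Nat.mul 3 (KB qbt2 qbt2 qbt18))) (Nat.add (Nat.mul w19 (Nat.mul 3 (KB qbt2 qbt2 qbt19))) (Nat.add (Nat.mul w20 (Nat.mul 3 (KB qbt2 qbt2 qbt20))) (Nat.add (Nat.mul w21 (Nat.mul 3 (KB qbt2 qbt2 qbt21))) (Nat.add (Nat.mul w22 (Nat.mul 3 (KB qbt2 qbt2 qbt22))) (Nat.add (Nat.mul w23 (Nat.mul 3 (KB qbt2 qbt2 qbt23)))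 (Nat.add (Nat.mul w24 (Nat.mul 3 (KB qbt2 qbt2 qbt24))) 0)))))))))))))))))))))))) (Nat.add (Nat.mul w3 (Nat.add (Nat.mul w3 (Nat.mul 3 (KB qbt2 qbt3 qbt3))) (Nat.add (Nat.mul w4 (Nat.mul 6 (KB qbt2 qbt3 qbt4))) (Nat.add (Nat.mul w5 (Nat.mul 6 (KB qbt2 qbt3 qbt5))) (Nat.add (Nat.mul w6 (Nat.mul 6 (KB qbt2 qbt3 qbt6))) (Nat.add (Nat.mul w7 (Nat.mul 6 (KB qbt2 qbt3 qbt7))) (Nat.add (Nat.mul w8 (Nat.mul 6 (KB qbt2 qbt3 qbt8))) (Nat.add (Nat.mul w9 (Nat.mul 6 (KB qbt2 qbt3 qbt9))) (Nat.add (Nat.mul w10 (Nat.mul 6 (KB qbt2 qbt3 qbt10))) (Nat.add (Nat.mul w11 (Nat.mul 6 (KB qbt2 qbt3 qbt11))) (Nat.add (Nat.mul w12 (Nat.mul 6 (KB qbt2 qbt3 qbt12))) (Nat.add (Nat.mul w13 (Nat.mul 6 (KB qbt2 qbt3 qbt13))) (Nat.add (Nat.mul w14 (Nat.mul 6 (KB qbt2 qbt3 qbt14))) (Nat.add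 (Nat.mul w15 (Nat.mul 6 (KB qbt2 qbt3 qbt15))) (Nat.add (Nat.mul w16 (Nat.mul 6 (KB qbt2 qbt3 qbt16))) (Nat.add (Nat.mul w17 (Nat.mul 6 (KB qbt2 qbt3 qbt17))) (Nat.add (Nat.mul w18 (Nat.mul 6 (KB qbt2 qbt3 qbt18))) (Nat.add (Nat.mul w19 (Nat.mul 6 (KB qbt2 qbt3 qbt19))) (Nat.add (Nat.mul w20 (Nat.mul 6 (KB qbt2 qbt3 qbt20))) (Nat.add (Nat.mul w21 (Nat.mul 6 (KB qbt2 qbt3 qbt21))) (Nat.add (Nat.mul w22 (Nat.mul 6 (KB qbt2 qbt3 qbt22))) (Nat.add (Nat.mul w23 (Nat.mul 6 (KB qbt2 qbt3 qbt23))) (Nat.add (Nat.mul w24 (Nat.mul 6 (KB qbt2 qbt3 qbt24))) 0))))))))))))))))))))))) (Nat.add (Nat.mul w4 (Nat.add (Nat.mul w4 (Nat.mul 3 (KB qbt2 qbt4 qbt4))) (Nat.add (Nat.mul w5 (Nat.mul 6 (KB qbt2 qbt4 qbt5))) (Nat.add (Nat.mul w6 (Nat.mul 6 (KB qbt2 qbt4 qbt6))) (Nat.add (Nat.mul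 w7 (Nat.mul 6 (KB qbt2 qbt4 qbt7))) (Nat.add (Nat.mul w8 (Nat.mul 6 (KB qbt2 qbt4 qbt8))) (Nat.add (Nat.mul w9 (Nat.mul 6 (KB qbt2 qbt4 qbt9))) (Nat.add (Nat.mul w10 (Nat.mul 6 (KB qbt2 qbt4 qbt10))) (Nat.add (Nat.mul w11 (Nat.mul 6 (KB qbt2 qbt4 qbt11))) (Nat.add (Nat.mul w12 (Nat.mul 6 (KB qbt2 qbt4 qbt12))) (Nat.add (Nat.mul w13 (Nat.mul 6 (KB qbt2 qbt4 qbt13))) (Nat.add (Nat.mul w14 (Nat.mul 6 (KB qbt2 qbt4 qbt14))) (Nat.add (Nat.mul w15 (Nat.mul 6 (KB qbt2 qbt4 qbt15))) (Nat.add (Nat.mul w16 (Nat.mul 6 (KB qbt2 qbt4 qbt16))) (Nat.add (Nat.mul w17 (Nat.mul 6 (KB qbt2 qbt4 qbt17))) (Nat.add (Nat.mul w18 (Nat.mul 6 (KB qbt2 qbt4 qbt18))) (Nat.add (Nat.mul w19 (Nat.mul 6 (KB qbt2 qbt4 qbt19))) (Nat.add (Nat.mul w20 (Nat.mul 6 (KB qbt2 qbt4 qbt20))) (Nat.add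 (Nat.mul w21 (Nat.mul 6 (KB qbt2 qbt4 qbt21))) (Nat.add (Nat.mul w22 (Nat.mul 6 (KB qbt2 qbt4 qbt22))) (Nat.add (Nat.mul w23 (Nat.mul 6 (KB qbt2 qbt4 qbt23))) (Nat.add (Nat.mul w24 (Nat.mul 6 (KB qbt2 qbt4 qbt24))) 0)))))))))))))))))))))) (Nat.add (Nat.mul w5 (Nat.add (Nat.mul w5 (Nat.mul 3 (KB qbt2 qbt5 qbt5))) (Nat.add (Nat.mul w6 (Nat.mul 6 (KB qbt2 qbt5 qbt6))) (Nat.add (Nat.mul w7 (Nat.mul 6 (KB qbt2 qbt5 qbt7))) (Nat.add (Nat.mul w8 (Nat.mul 6 (KB qbt2 qbt5 qbt8))) (Nat.add (Nat.mul w9 (Nat.mul 6 (KB qbt2 qbt5 qbt9))) (Nat.add (Nat.mul w10 (Nat.mul 6 (KB qbt2 qbt5 qbt10))) (Nat.add (Nat.mul w11 (Nat.mul 6 (KB qbt2 qbt5 qbt11))) (Nat.add (Nat.mul w12 (Nat.mul 6 (KB qbt2 qbt5 qbt12))) (Nat.add (Nat.mul w13 (Nat.mul 6 (KB qbt2 qbt5 qbt13))) (Nat.add (Nat.mul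 w14 (Nat.mul 6 (KB qbt2 qbt5 qbt14))) (Nat.add (Nat.mul w15 (Nat.mul 6 (KB qbt2 qbt5 qbt15))) (Nat.add (Nat.mul w16 (Nat.mul 6 (KB qbt2 qbt5 qbt16))) (Nat.add (Nat.mul w17 (Nat.mul 6 (KB qbt2 qbt5 qbt17))) (Nat.add (Nat.mul w18 (Nat.mul 6 (KB qbt2 qbt5 qbt18))) (Nat.add (Nat.mul w19 (Nat.mul 6 (KB qbt2 qbt5 qbt19))) (Nat.add (Nat.mul w20 (Nat.mul 6 (KB qbt2 qbt5 qbt20))) (Nat.add (Nat.mul w21 (Nat.mul 6 (KB qbt2 qbt5 qbt21))) (Nat.add (Nat.mul w22 (Nat.mul 6 (KB qbt2 qbt5 qbt22))) (Nat.add (Nat.mul w23 (Nat.mul 6 (KB qbt2 qbt5 qbt23))) (Nat.add (Nat.mul w24 (Nat.mul 6 (KB qbt2 qbt5 qbt24))) 0))))))))))))))))))))) (Nat.add (Nat.mul w6 (Nat.add (Nat.mul w6 (Nat.mul 3 (KB qbt2 qbt6 qbt6))) (Nat.add (Nat.mul w7 (Nat.mul 6 (KB qbt2 qbt6 qbt7))) (Nat.add (Nat.mul w8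 (Nat.mul 6 (KB qbt2 qbt6 qbt8))) (Nat.add (Nat.mul w9 (Nat.mul 6 (KB qbt2 qbt6 qbt9))) (Nat.add (Nat.mul w10 (Nat.mul 6 (KB qbt2 qbt6 qbt10))) (Nat.add (Nat.mul w11 (Nat.mul 6 (KB qbt2 qbt6 qbt11))) (Nat.add (Nat.mul w12 (Nat.mul 6 (KB qbt2 qbt6 qbt12))) (Nat.add (Nat.mul w13 (Nat.mul 6 (KB qbt2 qbt6 qbt13))) (Nat.add (Nat.mul w14 (Nat.mul 6 (KB qbt2 qbt6 qbt14))) (Nat.add (Nat.mul w15 (Nat.mul 6 (KB qbt2 qbt6 qbt15))) (Nat.add (Nat.mul w16 (Nat.mul 6 (KB qbt2 qbt6 qbt16))) (Nat.add (Nat.mul w17 (Nat.mul 6 (KB qbt2 qbt6 qbt17))) (Nat.add (Nat.mul w18 (Nat.mul 6 (KB qbt2 qbt6 qbt18))) (Nat.add (Nat.mul w19 (Nat.mul 6 (KB qbt2 qbt6 qbt19))) (Nat.add (Nat.mul w20 (Nat.mul 6 (KB qbt2 qbt6 qbt20))) (Nat.add (Nat.mul w21 (Nat.mul 6 (KB qbt2 qbt6 qbt21))) (Nat.add (Nat.mul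 w22 (Nat.mul 6 (KB qbt2 qbt6 qbt22))) (Nat.add (Nat.mul w23 (Nat.mul 6 (KB qbt2 qbt6 qbt23))) (Nat.add (Nat.mul w24 (Nat.mul 6 (KB qbt2 qbt6 qbt24))) 0)))))))))))))))))))) (Nat.add (Nat.mul w7 (Nat.add (Nat.mul w7 (Nat.mul 3 (KB qbt2 qbt7 qbt7))) (Nat.add (Nat.mul w8 (Nat.mul 6 (KB qbt2 qbt7 qbt8))) (Nat.add (Nat.mul w9 (Nat.mul 6 (KB qbt2 qbt7 qbt9))) (Nat.add (Nat.mul w10 (Nat.mul 6 (KB qbt2 qbt7 qbt10))) (Nat.add (Nat.mul w11 (Nat.mul 6 (KB qbt2 qbt7 qbt11))) (Nat.add (Nat.mul w12 (Nat.mul 6 (KB qbt2 qbt7 qbt12))) (Nat.add (Nat.mul w13 (Nat.mul 6 (KB qbt2 qbt7 qbt13))) (Nat.add (Nat.mul w14 (Nat.mul 6 (KB qbt2 qbt7 qbt14))) (Nat.add (Nat.mul w15 (Nat.mul 6 (KB qbt2 qbt7 qbt15))) (Nat.add (Nat.mul w16 (Nat.mul 6 (KB qbt2 qbt7 qbt16))) (Nat.add (Nat.mul w17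 (Nat.mul 6 (KB qbt2 qbt7 qbt17))) (Nat.add (Nat.mul w18 (Nat.mul 6 (KB qbt2 qbt7 qbt18))) (Nat.add (Nat.mul w19 (Nat.mul 6 (KB qbt2 qbt7 qbt19))) (Nat.add (Nat.mul w20 (Nat.mul 6 (KB qbt2 qbt7 qbt20))) (Nat.add (Nat.mul w21 (Nat.mul 6 (KB qbt2 qbt7 qbt21))) (Nat.add (Nat.mul w22 (Nat.mul 6 (KB qbt2 qbt7 qbt22))) (Nat.add (Nat.mul w23 (Nat.mul 6 (KB qbt2 qbt7 qbt23))) (Nat.add (Nat.mul w24 (Nat.mul 6 (KB qbt2 qbt7 qbt24))) 0))))))))))))))))))) (Nat.add (Nat.mul w8 (Nat.add (Nat.mul w8 (Nat.mul 3 (KB qbt2 qbt8 qbt8))) (Nat.add (Nat.mul w9 (Nat.mul 6 (KB qbt2 qbt8 qbt9))) (Nat.add (Nat.mul w10 (Nat.mul 6 (KB qbt2 qbt8 qbt10))) (Nat.add (Nat.mul w11 (Nat.mul 6 (KB qbt2 qbt8 qbt11))) (Nat.add (Nat.mul w12 (Nat.mul 6 (KB qbt2 qbt8 qbt12))) (Nat.add (Nat.mul w13 (Nat.mul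 6 (KB qbt2 qbt8 qbt13))) (Nat.add (Nat.mul w14 (Nat.mul 6 (KB qbt2 qbt8 qbt14))) (Nat.add (Nat.mul w15 (Nat.mul 6 (KB qbt2 qbt8 qbt15))) (Nat.add (Nat.mul w16 (Nat.mul 6 (KB qbt2 qbt8 qbt16))) (Nat.add (Nat.mul w17 (Nat.mul 6 (KB qbt2 qbt8 qbt17))) (Nat.add (Nat.mul w18 (Nat.mul 6 (KB qbt2 qbt8 qbt18))) (Nat.add (Nat.mul w19 (Nat.mul 6 (KB qbt2 qbt8 qbt19))) (Nat.add (Nat.mul w20 (Nat.mul 6 (KB qbt2 qbt8 qbt20))) (Nat.add (Nat.mul w21 (Nat.mul 6 (KB qbt2 qbt8 qbt21))) (Nat.add (Nat.mul w22 (Nat.mul 6 (KB qbt2 qbt8 qbt22))) (Nat.add (Nat.mul w23 (Nat.mul 6 (KB qbt2 qbt8 qbt23))) (Nat.add (Nat.mul w24 (Nat.mul 6 (KB qbt2 qbt8 qbt24))) 0)))))))))))))))))) (Nat.add (Nat.mul w9 (Nat.add (Nat.mul w9 (Nat.mul 3 (KB qbt2 qbt9 qbt9))) (Nat.add (Nat.mul w10 (Nat.mul 6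 (KB qbt2 qbt9 qbt10))) (Nat.add (Nat.mul w11 (Nat.mul 6 (KB qbt2 qbt9 qbt11))) (Nat.add (Nat.mul w12 (Nat.mul 6 (KB qbt2 qbt9 qbt12))) (Nat.add (Nat.mul w13 (Nat.mul 6 (KB qbt2 qbt9 qbt13))) (Nat.add (Nat.mul w14 (Nat.mul 6 (KB qbt2 qbt9 qbt14))) (Nat.add (Nat.mul w15 (Nat.mul 6 (KB qbt2 qbt9 qbt15))) (Nat.add (Nat.mul w16 (Nat.mul 6 (KB qbt2 qbt9 qbt16))) (Nat.add (Nat.mul w17 (Nat.mul 6 (KB qbt2 qbt9 qbt17))) (Nat.add (Nat.mul w18 (Nat.mul 6 (KB qbt2 qbt9 qbt18))) (Nat.add (Nat.mul w19 (Nat.mul 6 (KB qbt2 qbt9 qbt19))) (Nat.add (Nat.mul w20 (Nat.mul 6 (KB qbt2 qbt9 qbt20))) (Nat.add (Nat.mul w21 (Nat.mul 6 (KB qbt2 qbt9 qbt21))) (Nat.add (Nat.mul w22 (Nat.mul 6 (KB qbt2 qbt9 qbt22))) (Nat.add (Nat.mul w23 (Nat.mul 6 (KB qbt2 qbt9 qbt23))) (Nat.add (Nat.mul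 w24 (Nat.mul 6 (KB qbt2 qbt9 qbt24))) 0))))))))))))))))) (Nat.add (Nat.mul w10 (Nat.add (Nat.mul w10 (Nat.mul 3 (KB qbt2 qbt10 qbt10))) (Nat.add (Nat.mul w11 (Nat.mul 6 (KB qbt2 qbt10 qbt11))) (Nat.add (Nat.mul w12 (Nat.mul 6 (KB qbt2 qbt10 qbt12))) (Nat.add (Nat.mul w13 (Nat.mul 6 (KB qbt2 qbt10 qbt13))) (Nat.add (Nat.mul w14 (Nat.mul 6 (KB qbt2 qbt10 qbt14))) (Nat.add (Nat.mul w15 (Nat.mul 6 (KB qbt2 qbt10 qbt15))) (Nat.add (Nat.mul w16 (Nat.mul 6 (KB qbt2 qbt10 qbt16))) (Nat.add (Nat.mul w17 (Nat.mul 6 (KB qbt2 qbt10 qbt17))) (Nat.add (Nat.mul w18 (Nat.mul 6 (KB qbt2 qbt10 qbt18))) (Nat.add (Nat.mul w19 (Nat.mul 6 (KB qbt2 qbt10 qbt19))) (Nat.add (Nat.mul w20 (Nat.mul 6 (KB qbt2 qbt10 qbt20))) (Nat.add (Nat.mul w21 (Nat.mul 6 (KB qbt2 qbt10 qbt21))) (Nat.add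 (Nat.mul w22 (Nat.mul 6 (KB qbt2 qbt10 qbt22))) (Nat.add (Nat.mul w23 (Nat.mul 6 (KB qbt2 qbt10 qbt23))) (Nat.add (Nat.mul w24 (Nat.mul 6 (KB qbt2 qbt10 qbt24))) 0)))))))))))))))) (Nat.add (Nat.mul w11 (Nat.add (Nat.mul w11 (Nat.mul 3 (KB qbt2 qbt11 qbt11))) (Nat.add (Nat.mul w12 (Nat.mul 6 (KB qbt2 qbt11 qbt12))) (Nat.add (Nat.mul w13 (Nat.mul 6 (KB qbt2 qbt11 qbt13))) (Nat.add (Nat.mul w14 (Nat.mul 6 (KB qbt2 qbt11 qbt14))) (Nat.add (Nat.mul w15 (Nat.mul 6 (KB qbt2 qbt11 qbt15))) (Nat.add (Nat.mul w16 (Nat.mul 6 (KB qbt2 qbt11 qbt16))) (Nat.add (Nat.mul w17 (Nat.mul 6 (KB qbt2 qbt11 qbt17))) (Nat.add (Nat.mul w18 (Nat.mul 6 (KB qbt2 qbt11 qbt18))) (Nat.add (Nat.mul w19 (Nat.mul 6 (KB qbt2 qbt11 qbt19))) (Nat.add (Nat.mul w20 (Nat.mul 6 (KB qbt2 qbt11 qbt20)))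 (Nat.add (Nat.mul w21 (Nat.mul 6 (KB qbt2 qbt11 qbt21))) (Nat.add (Nat.mul w22 (Nat.mul 6 (KB qbt2 qbt11 qbt22))) (Nat.add (Nat.mul w23 (Nat.mul 6 (KB qbt2 qbt11 qbt23))) (Nat.add (Nat.mul w24 (Nat.mul 6 (KB qbt2 qbt11 qbt24))) 0))))))))))))))) (Nat.add (Nat.mul w12 (Nat.add (Nat.mul w12 (Nat.mul 3 (KB qbt2 qbt12 qbt12))) (Nat.add (Nat.mul w13 (Nat.mul 6 (KB qbt2 qbt12 qbt13))) (Nat.add (Nat.mul w14 (Nat.mul 6 (KB qbt2 qbt12 qbt14))) (Nat.add (Nat.mul w15 (Nat.mul 6 (KB qbt2 qbt12 qbt15))) (Nat.add (Nat.mul w16 (Nat.mul 6 (KB qbt2 qbt12 qbt16))) (Nat.add (Nat.mul w17 (Nat.mul 6 (KB qbt2 qbt12 qbt17))) (Nat.add (Nat.mul w18 (Nat.mul 6 (KB qbt2 qbt12 qbt18))) (Nat.add (Nat.mul w19 (Nat.mul 6 (KB qbt2 qbt12 qbt19))) (Nat.add (Nat.mul w20 (Nat.mul 6 (KB qbt2 qbt12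 qbt20))) (Nat.add (Nat.mul w21 (Nat.mul 6 (KB qbt2 qbt12 qbt21))) (Nat.add (Nat.mul w22 (Nat.mul 6 (KB qbt2 qbt12 qbt22))) (Nat.add (Nat.mul w23 (Nat.mul 6 (KB qbt2 qbt12 qbt23))) (Nat.add (Nat.mul w24 (Nat.mul 6 (KB qbt2 qbt12 qbt24))) 0)))))))))))))) (Nat.add (Nat.mul w13 (Nat.add (Nat.mul w13 (Nat.mul 3 (KB qbt2 qbt13 qbt13))) (Nat.add (Nat.mul w14 (Nat.mul 6 (KB qbt2 qbt13 qbt14))) (Nat.add (Nat.mul w15 (Nat.mul 6 (KB qbt2 qbt13 qbt15))) (Nat.add (Nat.mul w16 (Nat.mul 6 (KB qbt2 qbt13 qbt16))) (Nat.add (Nat.mul w17 (Nat.mul 6 (KB qbt2 qbt13 qbt17))) (Nat.add (Nat.mul w18 (Nat.mul 6 (KB qbt2 qbt13 qbt18))) (Nat.add (Nat.mul w19 (Nat.mul 6 (KB qbt2 qbt13 qbt19))) (Nat.add (Nat.mul w20 (Nat.mul 6 (KB qbt2 qbt13 qbt20))) (Nat.add (Nat.mul w21 (Nat.mul 6 (KB qbt2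 qbt13 qbt21))) (Nat.add (Nat.mul w22 (Nat.mul 6 (KB qbt2 qbt13 qbt22))) (Nat.add (Nat.mul w23 (Nat.mul 6 (KB qbt2 qbt13 qbt23))) (Nat.add (Nat.mul w24 (Nat.mul 6 (KB qbt2 qbt13 qbt24))) 0))))))))))))) (Nat.add (Nat.mul w14 (Nat.add (Nat.mul w14 (Nat.mul 3 (KB qbt2 qbt14 qbt14))) (Nat.add (Nat.mul w15 (Nat.mul 6 (KB qbt2 qbt14 qbt15))) (Nat.add (Nat.mul w16 (Nat.mul 6 (KB qbt2 qbt14 qbt16))) (Nat.add (Nat.mul w17 (Nat.mul 6 (KB qbt2 qbt14 qbt17))) (Nat.add (Nat.mul w18 (Nat.mul 6 (KB qbt2 qbt14 qbt18))) (Nat.add (Nat.mul w19 (Nat.mul 6 (KB qbt2 qbt14 qbt19))) (Nat.add (Nat.mul w20 (Nat.mul 6 (KB qbt2 qbt14 qbt20))) (Nat.add (Nat.mul w21 (Nat.mul 6 (KB qbt2 qbt14 qbt21))) (Nat.add (Nat.mul w22 (Nat.mul 6 (KB qbt2 qbt14 qbt22))) (Nat.add (Nat.mul w23 (Nat.mul 6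 (KB qbt2 qbt14 qbt23))) (Nat.add (Nat.mul w24 (Nat.mul 6 (KB qbt2 qbt14 qbt24))) 0)))))))))))) (Nat.add (Nat.mul w15 (Nat.add (Nat.mul w15 (Nat.mul 3 (KB qbt2 qbt15 qbt15))) (Nat.add (Nat.mul w16 (Nat.mul 6 (KB qbt2 qbt15 qbt16))) (Nat.add (Nat.mul w17 (Nat.mul 6 (KB qbt2 qbt15 qbt17))) (Nat.add (Nat.mul w18 (Nat.mul 6 (KB qbt2 qbt15 qbt18))) (Nat.add (Nat.mul w19 (Nat.mul 6 (KB qbt2 qbt15 qbt19))) (Nat.add (Nat.mul w20 (Nat.mul 6 (KB qbt2 qbt15 qbt20))) (Nat.add (Nat.mul w21 (Nat.mul 6 (KB qbt2 qbt15 qbt21))) (Nat.add (Nat.mul w22 (Nat.mul 6 (KB qbt2 qbt15 qbt22))) (Nat.add (Nat.mul w23 (Nat.mul 6 (KB qbt2 qbt15 qbt23))) (Nat.add (Nat.mul w24 (Nat.mul 6 (KB qbt2 qbt15 qbt24))) 0))))))))))) (Nat.add (Nat.mul w16 (Nat.add (Nat.mul w16 (Nat.mul 3 (KB qbt2 qbt16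 qbt16))) (Nat.add (Nat.mul w17 (Nat.mul 6 (KB qbt2 qbt16 qbt17))) (Nat.add (Nat.mul w18 (Nat.mul 6 (KB qbt2 qbt16 qbt18))) (Nat.add (Nat.mul w19 (Nat.mul 6 (KB qbt2 qbt16 qbt19))) (Nat.add (Nat.mul w20 (Nat.mul 6 (KB qbt2 qbt16 qbt20))) (Nat.add (Nat.mul w21 (Nat.mul 6 (KB qbt2 qbt16 qbt21))) (Nat.add (Nat.mul w22 (Nat.mul 6 (KB qbt2 qbt16 qbt22))) (Nat.add (Nat.mul w23 (Nat.mul 6 (KB qbt2 qbt16 qbt23))) (Nat.add (Nat.mul w24 (Nat.mul 6 (KB qbt2 qbt16 qbt24))) 0)))))))))) (Nat.add (Nat.mul w17 (Nat.add (Nat.mul w17 (Nat.mul 3 (KB qbt2 qbt17 qbt17))) (Nat.add (Nat.mul w18 (Nat.mul 6 (KB qbt2 qbt17 qbt18))) (Nat.add (Nat.mul w19 (Nat.mul 6 (KB qbt2 qbt17 qbt19))) (Nat.add (Nat.mul w20 (Nat.mul 6 (KB qbt2 qbt17 qbt20))) (Nat.add (Nat.mul w21 (Nat.mul 6 (KB qbt2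 qbt17 qbt21))) (Nat.add (Nat.mul w22 (Nat.mul 6 (KB qbt2 qbt17 qbt22))) (Nat.add (Nat.mul w23 (Nat.mul 6 (KB qbt2 qbt17 qbt23))) (Nat.add (Nat.mul w24 (Nat.mul 6 (KB qbt2 qbt17 qbt24))) 0))))))))) (Nat.add (Nat.mul w18 (Nat.add (Nat.mul w18 (Nat.mul 3 (KB qbt2 qbt18 qbt18))) (Nat.add (Nat.mul w19 (Nat.mul 6 (KB qbt2 qbt18 qbt19))) (Nat.add (Nat.mul w20 (Nat.mul 6 (KB qbt2 qbt18 qbt20))) (Nat.add (Nat.mul w21 (Nat.mul 6 (KB qbt2 qbt18 qbt21))) (Nat.add (Nat.mul w22 (Nat.mul 6 (KB qbt2 qbt18 qbt22))) (Nat.add (Nat.mul w23 (Nat.mul 6 (KB qbt2 qbt18 qbt23))) (Nat.add (Nat.mul w24 (Nat.mul 6 (KB qbt2 qbt18 qbt24))) 0)))))))) (Nat.add (Nat.mul w19 (Nat.add (Nat.mul w19 (Nat.mul 3 (KB qbt2 qbt19 qbt19))) (Nat.add (Nat.mul w20 (Nat.mul 6 (KB qbt2 qbt19 qbt20))) (Nat.add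 (Nat.mul w21 (Nat.mul 6 (KB qbt2 qbt19 qbt21))) (Nat.add (Nat.mul w22 (Nat.mul 6 (KB qbt2 qbt19 qbt22))) (Nat.add (Nat.mul w23 (Nat.mul 6 (KB qbt2 qbt19 qbt23))) (Nat.add (Nat.mul w24 (Nat.mul 6 (KB qbt2 qbt19 qbt24))) 0))))))) (Nat.add (Nat.mul w20 (Nat.add (Nat.mul w20 (Nat.mul 3 (KB qbt2 qbt20 qbt20))) (Nat.add (Nat.mul w21 (Nat.mul 6 (KB qbt2 qbt20 qbt21))) (Nat.add (Nat.mul w22 (Nat.mul 6 (KB qbt2 qbt20 qbt22))) (Nat.add (Nat.mul w23 (Nat.mul 6 (KB qbt2 qbt20 qbt23))) (Nat.add (Nat.mul w24 (Nat.mul 6 (KB qbt2 qbt20 qbt24))) 0)))))) (Nat.add (Nat.mul w21 (Nat.add (Nat.mul w21 (Nat.mul 3 (KB qbt2 qbt21 qbt21))) (Nat.add (Nat.mul w22 (Nat.mul 6 (KB qbt2 qbt21 qbt22))) (Nat.add (Nat.mul w23 (Nat.mul 6 (KB qbt2 qbt21 qbt23))) (Nat.add (Nat.mul w24 (Nat.mul 6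 (KB qbt2 qbt21 qbt24))) 0))))) (Nat.add (Nat.mul w22 (Nat.add (Nat.mul w22 (Nat.mul 3 (KB qbt2 qbt22 qbt22))) (Nat.add (Nat.mul w23 (Nat.mul 6 (KB qbt2 qbt22 qbt23))) (Nat.add (Nat.mul w24 (Nat.mul 6 (KB qbt2 qbt22 qbt24))) 0)))) (Nat.add (Nat.mul w23 (Nat.add (Nat.mul w23 (Nat.mul 3 (KB qbt2 qbt23 qbt23))) (Nat.add (Nat.mul w24 (Nat.mul 6 (KB qbt2 qbt23 qbt24))) 0))) (Nat.add (Nat.mul w24 (Nat.add (Nat.mul w24 (Nat.mul 3 (KB qbt2 qbt24 qbt24))) (0))) 0)))))))))))))))))))))))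

/-- Terms with least index 3. -/
noncomputable def qb3 (w3 w4 w5 w6 w7 w8 w9 w10 w11 w12 w13 w14 w15 w16 w17 w18 w19 w20 w21 w22 w23 w24 : Nat) : Nat :=
  Nat.mul w3 (Nat.add (Nat.mul w3 (Nat.add (Nat.mul w3 (KB qbt3 qbt3 qbt3)) (Nat.add (Nat.mul w4 (Nat.mul 3 (KB qbt3 qbt3 qbt4))) (Nat.add (Nat.mul w5 (Nat.mul 3 (KB qbt3 qbt3 qbt5))) (Nat.add (Nat.mul w6 (Nat.mul 3 (KB qbt3 qbt3 qbt6))) (Nat.add (Nat.mul w7 (Nat.mul 3 (KB qbt3 qbt3 qbt7))) (Nat.add (Nat.mul w8 (Nat.mul 3 (KB qbt3 qbt3 qbt8))) (Nat.add (Nat.mul w9 (Nat.mul 3 (KB qbt3 qbt3 qbt9))) (Nat.add (Nat.mul w10 (Nat.mul 3 (KB qbt3 qbt3 qbt10))) (Nat.add (Nat.mul w11 (Nat.mul 3 (KB qbt3 qbt3 qbt11))) (Nat.add (Nat.mul w12 (Nat.mul 3 (KB qbt3 qbt3 qbt12))) (Nat.add (Nat.mul w13 (Nat.mul 3 (KB qbt3 qbt3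 qbt13))) (Nat.add (Nat.mul w14 (Nat.mul 3 (KB qbt3 qbt3 qbt14))) (Nat.add (Nat.mul w15 (Nat.mul 3 (KB qbt3 qbt3 qbt15))) (Nat.add (Nat.mul w16 (Nat.mul 3 (KB qbt3 qbt3 qbt16))) (Nat.add (Nat.mul w17 (Nat.mul 3 (KB qbt3 qbt3 qbt17))) (Nat.add (Nat.mul w18 (Nat.mul 3 (KB qbt3 qbt3 qbt18))) (Nat.add (Nat.mul w19 (Nat.mul 3 (KB qbt3 qbt3 qbt19))) (Nat.add (Nat.mul w20 (Nat.mul 3 (KB qbt3 qbt3 qbt20))) (Nat.add (Nat.mul w21 (Nat.mul 3 (KB qbt3 qbt3 qbt21))) (Nat.add (Nat.mul w22 (Nat.mul 3 (KB qbt3 qbt3 qbt22))) (Nat.add (Nat.mul w23 (Nat.mul 3 (KB qbt3 qbt3 qbt23))) (Nat.add (Nat.mul w24 (Nat.mul 3 (KB qbt3 qbt3 qbt24))) 0))))))))))))))))))))))) (Nat.add (Nat.mul w4 (Nat.add (Nat.mul w4 (Nat.mul 3 (KB qbt3 qbt4 qbt4))) (Nat.add (Nat.mul w5 (Nat.mul 6 (KB qbt3 qbt4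 qbt5))) (Nat.add (Nat.mul w6 (Nat.mul 6 (KB qbt3 qbt4 qbt6))) (Nat.add (Nat.mul w7 (Nat.mul 6 (KB qbt3 qbt4 qbt7))) (Nat.add (Nat.mul w8 (Nat.mul 6 (KB qbt3 qbt4 qbt8))) (Nat.add (Nat.mul w9 (Nat.mul 6 (KB qbt3 qbt4 qbt9))) (Nat.add (Nat.mul w10 (Nat.mul 6 (KB qbt3 qbt4 qbt10))) (Nat.add (Nat.mul w11 (Nat.mul 6 (KB qbt3 qbt4 qbt11))) (Nat.add (Nat.mul w12 (Nat.mul 6 (KB qbt3 qbt4 qbt12))) (Nat.add (Nat.mul w13 (Nat.mul 6 (KB qbt3 qbt4 qbt13))) (Nat.add (Nat.mul w14 (Nat.mul 6 (KB qbt3 qbt4 qbt14))) (Nat.add (Nat.mul w15 (Nat.mul 6 (KB qbt3 qbt4 qbt15))) (Nat.add (Nat.mul w16 (Nat.mul 6 (KB qbt3 qbt4 qbt16))) (Nat.add (Nat.mul w17 (Nat.mul 6 (KB qbt3 qbt4 qbt17))) (Nat.add (Nat.mul w18 (Nat.mul 6 (KB qbt3 qbt4 qbt18))) (Nat.add (Nat.mul w19 (Nat.mul 6 (KB qbt3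 qbt4 qbt19))) (Nat.add (Nat.mul w20 (Nat.mul 6 (KB qbt3 qbt4 qbt20))) (Nat.add (Nat.mul w21 (Nat.mul 6 (KB qbt3 qbt4 qbt21))) (Nat.add (Nat.mul w22 (Nat.mul 6 (KB qbt3 qbt4 qbt22))) (Nat.add (Nat.mul w23 (Nat.mul 6 (KB qbt3 qbt4 qbt23))) (Nat.add (Nat.mul w24 (Nat.mul 6 (KB qbt3 qbt4 qbt24))) 0)))))))))))))))))))))) (Nat.add (Nat.mul w5 (Nat.add (Nat.mul w5 (Nat.mul 3 (KB qbt3 qbt5 qbt5))) (Nat.add (Nat.mul w6 (Nat.mul 6 (KB qbt3 qbt5 qbt6))) (Nat.add (Nat.mul w7 (Nat.mul 6 (KB qbt3 qbt5 qbt7))) (Nat.add (Nat.mul w8 (Nat.mul 6 (KB qbt3 qbt5 qbt8))) (Nat.add (Nat.mul w9 (Nat.mul 6 (KB qbt3 qbt5 qbt9))) (Nat.add (Nat.mul w10 (Nat.mul 6 (KB qbt3 qbt5 qbt10))) (Nat.add (Nat.mul w11 (Nat.mul 6 (KB qbt3 qbt5 qbt11))) (Nat.add (Nat.mul w12 (Nat.mul 6 (KB qbt3 qbt5 qbt12)))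 (Nat.add (Nat.mul w13 (Nat.mul 6 (KB qbt3 qbt5 qbt13))) (Nat.add (Nat.mul w14 (Nat.mul 6 (KB qbt3 qbt5 qbt14))) (Nat.add (Nat.mul w15 (Nat.mul 6 (KB qbt3 qbt5 qbt15))) (Nat.add (Nat.mul w16 (Nat.mul 6 (KB qbt3 qbt5 qbt16))) (Nat.add (Nat.mul w17 (Nat.mul 6 (KB qbt3 qbt5 qbt17))) (Nat.add (Nat.mul w18 (Nat.mul 6 (KB qbt3 qbt5 qbt18))) (Nat.add (Nat.mul w19 (Nat.mul 6 (KB qbt3 qbt5 qbt19))) (Nat.add (Nat.mul w20 (Nat.mul 6 (KB qbt3 qbt5 qbt20))) (Nat.add (Nat.mul w21 (Nat.mul 6 (KB qbt3 qbt5 qbt21))) (Nat.add (Nat.mul w22 (Nat.mul 6 (KB qbt3 qbt5 qbt22))) (Nat.add (Nat.mul w23 (Nat.mul 6 (KB qbt3 qbt5 qbt23))) (Nat.add (Nat.mul w24 (Nat.mul 6 (KB qbt3 qbt5 qbt24))) 0))))))))))))))))))))) (Nat.add (Nat.mul w6 (Nat.add (Nat.mul w6 (Nat.mul 3 (KB qbt3 qbt6 qbt6)))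 (Nat.add (Nat.mul w7 (Nat.mul 6 (KB qbt3 qbt6 qbt7))) (Nat.add (Nat.mul w8 (Nat.mul 6 (KB qbt3 qbt6 qbt8))) (Nat.add (Nat.mul w9 (Nat.mul 6 (KB qbt3 qbt6 qbt9))) (Nat.add (Nat.mul w10 (Nat.mul 6 (KB qbt3 qbt6 qbt10))) (Nat.add (Nat.mul w11 (Nat.mul 6 (KB qbt3 qbt6 qbt11))) (Nat.add (Nat.mul w12 (Nat.mul 6 (KB qbt3 qbt6 qbt12))) (Nat.add (Nat.mul w13 (Nat.mul 6 (KB qbt3 qbt6 qbt13))) (Nat.add (Nat.mul w14 (Nat.mul 6 (KB qbt3 qbt6 qbt14))) (Nat.add (Nat.mul w15 (Nat.mul 6 (KB qbt3 qbt6 qbt15))) (Nat.add (Nat.mul w16 (Nat.mul 6 (KB qbt3 qbt6 qbt16))) (Nat.add (Nat.mul w17 (Nat.mul 6 (KB qbt3 qbt6 qbt17))) (Nat.add (Nat.mul w18 (Nat.mul 6 (KB qbt3 qbt6 qbt18))) (Nat.add (Nat.mul w19 (Nat.mul 6 (KB qbt3 qbt6 qbt19))) (Nat.add (Nat.mul w20 (Nat.mul 6 (KB qbt3 qbt6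 qbt20))) (Nat.add (Nat.mul w21 (Nat.mul 6 (KB qbt3 qbt6 qbt21))) (Nat.add (Nat.mul w22 (Nat.mul 6 (KB qbt3 qbt6 qbt22))) (Nat.add (Nat.mul w23 (Nat.mul 6 (KB qbt3 qbt6 qbt23))) (Nat.add (Nat.mul w24 (Nat.mul 6 (KB qbt3 qbt6 qbt24))) 0)))))))))))))))))))) (Nat.add (Nat.mul w7 (Nat.add (Nat.mul w7 (Nat.mul 3 (KB qbt3 qbt7 qbt7))) (Nat.add (Nat.mul w8 (Nat.mul 6 (KB qbt3 qbt7 qbt8))) (Nat.add (Nat.mul w9 (Nat.mul 6 (KB qbt3 qbt7 qbt9))) (Nat.add (Nat.mul w10 (Nat.mul 6 (KB qbt3 qbt7 qbt10))) (Nat.add (Nat.mul w11 (Nat.mul 6 (KB qbt3 qbt7 qbt11))) (Nat.add (Nat.mul w12 (Nat.mul 6 (KB qbt3 qbt7 qbt12))) (Nat.add (Nat.mul w13 (Nat.mul 6 (KB qbt3 qbt7 qbt13))) (Nat.add (Nat.mul w14 (Nat.mul 6 (KB qbt3 qbt7 qbt14))) (Nat.add (Nat.mul w15 (Nat.mul 6 (KB qbt3 qbt7 qbt15)))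 (Nat.add (Nat.mul w16 (Nat.mul 6 (KB qbt3 qbt7 qbt16))) (Nat.add (Nat.mul w17 (Nat.mul 6 (KB qbt3 qbt7 qbt17))) (Nat.add (Nat.mul w18 (Nat.mul 6 (KB qbt3 qbt7 qbt18))) (Nat.add (Nat.mul w19 (Nat.mul 6 (KB qbt3 qbt7 qbt19))) (Nat.add (Nat.mul w20 (Nat.mul 6 (KB qbt3 qbt7 qbt20))) (Nat.add (Nat.mul w21 (Nat.mul 6 (KB qbt3 qbt7 qbt21))) (Nat.add (Nat.mul w22 (Nat.mul 6 (KB qbt3 qbt7 qbt22))) (Nat.add (Nat.mul w23 (Nat.mul 6 (KB qbt3 qbt7 qbt23))) (Nat.add (Nat.mul w24 (Nat.mul 6 (KB qbt3 qbt7 qbt24))) 0))))))))))))))))))) (Nat.add (Nat.mul w8 (Nat.add (Nat.mul w8 (Nat.mul 3 (KB qbt3 qbt8 qbt8))) (Nat.add (Nat.mul w9 (Nat.mul 6 (KB qbt3 qbt8 qbt9))) (Nat.add (Nat.mul w10 (Nat.mul 6 (KB qbt3 qbt8 qbt10))) (Nat.add (Nat.mul w11 (Nat.mul 6 (KB qbt3 qbt8 qbt11))) (Nat.add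 (Nat.mul w12 (Nat.mul 6 (KB qbt3 qbt8 qbt12))) (Nat.add (Nat.mul w13 (Nat.mul 6 (KB qbt3 qbt8 qbt13))) (Nat.add (Nat.mul w14 (Nat.mul 6 (KB qbt3 qbt8 qbt14))) (Nat.add (Nat.mul w15 (Nat.mul 6 (KB qbt3 qbt8 qbt15))) (Nat.add (Nat.mul w16 (Nat.mul 6 (KB qbt3 qbt8 qbt16))) (Nat.add (Nat.mul w17 (Nat.mul 6 (KB qbt3 qbt8 qbt17))) (Nat.add (Nat.mul w18 (Nat.mul 6 (KB qbt3 qbt8 qbt18))) (Nat.add (Nat.mul w19 (Nat.mul 6 (KB qbt3 qbt8 qbt19))) (Nat.add (Nat.mul w20 (Nat.mul 6 (KB qbt3 qbt8 qbt20))) (Nat.add (Nat.mul w21 (Nat.mul 6 (KB qbt3 qbt8 qbt21))) (Nat.add (Nat.mul w22 (Nat.mul 6 (KB qbt3 qbt8 qbt22))) (Nat.add (Nat.mul w23 (Nat.mul 6 (KB qbt3 qbt8 qbt23))) (Nat.add (Nat.mul w24 (Nat.mul 6 (KB qbt3 qbt8 qbt24))) 0)))))))))))))))))) (Nat.add (Nat.mul w9 (Nat.add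 (Nat.mul w9 (Nat.mul 3 (KB qbt3 qbt9 qbt9))) (Nat.add (Nat.mul w10 (Nat.mul 6 (KB qbt3 qbt9 qbt10))) (Nat.add (Nat.mul w11 (Nat.mul 6 (KB qbt3 qbt9 qbt11))) (Nat.add (Nat.mul w12 (Nat.mul 6 (KB qbt3 qbt9 qbt12))) (Nat.add (Nat.mul w13 (Nat.mul 6 (KB qbt3 qbt9 qbt13))) (Nat.add (Nat.mul w14 (Nat.mul 6 (KB qbt3 qbt9 qbt14))) (Nat.add (Nat.mul w15 (Nat.mul 6 (KB qbt3 qbt9 qbt15))) (Nat.add (Nat.mul w16 (Nat.mul 6 (KB qbt3 qbt9 qbt16))) (Nat.add (Nat.mul w17 (Nat.mul 6 (KB qbt3 qbt9 qbt17))) (Nat.add (Nat.mul w18 (Nat.mul 6 (KB qbt3 qbt9 qbt18))) (Nat.add (Nat.mul w19 (Nat.mul 6 (KB qbt3 qbt9 qbt19))) (Nat.add (Nat.mul w20 (Nat.mul 6 (KB qbt3 qbt9 qbt20))) (Nat.add (Nat.mul w21 (Nat.mul 6 (KB qbt3 qbt9 qbt21))) (Nat.add (Nat.mul w22 (Nat.mul 6 (KB qbt3 qbt9 qbt22)))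 (Nat.add (Nat.mul w23 (Nat.mul 6 (KB qbt3 qbt9 qbt23))) (Nat.add (Nat.mul w24 (Nat.mul 6 (KB qbt3 qbt9 qbt24))) 0))))))))))))))))) (Nat.add (Nat.mul w10 (Nat.add (Nat.mul w10 (Nat.mul 3 (KB qbt3 qbt10 qbt10))) (Nat.add (Nat.mul w11 (Nat.mul 6 (KB qbt3 qbt10 qbt11))) (Nat.add (Nat.mul w12 (Nat.mul 6 (KB qbt3 qbt10 qbt12))) (Nat.add (Nat.mul w13 (Nat.mul 6 (KB qbt3 qbt10 qbt13))) (Nat.add (Nat.mul w14 (Nat.mul 6 (KB qbt3 qbt10 qbt14))) (Nat.add (Nat.mul w15 (Nat.mul 6 (KB qbt3 qbt10 qbt15))) (Nat.add (Nat.mul w16 (Nat.mul 6 (KB qbt3 qbt10 qbt16))) (Nat.add (Nat.mul w17 (Nat.mul 6 (KB qbt3 qbt10 qbt17))) (Nat.add (Nat.mul w18 (Nat.mul 6 (KB qbt3 qbt10 qbt18))) (Nat.add (Nat.mul w19 (Nat.mul 6 (KB qbt3 qbt10 qbt19))) (Nat.add (Nat.mul w20 (Nat.mul 6 (KB qbt3 qbt10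 qbt20))) (Nat.add (Nat.mul w21 (Nat.mul 6 (KB qbt3 qbt10 qbt21))) (Nat.add (Nat.mul w22 (Nat.mul 6 (KB qbt3 qbt10 qbt22))) (Nat.add (Nat.mul w23 (Nat.mul 6 (KB qbt3 qbt10 qbt23))) (Nat.add (Nat.mul w24 (Nat.mul 6 (KB qbt3 qbt10 qbt24))) 0)))))))))))))))) (Nat.add (Nat.mul w11 (Nat.add (Nat.mul w11 (Nat.mul 3 (KB qbt3 qbt11 qbt11))) (Nat.add (Nat.mul w12 (Nat.mul 6 (KB qbt3 qbt11 qbt12))) (Nat.add (Nat.mul w13 (Nat.mul 6 (KB qbt3 qbt11 qbt13))) (Nat.add (Nat.mul w14 (Nat.mul 6 (KB qbt3 qbt11 qbt14))) (Nat.add (Nat.mul w15 (Nat.mul 6 (KB qbt3 qbt11 qbt15))) (Nat.add (Nat.mul w16 (Nat.mul 6 (KB qbt3 qbt11 qbt16))) (Nat.add (Nat.mul w17 (Nat.mul 6 (KB qbt3 qbt11 qbt17))) (Nat.add (Nat.mul w18 (Nat.mul 6 (KB qbt3 qbt11 qbt18))) (Nat.add (Nat.mul w19 (Nat.mul 6 (KB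 qbt3 qbt11 qbt19))) (Nat.add (Nat.mul w20 (Nat.mul 6 (KB qbt3 qbt11 qbt20))) (Nat.add (Nat.mul w21 (Nat.mul 6 (KB qbt3 qbt11 qbt21))) (Nat.add (Nat.mul w22 (Nat.mul 6 (KB qbt3 qbt11 qbt22))) (Nat.add (Nat.mul w23 (Nat.mul 6 (KB qbt3 qbt11 qbt23))) (Nat.add (Nat.mul w24 (Nat.mul 6 (KB qbt3 qbt11 qbt24))) 0))))))))))))))) (Nat.add (Nat.mul w12 (Nat.add (Nat.mul w12 (Nat.mul 3 (KB qbt3 qbt12 qbt12))) (Nat.add (Nat.mul w13 (Nat.mul 6 (KB qbt3 qbt12 qbt13))) (Nat.add (Nat.mul w14 (Nat.mul 6 (KB qbt3 qbt12 qbt14))) (Nat.add (Nat.mul w15 (Nat.mul 6 (KB qbt3 qbt12 qbt15))) (Nat.add (Nat.mul w16 (Nat.mul 6 (KB qbt3 qbt12 qbt16))) (Nat.add (Nat.mul w17 (Nat.mul 6 (KB qbt3 qbt12 qbt17))) (Nat.add (Nat.mul w18 (Nat.mul 6 (KB qbt3 qbt12 qbt18))) (Nat.add (Nat.mul w19 (Nat.mul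 6 (KB qbt3 qbt12 qbt19))) (Nat.add (Nat.mul w20 (Nat.mul 6 (KB qbt3 qbt12 qbt20))) (Nat.add (Nat.mul w21 (Nat.mul 6 (KB qbt3 qbt12 qbt21))) (Nat.add (Nat.mul w22 (Nat.mul 6 (KB qbt3 qbt12 qbt22))) (Nat.add (Nat.mul w23 (Nat.mul 6 (KB qbt3 qbt12 qbt23))) (Nat.add (Nat.mul w24 (Nat.mul 6 (KB qbt3 qbt12 qbt24))) 0)))))))))))))) (Nat.add (Nat.mul w13 (Nat.add (Nat.mul w13 (Nat.mul 3 (KB qbt3 qbt13 qbt13))) (Nat.add (Nat.mul w14 (Nat.mul 6 (KB qbt3 qbt13 qbt14))) (Nat.add (Nat.mul w15 (Nat.mul 6 (KB qbt3 qbt13 qbt15))) (Nat.add (Nat.mul w16 (Nat.mul 6 (KB qbt3 qbt13 qbt16))) (Nat.add (Nat.mul w17 (Nat.mul 6 (KB qbt3 qbt13 qbt17))) (Nat.add (Nat.mul w18 (Nat.mul 6 (KB qbt3 qbt13 qbt18))) (Nat.add (Nat.mul w19 (Nat.mul 6 (KB qbt3 qbt13 qbt19))) (Nat.add (Nat.mul w20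 (Nat.mul 6 (KB qbt3 qbt13 qbt20))) (Nat.add (Nat.mul w21 (Nat.mul 6 (KB qbt3 qbt13 qbt21))) (Nat.add (Nat.mul w22 (Nat.mul 6 (KB qbt3 qbt13 qbt22))) (Nat.add (Nat.mul w23 (Nat.mul 6 (KB qbt3 qbt13 qbt23))) (Nat.add (Nat.mul w24 (Nat.mul 6 (KB qbt3 qbt13 qbt24))) 0))))))))))))) (Nat.add (Nat.mul w14 (Nat.add (Nat.mul w14 (Nat.mul 3 (KB qbt3 qbt14 qbt14))) (Nat.add (Nat.mul w15 (Nat.mul 6 (KB qbt3 qbt14 qbt15))) (Nat.add (Nat.mul w16 (Nat.mul 6 (KB qbt3 qbt14 qbt16))) (Nat.add (Nat.mul w17 (Nat.mul 6 (KB qbt3 qbt14 qbt17))) (Nat.add (Nat.mul w18 (Nat.mul 6 (KB qbt3 qbt14 qbt18))) (Nat.add (Nat.mul w19 (Nat.mul 6 (KB qbt3 qbt14 qbt19))) (Nat.add (Nat.mul w20 (Nat.mul 6 (KB qbt3 qbt14 qbt20))) (Nat.add (Nat.mul w21 (Nat.mul 6 (KB qbt3 qbt14 qbt21))) (Nat.add (Nat.mul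 w22 (Nat.mul 6 (KB qbt3 qbt14 qbt22))) (Nat.add (Nat.mul w23 (Nat.mul 6 (KB qbt3 qbt14 qbt23))) (Nat.add (Nat.mul w24 (Nat.mul 6 (KB qbt3 qbt14 qbt24))) 0)))))))))))) (Nat.add (Nat.mul w15 (Nat.add (Nat.mul w15 (Nat.mul 3 (KB qbt3 qbt15 qbt15))) (Nat.add (Nat.mul w16 (Nat.mul 6 (KB qbt3 qbt15 qbt16))) (Nat.add (Nat.mul w17 (Nat.mul 6 (KB qbt3 qbt15 qbt17))) (Nat.add (Nat.mul w18 (Nat.mul 6 (KB qbt3 qbt15 qbt18))) (Nat.add (Nat.mul w19 (Nat.mul 6 (KB qbt3 qbt15 qbt19))) (Nat.add (Nat.mul w20 (Nat.mul 6 (KB qbt3 qbt15 qbt20))) (Nat.add (Nat.mul w21 (Nat.mul 6 (KB qbt3 qbt15 qbt21))) (Nat.add (Nat.mul w22 (Nat.mul 6 (KB qbt3 qbt15 qbt22))) (Nat.add (Nat.mul w23 (Nat.mul 6 (KB qbt3 qbt15 qbt23))) (Nat.add (Nat.mul w24 (Nat.mul 6 (KB qbt3 qbt15 qbt24))) 0)))))))))))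 (Nat.add (Nat.mul w16 (Nat.add (Nat.mul w16 (Nat.mul 3 (KB qbt3 qbt16 qbt16))) (Nat.add (Nat.mul w17 (Nat.mul 6 (KB qbt3 qbt16 qbt17))) (Nat.add (Nat.mul w18 (Nat.mul 6 (KB qbt3 qbt16 qbt18))) (Nat.add (Nat.mul w19 (Nat.mul 6 (KB qbt3 qbt16 qbt19))) (Nat.add (Nat.mul w20 (Nat.mul 6 (KB qbt3 qbt16 qbt20))) (Nat.add (Nat.mul w21 (Nat.mul 6 (KB qbt3 qbt16 qbt21))) (Nat.add (Nat.mul w22 (Nat.mul 6 (KB qbt3 qbt16 qbt22))) (Nat.add (Nat.mul w23 (Nat.mul 6 (KB qbt3 qbt16 qbt23))) (Nat.add (Nat.mul w24 (Nat.mul 6 (KB qbt3 qbt16 qbt24))) 0)))))))))) (Nat.add (Nat.mul w17 (Nat.add (Nat.mul w17 (Nat.mul 3 (KB qbt3 qbt17 qbt17))) (Nat.add (Nat.mul w18 (Nat.mul 6 (KB qbt3 qbt17 qbt18))) (Nat.add (Nat.mul w19 (Nat.mul 6 (KB qbt3 qbt17 qbt19))) (Nat.add (Nat.mul w20 (Nat.mul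 6 (KB qbt3 qbt17 qbt20))) (Nat.add (Nat.mul w21 (Nat.mul 6 (KB qbt3 qbt17 qbt21))) (Nat.add (Nat.mul w22 (Nat.mul 6 (KB qbt3 qbt17 qbt22))) (Nat.add (Nat.mul w23 (Nat.mul 6 (KB qbt3 qbt17 qbt23))) (Nat.add (Nat.mul w24 (Nat.mul 6 (KB qbt3 qbt17 qbt24))) 0))))))))) (Nat.add (Nat.mul w18 (Nat.add (Nat.mul w18 (Nat.mul 3 (KB qbt3 qbt18 qbt18))) (Nat.add (Nat.mul w19 (Nat.mul 6 (KB qbt3 qbt18 qbt19))) (Nat.add (Nat.mul w20 (Nat.mul 6 (KB qbt3 qbt18 qbt20))) (Nat.add (Nat.mul w21 (Nat.mul 6 (KB qbt3 qbt18 qbt21))) (Nat.add (Nat.mul w22 (Nat.mul 6 (KB qbt3 qbt18 qbt22))) (Nat.add (Nat.mul w23 (Nat.mul 6 (KB qbt3 qbt18 qbt23))) (Nat.add (Nat.mul w24 (Nat.mul 6 (KB qbt3 qbt18 qbt24))) 0)))))))) (Nat.add (Nat.mul w19 (Nat.add (Nat.mul w19 (Nat.mul 3 (KB qbt3 qbt19 qbt19)))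 (Nat.add (Nat.mul w20 (Nat.mul 6 (KB qbt3 qbt19 qbt20))) (Nat.add (Nat.mul w21 (Nat.mul 6 (KB qbt3 qbt19 qbt21))) (Nat.add (Nat.mul w22 (Nat.mul 6 (KB qbt3 qbt19 qbt22))) (Nat.add (Nat.mul w23 (Nat.mul 6 (KB qbt3 qbt19 qbt23))) (Nat.add (Nat.mul w24 (Nat.mul 6 (KB qbt3 qbt19 qbt24))) 0))))))) (Nat.add (Nat.mul w20 (Nat.add (Nat.mul w20 (Nat.mul 3 (KB qbt3 qbt20 qbt20))) (Nat.add (Nat.mul w21 (Nat.mul 6 (KB qbt3 qbt20 qbt21))) (Nat.add (Nat.mul w22 (Nat.mul 6 (KB qbt3 qbt20 qbt22))) (Nat.add (Nat.mul w23 (Nat.mul 6 (KB qbt3 qbt20 qbt23))) (Nat.add (Nat.mul w24 (Nat.mul 6 (KB qbt3 qbt20 qbt24))) 0)))))) (Nat.add (Nat.mul w21 (Nat.add (Nat.mul w21 (Nat.mul 3 (KB qbt3 qbt21 qbt21))) (Nat.add (Nat.mul w22 (Nat.mul 6 (KB qbt3 qbt21 qbt22))) (Nat.add (Nat.mul w23 (Nat.mul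 6 (KB qbt3 qbt21 qbt23))) (Nat.add (Nat.mul w24 (Nat.mul 6 (KB qbt3 qbt21 qbt24))) 0))))) (Nat.add (Nat.mul w22 (Nat.add (Nat.mul w22 (Nat.mul 3 (KB qbt3 qbt22 qbt22))) (Nat.add (Nat.mul w23 (Nat.mul 6 (KB qbt3 qbt22 qbt23))) (Nat.add (Nat.mul w24 (Nat.mul 6 (KB qbt3 qbt22 qbt24))) 0)))) (Nat.add (Nat.mul w23 (Nat.add (Nat.mul w23 (Nat.mul 3 (KB qbt3 qbt23 qbt23))) (Nat.add (Nat.mul w24 (Nat.mul 6 (KB qbt3 qbt23 qbt24))) 0))) (Nat.add (Nat.mul w24 (Nat.add (Nat.mul w24 (Nat.mul 3 (KB qbt3 qbt24 qbt24))) (0))) 0))))))))))))))))))))))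

/-- Terms with least index 4. -/
noncomputable def qb4 (w4 w5 w6 w7 w8 w9 w10 w11 w12 w13 w14 w15 w16 w17 w18 w19 w20 w21 w22 w23 w24 : Nat) : Nat :=
  Nat.mul w4 (Nat.add (Nat.mul w4 (Nat.add (Nat.mul w4 (KB qbt4 qbt4 qbt4)) (Nat.add (Nat.mul w5 (Nat.mul 3 (KB qbt4 qbt4 qbt5))) (Nat.add (Nat.mul w6 (Nat.mul 3 (KB qbt4 qbt4 qbt6))) (Nat.add (Nat.mul w7 (Nat.mul 3 (KB qbt4 qbt4 qbt7))) (Nat.add (Nat.mul w8 (Nat.mul 3 (KB qbt4 qbt4 qbt8))) (Nat.add (Nat.mul w9 (Nat.mul 3 (KB qbt4 qbt4 qbt9))) (Nat.add (Nat.mul w10 (Nat.mul 3 (KB qbt4 qbt4 qbt10))) (Nat.add (Nat.mul w11 (Nat.mul 3 (KB qbt4 qbt4 qbt11))) (Nat.add (Nat.mul w12 (Nat.mul 3 (KB qbt4 qbt4 qbt12))) (Nat.add (Nat.mul w13 (Nat.mul 3 (KB qbt4 qbt4 qbt13))) (Nat.add (Nat.mul w14 (Nat.mul 3 (KB qbt4 qbt4 qbt14)))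 (Nat.add (Nat.mul w15 (Nat.mul 3 (KB qbt4 qbt4 qbt15))) (Nat.add (Nat.mul w16 (Nat.mul 3 (KB qbt4 qbt4 qbt16))) (Nat.add (Nat.mul w17 (Nat.mul 3 (KB qbt4 qbt4 qbt17))) (Nat.add (Nat.mul w18 (Nat.mul 3 (KB qbt4 qbt4 qbt18))) (Nat.add (Nat.mul w19 (Nat.mul 3 (KB qbt4 qbt4 qbt19))) (Nat.add (Nat.mul w20 (Nat.mul 3 (KB qbt4 qbt4 qbt20))) (Nat.add (Nat.mul w21 (Nat.mul 3 (KB qbt4 qbt4 qbt21))) (Nat.add (Nat.mul w22 (Nat.mul 3 (KB qbt4 qbt4 qbt22))) (Nat.add (Nat.mul w23 (Nat.mul 3 (KB qbt4 qbt4 qbt23))) (Nat.add (Nat.mul w24 (Nat.mul 3 (KB qbt4 qbt4 qbt24))) 0)))))))))))))))))))))) (Nat.add (Nat.mul w5 (Nat.add (Nat.mul w5 (Nat.mul 3 (KB qbt4 qbt5 qbt5))) (Nat.add (Nat.mul w6 (Nat.mul 6 (KB qbt4 qbt5 qbt6))) (Nat.add (Nat.mul w7 (Nat.mul 6 (KB qbt4 qbt5 qbt7))) (Nat.add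 (Nat.mul w8 (Nat.mul 6 (KB qbt4 qbt5 qbt8))) (Nat.add (Nat.mul w9 (Nat.mul 6 (KB qbt4 qbt5 qbt9))) (Nat.add (Nat.mul w10 (Nat.mul 6 (KB qbt4 qbt5 qbt10))) (Nat.add (Nat.mul w11 (Nat.mul 6 (KB qbt4 qbt5 qbt11))) (Nat.add (Nat.mul w12 (Nat.mul 6 (KB qbt4 qbt5 qbt12))) (Nat.add (Nat.mul w13 (Nat.mul 6 (KB qbt4 qbt5 qbt13))) (Nat.add (Nat.mul w14 (Nat.mul 6 (KB qbt4 qbt5 qbt14))) (Nat.add (Nat.mul w15 (Nat.mul 6 (KB qbt4 qbt5 qbt15))) (Nat.add (Nat.mul w16 (Nat.mul 6 (KB qbt4 qbt5 qbt16))) (Nat.add (Nat.mul w17 (Nat.mul 6 (KB qbt4 qbt5 qbt17))) (Nat.add (Nat.mul w18 (Nat.mul 6 (KB qbt4 qbt5 qbt18))) (Nat.add (Nat.mul w19 (Nat.mul 6 (KB qbt4 qbt5 qbt19))) (Nat.add (Nat.mul w20 (Nat.mul 6 (KB qbt4 qbt5 qbt20))) (Nat.add (Nat.mul w21 (Nat.mul 6 (KB qbt4 qbt5 qbt21)))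 (Nat.add (Nat.mul w22 (Nat.mul 6 (KB qbt4 qbt5 qbt22))) (Nat.add (Nat.mul w23 (Nat.mul 6 (KB qbt4 qbt5 qbt23))) (Nat.add (Nat.mul w24 (Nat.mul 6 (KB qbt4 qbt5 qbt24))) 0))))))))))))))))))))) (Nat.add (Nat.mul w6 (Nat.add (Nat.mul w6 (Nat.mul 3 (KB qbt4 qbt6 qbt6))) (Nat.add (Nat.mul w7 (Nat.mul 6 (KB qbt4 qbt6 qbt7))) (Nat.add (Nat.mul w8 (Nat.mul 6 (KB qbt4 qbt6 qbt8))) (Nat.add (Nat.mul w9 (Nat.mul 6 (KB qbt4 qbt6 qbt9))) (Nat.add (Nat.mul w10 (Nat.mul 6 (KB qbt4 qbt6 qbt10))) (Nat.add (Nat.mul w11 (Nat.mul 6 (KB qbt4 qbt6 qbt11))) (Nat.add (Nat.mul w12 (Nat.mul 6 (KB qbt4 qbt6 qbt12))) (Nat.add (Nat.mul w13 (Nat.mul 6 (KB qbt4 qbt6 qbt13))) (Nat.add (Nat.mul w14 (Nat.mul 6 (KB qbt4 qbt6 qbt14))) (Nat.add (Nat.mul w15 (Nat.mul 6 (KB qbt4 qbt6 qbt15))) (Nat.add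 (Nat.mul w16 (Nat.mul 6 (KB qbt4 qbt6 qbt16))) (Nat.add (Nat.mul w17 (Nat.mul 6 (KB qbt4 qbt6 qbt17))) (Nat.add (Nat.mul w18 (Nat.mul 6 (KB qbt4 qbt6 qbt18))) (Nat.add (Nat.mul w19 (Nat.mul 6 (KB qbt4 qbt6 qbt19))) (Nat.add (Nat.mul w20 (Nat.mul 6 (KB qbt4 qbt6 qbt20))) (Nat.add (Nat.mul w21 (Nat.mul 6 (KB qbt4 qbt6 qbt21))) (Nat.add (Nat.mul w22 (Nat.mul 6 (KB qbt4 qbt6 qbt22))) (Nat.add (Nat.mul w23 (Nat.mul 6 (KB qbt4 qbt6 qbt23))) (Nat.add (Nat.mul w24 (Nat.mul 6 (KB qbt4 qbt6 qbt24))) 0)))))))))))))))))))) (Nat.add (Nat.mul w7 (Nat.add (Nat.mul w7 (Nat.mul 3 (KB qbt4 qbt7 qbt7))) (Nat.add (Nat.mul w8 (Nat.mul 6 (KB qbt4 qbt7 qbt8))) (Nat.add (Nat.mul w9 (Nat.mul 6 (KB qbt4 qbt7 qbt9))) (Nat.add (Nat.mul w10 (Nat.mul 6 (KB qbt4 qbt7 qbt10))) (Nat.add (Nat.mul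 w11 (Nat.mul 6 (KB qbt4 qbt7 qbt11))) (Nat.add (Nat.mul w12 (Nat.mul 6 (KB qbt4 qbt7 qbt12))) (Nat.add (Nat.mul w13 (Nat.mul 6 (KB qbt4 qbt7 qbt13))) (Nat.add (Nat.mul w14 (Nat.mul 6 (KB qbt4 qbt7 qbt14))) (Nat.add (Nat.mul w15 (Nat.mul 6 (KB qbt4 qbt7 qbt15))) (Nat.add (Nat.mul w16 (Nat.mul 6 (KB qbt4 qbt7 qbt16))) (Nat.add (Nat.mul w17 (Nat.mul 6 (KB qbt4 qbt7 qbt17))) (Nat.add (Nat.mul w18 (Nat.mul 6 (KB qbt4 qbt7 qbt18))) (Nat.add (Nat.mul w19 (Nat.mul 6 (KB qbt4 qbt7 qbt19))) (Nat.add (Nat.mul w20 (Nat.mul 6 (KB qbt4 qbt7 qbt20))) (Nat.add (Nat.mul w21 (Nat.mul 6 (KB qbt4 qbt7 qbt21))) (Nat.add (Nat.mul w22 (Nat.mul 6 (KB qbt4 qbt7 qbt22))) (Nat.add (Nat.mul w23 (Nat.mul 6 (KB qbt4 qbt7 qbt23))) (Nat.add (Nat.mul w24 (Nat.mul 6 (KB qbt4 qbt7 qbt24))) 0)))))))))))))))))))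 (Nat.add (Nat.mul w8 (Nat.add (Nat.mul w8 (Nat.mul 3 (KB qbt4 qbt8 qbt8))) (Nat.add (Nat.mul w9 (Nat.mul 6 (KB qbt4 qbt8 qbt9))) (Nat.add (Nat.mul w10 (Nat.mul 6 (KB qbt4 qbt8 qbt10))) (Nat.add (Nat.mul w11 (Nat.mul 6 (KB qbt4 qbt8 qbt11))) (Nat.add (Nat.mul w12 (Nat.mul 6 (KB qbt4 qbt8 qbt12))) (Nat.add (Nat.mul w13 (Nat.mul 6 (KB qbt4 qbt8 qbt13))) (Nat.add (Nat.mul w14 (Nat.mul 6 (KB qbt4 qbt8 qbt14))) (Nat.add (Nat.mul w15 (Nat.mul 6 (KB qbt4 qbt8 qbt15))) (Nat.add (Nat.mul w16 (Nat.mul 6 (KB qbt4 qbt8 qbt16))) (Nat.add (Nat.mul w17 (Nat.mul 6 (KB qbt4 qbt8 qbt17))) (Nat.add (Nat.mul w18 (Nat.mul 6 (KB qbt4 qbt8 qbt18))) (Nat.add (Nat.mul w19 (Nat.mul 6 (KB qbt4 qbt8 qbt19))) (Nat.add (Nat.mul w20 (Nat.mul 6 (KB qbt4 qbt8 qbt20))) (Nat.add (Nat.mul w21 (Nat.mul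 6 (KB qbt4 qbt8 qbt21))) (Nat.add (Nat.mul w22 (Nat.mul 6 (KB qbt4 qbt8 qbt22))) (Nat.add (Nat.mul w23 (Nat.mul 6 (KB qbt4 qbt8 qbt23))) (Nat.add (Nat.mul w24 (Nat.mul 6 (KB qbt4 qbt8 qbt24))) 0)))))))))))))))))) (Nat.add (Nat.mul w9 (Nat.add (Nat.mul w9 (Nat.mul 3 (KB qbt4 qbt9 qbt9))) (Nat.add (Nat.mul w10 (Nat.mul 6 (KB qbt4 qbt9 qbt10))) (Nat.add (Nat.mul w11 (Nat.mul 6 (KB qbt4 qbt9 qbt11))) (Nat.add (Nat.mul w12 (Nat.mul 6 (KB qbt4 qbt9 qbt12))) (Nat.add (Nat.mul w13 (Nat.mul 6 (KB qbt4 qbt9 qbt13))) (Nat.add (Nat.mul w14 (Nat.mul 6 (KB qbt4 qbt9 qbt14))) (Nat.add (Nat.mul w15 (Nat.mul 6 (KB qbt4 qbt9 qbt15))) (Nat.add (Nat.mul w16 (Nat.mul 6 (KB qbt4 qbt9 qbt16))) (Nat.add (Nat.mul w17 (Nat.mul 6 (KB qbt4 qbt9 qbt17))) (Nat.add (Nat.mul w18 (Nat.mul 6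 (KB qbt4 qbt9 qbt18))) (Nat.add (Nat.mul w19 (Nat.mul 6 (KB qbt4 qbt9 qbt19))) (Nat.add (Nat.mul w20 (Nat.mul 6 (KB qbt4 qbt9 qbt20))) (Nat.add (Nat.mul w21 (Nat.mul 6 (KB qbt4 qbt9 qbt21))) (Nat.add (Nat.mul w22 (Nat.mul 6 (KB qbt4 qbt9 qbt22))) (Nat.add (Nat.mul w23 (Nat.mul 6 (KB qbt4 qbt9 qbt23))) (Nat.add (Nat.mul w24 (Nat.mul 6 (KB qbt4 qbt9 qbt24))) 0))))))))))))))))) (Nat.add (Nat.mul w10 (Nat.add (Nat.mul w10 (Nat.mul 3 (KB qbt4 qbt10 qbt10))) (Nat.add (Nat.mul w11 (Nat.mul 6 (KB qbt4 qbt10 qbt11))) (Nat.add (Nat.mul w12 (Nat.mul 6 (KB qbt4 qbt10 qbt12))) (Nat.add (Nat.mul w13 (Nat.mul 6 (KB qbt4 qbt10 qbt13))) (Nat.add (Nat.mul w14 (Nat.mul 6 (KB qbt4 qbt10 qbt14))) (Nat.add (Nat.mul w15 (Nat.mul 6 (KB qbt4 qbt10 qbt15))) (Nat.add (Nat.mul w16 (Nat.mul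 6 (KB qbt4 qbt10 qbt16))) (Nat.add (Nat.mul w17 (Nat.mul 6 (KB qbt4 qbt10 qbt17))) (Nat.add (Nat.mul w18 (Nat.mul 6 (KB qbt4 qbt10 qbt18))) (Nat.add (Nat.mul w19 (Nat.mul 6 (KB qbt4 qbt10 qbt19))) (Nat.add (Nat.mul w20 (Nat.mul 6 (KB qbt4 qbt10 qbt20))) (Nat.add (Nat.mul w21 (Nat.mul 6 (KB qbt4 qbt10 qbt21))) (Nat.add (Nat.mul w22 (Nat.mul 6 (KB qbt4 qbt10 qbt22))) (Nat.add (Nat.mul w23 (Nat.mul 6 (KB qbt4 qbt10 qbt23))) (Nat.add (Nat.mul w24 (Nat.mul 6 (KB qbt4 qbt10 qbt24))) 0)))))))))))))))) (Nat.add (Nat.mul w11 (Nat.add (Nat.mul w11 (Nat.mul 3 (KB qbt4 qbt11 qbt11))) (Nat.add (Nat.mul w12 (Nat.mul 6 (KB qbt4 qbt11 qbt12))) (Nat.add (Nat.mul w13 (Nat.mul 6 (KB qbt4 qbt11 qbt13))) (Nat.add (Nat.mul w14 (Nat.mul 6 (KB qbt4 qbt11 qbt14))) (Nat.add (Nat.mul w15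 (Nat.mul 6 (KB qbt4 qbt11 qbt15))) (Nat.add (Nat.mul w16 (Nat.mul 6 (KB qbt4 qbt11 qbt16))) (Nat.add (Nat.mul w17 (Nat.mul 6 (KB qbt4 qbt11 qbt17))) (Nat.add (Nat.mul w18 (Nat.mul 6 (KB qbt4 qbt11 qbt18))) (Nat.add (Nat.mul w19 (Nat.mul 6 (KB qbt4 qbt11 qbt19))) (Nat.add (Nat.mul w20 (Nat.mul 6 (KB qbt4 qbt11 qbt20))) (Nat.add (Nat.mul w21 (Nat.mul 6 (KB qbt4 qbt11 qbt21))) (Nat.add (Nat.mul w22 (Nat.mul 6 (KB qbt4 qbt11 qbt22))) (Nat.add (Nat.mul w23 (Nat.mul 6 (KB qbt4 qbt11 qbt23))) (Nat.add (Nat.mul w24 (Nat.mul 6 (KB qbt4 qbt11 qbt24))) 0))))))))))))))) (Nat.add (Nat.mul w12 (Nat.add (Nat.mul w12 (Nat.mul 3 (KB qbt4 qbt12 qbt12))) (Nat.add (Nat.mul w13 (Nat.mul 6 (KB qbt4 qbt12 qbt13))) (Nat.add (Nat.mul w14 (Nat.mul 6 (KB qbt4 qbt12 qbt14))) (Nat.add (Nat.mul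 w15 (Nat.mul 6 (KB qbt4 qbt12 qbt15))) (Nat.add (Nat.mul w16 (Nat.mul 6 (KB qbt4 qbt12 qbt16))) (Nat.add (Nat.mul w17 (Nat.mul 6 (KB qbt4 qbt12 qbt17))) (Nat.add (Nat.mul w18 (Nat.mul 6 (KB qbt4 qbt12 qbt18))) (Nat.add (Nat.mul w19 (Nat.mul 6 (KB qbt4 qbt12 qbt19))) (Nat.add (Nat.mul w20 (Nat.mul 6 (KB qbt4 qbt12 qbt20))) (Nat.add (Nat.mul w21 (Nat.mul 6 (KB qbt4 qbt12 qbt21))) (Nat.add (Nat.mul w22 (Nat.mul 6 (KB qbt4 qbt12 qbt22))) (Nat.add (Nat.mul w23 (Nat.mul 6 (KB qbt4 qbt12 qbt23))) (Nat.add (Nat.mul w24 (Nat.mul 6 (KB qbt4 qbt12 qbt24))) 0)))))))))))))) (Nat.add (Nat.mul w13 (Nat.add (Nat.mul w13 (Nat.mul 3 (KB qbt4 qbt13 qbt13))) (Nat.add (Nat.mul w14 (Nat.mul 6 (KB qbt4 qbt13 qbt14))) (Nat.add (Nat.mul w15 (Nat.mul 6 (KB qbt4 qbt13 qbt15))) (Nat.add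 (Nat.mul w16 (Nat.mul 6 (KB qbt4 qbt13 qbt16))) (Nat.add (Nat.mul w17 (Nat.mul 6 (KB qbt4 qbt13 qbt17))) (Nat.add (Nat.mul w18 (Nat.mul 6 (KB qbt4 qbt13 qbt18))) (Nat.add (Nat.mul w19 (Nat.mul 6 (KB qbt4 qbt13 qbt19))) (Nat.add (Nat.mul w20 (Nat.mul 6 (KB qbt4 qbt13 qbt20))) (Nat.add (Nat.mul w21 (Nat.mul 6 (KB qbt4 qbt13 qbt21))) (Nat.add (Nat.mul w22 (Nat.mul 6 (KB qbt4 qbt13 qbt22))) (Nat.add (Nat.mul w23 (Nat.mul 6 (KB qbt4 qbt13 qbt23))) (Nat.add (Nat.mul w24 (Nat.mul 6 (KB qbt4 qbt13 qbt24))) 0))))))))))))) (Nat.add (Nat.mul w14 (Nat.add (Nat.mul w14 (Nat.mul 3 (KB qbt4 qbt14 qbt14))) (Nat.add (Nat.mul w15 (Nat.mul 6 (KB qbt4 qbt14 qbt15))) (Nat.add (Nat.mul w16 (Nat.mul 6 (KB qbt4 qbt14 qbt16))) (Nat.add (Nat.mul w17 (Nat.mul 6 (KB qbt4 qbt14 qbt17)))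 (Nat.add (Nat.mul w18 (Nat.mul 6 (KB qbt4 qbt14 qbt18))) (Nat.add (Nat.mul w19 (Nat.mul 6 (KB qbt4 qbt14 qbt19))) (Nat.add (Nat.mul w20 (Nat.mul 6 (KB qbt4 qbt14 qbt20))) (Nat.add (Nat.mul w21 (Nat.mul 6 (KB qbt4 qbt14 qbt21))) (Nat.add (Nat.mul w22 (Nat.mul 6 (KB qbt4 qbt14 qbt22))) (Nat.add (Nat.mul w23 (Nat.mul 6 (KB qbt4 qbt14 qbt23))) (Nat.add (Nat.mul w24 (Nat.mul 6 (KB qbt4 qbt14 qbt24))) 0)))))))))))) (Nat.add (Nat.mul w15 (Nat.add (Nat.mul w15 (Nat.mul 3 (KB qbt4 qbt15 qbt15))) (Nat.add (Nat.mul w16 (Nat.mul 6 (KB qbt4 qbt15 qbt16))) (Nat.add (Nat.mul w17 (Nat.mul 6 (KB qbt4 qbt15 qbt17))) (Nat.add (Nat.mul w18 (Nat.mul 6 (KB qbt4 qbt15 qbt18))) (Nat.add (Nat.mul w19 (Nat.mul 6 (KB qbt4 qbt15 qbt19))) (Nat.add (Nat.mul w20 (Nat.mul 6 (KB qbt4 qbt15 qbt20)))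 (Nat.add (Nat.mul w21 (Nat.mul 6 (KB qbt4 qbt15 qbt21))) (Nat.add (Nat.mul w22 (Nat.mul 6 (KB qbt4 qbt15 qbt22))) (Nat.add (Nat.mul w23 (Nat.mul 6 (KB qbt4 qbt15 qbt23))) (Nat.add (Nat.mul w24 (Nat.mul 6 (KB qbt4 qbt15 qbt24))) 0))))))))))) (Nat.add (Nat.mul w16 (Nat.add (Nat.mul w16 (Nat.mul 3 (KB qbt4 qbt16 qbt16))) (Nat.add (Nat.mul w17 (Nat.mul 6 (KB qbt4 qbt16 qbt17))) (Nat.add (Nat.mul w18 (Nat.mul 6 (KB qbt4 qbt16 qbt18))) (Nat.add (Nat.mul w19 (Nat.mul 6 (KB qbt4 qbt16 qbt19))) (Nat.add (Nat.mul w20 (Nat.mul 6 (KB qbt4 qbt16 qbt20))) (Nat.add (Nat.mul w21 (Nat.mul 6 (KB qbt4 qbt16 qbt21))) (Nat.add (Nat.mul w22 (Nat.mul 6 (KB qbt4 qbt16 qbt22))) (Nat.add (Nat.mul w23 (Nat.mul 6 (KB qbt4 qbt16 qbt23))) (Nat.add (Nat.mul w24 (Nat.mul 6 (KB qbt4 qbt16 qbt24)))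 0)))))))))) (Nat.add (Nat.mul w17 (Nat.add (Nat.mul w17 (Nat.mul 3 (KB qbt4 qbt17 qbt17))) (Nat.add (Nat.mul w18 (Nat.mul 6 (KB qbt4 qbt17 qbt18))) (Nat.add (Nat.mul w19 (Nat.mul 6 (KB qbt4 qbt17 qbt19))) (Nat.add (Nat.mul w20 (Nat.mul 6 (KB qbt4 qbt17 qbt20))) (Nat.add (Nat.mul w21 (Nat.mul 6 (KB qbt4 qbt17 qbt21))) (Nat.add (Nat.mul w22 (Nat.mul 6 (KB qbt4 qbt17 qbt22))) (Nat.add (Nat.mul w23 (Nat.mul 6 (KB qbt4 qbt17 qbt23))) (Nat.add (Nat.mul w24 (Nat.mul 6 (KB qbt4 qbt17 qbt24))) 0))))))))) (Nat.add (Nat.mul w18 (Nat.add (Nat.mul w18 (Nat.mul 3 (KB qbt4 qbt18 qbt18))) (Nat.add (Nat.mul w19 (Nat.mul 6 (KB qbt4 qbt18 qbt19))) (Nat.add (Nat.mul w20 (Nat.mul 6 (KB qbt4 qbt18 qbt20))) (Nat.add (Nat.mul w21 (Nat.mul 6 (KB qbt4 qbt18 qbt21))) (Nat.add (Nat.mul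 w22 (Nat.mul 6 (KB qbt4 qbt18 qbt22))) (Nat.add (Nat.mul w23 (Nat.mul 6 (KB qbt4 qbt18 qbt23))) (Nat.add (Nat.mul w24 (Nat.mul 6 (KB qbt4 qbt18 qbt24))) 0)))))))) (Nat.add (Nat.mul w19 (Nat.add (Nat.mul w19 (Nat.mul 3 (KB qbt4 qbt19 qbt19))) (Nat.add (Nat.mul w20 (Nat.mul 6 (KB qbt4 qbt19 qbt20))) (Nat.add (Nat.mul w21 (Nat.mul 6 (KB qbt4 qbt19 qbt21))) (Nat.add (Nat.mul w22 (Nat.mul 6 (KB qbt4 qbt19 qbt22))) (Nat.add (Nat.mul w23 (Nat.mul 6 (KB qbt4 qbt19 qbt23))) (Nat.add (Nat.mul w24 (Nat.mul 6 (KB qbt4 qbt19 qbt24))) 0))))))) (Nat.add (Nat.mul w20 (Nat.add (Nat.mul w20 (Nat.mul 3 (KB qbt4 qbt20 qbt20))) (Nat.add (Nat.mul w21 (Nat.mul 6 (KB qbt4 qbt20 qbt21))) (Nat.add (Nat.mul w22 (Nat.mul 6 (KB qbt4 qbt20 qbt22))) (Nat.add (Nat.mul w23 (Nat.mul 6 (KB qbt4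 qbt20 qbt23))) (Nat.add (Nat.mul w24 (Nat.mul 6 (KB qbt4 qbt20 qbt24))) 0)))))) (Nat.add (Nat.mul w21 (Nat.add (Nat.mul w21 (Nat.mul 3 (KB qbt4 qbt21 qbt21))) (Nat.add (Nat.mul w22 (Nat.mul 6 (KB qbt4 qbt21 qbt22))) (Nat.add (Nat.mul w23 (Nat.mul 6 (KB qbt4 qbt21 qbt23))) (Nat.add (Nat.mul w24 (Nat.mul 6 (KB qbt4 qbt21 qbt24))) 0))))) (Nat.add (Nat.mul w22 (Nat.add (Nat.mul w22 (Nat.mul 3 (KB qbt4 qbt22 qbt22))) (Nat.add (Nat.mul w23 (Nat.mul 6 (KB qbt4 qbt22 qbt23))) (Nat.add (Nat.mul w24 (Nat.mul 6 (KB qbt4 qbt22 qbt24))) 0)))) (Nat.add (Nat.mul w23 (Nat.add (Nat.mul w23 (Nat.mul 3 (KB qbt4 qbt23 qbt23))) (Nat.add (Nat.mul w24 (Nat.mul 6 (KB qbt4 qbt23 qbt24))) 0))) (Nat.add (Nat.mul w24 (Nat.add (Nat.mul w24 (Nat.mul 3 (KB qbt4 qbt24 qbt24))) (0))) 0)))))))))))))))))))))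

/-- Terms with least index 5. -/
noncomputable def qb5 (w5 w6 w7 w8 w9 w10 w11 w12 w13 w14 w15 w16 w17 w18 w19 w20 w21 w22 w23 w24 : Nat) : Nat :=
  Nat.mul w5 (Nat.add (Nat.mul w5 (Nat.add (Nat.mul w5 (KB qbt5 qbt5 qbt5)) (Nat.add (Nat.mul w6 (Nat.mul 3 (KB qbt5 qbt5 qbt6))) (Nat.add (Nat.mul w7 (Nat.mul 3 (KB qbt5 qbt5 qbt7))) (Nat.add (Nat.mul w8 (Nat.mul 3 (KB qbt5 qbt5 qbt8))) (Nat.add (Nat.mul w9 (Nat.mul 3 (KB qbt5 qbt5 qbt9))) (Nat.add (Nat.mul w10 (Nat.mul 3 (KB qbt5 qbt5 qbt10))) (Nat.add (Nat.mul w11 (Nat.mul 3 (KB qbt5 qbt5 qbt11))) (Nat.add (Nat.mul w12 (Nat.mul 3 (KB qbt5 qbt5 qbt12))) (Nat.add (Nat.mul w13 (Nat.mul 3 (KB qbt5 qbt5 qbt13))) (Nat.add (Nat.mul w14 (Nat.mul 3 (KB qbt5 qbt5 qbt14))) (Nat.add (Nat.mul w15 (Nat.mul 3 (KB qbt5 qbt5 qbt15)))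 (Nat.add (Nat.mul w16 (Nat.mul 3 (KB qbt5 qbt5 qbt16))) (Nat.add (Nat.mul w17 (Nat.mul 3 (KB qbt5 qbt5 qbt17))) (Nat.add (Nat.mul w18 (Nat.mul 3 (KB qbt5 qbt5 qbt18))) (Nat.add (Nat.mul w19 (Nat.mul 3 (KB qbt5 qbt5 qbt19))) (Nat.add (Nat.mul w20 (Nat.mul 3 (KB qbt5 qbt5 qbt20))) (Nat.add (Nat.mul w21 (Nat.mul 3 (KB qbt5 qbt5 qbt21))) (Nat.add (Nat.mul w22 (Nat.mul 3 (KB qbt5 qbt5 qbt22))) (Nat.add (Nat.mul w23 (Nat.mul 3 (KB qbt5 qbt5 qbt23))) (Nat.add (Nat.mul w24 (Nat.mul 3 (KB qbt5 qbt5 qbt24))) 0))))))))))))))))))))) (Nat.add (Nat.mul w6 (Nat.add (Nat.mul w6 (Nat.mul 3 (KB qbt5 qbt6 qbt6))) (Nat.add (Nat.mul w7 (Nat.mul 6 (KB qbt5 qbt6 qbt7))) (Nat.add (Nat.mul w8 (Nat.mul 6 (KB qbt5 qbt6 qbt8))) (Nat.add (Nat.mul w9 (Nat.mul 6 (KB qbt5 qbt6 qbt9))) (Nat.add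 (Nat.mul w10 (Nat.mul 6 (KB qbt5 qbt6 qbt10))) (Nat.add (Nat.mul w11 (Nat.mul 6 (KB qbt5 qbt6 qbt11))) (Nat.add (Nat.mul w12 (Nat.mul 6 (KB qbt5 qbt6 qbt12))) (Nat.add (Nat.mul w13 (Nat.mul 6 (KB qbt5 qbt6 qbt13))) (Nat.add (Nat.mul w14 (Nat.mul 6 (KB qbt5 qbt6 qbt14))) (Nat.add (Nat.mul w15 (Nat.mul 6 (KB qbt5 qbt6 qbt15))) (Nat.add (Nat.mul w16 (Nat.mul 6 (KB qbt5 qbt6 qbt16))) (Nat.add (Nat.mul w17 (Nat.mul 6 (KB qbt5 qbt6 qbt17))) (Nat.add (Nat.mul w18 (Nat.mul 6 (KB qbt5 qbt6 qbt18))) (Nat.add (Nat.mul w19 (Nat.mul 6 (KB qbt5 qbt6 qbt19))) (Nat.add (Nat.mul w20 (Nat.mul 6 (KB qbt5 qbt6 qbt20))) (Nat.add (Nat.mul w21 (Nat.mul 6 (KB qbt5 qbt6 qbt21))) (Nat.add (Nat.mul w22 (Nat.mul 6 (KB qbt5 qbt6 qbt22))) (Nat.add (Nat.mul w23 (Nat.mul 6 (KB qbt5 qbt6 qbt23)))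 (Nat.add (Nat.mul w24 (Nat.mul 6 (KB qbt5 qbt6 qbt24))) 0)))))))))))))))))))) (Nat.add (Nat.mul w7 (Nat.add (Nat.mul w7 (Nat.mul 3 (KB qbt5 qbt7 qbt7))) (Nat.add (Nat.mul w8 (Nat.mul 6 (KB qbt5 qbt7 qbt8))) (Nat.add (Nat.mul w9 (Nat.mul 6 (KB qbt5 qbt7 qbt9))) (Nat.add (Nat.mul w10 (Nat.mul 6 (KB qbt5 qbt7 qbt10))) (Nat.add (Nat.mul w11 (Nat.mul 6 (KB qbt5 qbt7 qbt11))) (Nat.add (Nat.mul w12 (Nat.mul 6 (KB qbt5 qbt7 qbt12))) (Nat.add (Nat.mul w13 (Nat.mul 6 (KB qbt5 qbt7 qbt13))) (Nat.add (Nat.mul w14 (Nat.mul 6 (KB qbt5 qbt7 qbt14))) (Nat.add (Nat.mul w15 (Nat.mul 6 (KB qbt5 qbt7 qbt15))) (Nat.add (Nat.mul w16 (Nat.mul 6 (KB qbt5 qbt7 qbt16))) (Nat.add (Nat.mul w17 (Nat.mul 6 (KB qbt5 qbt7 qbt17))) (Nat.add (Nat.mul w18 (Nat.mul 6 (KB qbt5 qbt7 qbt18))) (Nat.add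 (Nat.mul w19 (Nat.mul 6 (KB qbt5 qbt7 qbt19))) (Nat.add (Nat.mul w20 (Nat.mul 6 (KB qbt5 qbt7 qbt20))) (Nat.add (Nat.mul w21 (Nat.mul 6 (KB qbt5 qbt7 qbt21))) (Nat.add (Nat.mul w22 (Nat.mul 6 (KB qbt5 qbt7 qbt22))) (Nat.add (Nat.mul w23 (Nat.mul 6 (KB qbt5 qbt7 qbt23))) (Nat.add (Nat.mul w24 (Nat.mul 6 (KB qbt5 qbt7 qbt24))) 0))))))))))))))))))) (Nat.add (Nat.mul w8 (Nat.add (Nat.mul w8 (Nat.mul 3 (KB qbt5 qbt8 qbt8))) (Nat.add (Nat.mul w9 (Nat.mul 6 (KB qbt5 qbt8 qbt9))) (Nat.add (Nat.mul w10 (Nat.mul 6 (KB qbt5 qbt8 qbt10))) (Nat.add (Nat.mul w11 (Nat.mul 6 (KB qbt5 qbt8 qbt11))) (Nat.add (Nat.mul w12 (Nat.mul 6 (KB qbt5 qbt8 qbt12))) (Nat.add (Nat.mul w13 (Nat.mul 6 (KB qbt5 qbt8 qbt13))) (Nat.add (Nat.mul w14 (Nat.mul 6 (KB qbt5 qbt8 qbt14))) (Nat.add (Nat.mul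 w15 (Nat.mul 6 (KB qbt5 qbt8 qbt15))) (Nat.add (Nat.mul w16 (Nat.mul 6 (KB qbt5 qbt8 qbt16))) (Nat.add (Nat.mul w17 (Nat.mul 6 (KB qbt5 qbt8 qbt17))) (Nat.add (Nat.mul w18 (Nat.mul 6 (KB qbt5 qbt8 qbt18))) (Nat.add (Nat.mul w19 (Nat.mul 6 (KB qbt5 qbt8 qbt19))) (Nat.add (Nat.mul w20 (Nat.mul 6 (KB qbt5 qbt8 qbt20))) (Nat.add (Nat.mul w21 (Nat.mul 6 (KB qbt5 qbt8 qbt21))) (Nat.add (Nat.mul w22 (Nat.mul 6 (KB qbt5 qbt8 qbt22))) (Nat.add (Nat.mul w23 (Nat.mul 6 (KB qbt5 qbt8 qbt23))) (Nat.add (Nat.mul w24 (Nat.mul 6 (KB qbt5 qbt8 qbt24))) 0)))))))))))))))))) (Nat.add (Nat.mul w9 (Nat.add (Nat.mul w9 (Nat.mul 3 (KB qbt5 qbt9 qbt9))) (Nat.add (Nat.mul w10 (Nat.mul 6 (KB qbt5 qbt9 qbt10))) (Nat.add (Nat.mul w11 (Nat.mul 6 (KB qbt5 qbt9 qbt11))) (Nat.add (Nat.mul w12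 (Nat.mul 6 (KB qbt5 qbt9 qbt12))) (Nat.add (Nat.mul w13 (Nat.mul 6 (KB qbt5 qbt9 qbt13))) (Nat.add (Nat.mul w14 (Nat.mul 6 (KB qbt5 qbt9 qbt14))) (Nat.add (Nat.mul w15 (Nat.mul 6 (KB qbt5 qbt9 qbt15))) (Nat.add (Nat.mul w16 (Nat.mul 6 (KB qbt5 qbt9 qbt16))) (Nat.add (Nat.mul w17 (Nat.mul 6 (KB qbt5 qbt9 qbt17))) (Nat.add (Nat.mul w18 (Nat.mul 6 (KB qbt5 qbt9 qbt18))) (Nat.add (Nat.mul w19 (Nat.mul 6 (KB qbt5 qbt9 qbt19))) (Nat.add (Nat.mul w20 (Nat.mul 6 (KB qbt5 qbt9 qbt20))) (Nat.add (Nat.mul w21 (Nat.mul 6 (KB qbt5 qbt9 qbt21))) (Nat.add (Nat.mul w22 (Nat.mul 6 (KB qbt5 qbt9 qbt22))) (Nat.add (Nat.mul w23 (Nat.mul 6 (KB qbt5 qbt9 qbt23))) (Nat.add (Nat.mul w24 (Nat.mul 6 (KB qbt5 qbt9 qbt24))) 0))))))))))))))))) (Nat.add (Nat.mul w10 (Nat.add (Nat.mul w10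 (Nat.mul 3 (KB qbt5 qbt10 qbt10))) (Nat.add (Nat.mul w11 (Nat.mul 6 (KB qbt5 qbt10 qbt11))) (Nat.add (Nat.mul w12 (Nat.mul 6 (KB qbt5 qbt10 qbt12))) (Nat.add (Nat.mul w13 (Nat.mul 6 (KB qbt5 qbt10 qbt13))) (Nat.add (Nat.mul w14 (Nat.mul 6 (KB qbt5 qbt10 qbt14))) (Nat.add (Nat.mul w15 (Nat.mul 6 (KB qbt5 qbt10 qbt15))) (Nat.add (Nat.mul w16 (Nat.mul 6 (KB qbt5 qbt10 qbt16))) (Nat.add (Nat.mul w17 (Nat.mul 6 (KB qbt5 qbt10 qbt17))) (Nat.add (Nat.mul w18 (Nat.mul 6 (KB qbt5 qbt10 qbt18))) (Nat.add (Nat.mul w19 (Nat.mul 6 (KB qbt5 qbt10 qbt19))) (Nat.add (Nat.mul w20 (Nat.mul 6 (KB qbt5 qbt10 qbt20))) (Nat.add (Nat.mul w21 (Nat.mul 6 (KB qbt5 qbt10 qbt21))) (Nat.add (Nat.mul w22 (Nat.mul 6 (KB qbt5 qbt10 qbt22))) (Nat.add (Nat.mul w23 (Nat.mul 6 (KB qbt5 qbt10 qbt23)))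 (Nat.add (Nat.mul w24 (Nat.mul 6 (KB qbt5 qbt10 qbt24))) 0)))))))))))))))) (Nat.add (Nat.mul w11 (Nat.add (Nat.mul w11 (Nat.mul 3 (KB qbt5 qbt11 qbt11))) (Nat.add (Nat.mul w12 (Nat.mul 6 (KB qbt5 qbt11 qbt12))) (Nat.add (Nat.mul w13 (Nat.mul 6 (KB qbt5 qbt11 qbt13))) (Nat.add (Nat.mul w14 (Nat.mul 6 (KB qbt5 qbt11 qbt14))) (Nat.add (Nat.mul w15 (Nat.mul 6 (KB qbt5 qbt11 qbt15))) (Nat.add (Nat.mul w16 (Nat.mul 6 (KB qbt5 qbt11 qbt16))) (Nat.add (Nat.mul w17 (Nat.mul 6 (KB qbt5 qbt11 qbt17))) (Nat.add (Nat.mul w18 (Nat.mul 6 (KB qbt5 qbt11 qbt18))) (Nat.add (Nat.mul w19 (Nat.mul 6 (KB qbt5 qbt11 qbt19))) (Nat.add (Nat.mul w20 (Nat.mul 6 (KB qbt5 qbt11 qbt20))) (Nat.add (Nat.mul w21 (Nat.mul 6 (KB qbt5 qbt11 qbt21))) (Nat.add (Nat.mul w22 (Nat.mul 6 (KB qbt5 qbt11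 qbt22))) (Nat.add (Nat.mul w23 (Nat.mul 6 (KB qbt5 qbt11 qbt23))) (Nat.add (Nat.mul w24 (Nat.mul 6 (KB qbt5 qbt11 qbt24))) 0))))))))))))))) (Nat.add (Nat.mul w12 (Nat.add (Nat.mul w12 (Nat.mul 3 (KB qbt5 qbt12 qbt12))) (Nat.add (Nat.mul w13 (Nat.mul 6 (KB qbt5 qbt12 qbt13))) (Nat.add (Nat.mul w14 (Nat.mul 6 (KB qbt5 qbt12 qbt14))) (Nat.add (Nat.mul w15 (Nat.mul 6 (KB qbt5 qbt12 qbt15))) (Nat.add (Nat.mul w16 (Nat.mul 6 (KB qbt5 qbt12 qbt16))) (Nat.add (Nat.mul w17 (Nat.mul 6 (KB qbt5 qbt12 qbt17))) (Nat.add (Nat.mul w18 (Nat.mul 6 (KB qbt5 qbt12 qbt18))) (Nat.add (Nat.mul w19 (Nat.mul 6 (KB qbt5 qbt12 qbt19))) (Nat.add (Nat.mul w20 (Nat.mul 6 (KB qbt5 qbt12 qbt20))) (Nat.add (Nat.mul w21 (Nat.mul 6 (KB qbt5 qbt12 qbt21))) (Nat.add (Nat.mul w22 (Nat.mul 6 (KB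 qbt5 qbt12 qbt22))) (Nat.add (Nat.mul w23 (Nat.mul 6 (KB qbt5 qbt12 qbt23))) (Nat.add (Nat.mul w24 (Nat.mul 6 (KB qbt5 qbt12 qbt24))) 0)))))))))))))) (Nat.add (Nat.mul w13 (Nat.add (Nat.mul w13 (Nat.mul 3 (KB qbt5 qbt13 qbt13))) (Nat.add (Nat.mul w14 (Nat.mul 6 (KB qbt5 qbt13 qbt14))) (Nat.add (Nat.mul w15 (Nat.mul 6 (KB qbt5 qbt13 qbt15))) (Nat.add (Nat.mul w16 (Nat.mul 6 (KB qbt5 qbt13 qbt16))) (Nat.add (Nat.mul w17 (Nat.mul 6 (KB qbt5 qbt13 qbt17))) (Nat.add (Nat.mul w18 (Nat.mul 6 (KB qbt5 qbt13 qbt18))) (Nat.add (Nat.mul w19 (Nat.mul 6 (KB qbt5 qbt13 qbt19))) (Nat.add (Nat.mul w20 (Nat.mul 6 (KB qbt5 qbt13 qbt20))) (Nat.add (Nat.mul w21 (Nat.mul 6 (KB qbt5 qbt13 qbt21))) (Nat.add (Nat.mul w22 (Nat.mul 6 (KB qbt5 qbt13 qbt22))) (Nat.add (Nat.mul w23 (Nat.mul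 6 (KB qbt5 qbt13 qbt23))) (Nat.add (Nat.mul w24 (Nat.mul 6 (KB qbt5 qbt13 qbt24))) 0))))))))))))) (Nat.add (Nat.mul w14 (Nat.add (Nat.mul w14 (Nat.mul 3 (KB qbt5 qbt14 qbt14))) (Nat.add (Nat.mul w15 (Nat.mul 6 (KB qbt5 qbt14 qbt15))) (Nat.add (Nat.mul w16 (Nat.mul 6 (KB qbt5 qbt14 qbt16))) (Nat.add (Nat.mul w17 (Nat.mul 6 (KB qbt5 qbt14 qbt17))) (Nat.add (Nat.mul w18 (Nat.mul 6 (KB qbt5 qbt14 qbt18))) (Nat.add (Nat.mul w19 (Nat.mul 6 (KB qbt5 qbt14 qbt19))) (Nat.add (Nat.mul w20 (Nat.mul 6 (KB qbt5 qbt14 qbt20))) (Nat.add (Nat.mul w21 (Nat.mul 6 (KB qbt5 qbt14 qbt21))) (Nat.add (Nat.mul w22 (Nat.mul 6 (KB qbt5 qbt14 qbt22))) (Nat.add (Nat.mul w23 (Nat.mul 6 (KB qbt5 qbt14 qbt23))) (Nat.add (Nat.mul w24 (Nat.mul 6 (KB qbt5 qbt14 qbt24))) 0)))))))))))) (Nat.add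 (Nat.mul w15 (Nat.add (Nat.mul w15 (Nat.mul 3 (KB qbt5 qbt15 qbt15))) (Nat.add (Nat.mul w16 (Nat.mul 6 (KB qbt5 qbt15 qbt16))) (Nat.add (Nat.mul w17 (Nat.mul 6 (KB qbt5 qbt15 qbt17))) (Nat.add (Nat.mul w18 (Nat.mul 6 (KB qbt5 qbt15 qbt18))) (Nat.add (Nat.mul w19 (Nat.mul 6 (KB qbt5 qbt15 qbt19))) (Nat.add (Nat.mul w20 (Nat.mul 6 (KB qbt5 qbt15 qbt20))) (Nat.add (Nat.mul w21 (Nat.mul 6 (KB qbt5 qbt15 qbt21))) (Nat.add (Nat.mul w22 (Nat.mul 6 (KB qbt5 qbt15 qbt22))) (Nat.add (Nat.mul w23 (Nat.mul 6 (KB qbt5 qbt15 qbt23))) (Nat.add (Nat.mul w24 (Nat.mul 6 (KB qbt5 qbt15 qbt24))) 0))))))))))) (Nat.add (Nat.mul w16 (Nat.add (Nat.mul w16 (Nat.mul 3 (KB qbt5 qbt16 qbt16))) (Nat.add (Nat.mul w17 (Nat.mul 6 (KB qbt5 qbt16 qbt17))) (Nat.add (Nat.mul w18 (Nat.mul 6 (KB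 qbt5 qbt16 qbt18))) (Nat.add (Nat.mul w19 (Nat.mul 6 (KB qbt5 qbt16 qbt19))) (Nat.add (Nat.mul w20 (Nat.mul 6 (KB qbt5 qbt16 qbt20))) (Nat.add (Nat.mul w21 (Nat.mul 6 (KB qbt5 qbt16 qbt21))) (Nat.add (Nat.mul w22 (Nat.mul 6 (KB qbt5 qbt16 qbt22))) (Nat.add (Nat.mul w23 (Nat.mul 6 (KB qbt5 qbt16 qbt23))) (Nat.add (Nat.mul w24 (Nat.mul 6 (KB qbt5 qbt16 qbt24))) 0)))))))))) (Nat.add (Nat.mul w17 (Nat.add (Nat.mul w17 (Nat.mul 3 (KB qbt5 qbt17 qbt17))) (Nat.add (Nat.mul w18 (Nat.mul 6 (KB qbt5 qbt17 qbt18))) (Nat.add (Nat.mul w19 (Nat.mul 6 (KB qbt5 qbt17 qbt19))) (Nat.add (Nat.mul w20 (Nat.mul 6 (KB qbt5 qbt17 qbt20))) (Nat.add (Nat.mul w21 (Nat.mul 6 (KB qbt5 qbt17 qbt21))) (Nat.add (Nat.mul w22 (Nat.mul 6 (KB qbt5 qbt17 qbt22))) (Nat.add (Nat.mul w23 (Nat.mul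 6 (KB qbt5 qbt17 qbt23))) (Nat.add (Nat.mul w24 (Nat.mul 6 (KB qbt5 qbt17 qbt24))) 0))))))))) (Nat.add (Nat.mul w18 (Nat.add (Nat.mul w18 (Nat.mul 3 (KB qbt5 qbt18 qbt18))) (Nat.add (Nat.mul w19 (Nat.mul 6 (KB qbt5 qbt18 qbt19))) (Nat.add (Nat.mul w20 (Nat.mul 6 (KB qbt5 qbt18 qbt20))) (Nat.add (Nat.mul w21 (Nat.mul 6 (KB qbt5 qbt18 qbt21))) (Nat.add (Nat.mul w22 (Nat.mul 6 (KB qbt5 qbt18 qbt22))) (Nat.add (Nat.mul w23 (Nat.mul 6 (KB qbt5 qbt18 qbt23))) (Nat.add (Nat.mul w24 (Nat.mul 6 (KB qbt5 qbt18 qbt24))) 0)))))))) (Nat.add (Nat.mul w19 (Nat.add (Nat.mul w19 (Nat.mul 3 (KB qbt5 qbt19 qbt19))) (Nat.add (Nat.mul w20 (Nat.mul 6 (KB qbt5 qbt19 qbt20))) (Nat.add (Nat.mul w21 (Nat.mul 6 (KB qbt5 qbt19 qbt21))) (Nat.add (Nat.mul w22 (Nat.mul 6 (KB qbt5 qbt19 qbt22)))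 (Nat.add (Nat.mul w23 (Nat.mul 6 (KB qbt5 qbt19 qbt23))) (Nat.add (Nat.mul w24 (Nat.mul 6 (KB qbt5 qbt19 qbt24))) 0))))))) (Nat.add (Nat.mul w20 (Nat.add (Nat.mul w20 (Nat.mul 3 (KB qbt5 qbt20 qbt20))) (Nat.add (Nat.mul w21 (Nat.mul 6 (KB qbt5 qbt20 qbt21))) (Nat.add (Nat.mul w22 (Nat.mul 6 (KB qbt5 qbt20 qbt22))) (Nat.add (Nat.mul w23 (Nat.mul 6 (KB qbt5 qbt20 qbt23))) (Nat.add (Nat.mul w24 (Nat.mul 6 (KB qbt5 qbt20 qbt24))) 0)))))) (Nat.add (Nat.mul w21 (Nat.add (Nat.mul w21 (Nat.mul 3 (KB qbt5 qbt21 qbt21))) (Nat.add (Nat.mul w22 (Nat.mul 6 (KB qbt5 qbt21 qbt22))) (Nat.add (Nat.mul w23 (Nat.mul 6 (KB qbt5 qbt21 qbt23))) (Nat.add (Nat.mul w24 (Nat.mul 6 (KB qbt5 qbt21 qbt24))) 0))))) (Nat.add (Nat.mul w22 (Nat.add (Nat.mul w22 (Nat.mul 3 (KB qbt5 qbt22 qbt22)))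 (Nat.add (Nat.mul w23 (Nat.mul 6 (KB qbt5 qbt22 qbt23))) (Nat.add (Nat.mul w24 (Nat.mul 6 (KB qbt5 qbt22 qbt24))) 0)))) (Nat.add (Nat.mul w23 (Nat.add (Nat.mul w23 (Nat.mul 3 (KB qbt5 qbt23 qbt23))) (Nat.add (Nat.mul w24 (Nat.mul 6 (KB qbt5 qbt23 qbt24))) 0))) (Nat.add (Nat.mul w24 (Nat.add (Nat.mul w24 (Nat.mul 3 (KB qbt5 qbt24 qbt24))) (0))) 0))))))))))))))))))))

/-- Terms with least index 6. -/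
noncomputable def qb6 (w6 w7 w8 w9 w10 w11 w12 w13 w14 w15 w16 w17 w18 w19 w20 w21 w22 w23 w24 : Nat) : Nat :=
  Nat.mul w6 (Nat.add (Nat.mul w6 (Nat.add (Nat.mul w6 (KB qbt6 qbt6 qbt6)) (Nat.add (Nat.mul w7 (Nat.mul 3 (KB qbt6 qbt6 qbt7))) (Nat.add (Nat.mul w8 (Nat.mul 3 (KB qbt6 qbt6 qbt8))) (Nat.add (Nat.mul w9 (Nat.mul 3 (KB qbt6 qbt6 qbt9))) (Nat.add (Nat.mul w10 (Nat.mul 3 (KB qbt6 qbt6 qbt10))) (Nat.add (Nat.mul w11 (Nat.mul 3 (KB qbt6 qbt6 qbt11))) (Nat.add (Nat.mul w12 (Nat.mul 3 (KB qbt6 qbt6 qbt12))) (Nat.add (Nat.mul w13 (Nat.mul 3 (KB qbt6 qbt6 qbt13))) (Nat.add (Nat.mul w14 (Nat.mul 3 (KB qbt6 qbt6 qbt14))) (Nat.add (Nat.mul w15 (Nat.mul 3 (KB qbt6 qbt6 qbt15))) (Nat.add (Nat.mul w16 (Nat.mul 3 (KB qbt6 qbt6 qbt16))) (Nat.add (Nat.mul w17 (Nat.mul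 3 (KB qbt6 qbt6 qbt17))) (Nat.add (Nat.mul w18 (Nat.mul 3 (KB qbt6 qbt6 qbt18))) (Nat.add (Nat.mul w19 (Nat.mul 3 (KB qbt6 qbt6 qbt19))) (Nat.add (Nat.mul w20 (Nat.mul 3 (KB qbt6 qbt6 qbt20))) (Nat.add (Nat.mul w21 (Nat.mul 3 (KB qbt6 qbt6 qbt21))) (Nat.add (Nat.mul w22 (Nat.mul 3 (KB qbt6 qbt6 qbt22))) (Nat.add (Nat.mul w23 (Nat.mul 3 (KB qbt6 qbt6 qbt23))) (Nat.add (Nat.mul w24 (Nat.mul 3 (KB qbt6 qbt6 qbt24))) 0)))))))))))))))))))) (Nat.add (Nat.mul w7 (Nat.add (Nat.mul w7 (Nat.mul 3 (KB qbt6 qbt7 qbt7))) (Nat.add (Nat.mul w8 (Nat.mul 6 (KB qbt6 qbt7 qbt8))) (Nat.add (Nat.mul w9 (Nat.mul 6 (KB qbt6 qbt7 qbt9))) (Nat.add (Nat.mul w10 (Nat.mul 6 (KB qbt6 qbt7 qbt10))) (Nat.add (Nat.mul w11 (Nat.mul 6 (KB qbt6 qbt7 qbt11))) (Nat.add (Nat.mul w12 (Nat.mul 6 (KB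 qbt6 qbt7 qbt12))) (Nat.add (Nat.mul w13 (Nat.mul 6 (KB qbt6 qbt7 qbt13))) (Nat.add (Nat.mul w14 (Nat.mul 6 (KB qbt6 qbt7 qbt14))) (Nat.add (Nat.mul w15 (Nat.mul 6 (KB qbt6 qbt7 qbt15))) (Nat.add (Nat.mul w16 (Nat.mul 6 (KB qbt6 qbt7 qbt16))) (Nat.add (Nat.mul w17 (Nat.mul 6 (KB qbt6 qbt7 qbt17))) (Nat.add (Nat.mul w18 (Nat.mul 6 (KB qbt6 qbt7 qbt18))) (Nat.add (Nat.mul w19 (Nat.mul 6 (KB qbt6 qbt7 qbt19))) (Nat.add (Nat.mul w20 (Nat.mul 6 (KB qbt6 qbt7 qbt20))) (Nat.add (Nat.mul w21 (Nat.mul 6 (KB qbt6 qbt7 qbt21))) (Nat.add (Nat.mul w22 (Nat.mul 6 (KB qbt6 qbt7 qbt22))) (Nat.add (Nat.mul w23 (Nat.mul 6 (KB qbt6 qbt7 qbt23))) (Nat.add (Nat.mul w24 (Nat.mul 6 (KB qbt6 qbt7 qbt24))) 0))))))))))))))))))) (Nat.add (Nat.mul w8 (Nat.add (Nat.mul w8 (Nat.mul 3 (KB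 qbt6 qbt8 qbt8))) (Nat.add (Nat.mul w9 (Nat.mul 6 (KB qbt6 qbt8 qbt9))) (Nat.add (Nat.mul w10 (Nat.mul 6 (KB qbt6 qbt8 qbt10))) (Nat.add (Nat.mul w11 (Nat.mul 6 (KB qbt6 qbt8 qbt11))) (Nat.add (Nat.mul w12 (Nat.mul 6 (KB qbt6 qbt8 qbt12))) (Nat.add (Nat.mul w13 (Nat.mul 6 (KB qbt6 qbt8 qbt13))) (Nat.add (Nat.mul w14 (Nat.mul 6 (KB qbt6 qbt8 qbt14))) (Nat.add (Nat.mul w15 (Nat.mul 6 (KB qbt6 qbt8 qbt15))) (Nat.add (Nat.mul w16 (Nat.mul 6 (KB qbt6 qbt8 qbt16))) (Nat.add (Nat.mul w17 (Nat.mul 6 (KB qbt6 qbt8 qbt17))) (Nat.add (Nat.mul w18 (Nat.mul 6 (KB qbt6 qbt8 qbt18))) (Nat.add (Nat.mul w19 (Nat.mul 6 (KB qbt6 qbt8 qbt19))) (Nat.add (Nat.mul w20 (Nat.mul 6 (KB qbt6 qbt8 qbt20))) (Nat.add (Nat.mul w21 (Nat.mul 6 (KB qbt6 qbt8 qbt21))) (Nat.add (Nat.mul w22 (Nat.mul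 6 (KB qbt6 qbt8 qbt22))) (Nat.add (Nat.mul w23 (Nat.mul 6 (KB qbt6 qbt8 qbt23))) (Nat.add (Nat.mul w24 (Nat.mul 6 (KB qbt6 qbt8 qbt24))) 0)))))))))))))))))) (Nat.add (Nat.mul w9 (Nat.add (Nat.mul w9 (Nat.mul 3 (KB qbt6 qbt9 qbt9))) (Nat.add (Nat.mul w10 (Nat.mul 6 (KB qbt6 qbt9 qbt10))) (Nat.add (Nat.mul w11 (Nat.mul 6 (KB qbt6 qbt9 qbt11))) (Nat.add (Nat.mul w12 (Nat.mul 6 (KB qbt6 qbt9 qbt12))) (Nat.add (Nat.mul w13 (Nat.mul 6 (KB qbt6 qbt9 qbt13))) (Nat.add (Nat.mul w14 (Nat.mul 6 (KB qbt6 qbt9 qbt14))) (Nat.add (Nat.mul w15 (Nat.mul 6 (KB qbt6 qbt9 qbt15))) (Nat.add (Nat.mul w16 (Nat.mul 6 (KB qbt6 qbt9 qbt16))) (Nat.add (Nat.mul w17 (Nat.mul 6 (KB qbt6 qbt9 qbt17))) (Nat.add (Nat.mul w18 (Nat.mul 6 (KB qbt6 qbt9 qbt18))) (Nat.add (Nat.mul w19 (Nat.mul 6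 (KB qbt6 qbt9 qbt19))) (Nat.add (Nat.mul w20 (Nat.mul 6 (KB qbt6 qbt9 qbt20))) (Nat.add (Nat.mul w21 (Nat.mul 6 (KB qbt6 qbt9 qbt21))) (Nat.add (Nat.mul w22 (Nat.mul 6 (KB qbt6 qbt9 qbt22))) (Nat.add (Nat.mul w23 (Nat.mul 6 (KB qbt6 qbt9 qbt23))) (Nat.add (Nat.mul w24 (Nat.mul 6 (KB qbt6 qbt9 qbt24))) 0))))))))))))))))) (Nat.add (Nat.mul w10 (Nat.add (Nat.mul w10 (Nat.mul 3 (KB qbt6 qbt10 qbt10))) (Nat.add (Nat.mul w11 (Nat.mul 6 (KB qbt6 qbt10 qbt11))) (Nat.add (Nat.mul w12 (Nat.mul 6 (KB qbt6 qbt10 qbt12))) (Nat.add (Nat.mul w13 (Nat.mul 6 (KB qbt6 qbt10 qbt13))) (Nat.add (Nat.mul w14 (Nat.mul 6 (KB qbt6 qbt10 qbt14))) (Nat.add (Nat.mul w15 (Nat.mul 6 (KB qbt6 qbt10 qbt15))) (Nat.add (Nat.mul w16 (Nat.mul 6 (KB qbt6 qbt10 qbt16))) (Nat.add (Nat.mul w17 (Nat.mul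 6 (KB qbt6 qbt10 qbt17))) (Nat.add (Nat.mul w18 (Nat.mul 6 (KB qbt6 qbt10 qbt18))) (Nat.add (Nat.mul w19 (Nat.mul 6 (KB qbt6 qbt10 qbt19))) (Nat.add (Nat.mul w20 (Nat.mul 6 (KB qbt6 qbt10 qbt20))) (Nat.add (Nat.mul w21 (Nat.mul 6 (KB qbt6 qbt10 qbt21))) (Nat.add (Nat.mul w22 (Nat.mul 6 (KB qbt6 qbt10 qbt22))) (Nat.add (Nat.mul w23 (Nat.mul 6 (KB qbt6 qbt10 qbt23))) (Nat.add (Nat.mul w24 (Nat.mul 6 (KB qbt6 qbt10 qbt24))) 0)))))))))))))))) (Nat.add (Nat.mul w11 (Nat.add (Nat.mul w11 (Nat.mul 3 (KB qbt6 qbt11 qbt11))) (Nat.add (Nat.mul w12 (Nat.mul 6 (KB qbt6 qbt11 qbt12))) (Nat.add (Nat.mul w13 (Nat.mul 6 (KB qbt6 qbt11 qbt13))) (Nat.add (Nat.mul w14 (Nat.mul 6 (KB qbt6 qbt11 qbt14))) (Nat.add (Nat.mul w15 (Nat.mul 6 (KB qbt6 qbt11 qbt15))) (Nat.add (Nat.mul w16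 (Nat.mul 6 (KB qbt6 qbt11 qbt16))) (Nat.add (Nat.mul w17 (Nat.mul 6 (KB qbt6 qbt11 qbt17))) (Nat.add (Nat.mul w18 (Nat.mul 6 (KB qbt6 qbt11 qbt18))) (Nat.add (Nat.mul w19 (Nat.mul 6 (KB qbt6 qbt11 qbt19))) (Nat.add (Nat.mul w20 (Nat.mul 6 (KB qbt6 qbt11 qbt20))) (Nat.add (Nat.mul w21 (Nat.mul 6 (KB qbt6 qbt11 qbt21))) (Nat.add (Nat.mul w22 (Nat.mul 6 (KB qbt6 qbt11 qbt22))) (Nat.add (Nat.mul w23 (Nat.mul 6 (KB qbt6 qbt11 qbt23))) (Nat.add (Nat.mul w24 (Nat.mul 6 (KB qbt6 qbt11 qbt24))) 0))))))))))))))) (Nat.add (Nat.mul w12 (Nat.add (Nat.mul w12 (Nat.mul 3 (KB qbt6 qbt12 qbt12))) (Nat.add (Nat.mul w13 (Nat.mul 6 (KB qbt6 qbt12 qbt13))) (Nat.add (Nat.mul w14 (Nat.mul 6 (KB qbt6 qbt12 qbt14))) (Nat.add (Nat.mul w15 (Nat.mul 6 (KB qbt6 qbt12 qbt15))) (Nat.add (Nat.mul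 w16 (Nat.mul 6 (KB qbt6 qbt12 qbt16))) (Nat.add (Nat.mul w17 (Nat.mul 6 (KB qbt6 qbt12 qbt17))) (Nat.add (Nat.mul w18 (Nat.mul 6 (KB qbt6 qbt12 qbt18))) (Nat.add (Nat.mul w19 (Nat.mul 6 (KB qbt6 qbt12 qbt19))) (Nat.add (Nat.mul w20 (Nat.mul 6 (KB qbt6 qbt12 qbt20))) (Nat.add (Nat.mul w21 (Nat.mul 6 (KB qbt6 qbt12 qbt21))) (Nat.add (Nat.mul w22 (Nat.mul 6 (KB qbt6 qbt12 qbt22))) (Nat.add (Nat.mul w23 (Nat.mul 6 (KB qbt6 qbt12 qbt23))) (Nat.add (Nat.mul w24 (Nat.mul 6 (KB qbt6 qbt12 qbt24))) 0)))))))))))))) (Nat.add (Nat.mul w13 (Nat.add (Nat.mul w13 (Nat.mul 3 (KB qbt6 qbt13 qbt13))) (Nat.add (Nat.mul w14 (Nat.mul 6 (KB qbt6 qbt13 qbt14))) (Nat.add (Nat.mul w15 (Nat.mul 6 (KB qbt6 qbt13 qbt15))) (Nat.add (Nat.mul w16 (Nat.mul 6 (KB qbt6 qbt13 qbt16))) (Nat.add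 (Nat.mul w17 (Nat.mul 6 (KB qbt6 qbt13 qbt17))) (Nat.add (Nat.mul w18 (Nat.mul 6 (KB qbt6 qbt13 qbt18))) (Nat.add (Nat.mul w19 (Nat.mul 6 (KB qbt6 qbt13 qbt19))) (Nat.add (Nat.mul w20 (Nat.mul 6 (KB qbt6 qbt13 qbt20))) (Nat.add (Nat.mul w21 (Nat.mul 6 (KB qbt6 qbt13 qbt21))) (Nat.add (Nat.mul w22 (Nat.mul 6 (KB qbt6 qbt13 qbt22))) (Nat.add (Nat.mul w23 (Nat.mul 6 (KB qbt6 qbt13 qbt23))) (Nat.add (Nat.mul w24 (Nat.mul 6 (KB qbt6 qbt13 qbt24))) 0))))))))))))) (Nat.add (Nat.mul w14 (Nat.add (Nat.mul w14 (Nat.mul 3 (KB qbt6 qbt14 qbt14))) (Nat.add (Nat.mul w15 (Nat.mul 6 (KB qbt6 qbt14 qbt15))) (Nat.add (Nat.mul w16 (Nat.mul 6 (KB qbt6 qbt14 qbt16))) (Nat.add (Nat.mul w17 (Nat.mul 6 (KB qbt6 qbt14 qbt17))) (Nat.add (Nat.mul w18 (Nat.mul 6 (KB qbt6 qbt14 qbt18)))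 (Nat.add (Nat.mul w19 (Nat.mul 6 (KB qbt6 qbt14 qbt19))) (Nat.add (Nat.mul w20 (Nat.mul 6 (KB qbt6 qbt14 qbt20))) (Nat.add (Nat.mul w21 (Nat.mul 6 (KB qbt6 qbt14 qbt21))) (Nat.add (Nat.mul w22 (Nat.mul 6 (KB qbt6 qbt14 qbt22))) (Nat.add (Nat.mul w23 (Nat.mul 6 (KB qbt6 qbt14 qbt23))) (Nat.add (Nat.mul w24 (Nat.mul 6 (KB qbt6 qbt14 qbt24))) 0)))))))))))) (Nat.add (Nat.mul w15 (Nat.add (Nat.mul w15 (Nat.mul 3 (KB qbt6 qbt15 qbt15))) (Nat.add (Nat.mul w16 (Nat.mul 6 (KB qbt6 qbt15 qbt16))) (Nat.add (Nat.mul w17 (Nat.mul 6 (KB qbt6 qbt15 qbt17))) (Nat.add (Nat.mul w18 (Nat.mul 6 (KB qbt6 qbt15 qbt18))) (Nat.add (Nat.mul w19 (Nat.mul 6 (KB qbt6 qbt15 qbt19))) (Nat.add (Nat.mul w20 (Nat.mul 6 (KB qbt6 qbt15 qbt20))) (Nat.add (Nat.mul w21 (Nat.mul 6 (KB qbt6 qbt15 qbt21)))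 (Nat.add (Nat.mul w22 (Nat.mul 6 (KB qbt6 qbt15 qbt22))) (Nat.add (Nat.mul w23 (Nat.mul 6 (KB qbt6 qbt15 qbt23))) (Nat.add (Nat.mul w24 (Nat.mul 6 (KB qbt6 qbt15 qbt24))) 0))))))))))) (Nat.add (Nat.mul w16 (Nat.add (Nat.mul w16 (Nat.mul 3 (KB qbt6 qbt16 qbt16))) (Nat.add (Nat.mul w17 (Nat.mul 6 (KB qbt6 qbt16 qbt17))) (Nat.add (Nat.mul w18 (Nat.mul 6 (KB qbt6 qbt16 qbt18))) (Nat.add (Nat.mul w19 (Nat.mul 6 (KB qbt6 qbt16 qbt19))) (Nat.add (Nat.mul w20 (Nat.mul 6 (KB qbt6 qbt16 qbt20))) (Nat.add (Nat.mul w21 (Nat.mul 6 (KB qbt6 qbt16 qbt21))) (Nat.add (Nat.mul w22 (Nat.mul 6 (KB qbt6 qbt16 qbt22))) (Nat.add (Nat.mul w23 (Nat.mul 6 (KB qbt6 qbt16 qbt23))) (Nat.add (Nat.mul w24 (Nat.mul 6 (KB qbt6 qbt16 qbt24))) 0)))))))))) (Nat.add (Nat.mul w17 (Nat.add (Nat.mul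 w17 (Nat.mul 3 (KB qbt6 qbt17 qbt17))) (Nat.add (Nat.mul w18 (Nat.mul 6 (KB qbt6 qbt17 qbt18))) (Nat.add (Nat.mul w19 (Nat.mul 6 (KB qbt6 qbt17 qbt19))) (Nat.add (Nat.mul w20 (Nat.mul 6 (KB qbt6 qbt17 qbt20))) (Nat.add (Nat.mul w21 (Nat.mul 6 (KB qbt6 qbt17 qbt21))) (Nat.add (Nat.mul w22 (Nat.mul 6 (KB qbt6 qbt17 qbt22))) (Nat.add (Nat.mul w23 (Nat.mul 6 (KB qbt6 qbt17 qbt23))) (Nat.add (Nat.mul w24 (Nat.mul 6 (KB qbt6 qbt17 qbt24))) 0))))))))) (Nat.add (Nat.mul w18 (Nat.add (Nat.mul w18 (Nat.mul 3 (KB qbt6 qbt18 qbt18))) (Nat.add (Nat.mul w19 (Nat.mul 6 (KB qbt6 qbt18 qbt19))) (Nat.add (Nat.mul w20 (Nat.mul 6 (KB qbt6 qbt18 qbt20))) (Nat.add (Nat.mul w21 (Nat.mul 6 (KB qbt6 qbt18 qbt21))) (Nat.add (Nat.mul w22 (Nat.mul 6 (KB qbt6 qbt18 qbt22))) (Nat.add (Nat.mul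 w23 (Nat.mul 6 (KB qbt6 qbt18 qbt23))) (Nat.add (Nat.mul w24 (Nat.mul 6 (KB qbt6 qbt18 qbt24))) 0)))))))) (Nat.add (Nat.mul w19 (Nat.add (Nat.mul w19 (Nat.mul 3 (KB qbt6 qbt19 qbt19))) (Nat.add (Nat.mul w20 (Nat.mul 6 (KB qbt6 qbt19 qbt20))) (Nat.add (Nat.mul w21 (Nat.mul 6 (KB qbt6 qbt19 qbt21))) (Nat.add (Nat.mul w22 (Nat.mul 6 (KB qbt6 qbt19 qbt22))) (Nat.add (Nat.mul w23 (Nat.mul 6 (KB qbt6 qbt19 qbt23))) (Nat.add (Nat.mul w24 (Nat.mul 6 (KB qbt6 qbt19 qbt24))) 0))))))) (Nat.add (Nat.mul w20 (Nat.add (Nat.mul w20 (Nat.mul 3 (KB qbt6 qbt20 qbt20))) (Nat.add (Nat.mul w21 (Nat.mul 6 (KB qbt6 qbt20 qbt21))) (Nat.add (Nat.mul w22 (Nat.mul 6 (KB qbt6 qbt20 qbt22))) (Nat.add (Nat.mul w23 (Nat.mul 6 (KB qbt6 qbt20 qbt23))) (Nat.add (Nat.mul w24 (Nat.mul 6 (KB qbt6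 qbt20 qbt24))) 0)))))) (Nat.add (Nat.mul w21 (Nat.add (Nat.mul w21 (Nat.mul 3 (KB qbt6 qbt21 qbt21))) (Nat.add (Nat.mul w22 (Nat.mul 6 (KB qbt6 qbt21 qbt22))) (Nat.add (Nat.mul w23 (Nat.mul 6 (KB qbt6 qbt21 qbt23))) (Nat.add (Nat.mul w24 (Nat.mul 6 (KB qbt6 qbt21 qbt24))) 0))))) (Nat.add (Nat.mul w22 (Nat.add (Nat.mul w22 (Nat.mul 3 (KB qbt6 qbt22 qbt22))) (Nat.add (Nat.mul w23 (Nat.mul 6 (KB qbt6 qbt22 qbt23))) (Nat.add (Nat.mul w24 (Nat.mul 6 (KB qbt6 qbt22 qbt24))) 0)))) (Nat.add (Nat.mul w23 (Nat.add (Nat.mul w23 (Nat.mul 3 (KB qbt6 qbt23 qbt23))) (Nat.add (Nat.mul w24 (Nat.mul 6 (KB qbt6 qbt23 qbt24))) 0))) (Nat.add (Nat.mul w24 (Nat.add (Nat.mul w24 (Nat.mul 3 (KB qbt6 qbt24 qbt24))) (0))) 0)))))))))))))))))))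

/-- Terms with least index 7. -/
noncomputable def qb7 (w7 w8 w9 w10 w11 w12 w13 w14 w15 w16 w17 w18 w19 w20 w21 w22 w23 w24 : Nat) : Nat :=
  Nat.mul w7 (Nat.add (Nat.mul w7 (Nat.add (Nat.mul w7 (KB qbt7 qbt7 qbt7)) (Nat.add (Nat.mul w8 (Nat.mul 3 (KB qbt7 qbt7 qbt8))) (Nat.add (Nat.mul w9 (Nat.mul 3 (KB qbt7 qbt7 qbt9))) (Nat.add (Nat.mul w10 (Nat.mul 3 (KB qbt7 qbt7 qbt10))) (Nat.add (Nat.mul w11 (Nat.mul 3 (KB qbt7 qbt7 qbt11))) (Nat.add (Nat.mul w12 (Nat.mul 3 (KB qbt7 qbt7 qbt12))) (Nat.add (Nat.mul w13 (Nat.mul 3 (KB qbt7 qbt7 qbt13))) (Nat.add (Nat.mul w14 (Nat.mul 3 (KB qbt7 qbt7 qbt14))) (Nat.add (Nat.mul w15 (Nat.mul 3 (KB qbt7 qbt7 qbt15))) (Nat.add (Nat.mul w16 (Nat.mul 3 (KB qbt7 qbt7 qbt16))) (Nat.add (Nat.mul w17 (Nat.mul 3 (KB qbt7 qbt7 qbt17)))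 (Nat.add (Nat.mul w18 (Nat.mul 3 (KB qbt7 qbt7 qbt18))) (Nat.add (Nat.mul w19 (Nat.mul 3 (KB qbt7 qbt7 qbt19))) (Nat.add (Nat.mul w20 (Nat.mul 3 (KB qbt7 qbt7 qbt20))) (Nat.add (Nat.mul w21 (Nat.mul 3 (KB qbt7 qbt7 qbt21))) (Nat.add (Nat.mul w22 (Nat.mul 3 (KB qbt7 qbt7 qbt22))) (Nat.add (Nat.mul w23 (Nat.mul 3 (KB qbt7 qbt7 qbt23))) (Nat.add (Nat.mul w24 (Nat.mul 3 (KB qbt7 qbt7 qbt24))) 0))))))))))))))))))) (Nat.add (Nat.mul w8 (Nat.add (Nat.mul w8 (Nat.mul 3 (KB qbt7 qbt8 qbt8))) (Nat.add (Nat.mul w9 (Nat.mul 6 (KB qbt7 qbt8 qbt9))) (Nat.add (Nat.mul w10 (Nat.mul 6 (KB qbt7 qbt8 qbt10))) (Nat.add (Nat.mul w11 (Nat.mul 6 (KB qbt7 qbt8 qbt11))) (Nat.add (Nat.mul w12 (Nat.mul 6 (KB qbt7 qbt8 qbt12))) (Nat.add (Nat.mul w13 (Nat.mul 6 (KB qbt7 qbt8 qbt13))) (Nat.add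 (Nat.mul w14 (Nat.mul 6 (KB qbt7 qbt8 qbt14))) (Nat.add (Nat.mul w15 (Nat.mul 6 (KB qbt7 qbt8 qbt15))) (Nat.add (Nat.mul w16 (Nat.mul 6 (KB qbt7 qbt8 qbt16))) (Nat.add (Nat.mul w17 (Nat.mul 6 (KB qbt7 qbt8 qbt17))) (Nat.add (Nat.mul w18 (Nat.mul 6 (KB qbt7 qbt8 qbt18))) (Nat.add (Nat.mul w19 (Nat.mul 6 (KB qbt7 qbt8 qbt19))) (Nat.add (Nat.mul w20 (Nat.mul 6 (KB qbt7 qbt8 qbt20))) (Nat.add (Nat.mul w21 (Nat.mul 6 (KB qbt7 qbt8 qbt21))) (Nat.add (Nat.mul w22 (Nat.mul 6 (KB qbt7 qbt8 qbt22))) (Nat.add (Nat.mul w23 (Nat.mul 6 (KB qbt7 qbt8 qbt23))) (Nat.add (Nat.mul w24 (Nat.mul 6 (KB qbt7 qbt8 qbt24))) 0)))))))))))))))))) (Nat.add (Nat.mul w9 (Nat.add (Nat.mul w9 (Nat.mul 3 (KB qbt7 qbt9 qbt9))) (Nat.add (Nat.mul w10 (Nat.mul 6 (KB qbt7 qbt9 qbt10))) (Nat.add (Nat.mul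 w11 (Nat.mul 6 (KB qbt7 qbt9 qbt11))) (Nat.add (Nat.mul w12 (Nat.mul 6 (KB qbt7 qbt9 qbt12))) (Nat.add (Nat.mul w13 (Nat.mul 6 (KB qbt7 qbt9 qbt13))) (Nat.add (Nat.mul w14 (Nat.mul 6 (KB qbt7 qbt9 qbt14))) (Nat.add (Nat.mul w15 (Nat.mul 6 (KB qbt7 qbt9 qbt15))) (Nat.add (Nat.mul w16 (Nat.mul 6 (KB qbt7 qbt9 qbt16))) (Nat.add (Nat.mul w17 (Nat.mul 6 (KB qbt7 qbt9 qbt17))) (Nat.add (Nat.mul w18 (Nat.mul 6 (KB qbt7 qbt9 qbt18))) (Nat.add (Nat.mul w19 (Nat.mul 6 (KB qbt7 qbt9 qbt19))) (Nat.add (Nat.mul w20 (Nat.mul 6 (KB qbt7 qbt9 qbt20))) (Nat.add (Nat.mul w21 (Nat.mul 6 (KB qbt7 qbt9 qbt21))) (Nat.add (Nat.mul w22 (Nat.mul 6 (KB qbt7 qbt9 qbt22))) (Nat.add (Nat.mul w23 (Nat.mul 6 (KB qbt7 qbt9 qbt23))) (Nat.add (Nat.mul w24 (Nat.mul 6 (KB qbt7 qbt9 qbt24))) 0)))))))))))))))))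 (Nat.add (Nat.mul w10 (Nat.add (Nat.mul w10 (Nat.mul 3 (KB qbt7 qbt10 qbt10))) (Nat.add (Nat.mul w11 (Nat.mul 6 (KB qbt7 qbt10 qbt11))) (Nat.add (Nat.mul w12 (Nat.mul 6 (KB qbt7 qbt10 qbt12))) (Nat.add (Nat.mul w13 (Nat.mul 6 (KB qbt7 qbt10 qbt13))) (Nat.add (Nat.mul w14 (Nat.mul 6 (KB qbt7 qbt10 qbt14))) (Nat.add (Nat.mul w15 (Nat.mul 6 (KB qbt7 qbt10 qbt15))) (Nat.add (Nat.mul w16 (Nat.mul 6 (KB qbt7 qbt10 qbt16))) (Nat.add (Nat.mul w17 (Nat.mul 6 (KB qbt7 qbt10 qbt17))) (Nat.add (Nat.mul w18 (Nat.mul 6 (KB qbt7 qbt10 qbt18))) (Nat.add (Nat.mul w19 (Nat.mul 6 (KB qbt7 qbt10 qbt19))) (Nat.add (Nat.mul w20 (Nat.mul 6 (KB qbt7 qbt10 qbt20))) (Nat.add (Nat.mul w21 (Nat.mul 6 (KB qbt7 qbt10 qbt21))) (Nat.add (Nat.mul w22 (Nat.mul 6 (KB qbt7 qbt10 qbt22))) (Nat.add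 (Nat.mul w23 (Nat.mul 6 (KB qbt7 qbt10 qbt23))) (Nat.add (Nat.mul w24 (Nat.mul 6 (KB qbt7 qbt10 qbt24))) 0)))))))))))))))) (Nat.add (Nat.mul w11 (Nat.add (Nat.mul w11 (Nat.mul 3 (KB qbt7 qbt11 qbt11))) (Nat.add (Nat.mul w12 (Nat.mul 6 (KB qbt7 qbt11 qbt12))) (Nat.add (Nat.mul w13 (Nat.mul 6 (KB qbt7 qbt11 qbt13))) (Nat.add (Nat.mul w14 (Nat.mul 6 (KB qbt7 qbt11 qbt14))) (Nat.add (Nat.mul w15 (Nat.mul 6 (KB qbt7 qbt11 qbt15))) (Nat.add (Nat.mul w16 (Nat.mul 6 (KB qbt7 qbt11 qbt16))) (Nat.add (Nat.mul w17 (Nat.mul 6 (KB qbt7 qbt11 qbt17))) (Nat.add (Nat.mul w18 (Nat.mul 6 (KB qbt7 qbt11 qbt18))) (Nat.add (Nat.mul w19 (Nat.mul 6 (KB qbt7 qbt11 qbt19))) (Nat.add (Nat.mul w20 (Nat.mul 6 (KB qbt7 qbt11 qbt20))) (Nat.add (Nat.mul w21 (Nat.mul 6 (KB qbt7 qbt11 qbt21)))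 (Nat.add (Nat.mul w22 (Nat.mul 6 (KB qbt7 qbt11 qbt22))) (Nat.add (Nat.mul w23 (Nat.mul 6 (KB qbt7 qbt11 qbt23))) (Nat.add (Nat.mul w24 (Nat.mul 6 (KB qbt7 qbt11 qbt24))) 0))))))))))))))) (Nat.add (Nat.mul w12 (Nat.add (Nat.mul w12 (Nat.mul 3 (KB qbt7 qbt12 qbt12))) (Nat.add (Nat.mul w13 (Nat.mul 6 (KB qbt7 qbt12 qbt13))) (Nat.add (Nat.mul w14 (Nat.mul 6 (KB qbt7 qbt12 qbt14))) (Nat.add (Nat.mul w15 (Nat.mul 6 (KB qbt7 qbt12 qbt15))) (Nat.add (Nat.mul w16 (Nat.mul 6 (KB qbt7 qbt12 qbt16))) (Nat.add (Nat.mul w17 (Nat.mul 6 (KB qbt7 qbt12 qbt17))) (Nat.add (Nat.mul w18 (Nat.mul 6 (KB qbt7 qbt12 qbt18))) (Nat.add (Nat.mul w19 (Nat.mul 6 (KB qbt7 qbt12 qbt19))) (Nat.add (Nat.mul w20 (Nat.mul 6 (KB qbt7 qbt12 qbt20))) (Nat.add (Nat.mul w21 (Nat.mul 6 (KB qbt7 qbt12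 qbt21))) (Nat.add (Nat.mul w22 (Nat.mul 6 (KB qbt7 qbt12 qbt22))) (Nat.add (Nat.mul w23 (Nat.mul 6 (KB qbt7 qbt12 qbt23))) (Nat.add (Nat.mul w24 (Nat.mul 6 (KB qbt7 qbt12 qbt24))) 0)))))))))))))) (Nat.add (Nat.mul w13 (Nat.add (Nat.mul w13 (Nat.mul 3 (KB qbt7 qbt13 qbt13))) (Nat.add (Nat.mul w14 (Nat.mul 6 (KB qbt7 qbt13 qbt14))) (Nat.add (Nat.mul w15 (Nat.mul 6 (KB qbt7 qbt13 qbt15))) (Nat.add (Nat.mul w16 (Nat.mul 6 (KB qbt7 qbt13 qbt16))) (Nat.add (Nat.mul w17 (Nat.mul 6 (KB qbt7 qbt13 qbt17))) (Nat.add (Nat.mul w18 (Nat.mul 6 (KB qbt7 qbt13 qbt18))) (Nat.add (Nat.mul w19 (Nat.mul 6 (KB qbt7 qbt13 qbt19))) (Nat.add (Nat.mul w20 (Nat.mul 6 (KB qbt7 qbt13 qbt20))) (Nat.add (Nat.mul w21 (Nat.mul 6 (KB qbt7 qbt13 qbt21))) (Nat.add (Nat.mul w22 (Nat.mul 6 (KB qbt7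 qbt13 qbt22))) (Nat.add (Nat.mul w23 (Nat.mul 6 (KB qbt7 qbt13 qbt23))) (Nat.add (Nat.mul w24 (Nat.mul 6 (KB qbt7 qbt13 qbt24))) 0))))))))))))) (Nat.add (Nat.mul w14 (Nat.add (Nat.mul w14 (Nat.mul 3 (KB qbt7 qbt14 qbt14))) (Nat.add (Nat.mul w15 (Nat.mul 6 (KB qbt7 qbt14 qbt15))) (Nat.add (Nat.mul w16 (Nat.mul 6 (KB qbt7 qbt14 qbt16))) (Nat.add (Nat.mul w17 (Nat.mul 6 (KB qbt7 qbt14 qbt17))) (Nat.add (Nat.mul w18 (Nat.mul 6 (KB qbt7 qbt14 qbt18))) (Nat.add (Nat.mul w19 (Nat.mul 6 (KB qbt7 qbt14 qbt19))) (Nat.add (Nat.mul w20 (Nat.mul 6 (KB qbt7 qbt14 qbt20))) (Nat.add (Nat.mul w21 (Nat.mul 6 (KB qbt7 qbt14 qbt21))) (Nat.add (Nat.mul w22 (Nat.mul 6 (KB qbt7 qbt14 qbt22))) (Nat.add (Nat.mul w23 (Nat.mul 6 (KB qbt7 qbt14 qbt23))) (Nat.add (Nat.mul w24 (Nat.mul 6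 (KB qbt7 qbt14 qbt24))) 0)))))))))))) (Nat.add (Nat.mul w15 (Nat.add (Nat.mul w15 (Nat.mul 3 (KB qbt7 qbt15 qbt15))) (Nat.add (Nat.mul w16 (Nat.mul 6 (KB qbt7 qbt15 qbt16))) (Nat.add (Nat.mul w17 (Nat.mul 6 (KB qbt7 qbt15 qbt17))) (Nat.add (Nat.mul w18 (Nat.mul 6 (KB qbt7 qbt15 qbt18))) (Nat.add (Nat.mul w19 (Nat.mul 6 (KB qbt7 qbt15 qbt19))) (Nat.add (Nat.mul w20 (Nat.mul 6 (KB qbt7 qbt15 qbt20))) (Nat.add (Nat.mul w21 (Nat.mul 6 (KB qbt7 qbt15 qbt21))) (Nat.add (Nat.mul w22 (Nat.mul 6 (KB qbt7 qbt15 qbt22))) (Nat.add (Nat.mul w23 (Nat.mul 6 (KB qbt7 qbt15 qbt23))) (Nat.add (Nat.mul w24 (Nat.mul 6 (KB qbt7 qbt15 qbt24))) 0))))))))))) (Nat.add (Nat.mul w16 (Nat.add (Nat.mul w16 (Nat.mul 3 (KB qbt7 qbt16 qbt16))) (Nat.add (Nat.mul w17 (Nat.mul 6 (KB qbt7 qbt16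 qbt17))) (Nat.add (Nat.mul w18 (Nat.mul 6 (KB qbt7 qbt16 qbt18))) (Nat.add (Nat.mul w19 (Nat.mul 6 (KB qbt7 qbt16 qbt19))) (Nat.add (Nat.mul w20 (Nat.mul 6 (KB qbt7 qbt16 qbt20))) (Nat.add (Nat.mul w21 (Nat.mul 6 (KB qbt7 qbt16 qbt21))) (Nat.add (Nat.mul w22 (Nat.mul 6 (KB qbt7 qbt16 qbt22))) (Nat.add (Nat.mul w23 (Nat.mul 6 (KB qbt7 qbt16 qbt23))) (Nat.add (Nat.mul w24 (Nat.mul 6 (KB qbt7 qbt16 qbt24))) 0)))))))))) (Nat.add (Nat.mul w17 (Nat.add (Nat.mul w17 (Nat.mul 3 (KB qbt7 qbt17 qbt17))) (Nat.add (Nat.mul w18 (Nat.mul 6 (KB qbt7 qbt17 qbt18))) (Nat.add (Nat.mul w19 (Nat.mul 6 (KB qbt7 qbt17 qbt19))) (Nat.add (Nat.mul w20 (Nat.mul 6 (KB qbt7 qbt17 qbt20))) (Nat.add (Nat.mul w21 (Nat.mul 6 (KB qbt7 qbt17 qbt21))) (Nat.add (Nat.mul w22 (Nat.mul 6 (KB qbt7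 qbt17 qbt22))) (Nat.add (Nat.mul w23 (Nat.mul 6 (KB qbt7 qbt17 qbt23))) (Nat.add (Nat.mul w24 (Nat.mul 6 (KB qbt7 qbt17 qbt24))) 0))))))))) (Nat.add (Nat.mul w18 (Nat.add (Nat.mul w18 (Nat.mul 3 (KB qbt7 qbt18 qbt18))) (Nat.add (Nat.mul w19 (Nat.mul 6 (KB qbt7 qbt18 qbt19))) (Nat.add (Nat.mul w20 (Nat.mul 6 (KB qbt7 qbt18 qbt20))) (Nat.add (Nat.mul w21 (Nat.mul 6 (KB qbt7 qbt18 qbt21))) (Nat.add (Nat.mul w22 (Nat.mul 6 (KB qbt7 qbt18 qbt22))) (Nat.add (Nat.mul w23 (Nat.mul 6 (KB qbt7 qbt18 qbt23))) (Nat.add (Nat.mul w24 (Nat.mul 6 (KB qbt7 qbt18 qbt24))) 0)))))))) (Nat.add (Nat.mul w19 (Nat.add (Nat.mul w19 (Nat.mul 3 (KB qbt7 qbt19 qbt19))) (Nat.add (Nat.mul w20 (Nat.mul 6 (KB qbt7 qbt19 qbt20))) (Nat.add (Nat.mul w21 (Nat.mul 6 (KB qbt7 qbt19 qbt21))) (Nat.add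 (Nat.mul w22 (Nat.mul 6 (KB qbt7 qbt19 qbt22))) (Nat.add (Nat.mul w23 (Nat.mul 6 (KB qbt7 qbt19 qbt23))) (Nat.add (Nat.mul w24 (Nat.mul 6 (KB qbt7 qbt19 qbt24))) 0))))))) (Nat.add (Nat.mul w20 (Nat.add (Nat.mul w20 (Nat.mul 3 (KB qbt7 qbt20 qbt20))) (Nat.add (Nat.mul w21 (Nat.mul 6 (KB qbt7 qbt20 qbt21))) (Nat.add (Nat.mul w22 (Nat.mul 6 (KB qbt7 qbt20 qbt22))) (Nat.add (Nat.mul w23 (Nat.mul 6 (KB qbt7 qbt20 qbt23))) (Nat.add (Nat.mul w24 (Nat.mul 6 (KB qbt7 qbt20 qbt24))) 0)))))) (Nat.add (Nat.mul w21 (Nat.add (Nat.mul w21 (Nat.mul 3 (KB qbt7 qbt21 qbt21))) (Nat.add (Nat.mul w22 (Nat.mul 6 (KB qbt7 qbt21 qbt22))) (Nat.add (Nat.mul w23 (Nat.mul 6 (KB qbt7 qbt21 qbt23))) (Nat.add (Nat.mul w24 (Nat.mul 6 (KB qbt7 qbt21 qbt24))) 0))))) (Nat.add (Nat.mul w22 (Nat.add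 (Nat.mul w22 (Nat.mul 3 (KB qbt7 qbt22 qbt22))) (Nat.add (Nat.mul w23 (Nat.mul 6 (KB qbt7 qbt22 qbt23))) (Nat.add (Nat.mul w24 (Nat.mul 6 (KB qbt7 qbt22 qbt24))) 0)))) (Nat.add (Nat.mul w23 (Nat.add (Nat.mul w23 (Nat.mul 3 (KB qbt7 qbt23 qbt23))) (Nat.add (Nat.mul w24 (Nat.mul 6 (KB qbt7 qbt23 qbt24))) 0))) (Nat.add (Nat.mul w24 (Nat.add (Nat.mul w24 (Nat.mul 3 (KB qbt7 qbt24 qbt24))) (0))) 0))))))))))))))))))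

/-- Terms with least index 8. -/
noncomputable def qb8 (w8 w9 w10 w11 w12 w13 w14 w15 w16 w17 w18 w19 w20 w21 w22 w23 w24 : Nat) : Nat :=
  Nat.mul w8 (Nat.add (Nat.mul w8 (Nat.add (Nat.mul w8 (KB qbt8 qbt8 qbt8)) (Nat.add (Nat.mul w9 (Nat.mul 3 (KB qbt8 qbt8 qbt9))) (Nat.add (Nat.mul w10 (Nat.mul 3 (KB qbt8 qbt8 qbt10))) (Nat.add (Nat.mul w11 (Nat.mul 3 (KB qbt8 qbt8 qbt11))) (Nat.add (Nat.mul w12 (Nat.mul 3 (KB qbt8 qbt8 qbt12))) (Nat.add (Nat.mul w13 (Nat.mul 3 (KB qbt8 qbt8 qbt13))) (Nat.add (Nat.mul w14 (Nat.mul 3 (KB qbt8 qbt8 qbt14))) (Nat.add (Nat.mul w15 (Nat.mul 3 (KB qbt8 qbt8 qbt15))) (Nat.add (Nat.mul w16 (Nat.mul 3 (KB qbt8 qbt8 qbt16))) (Nat.add (Nat.mul w17 (Nat.mul 3 (KB qbt8 qbt8 qbt17))) (Nat.add (Nat.mul w18 (Nat.mul 3 (KB qbt8 qbt8 qbt18)))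 (Nat.add (Nat.mul w19 (Nat.mul 3 (KB qbt8 qbt8 qbt19))) (Nat.add (Nat.mul w20 (Nat.mul 3 (KB qbt8 qbt8 qbt20))) (Nat.add (Nat.mul w21 (Nat.mul 3 (KB qbt8 qbt8 qbt21))) (Nat.add (Nat.mul w22 (Nat.mul 3 (KB qbt8 qbt8 qbt22))) (Nat.add (Nat.mul w23 (Nat.mul 3 (KB qbt8 qbt8 qbt23))) (Nat.add (Nat.mul w24 (Nat.mul 3 (KB qbt8 qbt8 qbt24))) 0)))))))))))))))))) (Nat.add (Nat.mul w9 (Nat.add (Nat.mul w9 (Nat.mul 3 (KB qbt8 qbt9 qbt9))) (Nat.add (Nat.mul w10 (Nat.mul 6 (KB qbt8 qbt9 qbt10))) (Nat.add (Nat.mul w11 (Nat.mul 6 (KB qbt8 qbt9 qbt11))) (Nat.add (Nat.mul w12 (Nat.mul 6 (KB qbt8 qbt9 qbt12))) (Nat.add (Nat.mul w13 (Nat.mul 6 (KB qbt8 qbt9 qbt13))) (Nat.add (Nat.mul w14 (Nat.mul 6 (KB qbt8 qbt9 qbt14))) (Nat.add (Nat.mul w15 (Nat.mul 6 (KB qbt8 qbt9 qbt15))) (Nat.add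 (Nat.mul w16 (Nat.mul 6 (KB qbt8 qbt9 qbt16))) (Nat.add (Nat.mul w17 (Nat.mul 6 (KB qbt8 qbt9 qbt17))) (Nat.add (Nat.mul w18 (Nat.mul 6 (KB qbt8 qbt9 qbt18))) (Nat.add (Nat.mul w19 (Nat.mul 6 (KB qbt8 qbt9 qbt19))) (Nat.add (Nat.mul w20 (Nat.mul 6 (KB qbt8 qbt9 qbt20))) (Nat.add (Nat.mul w21 (Nat.mul 6 (KB qbt8 qbt9 qbt21))) (Nat.add (Nat.mul w22 (Nat.mul 6 (KB qbt8 qbt9 qbt22))) (Nat.add (Nat.mul w23 (Nat.mul 6 (KB qbt8 qbt9 qbt23))) (Nat.add (Nat.mul w24 (Nat.mul 6 (KB qbt8 qbt9 qbt24))) 0))))))))))))))))) (Nat.add (Nat.mul w10 (Nat.add (Nat.mul w10 (Nat.mul 3 (KB qbt8 qbt10 qbt10))) (Nat.add (Nat.mul w11 (Nat.mul 6 (KB qbt8 qbt10 qbt11))) (Nat.add (Nat.mul w12 (Nat.mul 6 (KB qbt8 qbt10 qbt12))) (Nat.add (Nat.mul w13 (Nat.mul 6 (KB qbt8 qbt10 qbt13))) (Nat.add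 (Nat.mul w14 (Nat.mul 6 (KB qbt8 qbt10 qbt14))) (Nat.add (Nat.mul w15 (Nat.mul 6 (KB qbt8 qbt10 qbt15))) (Nat.add (Nat.mul w16 (Nat.mul 6 (KB qbt8 qbt10 qbt16))) (Nat.add (Nat.mul w17 (Nat.mul 6 (KB qbt8 qbt10 qbt17))) (Nat.add (Nat.mul w18 (Nat.mul 6 (KB qbt8 qbt10 qbt18))) (Nat.add (Nat.mul w19 (Nat.mul 6 (KB qbt8 qbt10 qbt19))) (Nat.add (Nat.mul w20 (Nat.mul 6 (KB qbt8 qbt10 qbt20))) (Nat.add (Nat.mul w21 (Nat.mul 6 (KB qbt8 qbt10 qbt21))) (Nat.add (Nat.mul w22 (Nat.mul 6 (KB qbt8 qbt10 qbt22))) (Nat.add (Nat.mul w23 (Nat.mul 6 (KB qbt8 qbt10 qbt23))) (Nat.add (Nat.mul w24 (Nat.mul 6 (KB qbt8 qbt10 qbt24))) 0)))))))))))))))) (Nat.add (Nat.mul w11 (Nat.add (Nat.mul w11 (Nat.mul 3 (KB qbt8 qbt11 qbt11))) (Nat.add (Nat.mul w12 (Nat.mul 6 (KB qbt8 qbt11 qbt12)))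 (Nat.add (Nat.mul w13 (Nat.mul 6 (KB qbt8 qbt11 qbt13))) (Nat.add (Nat.mul w14 (Nat.mul 6 (KB qbt8 qbt11 qbt14))) (Nat.add (Nat.mul w15 (Nat.mul 6 (KB qbt8 qbt11 qbt15))) (Nat.add (Nat.mul w16 (Nat.mul 6 (KB qbt8 qbt11 qbt16))) (Nat.add (Nat.mul w17 (Nat.mul 6 (KB qbt8 qbt11 qbt17))) (Nat.add (Nat.mul w18 (Nat.mul 6 (KB qbt8 qbt11 qbt18))) (Nat.add (Nat.mul w19 (Nat.mul 6 (KB qbt8 qbt11 qbt19))) (Nat.add (Nat.mul w20 (Nat.mul 6 (KB qbt8 qbt11 qbt20))) (Nat.add (Nat.mul w21 (Nat.mul 6 (KB qbt8 qbt11 qbt21))) (Nat.add (Nat.mul w22 (Nat.mul 6 (KB qbt8 qbt11 qbt22))) (Nat.add (Nat.mul w23 (Nat.mul 6 (KB qbt8 qbt11 qbt23))) (Nat.add (Nat.mul w24 (Nat.mul 6 (KB qbt8 qbt11 qbt24))) 0))))))))))))))) (Nat.add (Nat.mul w12 (Nat.add (Nat.mul w12 (Nat.mul 3 (KB qbt8 qbt12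 qbt12))) (Nat.add (Nat.mul w13 (Nat.mul 6 (KB qbt8 qbt12 qbt13))) (Nat.add (Nat.mul w14 (Nat.mul 6 (KB qbt8 qbt12 qbt14))) (Nat.add (Nat.mul w15 (Nat.mul 6 (KB qbt8 qbt12 qbt15))) (Nat.add (Nat.mul w16 (Nat.mul 6 (KB qbt8 qbt12 qbt16))) (Nat.add (Nat.mul w17 (Nat.mul 6 (KB qbt8 qbt12 qbt17))) (Nat.add (Nat.mul w18 (Nat.mul 6 (KB qbt8 qbt12 qbt18))) (Nat.add (Nat.mul w19 (Nat.mul 6 (KB qbt8 qbt12 qbt19))) (Nat.add (Nat.mul w20 (Nat.mul 6 (KB qbt8 qbt12 qbt20))) (Nat.add (Nat.mul w21 (Nat.mul 6 (KB qbt8 qbt12 qbt21))) (Nat.add (Nat.mul w22 (Nat.mul 6 (KB qbt8 qbt12 qbt22))) (Nat.add (Nat.mul w23 (Nat.mul 6 (KB qbt8 qbt12 qbt23))) (Nat.add (Nat.mul w24 (Nat.mul 6 (KB qbt8 qbt12 qbt24))) 0)))))))))))))) (Nat.add (Nat.mul w13 (Nat.add (Nat.mul w13 (Nat.mul 3 (KB qbt8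 qbt13 qbt13))) (Nat.add (Nat.mul w14 (Nat.mul 6 (KB qbt8 qbt13 qbt14))) (Nat.add (Nat.mul w15 (Nat.mul 6 (KB qbt8 qbt13 qbt15))) (Nat.add (Nat.mul w16 (Nat.mul 6 (KB qbt8 qbt13 qbt16))) (Nat.add (Nat.mul w17 (Nat.mul 6 (KB qbt8 qbt13 qbt17))) (Nat.add (Nat.mul w18 (Nat.mul 6 (KB qbt8 qbt13 qbt18))) (Nat.add (Nat.mul w19 (Nat.mul 6 (KB qbt8 qbt13 qbt19))) (Nat.add (Nat.mul w20 (Nat.mul 6 (KB qbt8 qbt13 qbt20))) (Nat.add (Nat.mul w21 (Nat.mul 6 (KB qbt8 qbt13 qbt21))) (Nat.add (Nat.mul w22 (Nat.mul 6 (KB qbt8 qbt13 qbt22))) (Nat.add (Nat.mul w23 (Nat.mul 6 (KB qbt8 qbt13 qbt23))) (Nat.add (Nat.mul w24 (Nat.mul 6 (KB qbt8 qbt13 qbt24))) 0))))))))))))) (Nat.add (Nat.mul w14 (Nat.add (Nat.mul w14 (Nat.mul 3 (KB qbt8 qbt14 qbt14))) (Nat.add (Nat.mul w15 (Nat.mul 6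 (KB qbt8 qbt14 qbt15))) (Nat.add (Nat.mul w16 (Nat.mul 6 (KB qbt8 qbt14 qbt16))) (Nat.add (Nat.mul w17 (Nat.mul 6 (KB qbt8 qbt14 qbt17))) (Nat.add (Nat.mul w18 (Nat.mul 6 (KB qbt8 qbt14 qbt18))) (Nat.add (Nat.mul w19 (Nat.mul 6 (KB qbt8 qbt14 qbt19))) (Nat.add (Nat.mul w20 (Nat.mul 6 (KB qbt8 qbt14 qbt20))) (Nat.add (Nat.mul w21 (Nat.mul 6 (KB qbt8 qbt14 qbt21))) (Nat.add (Nat.mul w22 (Nat.mul 6 (KB qbt8 qbt14 qbt22))) (Nat.add (Nat.mul w23 (Nat.mul 6 (KB qbt8 qbt14 qbt23))) (Nat.add (Nat.mul w24 (Nat.mul 6 (KB qbt8 qbt14 qbt24))) 0)))))))))))) (Nat.add (Nat.mul w15 (Nat.add (Nat.mul w15 (Nat.mul 3 (KB qbt8 qbt15 qbt15))) (Nat.add (Nat.mul w16 (Nat.mul 6 (KB qbt8 qbt15 qbt16))) (Nat.add (Nat.mul w17 (Nat.mul 6 (KB qbt8 qbt15 qbt17))) (Nat.add (Nat.mul w18 (Nat.mul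 6 (KB qbt8 qbt15 qbt18))) (Nat.add (Nat.mul w19 (Nat.mul 6 (KB qbt8 qbt15 qbt19))) (Nat.add (Nat.mul w20 (Nat.mul 6 (KB qbt8 qbt15 qbt20))) (Nat.add (Nat.mul w21 (Nat.mul 6 (KB qbt8 qbt15 qbt21))) (Nat.add (Nat.mul w22 (Nat.mul 6 (KB qbt8 qbt15 qbt22))) (Nat.add (Nat.mul w23 (Nat.mul 6 (KB qbt8 qbt15 qbt23))) (Nat.add (Nat.mul w24 (Nat.mul 6 (KB qbt8 qbt15 qbt24))) 0))))))))))) (Nat.add (Nat.mul w16 (Nat.add (Nat.mul w16 (Nat.mul 3 (KB qbt8 qbt16 qbt16))) (Nat.add (Nat.mul w17 (Nat.mul 6 (KB qbt8 qbt16 qbt17))) (Nat.add (Nat.mul w18 (Nat.mul 6 (KB qbt8 qbt16 qbt18))) (Nat.add (Nat.mul w19 (Nat.mul 6 (KB qbt8 qbt16 qbt19))) (Nat.add (Nat.mul w20 (Nat.mul 6 (KB qbt8 qbt16 qbt20))) (Nat.add (Nat.mul w21 (Nat.mul 6 (KB qbt8 qbt16 qbt21))) (Nat.add (Nat.mul w22 (Nat.mul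 6 (KB qbt8 qbt16 qbt22))) (Nat.add (Nat.mul w23 (Nat.mul 6 (KB qbt8 qbt16 qbt23))) (Nat.add (Nat.mul w24 (Nat.mul 6 (KB qbt8 qbt16 qbt24))) 0)))))))))) (Nat.add (Nat.mul w17 (Nat.add (Nat.mul w17 (Nat.mul 3 (KB qbt8 qbt17 qbt17))) (Nat.add (Nat.mul w18 (Nat.mul 6 (KB qbt8 qbt17 qbt18))) (Nat.add (Nat.mul w19 (Nat.mul 6 (KB qbt8 qbt17 qbt19))) (Nat.add (Nat.mul w20 (Nat.mul 6 (KB qbt8 qbt17 qbt20))) (Nat.add (Nat.mul w21 (Nat.mul 6 (KB qbt8 qbt17 qbt21))) (Nat.add (Nat.mul w22 (Nat.mul 6 (KB qbt8 qbt17 qbt22))) (Nat.add (Nat.mul w23 (Nat.mul 6 (KB qbt8 qbt17 qbt23))) (Nat.add (Nat.mul w24 (Nat.mul 6 (KB qbt8 qbt17 qbt24))) 0))))))))) (Nat.add (Nat.mul w18 (Nat.add (Nat.mul w18 (Nat.mul 3 (KB qbt8 qbt18 qbt18))) (Nat.add (Nat.mul w19 (Nat.mul 6 (KB qbt8 qbt18 qbt19)))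 (Nat.add (Nat.mul w20 (Nat.mul 6 (KB qbt8 qbt18 qbt20))) (Nat.add (Nat.mul w21 (Nat.mul 6 (KB qbt8 qbt18 qbt21))) (Nat.add (Nat.mul w22 (Nat.mul 6 (KB qbt8 qbt18 qbt22))) (Nat.add (Nat.mul w23 (Nat.mul 6 (KB qbt8 qbt18 qbt23))) (Nat.add (Nat.mul w24 (Nat.mul 6 (KB qbt8 qbt18 qbt24))) 0)))))))) (Nat.add (Nat.mul w19 (Nat.add (Nat.mul w19 (Nat.mul 3 (KB qbt8 qbt19 qbt19))) (Nat.add (Nat.mul w20 (Nat.mul 6 (KB qbt8 qbt19 qbt20))) (Nat.add (Nat.mul w21 (Nat.mul 6 (KB qbt8 qbt19 qbt21))) (Nat.add (Nat.mul w22 (Nat.mul 6 (KB qbt8 qbt19 qbt22))) (Nat.add (Nat.mul w23 (Nat.mul 6 (KB qbt8 qbt19 qbt23))) (Nat.add (Nat.mul w24 (Nat.mul 6 (KB qbt8 qbt19 qbt24))) 0))))))) (Nat.add (Nat.mul w20 (Nat.add (Nat.mul w20 (Nat.mul 3 (KB qbt8 qbt20 qbt20))) (Nat.add (Nat.mul w21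 (Nat.mul 6 (KB qbt8 qbt20 qbt21))) (Nat.add (Nat.mul w22 (Nat.mul 6 (KB qbt8 qbt20 qbt22))) (Nat.add (Nat.mul w23 (Nat.mul 6 (KB qbt8 qbt20 qbt23))) (Nat.add (Nat.mul w24 (Nat.mul 6 (KB qbt8 qbt20 qbt24))) 0)))))) (Nat.add (Nat.mul w21 (Nat.add (Nat.mul w21 (Nat.mul 3 (KB qbt8 qbt21 qbt21))) (Nat.add (Nat.mul w22 (Nat.mul 6 (KB qbt8 qbt21 qbt22))) (Nat.add (Nat.mul w23 (Nat.mul 6 (KB qbt8 qbt21 qbt23))) (Nat.add (Nat.mul w24 (Nat.mul 6 (KB qbt8 qbt21 qbt24))) 0))))) (Nat.add (Nat.mul w22 (Nat.add (Nat.mul w22 (Nat.mul 3 (KB qbt8 qbt22 qbt22))) (Nat.add (Nat.mul w23 (Nat.mul 6 (KB qbt8 qbt22 qbt23))) (Nat.add (Nat.mul w24 (Nat.mul 6 (KB qbt8 qbt22 qbt24))) 0)))) (Nat.add (Nat.mul w23 (Nat.add (Nat.mul w23 (Nat.mul 3 (KB qbt8 qbt23 qbt23))) (Nat.add (Nat.mul w24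 (Nat.mul 6 (KB qbt8 qbt23 qbt24))) 0))) (Nat.add (Nat.mul w24 (Nat.add (Nat.mul w24 (Nat.mul 3 (KB qbt8 qbt24 qbt24))) (0))) 0)))))))))))))))))

/-- Terms with least index 9. -/
noncomputable def qb9 (w9 w10 w11 w12 w13 w14 w15 w16 w17 w18 w19 w20 w21 w22 w23 w24 : Nat) : Nat :=
  Nat.mul w9 (Nat.add (Nat.mul w9 (Nat.add (Nat.mul w9 (KB qbt9 qbt9 qbt9)) (Nat.add (Nat.mul w10 (Nat.mul 3 (KB qbt9 qbt9 qbt10))) (Nat.add (Nat.mul w11 (Nat.mul 3 (KB qbt9 qbt9 qbt11))) (Nat.add (Nat.mul w12 (Nat.mul 3 (KB qbt9 qbt9 qbt12))) (Nat.add (Nat.mul w13 (Nat.mul 3 (KB qbt9 qbt9 qbt13))) (Nat.add (Nat.mul w14 (Nat.mul 3 (KB qbt9 qbt9 qbt14))) (Nat.add (Nat.mul w15 (Nat.mul 3 (KB qbt9 qbt9 qbt15))) (Nat.add (Nat.mul w16 (Nat.mul 3 (KB qbt9 qbt9 qbt16))) (Nat.add (Nat.mul w17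 (Nat.mul 3 (KB qbt9 qbt9 qbt17))) (Nat.add (Nat.mul w18 (Nat.mul 3 (KB qbt9 qbt9 qbt18))) (Nat.add (Nat.mul w19 (Nat.mul 3 (KB qbt9 qbt9 qbt19))) (Nat.add (Nat.mul w20 (Nat.mul 3 (KB qbt9 qbt9 qbt20))) (Nat.add (Nat.mul w21 (Nat.mul 3 (KB qbt9 qbt9 qbt21))) (Nat.add (Nat.mul w22 (Nat.mul 3 (KB qbt9 qbt9 qbt22))) (Nat.add (Nat.mul w23 (Nat.mul 3 (KB qbt9 qbt9 qbt23))) (Nat.add (Nat.mul w24 (Nat.mul 3 (KB qbt9 qbt9 qbt24))) 0))))))))))))))))) (Nat.add (Nat.mul w10 (Nat.add (Nat.mul w10 (Nat.mul 3 (KB qbt9 qbt10 qbt10))) (Nat.add (Nat.mul w11 (Nat.mul 6 (KB qbt9 qbt10 qbt11))) (Nat.add (Nat.mul w12 (Nat.mul 6 (KB qbt9 qbt10 qbt12))) (Nat.add (Nat.mul w13 (Nat.mul 6 (KB qbt9 qbt10 qbt13))) (Nat.add (Nat.mul w14 (Nat.mul 6 (KB qbt9 qbt10 qbt14))) (Nat.add (Nat.mul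 w15 (Nat.mul 6 (KB qbt9 qbt10 qbt15))) (Nat.add (Nat.mul w16 (Nat.mul 6 (KB qbt9 qbt10 qbt16))) (Nat.add (Nat.mul w17 (Nat.mul 6 (KB qbt9 qbt10 qbt17))) (Nat.add (Nat.mul w18 (Nat.mul 6 (KB qbt9 qbt10 qbt18))) (Nat.add (Nat.mul w19 (Nat.mul 6 (KB qbt9 qbt10 qbt19))) (Nat.add (Nat.mul w20 (Nat.mul 6 (KB qbt9 qbt10 qbt20))) (Nat.add (Nat.mul w21 (Nat.mul 6 (KB qbt9 qbt10 qbt21))) (Nat.add (Nat.mul w22 (Nat.mul 6 (KB qbt9 qbt10 qbt22))) (Nat.add (Nat.mul w23 (Nat.mul 6 (KB qbt9 qbt10 qbt23))) (Nat.add (Nat.mul w24 (Nat.mul 6 (KB qbt9 qbt10 qbt24))) 0)))))))))))))))) (Nat.add (Nat.mul w11 (Nat.add (Nat.mul w11 (Nat.mul 3 (KB qbt9 qbt11 qbt11))) (Nat.add (Nat.mul w12 (Nat.mul 6 (KB qbt9 qbt11 qbt12))) (Nat.add (Nat.mul w13 (Nat.mul 6 (KB qbt9 qbt11 qbt13))) (Nat.add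 (Nat.mul w14 (Nat.mul 6 (KB qbt9 qbt11 qbt14))) (Nat.add (Nat.mul w15 (Nat.mul 6 (KB qbt9 qbt11 qbt15))) (Nat.add (Nat.mul w16 (Nat.mul 6 (KB qbt9 qbt11 qbt16))) (Nat.add (Nat.mul w17 (Nat.mul 6 (KB qbt9 qbt11 qbt17))) (Nat.add (Nat.mul w18 (Nat.mul 6 (KB qbt9 qbt11 qbt18))) (Nat.add (Nat.mul w19 (Nat.mul 6 (KB qbt9 qbt11 qbt19))) (Nat.add (Nat.mul w20 (Nat.mul 6 (KB qbt9 qbt11 qbt20))) (Nat.add (Nat.mul w21 (Nat.mul 6 (KB qbt9 qbt11 qbt21))) (Nat.add (Nat.mul w22 (Nat.mul 6 (KB qbt9 qbt11 qbt22))) (Nat.add (Nat.mul w23 (Nat.mul 6 (KB qbt9 qbt11 qbt23))) (Nat.add (Nat.mul w24 (Nat.mul 6 (KB qbt9 qbt11 qbt24))) 0))))))))))))))) (Nat.add (Nat.mul w12 (Nat.add (Nat.mul w12 (Nat.mul 3 (KB qbt9 qbt12 qbt12))) (Nat.add (Nat.mul w13 (Nat.mul 6 (KB qbt9 qbt12 qbt13)))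 (Nat.add (Nat.mul w14 (Nat.mul 6 (KB qbt9 qbt12 qbt14))) (Nat.add (Nat.mul w15 (Nat.mul 6 (KB qbt9 qbt12 qbt15))) (Nat.add (Nat.mul w16 (Nat.mul 6 (KB qbt9 qbt12 qbt16))) (Nat.add (Nat.mul w17 (Nat.mul 6 (KB qbt9 qbt12 qbt17))) (Nat.add (Nat.mul w18 (Nat.mul 6 (KB qbt9 qbt12 qbt18))) (Nat.add (Nat.mul w19 (Nat.mul 6 (KB qbt9 qbt12 qbt19))) (Nat.add (Nat.mul w20 (Nat.mul 6 (KB qbt9 qbt12 qbt20))) (Nat.add (Nat.mul w21 (Nat.mul 6 (KB qbt9 qbt12 qbt21))) (Nat.add (Nat.mul w22 (Nat.mul 6 (KB qbt9 qbt12 qbt22))) (Nat.add (Nat.mul w23 (Nat.mul 6 (KB qbt9 qbt12 qbt23))) (Nat.add (Nat.mul w24 (Nat.mul 6 (KB qbt9 qbt12 qbt24))) 0)))))))))))))) (Nat.add (Nat.mul w13 (Nat.add (Nat.mul w13 (Nat.mul 3 (KB qbt9 qbt13 qbt13))) (Nat.add (Nat.mul w14 (Nat.mul 6 (KB qbt9 qbt13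 qbt14))) (Nat.add (Nat.mul w15 (Nat.mul 6 (KB qbt9 qbt13 qbt15))) (Nat.add (Nat.mul w16 (Nat.mul 6 (KB qbt9 qbt13 qbt16))) (Nat.add (Nat.mul w17 (Nat.mul 6 (KB qbt9 qbt13 qbt17))) (Nat.add (Nat.mul w18 (Nat.mul 6 (KB qbt9 qbt13 qbt18))) (Nat.add (Nat.mul w19 (Nat.mul 6 (KB qbt9 qbt13 qbt19))) (Nat.add (Nat.mul w20 (Nat.mul 6 (KB qbt9 qbt13 qbt20))) (Nat.add (Nat.mul w21 (Nat.mul 6 (KB qbt9 qbt13 qbt21))) (Nat.add (Nat.mul w22 (Nat.mul 6 (KB qbt9 qbt13 qbt22))) (Nat.add (Nat.mul w23 (Nat.mul 6 (KB qbt9 qbt13 qbt23))) (Nat.add (Nat.mul w24 (Nat.mul 6 (KB qbt9 qbt13 qbt24))) 0))))))))))))) (Nat.add (Nat.mul w14 (Nat.add (Nat.mul w14 (Nat.mul 3 (KB qbt9 qbt14 qbt14))) (Nat.add (Nat.mul w15 (Nat.mul 6 (KB qbt9 qbt14 qbt15))) (Nat.add (Nat.mul w16 (Nat.mul 6 (KB qbt9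 qbt14 qbt16))) (Nat.add (Nat.mul w17 (Nat.mul 6 (KB qbt9 qbt14 qbt17))) (Nat.add (Nat.mul w18 (Nat.mul 6 (KB qbt9 qbt14 qbt18))) (Nat.add (Nat.mul w19 (Nat.mul 6 (KB qbt9 qbt14 qbt19))) (Nat.add (Nat.mul w20 (Nat.mul 6 (KB qbt9 qbt14 qbt20))) (Nat.add (Nat.mul w21 (Nat.mul 6 (KB qbt9 qbt14 qbt21))) (Nat.add (Nat.mul w22 (Nat.mul 6 (KB qbt9 qbt14 qbt22))) (Nat.add (Nat.mul w23 (Nat.mul 6 (KB qbt9 qbt14 qbt23))) (Nat.add (Nat.mul w24 (Nat.mul 6 (KB qbt9 qbt14 qbt24))) 0)))))))))))) (Nat.add (Nat.mul w15 (Nat.add (Nat.mul w15 (Nat.mul 3 (KB qbt9 qbt15 qbt15))) (Nat.add (Nat.mul w16 (Nat.mul 6 (KB qbt9 qbt15 qbt16))) (Nat.add (Nat.mul w17 (Nat.mul 6 (KB qbt9 qbt15 qbt17))) (Nat.add (Nat.mul w18 (Nat.mul 6 (KB qbt9 qbt15 qbt18))) (Nat.add (Nat.mul w19 (Nat.mul 6 (KB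 qbt9 qbt15 qbt19))) (Nat.add (Nat.mul w20 (Nat.mul 6 (KB qbt9 qbt15 qbt20))) (Nat.add (Nat.mul w21 (Nat.mul 6 (KB qbt9 qbt15 qbt21))) (Nat.add (Nat.mul w22 (Nat.mul 6 (KB qbt9 qbt15 qbt22))) (Nat.add (Nat.mul w23 (Nat.mul 6 (KB qbt9 qbt15 qbt23))) (Nat.add (Nat.mul w24 (Nat.mul 6 (KB qbt9 qbt15 qbt24))) 0))))))))))) (Nat.add (Nat.mul w16 (Nat.add (Nat.mul w16 (Nat.mul 3 (KB qbt9 qbt16 qbt16))) (Nat.add (Nat.mul w17 (Nat.mul 6 (KB qbt9 qbt16 qbt17))) (Nat.add (Nat.mul w18 (Nat.mul 6 (KB qbt9 qbt16 qbt18))) (Nat.add (Nat.mul w19 (Nat.mul 6 (KB qbt9 qbt16 qbt19))) (Nat.add (Nat.mul w20 (Nat.mul 6 (KB qbt9 qbt16 qbt20))) (Nat.add (Nat.mul w21 (Nat.mul 6 (KB qbt9 qbt16 qbt21))) (Nat.add (Nat.mul w22 (Nat.mul 6 (KB qbt9 qbt16 qbt22))) (Nat.add (Nat.mul w23 (Nat.mul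 6 (KB qbt9 qbt16 qbt23))) (Nat.add (Nat.mul w24 (Nat.mul 6 (KB qbt9 qbt16 qbt24))) 0)))))))))) (Nat.add (Nat.mul w17 (Nat.add (Nat.mul w17 (Nat.mul 3 (KB qbt9 qbt17 qbt17))) (Nat.add (Nat.mul w18 (Nat.mul 6 (KB qbt9 qbt17 qbt18))) (Nat.add (Nat.mul w19 (Nat.mul 6 (KB qbt9 qbt17 qbt19))) (Nat.add (Nat.mul w20 (Nat.mul 6 (KB qbt9 qbt17 qbt20))) (Nat.add (Nat.mul w21 (Nat.mul 6 (KB qbt9 qbt17 qbt21))) (Nat.add (Nat.mul w22 (Nat.mul 6 (KB qbt9 qbt17 qbt22))) (Nat.add (Nat.mul w23 (Nat.mul 6 (KB qbt9 qbt17 qbt23))) (Nat.add (Nat.mul w24 (Nat.mul 6 (KB qbt9 qbt17 qbt24))) 0))))))))) (Nat.add (Nat.mul w18 (Nat.add (Nat.mul w18 (Nat.mul 3 (KB qbt9 qbt18 qbt18))) (Nat.add (Nat.mul w19 (Nat.mul 6 (KB qbt9 qbt18 qbt19))) (Nat.add (Nat.mul w20 (Nat.mul 6 (KB qbt9 qbt18 qbt20)))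 (Nat.add (Nat.mul w21 (Nat.mul 6 (KB qbt9 qbt18 qbt21))) (Nat.add (Nat.mul w22 (Nat.mul 6 (KB qbt9 qbt18 qbt22))) (Nat.add (Nat.mul w23 (Nat.mul 6 (KB qbt9 qbt18 qbt23))) (Nat.add (Nat.mul w24 (Nat.mul 6 (KB qbt9 qbt18 qbt24))) 0)))))))) (Nat.add (Nat.mul w19 (Nat.add (Nat.mul w19 (Nat.mul 3 (KB qbt9 qbt19 qbt19))) (Nat.add (Nat.mul w20 (Nat.mul 6 (KB qbt9 qbt19 qbt20))) (Nat.add (Nat.mul w21 (Nat.mul 6 (KB qbt9 qbt19 qbt21))) (Nat.add (Nat.mul w22 (Nat.mul 6 (KB qbt9 qbt19 qbt22))) (Nat.add (Nat.mul w23 (Nat.mul 6 (KB qbt9 qbt19 qbt23))) (Nat.add (Nat.mul w24 (Nat.mul 6 (KB qbt9 qbt19 qbt24))) 0))))))) (Nat.add (Nat.mul w20 (Nat.add (Nat.mul w20 (Nat.mul 3 (KB qbt9 qbt20 qbt20))) (Nat.add (Nat.mul w21 (Nat.mul 6 (KB qbt9 qbt20 qbt21))) (Nat.add (Nat.mul w22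 (Nat.mul 6 (KB qbt9 qbt20 qbt22))) (Nat.add (Nat.mul w23 (Nat.mul 6 (KB qbt9 qbt20 qbt23))) (Nat.add (Nat.mul w24 (Nat.mul 6 (KB qbt9 qbt20 qbt24))) 0)))))) (Nat.add (Nat.mul w21 (Nat.add (Nat.mul w21 (Nat.mul 3 (KB qbt9 qbt21 qbt21))) (Nat.add (Nat.mul w22 (Nat.mul 6 (KB qbt9 qbt21 qbt22))) (Nat.add (Nat.mul w23 (Nat.mul 6 (KB qbt9 qbt21 qbt23))) (Nat.add (Nat.mul w24 (Nat.mul 6 (KB qbt9 qbt21 qbt24))) 0))))) (Nat.add (Nat.mul w22 (Nat.add (Nat.mul w22 (Nat.mul 3 (KB qbt9 qbt22 qbt22))) (Nat.add (Nat.mul w23 (Nat.mul 6 (KB qbt9 qbt22 qbt23))) (Nat.add (Nat.mul w24 (Nat.mul 6 (KB qbt9 qbt22 qbt24))) 0)))) (Nat.add (Nat.mul w23 (Nat.add (Nat.mul w23 (Nat.mul 3 (KB qbt9 qbt23 qbt23))) (Nat.add (Nat.mul w24 (Nat.mul 6 (KB qbt9 qbt23 qbt24))) 0))) (Nat.add (Nat.mul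 w24 (Nat.add (Nat.mul w24 (Nat.mul 3 (KB qbt9 qbt24 qbt24))) (0))) 0))))))))))))))))

/-- Terms with least index 10. -/
noncomputable def qb10 (w10 w11 w12 w13 w14 w15 w16 w17 w18 w19 w20 w21 w22 w23 w24 : Nat) : Nat :=
  Nat.mul w10 (Nat.add (Nat.mul w10 (Nat.add (Nat.mul w10 (KB qbt10 qbt10 qbt10)) (Nat.add (Nat.mul w11 (Nat.mul 3 (KB qbt10 qbt10 qbt11))) (Nat.add (Nat.mul w12 (Nat.mul 3 (KB qbt10 qbt10 qbt12))) (Nat.add (Nat.mul w13 (Nat.mul 3 (KB qbt10 qbt10 qbt13))) (Nat.add (Nat.mul w14 (Nat.mul 3 (KB qbt10 qbt10 qbt14))) (Nat.add (Nat.mul w15 (Nat.mul 3 (KB qbt10 qbt10 qbt15))) (Nat.add (Nat.mul w16 (Nat.mul 3 (KB qbt10 qbt10 qbt16))) (Nat.add (Nat.mul w17 (Nat.mul 3 (KB qbt10 qbt10 qbt17))) (Nat.add (Nat.mul w18 (Nat.mul 3 (KB qbt10 qbt10 qbt18))) (Nat.add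 (Nat.mul w19 (Nat.mul 3 (KB qbt10 qbt10 qbt19))) (Nat.add (Nat.mul w20 (Nat.mul 3 (KB qbt10 qbt10 qbt20))) (Nat.add (Nat.mul w21 (Nat.mul 3 (KB qbt10 qbt10 qbt21))) (Nat.add (Nat.mul w22 (Nat.mul 3 (KB qbt10 qbt10 qbt22))) (Nat.add (Nat.mul w23 (Nat.mul 3 (KB qbt10 qbt10 qbt23))) (Nat.add (Nat.mul w24 (Nat.mul 3 (KB qbt10 qbt10 qbt24))) 0)))))))))))))))) (Nat.add (Nat.mul w11 (Nat.add (Nat.mul w11 (Nat.mul 3 (KB qbt10 qbt11 qbt11))) (Nat.add (Nat.mul w12 (Nat.mul 6 (KB qbt10 qbt11 qbt12))) (Nat.add (Nat.mul w13 (Nat.mul 6 (KB qbt10 qbt11 qbt13))) (Nat.add (Nat.mul w14 (Nat.mul 6 (KB qbt10 qbt11 qbt14))) (Nat.add (Nat.mul w15 (Nat.mul 6 (KB qbt10 qbt11 qbt15))) (Nat.add (Nat.mul w16 (Nat.mul 6 (KB qbt10 qbt11 qbt16))) (Nat.add (Nat.mul w17 (Nat.mul 6 (KB qbt10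 qbt11 qbt17))) (Nat.add (Nat.mul w18 (Nat.mul 6 (KB qbt10 qbt11 qbt18))) (Nat.add (Nat.mul w19 (Nat.mul 6 (KB qbt10 qbt11 qbt19))) (Nat.add (Nat.mul w20 (Nat.mul 6 (KB qbt10 qbt11 qbt20))) (Nat.add (Nat.mul w21 (Nat.mul 6 (KB qbt10 qbt11 qbt21))) (Nat.add (Nat.mul w22 (Nat.mul 6 (KB qbt10 qbt11 qbt22))) (Nat.add (Nat.mul w23 (Nat.mul 6 (KB qbt10 qbt11 qbt23))) (Nat.add (Nat.mul w24 (Nat.mul 6 (KB qbt10 qbt11 qbt24))) 0))))))))))))))) (Nat.add (Nat.mul w12 (Nat.add (Nat.mul w12 (Nat.mul 3 (KB qbt10 qbt12 qbt12))) (Nat.add (Nat.mul w13 (Nat.mul 6 (KB qbt10 qbt12 qbt13))) (Nat.add (Nat.mul w14 (Nat.mul 6 (KB qbt10 qbt12 qbt14))) (Nat.add (Nat.mul w15 (Nat.mul 6 (KB qbt10 qbt12 qbt15))) (Nat.add (Nat.mul w16 (Nat.mul 6 (KB qbt10 qbt12 qbt16))) (Nat.add (Nat.mul w17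 (Nat.mul 6 (KB qbt10 qbt12 qbt17))) (Nat.add (Nat.mul w18 (Nat.mul 6 (KB qbt10 qbt12 qbt18))) (Nat.add (Nat.mul w19 (Nat.mul 6 (KB qbt10 qbt12 qbt19))) (Nat.add (Nat.mul w20 (Nat.mul 6 (KB qbt10 qbt12 qbt20))) (Nat.add (Nat.mul w21 (Nat.mul 6 (KB qbt10 qbt12 qbt21))) (Nat.add (Nat.mul w22 (Nat.mul 6 (KB qbt10 qbt12 qbt22))) (Nat.add (Nat.mul w23 (Nat.mul 6 (KB qbt10 qbt12 qbt23))) (Nat.add (Nat.mul w24 (Nat.mul 6 (KB qbt10 qbt12 qbt24))) 0)))))))))))))) (Nat.add (Nat.mul w13 (Nat.add (Nat.mul w13 (Nat.mul 3 (KB qbt10 qbt13 qbt13))) (Nat.add (Nat.mul w14 (Nat.mul 6 (KB qbt10 qbt13 qbt14))) (Nat.add (Nat.mul w15 (Nat.mul 6 (KB qbt10 qbt13 qbt15))) (Nat.add (Nat.mul w16 (Nat.mul 6 (KB qbt10 qbt13 qbt16))) (Nat.add (Nat.mul w17 (Nat.mul 6 (KB qbt10 qbt13 qbt17)))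 (Nat.add (Nat.mul w18 (Nat.mul 6 (KB qbt10 qbt13 qbt18))) (Nat.add (Nat.mul w19 (Nat.mul 6 (KB qbt10 qbt13 qbt19))) (Nat.add (Nat.mul w20 (Nat.mul 6 (KB qbt10 qbt13 qbt20))) (Nat.add (Nat.mul w21 (Nat.mul 6 (KB qbt10 qbt13 qbt21))) (Nat.add (Nat.mul w22 (Nat.mul 6 (KB qbt10 qbt13 qbt22))) (Nat.add (Nat.mul w23 (Nat.mul 6 (KB qbt10 qbt13 qbt23))) (Nat.add (Nat.mul w24 (Nat.mul 6 (KB qbt10 qbt13 qbt24))) 0))))))))))))) (Nat.add (Nat.mul w14 (Nat.add (Nat.mul w14 (Nat.mul 3 (KB qbt10 qbt14 qbt14))) (Nat.add (Nat.mul w15 (Nat.mul 6 (KB qbt10 qbt14 qbt15))) (Nat.add (Nat.mul w16 (Nat.mul 6 (KB qbt10 qbt14 qbt16))) (Nat.add (Nat.mul w17 (Nat.mul 6 (KB qbt10 qbt14 qbt17))) (Nat.add (Nat.mul w18 (Nat.mul 6 (KB qbt10 qbt14 qbt18))) (Nat.add (Nat.mul w19 (Nat.mul 6 (KB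 qbt10 qbt14 qbt19))) (Nat.add (Nat.mul w20 (Nat.mul 6 (KB qbt10 qbt14 qbt20))) (Nat.add (Nat.mul w21 (Nat.mul 6 (KB qbt10 qbt14 qbt21))) (Nat.add (Nat.mul w22 (Nat.mul 6 (KB qbt10 qbt14 qbt22))) (Nat.add (Nat.mul w23 (Nat.mul 6 (KB qbt10 qbt14 qbt23))) (Nat.add (Nat.mul w24 (Nat.mul 6 (KB qbt10 qbt14 qbt24))) 0)))))))))))) (Nat.add (Nat.mul w15 (Nat.add (Nat.mul w15 (Nat.mul 3 (KB qbt10 qbt15 qbt15))) (Nat.add (Nat.mul w16 (Nat.mul 6 (KB qbt10 qbt15 qbt16))) (Nat.add (Nat.mul w17 (Nat.mul 6 (KB qbt10 qbt15 qbt17))) (Nat.add (Nat.mul w18 (Nat.mul 6 (KB qbt10 qbt15 qbt18))) (Nat.add (Nat.mul w19 (Nat.mul 6 (KB qbt10 qbt15 qbt19))) (Nat.add (Nat.mul w20 (Nat.mul 6 (KB qbt10 qbt15 qbt20))) (Nat.add (Nat.mul w21 (Nat.mul 6 (KB qbt10 qbt15 qbt21))) (Nat.add (Nat.mul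 w22 (Nat.mul 6 (KB qbt10 qbt15 qbt22))) (Nat.add (Nat.mul w23 (Nat.mul 6 (KB qbt10 qbt15 qbt23))) (Nat.add (Nat.mul w24 (Nat.mul 6 (KB qbt10 qbt15 qbt24))) 0))))))))))) (Nat.add (Nat.mul w16 (Nat.add (Nat.mul w16 (Nat.mul 3 (KB qbt10 qbt16 qbt16))) (Nat.add (Nat.mul w17 (Nat.mul 6 (KB qbt10 qbt16 qbt17))) (Nat.add (Nat.mul w18 (Nat.mul 6 (KB qbt10 qbt16 qbt18))) (Nat.add (Nat.mul w19 (Nat.mul 6 (KB qbt10 qbt16 qbt19))) (Nat.add (Nat.mul w20 (Nat.mul 6 (KB qbt10 qbt16 qbt20))) (Nat.add (Nat.mul w21 (Nat.mul 6 (KB qbt10 qbt16 qbt21))) (Nat.add (Nat.mul w22 (Nat.mul 6 (KB qbt10 qbt16 qbt22))) (Nat.add (Nat.mul w23 (Nat.mul 6 (KB qbt10 qbt16 qbt23))) (Nat.add (Nat.mul w24 (Nat.mul 6 (KB qbt10 qbt16 qbt24))) 0)))))))))) (Nat.add (Nat.mul w17 (Nat.add (Nat.mul w17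 (Nat.mul 3 (KB qbt10 qbt17 qbt17))) (Nat.add (Nat.mul w18 (Nat.mul 6 (KB qbt10 qbt17 qbt18))) (Nat.add (Nat.mul w19 (Nat.mul 6 (KB qbt10 qbt17 qbt19))) (Nat.add (Nat.mul w20 (Nat.mul 6 (KB qbt10 qbt17 qbt20))) (Nat.add (Nat.mul w21 (Nat.mul 6 (KB qbt10 qbt17 qbt21))) (Nat.add (Nat.mul w22 (Nat.mul 6 (KB qbt10 qbt17 qbt22))) (Nat.add (Nat.mul w23 (Nat.mul 6 (KB qbt10 qbt17 qbt23))) (Nat.add (Nat.mul w24 (Nat.mul 6 (KB qbt10 qbt17 qbt24))) 0))))))))) (Nat.add (Nat.mul w18 (Nat.add (Nat.mul w18 (Nat.mul 3 (KB qbt10 qbt18 qbt18))) (Nat.add (Nat.mul w19 (Nat.mul 6 (KB qbt10 qbt18 qbt19))) (Nat.add (Nat.mul w20 (Nat.mul 6 (KB qbt10 qbt18 qbt20))) (Nat.add (Nat.mul w21 (Nat.mul 6 (KB qbt10 qbt18 qbt21))) (Nat.add (Nat.mul w22 (Nat.mul 6 (KB qbt10 qbt18 qbt22))) (Nat.add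 (Nat.mul w23 (Nat.mul 6 (KB qbt10 qbt18 qbt23))) (Nat.add (Nat.mul w24 (Nat.mul 6 (KB qbt10 qbt18 qbt24))) 0)))))))) (Nat.add (Nat.mul w19 (Nat.add (Nat.mul w19 (Nat.mul 3 (KB qbt10 qbt19 qbt19))) (Nat.add (Nat.mul w20 (Nat.mul 6 (KB qbt10 qbt19 qbt20))) (Nat.add (Nat.mul w21 (Nat.mul 6 (KB qbt10 qbt19 qbt21))) (Nat.add (Nat.mul w22 (Nat.mul 6 (KB qbt10 qbt19 qbt22))) (Nat.add (Nat.mul w23 (Nat.mul 6 (KB qbt10 qbt19 qbt23))) (Nat.add (Nat.mul w24 (Nat.mul 6 (KB qbt10 qbt19 qbt24))) 0))))))) (Nat.add (Nat.mul w20 (Nat.add (Nat.mul w20 (Nat.mul 3 (KB qbt10 qbt20 qbt20))) (Nat.add (Nat.mul w21 (Nat.mul 6 (KB qbt10 qbt20 qbt21))) (Nat.add (Nat.mul w22 (Nat.mul 6 (KB qbt10 qbt20 qbt22))) (Nat.add (Nat.mul w23 (Nat.mul 6 (KB qbt10 qbt20 qbt23))) (Nat.add (Nat.mul w24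 (Nat.mul 6 (KB qbt10 qbt20 qbt24))) 0)))))) (Nat.add (Nat.mul w21 (Nat.add (Nat.mul w21 (Nat.mul 3 (KB qbt10 qbt21 qbt21))) (Nat.add (Nat.mul w22 (Nat.mul 6 (KB qbt10 qbt21 qbt22))) (Nat.add (Nat.mul w23 (Nat.mul 6 (KB qbt10 qbt21 qbt23))) (Nat.add (Nat.mul w24 (Nat.mul 6 (KB qbt10 qbt21 qbt24))) 0))))) (Nat.add (Nat.mul w22 (Nat.add (Nat.mul w22 (Nat.mul 3 (KB qbt10 qbt22 qbt22))) (Nat.add (Nat.mul w23 (Nat.mul 6 (KB qbt10 qbt22 qbt23))) (Nat.add (Nat.mul w24 (Nat.mul 6 (KB qbt10 qbt22 qbt24))) 0)))) (Nat.add (Nat.mul w23 (Nat.add (Nat.mul w23 (Nat.mul 3 (KB qbt10 qbt23 qbt23))) (Nat.add (Nat.mul w24 (Nat.mul 6 (KB qbt10 qbt23 qbt24))) 0))) (Nat.add (Nat.mul w24 (Nat.add (Nat.mul w24 (Nat.mul 3 (KB qbt10 qbt24 qbt24))) (0))) 0)))))))))))))))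

/-- Terms with least index 11. -/
noncomputable def qb11 (w11 w12 w13 w14 w15 w16 w17 w18 w19 w20 w21 w22 w23 w24 : Nat) : Nat :=
  Nat.mul w11 (Nat.add (Nat.mul w11 (Nat.add (Nat.mul w11 (KB qbt11 qbt11 qbt11)) (Nat.add (Nat.mul w12 (Nat.mul 3 (KB qbt11 qbt11 qbt12))) (Nat.add (Nat.mul w13 (Nat.mul 3 (KB qbt11 qbt11 qbt13))) (Nat.add (Nat.mul w14 (Nat.mul 3 (KB qbt11 qbt11 qbt14))) (Nat.add (Nat.mul w15 (Nat.mul 3 (KB qbt11 qbt11 qbt15))) (Nat.add (Nat.mul w16 (Nat.mul 3 (KB qbt11 qbt11 qbt16))) (Nat.add (Nat.mul w17 (Nat.mul 3 (KB qbt11 qbt11 qbt17))) (Nat.add (Nat.mul w18 (Nat.mul 3 (KB qbt11 qbt11 qbt18))) (Nat.add (Nat.mul w19 (Nat.mul 3 (KB qbt11 qbt11 qbt19))) (Nat.add (Nat.mul w20 (Nat.mul 3 (KB qbt11 qbt11 qbt20))) (Nat.add (Nat.mul w21 (Nat.mul 3 (KB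 qbt11 qbt11 qbt21))) (Nat.add (Nat.mul w22 (Nat.mul 3 (KB qbt11 qbt11 qbt22))) (Nat.add (Nat.mul w23 (Nat.mul 3 (KB qbt11 qbt11 qbt23))) (Nat.add (Nat.mul w24 (Nat.mul 3 (KB qbt11 qbt11 qbt24))) 0))))))))))))))) (Nat.add (Nat.mul w12 (Nat.add (Nat.mul w12 (Nat.mul 3 (KB qbt11 qbt12 qbt12))) (Nat.add (Nat.mul w13 (Nat.mul 6 (KB qbt11 qbt12 qbt13))) (Nat.add (Nat.mul w14 (Nat.mul 6 (KB qbt11 qbt12 qbt14))) (Nat.add (Nat.mul w15 (Nat.mul 6 (KB qbt11 qbt12 qbt15))) (Nat.add (Nat.mul w16 (Nat.mul 6 (KB qbt11 qbt12 qbt16))) (Nat.add (Nat.mul w17 (Nat.mul 6 (KB qbt11 qbt12 qbt17))) (Nat.add (Nat.mul w18 (Nat.mul 6 (KB qbt11 qbt12 qbt18))) (Nat.add (Nat.mul w19 (Nat.mul 6 (KB qbt11 qbt12 qbt19))) (Nat.add (Nat.mul w20 (Nat.mul 6 (KB qbt11 qbt12 qbt20))) (Nat.add (Nat.mul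 w21 (Nat.mul 6 (KB qbt11 qbt12 qbt21))) (Nat.add (Nat.mul w22 (Nat.mul 6 (KB qbt11 qbt12 qbt22))) (Nat.add (Nat.mul w23 (Nat.mul 6 (KB qbt11 qbt12 qbt23))) (Nat.add (Nat.mul w24 (Nat.mul 6 (KB qbt11 qbt12 qbt24))) 0)))))))))))))) (Nat.add (Nat.mul w13 (Nat.add (Nat.mul w13 (Nat.mul 3 (KB qbt11 qbt13 qbt13))) (Nat.add (Nat.mul w14 (Nat.mul 6 (KB qbt11 qbt13 qbt14))) (Nat.add (Nat.mul w15 (Nat.mul 6 (KB qbt11 qbt13 qbt15))) (Nat.add (Nat.mul w16 (Nat.mul 6 (KB qbt11 qbt13 qbt16))) (Nat.add (Nat.mul w17 (Nat.mul 6 (KB qbt11 qbt13 qbt17))) (Nat.add (Nat.mul w18 (Nat.mul 6 (KB qbt11 qbt13 qbt18))) (Nat.add (Nat.mul w19 (Nat.mul 6 (KB qbt11 qbt13 qbt19))) (Nat.add (Nat.mul w20 (Nat.mul 6 (KB qbt11 qbt13 qbt20))) (Nat.add (Nat.mul w21 (Nat.mul 6 (KB qbt11 qbt13 qbt21)))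 (Nat.add (Nat.mul w22 (Nat.mul 6 (KB qbt11 qbt13 qbt22))) (Nat.add (Nat.mul w23 (Nat.mul 6 (KB qbt11 qbt13 qbt23))) (Nat.add (Nat.mul w24 (Nat.mul 6 (KB qbt11 qbt13 qbt24))) 0))))))))))))) (Nat.add (Nat.mul w14 (Nat.add (Nat.mul w14 (Nat.mul 3 (KB qbt11 qbt14 qbt14))) (Nat.add (Nat.mul w15 (Nat.mul 6 (KB qbt11 qbt14 qbt15))) (Nat.add (Nat.mul w16 (Nat.mul 6 (KB qbt11 qbt14 qbt16))) (Nat.add (Nat.mul w17 (Nat.mul 6 (KB qbt11 qbt14 qbt17))) (Nat.add (Nat.mul w18 (Nat.mul 6 (KB qbt11 qbt14 qbt18))) (Nat.add (Nat.mul w19 (Nat.mul 6 (KB qbt11 qbt14 qbt19))) (Nat.add (Nat.mul w20 (Nat.mul 6 (KB qbt11 qbt14 qbt20))) (Nat.add (Nat.mul w21 (Nat.mul 6 (KB qbt11 qbt14 qbt21))) (Nat.add (Nat.mul w22 (Nat.mul 6 (KB qbt11 qbt14 qbt22))) (Nat.add (Nat.mul w23 (Nat.mul 6 (KB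 qbt11 qbt14 qbt23))) (Nat.add (Nat.mul w24 (Nat.mul 6 (KB qbt11 qbt14 qbt24))) 0)))))))))))) (Nat.add (Nat.mul w15 (Nat.add (Nat.mul w15 (Nat.mul 3 (KB qbt11 qbt15 qbt15))) (Nat.add (Nat.mul w16 (Nat.mul 6 (KB qbt11 qbt15 qbt16))) (Nat.add (Nat.mul w17 (Nat.mul 6 (KB qbt11 qbt15 qbt17))) (Nat.add (Nat.mul w18 (Nat.mul 6 (KB qbt11 qbt15 qbt18))) (Nat.add (Nat.mul w19 (Nat.mul 6 (KB qbt11 qbt15 qbt19))) (Nat.add (Nat.mul w20 (Nat.mul 6 (KB qbt11 qbt15 qbt20))) (Nat.add (Nat.mul w21 (Nat.mul 6 (KB qbt11 qbt15 qbt21))) (Nat.add (Nat.mul w22 (Nat.mul 6 (KB qbt11 qbt15 qbt22))) (Nat.add (Nat.mul w23 (Nat.mul 6 (KB qbt11 qbt15 qbt23))) (Nat.add (Nat.mul w24 (Nat.mul 6 (KB qbt11 qbt15 qbt24))) 0))))))))))) (Nat.add (Nat.mul w16 (Nat.add (Nat.mul w16 (Nat.mul 3 (KB qbt11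 qbt16 qbt16))) (Nat.add (Nat.mul w17 (Nat.mul 6 (KB qbt11 qbt16 qbt17))) (Nat.add (Nat.mul w18 (Nat.mul 6 (KB qbt11 qbt16 qbt18))) (Nat.add (Nat.mul w19 (Nat.mul 6 (KB qbt11 qbt16 qbt19))) (Nat.add (Nat.mul w20 (Nat.mul 6 (KB qbt11 qbt16 qbt20))) (Nat.add (Nat.mul w21 (Nat.mul 6 (KB qbt11 qbt16 qbt21))) (Nat.add (Nat.mul w22 (Nat.mul 6 (KB qbt11 qbt16 qbt22))) (Nat.add (Nat.mul w23 (Nat.mul 6 (KB qbt11 qbt16 qbt23))) (Nat.add (Nat.mul w24 (Nat.mul 6 (KB qbt11 qbt16 qbt24))) 0)))))))))) (Nat.add (Nat.mul w17 (Nat.add (Nat.mul w17 (Nat.mul 3 (KB qbt11 qbt17 qbt17))) (Nat.add (Nat.mul w18 (Nat.mul 6 (KB qbt11 qbt17 qbt18))) (Nat.add (Nat.mul w19 (Nat.mul 6 (KB qbt11 qbt17 qbt19))) (Nat.add (Nat.mul w20 (Nat.mul 6 (KB qbt11 qbt17 qbt20))) (Nat.add (Nat.mul w21 (Nat.mul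 6 (KB qbt11 qbt17 qbt21))) (Nat.add (Nat.mul w22 (Nat.mul 6 (KB qbt11 qbt17 qbt22))) (Nat.add (Nat.mul w23 (Nat.mul 6 (KB qbt11 qbt17 qbt23))) (Nat.add (Nat.mul w24 (Nat.mul 6 (KB qbt11 qbt17 qbt24))) 0))))))))) (Nat.add (Nat.mul w18 (Nat.add (Nat.mul w18 (Nat.mul 3 (KB qbt11 qbt18 qbt18))) (Nat.add (Nat.mul w19 (Nat.mul 6 (KB qbt11 qbt18 qbt19))) (Nat.add (Nat.mul w20 (Nat.mul 6 (KB qbt11 qbt18 qbt20))) (Nat.add (Nat.mul w21 (Nat.mul 6 (KB qbt11 qbt18 qbt21))) (Nat.add (Nat.mul w22 (Nat.mul 6 (KB qbt11 qbt18 qbt22))) (Nat.add (Nat.mul w23 (Nat.mul 6 (KB qbt11 qbt18 qbt23))) (Nat.add (Nat.mul w24 (Nat.mul 6 (KB qbt11 qbt18 qbt24))) 0)))))))) (Nat.add (Nat.mul w19 (Nat.add (Nat.mul w19 (Nat.mul 3 (KB qbt11 qbt19 qbt19))) (Nat.add (Nat.mul w20 (Nat.mul 6 (KB qbt11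 qbt19 qbt20))) (Nat.add (Nat.mul w21 (Nat.mul 6 (KB qbt11 qbt19 qbt21))) (Nat.add (Nat.mul w22 (Nat.mul 6 (KB qbt11 qbt19 qbt22))) (Nat.add (Nat.mul w23 (Nat.mul 6 (KB qbt11 qbt19 qbt23))) (Nat.add (Nat.mul w24 (Nat.mul 6 (KB qbt11 qbt19 qbt24))) 0))))))) (Nat.add (Nat.mul w20 (Nat.add (Nat.mul w20 (Nat.mul 3 (KB qbt11 qbt20 qbt20))) (Nat.add (Nat.mul w21 (Nat.mul 6 (KB qbt11 qbt20 qbt21))) (Nat.add (Nat.mul w22 (Nat.mul 6 (KB qbt11 qbt20 qbt22))) (Nat.add (Nat.mul w23 (Nat.mul 6 (KB qbt11 qbt20 qbt23))) (Nat.add (Nat.mul w24 (Nat.mul 6 (KB qbt11 qbt20 qbt24))) 0)))))) (Nat.add (Nat.mul w21 (Nat.add (Nat.mul w21 (Nat.mul 3 (KB qbt11 qbt21 qbt21))) (Nat.add (Nat.mul w22 (Nat.mul 6 (KB qbt11 qbt21 qbt22))) (Nat.add (Nat.mul w23 (Nat.mul 6 (KB qbt11 qbt21 qbt23)))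 (Nat.add (Nat.mul w24 (Nat.mul 6 (KB qbt11 qbt21 qbt24))) 0))))) (Nat.add (Nat.mul w22 (Nat.add (Nat.mul w22 (Nat.mul 3 (KB qbt11 qbt22 qbt22))) (Nat.add (Nat.mul w23 (Nat.mul 6 (KB qbt11 qbt22 qbt23))) (Nat.add (Nat.mul w24 (Nat.mul 6 (KB qbt11 qbt22 qbt24))) 0)))) (Nat.add (Nat.mul w23 (Nat.add (Nat.mul w23 (Nat.mul 3 (KB qbt11 qbt23 qbt23))) (Nat.add (Nat.mul w24 (Nat.mul 6 (KB qbt11 qbt23 qbt24))) 0))) (Nat.add (Nat.mul w24 (Nat.add (Nat.mul w24 (Nat.mul 3 (KB qbt11 qbt24 qbt24))) (0))) 0))))))))))))))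

/-- Terms with least index 12. -/
noncomputable def qb12 (w12 w13 w14 w15 w16 w17 w18 w19 w20 w21 w22 w23 w24 : Nat) : Nat :=
  Nat.mul w12 (Nat.add (Nat.mul w12 (Nat.add (Nat.mul w12 (KB qbt12 qbt12 qbt12)) (Nat.add (Nat.mul w13 (Nat.mul 3 (KB qbt12 qbt12 qbt13))) (Nat.add (Nat.mul w14 (Nat.mul 3 (KB qbt12 qbt12 qbt14))) (Nat.add (Nat.mul w15 (Nat.mul 3 (KB qbt12 qbt12 qbt15))) (Nat.add (Nat.mul w16 (Nat.mul 3 (KB qbt12 qbt12 qbt16))) (Nat.add (Nat.mul w17 (Nat.mul 3 (KB qbt12 qbt12 qbt17))) (Nat.add (Nat.mul w18 (Nat.mul 3 (KB qbt12 qbt12 qbt18))) (Nat.add (Nat.mul w19 (Nat.mul 3 (KB qbt12 qbt12 qbt19))) (Nat.add (Nat.mul w20 (Nat.mul 3 (KB qbt12 qbt12 qbt20))) (Nat.add (Nat.mul w21 (Nat.mul 3 (KB qbt12 qbt12 qbt21))) (Nat.add (Nat.mul w22 (Nat.mul 3 (KB qbt12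 qbt12 qbt22))) (Nat.add (Nat.mul w23 (Nat.mul 3 (KB qbt12 qbt12 qbt23))) (Nat.add (Nat.mul w24 (Nat.mul 3 (KB qbt12 qbt12 qbt24))) 0)))))))))))))) (Nat.add (Nat.mul w13 (Nat.add (Nat.mul w13 (Nat.mul 3 (KB qbt12 qbt13 qbt13))) (Nat.add (Nat.mul w14 (Nat.mul 6 (KB qbt12 qbt13 qbt14))) (Nat.add (Nat.mul w15 (Nat.mul 6 (KB qbt12 qbt13 qbt15))) (Nat.add (Nat.mul w16 (Nat.mul 6 (KB qbt12 qbt13 qbt16))) (Nat.add (Nat.mul w17 (Nat.mul 6 (KB qbt12 qbt13 qbt17))) (Nat.add (Nat.mul w18 (Nat.mul 6 (KB qbt12 qbt13 qbt18))) (Nat.add (Nat.mul w19 (Nat.mul 6 (KB qbt12 qbt13 qbt19))) (Nat.add (Nat.mul w20 (Nat.mul 6 (KB qbt12 qbt13 qbt20))) (Nat.add (Nat.mul w21 (Nat.mul 6 (KB qbt12 qbt13 qbt21))) (Nat.add (Nat.mul w22 (Nat.mul 6 (KB qbt12 qbt13 qbt22))) (Nat.add (Nat.mul w23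 (Nat.mul 6 (KB qbt12 qbt13 qbt23))) (Nat.add (Nat.mul w24 (Nat.mul 6 (KB qbt12 qbt13 qbt24))) 0))))))))))))) (Nat.add (Nat.mul w14 (Nat.add (Nat.mul w14 (Nat.mul 3 (KB qbt12 qbt14 qbt14))) (Nat.add (Nat.mul w15 (Nat.mul 6 (KB qbt12 qbt14 qbt15))) (Nat.add (Nat.mul w16 (Nat.mul 6 (KB qbt12 qbt14 qbt16))) (Nat.add (Nat.mul w17 (Nat.mul 6 (KB qbt12 qbt14 qbt17))) (Nat.add (Nat.mul w18 (Nat.mul 6 (KB qbt12 qbt14 qbt18))) (Nat.add (Nat.mul w19 (Nat.mul 6 (KB qbt12 qbt14 qbt19))) (Nat.add (Nat.mul w20 (Nat.mul 6 (KB qbt12 qbt14 qbt20))) (Nat.add (Nat.mul w21 (Nat.mul 6 (KB qbt12 qbt14 qbt21))) (Nat.add (Nat.mul w22 (Nat.mul 6 (KB qbt12 qbt14 qbt22))) (Nat.add (Nat.mul w23 (Nat.mul 6 (KB qbt12 qbt14 qbt23))) (Nat.add (Nat.mul w24 (Nat.mul 6 (KB qbt12 qbt14 qbt24)))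 0)))))))))))) (Nat.add (Nat.mul w15 (Nat.add (Nat.mul w15 (Nat.mul 3 (KB qbt12 qbt15 qbt15))) (Nat.add (Nat.mul w16 (Nat.mul 6 (KB qbt12 qbt15 qbt16))) (Nat.add (Nat.mul w17 (Nat.mul 6 (KB qbt12 qbt15 qbt17))) (Nat.add (Nat.mul w18 (Nat.mul 6 (KB qbt12 qbt15 qbt18))) (Nat.add (Nat.mul w19 (Nat.mul 6 (KB qbt12 qbt15 qbt19))) (Nat.add (Nat.mul w20 (Nat.mul 6 (KB qbt12 qbt15 qbt20))) (Nat.add (Nat.mul w21 (Nat.mul 6 (KB qbt12 qbt15 qbt21))) (Nat.add (Nat.mul w22 (Nat.mul 6 (KB qbt12 qbt15 qbt22))) (Nat.add (Nat.mul w23 (Nat.mul 6 (KB qbt12 qbt15 qbt23))) (Nat.add (Nat.mul w24 (Nat.mul 6 (KB qbt12 qbt15 qbt24))) 0))))))))))) (Nat.add (Nat.mul w16 (Nat.add (Nat.mul w16 (Nat.mul 3 (KB qbt12 qbt16 qbt16))) (Nat.add (Nat.mul w17 (Nat.mul 6 (KB qbt12 qbt16 qbt17))) (Nat.add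 (Nat.mul w18 (Nat.mul 6 (KB qbt12 qbt16 qbt18))) (Nat.add (Nat.mul w19 (Nat.mul 6 (KB qbt12 qbt16 qbt19))) (Nat.add (Nat.mul w20 (Nat.mul 6 (KB qbt12 qbt16 qbt20))) (Nat.add (Nat.mul w21 (Nat.mul 6 (KB qbt12 qbt16 qbt21))) (Nat.add (Nat.mul w22 (Nat.mul 6 (KB qbt12 qbt16 qbt22))) (Nat.add (Nat.mul w23 (Nat.mul 6 (KB qbt12 qbt16 qbt23))) (Nat.add (Nat.mul w24 (Nat.mul 6 (KB qbt12 qbt16 qbt24))) 0)))))))))) (Nat.add (Nat.mul w17 (Nat.add (Nat.mul w17 (Nat.mul 3 (KB qbt12 qbt17 qbt17))) (Nat.add (Nat.mul w18 (Nat.mul 6 (KB qbt12 qbt17 qbt18))) (Nat.add (Nat.mul w19 (Nat.mul 6 (KB qbt12 qbt17 qbt19))) (Nat.add (Nat.mul w20 (Nat.mul 6 (KB qbt12 qbt17 qbt20))) (Nat.add (Nat.mul w21 (Nat.mul 6 (KB qbt12 qbt17 qbt21))) (Nat.add (Nat.mul w22 (Nat.mul 6 (KB qbt12 qbt17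 qbt22))) (Nat.add (Nat.mul w23 (Nat.mul 6 (KB qbt12 qbt17 qbt23))) (Nat.add (Nat.mul w24 (Nat.mul 6 (KB qbt12 qbt17 qbt24))) 0))))))))) (Nat.add (Nat.mul w18 (Nat.add (Nat.mul w18 (Nat.mul 3 (KB qbt12 qbt18 qbt18))) (Nat.add (Nat.mul w19 (Nat.mul 6 (KB qbt12 qbt18 qbt19))) (Nat.add (Nat.mul w20 (Nat.mul 6 (KB qbt12 qbt18 qbt20))) (Nat.add (Nat.mul w21 (Nat.mul 6 (KB qbt12 qbt18 qbt21))) (Nat.add (Nat.mul w22 (Nat.mul 6 (KB qbt12 qbt18 qbt22))) (Nat.add (Nat.mul w23 (Nat.mul 6 (KB qbt12 qbt18 qbt23))) (Nat.add (Nat.mul w24 (Nat.mul 6 (KB qbt12 qbt18 qbt24))) 0)))))))) (Nat.add (Nat.mul w19 (Nat.add (Nat.mul w19 (Nat.mul 3 (KB qbt12 qbt19 qbt19))) (Nat.add (Nat.mul w20 (Nat.mul 6 (KB qbt12 qbt19 qbt20))) (Nat.add (Nat.mul w21 (Nat.mul 6 (KB qbt12 qbt19 qbt21)))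 (Nat.add (Nat.mul w22 (Nat.mul 6 (KB qbt12 qbt19 qbt22))) (Nat.add (Nat.mul w23 (Nat.mul 6 (KB qbt12 qbt19 qbt23))) (Nat.add (Nat.mul w24 (Nat.mul 6 (KB qbt12 qbt19 qbt24))) 0))))))) (Nat.add (Nat.mul w20 (Nat.add (Nat.mul w20 (Nat.mul 3 (KB qbt12 qbt20 qbt20))) (Nat.add (Nat.mul w21 (Nat.mul 6 (KB qbt12 qbt20 qbt21))) (Nat.add (Nat.mul w22 (Nat.mul 6 (KB qbt12 qbt20 qbt22))) (Nat.add (Nat.mul w23 (Nat.mul 6 (KB qbt12 qbt20 qbt23))) (Nat.add (Nat.mul w24 (Nat.mul 6 (KB qbt12 qbt20 qbt24))) 0)))))) (Nat.add (Nat.mul w21 (Nat.add (Nat.mul w21 (Nat.mul 3 (KB qbt12 qbt21 qbt21))) (Nat.add (Nat.mul w22 (Nat.mul 6 (KB qbt12 qbt21 qbt22))) (Nat.add (Nat.mul w23 (Nat.mul 6 (KB qbt12 qbt21 qbt23))) (Nat.add (Nat.mul w24 (Nat.mul 6 (KB qbt12 qbt21 qbt24))) 0))))) (Nat.add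 (Nat.mul w22 (Nat.add (Nat.mul w22 (Nat.mul 3 (KB qbt12 qbt22 qbt22))) (Nat.add (Nat.mul w23 (Nat.mul 6 (KB qbt12 qbt22 qbt23))) (Nat.add (Nat.mul w24 (Nat.mul 6 (KB qbt12 qbt22 qbt24))) 0)))) (Nat.add (Nat.mul w23 (Nat.add (Nat.mul w23 (Nat.mul 3 (KB qbt12 qbt23 qbt23))) (Nat.add (Nat.mul w24 (Nat.mul 6 (KB qbt12 qbt23 qbt24))) 0))) (Nat.add (Nat.mul w24 (Nat.add (Nat.mul w24 (Nat.mul 3 (KB qbt12 qbt24 qbt24))) (0))) 0)))))))))))))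

/-- Terms with least index 13. -/
noncomputable def qb13 (w13 w14 w15 w16 w17 w18 w19 w20 w21 w22 w23 w24 : Nat) : Nat :=
  Nat.mul w13 (Nat.add (Nat.mul w13 (Nat.add (Nat.mul w13 (KB qbt13 qbt13 qbt13)) (Nat.add (Nat.mul w14 (Nat.mul 3 (KB qbt13 qbt13 qbt14))) (Nat.add (Nat.mul w15 (Nat.mul 3 (KB qbt13 qbt13 qbt15))) (Nat.add (Nat.mul w16 (Nat.mul 3 (KB qbt13 qbt13 qbt16))) (Nat.add (Nat.mul w17 (Nat.mul 3 (KB qbt13 qbt13 qbt17))) (Nat.add (Nat.mul w18 (Nat.mul 3 (KB qbt13 qbt13 qbt18))) (Nat.add (Nat.mul w19 (Nat.mul 3 (KB qbt13 qbt13 qbt19))) (Nat.add (Nat.mul w20 (Nat.mul 3 (KB qbt13 qbt13 qbt20))) (Nat.add (Nat.mul w21 (Nat.mul 3 (KB qbt13 qbt13 qbt21))) (Nat.add (Nat.mul w22 (Nat.mul 3 (KB qbt13 qbt13 qbt22))) (Nat.add (Nat.mul w23 (Nat.mul 3 (KB qbt13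 qbt13 qbt23))) (Nat.add (Nat.mul w24 (Nat.mul 3 (KB qbt13 qbt13 qbt24))) 0))))))))))))) (Nat.add (Nat.mul w14 (Nat.add (Nat.mul w14 (Nat.mul 3 (KB qbt13 qbt14 qbt14))) (Nat.add (Nat.mul w15 (Nat.mul 6 (KB qbt13 qbt14 qbt15))) (Nat.add (Nat.mul w16 (Nat.mul 6 (KB qbt13 qbt14 qbt16))) (Nat.add (Nat.mul w17 (Nat.mul 6 (KB qbt13 qbt14 qbt17))) (Nat.add (Nat.mul w18 (Nat.mul 6 (KB qbt13 qbt14 qbt18))) (Nat.add (Nat.mul w19 (Nat.mul 6 (KB qbt13 qbt14 qbt19))) (Nat.add (Nat.mul w20 (Nat.mul 6 (KB qbt13 qbt14 qbt20))) (Nat.add (Nat.mul w21 (Nat.mul 6 (KB qbt13 qbt14 qbt21))) (Nat.add (Nat.mul w22 (Nat.mul 6 (KB qbt13 qbt14 qbt22))) (Nat.add (Nat.mul w23 (Nat.mul 6 (KB qbt13 qbt14 qbt23))) (Nat.add (Nat.mul w24 (Nat.mul 6 (KB qbt13 qbt14 qbt24))) 0)))))))))))) (Nat.add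 (Nat.mul w15 (Nat.add (Nat.mul w15 (Nat.mul 3 (KB qbt13 qbt15 qbt15))) (Nat.add (Nat.mul w16 (Nat.mul 6 (KB qbt13 qbt15 qbt16))) (Nat.add (Nat.mul w17 (Nat.mul 6 (KB qbt13 qbt15 qbt17))) (Nat.add (Nat.mul w18 (Nat.mul 6 (KB qbt13 qbt15 qbt18))) (Nat.add (Nat.mul w19 (Nat.mul 6 (KB qbt13 qbt15 qbt19))) (Nat.add (Nat.mul w20 (Nat.mul 6 (KB qbt13 qbt15 qbt20))) (Nat.add (Nat.mul w21 (Nat.mul 6 (KB qbt13 qbt15 qbt21))) (Nat.add (Nat.mul w22 (Nat.mul 6 (KB qbt13 qbt15 qbt22))) (Nat.add (Nat.mul w23 (Nat.mul 6 (KB qbt13 qbt15 qbt23))) (Nat.add (Nat.mul w24 (Nat.mul 6 (KB qbt13 qbt15 qbt24))) 0))))))))))) (Nat.add (Nat.mul w16 (Nat.add (Nat.mul w16 (Nat.mul 3 (KB qbt13 qbt16 qbt16))) (Nat.add (Nat.mul w17 (Nat.mul 6 (KB qbt13 qbt16 qbt17))) (Nat.add (Nat.mul w18 (Nat.mul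 6 (KB qbt13 qbt16 qbt18))) (Nat.add (Nat.mul w19 (Nat.mul 6 (KB qbt13 qbt16 qbt19))) (Nat.add (Nat.mul w20 (Nat.mul 6 (KB qbt13 qbt16 qbt20))) (Nat.add (Nat.mul w21 (Nat.mul 6 (KB qbt13 qbt16 qbt21))) (Nat.add (Nat.mul w22 (Nat.mul 6 (KB qbt13 qbt16 qbt22))) (Nat.add (Nat.mul w23 (Nat.mul 6 (KB qbt13 qbt16 qbt23))) (Nat.add (Nat.mul w24 (Nat.mul 6 (KB qbt13 qbt16 qbt24))) 0)))))))))) (Nat.add (Nat.mul w17 (Nat.add (Nat.mul w17 (Nat.mul 3 (KB qbt13 qbt17 qbt17))) (Nat.add (Nat.mul w18 (Nat.mul 6 (KB qbt13 qbt17 qbt18))) (Nat.add (Nat.mul w19 (Nat.mul 6 (KB qbt13 qbt17 qbt19))) (Nat.add (Nat.mul w20 (Nat.mul 6 (KB qbt13 qbt17 qbt20))) (Nat.add (Nat.mul w21 (Nat.mul 6 (KB qbt13 qbt17 qbt21))) (Nat.add (Nat.mul w22 (Nat.mul 6 (KB qbt13 qbt17 qbt22))) (Nat.add (Nat.mul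 w23 (Nat.mul 6 (KB qbt13 qbt17 qbt23))) (Nat.add (Nat.mul w24 (Nat.mul 6 (KB qbt13 qbt17 qbt24))) 0))))))))) (Nat.add (Nat.mul w18 (Nat.add (Nat.mul w18 (Nat.mul 3 (KB qbt13 qbt18 qbt18))) (Nat.add (Nat.mul w19 (Nat.mul 6 (KB qbt13 qbt18 qbt19))) (Nat.add (Nat.mul w20 (Nat.mul 6 (KB qbt13 qbt18 qbt20))) (Nat.add (Nat.mul w21 (Nat.mul 6 (KB qbt13 qbt18 qbt21))) (Nat.add (Nat.mul w22 (Nat.mul 6 (KB qbt13 qbt18 qbt22))) (Nat.add (Nat.mul w23 (Nat.mul 6 (KB qbt13 qbt18 qbt23))) (Nat.add (Nat.mul w24 (Nat.mul 6 (KB qbt13 qbt18 qbt24))) 0)))))))) (Nat.add (Nat.mul w19 (Nat.add (Nat.mul w19 (Nat.mul 3 (KB qbt13 qbt19 qbt19))) (Nat.add (Nat.mul w20 (Nat.mul 6 (KB qbt13 qbt19 qbt20))) (Nat.add (Nat.mul w21 (Nat.mul 6 (KB qbt13 qbt19 qbt21))) (Nat.add (Nat.mul w22 (Nat.mul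 6 (KB qbt13 qbt19 qbt22))) (Nat.add (Nat.mul w23 (Nat.mul 6 (KB qbt13 qbt19 qbt23))) (Nat.add (Nat.mul w24 (Nat.mul 6 (KB qbt13 qbt19 qbt24))) 0))))))) (Nat.add (Nat.mul w20 (Nat.add (Nat.mul w20 (Nat.mul 3 (KB qbt13 qbt20 qbt20))) (Nat.add (Nat.mul w21 (Nat.mul 6 (KB qbt13 qbt20 qbt21))) (Nat.add (Nat.mul w22 (Nat.mul 6 (KB qbt13 qbt20 qbt22))) (Nat.add (Nat.mul w23 (Nat.mul 6 (KB qbt13 qbt20 qbt23))) (Nat.add (Nat.mul w24 (Nat.mul 6 (KB qbt13 qbt20 qbt24))) 0)))))) (Nat.add (Nat.mul w21 (Nat.add (Nat.mul w21 (Nat.mul 3 (KB qbt13 qbt21 qbt21))) (Nat.add (Nat.mul w22 (Nat.mul 6 (KB qbt13 qbt21 qbt22))) (Nat.add (Nat.mul w23 (Nat.mul 6 (KB qbt13 qbt21 qbt23))) (Nat.add (Nat.mul w24 (Nat.mul 6 (KB qbt13 qbt21 qbt24))) 0))))) (Nat.add (Nat.mul w22 (Nat.add (Nat.mul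 w22 (Nat.mul 3 (KB qbt13 qbt22 qbt22))) (Nat.add (Nat.mul w23 (Nat.mul 6 (KB qbt13 qbt22 qbt23))) (Nat.add (Nat.mul w24 (Nat.mul 6 (KB qbt13 qbt22 qbt24))) 0)))) (Nat.add (Nat.mul w23 (Nat.add (Nat.mul w23 (Nat.mul 3 (KB qbt13 qbt23 qbt23))) (Nat.add (Nat.mul w24 (Nat.mul 6 (KB qbt13 qbt23 qbt24))) 0))) (Nat.add (Nat.mul w24 (Nat.add (Nat.mul w24 (Nat.mul 3 (KB qbt13 qbt24 qbt24))) (0))) 0))))))))))))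

/-- Terms with least index 14. -/
noncomputable def qb14 (w14 w15 w16 w17 w18 w19 w20 w21 w22 w23 w24 : Nat) : Nat :=
  Nat.mul w14 (Nat.add (Nat.mul w14 (Nat.add (Nat.mul w14 (KB qbt14 qbt14 qbt14)) (Nat.add (Nat.mul w15 (Nat.mul 3 (KB qbt14 qbt14 qbt15))) (Nat.add (Nat.mul w16 (Nat.mul 3 (KB qbt14 qbt14 qbt16))) (Nat.add (Nat.mul w17 (Nat.mul 3 (KB qbt14 qbt14 qbt17))) (Nat.add (Nat.mul w18 (Nat.mul 3 (KB qbt14 qbt14 qbt18))) (Nat.add (Nat.mul w19 (Nat.mul 3 (KB qbt14 qbt14 qbt19))) (Nat.add (Nat.mul w20 (Nat.mul 3 (KB qbt14 qbt14 qbt20))) (Nat.add (Nat.mul w21 (Nat.mul 3 (KB qbt14 qbt14 qbt21))) (Nat.add (Nat.mul w22 (Nat.mul 3 (KB qbt14 qbt14 qbt22))) (Nat.add (Nat.mul w23 (Nat.mul 3 (KB qbt14 qbt14 qbt23))) (Nat.add (Nat.mul w24 (Nat.mul 3 (KB qbt14 qbt14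 qbt24))) 0)))))))))))) (Nat.add (Nat.mul w15 (Nat.add (Nat.mul w15 (Nat.mul 3 (KB qbt14 qbt15 qbt15))) (Nat.add (Nat.mul w16 (Nat.mul 6 (KB qbt14 qbt15 qbt16))) (Nat.add (Nat.mul w17 (Nat.mul 6 (KB qbt14 qbt15 qbt17))) (Nat.add (Nat.mul w18 (Nat.mul 6 (KB qbt14 qbt15 qbt18))) (Nat.add (Nat.mul w19 (Nat.mul 6 (KB qbt14 qbt15 qbt19))) (Nat.add (Nat.mul w20 (Nat.mul 6 (KB qbt14 qbt15 qbt20))) (Nat.add (Nat.mul w21 (Nat.mul 6 (KB qbt14 qbt15 qbt21))) (Nat.add (Nat.mul w22 (Nat.mul 6 (KB qbt14 qbt15 qbt22))) (Nat.add (Nat.mul w23 (Nat.mul 6 (KB qbt14 qbt15 qbt23))) (Nat.add (Nat.mul w24 (Nat.mul 6 (KB qbt14 qbt15 qbt24))) 0))))))))))) (Nat.add (Nat.mul w16 (Nat.add (Nat.mul w16 (Nat.mul 3 (KB qbt14 qbt16 qbt16))) (Nat.add (Nat.mul w17 (Nat.mul 6 (KB qbt14 qbt16 qbt17)))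 (Nat.add (Nat.mul w18 (Nat.mul 6 (KB qbt14 qbt16 qbt18))) (Nat.add (Nat.mul w19 (Nat.mul 6 (KB qbt14 qbt16 qbt19))) (Nat.add (Nat.mul w20 (Nat.mul 6 (KB qbt14 qbt16 qbt20))) (Nat.add (Nat.mul w21 (Nat.mul 6 (KB qbt14 qbt16 qbt21))) (Nat.add (Nat.mul w22 (Nat.mul 6 (KB qbt14 qbt16 qbt22))) (Nat.add (Nat.mul w23 (Nat.mul 6 (KB qbt14 qbt16 qbt23))) (Nat.add (Nat.mul w24 (Nat.mul 6 (KB qbt14 qbt16 qbt24))) 0)))))))))) (Nat.add (Nat.mul w17 (Nat.add (Nat.mul w17 (Nat.mul 3 (KB qbt14 qbt17 qbt17))) (Nat.add (Nat.mul w18 (Nat.mul 6 (KB qbt14 qbt17 qbt18))) (Nat.add (Nat.mul w19 (Nat.mul 6 (KB qbt14 qbt17 qbt19))) (Nat.add (Nat.mul w20 (Nat.mul 6 (KB qbt14 qbt17 qbt20))) (Nat.add (Nat.mul w21 (Nat.mul 6 (KB qbt14 qbt17 qbt21))) (Nat.add (Nat.mul w22 (Nat.mul 6 (KB qbt14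 qbt17 qbt22))) (Nat.add (Nat.mul w23 (Nat.mul 6 (KB qbt14 qbt17 qbt23))) (Nat.add (Nat.mul w24 (Nat.mul 6 (KB qbt14 qbt17 qbt24))) 0))))))))) (Nat.add (Nat.mul w18 (Nat.add (Nat.mul w18 (Nat.mul 3 (KB qbt14 qbt18 qbt18))) (Nat.add (Nat.mul w19 (Nat.mul 6 (KB qbt14 qbt18 qbt19))) (Nat.add (Nat.mul w20 (Nat.mul 6 (KB qbt14 qbt18 qbt20))) (Nat.add (Nat.mul w21 (Nat.mul 6 (KB qbt14 qbt18 qbt21))) (Nat.add (Nat.mul w22 (Nat.mul 6 (KB qbt14 qbt18 qbt22))) (Nat.add (Nat.mul w23 (Nat.mul 6 (KB qbt14 qbt18 qbt23))) (Nat.add (Nat.mul w24 (Nat.mul 6 (KB qbt14 qbt18 qbt24))) 0)))))))) (Nat.add (Nat.mul w19 (Nat.add (Nat.mul w19 (Nat.mul 3 (KB qbt14 qbt19 qbt19))) (Nat.add (Nat.mul w20 (Nat.mul 6 (KB qbt14 qbt19 qbt20))) (Nat.add (Nat.mul w21 (Nat.mul 6 (KB qbt14 qbt19 qbt21)))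 (Nat.add (Nat.mul w22 (Nat.mul 6 (KB qbt14 qbt19 qbt22))) (Nat.add (Nat.mul w23 (Nat.mul 6 (KB qbt14 qbt19 qbt23))) (Nat.add (Nat.mul w24 (Nat.mul 6 (KB qbt14 qbt19 qbt24))) 0))))))) (Nat.add (Nat.mul w20 (Nat.add (Nat.mul w20 (Nat.mul 3 (KB qbt14 qbt20 qbt20))) (Nat.add (Nat.mul w21 (Nat.mul 6 (KB qbt14 qbt20 qbt21))) (Nat.add (Nat.mul w22 (Nat.mul 6 (KB qbt14 qbt20 qbt22))) (Nat.add (Nat.mul w23 (Nat.mul 6 (KB qbt14 qbt20 qbt23))) (Nat.add (Nat.mul w24 (Nat.mul 6 (KB qbt14 qbt20 qbt24))) 0)))))) (Nat.add (Nat.mul w21 (Nat.add (Nat.mul w21 (Nat.mul 3 (KB qbt14 qbt21 qbt21))) (Nat.add (Nat.mul w22 (Nat.mul 6 (KB qbt14 qbt21 qbt22))) (Nat.add (Nat.mul w23 (Nat.mul 6 (KB qbt14 qbt21 qbt23))) (Nat.add (Nat.mul w24 (Nat.mul 6 (KB qbt14 qbt21 qbt24))) 0))))) (Nat.add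 (Nat.mul w22 (Nat.add (Nat.mul w22 (Nat.mul 3 (KB qbt14 qbt22 qbt22))) (Nat.add (Nat.mul w23 (Nat.mul 6 (KB qbt14 qbt22 qbt23))) (Nat.add (Nat.mul w24 (Nat.mul 6 (KB qbt14 qbt22 qbt24))) 0)))) (Nat.add (Nat.mul w23 (Nat.add (Nat.mul w23 (Nat.mul 3 (KB qbt14 qbt23 qbt23))) (Nat.add (Nat.mul w24 (Nat.mul 6 (KB qbt14 qbt23 qbt24))) 0))) (Nat.add (Nat.mul w24 (Nat.add (Nat.mul w24 (Nat.mul 3 (KB qbt14 qbt24 qbt24))) (0))) 0)))))))))))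

/-- Terms with least index 15. -/
noncomputable def qb15 (w15 w16 w17 w18 w19 w20 w21 w22 w23 w24 : Nat) : Nat :=
  Nat.mul w15 (Nat.add (Nat.mul w15 (Nat.add (Nat.mul w15 (KB qbt15 qbt15 qbt15)) (Nat.add (Nat.mul w16 (Nat.mul 3 (KB qbt15 qbt15 qbt16))) (Nat.add (Nat.mul w17 (Nat.mul 3 (KB qbt15 qbt15 qbt17))) (Nat.add (Nat.mul w18 (Nat.mul 3 (KB qbt15 qbt15 qbt18))) (Nat.add (Nat.mul w19 (Nat.mul 3 (KB qbt15 qbt15 qbt19))) (Nat.add (Nat.mul w20 (Nat.mul 3 (KB qbt15 qbt15 qbt20))) (Nat.add (Nat.mul w21 (Nat.mul 3 (KB qbt15 qbt15 qbt21))) (Nat.add (Nat.mul w22 (Nat.mul 3 (KB qbt15 qbt15 qbt22))) (Nat.add (Nat.mul w23 (Nat.mul 3 (KB qbt15 qbt15 qbt23))) (Nat.add (Nat.mul w24 (Nat.mul 3 (KB qbt15 qbt15 qbt24))) 0))))))))))) (Nat.add (Nat.mul w16 (Nat.add (Nat.mul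 w16 (Nat.mul 3 (KB qbt15 qbt16 qbt16))) (Nat.add (Nat.mul w17 (Nat.mul 6 (KB qbt15 qbt16 qbt17))) (Nat.add (Nat.mul w18 (Nat.mul 6 (KB qbt15 qbt16 qbt18))) (Nat.add (Nat.mul w19 (Nat.mul 6 (KB qbt15 qbt16 qbt19))) (Nat.add (Nat.mul w20 (Nat.mul 6 (KB qbt15 qbt16 qbt20))) (Nat.add (Nat.mul w21 (Nat.mul 6 (KB qbt15 qbt16 qbt21))) (Nat.add (Nat.mul w22 (Nat.mul 6 (KB qbt15 qbt16 qbt22))) (Nat.add (Nat.mul w23 (Nat.mul 6 (KB qbt15 qbt16 qbt23))) (Nat.add (Nat.mul w24 (Nat.mul 6 (KB qbt15 qbt16 qbt24))) 0)))))))))) (Nat.add (Nat.mul w17 (Nat.add (Nat.mul w17 (Nat.mul 3 (KB qbt15 qbt17 qbt17))) (Nat.add (Nat.mul w18 (Nat.mul 6 (KB qbt15 qbt17 qbt18))) (Nat.add (Nat.mul w19 (Nat.mul 6 (KB qbt15 qbt17 qbt19))) (Nat.add (Nat.mul w20 (Nat.mul 6 (KB qbt15 qbt17 qbt20)))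 (Nat.add (Nat.mul w21 (Nat.mul 6 (KB qbt15 qbt17 qbt21))) (Nat.add (Nat.mul w22 (Nat.mul 6 (KB qbt15 qbt17 qbt22))) (Nat.add (Nat.mul w23 (Nat.mul 6 (KB qbt15 qbt17 qbt23))) (Nat.add (Nat.mul w24 (Nat.mul 6 (KB qbt15 qbt17 qbt24))) 0))))))))) (Nat.add (Nat.mul w18 (Nat.add (Nat.mul w18 (Nat.mul 3 (KB qbt15 qbt18 qbt18))) (Nat.add (Nat.mul w19 (Nat.mul 6 (KB qbt15 qbt18 qbt19))) (Nat.add (Nat.mul w20 (Nat.mul 6 (KB qbt15 qbt18 qbt20))) (Nat.add (Nat.mul w21 (Nat.mul 6 (KB qbt15 qbt18 qbt21))) (Nat.add (Nat.mul w22 (Nat.mul 6 (KB qbt15 qbt18 qbt22))) (Nat.add (Nat.mul w23 (Nat.mul 6 (KB qbt15 qbt18 qbt23))) (Nat.add (Nat.mul w24 (Nat.mul 6 (KB qbt15 qbt18 qbt24))) 0)))))))) (Nat.add (Nat.mul w19 (Nat.add (Nat.mul w19 (Nat.mul 3 (KB qbt15 qbt19 qbt19))) (Nat.add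 (Nat.mul w20 (Nat.mul 6 (KB qbt15 qbt19 qbt20))) (Nat.add (Nat.mul w21 (Nat.mul 6 (KB qbt15 qbt19 qbt21))) (Nat.add (Nat.mul w22 (Nat.mul 6 (KB qbt15 qbt19 qbt22))) (Nat.add (Nat.mul w23 (Nat.mul 6 (KB qbt15 qbt19 qbt23))) (Nat.add (Nat.mul w24 (Nat.mul 6 (KB qbt15 qbt19 qbt24))) 0))))))) (Nat.add (Nat.mul w20 (Nat.add (Nat.mul w20 (Nat.mul 3 (KB qbt15 qbt20 qbt20))) (Nat.add (Nat.mul w21 (Nat.mul 6 (KB qbt15 qbt20 qbt21))) (Nat.add (Nat.mul w22 (Nat.mul 6 (KB qbt15 qbt20 qbt22))) (Nat.add (Nat.mul w23 (Nat.mul 6 (KB qbt15 qbt20 qbt23))) (Nat.add (Nat.mul w24 (Nat.mul 6 (KB qbt15 qbt20 qbt24))) 0)))))) (Nat.add (Nat.mul w21 (Nat.add (Nat.mul w21 (Nat.mul 3 (KB qbt15 qbt21 qbt21))) (Nat.add (Nat.mul w22 (Nat.mul 6 (KB qbt15 qbt21 qbt22))) (Nat.add (Nat.mul w23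 (Nat.mul 6 (KB qbt15 qbt21 qbt23))) (Nat.add (Nat.mul w24 (Nat.mul 6 (KB qbt15 qbt21 qbt24))) 0))))) (Nat.add (Nat.mul w22 (Nat.add (Nat.mul w22 (Nat.mul 3 (KB qbt15 qbt22 qbt22))) (Nat.add (Nat.mul w23 (Nat.mul 6 (KB qbt15 qbt22 qbt23))) (Nat.add (Nat.mul w24 (Nat.mul 6 (KB qbt15 qbt22 qbt24))) 0)))) (Nat.add (Nat.mul w23 (Nat.add (Nat.mul w23 (Nat.mul 3 (KB qbt15 qbt23 qbt23))) (Nat.add (Nat.mul w24 (Nat.mul 6 (KB qbt15 qbt23 qbt24))) 0))) (Nat.add (Nat.mul w24 (Nat.add (Nat.mul w24 (Nat.mul 3 (KB qbt15 qbt24 qbt24))) (0))) 0))))))))))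

/-- Terms with least index 16. -/
noncomputable def qb16 (w16 w17 w18 w19 w20 w21 w22 w23 w24 : Nat) : Nat :=
  Nat.mul w16 (Nat.add (Nat.mul w16 (Nat.add (Nat.mul w16 (KB qbt16 qbt16 qbt16)) (Nat.add (Nat.mul w17 (Nat.mul 3 (KB qbt16 qbt16 qbt17))) (Nat.add (Nat.mul w18 (Nat.mul 3 (KB qbt16 qbt16 qbt18))) (Nat.add (Nat.mul w19 (Nat.mul 3 (KB qbt16 qbt16 qbt19))) (Nat.add (Nat.mul w20 (Nat.mul 3 (KB qbt16 qbt16 qbt20))) (Nat.add (Nat.mul w21 (Nat.mul 3 (KB qbt16 qbt16 qbt21))) (Nat.add (Nat.mul w22 (Nat.mul 3 (KB qbt16 qbt16 qbt22))) (Nat.add (Nat.mul w23 (Nat.mul 3 (KB qbt16 qbt16 qbt23))) (Nat.add (Nat.mul w24 (Nat.mul 3 (KB qbt16 qbt16 qbt24))) 0)))))))))) (Nat.add (Nat.mul w17 (Nat.add (Nat.mul w17 (Nat.mul 3 (KB qbt16 qbt17 qbt17))) (Nat.add (Nat.mul w18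 (Nat.mul 6 (KB qbt16 qbt17 qbt18))) (Nat.add (Nat.mul w19 (Nat.mul 6 (KB qbt16 qbt17 qbt19))) (Nat.add (Nat.mul w20 (Nat.mul 6 (KB qbt16 qbt17 qbt20))) (Nat.add (Nat.mul w21 (Nat.mul 6 (KB qbt16 qbt17 qbt21))) (Nat.add (Nat.mul w22 (Nat.mul 6 (KB qbt16 qbt17 qbt22))) (Nat.add (Nat.mul w23 (Nat.mul 6 (KB qbt16 qbt17 qbt23))) (Nat.add (Nat.mul w24 (Nat.mul 6 (KB qbt16 qbt17 qbt24))) 0))))))))) (Nat.add (Nat.mul w18 (Nat.add (Nat.mul w18 (Nat.mul 3 (KB qbt16 qbt18 qbt18))) (Nat.add (Nat.mul w19 (Nat.mul 6 (KB qbt16 qbt18 qbt19))) (Nat.add (Nat.mul w20 (Nat.mul 6 (KB qbt16 qbt18 qbt20))) (Nat.add (Nat.mul w21 (Nat.mul 6 (KB qbt16 qbt18 qbt21))) (Nat.add (Nat.mul w22 (Nat.mul 6 (KB qbt16 qbt18 qbt22))) (Nat.add (Nat.mul w23 (Nat.mul 6 (KB qbt16 qbt18 qbt23))) (Nat.add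 (Nat.mul w24 (Nat.mul 6 (KB qbt16 qbt18 qbt24))) 0)))))))) (Nat.add (Nat.mul w19 (Nat.add (Nat.mul w19 (Nat.mul 3 (KB qbt16 qbt19 qbt19))) (Nat.add (Nat.mul w20 (Nat.mul 6 (KB qbt16 qbt19 qbt20))) (Nat.add (Nat.mul w21 (Nat.mul 6 (KB qbt16 qbt19 qbt21))) (Nat.add (Nat.mul w22 (Nat.mul 6 (KB qbt16 qbt19 qbt22))) (Nat.add (Nat.mul w23 (Nat.mul 6 (KB qbt16 qbt19 qbt23))) (Nat.add (Nat.mul w24 (Nat.mul 6 (KB qbt16 qbt19 qbt24))) 0))))))) (Nat.add (Nat.mul w20 (Nat.add (Nat.mul w20 (Nat.mul 3 (KB qbt16 qbt20 qbt20))) (Nat.add (Nat.mul w21 (Nat.mul 6 (KB qbt16 qbt20 qbt21))) (Nat.add (Nat.mul w22 (Nat.mul 6 (KB qbt16 qbt20 qbt22))) (Nat.add (Nat.mul w23 (Nat.mul 6 (KB qbt16 qbt20 qbt23))) (Nat.add (Nat.mul w24 (Nat.mul 6 (KB qbt16 qbt20 qbt24))) 0)))))) (Nat.add (Nat.mul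 w21 (Nat.add (Nat.mul w21 (Nat.mul 3 (KB qbt16 qbt21 qbt21))) (Nat.add (Nat.mul w22 (Nat.mul 6 (KB qbt16 qbt21 qbt22))) (Nat.add (Nat.mul w23 (Nat.mul 6 (KB qbt16 qbt21 qbt23))) (Nat.add (Nat.mul w24 (Nat.mul 6 (KB qbt16 qbt21 qbt24))) 0))))) (Nat.add (Nat.mul w22 (Nat.add (Nat.mul w22 (Nat.mul 3 (KB qbt16 qbt22 qbt22))) (Nat.add (Nat.mul w23 (Nat.mul 6 (KB qbt16 qbt22 qbt23))) (Nat.add (Nat.mul w24 (Nat.mul 6 (KB qbt16 qbt22 qbt24))) 0)))) (Nat.add (Nat.mul w23 (Nat.add (Nat.mul w23 (Nat.mul 3 (KB qbt16 qbt23 qbt23))) (Nat.add (Nat.mul w24 (Nat.mul 6 (KB qbt16 qbt23 qbt24))) 0))) (Nat.add (Nat.mul w24 (Nat.add (Nat.mul w24 (Nat.mul 3 (KB qbt16 qbt24 qbt24))) (0))) 0)))))))))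

/-- Terms with least index 17. -/
noncomputable def qb17 (w17 w18 w19 w20 w21 w22 w23 w24 : Nat) : Nat :=
  Nat.mul w17 (Nat.add (Nat.mul w17 (Nat.add (Nat.mul w17 (KB qbt17 qbt17 qbt17)) (Nat.add (Nat.mul w18 (Nat.mul 3 (KB qbt17 qbt17 qbt18))) (Nat.add (Nat.mul w19 (Nat.mul 3 (KB qbt17 qbt17 qbt19))) (Nat.add (Nat.mul w20 (Nat.mul 3 (KB qbt17 qbt17 qbt20))) (Nat.add (Nat.mul w21 (Nat.mul 3 (KB qbt17 qbt17 qbt21))) (Nat.add (Nat.mul w22 (Nat.mul 3 (KB qbt17 qbt17 qbt22))) (Nat.add (Nat.mul w23 (Nat.mul 3 (KB qbt17 qbt17 qbt23))) (Nat.add (Nat.mul w24 (Nat.mul 3 (KB qbt17 qbt17 qbt24))) 0))))))))) (Nat.add (Nat.mul w18 (Nat.add (Nat.mul w18 (Nat.mul 3 (KB qbt17 qbt18 qbt18))) (Nat.add (Nat.mul w19 (Nat.mul 6 (KB qbt17 qbt18 qbt19))) (Nat.add (Nat.mul w20 (Nat.mul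 6 (KB qbt17 qbt18 qbt20))) (Nat.add (Nat.mul w21 (Nat.mul 6 (KB qbt17 qbt18 qbt21))) (Nat.add (Nat.mul w22 (Nat.mul 6 (KB qbt17 qbt18 qbt22))) (Nat.add (Nat.mul w23 (Nat.mul 6 (KB qbt17 qbt18 qbt23))) (Nat.add (Nat.mul w24 (Nat.mul 6 (KB qbt17 qbt18 qbt24))) 0)))))))) (Nat.add (Nat.mul w19 (Nat.add (Nat.mul w19 (Nat.mul 3 (KB qbt17 qbt19 qbt19))) (Nat.add (Nat.mul w20 (Nat.mul 6 (KB qbt17 qbt19 qbt20))) (Nat.add (Nat.mul w21 (Nat.mul 6 (KB qbt17 qbt19 qbt21))) (Nat.add (Nat.mul w22 (Nat.mul 6 (KB qbt17 qbt19 qbt22))) (Nat.add (Nat.mul w23 (Nat.mul 6 (KB qbt17 qbt19 qbt23))) (Nat.add (Nat.mul w24 (Nat.mul 6 (KB qbt17 qbt19 qbt24))) 0))))))) (Nat.add (Nat.mul w20 (Nat.add (Nat.mul w20 (Nat.mul 3 (KB qbt17 qbt20 qbt20))) (Nat.add (Nat.mul w21 (Nat.mul 6 (KB qbt17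 qbt20 qbt21))) (Nat.add (Nat.mul w22 (Nat.mul 6 (KB qbt17 qbt20 qbt22))) (Nat.add (Nat.mul w23 (Nat.mul 6 (KB qbt17 qbt20 qbt23))) (Nat.add (Nat.mul w24 (Nat.mul 6 (KB qbt17 qbt20 qbt24))) 0)))))) (Nat.add (Nat.mul w21 (Nat.add (Nat.mul w21 (Nat.mul 3 (KB qbt17 qbt21 qbt21))) (Nat.add (Nat.mul w22 (Nat.mul 6 (KB qbt17 qbt21 qbt22))) (Nat.add (Nat.mul w23 (Nat.mul 6 (KB qbt17 qbt21 qbt23))) (Nat.add (Nat.mul w24 (Nat.mul 6 (KB qbt17 qbt21 qbt24))) 0))))) (Nat.add (Nat.mul w22 (Nat.add (Nat.mul w22 (Nat.mul 3 (KB qbt17 qbt22 qbt22))) (Nat.add (Nat.mul w23 (Nat.mul 6 (KB qbt17 qbt22 qbt23))) (Nat.add (Nat.mul w24 (Nat.mul 6 (KB qbt17 qbt22 qbt24))) 0)))) (Nat.add (Nat.mul w23 (Nat.add (Nat.mul w23 (Nat.mul 3 (KB qbt17 qbt23 qbt23))) (Nat.add (Nat.mul w24 (Nat.mul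 6 (KB qbt17 qbt23 qbt24))) 0))) (Nat.add (Nat.mul w24 (Nat.add (Nat.mul w24 (Nat.mul 3 (KB qbt17 qbt24 qbt24))) (0))) 0))))))))

/-- Terms with least index 18. -/
noncomputable def qb18 (w18 w19 w20 w21 w22 w23 w24 : Nat) : Nat :=
  Nat.mul w18 (Nat.add (Nat.mul w18 (Nat.add (Nat.mul w18 (KB qbt18 qbt18 qbt18)) (Nat.add (Nat.mul w19 (Nat.mul 3 (KB qbt18 qbt18 qbt19))) (Nat.add (Nat.mul w20 (Nat.mul 3 (KB qbt18 qbt18 qbt20))) (Nat.add (Nat.mul w21 (Nat.mul 3 (KB qbt18 qbt18 qbt21))) (Nat.add (Nat.mul w22 (Nat.mul 3 (KB qbt18 qbt18 qbt22))) (Nat.add (Nat.mul w23 (Nat.mul 3 (KB qbt18 qbt18 qbt23))) (Nat.add (Nat.mul w24 (Nat.mul 3 (KB qbt18 qbt18 qbt24))) 0)))))))) (Nat.add (Nat.mul w19 (Nat.add (Nat.mul w19 (Nat.mul 3 (KB qbt18 qbt19 qbt19))) (Nat.add (Nat.mul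 w20 (Nat.mul 6 (KB qbt18 qbt19 qbt20))) (Nat.add (Nat.mul w21 (Nat.mul 6 (KB qbt18 qbt19 qbt21))) (Nat.add (Nat.mul w22 (Nat.mul 6 (KB qbt18 qbt19 qbt22))) (Nat.add (Nat.mul w23 (Nat.mul 6 (KB qbt18 qbt19 qbt23))) (Nat.add (Nat.mul w24 (Nat.mul 6 (KB qbt18 qbt19 qbt24))) 0))))))) (Nat.add (Nat.mul w20 (Nat.add (Nat.mul w20 (Nat.mul 3 (KB qbt18 qbt20 qbt20))) (Nat.add (Nat.mul w21 (Nat.mul 6 (KB qbt18 qbt20 qbt21))) (Nat.add (Nat.mul w22 (Nat.mul 6 (KB qbt18 qbt20 qbt22))) (Nat.add (Nat.mul w23 (Nat.mul 6 (KB qbt18 qbt20 qbt23))) (Nat.add (Nat.mul w24 (Nat.mul 6 (KB qbt18 qbt20 qbt24))) 0)))))) (Nat.add (Nat.mul w21 (Nat.add (Nat.mul w21 (Nat.mul 3 (KB qbt18 qbt21 qbt21))) (Nat.add (Nat.mul w22 (Nat.mul 6 (KB qbt18 qbt21 qbt22))) (Nat.add (Nat.mul w23 (Nat.mul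 6 (KB qbt18 qbt21 qbt23))) (Nat.add (Nat.mul w24 (Nat.mul 6 (KB qbt18 qbt21 qbt24))) 0))))) (Nat.add (Nat.mul w22 (Nat.add (Nat.mul w22 (Nat.mul 3 (KB qbt18 qbt22 qbt22))) (Nat.add (Nat.mul w23 (Nat.mul 6 (KB qbt18 qbt22 qbt23))) (Nat.add (Nat.mul w24 (Nat.mul 6 (KB qbt18 qbt22 qbt24))) 0)))) (Nat.add (Nat.mul w23 (Nat.add (Nat.mul w23 (Nat.mul 3 (KB qbt18 qbt23 qbt23))) (Nat.add (Nat.mul w24 (Nat.mul 6 (KB qbt18 qbt23 qbt24))) 0))) (Nat.add (Nat.mul w24 (Nat.add (Nat.mul w24 (Nat.mul 3 (KB qbt18 qbt24 qbt24))) (0))) 0)))))))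

/-- Terms with least index 19. -/
noncomputable def qb19 (w19 w20 w21 w22 w23 w24 : Nat) : Nat :=
  Nat.mul w19 (Nat.add (Nat.mul w19 (Nat.add (Nat.mul w19 (KB qbt19 qbt19 qbt19)) (Nat.add (Nat.mul w20 (Nat.mul 3 (KB qbt19 qbt19 qbt20))) (Nat.add (Nat.mul w21 (Nat.mul 3 (KB qbt19 qbt19 qbt21))) (Nat.add (Nat.mul w22 (Nat.mul 3 (KB qbt19 qbt19 qbt22))) (Nat.add (Nat.mul w23 (Nat.mul 3 (KB qbt19 qbt19 qbt23))) (Nat.add (Nat.mul w24 (Nat.mul 3 (KB qbt19 qbt19 qbt24))) 0))))))) (Nat.add (Nat.mul w20 (Nat.add (Nat.mul w20 (Nat.mul 3 (KB qbt19 qbt20 qbt20))) (Nat.add (Nat.mul w21 (Nat.mul 6 (KB qbt19 qbt20 qbt21))) (Nat.add (Nat.mul w22 (Nat.mul 6 (KB qbt19 qbt20 qbt22))) (Nat.add (Nat.mul w23 (Nat.mul 6 (KB qbt19 qbt20 qbt23))) (Nat.add (Nat.mul w24 (Nat.mul 6 (KB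 qbt19 qbt20 qbt24))) 0)))))) (Nat.add (Nat.mul w21 (Nat.add (Nat.mul w21 (Nat.mul 3 (KB qbt19 qbt21 qbt21))) (Nat.add (Nat.mul w22 (Nat.mul 6 (KB qbt19 qbt21 qbt22))) (Nat.add (Nat.mul w23 (Nat.mul 6 (KB qbt19 qbt21 qbt23))) (Nat.add (Nat.mul w24 (Nat.mul 6 (KB qbt19 qbt21 qbt24))) 0))))) (Nat.add (Nat.mul w22 (Nat.add (Nat.mul w22 (Nat.mul 3 (KB qbt19 qbt22 qbt22))) (Nat.add (Nat.mul w23 (Nat.mul 6 (KB qbt19 qbt22 qbt23))) (Nat.add (Nat.mul w24 (Nat.mul 6 (KB qbt19 qbt22 qbt24))) 0)))) (Nat.add (Nat.mul w23 (Nat.add (Nat.mul w23 (Nat.mul 3 (KB qbt19 qbt23 qbt23))) (Nat.add (Nat.mul w24 (Nat.mul 6 (KB qbt19 qbt23 qbt24))) 0))) (Nat.add (Nat.mul w24 (Nat.add (Nat.mul w24 (Nat.mul 3 (KB qbt19 qbt24 qbt24))) (0))) 0))))))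

/-- Terms with least index 20. -/
noncomputable def qb20 (w20 w21 w22 w23 w24 : Nat) : Nat :=
  Nat.mul w20 (Nat.add (Nat.mul w20 (Nat.add (Nat.mul w20 (KB qbt20 qbt20 qbt20)) (Nat.add (Nat.mul w21 (Nat.mul 3 (KB qbt20 qbt20 qbt21))) (Nat.add (Nat.mul w22 (Nat.mul 3 (KB qbt20 qbt20 qbt22))) (Nat.add (Nat.mul w23 (Nat.mul 3 (KB qbt20 qbt20 qbt23))) (Nat.add (Nat.mul w24 (Nat.mul 3 (KB qbt20 qbt20 qbt24))) 0)))))) (Nat.add (Nat.mul w21 (Nat.add (Nat.mul w21 (Nat.mul 3 (KB qbt20 qbt21 qbt21))) (Nat.add (Nat.mul w22 (Nat.mul 6 (KB qbt20 qbt21 qbt22))) (Nat.add (Nat.mul w23 (Nat.mul 6 (KB qbt20 qbt21 qbt23))) (Nat.add (Nat.mul w24 (Nat.mul 6 (KB qbt20 qbt21 qbt24))) 0))))) (Nat.add (Nat.mul w22 (Nat.add (Nat.mul w22 (Nat.mul 3 (KB qbt20 qbt22 qbt22))) (Nat.add (Nat.mul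 w23 (Nat.mul 6 (KB qbt20 qbt22 qbt23))) (Nat.add (Nat.mul w24 (Nat.mul 6 (KB qbt20 qbt22 qbt24))) 0)))) (Nat.add (Nat.mul w23 (Nat.add (Nat.mul w23 (Nat.mul 3 (KB qbt20 qbt23 qbt23))) (Nat.add (Nat.mul w24 (Nat.mul 6 (KB qbt20 qbt23 qbt24))) 0))) (Nat.add (Nat.mul w24 (Nat.add (Nat.mul w24 (Nat.mul 3 (KB qbt20 qbt24 qbt24))) (0))) 0)))))

/-- Terms with least index 21. -/
noncomputable def qb21 (w21 w22 w23 w24 : Nat) : Nat :=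
  Nat.mul w21 (Nat.add (Nat.mul w21 (Nat.add (Nat.mul w21 (KB qbt21 qbt21 qbt21)) (Nat.add (Nat.mul w22 (Nat.mul 3 (KB qbt21 qbt21 qbt22))) (Nat.add (Nat.mul w23 (Nat.mul 3 (KB qbt21 qbt21 qbt23))) (Nat.add (Nat.mul w24 (Nat.mul 3 (KB qbt21 qbt21 qbt24))) 0))))) (Nat.add (Nat.mul w22 (Nat.add (Nat.mul w22 (Nat.mul 3 (KB qbt21 qbt22 qbt22))) (Nat.add (Nat.mul w23 (Nat.mul 6 (KB qbt21 qbt22 qbt23))) (Nat.add (Nat.mul w24 (Nat.mul 6 (KB qbt21 qbt22 qbt24))) 0)))) (Nat.add (Nat.mul w23 (Nat.add (Nat.mul w23 (Nat.mul 3 (KB qbt21 qbt23 qbt23))) (Nat.add (Nat.mul w24 (Nat.mul 6 (KB qbt21 qbt23 qbt24))) 0))) (Nat.add (Nat.mul w24 (Nat.add (Nat.mul w24 (Nat.mul 3 (KB qbt21 qbt24 qbt24))) (0))) 0))))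

/-- Terms with least index 22. -/
noncomputable def qb22 (w22 w23 w24 : Nat) : Nat :=
  Nat.mul w22 (Nat.add (Nat.mul w22 (Nat.add (Nat.mul w22 (KB qbt22 qbt22 qbt22)) (Nat.add (Nat.mul w23 (Nat.mul 3 (KB qbt22 qbt22 qbt23))) (Nat.add (Nat.mul w24 (Nat.mul 3 (KB qbt22 qbt22 qbt24))) 0)))) (Nat.add (Nat.mul w23 (Nat.add (Nat.mul w23 (Nat.mul 3 (KB qbt22 qbt23 qbt23))) (Nat.add (Nat.mul w24 (Nat.mul 6 (KB qbt22 qbt23 qbt24))) 0))) (Nat.add (Nat.mul w24 (Nat.add (Nat.mul w24 (Nat.mul 3 (KB qbt22 qbt24 qbt24))) (0))) 0)))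

/-- Terms with least index 23. -/
noncomputable def qb23 (w23 w24 : Nat) : Nat :=
  Nat.mul w23 (Nat.add (Nat.mul w23 (Nat.add (Nat.mul w23 (KB qbt23 qbt23 qbt23)) (Nat.add (Nat.mul w24 (Nat.mul 3 (KB qbt23 qbt23 qbt24))) 0))) (Nat.add (Nat.mul w24 (Nat.add (Nat.mul w24 (Nat.mul 3 (KB qbt23 qbt24 qbt24))) (0))) 0))

/-- Terms with least index 24. -/
noncomputable def qb24 (w24 : Nat) : Nat :=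
  Nat.mul w24 (Nat.add (Nat.mul w24 (Nat.add (Nat.mul w24 (KB qbt24 qbt24 qbt24)) (0))) (0))

/-- Sum over all triples. -/
noncomputable def qb (w0 w1 w2 w3 w4 w5 w6 w7 w8 w9 w10 w11 w12 w13 w14 w15 w16 w17 w18 w19 w20 w21 w22 w23 w24 : Nat) : Nat :=
  Nat.add (qb0 w0 w1 w2 w3 w4 w5 w6 w7 w8 w9 w10 w11 w12 w13 w14 w15 w16 w17 w18 w19 w20 w21 w22 w23 w24) (Nat.add (qb1 w1 w2 w3 w4 w5 w6 w7 w8 w9 w10 w11 w12 w13 w14 w15 w16 w17 w18 w19 w20 w21 w22 w23 w24) (Nat.add (qb2 w2 w3 w4 w5 w6 w7 w8 w9 w10 w11 w12 w13 w14 w15 w16 w17 w18 w19 w20 w21 w22 w23 w24) (Nat.add (qb3 w3 w4 w5 w6 w7 w8 w9 w10 w11 w12 w13 w14 w15 w16 w17 w18 w19 w20 w21 w22 w23 w24) (Nat.add (qb4 w4 w5 w6 w7 w8 w9 w10 w11 w12 w13 w14 w15 w16 w17 w18 w19 w20 w21 w22 w23 w24) (Nat.add (qb5 w5 w6 w7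 w8 w9 w10 w11 w12 w13 w14 w15 w16 w17 w18 w19 w20 w21 w22 w23 w24) (Nat.add (qb6 w6 w7 w8 w9 w10 w11 w12 w13 w14 w15 w16 w17 w18 w19 w20 w21 w22 w23 w24) (Nat.add (qb7 w7 w8 w9 w10 w11 w12 w13 w14 w15 w16 w17 w18 w19 w20 w21 w22 w23 w24) (Nat.add (qb8 w8 w9 w10 w11 w12 w13 w14 w15 w16 w17 w18 w19 w20 w21 w22 w23 w24) (Nat.add (qb9 w9 w10 w11 w12 w13 w14 w15 w16 w17 w18 w19 w20 w21 w22 w23 w24) (Nat.add (qb10 w10 w11 w12 w13 w14 w15 w16 w17 w18 w19 w20 w21 w22 w23 w24) (Nat.add (qb11 w11 w12 w13 w14 w15 w16 w17 w18 w19 w20 w21 w22 w23 w24) (Nat.add (qb12 w12 w13 w14 w15 w16 w17 w18 w19 w20 w21 w22 w23 w24) (Nat.add (qb13 w13 w14 w15 w16 w17 w18 w19 w20 w21 w22 w23 w24) (Nat.add (qb14 w14 w15 w16 w17 w18 w19 w20 w21 w22 w23 w24) (Nat.add (qb15 w15 w16 w17 w18 w19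 w20 w21 w22 w23 w24) (Nat.add (qb16 w16 w17 w18 w19 w20 w21 w22 w23 w24) (Nat.add (qb17 w17 w18 w19 w20 w21 w22 w23 w24) (Nat.add (qb18 w18 w19 w20 w21 w22 w23 w24) (Nat.add (qb19 w19 w20 w21 w22 w23 w24) (Nat.add (qb20 w20 w21 w22 w23 w24) (Nat.add (qb21 w21 w22 w23 w24) (Nat.add (qb22 w22 w23 w24) (Nat.add (qb23 w23 w24) (Nat.add (qb24 w24) 0))))))))))))))))))))))))

/-- Sum for a packed law. -/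
noncomputable def qbu (v0 : Nat) : Nat :=
  st (Nat.mul (Nat.mod v0 W) (Nat.pow 3 24)) (fun w0 => st (Nat.div v0 W) (fun v1 => st (Nat.mul (Nat.mod v1 W) (Nat.pow 3 23)) (fun w1 => st (Nat.div v1 W) (fun v2 => st (Nat.mul (Nat.mod v2 W) (Nat.pow 3 22)) (fun w2 => st (Nat.div v2 W) (fun v3 => st (Nat.mul (Nat.mod v3 W) (Nat.pow 3 21)) (fun w3 => st (Nat.div v3 W) (fun v4 => st (Nat.mul (Nat.mod v4 W) (Nat.pow 3 20)) (fun w4 => st (Nat.div v4 W) (fun v5 => st (Nat.mul (Nat.mod v5 W) (Nat.pow 3 19)) (fun w5 => st (Nat.div v5 W) (fun v6 => st (Nat.mul (Nat.mod v6 W) (Nat.pow 3 18)) (fun w6 => st (Nat.div v6 W) (fun v7 => st (Nat.mul (Nat.mod v7 W) (Nat.pow 3 17)) (fun w7 => st (Nat.div v7 W) (fun v8 => st (Nat.mul (Nat.mod v8 W) (Nat.pow 3 16)) (fun w8 => st (Nat.div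 v8 W) (fun v9 => st (Nat.mul (Nat.mod v9 W) (Nat.pow 3 15)) (fun w9 => st (Nat.div v9 W) (fun v10 => st (Nat.mul (Nat.mod v10 W) (Nat.pow 3 14)) (fun w10 => st (Nat.div v10 W) (fun v11 => st (Nat.mul (Nat.mod v11 W) (Nat.pow 3 13)) (fun w11 => st (Nat.div v11 W) (fun v12 => st (Nat.mul (Nat.mod v12 W) (Nat.pow 3 12)) (fun w12 => st (Nat.div v12 W) (fun v13 => st (Nat.mul (Nat.mod v13 W) (Nat.pow 3 11)) (fun w13 => st (Nat.div v13 W) (fun v14 => st (Nat.mul (Nat.mod v14 W) (Nat.pow 3 10)) (fun w14 => st (Nat.div v14 W) (fun v15 => st (Nat.mul (Nat.mod v15 W) (Nat.pow 3 9)) (fun w15 => st (Nat.div v15 W) (fun v16 => st (Nat.mul (Nat.mod v16 W) (Nat.pow 3 8)) (fun w16 => st (Nat.div v16 W) (fun v17 => st (Nat.mul (Nat.mod v17 W) (Nat.pow 3 7)) (fun w17 => st (Nat.div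 v17 W) (fun v18 => st (Nat.mul (Nat.mod v18 W) (Nat.pow 3 6)) (fun w18 => st (Nat.div v18 W) (fun v19 => st (Nat.mul (Nat.mod v19 W) (Nat.pow 3 5)) (fun w19 => st (Nat.div v19 W) (fun v20 => st (Nat.mul (Nat.mod v20 W) (Nat.pow 3 4)) (fun w20 => st (Nat.div v20 W) (fun v21 => st (Nat.mul (Nat.mod v21 W) (Nat.pow 3 3)) (fun w21 => st (Nat.div v21 W) (fun v22 => st (Nat.mul (Nat.mod v22 W) (Nat.pow 3 2)) (fun w22 => st (Nat.div v22 W) (fun v23 => st (Nat.mul (Nat.mod v23 W) (Nat.pow 3 1)) (fun w23 => st (Nat.div v23 W) (fun v24 => st (Nat.mul (Nat.mod v24 W) (Nat.pow 3 0)) (fun w24 => qb w0 w1 w2 w3 w4 w5 w6 w7 w8 w9 w10 w11 w12 w13 w14 w15 w16 w17 w18 w19 w20 w21 w22 w23 w24)))))))))))))))))))))))))))))))))))))))))))))))))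

/-- One step of stage B. -/
noncomputable def fstepB (v : Nat) : Nat := st (qbu v) (fun F => st (nlB F) (addz 24))

end Pool.Agent.W847.T3.Ker
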