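import Pool.Agent.W847.T3.KBase

/-!
# Start of the phases
-/

set_option autoImplicit false

open Finset

namespace Pool.Agent.W847.T3.KB

theorem st_eq (n : ℕ) (f : ℕ → ℕ) : Ker.st n f = f n := by cases n <;> rfl

theorem sm_eq (L : List ℕ) : Ker.sm L = L.sum := by
  induction L with
  | nil => rfl
  | cons a L ih =>
    rw [List.sum_cons, ← ih]; rfl

theorem ent_nil (f : ℕ) (k : List ℕ → ℕ → ℕ) : Ker.ent [] f k = k [] f := rfl

theorem ent_cons (a : ℕ) (L : List ℕ) (f : ℕ) (k : List ℕ → ℕ → ℕ) :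
    Ker.ent (a :: L) f k = k L (a + f) := by
  simp only [Ker.ent, st_eq]; rfl

/-- Value at a state. -/
def Vt (v : ℕ → List ℕ → ℕ → List ℕ → ℕ → List ℕ → ℕ → ℕ) (p : ℕ) (t : SS) : ℕ :=
  v p (t.L 0) (t.f 0) (t.L 1) (t.f 1) (t.L 2) (t.f 2)

section

variable (v : ℕ → List ℕ → ℕ → List ℕ → ℕ → List ℕ → ℕ → ℕ) (p : ℕ) (t : SS)

theorem ent0 : Ker.ent (t.L 0) (t.f 0) (fun L f => v p L f (t.L 1) (t.f 1) (t.L 2) (t.f 2)) =
    Vt v p (enter 0 t) := by
  unfold enter Vt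
  cases h : t.L 0 with
  | nil => simp [Ker.ent, h]
  | cons a l =>
    simp only [Ker.ent, st_eq]
    simp [Function.update, add_comm]

theorem ent1 : Ker.ent (t.L 1) (t.f 1) (fun L f => v p (t.L 0) (t.f 0) L f (t.L 2) (t.f 2)) =
    Vt v p (enter 1 t) := by
  unfold enter Vt
  cases h : t.L 1 with
  | nil => simp [Ker.ent, h]
  | cons a l =>
    simp only [Ker.ent, st_eq]
    simp [Function.update, add_comm]

theorem ent2 : Ker.ent (t.L 2) (t.f 2) (fun L f => v p (t.L 0) (t.f 0) (t.L 1) (t.f 1) L f) =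
    Vt v p (enter 2 t) := by
  unfold enter Vt
  cases h : t.L 2 with
  | nil => simp [Ker.ent, h]
  | cons a l =>
    simp only [Ker.ent, st_eq]
    simp [Function.update, add_comm]

end

/-- Sum of the tapes. -/
def sg (L : Fin 3 → List ℕ) : ℕ := (L 0).sum + (L 1).sum + (L 2).sum

theorem pot_s0 (L : Fin 3 → List ℕ) : pot (s0 L) = sg L := by simp [pot, s0, sg]

theorem start_eq (v : ℕ → List ℕ → ℕ → List ℕ → ℕ → List ℕ → ℕ → ℕ) (L0 L1 L2 : List ℕ) :
    Ker.start v L0 L1 L2 = Vt v (sg ![L0, L1, L2]) (enter 0 (s0 ![L0, L1, L2])) +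
      (Vt v (sg ![L0, L1, L2]) (enter 1 (s0 ![L0, L1, L2])) +
        Vt v (sg ![L0, L1, L2]) (enter 2 (s0 ![L0, L1, L2]))) := by
  have hp : Nat.add (Ker.sm L0) (Nat.add (Ker.sm L1) (Ker.sm L2)) = sg ![L0, L1, L2] := by
    rw [sm_eq, sm_eq, sm_eq]
    simp only [sg, Matrix.cons_val_zero, Matrix.cons_val_one, Matrix.cons_val, Nat.add_eq]
    omega
  unfold Ker.start
  rw [hp, st_eq, ← ent0, ← ent1, ← ent2]
  rfl

theorem start1_eq (v : ℕ → List ℕ → ℕ → List ℕ → ℕ → List ℕ → ℕ → ℕ) (X : ℕ → ℕ)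
    (L0 L1 L2 : List ℕ) :
    Ker.start1 v X L0 L1 L2 =
      (fun t => X (Vt v (sg ![L0, L1, L2]) t) + (Vt v (sg ![L0, L1, L2]) (enter 0 t) +
        (Vt v (sg ![L0, L1, L2]) (enter 1 t) + Vt v (sg ![L0, L1, L2]) (enter 2 t))))
          (enter 0 (s0 ![L0, L1, L2])) +
      ((fun t => X (Vt v (sg ![L0, L1, L2]) t) + (Vt v (sg ![L0, L1, L2]) (enter 0 t) +
        (Vt v (sg ![L0, L1, L2]) (enter 1 t) + Vt v (sg ![L0, L1, L2]) (enter 2 t))))
          (enter 1 (s0 ![L0, L1, L2])) +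
      (fun t => X (Vt v (sg ![L0, L1, L2]) t) + (Vt v (sg ![L0, L1, L2]) (enter 0 t) +
        (Vt v (sg ![L0, L1, L2]) (enter 1 t) + Vt v (sg ![L0, L1, L2]) (enter 2 t))))
          (enter 2 (s0 ![L0, L1, L2]))) := by
  have hp : Nat.add (Ker.sm L0) (Nat.add (Ker.sm L1) (Ker.sm L2)) = sg ![L0, L1, L2] := by
    rw [sm_eq, sm_eq, sm_eq]
    simp only [sg, Matrix.cons_val_zero, Matrix.cons_val_one, Matrix.cons_val, Nat.add_eq]
    omega
  generalize hpp : sg ![L0, L1, L2] = p at *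
  have key : ∀ t : SS, Nat.add (X (v p (t.L 0) (t.f 0) (t.L 1) (t.f 1) (t.L 2) (t.f 2)))
      (Nat.add (Ker.ent (t.L 0) (t.f 0) (fun L f => v p L f (t.L 1) (t.f 1) (t.L 2) (t.f 2)))
        (Nat.add (Ker.ent (t.L 1) (t.f 1) (fun L f => v p (t.L 0) (t.f 0) L f (t.L 2) (t.f 2)))
        (Ker.ent (t.L 2) (t.f 2) (fun L f => v p (t.L 0) (t.f 0) (t.L 1) (t.f 1) L f)))) =
      X (Vt v p t) + (Vt v p (enter 0 t) + (Vt v p (enter 1 t) + Vt v p (enter 2 t))) := by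
    intro t
    rw [ent0, ent1, ent2]; rfl
  unfold Ker.start1
  rw [hp, st_eq]
  simp only [← key]
  unfold enter s0
  cases L0 <;> cases L1 <;> cases L2 <;> simp [Function.update, ent_nil, ent_cons]

/-- The functional of `S_PV`. -/
noncomputable def RT (T : List ℕ → List ℕ → List ℕ → ℕ) (r : ℕ) (t : SS) : ℝ :=
  if t.u = r then (T (t.L 0) (t.L 1) (t.L 2) : ℝ) /
    3 ^ ((t.L 0).sum + (t.L 1).sum + (t.L 2).sum) else 0

theorem RT_sh (T : List ℕ → List ℕ → List ℕ → ℕ) (r : ℕ) (t : SS) :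
    RT T (r + 1) (sh 1 t) = RT T r t := by
  simp [RT, sh]

theorem RT_sh0 (T : List ℕ → List ℕ → List ℕ → ℕ) (t : SS) :
    RT T 0 (sh 1 t) = 0 := by
  simp [RT, sh]

theorem RT_nonneg (T : List ℕ → List ℕ → List ℕ → ℕ) (r : ℕ) (t : SS) : 0 ≤ RT T r t := by
  unfold RT; split_ifs <;> positivity

theorem RT_le {T : List ℕ → List ℕ → List ℕ → ℕ} {A : ℕ}
    (hT : ∀ a b c : List ℕ, T a b c ≤ A * 3 ^ (a.sum + b.sum + c.sum)) (r : ℕ) (t : SS) :
    RT T r t ≤ A := by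
  unfold RT
  split_ifs
  · rw [div_le_iff₀ (by positivity)]
    exact_mod_cast hT _ _ _
  · positivity

theorem shift_sum {B R : ℕ} (hR : 1 ≤ R) (c : ℕ → ℕ) (hc : ∀ r, c r < B) :
    ((∑ r ∈ range R, c r * B ^ r) % B ^ (R - 1)) * B =
      ∑ r ∈ range R, (if r = 0 then 0 else c (r - 1)) * B ^ r := by
  obtain ⟨m, rfl⟩ : ∃ m, R = m + 1 := ⟨R - 1, by omega⟩
  have hlt : ∀ m, ∑ r ∈ range m, c r * B ^ r < B ^ m := by
    intro m
    induction m with
    | zero => simp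
    | succ m ih =>
      rw [Finset.sum_range_succ, pow_succ]
      have h1 : c m * B ^ m + B ^ m ≤ B ^ m * B := by
        have : c m + 1 ≤ B := hc m
        nlinarith [Nat.mul_le_mul_left (B ^ m) this]
      omega
  rw [Finset.sum_range_succ, Nat.add_sub_cancel, Nat.add_mul_mod_self_right, Nat.mod_eq_of_lt (hlt m),
    Finset.sum_range_succ']
  simp only [Nat.add_sub_cancel, Nat.succ_ne_zero, if_false, if_true, zero_mul, add_zero]
  rw [Finset.sum_mul]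
  exact Finset.sum_congr rfl fun r _ => by rw [pow_succ]; ring

section

variable (hPV : S_PV)

include hPV

theorem pv {B R A : ℕ} {T : List ℕ → List ℕ → List ℕ → ℕ} (hR : 1 ≤ R)
    (hT : ∀ a b c : List ℕ, T a b c ≤ A * 3 ^ (a.sum + b.sum + c.sum)) (p : ℕ) (t : SS)
    (hu : t.u = 0) (hp : pot t ≤ p) (hB : A * 3 ^ p < B) :
    ∃ c : ℕ → ℕ, Vt (Ker.V (fun v => (v % B ^ (R - 1)) * B) T) p t = ∑ r ∈ range R, c r * B ^ r ∧
      (∀ r, c r < B) ∧
      ∀ r, (c r : ℝ) = 3 ^ (pot t) * (routeAll [] t).E (fun _ => wu) (RT T r) := by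
  have hB' : A * 3 ^ (pot t) < B :=
    lt_of_le_of_lt (Nat.mul_le_mul_left _ (Nat.pow_le_pow_right (by norm_num) hp)) hB
  obtain ⟨c, h1, h2⟩ := hPV B R A T hR hT p t hu hp hB'
  refine ⟨c, h1, ?_, h2⟩
  intro r
  have h3 := h2 r
  have h4 := E_mono wuW (routeAll [] t) (g := RT T r) (h := fun _ => (A : ℝ)) (RT_le hT r)
  rw [E_const wuW] at h4
  have h5 : (c r : ℝ) ≤ ((A * 3 ^ (pot t) : ℕ) : ℝ) := by
    rw [h3]
    push_cast
    rw [mul_comm]
    exact mul_le_mul_of_nonneg_right h4 (by positivity)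
  have h6 : c r ≤ A * 3 ^ (pot t) := by exact_mod_cast h5
  omega

theorem start_spec {B R A : ℕ} {T : List ℕ → List ℕ → List ℕ → ℕ} (hR : 1 ≤ R)
    (hT : ∀ a b c : List ℕ, T a b c ≤ A * 3 ^ (a.sum + b.sum + c.sum)) (L0 L1 L2 : List ℕ)
    (hB : A * 3 ^ (sg ![L0, L1, L2]) < B) :
    ∃ d : ℕ → ℕ, Ker.start (Ker.V (fun v => (v % B ^ (R - 1)) * B) T) L0 L1 L2 =
        ∑ r ∈ range R, d r * B ^ r ∧
      ∀ r, (d r : ℝ) = 3 * 3 ^ (sg ![L0, L1, L2]) *
        (ph [] (s0 ![L0, L1, L2])).E (fun _ => wu) (RT T r) := by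
  have hpot : ∀ i, pot (enter i (s0 ![L0, L1, L2])) = sg ![L0, L1, L2] := by
    intro i; rw [pot_enter, pot_s0]
  have hu : ∀ i, (enter i (s0 ![L0, L1, L2])).u = 0 := by
    intro i
    unfold enter
    split <;> rfl
  obtain ⟨c0, a0, _, b0⟩ := pv hPV hR hT (sg ![L0, L1, L2]) _ (hu 0) (hpot 0).le hB
  obtain ⟨c1, a1, _, b1⟩ := pv hPV hR hT (sg ![L0, L1, L2]) _ (hu 1) (hpot 1).le hB
  obtain ⟨c2, a2, _, b2⟩ := pv hPV hR hT (sg ![L0, L1, L2]) _ (hu 2) (hpot 2).le hB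
  refine ⟨fun r => c0 r + (c1 r + c2 r), ?_, ?_⟩
  · rw [start_eq, a0, a1, a2, ← Finset.sum_add_distrib, ← Finset.sum_add_distrib]
    exact Finset.sum_congr rfl fun r _ => by ring
  · intro r
    push_cast
    rw [b0, b1, b2, hpot, hpot, hpot]
    simp only [ph, Prog.E, Fin.sum_univ_succ, wu, Finset.univ_unique, Finset.sum_singleton]
    simp only [Fin.succ_ne_zero, if_false, if_true, zero_mul, zero_add, move, Fin.cases_succ]
    simp only [Fin.default_eq_zero, Fin.succ_zero_eq_one, Fin.succ_one_eq_two]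
    ring

theorem start1_spec {B R A : ℕ} {T : List ℕ → List ℕ → List ℕ → ℕ} (hR : 1 ≤ R)
    (hT : ∀ a b c : List ℕ, T a b c ≤ A * 3 ^ (a.sum + b.sum + c.sum)) (L0 L1 L2 : List ℕ)
    (hB : A * 3 ^ (sg ![L0, L1, L2]) < B) :
    ∃ d : ℕ → ℕ, Ker.start1 (Ker.V (fun v => (v % B ^ (R - 1)) * B) T)
        (fun v => (v % B ^ (R - 1)) * B) L0 L1 L2 = ∑ r ∈ range R, d r * B ^ r ∧
      ∀ r, (d r : ℝ) = 12 * 3 ^ (sg ![L0, L1, L2]) *
        (ph1 [] (s0 ![L0, L1, L2])).E (fun _ => wu) (RT T r) := by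
  have hpot : ∀ i, pot (enter i (s0 ![L0, L1, L2])) = sg ![L0, L1, L2] := by
    intro i; rw [pot_enter, pot_s0]
  have hpot2 : ∀ i j, pot (enter j (enter i (s0 ![L0, L1, L2]))) = sg ![L0, L1, L2] := by
    intro i j; rw [pot_enter, pot_enter, pot_s0]
  have hue : ∀ (i : Fin 3) (t : SS), (enter i t).u = t.u := by
    intro i t
    unfold enter
    split <;> rfl
  have hu : ∀ i, (enter i (s0 ![L0, L1, L2])).u = 0 := fun i => hue i _
  have hu2 : ∀ i j, (enter j (enter i (s0 ![L0, L1, L2]))).u = 0 := fun i j => by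
    rw [hue, hue]; rfl
  have key : ∀ i : Fin 3, ∃ d : ℕ → ℕ,
      (fun t => (fun v => (v % B ^ (R - 1)) * B) (Vt (Ker.V (fun v => (v % B ^ (R - 1)) * B) T)
          (sg ![L0, L1, L2]) t) +
        (Vt (Ker.V (fun v => (v % B ^ (R - 1)) * B) T) (sg ![L0, L1, L2]) (enter 0 t) +
        (Vt (Ker.V (fun v => (v % B ^ (R - 1)) * B) T) (sg ![L0, L1, L2]) (enter 1 t) +
          Vt (Ker.V (fun v => (v % B ^ (R - 1)) * B) T) (sg ![L0, L1, L2]) (enter 2 t))))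
          (enter i (s0 ![L0, L1, L2])) = ∑ r ∈ range R, d r * B ^ r ∧
      ∀ r, (d r : ℝ) = 3 ^ (sg ![L0, L1, L2]) *
        ((routeAll [] (sh 1 (enter i (s0 ![L0, L1, L2])))).E (fun _ => wu) (RT T r) +
        ((routeAll [] (enter 0 (enter i (s0 ![L0, L1, L2])))).E (fun _ => wu) (RT T r) +
        ((routeAll [] (enter 1 (enter i (s0 ![L0, L1, L2])))).E (fun _ => wu) (RT T r) +
        (routeAll [] (enter 2 (enter i (s0 ![L0, L1, L2])))).E (fun _ => wu) (RT T r)))) := by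
    intro i
    obtain ⟨c, a, e, b⟩ := pv hPV hR hT (sg ![L0, L1, L2]) _ (hu i) (hpot i).le hB
    obtain ⟨c0, a0, _, b0⟩ := pv hPV hR hT (sg ![L0, L1, L2]) _ (hu2 i 0) (hpot2 i 0).le hB
    obtain ⟨c1, a1, _, b1⟩ := pv hPV hR hT (sg ![L0, L1, L2]) _ (hu2 i 1) (hpot2 i 1).le hB
    obtain ⟨c2, a2, _, b2⟩ := pv hPV hR hT (sg ![L0, L1, L2]) _ (hu2 i 2) (hpot2 i 2).le hB
    refine ⟨fun r => (if r = 0 then 0 else c (r - 1)) + (c0 r + (c1 r + c2 r)), ?_, ?_⟩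
    · simp only
      rw [a, a0, a1, a2, shift_sum hR c e, ← Finset.sum_add_distrib, ← Finset.sum_add_distrib,
        ← Finset.sum_add_distrib]
      exact Finset.sum_congr rfl fun r _ => by ring
    · intro r
      rw [routeAll_sh]
      cases r with
      | zero =>
        simp only [if_true, RT_sh0]
        push_cast
        rw [b0, b1, b2, hpot2, hpot2, hpot2, E_const wuW]
        ring
      | succ r =>
        simp only [Nat.succ_ne_zero, if_false, Nat.add_sub_cancel, RT_sh]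
        push_cast
        rw [b, b0, b1, b2, hpot, hpot2, hpot2, hpot2]
        ring
  obtain ⟨d0, a0, b0⟩ := key 0
  obtain ⟨d1, a1, b1⟩ := key 1
  obtain ⟨d2, a2, b2⟩ := key 2
  refine ⟨fun r => d0 r + (d1 r + d2 r), ?_, ?_⟩
  · rw [start1_eq, a0, a1, a2, ← Finset.sum_add_distrib, ← Finset.sum_add_distrib]
    exact Finset.sum_congr rfl fun r _ => by ring
  · intro r
    push_cast
    rw [b0, b1, b2]
    have m0 : ∀ t, move 0 t = sh 1 t := fun t => rfl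
    have m1 : ∀ t, move 1 t = enter 0 t := fun t => rfl
    have m2 : ∀ t, move 2 t = enter 1 t := fun t => rfl
    have m3 : ∀ t, move 3 t = enter 2 t := fun t => rfl
    simp only [ph1, Prog.E, Fin.sum_univ_four, wu, m0, m1, m2, m3]
    simp only [Fin.isValue, if_true, zero_mul, zero_add]
    simp
    ring

end

end Pool.Agent.W847.T3.KB
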