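import Pool.Agent.W847.T3.Glue0
import Pool.Agent.W847.T3.KStart
import Pool.Agent.W847.T3.FastA
import Pool.Agent.W847.T3.FastB

/-!
# The explicit steps
-/

set_option autoImplicit false
set_option maxRecDepth 100000

namespace Pool.Agent.W847.T3.Glue

theorem qa_0 (w0 w1 w2 w3 w4 w5 w6 w7 w8 w9 w10 w11 w12 w13 w14 w15 w16 w17 w18 w19 w20 w21 w22 w23 w24 w25 w26 : ℕ) :
    Nat.mul w0 (Nat.add (Nat.mul w0 (Nat.add (Nat.mul w0 (Ker.KA Ker.qat0 Ker.qat0 Ker.qat0))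
      (sumd1 Ker.KA Ker.qat0 [Ker.qat1, Ker.qat2, Ker.qat3, Ker.qat4, Ker.qat5, Ker.qat6, Ker.qat7, Ker.qat8, Ker.qat9, Ker.qat10, Ker.qat11, Ker.qat12, Ker.qat13, Ker.qat14, Ker.qat15, Ker.qat16, Ker.qat17, Ker.qat18, Ker.qat19, Ker.qat20, Ker.qat21, Ker.qat22, Ker.qat23, Ker.qat24, Ker.qat25, Ker.qat26] [w1, w2, w3, w4, w5, w6, w7, w8, w9, w10, w11, w12, w13, w14, w15, w16, w17, w18, w19, w20, w21, w22, w23, w24, w25, w26])))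
      (sumb1 Ker.KA Ker.qat0 [Ker.qat1, Ker.qat2, Ker.qat3, Ker.qat4, Ker.qat5, Ker.qat6, Ker.qat7, Ker.qat8, Ker.qat9, Ker.qat10, Ker.qat11, Ker.qat12, Ker.qat13, Ker.qat14, Ker.qat15, Ker.qat16, Ker.qat17, Ker.qat18, Ker.qat19, Ker.qat20, Ker.qat21, Ker.qat22, Ker.qat23, Ker.qat24, Ker.qat25, Ker.qat26] [w1, w2, w3, w4, w5, w6, w7, w8, w9, w10, w11, w12, w13, w14, w15, w16, w17, w18, w19, w20, w21, w22, w23, w24, w25, w26])) = Ker.qa0 w0 w1 w2 w3 w4 w5 w6 w7 w8 w9 w10 w11 w12 w13 w14 w15 w16 w17 w18 w19 w20 w21 w22 w23 w24 w25 w26 := rfl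

theorem qa_1 (w1 w2 w3 w4 w5 w6 w7 w8 w9 w10 w11 w12 w13 w14 w15 w16 w17 w18 w19 w20 w21 w22 w23 w24 w25 w26 : ℕ) :
    Nat.mul w1 (Nat.add (Nat.mul w1 (Nat.add (Nat.mul w1 (Ker.KA Ker.qat1 Ker.qat1 Ker.qat1))
      (sumd1 Ker.KA Ker.qat1 [Ker.qat2, Ker.qat3, Ker.qat4, Ker.qat5, Ker.qat6, Ker.qat7, Ker.qat8, Ker.qat9, Ker.qat10, Ker.qat11, Ker.qat12, Ker.qat13, Ker.qat14, Ker.qat15, Ker.qat16, Ker.qat17, Ker.qat18, Ker.qat19, Ker.qat20, Ker.qat21, Ker.qat22, Ker.qat23, Ker.qat24, Ker.qat25, Ker.qat26] [w2, w3, w4, w5, w6, w7, w8, w9, w10, w11, w12, w13, w14, w15, w16, w17, w18, w19, w20, w21, w22, w23, w24, w25, w26])))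
      (sumb1 Ker.KA Ker.qat1 [Ker.qat2, Ker.qat3, Ker.qat4, Ker.qat5, Ker.qat6, Ker.qat7, Ker.qat8, Ker.qat9, Ker.qat10, Ker.qat11, Ker.qat12, Ker.qat13, Ker.qat14, Ker.qat15, Ker.qat16, Ker.qat17, Ker.qat18, Ker.qat19, Ker.qat20, Ker.qat21, Ker.qat22, Ker.qat23, Ker.qat24, Ker.qat25, Ker.qat26] [w2, w3, w4, w5, w6, w7, w8, w9, w10, w11, w12, w13, w14, w15, w16, w17, w18, w19, w20, w21, w22, w23, w24, w25, w26])) = Ker.qa1 w1 w2 w3 w4 w5 w6 w7 w8 w9 w10 w11 w12 w13 w14 w15 w16 w17 w18 w19 w20 w21 w22 w23 w24 w25 w26 := rfl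

theorem qa_2 (w2 w3 w4 w5 w6 w7 w8 w9 w10 w11 w12 w13 w14 w15 w16 w17 w18 w19 w20 w21 w22 w23 w24 w25 w26 : ℕ) :
    Nat.mul w2 (Nat.add (Nat.mul w2 (Nat.add (Nat.mul w2 (Ker.KA Ker.qat2 Ker.qat2 Ker.qat2))
      (sumd1 Ker.KA Ker.qat2 [Ker.qat3, Ker.qat4, Ker.qat5, Ker.qat6, Ker.qat7, Ker.qat8, Ker.qat9, Ker.qat10, Ker.qat11, Ker.qat12, Ker.qat13, Ker.qat14, Ker.qat15, Ker.qat16, Ker.qat17, Ker.qat18, Ker.qat19, Ker.qat20, Ker.qat21, Ker.qat22, Ker.qat23, Ker.qat24, Ker.qat25, Ker.qat26] [w3, w4, w5, w6, w7, w8, w9, w10, w11, w12, w13, w14, w15, w16, w17, w18, w19, w20, w21, w22, w23, w24, w25, w26])))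
      (sumb1 Ker.KA Ker.qat2 [Ker.qat3, Ker.qat4, Ker.qat5, Ker.qat6, Ker.qat7, Ker.qat8, Ker.qat9, Ker.qat10, Ker.qat11, Ker.qat12, Ker.qat13, Ker.qat14, Ker.qat15, Ker.qat16, Ker.qat17, Ker.qat18, Ker.qat19, Ker.qat20, Ker.qat21, Ker.qat22, Ker.qat23, Ker.qat24, Ker.qat25, Ker.qat26] [w3, w4, w5, w6, w7, w8, w9, w10, w11, w12, w13, w14, w15, w16, w17, w18, w19, w20, w21, w22, w23, w24, w25, w26])) = Ker.qa2 w2 w3 w4 w5 w6 w7 w8 w9 w10 w11 w12 w13 w14 w15 w16 w17 w18 w19 w20 w21 w22 w23 w24 w25 w26 := rfl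

theorem qa_3 (w3 w4 w5 w6 w7 w8 w9 w10 w11 w12 w13 w14 w15 w16 w17 w18 w19 w20 w21 w22 w23 w24 w25 w26 : ℕ) :
    Nat.mul w3 (Nat.add (Nat.mul w3 (Nat.add (Nat.mul w3 (Ker.KA Ker.qat3 Ker.qat3 Ker.qat3))
      (sumd1 Ker.KA Ker.qat3 [Ker.qat4, Ker.qat5, Ker.qat6, Ker.qat7, Ker.qat8, Ker.qat9, Ker.qat10, Ker.qat11, Ker.qat12, Ker.qat13, Ker.qat14, Ker.qat15, Ker.qat16, Ker.qat17, Ker.qat18, Ker.qat19, Ker.qat20, Ker.qat21, Ker.qat22, Ker.qat23, Ker.qat24, Ker.qat25, Ker.qat26] [w4, w5, w6, w7, w8, w9, w10, w11, w12, w13, w14, w15, w16, w17, w18, w19, w20, w21, w22, w23, w24, w25, w26])))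
      (sumb1 Ker.KA Ker.qat3 [Ker.qat4, Ker.qat5, Ker.qat6, Ker.qat7, Ker.qat8, Ker.qat9, Ker.qat10, Ker.qat11, Ker.qat12, Ker.qat13, Ker.qat14, Ker.qat15, Ker.qat16, Ker.qat17, Ker.qat18, Ker.qat19, Ker.qat20, Ker.qat21, Ker.qat22, Ker.qat23, Ker.qat24, Ker.qat25, Ker.qat26] [w4, w5, w6, w7, w8, w9, w10, w11, w12, w13, w14, w15, w16, w17, w18, w19, w20, w21, w22, w23, w24, w25, w26])) = Ker.qa3 w3 w4 w5 w6 w7 w8 w9 w10 w11 w12 w13 w14 w15 w16 w17 w18 w19 w20 w21 w22 w23 w24 w25 w26 := rfl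

theorem qa_4 (w4 w5 w6 w7 w8 w9 w10 w11 w12 w13 w14 w15 w16 w17 w18 w19 w20 w21 w22 w23 w24 w25 w26 : ℕ) :
    Nat.mul w4 (Nat.add (Nat.mul w4 (Nat.add (Nat.mul w4 (Ker.KA Ker.qat4 Ker.qat4 Ker.qat4))
      (sumd1 Ker.KA Ker.qat4 [Ker.qat5, Ker.qat6, Ker.qat7, Ker.qat8, Ker.qat9, Ker.qat10, Ker.qat11, Ker.qat12, Ker.qat13, Ker.qat14, Ker.qat15, Ker.qat16, Ker.qat17, Ker.qat18, Ker.qat19, Ker.qat20, Ker.qat21, Ker.qat22, Ker.qat23, Ker.qat24, Ker.qat25, Ker.qat26] [w5, w6, w7, w8, w9, w10, w11, w12, w13, w14, w15, w16, w17, w18, w19, w20, w21, w22, w23, w24, w25, w26])))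
      (sumb1 Ker.KA Ker.qat4 [Ker.qat5, Ker.qat6, Ker.qat7, Ker.qat8, Ker.qat9, Ker.qat10, Ker.qat11, Ker.qat12, Ker.qat13, Ker.qat14, Ker.qat15, Ker.qat16, Ker.qat17, Ker.qat18, Ker.qat19, Ker.qat20, Ker.qat21, Ker.qat22, Ker.qat23, Ker.qat24, Ker.qat25, Ker.qat26] [w5, w6, w7, w8, w9, w10, w11, w12, w13, w14, w15, w16, w17, w18, w19, w20, w21, w22, w23, w24, w25, w26])) = Ker.qa4 w4 w5 w6 w7 w8 w9 w10 w11 w12 w13 w14 w15 w16 w17 w18 w19 w20 w21 w22 w23 w24 w25 w26 := rfl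

theorem qa_5 (w5 w6 w7 w8 w9 w10 w11 w12 w13 w14 w15 w16 w17 w18 w19 w20 w21 w22 w23 w24 w25 w26 : ℕ) :
    Nat.mul w5 (Nat.add (Nat.mul w5 (Nat.add (Nat.mul w5 (Ker.KA Ker.qat5 Ker.qat5 Ker.qat5))
      (sumd1 Ker.KA Ker.qat5 [Ker.qat6, Ker.qat7, Ker.qat8, Ker.qat9, Ker.qat10, Ker.qat11, Ker.qat12, Ker.qat13, Ker.qat14, Ker.qat15, Ker.qat16, Ker.qat17, Ker.qat18, Ker.qat19, Ker.qat20, Ker.qat21, Ker.qat22, Ker.qat23, Ker.qat24, Ker.qat25, Ker.qat26] [w6, w7, w8, w9, w10, w11, w12, w13, w14, w15, w16, w17, w18, w19, w20, w21, w22, w23, w24, w25, w26])))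
      (sumb1 Ker.KA Ker.qat5 [Ker.qat6, Ker.qat7, Ker.qat8, Ker.qat9, Ker.qat10, Ker.qat11, Ker.qat12, Ker.qat13, Ker.qat14, Ker.qat15, Ker.qat16, Ker.qat17, Ker.qat18, Ker.qat19, Ker.qat20, Ker.qat21, Ker.qat22, Ker.qat23, Ker.qat24, Ker.qat25, Ker.qat26] [w6, w7, w8, w9, w10, w11, w12, w13, w14, w15, w16, w17, w18, w19, w20, w21, w22, w23, w24, w25, w26])) = Ker.qa5 w5 w6 w7 w8 w9 w10 w11 w12 w13 w14 w15 w16 w17 w18 w19 w20 w21 w22 w23 w24 w25 w26 := rfl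

theorem qa_6 (w6 w7 w8 w9 w10 w11 w12 w13 w14 w15 w16 w17 w18 w19 w20 w21 w22 w23 w24 w25 w26 : ℕ) :
    Nat.mul w6 (Nat.add (Nat.mul w6 (Nat.add (Nat.mul w6 (Ker.KA Ker.qat6 Ker.qat6 Ker.qat6))
      (sumd1 Ker.KA Ker.qat6 [Ker.qat7, Ker.qat8, Ker.qat9, Ker.qat10, Ker.qat11, Ker.qat12, Ker.qat13, Ker.qat14, Ker.qat15, Ker.qat16, Ker.qat17, Ker.qat18, Ker.qat19, Ker.qat20, Ker.qat21, Ker.qat22, Ker.qat23, Ker.qat24, Ker.qat25, Ker.qat26] [w7, w8, w9, w10, w11, w12, w13, w14, w15, w16, w17, w18, w19, w20, w21, w22, w23, w24, w25, w26])))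
      (sumb1 Ker.KA Ker.qat6 [Ker.qat7, Ker.qat8, Ker.qat9, Ker.qat10, Ker.qat11, Ker.qat12, Ker.qat13, Ker.qat14, Ker.qat15, Ker.qat16, Ker.qat17, Ker.qat18, Ker.qat19, Ker.qat20, Ker.qat21, Ker.qat22, Ker.qat23, Ker.qat24, Ker.qat25, Ker.qat26] [w7, w8, w9, w10, w11, w12, w13, w14, w15, w16, w17, w18, w19, w20, w21, w22, w23, w24, w25, w26])) = Ker.qa6 w6 w7 w8 w9 w10 w11 w12 w13 w14 w15 w16 w17 w18 w19 w20 w21 w22 w23 w24 w25 w26 := rfl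

theorem qa_7 (w7 w8 w9 w10 w11 w12 w13 w14 w15 w16 w17 w18 w19 w20 w21 w22 w23 w24 w25 w26 : ℕ) :
    Nat.mul w7 (Nat.add (Nat.mul w7 (Nat.add (Nat.mul w7 (Ker.KA Ker.qat7 Ker.qat7 Ker.qat7))
      (sumd1 Ker.KA Ker.qat7 [Ker.qat8, Ker.qat9, Ker.qat10, Ker.qat11, Ker.qat12, Ker.qat13, Ker.qat14, Ker.qat15, Ker.qat16, Ker.qat17, Ker.qat18, Ker.qat19, Ker.qat20, Ker.qat21, Ker.qat22, Ker.qat23, Ker.qat24, Ker.qat25, Ker.qat26] [w8, w9, w10, w11, w12, w13, w14, w15, w16, w17, w18, w19, w20, w21, w22, w23, w24, w25, w26])))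
      (sumb1 Ker.KA Ker.qat7 [Ker.qat8, Ker.qat9, Ker.qat10, Ker.qat11, Ker.qat12, Ker.qat13, Ker.qat14, Ker.qat15, Ker.qat16, Ker.qat17, Ker.qat18, Ker.qat19, Ker.qat20, Ker.qat21, Ker.qat22, Ker.qat23, Ker.qat24, Ker.qat25, Ker.qat26] [w8, w9, w10, w11, w12, w13, w14, w15, w16, w17, w18, w19, w20, w21, w22, w23, w24, w25, w26])) = Ker.qa7 w7 w8 w9 w10 w11 w12 w13 w14 w15 w16 w17 w18 w19 w20 w21 w22 w23 w24 w25 w26 := rfl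

theorem qa_8 (w8 w9 w10 w11 w12 w13 w14 w15 w16 w17 w18 w19 w20 w21 w22 w23 w24 w25 w26 : ℕ) :
    Nat.mul w8 (Nat.add (Nat.mul w8 (Nat.add (Nat.mul w8 (Ker.KA Ker.qat8 Ker.qat8 Ker.qat8))
      (sumd1 Ker.KA Ker.qat8 [Ker.qat9, Ker.qat10, Ker.qat11, Ker.qat12, Ker.qat13, Ker.qat14, Ker.qat15, Ker.qat16, Ker.qat17, Ker.qat18, Ker.qat19, Ker.qat20, Ker.qat21, Ker.qat22, Ker.qat23, Ker.qat24, Ker.qat25, Ker.qat26] [w9, w10, w11, w12, w13, w14, w15, w16, w17, w18, w19, w20, w21, w22, w23, w24, w25, w26])))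
      (sumb1 Ker.KA Ker.qat8 [Ker.qat9, Ker.qat10, Ker.qat11, Ker.qat12, Ker.qat13, Ker.qat14, Ker.qat15, Ker.qat16, Ker.qat17, Ker.qat18, Ker.qat19, Ker.qat20, Ker.qat21, Ker.qat22, Ker.qat23, Ker.qat24, Ker.qat25, Ker.qat26] [w9, w10, w11, w12, w13, w14, w15, w16, w17, w18, w19, w20, w21, w22, w23, w24, w25, w26])) = Ker.qa8 w8 w9 w10 w11 w12 w13 w14 w15 w16 w17 w18 w19 w20 w21 w22 w23 w24 w25 w26 := rfl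

theorem qa_9 (w9 w10 w11 w12 w13 w14 w15 w16 w17 w18 w19 w20 w21 w22 w23 w24 w25 w26 : ℕ) :
    Nat.mul w9 (Nat.add (Nat.mul w9 (Nat.add (Nat.mul w9 (Ker.KA Ker.qat9 Ker.qat9 Ker.qat9))
      (sumd1 Ker.KA Ker.qat9 [Ker.qat10, Ker.qat11, Ker.qat12, Ker.qat13, Ker.qat14, Ker.qat15, Ker.qat16, Ker.qat17, Ker.qat18, Ker.qat19, Ker.qat20, Ker.qat21, Ker.qat22, Ker.qat23, Ker.qat24, Ker.qat25, Ker.qat26] [w10, w11, w12, w13, w14, w15, w16, w17, w18, w19, w20, w21, w22, w23, w24, w25, w26])))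
      (sumb1 Ker.KA Ker.qat9 [Ker.qat10, Ker.qat11, Ker.qat12, Ker.qat13, Ker.qat14, Ker.qat15, Ker.qat16, Ker.qat17, Ker.qat18, Ker.qat19, Ker.qat20, Ker.qat21, Ker.qat22, Ker.qat23, Ker.qat24, Ker.qat25, Ker.qat26] [w10, w11, w12, w13, w14, w15, w16, w17, w18, w19, w20, w21, w22, w23, w24, w25, w26])) = Ker.qa9 w9 w10 w11 w12 w13 w14 w15 w16 w17 w18 w19 w20 w21 w22 w23 w24 w25 w26 := rfl

theorem qa_10 (w10 w11 w12 w13 w14 w15 w16 w17 w18 w19 w20 w21 w22 w23 w24 w25 w26 : ℕ) :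
    Nat.mul w10 (Nat.add (Nat.mul w10 (Nat.add (Nat.mul w10 (Ker.KA Ker.qat10 Ker.qat10 Ker.qat10))
      (sumd1 Ker.KA Ker.qat10 [Ker.qat11, Ker.qat12, Ker.qat13, Ker.qat14, Ker.qat15, Ker.qat16, Ker.qat17, Ker.qat18, Ker.qat19, Ker.qat20, Ker.qat21, Ker.qat22, Ker.qat23, Ker.qat24, Ker.qat25, Ker.qat26] [w11, w12, w13, w14, w15, w16, w17, w18, w19, w20, w21, w22, w23, w24, w25, w26])))
      (sumb1 Ker.KA Ker.qat10 [Ker.qat11, Ker.qat12, Ker.qat13, Ker.qat14, Ker.qat15, Ker.qat16, Ker.qat17, Ker.qat18, Ker.qat19, Ker.qat20, Ker.qat21, Ker.qat22, Ker.qat23, Ker.qat24, Ker.qat25, Ker.qat26] [w11, w12, w13, w14, w15, w16, w17, w18, w19, w20, w21, w22, w23, w24, w25, w26])) = Ker.qa10 w10 w11 w12 w13 w14 w15 w16 w17 w18 w19 w20 w21 w22 w23 w24 w25 w26 := rfl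

theorem qa_11 (w11 w12 w13 w14 w15 w16 w17 w18 w19 w20 w21 w22 w23 w24 w25 w26 : ℕ) :
    Nat.mul w11 (Nat.add (Nat.mul w11 (Nat.add (Nat.mul w11 (Ker.KA Ker.qat11 Ker.qat11 Ker.qat11))
      (sumd1 Ker.KA Ker.qat11 [Ker.qat12, Ker.qat13, Ker.qat14, Ker.qat15, Ker.qat16, Ker.qat17, Ker.qat18, Ker.qat19, Ker.qat20, Ker.qat21, Ker.qat22, Ker.qat23, Ker.qat24, Ker.qat25, Ker.qat26] [w12, w13, w14, w15, w16, w17, w18, w19, w20, w21, w22, w23, w24, w25, w26])))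
      (sumb1 Ker.KA Ker.qat11 [Ker.qat12, Ker.qat13, Ker.qat14, Ker.qat15, Ker.qat16, Ker.qat17, Ker.qat18, Ker.qat19, Ker.qat20, Ker.qat21, Ker.qat22, Ker.qat23, Ker.qat24, Ker.qat25, Ker.qat26] [w12, w13, w14, w15, w16, w17, w18, w19, w20, w21, w22, w23, w24, w25, w26])) = Ker.qa11 w11 w12 w13 w14 w15 w16 w17 w18 w19 w20 w21 w22 w23 w24 w25 w26 := rfl

theorem qa_12 (w12 w13 w14 w15 w16 w17 w18 w19 w20 w21 w22 w23 w24 w25 w26 : ℕ) :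
    Nat.mul w12 (Nat.add (Nat.mul w12 (Nat.add (Nat.mul w12 (Ker.KA Ker.qat12 Ker.qat12 Ker.qat12))
      (sumd1 Ker.KA Ker.qat12 [Ker.qat13, Ker.qat14, Ker.qat15, Ker.qat16, Ker.qat17, Ker.qat18, Ker.qat19, Ker.qat20, Ker.qat21, Ker.qat22, Ker.qat23, Ker.qat24, Ker.qat25, Ker.qat26] [w13, w14, w15, w16, w17, w18, w19, w20, w21, w22, w23, w24, w25, w26])))
      (sumb1 Ker.KA Ker.qat12 [Ker.qat13, Ker.qat14, Ker.qat15, Ker.qat16, Ker.qat17, Ker.qat18, Ker.qat19, Ker.qat20, Ker.qat21, Ker.qat22, Ker.qat23, Ker.qat24, Ker.qat25, Ker.qat26] [w13, w14, w15, w16, w17, w18, w19, w20, w21, w22, w23, w24, w25, w26])) = Ker.qa12 w12 w13 w14 w15 w16 w17 w18 w19 w20 w21 w22 w23 w24 w25 w26 := rfl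

theorem qa_13 (w13 w14 w15 w16 w17 w18 w19 w20 w21 w22 w23 w24 w25 w26 : ℕ) :
    Nat.mul w13 (Nat.add (Nat.mul w13 (Nat.add (Nat.mul w13 (Ker.KA Ker.qat13 Ker.qat13 Ker.qat13))
      (sumd1 Ker.KA Ker.qat13 [Ker.qat14, Ker.qat15, Ker.qat16, Ker.qat17, Ker.qat18, Ker.qat19, Ker.qat20, Ker.qat21, Ker.qat22, Ker.qat23, Ker.qat24, Ker.qat25, Ker.qat26] [w14, w15, w16, w17, w18, w19, w20, w21, w22, w23, w24, w25, w26])))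
      (sumb1 Ker.KA Ker.qat13 [Ker.qat14, Ker.qat15, Ker.qat16, Ker.qat17, Ker.qat18, Ker.qat19, Ker.qat20, Ker.qat21, Ker.qat22, Ker.qat23, Ker.qat24, Ker.qat25, Ker.qat26] [w14, w15, w16, w17, w18, w19, w20, w21, w22, w23, w24, w25, w26])) = Ker.qa13 w13 w14 w15 w16 w17 w18 w19 w20 w21 w22 w23 w24 w25 w26 := rfl

theorem qa_14 (w14 w15 w16 w17 w18 w19 w20 w21 w22 w23 w24 w25 w26 : ℕ) :
    Nat.mul w14 (Nat.add (Nat.mul w14 (Nat.add (Nat.mul w14 (Ker.KA Ker.qat14 Ker.qat14 Ker.qat14))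
      (sumd1 Ker.KA Ker.qat14 [Ker.qat15, Ker.qat16, Ker.qat17, Ker.qat18, Ker.qat19, Ker.qat20, Ker.qat21, Ker.qat22, Ker.qat23, Ker.qat24, Ker.qat25, Ker.qat26] [w15, w16, w17, w18, w19, w20, w21, w22, w23, w24, w25, w26])))
      (sumb1 Ker.KA Ker.qat14 [Ker.qat15, Ker.qat16, Ker.qat17, Ker.qat18, Ker.qat19, Ker.qat20, Ker.qat21, Ker.qat22, Ker.qat23, Ker.qat24, Ker.qat25, Ker.qat26] [w15, w16, w17, w18, w19, w20, w21, w22, w23, w24, w25, w26])) = Ker.qa14 w14 w15 w16 w17 w18 w19 w20 w21 w22 w23 w24 w25 w26 := rfl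

theorem qa_15 (w15 w16 w17 w18 w19 w20 w21 w22 w23 w24 w25 w26 : ℕ) :
    Nat.mul w15 (Nat.add (Nat.mul w15 (Nat.add (Nat.mul w15 (Ker.KA Ker.qat15 Ker.qat15 Ker.qat15))
      (sumd1 Ker.KA Ker.qat15 [Ker.qat16, Ker.qat17, Ker.qat18, Ker.qat19, Ker.qat20, Ker.qat21, Ker.qat22, Ker.qat23, Ker.qat24, Ker.qat25, Ker.qat26] [w16, w17, w18, w19, w20, w21, w22, w23, w24, w25, w26])))
      (sumb1 Ker.KA Ker.qat15 [Ker.qat16, Ker.qat17, Ker.qat18, Ker.qat19, Ker.qat20, Ker.qat21, Ker.qat22, Ker.qat23, Ker.qat24, Ker.qat25, Ker.qat26] [w16, w17, w18, w19, w20, w21, w22, w23, w24, w25, w26])) = Ker.qa15 w15 w16 w17 w18 w19 w20 w21 w22 w23 w24 w25 w26 := rfl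

theorem qa_16 (w16 w17 w18 w19 w20 w21 w22 w23 w24 w25 w26 : ℕ) :
    Nat.mul w16 (Nat.add (Nat.mul w16 (Nat.add (Nat.mul w16 (Ker.KA Ker.qat16 Ker.qat16 Ker.qat16))
      (sumd1 Ker.KA Ker.qat16 [Ker.qat17, Ker.qat18, Ker.qat19, Ker.qat20, Ker.qat21, Ker.qat22, Ker.qat23, Ker.qat24, Ker.qat25, Ker.qat26] [w17, w18, w19, w20, w21, w22, w23, w24, w25, w26])))
      (sumb1 Ker.KA Ker.qat16 [Ker.qat17, Ker.qat18, Ker.qat19, Ker.qat20, Ker.qat21, Ker.qat22, Ker.qat23, Ker.qat24, Ker.qat25, Ker.qat26] [w17, w18, w19, w20, w21, w22, w23, w24, w25, w26])) = Ker.qa16 w16 w17 w18 w19 w20 w21 w22 w23 w24 w25 w26 := rfl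

theorem qa_17 (w17 w18 w19 w20 w21 w22 w23 w24 w25 w26 : ℕ) :
    Nat.mul w17 (Nat.add (Nat.mul w17 (Nat.add (Nat.mul w17 (Ker.KA Ker.qat17 Ker.qat17 Ker.qat17))
      (sumd1 Ker.KA Ker.qat17 [Ker.qat18, Ker.qat19, Ker.qat20, Ker.qat21, Ker.qat22, Ker.qat23, Ker.qat24, Ker.qat25, Ker.qat26] [w18, w19, w20, w21, w22, w23, w24, w25, w26])))
      (sumb1 Ker.KA Ker.qat17 [Ker.qat18, Ker.qat19, Ker.qat20, Ker.qat21, Ker.qat22, Ker.qat23, Ker.qat24, Ker.qat25, Ker.qat26] [w18, w19, w20, w21, w22, w23, w24, w25, w26])) = Ker.qa17 w17 w18 w19 w20 w21 w22 w23 w24 w25 w26 := rfl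

theorem qa_18 (w18 w19 w20 w21 w22 w23 w24 w25 w26 : ℕ) :
    Nat.mul w18 (Nat.add (Nat.mul w18 (Nat.add (Nat.mul w18 (Ker.KA Ker.qat18 Ker.qat18 Ker.qat18))
      (sumd1 Ker.KA Ker.qat18 [Ker.qat19, Ker.qat20, Ker.qat21, Ker.qat22, Ker.qat23, Ker.qat24, Ker.qat25, Ker.qat26] [w19, w20, w21, w22, w23, w24, w25, w26])))
      (sumb1 Ker.KA Ker.qat18 [Ker.qat19, Ker.qat20, Ker.qat21, Ker.qat22, Ker.qat23, Ker.qat24, Ker.qat25, Ker.qat26] [w19, w20, w21, w22, w23, w24, w25, w26])) = Ker.qa18 w18 w19 w20 w21 w22 w23 w24 w25 w26 := rfl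

theorem qa_19 (w19 w20 w21 w22 w23 w24 w25 w26 : ℕ) :
    Nat.mul w19 (Nat.add (Nat.mul w19 (Nat.add (Nat.mul w19 (Ker.KA Ker.qat19 Ker.qat19 Ker.qat19))
      (sumd1 Ker.KA Ker.qat19 [Ker.qat20, Ker.qat21, Ker.qat22, Ker.qat23, Ker.qat24, Ker.qat25, Ker.qat26] [w20, w21, w22, w23, w24, w25, w26])))
      (sumb1 Ker.KA Ker.qat19 [Ker.qat20, Ker.qat21, Ker.qat22, Ker.qat23, Ker.qat24, Ker.qat25, Ker.qat26] [w20, w21, w22, w23, w24, w25, w26])) = Ker.qa19 w19 w20 w21 w22 w23 w24 w25 w26 := rfl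

theorem qa_20 (w20 w21 w22 w23 w24 w25 w26 : ℕ) :
    Nat.mul w20 (Nat.add (Nat.mul w20 (Nat.add (Nat.mul w20 (Ker.KA Ker.qat20 Ker.qat20 Ker.qat20))
      (sumd1 Ker.KA Ker.qat20 [Ker.qat21, Ker.qat22, Ker.qat23, Ker.qat24, Ker.qat25, Ker.qat26] [w21, w22, w23, w24, w25, w26])))
      (sumb1 Ker.KA Ker.qat20 [Ker.qat21, Ker.qat22, Ker.qat23, Ker.qat24, Ker.qat25, Ker.qat26] [w21, w22, w23, w24, w25, w26])) = Ker.qa20 w20 w21 w22 w23 w24 w25 w26 := rfl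

theorem qa_21 (w21 w22 w23 w24 w25 w26 : ℕ) :
    Nat.mul w21 (Nat.add (Nat.mul w21 (Nat.add (Nat.mul w21 (Ker.KA Ker.qat21 Ker.qat21 Ker.qat21))
      (sumd1 Ker.KA Ker.qat21 [Ker.qat22, Ker.qat23, Ker.qat24, Ker.qat25, Ker.qat26] [w22, w23, w24, w25, w26])))
      (sumb1 Ker.KA Ker.qat21 [Ker.qat22, Ker.qat23, Ker.qat24, Ker.qat25, Ker.qat26] [w22, w23, w24, w25, w26])) = Ker.qa21 w21 w22 w23 w24 w25 w26 := rfl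

theorem qa_22 (w22 w23 w24 w25 w26 : ℕ) :
    Nat.mul w22 (Nat.add (Nat.mul w22 (Nat.add (Nat.mul w22 (Ker.KA Ker.qat22 Ker.qat22 Ker.qat22))
      (sumd1 Ker.KA Ker.qat22 [Ker.qat23, Ker.qat24, Ker.qat25, Ker.qat26] [w23, w24, w25, w26])))
      (sumb1 Ker.KA Ker.qat22 [Ker.qat23, Ker.qat24, Ker.qat25, Ker.qat26] [w23, w24, w25, w26])) = Ker.qa22 w22 w23 w24 w25 w26 := rfl

theorem qa_23 (w23 w24 w25 w26 : ℕ) :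
    Nat.mul w23 (Nat.add (Nat.mul w23 (Nat.add (Nat.mul w23 (Ker.KA Ker.qat23 Ker.qat23 Ker.qat23))
      (sumd1 Ker.KA Ker.qat23 [Ker.qat24, Ker.qat25, Ker.qat26] [w24, w25, w26])))
      (sumb1 Ker.KA Ker.qat23 [Ker.qat24, Ker.qat25, Ker.qat26] [w24, w25, w26])) = Ker.qa23 w23 w24 w25 w26 := rfl

theorem qa_24 (w24 w25 w26 : ℕ) :
    Nat.mul w24 (Nat.add (Nat.mul w24 (Nat.add (Nat.mul w24 (Ker.KA Ker.qat24 Ker.qat24 Ker.qat24))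
      (sumd1 Ker.KA Ker.qat24 [Ker.qat25, Ker.qat26] [w25, w26])))
      (sumb1 Ker.KA Ker.qat24 [Ker.qat25, Ker.qat26] [w25, w26])) = Ker.qa24 w24 w25 w26 := rfl

theorem qa_25 (w25 w26 : ℕ) :
    Nat.mul w25 (Nat.add (Nat.mul w25 (Nat.add (Nat.mul w25 (Ker.KA Ker.qat25 Ker.qat25 Ker.qat25))
      (sumd1 Ker.KA Ker.qat25 [Ker.qat26] [w26])))
      (sumb1 Ker.KA Ker.qat25 [Ker.qat26] [w26])) = Ker.qa25 w25 w26 := rfl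

theorem qa_26 (w26 : ℕ) :
    Nat.mul w26 (Nat.add (Nat.mul w26 (Nat.add (Nat.mul w26 (Ker.KA Ker.qat26 Ker.qat26 Ker.qat26))
      (sumd1 Ker.KA Ker.qat26 [] [])))
      (sumb1 Ker.KA Ker.qat26 [] [])) = Ker.qa26 w26 := rfl

theorem qa_all (w0 w1 w2 w3 w4 w5 w6 w7 w8 w9 w10 w11 w12 w13 w14 w15 w16 w17 w18 w19 w20 w21 w22 w23 w24 w25 w26 : ℕ) :
    suma1 Ker.KA Ker.qaty [w0, w1, w2, w3, w4, w5, w6, w7, w8, w9, w10, w11, w12, w13, w14, w15, w16, w17, w18, w19, w20, w21, w22, w23, w24, w25, w26] = Ker.qa w0 w1 w2 w3 w4 w5 w6 w7 w8 w9 w10 w11 w12 w13 w14 w15 w16 w17 w18 w19 w20 w21 w22 w23 w24 w25 w26 := by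
  unfold Ker.qa Ker.qaty
  simp only [suma1, qa_0, qa_1, qa_2, qa_3, qa_4, qa_5, qa_6, qa_7, qa_8, qa_9, qa_10, qa_11, qa_12, qa_13, qa_14, qa_15, qa_16, qa_17, qa_18, qa_19, qa_20, qa_21, qa_22, qa_23, qa_24, qa_25, qa_26]

theorem qa_ty : Ker.typesA = Ker.qaty := rfl

theorem qb_0 (w0 w1 w2 w3 w4 w5 w6 w7 w8 w9 w10 w11 w12 w13 w14 w15 w16 w17 w18 w19 w20 w21 w22 w23 w24 : ℕ) :
    Nat.mul w0 (Nat.add (Nat.mul w0 (Nat.add (Nat.mul w0 (Ker.KB Ker.qbt0 Ker.qbt0 Ker.qbt0))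
      (sumd1 Ker.KB Ker.qbt0 [Ker.qbt1, Ker.qbt2, Ker.qbt3, Ker.qbt4, Ker.qbt5, Ker.qbt6, Ker.qbt7, Ker.qbt8, Ker.qbt9, Ker.qbt10, Ker.qbt11, Ker.qbt12, Ker.qbt13, Ker.qbt14, Ker.qbt15, Ker.qbt16, Ker.qbt17, Ker.qbt18, Ker.qbt19, Ker.qbt20, Ker.qbt21, Ker.qbt22, Ker.qbt23, Ker.qbt24] [w1, w2, w3, w4, w5, w6, w7, w8, w9, w10, w11, w12, w13, w14, w15, w16, w17, w18, w19, w20, w21, w22, w23, w24])))
      (sumb1 Ker.KB Ker.qbt0 [Ker.qbt1, Ker.qbt2, Ker.qbt3, Ker.qbt4, Ker.qbt5, Ker.qbt6, Ker.qbt7, Ker.qbt8, Ker.qbt9, Ker.qbt10, Ker.qbt11, Ker.qbt12, Ker.qbt13, Ker.qbt14, Ker.qbt15, Ker.qbt16, Ker.qbt17, Ker.qbt18, Ker.qbt19, Ker.qbt20, Ker.qbt21, Ker.qbt22, Ker.qbt23, Ker.qbt24] [w1, w2, w3, w4, w5, w6, w7, w8, w9, w10, w11, w12, w13, w14, w15, w16, w17, w18, w19, w20, w21, w22, w23, w24])) = Ker.qb0 w0 w1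 w2 w3 w4 w5 w6 w7 w8 w9 w10 w11 w12 w13 w14 w15 w16 w17 w18 w19 w20 w21 w22 w23 w24 := rfl

theorem qb_1 (w1 w2 w3 w4 w5 w6 w7 w8 w9 w10 w11 w12 w13 w14 w15 w16 w17 w18 w19 w20 w21 w22 w23 w24 : ℕ) :
    Nat.mul w1 (Nat.add (Nat.mul w1 (Nat.add (Nat.mul w1 (Ker.KB Ker.qbt1 Ker.qbt1 Ker.qbt1))
      (sumd1 Ker.KB Ker.qbt1 [Ker.qbt2, Ker.qbt3, Ker.qbt4, Ker.qbt5, Ker.qbt6, Ker.qbt7, Ker.qbt8, Ker.qbt9, Ker.qbt10, Ker.qbt11, Ker.qbt12, Ker.qbt13, Ker.qbt14, Ker.qbt15, Ker.qbt16, Ker.qbt17, Ker.qbt18, Ker.qbt19, Ker.qbt20, Ker.qbt21, Ker.qbt22, Ker.qbt23, Ker.qbt24] [w2, w3, w4, w5, w6, w7, w8, w9, w10, w11, w12, w13, w14, w15, w16, w17, w18, w19, w20, w21, w22, w23, w24])))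
      (sumb1 Ker.KB Ker.qbt1 [Ker.qbt2, Ker.qbt3, Ker.qbt4, Ker.qbt5, Ker.qbt6, Ker.qbt7, Ker.qbt8, Ker.qbt9, Ker.qbt10, Ker.qbt11, Ker.qbt12, Ker.qbt13, Ker.qbt14, Ker.qbt15, Ker.qbt16, Ker.qbt17, Ker.qbt18, Ker.qbt19, Ker.qbt20, Ker.qbt21, Ker.qbt22, Ker.qbt23, Ker.qbt24] [w2, w3, w4, w5, w6, w7, w8, w9, w10, w11, w12, w13, w14, w15, w16, w17, w18, w19, w20, w21, w22, w23, w24])) = Ker.qb1 w1 w2 w3 w4 w5 w6 w7 w8 w9 w10 w11 w12 w13 w14 w15 w16 w17 w18 w19 w20 w21 w22 w23 w24 := rfl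

theorem qb_2 (w2 w3 w4 w5 w6 w7 w8 w9 w10 w11 w12 w13 w14 w15 w16 w17 w18 w19 w20 w21 w22 w23 w24 : ℕ) :
    Nat.mul w2 (Nat.add (Nat.mul w2 (Nat.add (Nat.mul w2 (Ker.KB Ker.qbt2 Ker.qbt2 Ker.qbt2))
      (sumd1 Ker.KB Ker.qbt2 [Ker.qbt3, Ker.qbt4, Ker.qbt5, Ker.qbt6, Ker.qbt7, Ker.qbt8, Ker.qbt9, Ker.qbt10, Ker.qbt11, Ker.qbt12, Ker.qbt13, Ker.qbt14, Ker.qbt15, Ker.qbt16, Ker.qbt17, Ker.qbt18, Ker.qbt19, Ker.qbt20, Ker.qbt21, Ker.qbt22, Ker.qbt23, Ker.qbt24] [w3, w4, w5, w6, w7, w8, w9, w10, w11, w12, w13, w14, w15, w16, w17, w18, w19, w20, w21, w22, w23, w24])))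
      (sumb1 Ker.KB Ker.qbt2 [Ker.qbt3, Ker.qbt4, Ker.qbt5, Ker.qbt6, Ker.qbt7, Ker.qbt8, Ker.qbt9, Ker.qbt10, Ker.qbt11, Ker.qbt12, Ker.qbt13, Ker.qbt14, Ker.qbt15, Ker.qbt16, Ker.qbt17, Ker.qbt18, Ker.qbt19, Ker.qbt20, Ker.qbt21, Ker.qbt22, Ker.qbt23, Ker.qbt24] [w3, w4, w5, w6, w7, w8, w9, w10, w11, w12, w13, w14, w15, w16, w17, w18, w19, w20, w21, w22, w23, w24])) = Ker.qb2 w2 w3 w4 w5 w6 w7 w8 w9 w10 w11 w12 w13 w14 w15 w16 w17 w18 w19 w20 w21 w22 w23 w24 := rfl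

theorem qb_3 (w3 w4 w5 w6 w7 w8 w9 w10 w11 w12 w13 w14 w15 w16 w17 w18 w19 w20 w21 w22 w23 w24 : ℕ) :
    Nat.mul w3 (Nat.add (Nat.mul w3 (Nat.add (Nat.mul w3 (Ker.KB Ker.qbt3 Ker.qbt3 Ker.qbt3))
      (sumd1 Ker.KB Ker.qbt3 [Ker.qbt4, Ker.qbt5, Ker.qbt6, Ker.qbt7, Ker.qbt8, Ker.qbt9, Ker.qbt10, Ker.qbt11, Ker.qbt12, Ker.qbt13, Ker.qbt14, Ker.qbt15, Ker.qbt16, Ker.qbt17, Ker.qbt18, Ker.qbt19, Ker.qbt20, Ker.qbt21, Ker.qbt22, Ker.qbt23, Ker.qbt24] [w4, w5, w6, w7, w8, w9, w10, w11, w12, w13, w14, w15, w16, w17, w18, w19, w20, w21, w22, w23, w24])))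
      (sumb1 Ker.KB Ker.qbt3 [Ker.qbt4, Ker.qbt5, Ker.qbt6, Ker.qbt7, Ker.qbt8, Ker.qbt9, Ker.qbt10, Ker.qbt11, Ker.qbt12, Ker.qbt13, Ker.qbt14, Ker.qbt15, Ker.qbt16, Ker.qbt17, Ker.qbt18, Ker.qbt19, Ker.qbt20, Ker.qbt21, Ker.qbt22, Ker.qbt23, Ker.qbt24] [w4, w5, w6, w7, w8, w9, w10, w11, w12, w13, w14, w15, w16, w17, w18, w19, w20, w21, w22, w23, w24])) = Ker.qb3 w3 w4 w5 w6 w7 w8 w9 w10 w11 w12 w13 w14 w15 w16 w17 w18 w19 w20 w21 w22 w23 w24 := rfl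

theorem qb_4 (w4 w5 w6 w7 w8 w9 w10 w11 w12 w13 w14 w15 w16 w17 w18 w19 w20 w21 w22 w23 w24 : ℕ) :
    Nat.mul w4 (Nat.add (Nat.mul w4 (Nat.add (Nat.mul w4 (Ker.KB Ker.qbt4 Ker.qbt4 Ker.qbt4))
      (sumd1 Ker.KB Ker.qbt4 [Ker.qbt5, Ker.qbt6, Ker.qbt7, Ker.qbt8, Ker.qbt9, Ker.qbt10, Ker.qbt11, Ker.qbt12, Ker.qbt13, Ker.qbt14, Ker.qbt15, Ker.qbt16, Ker.qbt17, Ker.qbt18, Ker.qbt19, Ker.qbt20, Ker.qbt21, Ker.qbt22, Ker.qbt23, Ker.qbt24] [w5, w6, w7, w8, w9, w10, w11, w12, w13, w14, w15, w16, w17, w18, w19, w20, w21, w22, w23, w24])))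
      (sumb1 Ker.KB Ker.qbt4 [Ker.qbt5, Ker.qbt6, Ker.qbt7, Ker.qbt8, Ker.qbt9, Ker.qbt10, Ker.qbt11, Ker.qbt12, Ker.qbt13, Ker.qbt14, Ker.qbt15, Ker.qbt16, Ker.qbt17, Ker.qbt18, Ker.qbt19, Ker.qbt20, Ker.qbt21, Ker.qbt22, Ker.qbt23, Ker.qbt24] [w5, w6, w7, w8, w9, w10, w11, w12, w13, w14, w15, w16, w17, w18, w19, w20, w21, w22, w23, w24])) = Ker.qb4 w4 w5 w6 w7 w8 w9 w10 w11 w12 w13 w14 w15 w16 w17 w18 w19 w20 w21 w22 w23 w24 := rfl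

theorem qb_5 (w5 w6 w7 w8 w9 w10 w11 w12 w13 w14 w15 w16 w17 w18 w19 w20 w21 w22 w23 w24 : ℕ) :
    Nat.mul w5 (Nat.add (Nat.mul w5 (Nat.add (Nat.mul w5 (Ker.KB Ker.qbt5 Ker.qbt5 Ker.qbt5))
      (sumd1 Ker.KB Ker.qbt5 [Ker.qbt6, Ker.qbt7, Ker.qbt8, Ker.qbt9, Ker.qbt10, Ker.qbt11, Ker.qbt12, Ker.qbt13, Ker.qbt14, Ker.qbt15, Ker.qbt16, Ker.qbt17, Ker.qbt18, Ker.qbt19, Ker.qbt20, Ker.qbt21, Ker.qbt22, Ker.qbt23, Ker.qbt24] [w6, w7, w8, w9, w10, w11, w12, w13, w14, w15, w16, w17, w18, w19, w20, w21, w22, w23, w24])))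
      (sumb1 Ker.KB Ker.qbt5 [Ker.qbt6, Ker.qbt7, Ker.qbt8, Ker.qbt9, Ker.qbt10, Ker.qbt11, Ker.qbt12, Ker.qbt13, Ker.qbt14, Ker.qbt15, Ker.qbt16, Ker.qbt17, Ker.qbt18, Ker.qbt19, Ker.qbt20, Ker.qbt21, Ker.qbt22, Ker.qbt23, Ker.qbt24] [w6, w7, w8, w9, w10, w11, w12, w13, w14, w15, w16, w17, w18, w19, w20, w21, w22, w23, w24])) = Ker.qb5 w5 w6 w7 w8 w9 w10 w11 w12 w13 w14 w15 w16 w17 w18 w19 w20 w21 w22 w23 w24 := rfl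

theorem qb_6 (w6 w7 w8 w9 w10 w11 w12 w13 w14 w15 w16 w17 w18 w19 w20 w21 w22 w23 w24 : ℕ) :
    Nat.mul w6 (Nat.add (Nat.mul w6 (Nat.add (Nat.mul w6 (Ker.KB Ker.qbt6 Ker.qbt6 Ker.qbt6))
      (sumd1 Ker.KB Ker.qbt6 [Ker.qbt7, Ker.qbt8, Ker.qbt9, Ker.qbt10, Ker.qbt11, Ker.qbt12, Ker.qbt13, Ker.qbt14, Ker.qbt15, Ker.qbt16, Ker.qbt17, Ker.qbt18, Ker.qbt19, Ker.qbt20, Ker.qbt21, Ker.qbt22, Ker.qbt23, Ker.qbt24] [w7, w8, w9, w10, w11, w12, w13, w14, w15, w16, w17, w18, w19, w20, w21, w22, w23, w24])))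
      (sumb1 Ker.KB Ker.qbt6 [Ker.qbt7, Ker.qbt8, Ker.qbt9, Ker.qbt10, Ker.qbt11, Ker.qbt12, Ker.qbt13, Ker.qbt14, Ker.qbt15, Ker.qbt16, Ker.qbt17, Ker.qbt18, Ker.qbt19, Ker.qbt20, Ker.qbt21, Ker.qbt22, Ker.qbt23, Ker.qbt24] [w7, w8, w9, w10, w11, w12, w13, w14, w15, w16, w17, w18, w19, w20, w21, w22, w23, w24])) = Ker.qb6 w6 w7 w8 w9 w10 w11 w12 w13 w14 w15 w16 w17 w18 w19 w20 w21 w22 w23 w24 := rfl

theorem qb_7 (w7 w8 w9 w10 w11 w12 w13 w14 w15 w16 w17 w18 w19 w20 w21 w22 w23 w24 : ℕ) :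
    Nat.mul w7 (Nat.add (Nat.mul w7 (Nat.add (Nat.mul w7 (Ker.KB Ker.qbt7 Ker.qbt7 Ker.qbt7))
      (sumd1 Ker.KB Ker.qbt7 [Ker.qbt8, Ker.qbt9, Ker.qbt10, Ker.qbt11, Ker.qbt12, Ker.qbt13, Ker.qbt14, Ker.qbt15, Ker.qbt16, Ker.qbt17, Ker.qbt18, Ker.qbt19, Ker.qbt20, Ker.qbt21, Ker.qbt22, Ker.qbt23, Ker.qbt24] [w8, w9, w10, w11, w12, w13, w14, w15, w16, w17, w18, w19, w20, w21, w22, w23, w24])))
      (sumb1 Ker.KB Ker.qbt7 [Ker.qbt8, Ker.qbt9, Ker.qbt10, Ker.qbt11, Ker.qbt12, Ker.qbt13, Ker.qbt14, Ker.qbt15, Ker.qbt16, Ker.qbt17, Ker.qbt18, Ker.qbt19, Ker.qbt20, Ker.qbt21, Ker.qbt22, Ker.qbt23, Ker.qbt24] [w8, w9, w10, w11, w12, w13, w14, w15, w16, w17, w18, w19, w20, w21, w22, w23, w24])) = Ker.qb7 w7 w8 w9 w10 w11 w12 w13 w14 w15 w16 w17 w18 w19 w20 w21 w22 w23 w24 := rfl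

theorem qb_8 (w8 w9 w10 w11 w12 w13 w14 w15 w16 w17 w18 w19 w20 w21 w22 w23 w24 : ℕ) :
    Nat.mul w8 (Nat.add (Nat.mul w8 (Nat.add (Nat.mul w8 (Ker.KB Ker.qbt8 Ker.qbt8 Ker.qbt8))
      (sumd1 Ker.KB Ker.qbt8 [Ker.qbt9, Ker.qbt10, Ker.qbt11, Ker.qbt12, Ker.qbt13, Ker.qbt14, Ker.qbt15, Ker.qbt16, Ker.qbt17, Ker.qbt18, Ker.qbt19, Ker.qbt20, Ker.qbt21, Ker.qbt22, Ker.qbt23, Ker.qbt24] [w9, w10, w11, w12, w13, w14, w15, w16, w17, w18, w19, w20, w21, w22, w23, w24])))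
      (sumb1 Ker.KB Ker.qbt8 [Ker.qbt9, Ker.qbt10, Ker.qbt11, Ker.qbt12, Ker.qbt13, Ker.qbt14, Ker.qbt15, Ker.qbt16, Ker.qbt17, Ker.qbt18, Ker.qbt19, Ker.qbt20, Ker.qbt21, Ker.qbt22, Ker.qbt23, Ker.qbt24] [w9, w10, w11, w12, w13, w14, w15, w16, w17, w18, w19, w20, w21, w22, w23, w24])) = Ker.qb8 w8 w9 w10 w11 w12 w13 w14 w15 w16 w17 w18 w19 w20 w21 w22 w23 w24 := rfl

theorem qb_9 (w9 w10 w11 w12 w13 w14 w15 w16 w17 w18 w19 w20 w21 w22 w23 w24 : ℕ) :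
    Nat.mul w9 (Nat.add (Nat.mul w9 (Nat.add (Nat.mul w9 (Ker.KB Ker.qbt9 Ker.qbt9 Ker.qbt9))
      (sumd1 Ker.KB Ker.qbt9 [Ker.qbt10, Ker.qbt11, Ker.qbt12, Ker.qbt13, Ker.qbt14, Ker.qbt15, Ker.qbt16, Ker.qbt17, Ker.qbt18, Ker.qbt19, Ker.qbt20, Ker.qbt21, Ker.qbt22, Ker.qbt23, Ker.qbt24] [w10, w11, w12, w13, w14, w15, w16, w17, w18, w19, w20, w21, w22, w23, w24])))
      (sumb1 Ker.KB Ker.qbt9 [Ker.qbt10, Ker.qbt11, Ker.qbt12, Ker.qbt13, Ker.qbt14, Ker.qbt15, Ker.qbt16, Ker.qbt17, Ker.qbt18, Ker.qbt19, Ker.qbt20, Ker.qbt21, Ker.qbt22, Ker.qbt23, Ker.qbt24] [w10, w11, w12, w13, w14, w15, w16, w17, w18, w19, w20, w21, w22, w23, w24])) = Ker.qb9 w9 w10 w11 w12 w13 w14 w15 w16 w17 w18 w19 w20 w21 w22 w23 w24 := rfl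

theorem qb_10 (w10 w11 w12 w13 w14 w15 w16 w17 w18 w19 w20 w21 w22 w23 w24 : ℕ) :
    Nat.mul w10 (Nat.add (Nat.mul w10 (Nat.add (Nat.mul w10 (Ker.KB Ker.qbt10 Ker.qbt10 Ker.qbt10))
      (sumd1 Ker.KB Ker.qbt10 [Ker.qbt11, Ker.qbt12, Ker.qbt13, Ker.qbt14, Ker.qbt15, Ker.qbt16, Ker.qbt17, Ker.qbt18, Ker.qbt19, Ker.qbt20, Ker.qbt21, Ker.qbt22, Ker.qbt23, Ker.qbt24] [w11, w12, w13, w14, w15, w16, w17, w18, w19, w20, w21, w22, w23, w24])))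
      (sumb1 Ker.KB Ker.qbt10 [Ker.qbt11, Ker.qbt12, Ker.qbt13, Ker.qbt14, Ker.qbt15, Ker.qbt16, Ker.qbt17, Ker.qbt18, Ker.qbt19, Ker.qbt20, Ker.qbt21, Ker.qbt22, Ker.qbt23, Ker.qbt24] [w11, w12, w13, w14, w15, w16, w17, w18, w19, w20, w21, w22, w23, w24])) = Ker.qb10 w10 w11 w12 w13 w14 w15 w16 w17 w18 w19 w20 w21 w22 w23 w24 := rfl

theorem qb_11 (w11 w12 w13 w14 w15 w16 w17 w18 w19 w20 w21 w22 w23 w24 : ℕ) :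
    Nat.mul w11 (Nat.add (Nat.mul w11 (Nat.add (Nat.mul w11 (Ker.KB Ker.qbt11 Ker.qbt11 Ker.qbt11))
      (sumd1 Ker.KB Ker.qbt11 [Ker.qbt12, Ker.qbt13, Ker.qbt14, Ker.qbt15, Ker.qbt16, Ker.qbt17, Ker.qbt18, Ker.qbt19, Ker.qbt20, Ker.qbt21, Ker.qbt22, Ker.qbt23, Ker.qbt24] [w12, w13, w14, w15, w16, w17, w18, w19, w20, w21, w22, w23, w24])))
      (sumb1 Ker.KB Ker.qbt11 [Ker.qbt12, Ker.qbt13, Ker.qbt14, Ker.qbt15, Ker.qbt16, Ker.qbt17, Ker.qbt18, Ker.qbt19, Ker.qbt20, Ker.qbt21, Ker.qbt22, Ker.qbt23, Ker.qbt24] [w12, w13, w14, w15, w16, w17, w18, w19, w20, w21, w22, w23, w24])) = Ker.qb11 w11 w12 w13 w14 w15 w16 w17 w18 w19 w20 w21 w22 w23 w24 := rfl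

theorem qb_12 (w12 w13 w14 w15 w16 w17 w18 w19 w20 w21 w22 w23 w24 : ℕ) :
    Nat.mul w12 (Nat.add (Nat.mul w12 (Nat.add (Nat.mul w12 (Ker.KB Ker.qbt12 Ker.qbt12 Ker.qbt12))
      (sumd1 Ker.KB Ker.qbt12 [Ker.qbt13, Ker.qbt14, Ker.qbt15, Ker.qbt16, Ker.qbt17, Ker.qbt18, Ker.qbt19, Ker.qbt20, Ker.qbt21, Ker.qbt22, Ker.qbt23, Ker.qbt24] [w13, w14, w15, w16, w17, w18, w19, w20, w21, w22, w23, w24])))
      (sumb1 Ker.KB Ker.qbt12 [Ker.qbt13, Ker.qbt14, Ker.qbt15, Ker.qbt16, Ker.qbt17, Ker.qbt18, Ker.qbt19, Ker.qbt20, Ker.qbt21, Ker.qbt22, Ker.qbt23, Ker.qbt24] [w13, w14, w15, w16, w17, w18, w19, w20, w21, w22, w23, w24])) = Ker.qb12 w12 w13 w14 w15 w16 w17 w18 w19 w20 w21 w22 w23 w24 := rfl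

theorem qb_13 (w13 w14 w15 w16 w17 w18 w19 w20 w21 w22 w23 w24 : ℕ) :
    Nat.mul w13 (Nat.add (Nat.mul w13 (Nat.add (Nat.mul w13 (Ker.KB Ker.qbt13 Ker.qbt13 Ker.qbt13))
      (sumd1 Ker.KB Ker.qbt13 [Ker.qbt14, Ker.qbt15, Ker.qbt16, Ker.qbt17, Ker.qbt18, Ker.qbt19, Ker.qbt20, Ker.qbt21, Ker.qbt22, Ker.qbt23, Ker.qbt24] [w14, w15, w16, w17, w18, w19, w20, w21, w22, w23, w24])))
      (sumb1 Ker.KB Ker.qbt13 [Ker.qbt14, Ker.qbt15, Ker.qbt16, Ker.qbt17, Ker.qbt18, Ker.qbt19, Ker.qbt20, Ker.qbt21, Ker.qbt22, Ker.qbt23, Ker.qbt24] [w14, w15, w16, w17, w18, w19, w20, w21, w22, w23, w24])) = Ker.qb13 w13 w14 w15 w16 w17 w18 w19 w20 w21 w22 w23 w24 := rfl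

theorem qb_14 (w14 w15 w16 w17 w18 w19 w20 w21 w22 w23 w24 : ℕ) :
    Nat.mul w14 (Nat.add (Nat.mul w14 (Nat.add (Nat.mul w14 (Ker.KB Ker.qbt14 Ker.qbt14 Ker.qbt14))
      (sumd1 Ker.KB Ker.qbt14 [Ker.qbt15, Ker.qbt16, Ker.qbt17, Ker.qbt18, Ker.qbt19, Ker.qbt20, Ker.qbt21, Ker.qbt22, Ker.qbt23, Ker.qbt24] [w15, w16, w17, w18, w19, w20, w21, w22, w23, w24])))
      (sumb1 Ker.KB Ker.qbt14 [Ker.qbt15, Ker.qbt16, Ker.qbt17, Ker.qbt18, Ker.qbt19, Ker.qbt20, Ker.qbt21, Ker.qbt22, Ker.qbt23, Ker.qbt24] [w15, w16, w17, w18, w19, w20, w21, w22, w23, w24])) = Ker.qb14 w14 w15 w16 w17 w18 w19 w20 w21 w22 w23 w24 := rfl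

theorem qb_15 (w15 w16 w17 w18 w19 w20 w21 w22 w23 w24 : ℕ) :
    Nat.mul w15 (Nat.add (Nat.mul w15 (Nat.add (Nat.mul w15 (Ker.KB Ker.qbt15 Ker.qbt15 Ker.qbt15))
      (sumd1 Ker.KB Ker.qbt15 [Ker.qbt16, Ker.qbt17, Ker.qbt18, Ker.qbt19, Ker.qbt20, Ker.qbt21, Ker.qbt22, Ker.qbt23, Ker.qbt24] [w16, w17, w18, w19, w20, w21, w22, w23, w24])))
      (sumb1 Ker.KB Ker.qbt15 [Ker.qbt16, Ker.qbt17, Ker.qbt18, Ker.qbt19, Ker.qbt20, Ker.qbt21, Ker.qbt22, Ker.qbt23, Ker.qbt24] [w16, w17, w18, w19, w20, w21, w22, w23, w24])) = Ker.qb15 w15 w16 w17 w18 w19 w20 w21 w22 w23 w24 := rfl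

theorem qb_16 (w16 w17 w18 w19 w20 w21 w22 w23 w24 : ℕ) :
    Nat.mul w16 (Nat.add (Nat.mul w16 (Nat.add (Nat.mul w16 (Ker.KB Ker.qbt16 Ker.qbt16 Ker.qbt16))
      (sumd1 Ker.KB Ker.qbt16 [Ker.qbt17, Ker.qbt18, Ker.qbt19, Ker.qbt20, Ker.qbt21, Ker.qbt22, Ker.qbt23, Ker.qbt24] [w17, w18, w19, w20, w21, w22, w23, w24])))
      (sumb1 Ker.KB Ker.qbt16 [Ker.qbt17, Ker.qbt18, Ker.qbt19, Ker.qbt20, Ker.qbt21, Ker.qbt22, Ker.qbt23, Ker.qbt24] [w17, w18, w19, w20, w21, w22, w23, w24])) = Ker.qb16 w16 w17 w18 w19 w20 w21 w22 w23 w24 := rfl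

theorem qb_17 (w17 w18 w19 w20 w21 w22 w23 w24 : ℕ) :
    Nat.mul w17 (Nat.add (Nat.mul w17 (Nat.add (Nat.mul w17 (Ker.KB Ker.qbt17 Ker.qbt17 Ker.qbt17))
      (sumd1 Ker.KB Ker.qbt17 [Ker.qbt18, Ker.qbt19, Ker.qbt20, Ker.qbt21, Ker.qbt22, Ker.qbt23, Ker.qbt24] [w18, w19, w20, w21, w22, w23, w24])))
      (sumb1 Ker.KB Ker.qbt17 [Ker.qbt18, Ker.qbt19, Ker.qbt20, Ker.qbt21, Ker.qbt22, Ker.qbt23, Ker.qbt24] [w18, w19, w20, w21, w22, w23, w24])) = Ker.qb17 w17 w18 w19 w20 w21 w22 w23 w24 := rfl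

theorem qb_18 (w18 w19 w20 w21 w22 w23 w24 : ℕ) :
    Nat.mul w18 (Nat.add (Nat.mul w18 (Nat.add (Nat.mul w18 (Ker.KB Ker.qbt18 Ker.qbt18 Ker.qbt18))
      (sumd1 Ker.KB Ker.qbt18 [Ker.qbt19, Ker.qbt20, Ker.qbt21, Ker.qbt22, Ker.qbt23, Ker.qbt24] [w19, w20, w21, w22, w23, w24])))
      (sumb1 Ker.KB Ker.qbt18 [Ker.qbt19, Ker.qbt20, Ker.qbt21, Ker.qbt22, Ker.qbt23, Ker.qbt24] [w19, w20, w21, w22, w23, w24])) = Ker.qb18 w18 w19 w20 w21 w22 w23 w24 := rfl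

theorem qb_19 (w19 w20 w21 w22 w23 w24 : ℕ) :
    Nat.mul w19 (Nat.add (Nat.mul w19 (Nat.add (Nat.mul w19 (Ker.KB Ker.qbt19 Ker.qbt19 Ker.qbt19))
      (sumd1 Ker.KB Ker.qbt19 [Ker.qbt20, Ker.qbt21, Ker.qbt22, Ker.qbt23, Ker.qbt24] [w20, w21, w22, w23, w24])))
      (sumb1 Ker.KB Ker.qbt19 [Ker.qbt20, Ker.qbt21, Ker.qbt22, Ker.qbt23, Ker.qbt24] [w20, w21, w22, w23, w24])) = Ker.qb19 w19 w20 w21 w22 w23 w24 := rfl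

theorem qb_20 (w20 w21 w22 w23 w24 : ℕ) :
    Nat.mul w20 (Nat.add (Nat.mul w20 (Nat.add (Nat.mul w20 (Ker.KB Ker.qbt20 Ker.qbt20 Ker.qbt20))
      (sumd1 Ker.KB Ker.qbt20 [Ker.qbt21, Ker.qbt22, Ker.qbt23, Ker.qbt24] [w21, w22, w23, w24])))
      (sumb1 Ker.KB Ker.qbt20 [Ker.qbt21, Ker.qbt22, Ker.qbt23, Ker.qbt24] [w21, w22, w23, w24])) = Ker.qb20 w20 w21 w22 w23 w24 := rfl

theorem qb_21 (w21 w22 w23 w24 : ℕ) :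
    Nat.mul w21 (Nat.add (Nat.mul w21 (Nat.add (Nat.mul w21 (Ker.KB Ker.qbt21 Ker.qbt21 Ker.qbt21))
      (sumd1 Ker.KB Ker.qbt21 [Ker.qbt22, Ker.qbt23, Ker.qbt24] [w22, w23, w24])))
      (sumb1 Ker.KB Ker.qbt21 [Ker.qbt22, Ker.qbt23, Ker.qbt24] [w22, w23, w24])) = Ker.qb21 w21 w22 w23 w24 := rfl

theorem qb_22 (w22 w23 w24 : ℕ) :
    Nat.mul w22 (Nat.add (Nat.mul w22 (Nat.add (Nat.mul w22 (Ker.KB Ker.qbt22 Ker.qbt22 Ker.qbt22))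
      (sumd1 Ker.KB Ker.qbt22 [Ker.qbt23, Ker.qbt24] [w23, w24])))
      (sumb1 Ker.KB Ker.qbt22 [Ker.qbt23, Ker.qbt24] [w23, w24])) = Ker.qb22 w22 w23 w24 := rfl

theorem qb_23 (w23 w24 : ℕ) :
    Nat.mul w23 (Nat.add (Nat.mul w23 (Nat.add (Nat.mul w23 (Ker.KB Ker.qbt23 Ker.qbt23 Ker.qbt23))
      (sumd1 Ker.KB Ker.qbt23 [Ker.qbt24] [w24])))
      (sumb1 Ker.KB Ker.qbt23 [Ker.qbt24] [w24])) = Ker.qb23 w23 w24 := rfl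

theorem qb_24 (w24 : ℕ) :
    Nat.mul w24 (Nat.add (Nat.mul w24 (Nat.add (Nat.mul w24 (Ker.KB Ker.qbt24 Ker.qbt24 Ker.qbt24))
      (sumd1 Ker.KB Ker.qbt24 [] [])))
      (sumb1 Ker.KB Ker.qbt24 [] [])) = Ker.qb24 w24 := rfl

theorem qb_all (w0 w1 w2 w3 w4 w5 w6 w7 w8 w9 w10 w11 w12 w13 w14 w15 w16 w17 w18 w19 w20 w21 w22 w23 w24 : ℕ) :
    suma1 Ker.KB Ker.qbty [w0, w1, w2, w3, w4, w5, w6, w7, w8, w9, w10, w11, w12, w13, w14, w15, w16, w17, w18, w19, w20, w21, w22, w23, w24] = Ker.qb w0 w1 w2 w3 w4 w5 w6 w7 w8 w9 w10 w11 w12 w13 w14 w15 w16 w17 w18 w19 w20 w21 w22 w23 w24 := by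
  unfold Ker.qb Ker.qbty
  simp only [suma1, qb_0, qb_1, qb_2, qb_3, qb_4, qb_5, qb_6, qb_7, qb_8, qb_9, qb_10, qb_11, qb_12, qb_13, qb_14, qb_15, qb_16, qb_17, qb_18, qb_19, qb_20, qb_21, qb_22, qb_23, qb_24]

theorem qb_ty : Ker.typesB = Ker.qbty := rfl


/-- The value is symmetric, from the symmetry of the star. -/
theorem perm_eq {n k : ℕ} {D : ℝ} {W : ℕ} {K : List ℕ → List ℕ → List ℕ → ℕ}
    {P : ℕ → List ℕ → ℝ}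
    (hK : ∀ a b c : List ℕ, a.sum + b.sum + c.sum ≤ n → ∃ F : ℕ → ℕ,
      (∀ i, F i < W) ∧ K a b c = ∑ i ∈ Finset.range k, F i * W ^ i ∧
      ∀ i < k, (F i : ℝ) = D * 3 ^ (a.sum + b.sum + c.sum) *
        (star [] ![a, b, c]).E (fun _ => wu) (P i))
    {a b c a' b' c' : List ℕ} (hs : a.sum + b.sum + c.sum ≤ n)
    (hs' : a'.sum + b'.sum + c'.sum = a.sum + b.sum + c.sum)
    (hE : ∀ φ : List ℕ → ℝ, (star [] ![a', b', c']).E (fun _ => wu) φ =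
      (star [] ![a, b, c]).E (fun _ => wu) φ) : K a' b' c' = K a b c := by
  obtain ⟨F, _, h2, h3⟩ := hK a b c hs
  obtain ⟨F', _, h2', h3'⟩ := hK a' b' c' (by omega)
  rw [h2, h2']
  refine Finset.sum_congr rfl fun i hi => ?_
  have hi' := Finset.mem_range.1 hi
  have : (F' i : ℝ) = F i := by
    rw [h3 i hi', h3' i hi', hs', hE]
  rw [Nat.cast_injective this]

theorem sym_of {n k : ℕ} {D : ℝ} {W : ℕ} {K : List ℕ → List ℕ → List ℕ → ℕ}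
    {P : ℕ → List ℕ → ℝ}
    (hK : ∀ a b c : List ℕ, a.sum + b.sum + c.sum ≤ n → ∃ F : ℕ → ℕ,
      (∀ i, F i < W) ∧ K a b c = ∑ i ∈ Finset.range k, F i * W ^ i ∧
      ∀ i < k, (F i : ℝ) = D * 3 ^ (a.sum + b.sum + c.sum) *
        (star [] ![a, b, c]).E (fun _ => wu) (P i))
    (hS : ∀ (σ : Equiv.Perm (Fin 3)) (L : Fin 3 → List ℕ) (φ : List ℕ → ℝ),
      (star [] L).E (fun _ => wu) φ = (star [] (fun i => L (σ i))).E (fun _ => wu) φ)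
    {l : List (List ℕ)} {m : ℕ} (hl : ∀ a ∈ l, a.sum ≤ m) (hm : 3 * m ≤ n) : Sym K l := by
  intro a ha b hb c hc
  have h1 := hl a ha
  have h2 := hl b hb
  have h3 := hl c hc
  constructor
  · apply perm_eq hK (by omega) (by omega)
    intro φ
    rw [hS (Equiv.swap 0 1) ![a, b, c] φ]
    congr 2
    funext i
    fin_cases i <;> rfl
  · apply perm_eq hK (by omega) (by omega)
    intro φ
    rw [hS (Equiv.swap 1 2) ![a, b, c] φ]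
    congr 2
    funext i
    fin_cases i <;> rfl


theorem stepA (hK : S_KA)
    (hS : ∀ (σ : Equiv.Perm (Fin 3)) (L : Fin 3 → List ℕ) (φ : List ℕ → ℝ),
      (star [] L).E (fun _ => wu) φ = (star [] (fun i => L (σ i))).E (fun _ => wu) φ)
    (hW : S_WTP) (v : ℕ) : Ker.fstepA v = Ker.stepA v := by
  have hsym : Sym Ker.KA Ker.typesA :=
    sym_of (m := 7) hK hS (by decide) (by norm_num)
  have h1 : Ker.qau v = Ker.suma Ker.KA Ker.typesA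
      ((Ker.unp Ker.typesA v).map fun p => p.1 * 3 ^ (7 - p.2.sum)) := by
    rw [suma_eq hsym _ (fun c hc => hc), qa_ty]
    unfold Ker.qau
    simp only [KB.st_eq]
    rw [← qa_all]
    rfl
  unfold Ker.fstepA Ker.stepA
  rw [hW, h1]

theorem stepB (hK : S_KB)
    (hS : ∀ (σ : Equiv.Perm (Fin 3)) (L : Fin 3 → List ℕ) (φ : List ℕ → ℝ),
      (star [] L).E (fun _ => wu) φ = (star [] (fun i => L (σ i))).E (fun _ => wu) φ)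
    (hW : S_WTP) (v : ℕ) : Ker.fstepB v = Ker.stepB v := by
  have hsym : Sym Ker.KB Ker.typesB :=
    sym_of (m := 24) hK hS (by decide) (by norm_num)
  have h1 : Ker.qbu v = Ker.suma Ker.KB Ker.typesB
      ((Ker.unp Ker.typesB v).map fun p => p.1 * 3 ^ (24 - p.2.sum)) := by
    rw [suma_eq hsym _ (fun c hc => hc), qb_ty]
    unfold Ker.qbu
    simp only [KB.st_eq]
    rw [← qb_all]
    rfl
  unfold Ker.fstepB Ker.stepB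
  rw [hW, h1]

end Pool.Agent.W847.T3.Glue
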