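import Pool.Agent.W847.T3.Fin

/-!
# Recurrence from the parts
-/

set_option autoImplicit false

open Finset MeasureTheory ProbabilityTheory

namespace Pool.Agent.W847.T3

theorem last (hW : S_WTS) (hC : S_CLOSE) (hD : S_DSTEP) (hA : S_STEPA) (hB : S_STEPB)
    (hV : S_CONV) (hFA : Ker.fstepA = Ker.stepA) (hFB : Ker.fstepB = Ker.stepB) (hL : S_LEV) (hS : S_STC) (hR : S_ROOT) (hP : S_PROB)
    (Ω : Type) [MeasurableSpace Ω] (P : Measure Ω) [IsProbabilityMeasure P]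
    (ξ : List (Fin 3) → ℕ → Ω → Fin 3 × Fin 4) (h1 : ∀ v k, Measurable (ξ v k))
    (h2 : iIndepFun (fun p : List (Fin 3) × ℕ => ξ p.1 p.2) P)
    (h3 : ∀ v k (c : Fin 3 × Fin 4), P (ξ v k ⁻¹' {c}) = 1 / 12)
    (S : List (Fin 3) → ℕ → Ω → List (Fin 3)) (h4 : ∀ v ω, S v 0 ω = v)
    (h5 : ∀ v k ω, S v (k + 1) ω =
        if S v k ω = [] then [(ξ v k ω).1]
        else if (ξ v k ω).2 = 0 then (S v k ω).tail
        else (ξ v k ω).1 :: S v k ω) :
    ∀ᵐ ω ∂P, Set.Infinite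
        {p : List (Fin 3) × ℕ |
          (∀ A : Set (List (Fin 3)), [] ∈ A →
              (∀ v ∈ A, ∀ k, S v k ω ∈ A) → p.1 ∈ A) ∧
          S p.1 p.2 ω = []} := by
  have key : ∀ m0 : ℕ, ∀ᵐ ω ∂P, ∃ T : Finset (List (Fin 3) × ℕ), m0 ≤ T.card ∧ ∀ q ∈ T,
      (∀ A : Set (List (Fin 3)), [] ∈ A → (∀ v ∈ A, ∀ k, S v k ω ∈ A) → q.1 ∈ A) ∧
        S q.1 q.2 ω = [] := by
    intro m0
    rw [ae_iff]
    have h0 : P.real {ω | ¬ ∃ T : Finset (List (Fin 3) × ℕ), m0 ≤ T.card ∧ ∀ q ∈ T,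
        (∀ A : Set (List (Fin 3)), [] ∈ A → (∀ v ∈ A, ∀ k, S v k ω ∈ A) → q.1 ∈ A) ∧
          S q.1 q.2 ω = []} = 0 := by
      apply le_antisymm _ measureReal_nonneg
      apply le_of_forall_pos_le_add
      intro ε hε
      obtain ⟨n, m, hn, hle⟩ := small hW hC hD hA hB hV hFA hFB hL hS hR m0 ε hε
      rw [zero_add]
      exact (hP Ω P ξ h1 h2 h3 S h4 (fun v k ω => by rw [h5]; rfl) n hn m m0).trans hle
    rw [measureReal_def, ENNReal.toReal_eq_zero_iff] at h0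
    rcases h0 with h0 | h0
    · exact h0
    · exact absurd h0 (measure_ne_top _ _)
  rw [← ae_all_iff] at key
  filter_upwards [key] with ω hω
  intro hfin
  obtain ⟨T, hT1, hT2⟩ := hω (hfin.toFinset.card + 1)
  have hsub : T ⊆ hfin.toFinset := by
    intro q hq
    rw [Set.Finite.mem_toFinset]
    exact hT2 q hq
  have := Finset.card_le_card hsub
  omega

end Pool.Agent.W847.T3
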