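import Pool.Agent.W847.T3.T_WTS

set_option autoImplicit false

open Finset

namespace Pool.Agent.W847.T3.T_CLOSE

open T_WTS

lemma C_close (d : ℕ) : |C d - 2 / 3| ≤ (1 / 3) ^ (d + 1) := by
  induction d with
  | zero => simp only [C]; norm_num
  | succ d ih =>
    have h := C_lb d
    have h1 : C (d + 1) - 2 / 3 = (C d - 2 / 3) / (1 + 3 * C d) := by
      simp only [C]
      have : 1 + 3 * C d ≠ 0 := by
        have : 0 < 1 + 3 * C d := by linarith
        exact this.ne'
      field_simp
      ring
    rw [h1, abs_div, abs_of_pos (show 0 < 1 + 3 * C d by linarith)]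
    rw [pow_succ, ← div_eq_mul_one_div]
    apply div_le_div₀ (by positivity) ih (by norm_num) (by linarith)

lemma U_close (n K : ℕ) (l : ℕ) (hl : l + K ≤ n) :
    |U n l - 2 / 3| ≤ (1 / 3) ^ l + (1 / 3) ^ (K + 1) := by
  induction l with
  | zero =>
    simp only [U]
    have : (0 : ℝ) ≤ (1 / 3) ^ (K + 1) := by positivity
    rw [show (0 : ℝ) - 2 / 3 = -(2 / 3) by ring, abs_neg, abs_of_pos (by norm_num)]
    simp only [pow_zero]
    linarith
  | succ l ih =>
    have h := ih (by omega)
    have hc : |cc n l - 2 / 3| ≤ (1 / 3) ^ (K + 1) := by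
      refine (C_close _).trans ?_
      apply pow_le_pow_of_le_one (by norm_num) (by norm_num)
      omega
    have h1 := cc_lb n l
    have h2 := U_nonneg n l
    have h3 : U n (l + 1) - 2 / 3 =
        ((U n l - 2 / 3) + 2 * (cc n l - 2 / 3)) / (3 * (1 + (U n l + 2 * cc n l))) := by
      simp only [U]
      have : 1 + (U n l + 2 * cc n l) ≠ 0 := by
        have : 0 < 1 + (U n l + 2 * cc n l) := by linarith
        exact this.ne'
      field_simp
      ring
    rw [h3, abs_div, abs_of_pos (show 0 < 3 * (1 + (U n l + 2 * cc n l)) by linarith)]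
    have h4 : |(U n l - 2 / 3) + 2 * (cc n l - 2 / 3)| ≤
        ((1 / 3) ^ l + (1 / 3) ^ (K + 1)) + 2 * (1 / 3) ^ (K + 1) := by
      refine (abs_add_le _ _).trans ?_
      rw [abs_mul, abs_of_pos (show (0 : ℝ) < 2 by norm_num)]
      linarith
    calc |(U n l - 2 / 3) + 2 * (cc n l - 2 / 3)| / (3 * (1 + (U n l + 2 * cc n l)))
        ≤ (((1 / 3) ^ l + (1 / 3) ^ (K + 1)) + 2 * (1 / 3) ^ (K + 1)) / 3 := by
          apply div_le_div₀ (by positivity) h4 (by norm_num) (by linarith)
      _ = (1 / 3) ^ (l + 1) + (1 / 3) ^ (K + 1) := by ring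

theorem main : S_CLOSE := by
  intro η hη
  obtain ⟨K0, hK⟩ := exists_pow_lt_of_lt_one (show 0 < η / 6 by positivity)
    (show (1 / 3 : ℝ) < 1 by norm_num)
  refine ⟨K0 + 1, ?_⟩
  intro n z s a hz hn
  have hW := (main1 n).1 z s a
  by_cases hη1 : 1 ≤ η
  · have hwu : 0 ≤ wu s a := by
      cases s with
      | own => simp only [wu]; norm_num
      | par => simp only [wu]; split_ifs <;> norm_num
      | ch i => simp only [wu]; split_ifs <;> norm_num
    nlinarith
  push Not at hη1
  have hp1 : (1 / 3 : ℝ) ^ (K0 + 1 + 1) ≤ (1 / 3) ^ K0 :=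
    pow_le_pow_of_le_one (by norm_num) (by norm_num) (by omega)
  have hp2 : (1 / 3 : ℝ) ^ z.length ≤ (1 / 3) ^ K0 :=
    pow_le_pow_of_le_one (by norm_num) (by norm_num) (by omega)
  have hp3 : (1 / 3 : ℝ) ^ (n - (z.length + 1) + 1) ≤ (1 / 3) ^ K0 :=
    pow_le_pow_of_le_one (by norm_num) (by norm_num) (by omega)
  have hU := U_close n (K0 + 1) z.length hn
  have hC : |cc n z.length - 2 / 3| ≤ (1 / 3) ^ (n - (z.length + 1) + 1) := C_close _
  have h1 := cc_lb n z.length
  have h2 := U_nonneg n z.length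
  have hU1 := abs_le.mp hU
  have hC1 := abs_le.mp hC
  unfold wq at hW ⊢
  cases s with
  | own =>
    simp only [wl, wu] at hW ⊢
    generalize U n z.length = u at *
    generalize cc n z.length = c at *
    have h4 : 0 ≤ η * (u + 3 * c - 2) := by
      apply mul_nonneg hη.le; linarith
    split_ifs
    · rw [le_div_iff₀ (by linarith)]
      nlinarith
    · rw [le_div_iff₀ (by linarith)]
      nlinarith
  | par =>
    simp only [wl, wu]
    split_ifs
    · linarith
    · linarith
  | ch i =>
    simp only [wl, wu] at hW ⊢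
    generalize U n z.length = u at *
    generalize cc n z.length = c at *
    have h4 : 0 ≤ η * (u + 2 * c - 4 / 3) := by
      apply mul_nonneg hη.le; linarith
    by_cases ha : a = i.succ
    · have ha0 : a ≠ 0 := by
        rw [ha]; exact Fin.succ_ne_zero i
      rw [if_pos ha, if_neg ha0, if_pos ha]
      linarith
    · rw [if_neg ha, if_neg ha]
      split_ifs
      · rw [le_div_iff₀ (by linarith)]
        nlinarith
      · rw [le_div_iff₀ (by linarith)]
        nlinarith

end Pool.Agent.W847.T3.T_CLOSE
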