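import Pool.Agent.W847.T3.Stm

set_option autoImplicit false

open Finset

namespace Pool.Agent.W847.T3.T_COMP

/-- Coordinates. -/
abbrev Q : Type := List (Fin 3) × Side × ℕ

/-- Value at a coordinate. -/
def at' (ω : Stk) (q : Q) : Fin 4 := ω q.1 q.2.1 q.2.2

/-- Change one value. -/
def upd (ω : Stk) (q : Q) (a : Fin 4) : Stk :=
  fun z s m => if (z, s, m) = q then a else ω z s m

lemma at_upd (ω : Stk) (q q' : Q) (a : Fin 4) :
    at' (upd ω q a) q' = if q' = q then a else at' ω q' := rfl

lemma upd_comm (ω : Stk) (q q' : Q) (a a' : Fin 4) (h : q ≠ q') :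
    upd (upd ω q a) q' a' = upd (upd ω q' a') q a := by
  funext z s m
  unfold upd
  by_cases h1 : (z, s, m) = q
  · by_cases h2 : (z, s, m) = q'
    · exact absurd (h1.symm.trans h2) h
    · simp only [h1, h, if_false, if_true]
  · by_cases h2 : (z, s, m) = q'
    · simp only [h2, if_true, Ne.symm h, if_false]
    · simp only [h1, h2, if_false]

variable (w : List (Fin 3) → Side → Fin 4 → ℝ)

/-- Average over a list of coordinates. -/
noncomputable def avg : List Q → (Stk → ℝ) → Stk → ℝ
  | [], G, ω => G ω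
  | q :: l, G, ω => ∑ a, w q.1 q.2.1 a * avg l G (upd ω q a)

lemma avg_perm (G : Stk → ℝ) {l l' : List Q} (h : l.Perm l') :
    ∀ ω, avg w l G ω = avg w l' G ω := by
  induction h with
  | nil => exact fun _ => rfl
  | cons q _ ih =>
    intro ω
    simp only [avg]
    exact Finset.sum_congr rfl fun a _ => by rw [ih]
  | swap q q' l =>
    intro ω
    by_cases h : q = q'
    · rw [h]
    · simp only [avg, Finset.mul_sum]
      rw [Finset.sum_comm]
      refine Finset.sum_congr rfl fun a _ => Finset.sum_congr rfl fun b _ => ?_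
      rw [upd_comm ω q q' a b h]
      ring
  | trans _ _ ih1 ih2 => exact fun ω => (ih1 ω).trans (ih2 ω)

lemma avg_congr (G H : Stk → ℝ) (l : List Q) :
    ∀ ω0 : Stk, (∀ ω, (∀ q, q ∉ l → at' ω q = at' ω0 q) → G ω = H ω) →
      avg w l G ω0 = avg w l H ω0 := by
  induction l with
  | nil => exact fun ω0 h => h ω0 fun _ _ => rfl
  | cons q l ih =>
    intro ω0 h
    simp only [avg]
    refine Finset.sum_congr rfl fun a _ => ?_
    rw [ih (upd ω0 q a)]
    intro ω hω
    refine h ω fun q' hq' => ?_
    rw [List.mem_cons, not_or] at hq'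
    rw [hω q' hq'.2, at_upd, if_neg hq'.1]

lemma avg_mono (hw : Wt w) (G H : Stk → ℝ)
    (h : ∀ ω : Stk, (∀ z s m, 0 < w z s (ω z s m)) → G ω ≤ H ω) (l : List Q) :
    ∀ ω0 : Stk, (∀ z s m, 0 < w z s (ω0 z s m)) → avg w l G ω0 ≤ avg w l H ω0 := by
  induction l with
  | nil => exact fun ω0 h0 => h ω0 h0
  | cons q l ih =>
    intro ω0 h0
    simp only [avg]
    refine Finset.sum_le_sum fun a _ => ?_
    rcases (hw.1 q.1 q.2.1 a).eq_or_lt with h1 | h1
    · rw [← h1, zero_mul, zero_mul]
    · refine mul_le_mul_of_nonneg_left (ih _ ?_) h1.le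
      intro z s m
      unfold upd
      split_ifs with h2
      · rw [← h2] at h1
        exact h1
      · exact h0 z s m

/-- The program reads only coordinates in `l`. -/
def Reads {β : Type} (l : List Q) : Prog β → Cnt → Prop
  | .ret _, _ => True
  | .ask _ z s next, cn => (z, s, cn z s) ∈ l ∧ ∀ a, Reads l (next a) (inc cn z s)

lemma reads_mono {β : Type} {l l' : List Q} (h : l ⊆ l') (P : Prog β) :
    ∀ cn, Reads l P cn → Reads l' P cn := by
  induction P with
  | ret r => exact fun _ _ => trivial
  | ask x z s next ih => exact fun cn hr => ⟨h hr.1, fun a => ih a _ (hr.2 a)⟩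

lemma exists_reads {β : Type} (P : Prog β) : ∀ cn, ∃ l : List Q, Reads l P cn := by
  induction P with
  | ret r => exact fun _ => ⟨[], trivial⟩
  | ask x z s next ih =>
    intro cn
    choose L hL using fun a => ih a (inc cn z s)
    refine ⟨(z, s, cn z s) :: (L 0 ++ L 1 ++ L 2 ++ L 3), List.mem_cons_self, fun a => ?_⟩
    refine reads_mono ?_ _ _ (hL a)
    intro q hq
    rw [List.mem_cons, List.mem_append, List.mem_append, List.mem_append]
    fin_cases a <;> simp_all

lemma reads_erase {β : Type} [DecidableEq Q] {l : List Q} (z0 : List (Fin 3)) (s0 : Side) (m0 : ℕ)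
    (P : Prog β) : ∀ cn : Cnt, m0 < cn z0 s0 → Reads l P cn →
      Reads (l.erase (z0, s0, m0)) P cn := by
  induction P with
  | ret r => exact fun _ _ _ => trivial
  | ask x z s next ih =>
    intro cn hm hr
    refine ⟨?_, fun a => ih a _ ?_ (hr.2 a)⟩
    · have hne : (z, s, cn z s) ≠ (z0, s0, m0) := by
        intro h
        injection h with h1 h2
        injection h2 with h2 h3
        subst h1 h2
        omega
      exact (List.mem_erase_of_ne hne).2 hr.1
    · unfold inc
      split_ifs with h
      · omega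
      · exact hm

lemma E_eq_avg {β : Type} (g : β → ℝ) (P : Prog β) :
    ∀ (cn : Cnt) (l : List Q), l.Nodup → Reads l P cn → ∀ ω0 : Stk, (hw : Wt w) →
      P.E w g = avg w l (fun ω => g (P.runS ω cn).1) ω0 := by
  classical
  induction P with
  | ret r =>
    intro cn l _ _ ω0 hw
    have key : ∀ (l : List Q) (ω0 : Stk), avg w l (fun _ => g r) ω0 = g r := by
      intro l
      induction l with
      | nil => exact fun _ => rfl
      | cons q l ih =>
        intro ω0
        simp only [avg, ih]
        rw [← Finset.sum_mul, hw.2, one_mul]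
    exact (key l ω0).symm
  | ask x z s next ih =>
    intro cn l hl hr ω0 hw
    rw [avg_perm w _ (List.perm_cons_erase hr.1) ω0]
    simp only [avg, Prog.E]
    refine Finset.sum_congr rfl fun a _ => ?_
    congr 1
    have hl' : (l.erase (z, s, cn z s)).Nodup := hl.erase _
    have hr' : Reads (l.erase (z, s, cn z s)) (next a) (inc cn z s) := by
      refine reads_erase z s (cn z s) (next a) _ ?_ (hr.2 a)
      unfold inc
      rw [if_pos ⟨rfl, rfl⟩]
      omega
    rw [ih a (inc cn z s) _ hl' hr' (upd ω0 (z, s, cn z s) a) hw]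
    refine avg_congr w _ _ _ _ fun ω hω => ?_
    have h1 := hω (z, s, cn z s) (fun h => (hl.mem_erase_iff.1 h).1 rfl)
    rw [at_upd, if_pos rfl] at h1
    have h2 : ω z s (cn z s) = a := h1
    simp only [Prog.runS, h2]

theorem main : S_COMP := by
  classical
  intro w hw β γ P Q' g h hyp
  obtain ⟨l1, hl1⟩ := exists_reads P cn0
  obtain ⟨l2, hl2⟩ := exists_reads Q' cn0
  set l : List Q := (l1 ++ l2).dedup with hl
  have hnd : l.Nodup := List.nodup_dedup _
  have h1 : Reads l P cn0 := reads_mono (fun q hq => by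
    rw [hl, List.mem_dedup, List.mem_append]; exact Or.inl hq) _ _ hl1
  have h2 : Reads l Q' cn0 := reads_mono (fun q hq => by
    rw [hl, List.mem_dedup, List.mem_append]; exact Or.inr hq) _ _ hl2
  have hpos : ∀ z s, ∃ a, 0 < w z s a := by
    intro z s
    by_contra hcon
    push Not at hcon
    have h3 : ∑ a, w z s a ≤ 0 := Finset.sum_nonpos fun a _ => hcon a
    rw [hw.2] at h3
    linarith
  choose a0 ha0 using hpos
  rw [E_eq_avg w g P cn0 l hnd h1 (fun z s _ => a0 z s) hw,
    E_eq_avg w h Q' cn0 l hnd h2 (fun z s _ => a0 z s) hw]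
  exact avg_mono w hw _ _ hyp l _ fun z s m => ha0 z s

end Pool.Agent.W847.T3.T_COMP
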