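import Pool.Agent.W847.T3.Stm

set_option autoImplicit false

open Finset

namespace Pool.Agent.W847.T3.T_EXMEAN

lemma dir_zero (z y : List (Fin 3)) (hl : z.length < y.length) (h : dir z y = 0) :
    ¬ z <:+ y := by
  intro hz
  unfold dir at h
  rw [if_pos hz] at h
  obtain ⟨l, rfl⟩ := hz
  rw [List.length_append, Nat.add_sub_cancel, List.take_left] at h
  rcases l.eq_nil_or_concat' with rfl | ⟨l', j, rfl⟩
  · simp at hl
  · rw [List.getLast?_concat] at h
    exact Fin.succ_ne_zero j h

lemma dir_succ (z y : List (Fin 3)) (j : Fin 3) (h : dir z y = j.succ) : (j :: z) <:+ y := by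
  unfold dir at h
  split_ifs at h with hz
  · obtain ⟨l, rfl⟩ := hz
    rw [List.length_append, Nat.add_sub_cancel, List.take_left] at h
    rcases l.eq_nil_or_concat' with rfl | ⟨l', i, rfl⟩
    · exact absurd h.symm (Fin.succ_ne_zero j)
    · rw [List.getLast?_concat] at h
      have h1 : i = j := Fin.succ_injective _ h
      subst h1
      exact ⟨l', by simp⟩
  · exact absurd h.symm (Fin.succ_ne_zero j)

/-- meaning of an entry -/
def En (η : List (Fin 3) → List (Fin 3)) (x z : List (Fin 3)) : Side → Prop
  | .own => z = x
  | .par => z <:+ η x ∧ ¬ z <:+ x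
  | .ch i => (i :: z) <:+ x ∧ ¬ (i :: z) <:+ η x

/-- the invariant -/
structure Iv (n : ℕ) (η : List (Fin 3) → List (Fin 3)) (A : Set (List (Fin 3)))
    (q : List (List (Fin 3) × List (Fin 3) × Side)) (vis rc : List (List (Fin 3))) : Prop where
  nd : (q.map Prod.fst ++ rc).Nodup
  hv : ∀ x ∈ q.map Prod.fst ++ rc, x ∈ vis
  hA : ∀ x ∈ vis, x ∈ A ∧ x.length < n
  hq : ∀ e ∈ q, e.2.1.length < n ∧ En η e.1 e.2.1 e.2.2
  hrc : ∀ x ∈ rc, ∃ j : Fin 3, [j] <:+ x ∧ ¬ [j] <:+ η x

lemma aux (n : ℕ) (η : List (Fin 3) → List (Fin 3)) (hη : ∀ x, x.length < n → (η x).length = n)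
    (A : Set (List (Fin 3)))
    (hcl : ∀ x ∈ A, x.length < n → ∀ v, v <:+ η x → ¬ (v <:+ x) → v.length < n → v ∈ A) (m : ℕ) :
    ∀ (q : List (List (Fin 3) × List (Fin 3) × Side)) (vis rc : List (List (Fin 3))),
      Iv n η A q vis rc → Iv n η A ((expl n m ⟨q, vis, rc⟩).runF η).q
        ((expl n m ⟨q, vis, rc⟩).runF η).vis ((expl n m ⟨q, vis, rc⟩).runF η).rc := by
  induction m with
  | zero => exact fun _ _ _ h => h
  | succ m ih =>
    intro q vis rc hI
    rcases q with _ | ⟨⟨x, z, s⟩, q⟩
    · exact hI
    · have hnd := hI.nd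
      simp only [List.map_cons, List.cons_append, List.nodup_cons] at hnd
      have hvis := hI.hv
      simp only [List.map_cons, List.cons_append, List.mem_cons, forall_eq_or_imp] at hvis
      have hq := hI.hq
      simp only [List.mem_cons, forall_eq_or_imp] at hq
      obtain ⟨⟨hzl, hen⟩, hq'⟩ := hq
      have hxA := hI.hA x hvis.1
      have hlt : z.length < (η x).length := by rw [hη x hxA.2]; exact hzl
      change Iv n η A ((expl n m (adv n x z ⟨q, vis, rc⟩ (dir z (η x)))).runF η).q
        ((expl n m (adv n x z ⟨q, vis, rc⟩ (dir z (η x)))).runF η).vis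
        ((expl n m (adv n x z ⟨q, vis, rc⟩ (dir z (η x)))).runF η).rc
      rcases Fin.eq_zero_or_eq_succ (dir z (η x)) with h0 | ⟨j, hj⟩
      · have hnz := dir_zero z (η x) hlt h0
        rw [h0]
        have hzx : z <:+ x := by
          rcases s with _ | _ | i
          · rw [show z = x from hen]
          · exact absurd hen.1 hnz
          · exact (List.suffix_cons i z).trans hen.1
        rcases z with _ | ⟨i, _ | ⟨y, z'⟩⟩
        · exact absurd (List.nil_suffix) hnz
        · refine ih q vis (x :: rc) ⟨?_, ?_, hI.hA, hq', ?_⟩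
          · rw [List.nodup_middle, List.nodup_cons]
            exact hnd
          · intro v hv
            rw [List.mem_append, List.mem_cons] at hv
            rcases hv with hv | rfl | hv
            · exact hvis.2 v (List.mem_append_left _ hv)
            · exact hvis.1
            · exact hvis.2 v (List.mem_append_right _ hv)
          · intro v hv
            rcases List.mem_cons.1 hv with rfl | hv
            · exact ⟨i, hzx, hnz⟩
            · exact hI.hrc v hv
        · refine ih ((x, y :: z', .ch i) :: q) vis rc ⟨?_, ?_, hI.hA, ?_, hI.hrc⟩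
          · simp only [List.map_cons, List.cons_append, List.nodup_cons]
            exact hnd
          · simp only [List.map_cons, List.cons_append, List.mem_cons, forall_eq_or_imp]
            exact hvis
          · simp only [List.mem_cons, forall_eq_or_imp]
            refine ⟨⟨?_, hzx, hnz⟩, hq'⟩
            simp only [List.length_cons] at hzl ⊢
            omega
      · have hjη := dir_succ z (η x) j hj
        rw [hj]
        have hjx : ¬ (j :: z) <:+ x := by
          intro hc
          rcases s with _ | _ | i
          · have h1 : z = x := hen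
            have h2 := hc.length_le
            rw [h1] at h2
            simp at h2
          · exact hen.2 ((List.suffix_cons j z).trans hc)
          · have h1 := List.suffix_of_suffix_length_le hc hen.1 (by simp)
            have h2 := h1.eq_of_length (by simp)
            rw [h2] at hjη
            exact hen.2 hjη
        change Iv n η A ((expl n m (if n ≤ z.length + 1 then ⟨q, vis, rc⟩
          else if j :: z ∈ vis then ⟨(x, j :: z, .par) :: q, vis, rc⟩
          else ⟨(x, j :: z, .par) :: (j :: z, j :: z, .own) :: q, (j :: z) :: vis,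
            rc⟩)).runF η).q
          ((expl n m (if n ≤ z.length + 1 then ⟨q, vis, rc⟩
          else if j :: z ∈ vis then ⟨(x, j :: z, .par) :: q, vis, rc⟩
          else ⟨(x, j :: z, .par) :: (j :: z, j :: z, .own) :: q, (j :: z) :: vis,
            rc⟩)).runF η).vis
          ((expl n m (if n ≤ z.length + 1 then ⟨q, vis, rc⟩
          else if j :: z ∈ vis then ⟨(x, j :: z, .par) :: q, vis, rc⟩
          else ⟨(x, j :: z, .par) :: (j :: z, j :: z, .own) :: q, (j :: z) :: vis,
            rc⟩)).runF η).rc
        split_ifs with h5 h6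
        · exact ih q vis rc ⟨hnd.2, hvis.2, hI.hA, hq', hI.hrc⟩
        · refine ih _ vis rc ⟨?_, ?_, hI.hA, ?_, hI.hrc⟩
          · simp only [List.map_cons, List.cons_append, List.nodup_cons]
            exact hnd
          · simp only [List.map_cons, List.cons_append, List.mem_cons, forall_eq_or_imp]
            exact hvis
          · simp only [List.mem_cons, forall_eq_or_imp]
            refine ⟨⟨?_, hjη, hjx⟩, hq'⟩
            simp only [List.length_cons]
            omega
        · have hnew : j :: z ∉ q.map Prod.fst ++ rc := fun h => h6 (hvis.2 _ h)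
          have hne : x ≠ j :: z := fun h => h6 (h ▸ hvis.1)
          have hlz : (j :: z).length < n := by
            simp only [List.length_cons]
            omega
          refine ih _ _ rc ⟨?_, ?_, ?_, ?_, hI.hrc⟩
          · simp only [List.map_cons, List.cons_append, List.nodup_cons]
            refine ⟨?_, hnew, hnd.2⟩
            rw [List.mem_cons, not_or]
            exact ⟨hne, hnd.1⟩
          · simp only [List.map_cons, List.cons_append, List.mem_cons, forall_eq_or_imp]
            exact ⟨Or.inr hvis.1, Or.inl trivial, fun v hv => Or.inr (hvis.2 v hv)⟩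
          · intro v hv
            rcases List.mem_cons.1 hv with rfl | hv
            · exact ⟨hcl x hxA.1 hxA.2 _ hjη hjx hlz, hlz⟩
            · exact hI.hA v hv
          · simp only [List.mem_cons, forall_eq_or_imp]
            exact ⟨⟨hlz, hjη, hjx⟩, ⟨hlz, rfl⟩, hq'⟩

theorem main : S_EXMEAN := by
  intro n hn m η hη A hA hcl
  have hn0 : 0 < n := hn
  have h := aux n η hη A hcl m [([], [], .own)] [[]] [] ⟨by simp, by simp, ?_, ?_, by simp⟩
  · refine ⟨(List.nodup_append.1 h.nd).2.1, fun x hx => ?_⟩
    have h1 := h.hv x (List.mem_append_right _ hx)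
    have h2 := h.hA x h1
    exact ⟨h2.1, h2.2, h.hrc x hx⟩
  · intro x hx
    rw [List.mem_singleton] at hx
    subst hx
    exact ⟨hA, by simpa using hn0⟩
  · intro e he
    rw [List.mem_singleton] at he
    subst he
    exact ⟨by simpa using hn0, rfl⟩

end Pool.Agent.W847.T3.T_EXMEAN
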