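import Pool.Agent.W847.T3.Stm

set_option autoImplicit false

open Finset

namespace Pool.Agent.W847.T3.T_EXOK

/-- the invariant -/
structure Good (n : ℕ) (q : List (List (Fin 3) × List (Fin 3) × Side)) (vis : List (List (Fin 3)))
    (B : List (Fin 3) → List (Fin 3) × Side) : Prop where
  nd : (q.map Prod.fst).Nodup
  hq : ∀ e ∈ q, e.1 ∈ vis ∧ e.1.length < n ∧ e.2.1.length < n ∧ B e.1 = (e.2.1, e.2.2)
  hb : ∀ x, x ∉ vis → B x = (x, .own)

lemma w_root (n : ℕ) (s : Side) : wq n [] s 0 = 0 := by
  unfold wq
  rcases s with _ | _ | i
  · simp [wl, U]
  · simp [wl]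
  · simp [wl, U]

lemma aux (n : ℕ) (m : ℕ) : ∀ (q : List (List (Fin 3) × List (Fin 3) × Side))
    (vis rc : List (List (Fin 3))) (B : List (Fin 3) → List (Fin 3) × Side),
    Good n q vis B → (expl n m ⟨q, vis, rc⟩).Ok n B := by
  induction m with
  | zero => exact fun _ _ _ _ _ => trivial
  | succ m ih =>
    intro q vis rc B hG
    rcases q with _ | ⟨⟨x, z, s⟩, q⟩
    · exact trivial
    · obtain ⟨h1, h2, h3, h4⟩ := hG.hq (x, z, s) List.mem_cons_self
      have hnd := hG.nd
      rw [List.map_cons, List.nodup_cons] at hnd
      simp only at hnd h1 h2 h3 h4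
      -- the other entries are unchanged
      have hold : ∀ (b : List (Fin 3) × Side), ∀ e ∈ q, e.1 ∈ vis ∧ e.1.length < n ∧
          e.2.1.length < n ∧ Function.update B x b e.1 = (e.2.1, e.2.2) := by
        intro b e he
        obtain ⟨h5, h6, h7, h8⟩ := hG.hq e (List.mem_cons_of_mem _ he)
        refine ⟨h5, h6, h7, ?_⟩
        rw [Function.update_of_ne, h8]
        intro h9
        exact hnd.1 (h9 ▸ List.mem_map_of_mem he)
      have hbold : ∀ (b : List (Fin 3) × Side), ∀ y, y ∉ vis →
          Function.update B x b y = (y, .own) := by
        intro b y hy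
        rw [Function.update_of_ne, hG.hb y hy]
        intro h9
        exact hy (h9 ▸ h1)
      refine ⟨h2, h4, h3, fun a ha => ?_⟩
      rcases Fin.eq_zero_or_eq_succ a with rfl | ⟨j, rfl⟩
      · rcases z with _ | ⟨i, _ | ⟨y, z'⟩⟩
        · rw [w_root] at ha
          exact absurd ha (lt_irrefl _)
        · exact ih q vis (x :: rc) _ ⟨hnd.2, hold _, hbold _⟩
        · refine ih ((x, y :: z', .ch i) :: q) vis rc _ ⟨?_, ?_, hbold _⟩
          · rw [List.map_cons, List.nodup_cons]
            exact hnd
          · intro e he
            rcases List.mem_cons.1 he with rfl | he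
            · refine ⟨h1, h2, ?_, ?_⟩
              · simp only [List.length_cons] at h3 ⊢
                omega
              · simp only [Function.update_self]
                rfl
            · exact hold _ e he
      · change (expl n m (if n ≤ z.length + 1 then ⟨q, vis, rc⟩
          else if j :: z ∈ vis then ⟨(x, j :: z, .par) :: q, vis, rc⟩
          else ⟨(x, j :: z, .par) :: (j :: z, j :: z, .own) :: q, (j :: z) :: vis, rc⟩)).Ok n
            (Function.update B x (j :: z, .par))
        split_ifs with h5 h6
        · exact ih q vis rc _ ⟨hnd.2, hold _, hbold _⟩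
        · refine ih _ vis rc _ ⟨?_, ?_, hbold _⟩
          · rw [List.map_cons, List.nodup_cons]
            exact hnd
          · intro e he
            rcases List.mem_cons.1 he with rfl | he
            · refine ⟨h1, h2, ?_, ?_⟩
              · simp only [List.length_cons]
                omega
              · simp only [Function.update_self]
            · exact hold _ e he
        · have hne : j :: z ≠ x := fun h => h6 (h ▸ h1)
          have hnew : j :: z ∉ q.map Prod.fst := by
            intro h
            obtain ⟨e, he, he'⟩ := List.mem_map.1 h
            exact h6 (he' ▸ (hG.hq e (List.mem_cons_of_mem _ he)).1)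
          refine ih _ _ rc _ ⟨?_, ?_, ?_⟩
          · rw [List.map_cons, List.map_cons, List.nodup_cons, List.nodup_cons, List.mem_cons,
              not_or]
            exact ⟨⟨Ne.symm hne, hnd.1⟩, hnew, hnd.2⟩
          · intro e he
            rcases List.mem_cons.1 he with rfl | he
            · refine ⟨List.mem_cons_of_mem _ h1, h2, ?_, ?_⟩
              · simp only [List.length_cons]
                omega
              · simp only [Function.update_self]
            · rcases List.mem_cons.1 he with rfl | he
              · refine ⟨List.mem_cons_self, ?_, ?_, ?_⟩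
                · simp only [List.length_cons]
                  omega
                · simp only [List.length_cons]
                  omega
                · exact hbold _ _ h6
              · obtain ⟨h7, h8⟩ := hold (j :: z, .par) e he
                exact ⟨List.mem_cons_of_mem _ h7, h8⟩
          · intro y hy
            exact hbold _ y (fun h => hy (List.mem_cons_of_mem _ h))

theorem main : S_EXOK := by
  intro n hn m
  refine aux n m [([], [], .own)] [[]] [] _ ⟨by simp, ?_, fun _ _ => rfl⟩
  intro e he
  rw [List.mem_singleton] at he
  subst he
  have hn0 : 0 < n := hn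
  exact ⟨by simp, by simpa using hn0, by simpa using hn0, rfl⟩

end Pool.Agent.W847.T3.T_EXOK
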