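import Pool.Agent.W847.T3.Stm

set_option autoImplicit false

open Finset

namespace Pool.Agent.W847.T3.T_EXSTK

/-- Entries of the list of frogs. -/
abbrev Ent : Type := List (Fin 3) × List (Fin 3) × Side

/-- Number of entries at `z` with side `s`. -/
def wt (q : List Ent) (z : List (Fin 3)) (s : Side) : ℕ :=
  q.countP (fun e => decide (z = e.2.1 ∧ s = e.2.2))

lemma wt_cons (x z0 : List (Fin 3)) (s0 : Side) (q : List Ent) (z : List (Fin 3)) (s : Side) :
    wt ((x, z0, s0) :: q) z s = wt q z s + if z = z0 ∧ s = s0 then 1 else 0 := by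
  unfold wt
  rw [List.countP_cons]
  simp only [decide_eq_true_eq]

lemma inc_eq (cn : Cnt) (z0 : List (Fin 3)) (s0 : Side) (z : List (Fin 3)) (s : Side) :
    inc cn z0 s0 z s = cn z s + if z = z0 ∧ s = s0 then 1 else 0 := by
  unfold inc
  split_ifs <;> rfl

lemma cnt_succ (ω : Stk) (z : List (Fin 3)) (s : Side) (a : Fin 4) (m : ℕ) :
    cnt ω z s a (m + 1) = cnt ω z s a m + if ω z s m = a then 1 else 0 := by
  unfold cnt
  rw [Finset.range_add_one, Finset.filter_insert]
  split_ifs with h
  · rw [Finset.card_insert_of_notMem]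
    simp
  · rfl

/-- Total number of answers `a` at `z`. -/
def SC (ω : Stk) (cn : Cnt) (z : List (Fin 3)) (a : Fin 4) : ℕ :=
  sumS fun s => cnt ω z s a (cn z s)

lemma SC_inc (ω : Stk) (cn : Cnt) (z0 : List (Fin 3)) (s0 : Side) (z : List (Fin 3)) (a : Fin 4) :
    SC ω (inc cn z0 s0) z a = SC ω cn z a + if z = z0 ∧ ω z0 s0 (cn z0 s0) = a then 1 else 0 := by
  unfold SC sumS
  simp only [inc_eq]
  by_cases hz : z = z0
  · subst hz
    simp only [true_and]
    cases s0 with
    | own =>
      simp only [if_true, reduceCtorEq, if_false, add_zero, cnt_succ]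
      ring
    | par =>
      simp only [if_true, reduceCtorEq, if_false, add_zero, cnt_succ]
      ring
    | ch i =>
      fin_cases i
      · simp only [Fin.zero_eta, Side.ch.injEq, if_true, reduceCtorEq, if_false, add_zero, cnt_succ,
          show ¬ ((1 : Fin 3) = 0) by decide, show ¬ ((2 : Fin 3) = 0) by decide]
        ring
      · simp only [Fin.mk_one, Side.ch.injEq, if_true, reduceCtorEq, if_false, add_zero, cnt_succ,
          show ¬ ((0 : Fin 3) = 1) by decide, show ¬ ((2 : Fin 3) = 1) by decide]
        ring
      · simp only [Fin.reduceFinMk, Side.ch.injEq, if_true, reduceCtorEq, if_false, add_zero,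
          cnt_succ, show ¬ ((0 : Fin 3) = 2) by decide, show ¬ ((1 : Fin 3) = 2) by decide]
        ring
  · simp only [hz, false_and, if_false, add_zero]

/-- Total number of arrivals at `z` with side `s`. -/
def T (cn : Cnt) (q : List Ent) (z : List (Fin 3)) (s : Side) : ℕ := cn z s + wt q z s

lemma T_pop (cn : Cnt) (x z0 : List (Fin 3)) (s0 : Side) (q : List Ent) (z : List (Fin 3))
    (s : Side) : T (inc cn z0 s0) q z s = T cn ((x, z0, s0) :: q) z s := by
  unfold T
  rw [wt_cons, inc_eq]
  ring

lemma T_push (cn : Cnt) (x z0 : List (Fin 3)) (s0 : Side) (q : List Ent) (z : List (Fin 3))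
    (s : Side) : T cn ((x, z0, s0) :: q) z s = T cn q z s + if z = z0 ∧ s = s0 then 1 else 0 := by
  unfold T
  rw [wt_cons]
  ring

/-- The invariant. -/
structure Inv (n : ℕ) (ω : Stk) (t : EX) (cn : Cnt) : Prop where
  h1 : ∀ (z : List (Fin 3)) (j : Fin 3), z.length + 1 < n →
    SC ω cn z j.succ ≤ T cn t.q (j :: z) .par
  h2 : ∀ (z : List (Fin 3)) (j : Fin 3), z ≠ [] → z.length + 1 < n →
    SC ω cn (j :: z) 0 ≤ T cn t.q z (.ch j)
  h3 : ∀ j : Fin 3, SC ω cn [j] 0 ≤ t.rc.length
  h4 : ∀ z ∈ t.vis, 1 ≤ T cn t.q z .own
  h5 : ∀ z, 1 ≤ T cn t.q z .par → z ∈ t.vis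
  h6 : [] ∈ t.vis

lemma inv0 (n : ℕ) (ω : Stk) : Inv n ω ex0 cn0 := by
  constructor
  · intro z j _
    simp [SC, sumS, cnt, cn0]
  · intro z j _ _
    simp [SC, sumS, cnt, cn0]
  · intro j
    simp [SC, sumS, cnt, cn0]
  · intro z hz
    simp only [ex0, List.mem_singleton] at hz
    subst hz
    simp [T, wt, ex0]
  · intro z hz
    simp [T, wt, ex0, cn0] at hz
  · simp [ex0]

/-- Termination potential of an entry. -/
def pe (n : ℕ) (e : Ent) : ℕ := if e.2.2 = .par then n - e.2.1.length else n + e.2.1.length + 1

/-- Potential. -/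
def Phi (n : ℕ) (t : EX) : ℕ :=
  (t.q.map (pe n)).sum + (2 * n + 2) * (frogs n \ t.vis.toFinset).card

lemma mem_words (n : ℕ) (v : List (Fin 3)) : v ∈ words n ↔ v.length = n := by
  induction n generalizing v with
  | zero => simp [words]
  | succ n ih =>
    simp only [words, Finset.mem_image, Finset.mem_product, Finset.mem_univ, true_and, Prod.exists]
    constructor
    · rintro ⟨a, b, hb, rfl⟩
      simp [(ih b).1 hb]
    · intro h
      cases v with
      | nil => simp at h
      | cons a b => exact ⟨a, b, (ih b).2 (by simpa using h), rfl⟩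

lemma mem_frogs (n : ℕ) (v : List (Fin 3)) : v ∈ frogs n ↔ v.length < n := by
  simp only [frogs, Finset.mem_biUnion, Finset.mem_range, mem_words]
  constructor
  · rintro ⟨a, ha, rfl⟩; exact ha
  · intro h; exact ⟨_, h, rfl⟩

/-- One step. -/
lemma step (n : ℕ) (ω : Stk) (hω : GoodS ω) (x z : List (Fin 3)) (s : Side) (q : List Ent)
    (t : EX) (cn : Cnt) (hq : t.q = (x, z, s) :: q) (hI : Inv n ω t cn)
    (hl : ∀ e ∈ t.q, e.2.1.length < n) :
    Inv n ω (adv n x z { t with q := q } (ω z s (cn z s))) (inc cn z s) ∧
    (∀ e ∈ (adv n x z { t with q := q } (ω z s (cn z s))).q, e.2.1.length < n) ∧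
    Phi n (adv n x z { t with q := q } (ω z s (cn z s))) + 1 ≤ Phi n t := by
  have hz : z.length < n := hl (x, z, s) (by rw [hq]; simp)
  have hl' : ∀ e ∈ q, e.2.1.length < n := fun e he => hl e (by rw [hq]; simp [he])
  have hpe : 1 ≤ pe n (x, z, s) := by
    unfold pe; split_ifs <;> (simp only; omega)
  have hPhi : Phi n t = pe n (x, z, s) + (q.map (pe n)).sum +
      (2 * n + 2) * (frogs n \ t.vis.toFinset).card := by
    unfold Phi; rw [hq, List.map_cons, List.sum_cons]
  obtain ⟨h1, h2, h3, h4, h5, h6⟩ := hI
  rw [hq] at h1 h2 h4 h5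
  rcases Fin.eq_zero_or_eq_succ (ω z s (cn z s)) with ha | ⟨j, ha⟩
  · have hs : s ≠ .par := by
      rintro rfl
      exact hω.1 z _ ha
    have S0 : ∀ z0 (j : Fin 3), SC ω (inc cn z s) z0 j.succ = SC ω cn z0 j.succ := by
      intro z0 j
      rw [SC_inc, ha, if_neg, add_zero]
      rintro ⟨_, h⟩
      exact (Fin.succ_ne_zero j) h.symm
    have S1 : ∀ z0, SC ω (inc cn z s) z0 0 = SC ω cn z0 0 + if z0 = z then 1 else 0 := by
      intro z0
      rw [SC_inc, ha]
      simp
    have hp : pe n (x, z, s) = n + z.length + 1 := by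
      unfold pe; rw [if_neg hs]
    rw [ha]
    rcases z with _ | ⟨i, _ | ⟨y, z'⟩⟩
    · change Inv n ω { t with q := q } (inc cn [] s) ∧ (∀ e ∈ q, e.2.1.length < n) ∧
        Phi n { t with q := q } + 1 ≤ Phi n t
      refine ⟨⟨?_, ?_, ?_, ?_, ?_, h6⟩, hl', ?_⟩
      · intro z0 j hz0
        change _ ≤ T _ q _ _
        rw [T_pop _ x, S0]
        exact h1 z0 j hz0
      · intro z0 j hz0 hz1
        change _ ≤ T _ q _ _
        rw [T_pop _ x, S1, if_neg (by simp), add_zero]
        exact h2 z0 j hz0 hz1
      · intro j
        rw [S1, if_neg (by simp), add_zero]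
        exact h3 j
      · intro z0 hz0
        change _ ≤ T _ q _ _
        rw [T_pop _ x]
        exact h4 z0 hz0
      · intro z0 hz0
        change _ ≤ T _ q _ _ at hz0
        rw [T_pop _ x] at hz0
        exact h5 z0 hz0
      · rw [hPhi]
        unfold Phi
        simp only
        omega
    · change Inv n ω { t with q := q, rc := x :: t.rc } (inc cn [i] s) ∧
        (∀ e ∈ q, e.2.1.length < n) ∧ Phi n { t with q := q, rc := x :: t.rc } + 1 ≤ Phi n t
      refine ⟨⟨?_, ?_, ?_, ?_, ?_, h6⟩, hl', ?_⟩
      · intro z0 j hz0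
        change _ ≤ T _ q _ _
        rw [T_pop _ x, S0]
        exact h1 z0 j hz0
      · intro z0 j hz0 hz1
        change _ ≤ T _ q _ _
        rw [T_pop _ x, S1, if_neg (by
          intro h
          rw [List.cons.injEq] at h
          exact hz0 h.2), add_zero]
        exact h2 z0 j hz0 hz1
      · intro j
        rw [S1]
        have := h3 j
        change _ ≤ (x :: t.rc).length
        rw [List.length_cons]
        split_ifs <;> omega
      · intro z0 hz0
        change _ ≤ T _ q _ _
        rw [T_pop _ x]
        exact h4 z0 hz0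
      · intro z0 hz0
        change _ ≤ T _ q _ _ at hz0
        rw [T_pop _ x] at hz0
        exact h5 z0 hz0
      · rw [hPhi]
        unfold Phi
        simp only
        omega
    · change Inv n ω { t with q := (x, y :: z', .ch i) :: q } (inc cn (i :: y :: z') s) ∧
        (∀ e ∈ (x, y :: z', Side.ch i) :: q, e.2.1.length < n) ∧
        Phi n { t with q := (x, y :: z', .ch i) :: q } + 1 ≤ Phi n t
      refine ⟨⟨?_, ?_, ?_, ?_, ?_, h6⟩, ?_, ?_⟩
      · intro z0 j hz0
        change _ ≤ T _ (_ :: q) _ _
        rw [T_push, T_pop _ x, S0, if_neg (by simp), add_zero]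
        exact h1 z0 j hz0
      · intro z0 j hz0 hz1
        change _ ≤ T _ (_ :: q) _ _
        rw [T_push, T_pop _ x, S1]
        have := h2 z0 j hz0 hz1
        by_cases h : z0 = y :: z' ∧ j = i
        · rw [if_pos (by rw [h.1, h.2]), if_pos (by rw [h.1, h.2]; exact ⟨rfl, rfl⟩)]
          omega
        · rw [if_neg (by
            rw [List.cons.injEq]
            intro h'
            exact h ⟨h'.2, h'.1⟩)]
          omega
      · intro j
        rw [S1, if_neg (by simp), add_zero]
        exact h3 j
      · intro z0 hz0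
        change _ ≤ T _ (_ :: q) _ _
        rw [T_push, T_pop _ x]
        exact (h4 z0 hz0).trans (Nat.le_add_right _ _)
      · intro z0 hz0
        change _ ≤ T _ (_ :: q) _ _ at hz0
        rw [T_push, T_pop _ x, if_neg (by simp), add_zero] at hz0
        exact h5 z0 hz0
      · intro e he
        rw [List.mem_cons] at he
        rcases he with rfl | he
        · simp only [List.length_cons] at hz ⊢
          omega
        · exact hl' e he
      · rw [hPhi, hp]
        unfold Phi
        simp only [List.map_cons, List.sum_cons, pe, reduceCtorEq, if_false, List.length_cons]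
        omega
  · have S0 : ∀ z0, SC ω (inc cn z s) z0 0 = SC ω cn z0 0 := by
      intro z0
      rw [SC_inc, ha, if_neg, add_zero]
      rintro ⟨_, h⟩
      exact (Fin.succ_ne_zero j) h
    have S1 : ∀ z0 (k : Fin 3), SC ω (inc cn z s) z0 k.succ =
        SC ω cn z0 k.succ + if z0 = z ∧ j = k then 1 else 0 := by
      intro z0 k
      rw [SC_inc, ha]
      simp only [Fin.succ_inj]
    rw [ha]
    have hadv : adv n x z { t with q := q } j.succ =
      if n ≤ z.length + 1 then { t with q := q }
      else if j :: z ∈ t.vis then { t with q := (x, j :: z, .par) :: q }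
      else { q := (x, j :: z, .par) :: (j :: z, j :: z, .own) :: q,
             vis := (j :: z) :: t.vis, rc := t.rc } := rfl
    rw [hadv]
    have hp : n - z.length ≤ pe n (x, z, s) := by
      unfold pe; split_ifs <;> (simp only; omega)
    split_ifs with hn hv
    · refine ⟨⟨?_, ?_, ?_, ?_, ?_, h6⟩, hl', ?_⟩
      · intro z0 k hz0
        change _ ≤ T _ q _ _
        rw [T_pop _ x, S1, if_neg (by
          rintro ⟨h, _⟩
          rw [h] at hz0
          omega), add_zero]
        exact h1 z0 k hz0
      · intro z0 k hz0 hz1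
        change _ ≤ T _ q _ _
        rw [T_pop _ x, S0]
        exact h2 z0 k hz0 hz1
      · intro k
        rw [S0]
        exact h3 k
      · intro z0 hz0
        change _ ≤ T _ q _ _
        rw [T_pop _ x]
        exact h4 z0 hz0
      · intro z0 hz0
        change _ ≤ T _ q _ _ at hz0
        rw [T_pop _ x] at hz0
        exact h5 z0 hz0
      · rw [hPhi]
        unfold Phi
        simp only
        omega
    · refine ⟨⟨?_, ?_, ?_, ?_, ?_, h6⟩, ?_, ?_⟩
      · intro z0 k hz0
        change _ ≤ T _ (_ :: q) _ _
        rw [T_push, T_pop _ x, S1]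
        have := h1 z0 k hz0
        by_cases h : z0 = z ∧ j = k
        · rw [if_pos h, if_pos (by rw [h.1, h.2]; exact ⟨rfl, rfl⟩)]
          omega
        · rw [if_neg h]
          omega
      · intro z0 k hz0 hz1
        change _ ≤ T _ (_ :: q) _ _
        rw [T_push, T_pop _ x, S0, if_neg (by simp), add_zero]
        exact h2 z0 k hz0 hz1
      · intro k
        rw [S0]
        exact h3 k
      · intro z0 hz0
        change _ ≤ T _ (_ :: q) _ _
        rw [T_push, T_pop _ x]
        exact (h4 z0 hz0).trans (Nat.le_add_right _ _)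
      · intro z0 hz0
        change _ ≤ T _ (_ :: q) _ _ at hz0
        rw [T_push, T_pop _ x] at hz0
        by_cases h : z0 = j :: z
        · rw [h]; exact hv
        · rw [if_neg (by tauto), add_zero] at hz0
          exact h5 z0 hz0
      · intro e he
        rw [List.mem_cons] at he
        rcases he with rfl | he
        · simp only [List.length_cons]
          omega
        · exact hl' e he
      · rw [hPhi]
        unfold Phi
        simp only [List.map_cons, List.sum_cons]
        have : pe n (x, j :: z, .par) + 1 ≤ pe n (x, z, s) := by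
          refine le_trans ?_ hp
          simp only [pe, if_true, List.length_cons]
          omega
        omega
    · refine ⟨⟨?_, ?_, ?_, ?_, ?_, ?_⟩, ?_, ?_⟩
      · intro z0 k hz0
        change _ ≤ T _ (_ :: _ :: q) _ _
        rw [T_push, T_push, T_pop _ x, S1]
        have := h1 z0 k hz0
        by_cases h : z0 = z ∧ j = k
        · rw [if_pos h]
          have e : (k :: z0 = j :: z ∧ Side.par = Side.par) := by
            rw [h.1, h.2]; exact ⟨rfl, rfl⟩
          rw [if_pos e]
          omega
        · rw [if_neg h]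
          omega
      · intro z0 k hz0 hz1
        change _ ≤ T _ (_ :: _ :: q) _ _
        rw [T_push, T_push, T_pop _ x, S0]
        exact (h2 z0 k hz0 hz1).trans (by omega)
      · intro k
        rw [S0]
        exact h3 k
      · intro z0 hz0
        change _ ≤ T _ (_ :: _ :: q) _ _
        rw [T_push, T_push, T_pop _ x]
        simp only [List.mem_cons] at hz0
        rcases hz0 with rfl | hz0
        · simp
        · have := h4 z0 hz0
          omega
      · intro z0 hz0
        change _ ≤ T _ (_ :: _ :: q) _ _ at hz0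
        rw [T_push, T_push, T_pop _ x] at hz0
        simp only [List.mem_cons]
        by_cases h : z0 = j :: z
        · left; exact h
        · right
          rw [if_neg (by tauto), if_neg (by tauto), add_zero, add_zero] at hz0
          exact h5 z0 hz0
      · simp only [List.mem_cons]
        right; exact h6
      · intro e he
        simp only [List.mem_cons] at he
        rcases he with rfl | rfl | he
        · simp only [List.length_cons]
          omega
        · simp only [List.length_cons]
          omega
        · exact hl' e he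
      · rw [hPhi]
        unfold Phi
        simp only [List.map_cons, List.sum_cons, List.toFinset_cons]
        have h7 : pe n (x, j :: z, .par) + 1 ≤ pe n (x, z, s) := by
          refine le_trans ?_ hp
          simp only [pe, if_true, List.length_cons]
          omega
        have h8 : pe n (j :: z, j :: z, .own) ≤ 2 * n + 1 := by
          simp only [pe, reduceCtorEq, if_false, List.length_cons]
          omega
        have hm : j :: z ∈ frogs n \ t.vis.toFinset := by
          rw [Finset.mem_sdiff, mem_frogs, List.mem_toFinset]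
          exact ⟨by simp only [List.length_cons]; omega, hv⟩
        have h9 : (frogs n \ insert (j :: z) t.vis.toFinset).card + 1 =
            (frogs n \ t.vis.toFinset).card := by
          rw [Finset.sdiff_insert, Finset.card_erase_of_mem hm]
          have := Finset.card_pos.2 ⟨_, hm⟩
          omega
        rw [← h9]
        ring_nf
        ring_nf at h7 h8
        omega

lemma runq (n : ℕ) (ω : Stk) (hω : GoodS ω) (m : ℕ) : ∀ (t : EX) (cn : Cnt), Inv n ω t cn →
    (∀ e ∈ t.q, e.2.1.length < n) → Phi n t ≤ m →
    Inv n ω ((expl n m t).runS ω cn).1 ((expl n m t).runS ω cn).2 ∧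
      ((expl n m t).runS ω cn).1.q = [] := by
  induction m with
  | zero =>
    intro t cn hI hl hP
    change Inv n ω t cn ∧ t.q = []
    refine ⟨hI, ?_⟩
    rcases hq : t.q with _ | ⟨⟨x, z, s⟩, q⟩
    · rfl
    · exfalso
      have hz : z.length < n := hl (x, z, s) (by rw [hq]; simp)
      have hpe : 1 ≤ pe n (x, z, s) := by
        unfold pe; split_ifs <;> (simp only; omega)
      unfold Phi at hP
      rw [hq, List.map_cons, List.sum_cons] at hP
      omega
  | succ m ih =>
    intro t cn hI hl hP
    rcases hq : t.q with _ | ⟨⟨x, z, s⟩, q⟩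
    · have : expl n (m + 1) t = .ret t := by
        rw [expl]; rw [hq]
      rw [this]
      exact ⟨hI, hq⟩
    · have : expl n (m + 1) t =
          .ask x z s (fun a => expl n m (adv n x z { t with q := q } a)) := by
        rw [expl]; rw [hq]
      rw [this]
      simp only [Prog.runS]
      obtain ⟨hI', hl', hP'⟩ := step n ω hω x z s q t cn hq hI hl
      exact ih _ _ hI' hl' (by omega)

theorem main : S_EXSTK := by
  intro n hn
  refine ⟨Phi n ex0, ?_⟩
  intro ω hω
  obtain ⟨hI, hq⟩ := runq n ω hω (Phi n ex0) ex0 cn0 (inv0 n ω) (by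
    intro e he
    simp only [ex0, List.mem_singleton] at he
    subst he
    simp only [List.length_nil]; omega) le_rfl
  obtain ⟨h1, h2, h3, h4, h5, h6⟩ := hI
  generalize hR : (expl n (Phi n ex0) ex0).runS ω cn0 = R at *
  rw [hq] at h1 h2 h4 h5
  have hT : ∀ z s, T R.2 [] z s = R.2 z s := by
    intro z s; simp [T, wt]
  simp only [hT] at h1 h2 h4 h5
  refine ⟨⟨h1, h2, ?_⟩, h4 _ h6, h3⟩
  intro z _ hz
  exact h4 z (h5 z hz)

end Pool.Agent.W847.T3.T_EXSTK
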