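import Pool.Agent.W847.T3.T_HARM

set_option autoImplicit false

open Finset

namespace Pool.Agent.W847.T3.T_FRUN

open T_WTS T_HARM

theorem mem_words (n : ℕ) (v : List (Fin 3)) : v ∈ words n ↔ v.length = n := by
  induction n generalizing v with
  | zero => simp [words]
  | succ n ih =>
    simp only [words, Finset.mem_image, Finset.mem_product, Finset.mem_univ, true_and, Prod.exists]
    constructor
    · rintro ⟨a, b, hb, rfl⟩
      simp [(ih b).1 hb]
    · intro h
      cases v with
      | nil => simp at h
      | cons a b => exact ⟨a, b, (ih b).2 (by simpa using h), rfl⟩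

theorem mem_frogs (n : ℕ) (v : List (Fin 3)) : v ∈ frogs n ↔ v.length < n := by
  simp only [frogs, Finset.mem_biUnion, Finset.mem_range, mem_words]
  constructor
  · rintro ⟨a, ha, rfl⟩; exact ha
  · intro h; exact ⟨_, h, rfl⟩

theorem suffix_cons_inj {a b : Fin 3} {w y : List (Fin 3)} (h1 : (a :: w) <:+ y)
    (h2 : (b :: w) <:+ y) : a = b := by
  have h := List.suffix_of_suffix_length_le h1 h2 (by simp)
  have := h.eq_of_length (by simp)
  simpa using this

theorem dir_of_suffix {j : Fin 3} {z y : List (Fin 3)} (h : (j :: z) <:+ y) :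
    dir z y = j.succ := by
  obtain ⟨p, rfl⟩ := h
  unfold dir
  rw [if_pos ⟨p ++ [j], by simp⟩]
  have h1 : (p ++ j :: z).length - z.length = (p ++ [j]).length := by
    simp only [List.length_append, List.length_cons, List.length_nil]; omega
  have h2 : (p ++ j :: z).take ((p ++ j :: z).length - z.length) = p ++ [j] := by
    rw [h1, show p ++ j :: z = (p ++ [j]) ++ z by simp, List.take_left']
    rfl
  rw [h2]
  simp

theorem dir_of_not {z y : List (Fin 3)} (h : ¬ z <:+ y) : dir z y = 0 := by
  unfold dir
  rw [if_neg h]

section nuF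

variable {n : ℕ}

theorem nuF_congr {z : List (Fin 3)} (hn : z.length < n) {s : Side}
    {h1 h2 : List (Fin 3) → ℝ}
    (h : ∀ y, y.length = n → (∀ i, s = .ch i → ¬ ((i :: z) <:+ y)) → h1 y = h2 y) :
    nuF n z s h1 = nuF n z s h2 := by
  have key : ∀ {z : List (Fin 3)} (_ : z.length < n) {s : Side}
      (_ : ∀ y, y.length = n → (∀ i, s = .ch i → ¬ ((i :: z) <:+ y)) → h1 y = h2 y),
      ∑ j : Fin 3, wl n z.length s j.succ * dl n (j :: z) h1 =
        ∑ j : Fin 3, wl n z.length s j.succ * dl n (j :: z) h2 := by
    intro z hn s h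
    refine Finset.sum_congr rfl fun j _ => ?_
    by_cases hf : s = .ch j
    · simp [wl, hf]
    · congr 1
      apply dl_congr n (z := j :: z) (by simpa using hn)
      intro y hy hs
      apply h y hy
      intro i hi hs2
      have := suffix_cons_inj hs hs2
      subst this
      exact hf hi
  induction z generalizing s with
  | nil => exact key hn h
  | cons i z ih =>
    simp only [nuF]
    have hk := key hn h
    rw [List.length_cons] at hk
    rw [hk, ih (by simp only [List.length_cons] at hn; omega)]
    intro y hy hs
    apply h y hy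
    intro j hj hs2
    exact hs i rfl ((List.suffix_cons j (i :: z)).trans hs2)

theorem law_congr {z : List (Fin 3)} {s : Side} (hV : VI n (z, s)) {h1 h2 : List (Fin 3) → ℝ}
    (h : ∀ y, y.length = n → h1 y = h2 y) : law n z s h1 = law n z s h2 := by
  unfold law
  split_ifs with hs
  · exact dl_congr n hV.1 fun y hy _ => h y hy
  · exact nuF_congr (hV.2 hs) fun y hy _ => h y hy

theorem law_mul (z : List (Fin 3)) (s : Side) (c : ℝ) (h : List (Fin 3) → ℝ) :
    law n z s (fun p => c * h p) = c * law n z s h := by
  unfold law
  split_ifs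
  · exact dl_mul n z c h
  · exact nuF_mul n z s c h

theorem law_add (z : List (Fin 3)) (s : Side) (h1 h2 : List (Fin 3) → ℝ) :
    law n z s (fun p => h1 p + h2 p) = law n z s h1 + law n z s h2 := by
  unfold law
  split_ifs
  · exact dl_add n z h1 h2
  · exact nuF_add n z s h1 h2

theorem law_sum {ι : Type} (t : Finset ι) (z : List (Fin 3)) (s : Side)
    (h : ι → List (Fin 3) → ℝ) :
    law n z s (fun p => ∑ i ∈ t, h i p) = ∑ i ∈ t, law n z s (h i) := by
  classical
  induction t using Finset.induction_on with
  | empty =>
    simp only [Finset.sum_empty]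
    have := law_mul (n := n) z s 0 (fun _ => 0)
    simpa using this
  | insert a t ha ih =>
    rw [Finset.sum_insert ha, ← ih, ← law_add]
    congr 1
    funext p
    rw [Finset.sum_insert ha]

theorem law_const (z : List (Fin 3)) (s : Side) (c : ℝ) : law n z s (fun _ => c) = c := by
  unfold law
  split_ifs
  · exact dl_const n z c
  · exact nuF_const n z s c

theorem law_eq_sum {z : List (Fin 3)} {s : Side} (hV : VI n (z, s)) (h : List (Fin 3) → ℝ) :
    law n z s h = ∑ y ∈ words n, law n z s (ind y) * h y := by
  have : law n z s h = law n z s (fun y' => ∑ y ∈ words n, h y * ind y y') := by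
    apply law_congr hV
    intro y hy
    simp only [ind, mul_ite, mul_one, mul_zero]
    rw [Finset.sum_ite_eq, if_pos]
    exact (mem_words n y).2 hy
  rw [this, law_sum]
  exact Finset.sum_congr rfl fun y _ => by rw [law_mul]; ring

theorem law_fin {y : List (Fin 3)} (hy : y.length = n) (h : List (Fin 3) → ℝ) :
    law n y .par h = h y := by
  unfold law
  rw [if_pos rfl]
  exact dl_last n h (by omega)

/-- One step of the law. -/
theorem law_step {z : List (Fin 3)} (hz : z.length < n) (s : Side) (h : List (Fin 3) → ℝ) :
    law n z s h = ∑ a, wq n z s a * law n (stepI z a).1 (stepI z a).2 h := by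
  have hsucc : ∀ j : Fin 3, law n (stepI z j.succ).1 (stepI z j.succ).2 h = dl n (j :: z) h := by
    intro j
    change law n (j :: z) .par h = _
    unfold law
    rw [if_pos rfl]
  rw [Fin.sum_univ_succ, Finset.sum_congr rfl fun j _ => by rw [hsucc j]]
  by_cases hs : s = .par
  · subst hs
    have h0 : wq n z .par 0 = 0 := by simp [wq, wl]
    rw [h0, zero_mul, zero_add]
    unfold law
    rw [if_pos rfl, dl_step n h hz, Finset.mul_sum]
    refine Finset.sum_congr rfl fun j _ => ?_
    simp [wq, wl]
  · unfold law
    rw [if_neg hs]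
    cases z with
    | nil =>
      have h0 : wq n [] s 0 = 0 := wl_zero n s
      rw [h0, zero_mul, zero_add]
      rfl
    | cons i z =>
      simp only [nuF]
      congr 1

/-- Validity of the information after one step. -/
theorem VI_step {z : List (Fin 3)} (hz : z.length < n) (a : Fin 4) : VI n (stepI z a) := by
  rcases Fin.eq_zero_or_eq_succ a with rfl | ⟨j, rfl⟩
  · cases z with
    | nil => exact ⟨Nat.zero_le _, fun _ => hz⟩
    | cons i z =>
      simp only [List.length_cons] at hz
      refine ⟨?_, fun _ => ?_⟩
      · change z.length ≤ n; omega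
      · change z.length < n; omega
  · refine ⟨?_, fun h => ?_⟩
    · change (j :: z).length ≤ n; simpa using hz
    · exact absurd rfl h

theorem law_dir {z : List (Fin 3)} (hz : z.length < n) {s : Side} {a : Fin 4}
    (ha : 0 < wq n z s a) {h1 h2 : List (Fin 3) → ℝ}
    (h : ∀ y, y.length = n → dir z y = a → h1 y = h2 y) :
    law n (stepI z a).1 (stepI z a).2 h1 = law n (stepI z a).1 (stepI z a).2 h2 := by
  rcases Fin.eq_zero_or_eq_succ a with rfl | ⟨j, rfl⟩
  · cases z with
    | nil =>
      exfalso
      have h0 : wq n [] s 0 = 0 := wl_zero n s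
      rw [h0] at ha
      exact lt_irrefl _ ha
    | cons i z =>
      change law n z (.ch i) h1 = law n z (.ch i) h2
      unfold law
      rw [if_neg (by simp)]
      simp only [List.length_cons] at hz
      apply nuF_congr (by omega)
      intro y hy hs
      exact h y hy (dir_of_not (hs i rfl))
  · change law n (j :: z) .par h1 = law n (j :: z) .par h2
    unfold law
    rw [if_pos rfl]
    apply dl_congr n (by simpa using hz)
    intro y hy hs
    exact h y hy (dir_of_suffix hs)

end nuF

section J

variable {n : ℕ}

theorem J_const {B : List (Fin 3) → List (Fin 3) × Side}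
    (hB : ∀ x, x.length < n → VI n (B x)) (c : ℝ) : JF n B (fun _ => c) = c := by
  unfold JF
  rw [← Finset.sum_mul, ← Finset.prod_univ_sum (fun _ : frogs n => words n)
    (fun x a => law n (B x).1 (B x).2 (ind a)), Finset.prod_eq_one, one_mul]
  intro x _
  have := law_eq_sum (hB x.1 ((mem_frogs n _).1 x.2)) (fun _ => 1)
  rw [law_const] at this
  simpa using this.symm

theorem J_cond {B : List (Fin 3) → List (Fin 3) × Side}
    (hB : ∀ x, x.length < n → VI n (B x)) {x0 : List (Fin 3)} (hx0 : x0.length < n)
    (G : (List (Fin 3) → List (Fin 3)) → ℝ) :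
    JF n B G = law n (B x0).1 (B x0).2
      (fun y => JF n (Function.update B x0 (y, .par)) G) := by
  have hx : x0 ∈ frogs n := (mem_frogs n _).2 hx0
  rw [law_eq_sum (hB x0 hx0)]
  unfold JF
  simp only [Finset.mul_sum]
  rw [Finset.sum_comm]
  refine Finset.sum_congr rfl fun y hy => ?_
  have hyx : y ⟨x0, hx⟩ ∈ words n := Fintype.mem_piFinset.1 hy _
  have h1 : ∀ a ∈ words n, ∏ x : frogs n, law n (Function.update B x0 (a, .par) x).1
      (Function.update B x0 (a, .par) x).2 (ind (y x)) =
      (if a = y ⟨x0, hx⟩ then 1 else 0) *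
        ∏ x ∈ Finset.univ.erase (⟨x0, hx⟩ : frogs n),
          law n (B x).1 (B x).2 (ind (y x)) := by
    intro a ha
    rw [← Finset.mul_prod_erase Finset.univ _ (Finset.mem_univ (⟨x0, hx⟩ : frogs n))]
    congr 1
    · simp only [Function.update_self]
      rw [law_fin ((mem_words n a).1 ha)]
      rfl
    · refine Finset.prod_congr rfl fun x hxe => ?_
      have : (x : List (Fin 3)) ≠ x0 := by
        intro h
        exact Finset.ne_of_mem_erase hxe (Subtype.ext h)
      rw [Function.update_of_ne this]
  have h2 : ∀ a ∈ words n, law n (B x0).1 (B x0).2 (ind a) *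
      ((∏ x : frogs n, law n (Function.update B x0 (a, .par) x).1
      (Function.update B x0 (a, .par) x).2 (ind (y x))) * G (ext y)) =
      if a = y ⟨x0, hx⟩ then law n (B x0).1 (B x0).2 (ind a) *
        (∏ x ∈ Finset.univ.erase (⟨x0, hx⟩ : frogs n),
          law n (B x).1 (B x).2 (ind (y x))) * G (ext y) else 0 := by
    intro a ha
    rw [h1 a ha]
    split_ifs <;> ring
  rw [Finset.sum_congr rfl h2]
  rw [Finset.sum_ite_eq', if_pos hyx, ← Finset.mul_prod_erase Finset.univ _
    (Finset.mem_univ (⟨x0, hx⟩ : frogs n))]

theorem J_fin {B : List (Fin 3) → List (Fin 3) × Side} {x0 : List (Fin 3)}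
    (hx0 : x0.length < n) {y0 : List (Fin 3)} (hy0 : y0.length = n)
    (G G' : (List (Fin 3) → List (Fin 3)) → ℝ)
    (hG : ∀ η : List (Fin 3) → List (Fin 3), η x0 = y0 → G η = G' η) :
    JF n (Function.update B x0 (y0, .par)) G = JF n (Function.update B x0 (y0, .par)) G' := by
  have hx : x0 ∈ frogs n := (mem_frogs n _).2 hx0
  unfold JF
  refine Finset.sum_congr rfl fun y _ => ?_
  by_cases hy : y ⟨x0, hx⟩ = y0
  · rw [hG (ext y)]
    simp [ext, hx, hy]
  · have : ∏ x : frogs n, law n (Function.update B x0 (y0, .par) x).1
        (Function.update B x0 (y0, .par) x).2 (ind (y x)) = 0 := by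
      apply Finset.prod_eq_zero (Finset.mem_univ (⟨x0, hx⟩ : frogs n))
      simp only [Function.update_self]
      rw [law_fin hy0]
      simp only [ind]
      rw [if_neg]
      exact fun h => hy h.symm
    rw [this]; ring

end J

theorem main : S_FRUN := by
  intro n β P g
  induction P with
  | ret r =>
    intro B hB _
    exact (J_const hB (g r)).symm
  | ask x z s next ih =>
    intro B hB hP
    obtain ⟨h1, h2, h3, h4⟩ := hP
    rw [J_cond hB h1, h2]
    simp only
    rw [law_step h3]
    simp only [Prog.E]
    refine Finset.sum_congr rfl fun a _ => ?_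
    have hw : 0 ≤ wq n z s a := (T_WTS.main1 n).1 z s a
    rcases hw.eq_or_lt with hw | hw
    · rw [← hw, zero_mul, zero_mul]
    · congr 1
      have hB' : ∀ x', x'.length < n → VI n (Function.update B x (stepI z a) x') := by
        intro x' hx'
        by_cases hxx : x' = x
        · subst hxx
          rw [Function.update_self]
          exact VI_step h3 a
        · rw [Function.update_of_ne hxx]; exact hB x' hx'
      rw [ih a (Function.update B x (stepI z a)) hB' (h4 a hw), J_cond hB' h1]
      simp only [Function.update_self, Function.update_idem]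
      apply law_dir h3 hw
      intro y hy hd
      apply J_fin h1 hy
      intro η hη
      simp only [Prog.runF, hη, hd]

end Pool.Agent.W847.T3.T_FRUN
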