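import Pool.Agent.W847.T3.T_WTS

set_option autoImplicit false

open Finset

namespace Pool.Agent.W847.T3.T_HARM

open T_WTS

theorem down_add (d : ℕ) : ∀ (z : List (Fin 3)) (h1 h2 : List (Fin 3) → ℝ),
    down d z (fun p => h1 p + h2 p) = down d z h1 + down d z h2 := by
  induction d with
  | zero => intro z h1 h2; simp [down]
  | succ d ih =>
    intro z h1 h2
    simp only [down, ih, Finset.sum_add_distrib, mul_add]

theorem down_mul (d : ℕ) : ∀ (z : List (Fin 3)) (c : ℝ) (h : List (Fin 3) → ℝ),
    down d z (fun p => c * h p) = c * down d z h := by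
  induction d with
  | zero => intro z c h; simp [down]
  | succ d ih =>
    intro z c h
    simp only [down, ih, ← Finset.mul_sum]
    ring

theorem down_const (d : ℕ) : ∀ (z : List (Fin 3)) (c : ℝ), down d z (fun _ => c) = c := by
  induction d with
  | zero => intro z c; simp [down]
  | succ d ih =>
    intro z c
    simp only [down, ih, Finset.sum_const, Finset.card_univ, Fintype.card_fin, nsmul_eq_mul]
    push_cast; ring

theorem down_mono (d : ℕ) : ∀ (z : List (Fin 3)) (h1 h2 : List (Fin 3) → ℝ),
    (∀ p, h1 p ≤ h2 p) → down d z h1 ≤ down d z h2 := by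
  induction d with
  | zero => intro z h1 h2 h; simpa [down] using h z
  | succ d ih =>
    intro z h1 h2 h
    simp only [down]
    have := Finset.sum_le_sum (s := (Finset.univ : Finset (Fin 3)))
      fun j _ => ih (j :: z) h1 h2 h
    linarith

theorem down_congr (d : ℕ) : ∀ (z : List (Fin 3)) (h1 h2 : List (Fin 3) → ℝ),
    (∀ y : List (Fin 3), y.length = z.length + d → z <:+ y → h1 y = h2 y) →
    down d z h1 = down d z h2 := by
  induction d with
  | zero => intro z h1 h2 h; simpa [down] using h z (by simp) (List.suffix_refl z)
  | succ d ih =>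
    intro z h1 h2 h
    simp only [down]
    congr 1
    refine Finset.sum_congr rfl fun j _ => ?_
    apply ih
    intro y hy hs
    apply h y
    · simp only [List.length_cons] at hy; omega
    · exact (List.suffix_cons j z).trans hs

section dl

variable (n : ℕ)

theorem dl_add (z : List (Fin 3)) (h1 h2 : List (Fin 3) → ℝ) :
    dl n z (fun p => h1 p + h2 p) = dl n z h1 + dl n z h2 := down_add _ _ _ _

theorem dl_mul (z : List (Fin 3)) (c : ℝ) (h : List (Fin 3) → ℝ) :
    dl n z (fun p => c * h p) = c * dl n z h := down_mul _ _ _ _

theorem dl_const (z : List (Fin 3)) (c : ℝ) : dl n z (fun _ => c) = c := down_const _ _ _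

theorem dl_congr {z : List (Fin 3)} (hn : z.length ≤ n) {h1 h2 : List (Fin 3) → ℝ}
    (h : ∀ y, y.length = n → z <:+ y → h1 y = h2 y) : dl n z h1 = dl n z h2 := by
  unfold dl
  apply down_congr
  intro y hy hs
  exact h y (by omega) hs

/-- One step of `dl`. -/
theorem dl_step {z : List (Fin 3)} (h : List (Fin 3) → ℝ) (hz : z.length < n) :
    dl n z h = (1 / 3) * ∑ j : Fin 3, dl n (j :: z) h := by
  obtain ⟨d, hd⟩ : ∃ d, n - z.length = d + 1 := ⟨n - z.length - 1, by omega⟩
  unfold dl
  rw [hd]
  simp only [down]
  congr 1
  refine Finset.sum_congr rfl fun j _ => ?_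
  congr 1
  simp only [List.length_cons]; omega

theorem dl_last {z : List (Fin 3)} (h : List (Fin 3) → ℝ) (hz : n ≤ z.length) :
    dl n z h = h z := by
  unfold dl
  rw [show n - z.length = 0 by omega]
  rfl

end dl

section nu

variable (n : ℕ)

lemma wl_sum (l : ℕ) (s : Side) : ∑ a, wl n l s a = 1 := by
  have := (main1 n).2 (List.replicate l 0) s
  simpa [wq] using this

lemma wl_nonneg (l : ℕ) (s : Side) (a : Fin 4) : 0 ≤ wl n l s a := by
  have := (main1 n).1 (List.replicate l 0) s a
  simpa [wq] using this

lemma wl_zero (s : Side) : wl n 0 s 0 = 0 := by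
  cases s <;> simp [wl, U]

theorem nuF_add (z : List (Fin 3)) : ∀ (s : Side) (h1 h2 : List (Fin 3) → ℝ),
    nuF n z s (fun p => h1 p + h2 p) = nuF n z s h1 + nuF n z s h2 := by
  induction z with
  | nil =>
    intro s h1 h2
    simp only [nuF, dl_add]
    rw [← Finset.sum_add_distrib]
    exact Finset.sum_congr rfl fun j _ => by ring
  | cons i z ih =>
    intro s h1 h2
    simp only [nuF, dl_add, ih, mul_add, Finset.sum_add_distrib]
    ring

theorem nuF_mul (z : List (Fin 3)) : ∀ (s : Side) (c : ℝ) (h : List (Fin 3) → ℝ),
    nuF n z s (fun p => c * h p) = c * nuF n z s h := by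
  induction z with
  | nil =>
    intro s c h
    simp only [nuF, dl_mul]
    rw [Finset.mul_sum]
    exact Finset.sum_congr rfl fun j _ => by ring
  | cons i z ih =>
    intro s c h
    simp only [nuF, dl_mul, ih]
    rw [mul_add, Finset.mul_sum]
    congr 1
    · ring
    · exact Finset.sum_congr rfl fun j _ => by ring

theorem nuF_sum {ι : Type} (t : Finset ι) (z : List (Fin 3)) (s : Side)
    (h : ι → List (Fin 3) → ℝ) :
    nuF n z s (fun p => ∑ i ∈ t, h i p) = ∑ i ∈ t, nuF n z s (h i) := by
  classical
  induction t using Finset.induction_on with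
  | empty =>
    simp only [Finset.sum_empty]
    have := nuF_mul n z s 0 (fun _ => 0)
    simpa using this
  | insert a t ha ih =>
    rw [Finset.sum_insert ha, ← ih, ← nuF_add]
    congr 1
    funext p
    rw [Finset.sum_insert ha]

theorem nuF_const (z : List (Fin 3)) : ∀ (s : Side) (c : ℝ), nuF n z s (fun _ => c) = c := by
  induction z with
  | nil =>
    intro s c
    simp only [nuF, dl_const]
    have := wl_sum n 0 s
    rw [Fin.sum_univ_succ, wl_zero, zero_add] at this
    rw [← Finset.sum_mul, this, one_mul]
  | cons i z ih =>
    intro s c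
    simp only [nuF, dl_const, ih]
    have := wl_sum n (z.length + 1) s
    rw [Fin.sum_univ_succ] at this
    rw [← Finset.sum_mul, ← add_mul, this, one_mul]

/-- `nuF` times the upward conductance. -/
noncomputable def NN (h : List (Fin 3) → ℝ) : List (Fin 3) → ℝ
  | [] => 0
  | i :: z => U n (z.length + 1) * nuF n z (.ch i) h

lemma own_pos (l : ℕ) : 0 < U n l + 3 * cc n l := by
  have := U_nonneg n l
  have := cc_lb n l
  linarith

lemma ch_pos (l : ℕ) : 0 < U n l + 2 * cc n l := by
  have := U_nonneg n l
  have := cc_lb n l
  linarith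

theorem nuF_own (h : List (Fin 3) → ℝ) {z : List (Fin 3)} (hz : z.length < n) :
    nuF n z .own h = (NN n h z + 3 * cc n z.length * dl n z h) /
      (U n z.length + 3 * cc n z.length) := by
  have hp := own_pos n z.length
  rw [eq_div_iff hp.ne', dl_step n h hz]
  cases z with
  | nil =>
    simp only [nuF, NN, zero_add, wl, Fin.succ_ne_zero, if_false, List.length_nil] at hp ⊢
    rw [← Finset.mul_sum]
    generalize U n 0 + 3 * cc n 0 = S at *
    field_simp
  | cons i z =>
    simp only [nuF, NN, wl, Fin.succ_ne_zero, if_false, if_true, List.length_cons] at hp ⊢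
    rw [← Finset.mul_sum]
    field_simp

theorem nuF_ch (h : List (Fin 3) → ℝ) {z : List (Fin 3)} (hz : z.length < n) (i : Fin 3) :
    nuF n z (.ch i) h = (NN n h z + 3 * cc n z.length * dl n z h -
      cc n z.length * dl n (i :: z) h) / (U n z.length + 2 * cc n z.length) := by
  have hp := ch_pos n z.length
  have key : ∑ j : Fin 3, wl n z.length (.ch i) j.succ * dl n (j :: z) h =
      (3 * cc n z.length * dl n z h - cc n z.length * dl n (i :: z) h) /
        (U n z.length + 2 * cc n z.length) := by
    rw [eq_div_iff hp.ne', dl_step n h hz]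
    rw [Finset.sum_mul]
    have h1 : ∀ j : Fin 3, wl n z.length (.ch i) j.succ * dl n (j :: z) h *
        (U n z.length + 2 * cc n z.length) =
        cc n z.length * dl n (j :: z) h - if i = j then cc n z.length * dl n (j :: z) h else 0 := by
      intro j
      simp only [wl, Fin.succ_ne_zero, if_false, Fin.succ_inj]
      by_cases hij : j = i
      · subst hij
        simp
      · rw [if_neg hij, if_neg (fun h => hij h.symm)]
        generalize U n z.length + 2 * cc n z.length = S at *
        field_simp
        ring
    rw [Finset.sum_congr rfl fun j _ => h1 j, Finset.sum_sub_distrib, Finset.sum_ite_eq,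
      if_pos (Finset.mem_univ i), ← Finset.mul_sum]
    ring
  cases z with
  | nil =>
    simp only [nuF, NN, zero_add]
    exact key
  | cons a z =>
    simp only [nuF, NN]
    rw [List.length_cons] at key
    rw [key]
    simp only [wl, if_true, List.length_cons] at hp ⊢
    field_simp
    ring

/-- The harmonic extension. -/
noncomputable def HH (h : List (Fin 3) → ℝ) (z : List (Fin 3)) : ℝ :=
  if n ≤ z.length then h z else nuF n z .own h

theorem HH_child (h : List (Fin 3) → ℝ) {z : List (Fin 3)} (hz : z.length < n) (j : Fin 3) :
    HH n h (j :: z) = (1 - cc n z.length) * HH n h z + cc n z.length * dl n (j :: z) h := by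
  have hx1 : ¬ (n ≤ z.length) := by omega
  by_cases hn2 : n ≤ z.length + 1
  · have hc : cc n z.length = 1 := by
      unfold cc
      rw [show n - (z.length + 1) = 0 by omega]
      rfl
    rw [hc]
    have : n ≤ (j :: z).length := by simpa using hn2
    unfold HH
    rw [if_pos this, dl_last n h this]
    ring
  · have hjx : ¬ (n ≤ (j :: z).length) := by simp only [List.length_cons]; omega
    unfold HH
    rw [if_neg hx1, if_neg hjx, nuF_own n h (by simp only [List.length_cons]; omega),
      nuF_own n h hz]
    rw [show NN n h (j :: z) = U n (z.length + 1) * nuF n z (.ch j) h from rfl, List.length_cons]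
    rw [nuF_ch n h hz j]
    have hc : cc n z.length = 3 * cc n (z.length + 1) / (1 + 3 * cc n (z.length + 1)) := by
      unfold cc
      rw [show n - (z.length + 1) = n - (z.length + 1 + 1) + 1 by omega]
      simp only [C]
    have hU : U n (z.length + 1) = (U n z.length + 2 * cc n z.length) /
        (1 + (U n z.length + 2 * cc n z.length)) := rfl
    have hS := ch_pos n z.length
    have hD := cc_lb n (z.length + 1)
    have hc0 := cc_lb n z.length
    rw [hU]
    obtain ⟨S, hSd⟩ : ∃ S, S = U n z.length + 2 * cc n z.length := ⟨_, rfl⟩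
    rw [show U n z.length + 3 * cc n z.length = S + cc n z.length by rw [hSd]; ring]
    rw [← hSd] at hS ⊢
    generalize cc n z.length = c at *
    generalize cc n (z.length + 1) = D at *
    generalize NN n h z + 3 * c * dl n z h = Q at *
    generalize dl n (j :: z) h = e at *
    subst hc
    have h1 : S / (1 + S) + 3 * D ≠ 0 := by positivity
    have h2 : S + 3 * D / (1 + 3 * D) ≠ 0 := by positivity
    have h3 : 1 + 3 * D ≠ 0 := by positivity
    have h4 : 1 + S ≠ 0 := by positivity
    have h5 : S + 3 * D * (1 + S) ≠ 0 := by positivity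
    have h6 : S * (1 + 3 * D) + 3 * D ≠ 0 := by positivity
    have h7 : S ≠ 0 := by positivity
    field_simp
    ring

end nu

theorem main : S_HARM := by
  intro n h
  refine ⟨HH n h, ?_, ?_, ?_, ?_⟩
  · intro z hz
    unfold HH
    rw [if_pos hz]
  · intro z hz
    unfold HH law
    rw [if_neg (by omega), if_neg (by simp)]
  · intro hn
    have hz : ([] : List (Fin 3)).length < n := by simpa using hn
    have h1 : HH n h [] = dl n [] h := by
      unfold HH
      rw [if_neg (by omega), nuF_own n h hz]
      have := cc_lb n 0
      simp only [NN, List.length_nil, U, zero_add]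
      field_simp
    rw [Finset.sum_congr rfl fun j _ => HH_child n h hz j, Finset.sum_add_distrib,
      ← Finset.mul_sum Finset.univ (fun j => dl n [j] h)]
    have h2 := dl_step n h hz
    rw [h1]
    simp only [Finset.sum_const, Finset.card_univ, Fintype.card_fin, nsmul_eq_mul]
    push_cast
    linear_combination (-3 * cc n ([] : List (Fin 3)).length) * h2
  · intro i z hz
    have hz1 : (i :: z).length < n := by simpa using hz
    rw [Finset.sum_congr rfl fun j _ => HH_child n h hz1 j, Finset.sum_add_distrib,
      ← Finset.mul_sum Finset.univ (fun j => dl n (j :: i :: z) h)]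
    have h2 := dl_step n h hz1
    have h3 := HH_child n h (z := z) (by omega) i
    have hc : cc n z.length = 3 * cc n (z.length + 1) / (1 + 3 * cc n (z.length + 1)) := by
      unfold cc
      rw [show n - (z.length + 1) = n - (z.length + 1 + 1) + 1 by omega]
      simp only [C]
    have hD := cc_lb n (z.length + 1)
    simp only [Finset.sum_const, Finset.card_univ, Fintype.card_fin, nsmul_eq_mul,
      List.length_cons]
    push_cast
    rw [show ∑ j : Fin 3, dl n (j :: i :: z) h = 3 * dl n (i :: z) h by rw [h2]; ring]
    generalize cc n z.length = c at *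
    generalize cc n (z.length + 1) = D at *
    rw [h3, hc]
    field_simp
    ring

end Pool.Agent.W847.T3.T_HARM
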