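import Pool.Agent.W847.T3.T_FRUN

set_option autoImplicit false

open Finset MeasureTheory ProbabilityTheory

namespace Pool.Agent.W847.T3.T_HIT

open T_WTS T_HARM T_FRUN

/-! ### Independence of groups of variables -/

/-- The alphabet of the steps. -/
abbrev Al : Type := Fin 3 × Fin 4

/-- The sigma algebra generated by the variables with index in `S`. -/
def sg {Ω ι : Type} (V : ι → Ω → Al) (S : Set ι) : MeasurableSpace Ω :=
  ⨆ i ∈ S, MeasurableSpace.comap (V i) inferInstance

section

variable {Ω ι : Type} [mΩ : MeasurableSpace Ω] {P : Measure Ω} [IsProbabilityMeasure P]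
  {V : ι → Ω → Al}

theorem sg_mono {S T : Set ι} (h : S ⊆ T) : sg V S ≤ sg V T :=
  biSup_mono fun _ hi => h hi

theorem sg_meas {S : Set ι} {i : ι} (hi : i ∈ S) (A : Set Al) :
    MeasurableSet[sg V S] (V i ⁻¹' A) := by
  have h : MeasurableSpace.comap (V i) inferInstance ≤ sg V S :=
    le_biSup (f := fun i => MeasurableSpace.comap (V i) inferInstance) hi
  exact h _ ⟨A, MeasurableSet.of_discrete, rfl⟩

theorem sg_le (hm : ∀ i, Measurable (V i)) (S : Set ι) : sg V S ≤ mΩ :=
  iSup₂_le fun i _ => (hm i).comap_le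

theorem sg_indep (hI : iIndepFun V P) (hm : ∀ i, Measurable (V i)) {S T : Set ι}
    (hST : Disjoint S T) {A B : Set Ω} (hA : MeasurableSet[sg V S] A)
    (hB : MeasurableSet[sg V T] B) : P (A ∩ B) = P A * P B := by
  have h := indep_iSup_of_disjoint (fun i => (hm i).comap_le) hI.iIndep hST
  exact (Indep_iff _ _ _).1 h A B hA hB

theorem sg_prod (hI : iIndepFun V P) (hm : ∀ i, Measurable (V i)) {α : Type} [DecidableEq α]
    (F : Finset α) (S : α → Set ι) (hS : ∀ x ∈ F, ∀ y ∈ F, x ≠ y → Disjoint (S x) (S y))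
    (A : α → Set Ω) (hA : ∀ x ∈ F, MeasurableSet[sg V (S x)] (A x)) :
    P (⋂ x ∈ F, A x) = ∏ x ∈ F, P (A x) ∧
      MeasurableSet[sg V (⋃ x ∈ F, S x)] (⋂ x ∈ F, A x) := by
  induction F using Finset.induction_on with
  | empty => simp
  | insert a F ha ih =>
    obtain ⟨h1, h2⟩ := ih (fun x hx y hy => hS x (by simp [hx]) y (by simp [hy]))
      (fun x hx => hA x (by simp [hx]))
    have h3 := hA a (by simp)
    rw [Finset.set_biInter_insert, Finset.prod_insert ha, ← h1]
    constructor
    · apply sg_indep hI hm _ h3 h2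
      rw [Set.disjoint_iUnion₂_right]
      intro y hy
      exact hS a (by simp) y (by simp [hy]) (by rintro rfl; exact ha hy)
    · refine MeasurableSet.inter (m := sg V (⋃ x ∈ insert a F, S x)) ?_ ?_
      · exact sg_mono (Set.subset_biUnion_of_mem (u := S) (by simp)) _ h3
      · apply sg_mono _ _ h2
        exact Set.biUnion_subset_biUnion_left (fun x hx => by simp [hx])

end

/-! ### Steps -/

theorem stp_cases (z : List (Fin 3)) (v : Al) :
    (∃ c, stp z v = c :: z) ∨ (z ≠ [] ∧ stp z v = z.tail) := by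
  unfold stp
  split_ifs with h1 h2
  · left; exact ⟨v.1, by rw [h1]⟩
  · right; exact ⟨h1, rfl⟩
  · left; exact ⟨v.1, rfl⟩

theorem stp_length (z : List (Fin 3)) (v : Al) : (stp z v).length ≤ z.length + 1 := by
  rcases stp_cases z v with ⟨c, h⟩ | ⟨_, h⟩
  · rw [h]; simp
  · rw [h, List.length_tail]; omega

/-- One step of the stopped walk. -/
def nxt (n : ℕ) (z : List (Fin 3)) (v : Al) : List (Fin 3) :=
  if n ≤ z.length then z else stp z v

theorem W_succ (n : ℕ) (x : List (Fin 3)) (v : ℕ → Al) (m : ℕ) :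
    W n x v (m + 1) = nxt n (W n x v m) (v m) := rfl

theorem nxt_mem (n : ℕ) {z : List (Fin 3)} (hz : z ∈ frogs (n + 1)) (v : Al) :
    nxt n z v ∈ frogs (n + 1) := by
  rw [mem_frogs] at hz ⊢
  unfold nxt
  split_ifs with h
  · exact hz
  · have := stp_length z v; omega

theorem W_mem (n : ℕ) {x : List (Fin 3)} (hx : x.length < n) (v : ℕ → Al) (m : ℕ) :
    W n x v m ∈ frogs (n + 1) := by
  induction m with
  | zero => rw [mem_frogs]; exact (show x.length < n + 1 by omega)
  | succ m ih => rw [W_succ]; exact nxt_mem n ih _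

/-- The averaging operator. -/
noncomputable def PP (n : ℕ) (Φ : List (Fin 3) → ℝ) (z : List (Fin 3)) : ℝ :=
  (1 / 12) * ∑ v : Al, Φ (nxt n z v)

theorem PP_of_le {n : ℕ} (Φ : List (Fin 3) → ℝ) {z : List (Fin 3)} (hz : n ≤ z.length) :
    PP n Φ z = Φ z := by
  unfold PP nxt
  simp only [hz, if_true, Finset.sum_const, Finset.card_univ, Fintype.card_prod, Fintype.card_fin,
    nsmul_eq_mul]
  push_cast; ring

theorem PP_nil {n : ℕ} (hn : 0 < n) (Φ : List (Fin 3) → ℝ) :
    PP n Φ [] = (1 / 3) * ∑ j : Fin 3, Φ [j] := by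
  unfold PP nxt stp
  simp only [List.length_nil, if_neg (not_le.2 hn), if_true]
  rw [Fintype.sum_prod_type]
  simp only [Finset.sum_const, Finset.card_univ, Fintype.card_fin, nsmul_eq_mul]
  rw [← Finset.mul_sum]
  push_cast; ring

theorem PP_cons {n : ℕ} (i : Fin 3) (z : List (Fin 3)) (hn : z.length + 1 < n)
    (Φ : List (Fin 3) → ℝ) :
    PP n Φ (i :: z) = (1 / 4) * (Φ z + ∑ j : Fin 3, Φ (j :: i :: z)) := by
  unfold PP nxt stp
  simp only [List.length_cons, if_neg (not_le.2 hn), reduceCtorEq, if_false, List.tail_cons]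
  rw [Fintype.sum_prod_type]
  have h : ∀ a : Fin 3, ∑ b : Fin 4, Φ (if b = 0 then z else a :: i :: z) =
      Φ z + 3 * Φ (a :: i :: z) := by
    intro a
    rw [Fin.sum_univ_succ]
    simp only [if_true, Fin.succ_ne_zero, if_false, Finset.sum_const, Finset.card_univ,
      Fintype.card_fin, nsmul_eq_mul]
    push_cast; ring
  simp only [h]
  rw [Finset.sum_add_distrib, ← Finset.mul_sum]
  simp only [Finset.sum_const, Finset.card_univ, Fintype.card_fin, nsmul_eq_mul]
  push_cast; ring

theorem PP_one (n : ℕ) (z : List (Fin 3)) : PP n (fun _ => 1) z = 1 := by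
  unfold PP
  simp only [Finset.sum_const, Finset.card_univ, Fintype.card_prod, Fintype.card_fin, nsmul_eq_mul]
  push_cast; ring

theorem PP_mono (n : ℕ) {Φ Ψ : List (Fin 3) → ℝ} (h : ∀ z, Φ z ≤ Ψ z) (z : List (Fin 3)) :
    PP n Φ z ≤ PP n Ψ z := by
  unfold PP
  exact mul_le_mul_of_nonneg_left (Finset.sum_le_sum fun c _ => h _) (by norm_num)

theorem PP_len (n : ℕ) (z : List (Fin 3)) :
    (z.length : ℝ) + 1 / 3 * (if z.length < n then 1 else 0) ≤
    PP n (fun z => (z.length : ℝ)) z := by
  by_cases hn : n ≤ z.length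
  · rw [PP_of_le _ hn, if_neg (by omega)]; simp
  · rw [if_pos (by omega)]
    cases z with
    | nil =>
      rw [PP_nil (by simp only [List.length_nil] at hn; omega)]
      simp only [List.length_nil, List.length_singleton, Finset.sum_const, Finset.card_univ,
        Fintype.card_fin, nsmul_eq_mul]
      push_cast; norm_num
    | cons i z =>
      rw [PP_cons _ _ (by simp only [List.length_cons] at hn; omega)]
      simp only [List.length_cons, Finset.sum_const, Finset.card_univ,
        Fintype.card_fin, nsmul_eq_mul]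
      push_cast
      linarith

theorem dl_mono {n : ℕ} {w : List (Fin 3)} {h1 h2 : List (Fin 3) → ℝ} (h : ∀ y, h1 y ≤ h2 y) :
    dl n w h1 ≤ dl n w h2 := by
  unfold dl; exact down_mono _ _ _ _ h

theorem nuF_mono {n : ℕ} (z : List (Fin 3)) : ∀ (s : Side) {h1 h2 : List (Fin 3) → ℝ},
    (∀ y, h1 y ≤ h2 y) → nuF n z s h1 ≤ nuF n z s h2 := by
  induction z with
  | nil =>
    intro s h1 h2 h
    simp only [nuF]
    exact Finset.sum_le_sum fun j _ => mul_le_mul_of_nonneg_left (dl_mono h)
      (wl_nonneg n _ _ _)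
  | cons i z ih =>
    intro s h1 h2 h
    simp only [nuF]
    exact add_le_add (mul_le_mul_of_nonneg_left (ih _ h) (wl_nonneg n _ _ _))
      (Finset.sum_le_sum fun j _ => mul_le_mul_of_nonneg_left (dl_mono h)
        (wl_nonneg n _ _ _))

theorem law_mono {n : ℕ} (z : List (Fin 3)) (s : Side) {h1 h2 : List (Fin 3) → ℝ}
    (h : ∀ y, h1 y ≤ h2 y) : law n z s h1 ≤ law n z s h2 := by
  unfold law
  split_ifs
  · exact dl_mono h
  · exact nuF_mono z s h

/-- Indicator of not having reached generation `n`. -/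
def act (n : ℕ) : List (Fin 3) → ℝ := fun z => if z.length < n then 1 else 0

section prob

variable {Ω : Type} [mΩ : MeasurableSpace Ω] {P : Measure Ω} [IsProbabilityMeasure P]
  {c : ℕ → Ω → Al} (hm : ∀ k, Measurable (c k)) (hI : iIndepFun c P)
  (hU : ∀ k (a : Al), P (c k ⁻¹' {a}) = 1 / 12)
  {n : ℕ} {x : List (Fin 3)} (hxn : x.length < n)

/-- The event that the stopped walk is at `z` at time `m`. -/
def WE {Ω : Type} (c : ℕ → Ω → Al) (n : ℕ) (x : List (Fin 3)) (m : ℕ) (z : List (Fin 3)) :
    Set Ω := {ω | W n x (fun j => c j ω) m = z}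

theorem WE_meas (c : ℕ → Ω → Al) (n : ℕ) (x : List (Fin 3)) (m : ℕ) :
    ∀ z, MeasurableSet[sg c {i | i < m}] (WE c n x m z) := by
  induction m with
  | zero =>
    intro z
    unfold WE
    simp only [W]
    exact MeasurableSet.const _
  | succ m ih =>
    intro z'
    have h : WE c n x (m + 1) z' = ⋃ z : List (Fin 3), (WE c n x m z ∩
        (c m ⁻¹' {v | nxt n z v = z'})) := by
      ext ω
      simp only [WE, Set.mem_setOf_eq, Set.mem_iUnion, Set.mem_inter_iff, Set.mem_preimage,
        W_succ]
      constructor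
      · intro h; exact ⟨_, rfl, h⟩
      · rintro ⟨z, rfl, h⟩; exact h
    rw [h]
    refine MeasurableSet.iUnion (m := sg c {i | i < m + 1}) fun z => ?_
    refine MeasurableSet.inter (m := sg c {i | i < m + 1}) ?_ ?_
    · have hsub : {i : ℕ | i < m} ⊆ {i | i < m + 1} := by
        intro i hi
        simp only [Set.mem_setOf_eq] at hi ⊢
        omega
      exact sg_mono hsub _ (ih z)
    · exact sg_meas (by simp) _

include hm in
theorem WE_meas' (m : ℕ) (z : List (Fin 3)) : MeasurableSet (WE c n x m z) :=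
  sg_le hm _ _ (WE_meas c n x m z)

/-- The law at time `m`. -/
noncomputable def aa (P : Measure Ω) (c : ℕ → Ω → Al) (n : ℕ)
    (x : List (Fin 3)) (m : ℕ) (z : List (Fin 3)) : ℝ := P.real (WE c n x m z)

/-- Expectation at time `m`. -/
noncomputable def Av (P : Measure Ω) (c : ℕ → Ω → Al) (n : ℕ)
    (x : List (Fin 3)) (m : ℕ) (Φ : List (Fin 3) → ℝ) : ℝ :=
  ∑ z ∈ frogs (n + 1), aa P c n x m z * Φ z

include hm hU in
theorem c_prob (k : ℕ) (B : Set Al) [DecidablePred (· ∈ B)] :
    P.real (c k ⁻¹' B) = ∑ v : Al, if v ∈ B then (1 / 12 : ℝ) else 0 := by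
  have h : c k ⁻¹' B = ⋃ v ∈ Finset.univ.filter (fun v : Al => v ∈ B), c k ⁻¹' {v} := by
    ext ω
    simp only [Set.mem_preimage, Set.mem_iUnion, Finset.mem_filter, Finset.mem_univ, true_and,
      exists_prop, Set.mem_singleton_iff]
    constructor
    · intro h; exact ⟨_, h, rfl⟩
    · rintro ⟨v, hv, h⟩; rw [h]; exact hv
  rw [h, measureReal_biUnion_finset]
  · rw [Finset.sum_filter]
    refine Finset.sum_congr rfl fun v _ => ?_
    rw [measureReal_def, hU]
    simp
  · intro v _ v2 _ hvv
    rw [Function.onFun, Set.disjoint_left]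
    intro ω h1 h2
    simp only [Set.mem_preimage, Set.mem_singleton_iff] at h1 h2
    exact hvv (h1.symm.trans h2)
  · intro v _
    exact hm k (MeasurableSet.singleton v)

include hI hm hU hxn in
theorem Av_succ (m : ℕ) (Φ : List (Fin 3) → ℝ) :
    Av P c n x (m + 1) Φ = Av P c n x m (PP n Φ) := by
  have h1 : ∀ z', aa P c n x (m + 1) z' = ∑ z ∈ frogs (n + 1), aa P c n x m z *
      P.real (c m ⁻¹' {v | nxt n z v = z'}) := by
    intro z'
    have h : WE c n x (m + 1) z' = ⋃ z ∈ frogs (n + 1), (WE c n x m z ∩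
        (c m ⁻¹' {v | nxt n z v = z'})) := by
      ext ω
      simp only [WE, Set.mem_setOf_eq, Set.mem_iUnion, Set.mem_inter_iff, Set.mem_preimage,
        W_succ, exists_prop]
      constructor
      · intro h; exact ⟨_, W_mem n hxn _ m, rfl, h⟩
      · rintro ⟨z, _, rfl, h⟩; exact h
    unfold aa
    rw [h, measureReal_biUnion_finset]
    · refine Finset.sum_congr rfl fun z _ => ?_
      have := sg_indep hI hm (S := {i | i < m}) (T := {m})
        (by rw [Set.disjoint_singleton_right]; simp)
        (WE_meas c n x m z) (sg_meas (Set.mem_singleton _) {v | nxt n z v = z'})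
      rw [measureReal_def, this, ENNReal.toReal_mul]; rfl
    · intro z _ z2 _ hzz
      rw [Function.onFun, Set.disjoint_left]
      rintro ω ⟨h1, _⟩ ⟨h2, _⟩
      exact hzz (h1.symm.trans h2)
    · intro z _
      exact (WE_meas' hm m z).inter (hm _ MeasurableSet.of_discrete)
  have h2 : ∀ z ∈ frogs (n + 1), ∑ z' ∈ frogs (n + 1),
      P.real (c m ⁻¹' {v | nxt n z v = z'}) * Φ z' = PP n Φ z := by
    intro z hz
    unfold PP
    have h3 : ∀ z', P.real (c m ⁻¹' {v | nxt n z v = z'}) =
        ∑ v : Al, if nxt n z v = z' then (1 / 12 : ℝ) else 0 := by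
      intro z'
      rw [c_prob hm hU m {v | nxt n z v = z'}]
      rfl
    simp only [h3, Finset.sum_mul, ite_mul, zero_mul]
    rw [Finset.sum_comm, Finset.mul_sum]
    refine Finset.sum_congr rfl fun v _ => ?_
    rw [Finset.sum_ite_eq, if_pos (nxt_mem n hz v)]
  unfold Av
  simp only [h1, Finset.sum_mul]
  rw [Finset.sum_comm]
  refine Finset.sum_congr rfl fun z hz => ?_
  rw [← h2 z hz, Finset.mul_sum]
  exact Finset.sum_congr rfl fun z' _ => by ring

include hxn in
theorem Av_zero (Φ : List (Fin 3) → ℝ) : Av P c n x 0 Φ = Φ x := by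
  unfold Av aa WE
  simp only [W]
  have : ∀ z, P.real {ω : Ω | x = z} * Φ z = if x = z then Φ z else 0 := by
    intro z
    split_ifs with h
    · simp [h]
    · simp [h]
  simp only [this]
  rw [Finset.sum_ite_eq, if_pos]
  rw [mem_frogs]; omega

theorem Av_mono {m : ℕ} {Φ Ψ : List (Fin 3) → ℝ} (h : ∀ z ∈ frogs (n + 1), Φ z ≤ Ψ z) :
    Av P c n x m Φ ≤ Av P c n x m Ψ :=
  Finset.sum_le_sum fun z hz => mul_le_mul_of_nonneg_left (h z hz) measureReal_nonneg

theorem Av_congr {m : ℕ} {Φ Ψ : List (Fin 3) → ℝ} (h : ∀ z ∈ frogs (n + 1), Φ z = Ψ z) :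
    Av P c n x m Φ = Av P c n x m Ψ :=
  Finset.sum_congr rfl fun z hz => by rw [h z hz]

include hI hm hU hxn

theorem Av_H {H : List (Fin 3) → ℝ} (h3 : 0 < n → ∑ j : Fin 3, H [j] = 3 * H [])
    (h4 : ∀ (i : Fin 3) (z : List (Fin 3)), z.length + 1 < n →
      ∑ j : Fin 3, H (j :: i :: z) + H z = 4 * H (i :: z)) (m : ℕ) :
    Av P c n x m H = H x := by
  have hH : ∀ z, PP n H z = H z := by
    intro z
    by_cases hn : n ≤ z.length
    · exact PP_of_le H hn
    · cases z with
      | nil =>
        have h0 : 0 < n := by simp only [List.length_nil] at hn; omega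
        rw [PP_nil h0, h3 h0]; ring
      | cons i z =>
        have h0 : z.length + 1 < n := by simp only [List.length_cons] at hn; omega
        rw [PP_cons i z h0, add_comm, h4 i z h0]; ring
  induction m with
  | zero => exact Av_zero hxn _
  | succ m ih =>
    rw [Av_succ hm hI hU hxn, Av_congr fun z _ => hH z, ih]

theorem Av_one (m : ℕ) : Av P c n x m (fun _ => 1) = 1 := by
  induction m with
  | zero => exact Av_zero hxn _
  | succ m ih =>
    rw [Av_succ hm hI hU hxn, Av_congr fun z _ => PP_one n z, ih]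

theorem Av_act_anti (m : ℕ) : Av P c n x (m + 1) (act n) ≤ Av P c n x m (act n) := by
  rw [Av_succ hm hI hU hxn]
  apply Av_mono
  intro z _
  by_cases hn : n ≤ z.length
  · rw [PP_of_le _ hn]
  · have h1 : act n z = 1 := by unfold act; rw [if_pos (by omega)]
    rw [h1, ← PP_one n z]
    apply PP_mono
    intro z'
    unfold act
    split_ifs <;> norm_num

theorem Av_act_sum (m : ℕ) : ∑ i ∈ range m, Av P c n x i (act n) ≤
    3 * Av P c n x m (fun z => (z.length : ℝ)) := by
  induction m with
  | zero =>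
    simp only [Finset.range_zero, Finset.sum_empty]
    have : 0 ≤ Av P c n x 0 (fun z => (z.length : ℝ)) :=
      Finset.sum_nonneg fun z _ => mul_nonneg measureReal_nonneg (Nat.cast_nonneg _)
    linarith
  | succ m ih =>
    rw [Finset.sum_range_succ, Av_succ hm hI hU hxn]
    have h1 : Av P c n x m (fun z => (z.length : ℝ) + 1 / 3 * act n z) ≤
        Av P c n x m (PP n (fun z => (z.length : ℝ))) :=
      Av_mono fun z _ => PP_len n z
    have h2 : Av P c n x m (fun z => (z.length : ℝ) + 1 / 3 * act n z) =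
        Av P c n x m (fun z => (z.length : ℝ)) + 1 / 3 * Av P c n x m (act n) := by
      unfold Av
      rw [Finset.mul_sum, ← Finset.sum_add_distrib]
      exact Finset.sum_congr rfl fun z _ => by ring
    linarith

theorem Av_act_le (m : ℕ) : Av P c n x m (act n) * m ≤ 3 * n := by
  have h1 : ∑ i ∈ range m, Av P c n x m (act n) ≤ ∑ i ∈ range m, Av P c n x i (act n) := by
    refine Finset.sum_le_sum fun i hi => ?_
    have hanti : Antitone (fun i => Av P c n x i (act n)) :=
      antitone_nat_of_succ_le fun i => Av_act_anti hm hI hU hxn i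
    exact hanti (Finset.mem_range.1 hi).le
  simp only [Finset.sum_const, Finset.card_range, nsmul_eq_mul] at h1
  have h2 := Av_act_sum hm hI hU hxn m
  have h3 : Av P c n x m (fun z => (z.length : ℝ)) ≤ Av P c n x m (fun _ => n * 1) := by
    apply Av_mono
    intro z hz
    have := (mem_frogs _ _).1 hz
    rw [mul_one]
    exact_mod_cast (by omega : z.length ≤ n)
  have h4 : Av P c n x m (fun _ => (n : ℝ) * 1) = n * Av P c n x m (fun _ => 1) := by
    unfold Av
    rw [Finset.mul_sum]
    exact Finset.sum_congr rfl fun z _ => by ring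
  rw [h4, Av_one hm hI hU hxn, mul_one] at h3
  linarith

theorem Av_act_tendsto : Filter.Tendsto (fun m => Av P c n x m (act n)) Filter.atTop
    (nhds 0) := by
  have h0 : ∀ m, 0 ≤ Av P c n x m (act n) := fun m =>
    Finset.sum_nonneg fun z _ => mul_nonneg measureReal_nonneg (by unfold act; split_ifs <;> simp)
  have h1 : ∀ m, Av P c n x m (act n) ≤ (3 * n + 1) / (m + 1 : ℝ) := by
    intro m
    rw [le_div_iff₀ (by positivity)]
    have h2 := Av_act_le hm hI hU hxn m
    have h3 : Av P c n x m (act n) ≤ 1 := by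
      rw [← Av_one hm hI hU hxn m]
      apply Av_mono
      intro z _
      unfold act; split_ifs <;> norm_num
    linarith
  refine squeeze_zero h0 h1 ?_
  have := (tendsto_one_div_add_atTop_nhds_zero_nat (𝕜 := ℝ)).const_mul (3 * (n : ℝ) + 1)
  rw [mul_zero] at this
  refine this.congr fun m => ?_
  ring

/-- The law of the stopped walk converges to the harmonic law. -/
theorem aa_tendsto (hH : S_HARM) {y : List (Fin 3)} (hyl : y.length = n) :
    Filter.Tendsto (fun m => aa P c n x m y) Filter.atTop
      (nhds (law n x .own (ind y))) := by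
  obtain ⟨H, hH1, hH2, hH3, hH4⟩ := hH n (ind y)
  have hyv : y ∈ frogs (n + 1) := by rw [mem_frogs]; omega
  have hind : ∀ m, Av P c n x m (ind y) = aa P c n x m y := by
    intro m
    unfold Av ind
    simp only [mul_ite, mul_one, mul_zero]
    rw [Finset.sum_ite_eq', if_pos hyv]
  have hsplit : ∀ m, law n x .own (ind y) = aa P c n x m y +
      Av P c n x m (fun z => act n z * law n z .own (ind y)) := by
    intro m
    have h1 := Av_H hm hI hU hxn hH3 hH4 m
    rw [hH2 x hxn] at h1
    rw [← h1, ← hind]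
    unfold Av
    rw [← Finset.sum_add_distrib]
    refine Finset.sum_congr rfl fun z _ => ?_
    by_cases hn : n ≤ z.length
    · have e2 : act n z = 0 := by unfold act; rw [if_neg (by omega)]
      simp only [hH1 z hn, e2]; ring
    · have e2 : act n z = 1 := by unfold act; rw [if_pos (by omega)]
      have e3 : ind y z = 0 := by
        unfold ind; rw [if_neg]; rintro rfl; omega
      simp only [hH2 z (by omega), e2, e3]; ring
  have hb0 : ∀ z ∈ frogs (n + 1), 0 ≤ act n z * law n z .own (ind y) := by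
    intro z _
    apply mul_nonneg
    · unfold act; split_ifs <;> simp
    · have h1 : law n z .own (fun _ => (0 : ℝ)) ≤ law n z .own (ind y) :=
        law_mono z .own (fun y' => by unfold ind; split_ifs <;> simp)
      rwa [law_const] at h1
  have hb1 : ∀ z ∈ frogs (n + 1), act n z * law n z .own (ind y) ≤ act n z := by
    intro z _
    have h1 : law n z .own (ind y) ≤ law n z .own (fun _ => (1 : ℝ)) :=
      law_mono z .own (fun y' => by unfold ind; split_ifs <;> simp)
    rw [law_const] at h1
    have h2 : 0 ≤ act n z := by unfold act; split_ifs <;> simp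
    nlinarith
  have hlim : Filter.Tendsto (fun m => Av P c n x m
      (fun z => act n z * law n z .own (ind y))) Filter.atTop (nhds 0) := by
    refine squeeze_zero (fun m => ?_) (fun m => ?_)
      (Av_act_tendsto hm hI hU hxn)
    · exact Finset.sum_nonneg fun z hz => mul_nonneg measureReal_nonneg (hb0 z hz)
    · exact Av_mono hb1
  have h3 : (fun m => aa P c n x m y) = fun m => law n x .own (ind y) -
      Av P c n x m (fun z => act n z * law n z .own (ind y)) := by
    funext m
    rw [hsplit m]; ring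
  rw [h3]
  have := hlim.const_sub (law n x .own (ind y))
  rwa [sub_zero] at this

end prob

theorem main (h : S_HARM) : S_HIT := by
  intro Ω _ P _ c hm hI hU n x y hx hy
  exact aa_tendsto hm hI hU hx h hy

end Pool.Agent.W847.T3.T_HIT
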