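import Pool.Agent.W847.T3.T_KB

/-!
# The kernel value of the star, stage A
-/

set_option autoImplicit false

open Finset

namespace Pool.Agent.W847.T3.T_KA

open Pool.Agent.W847.T3.KB Pool.Agent.W847.T3.T_KB

/-- Functions on triples of tapes. -/
abbrev TF : Type := List ℕ → List ℕ → List ℕ → ℕ

theorem route_congr2 {w : List (Fin 3) → Side → Fin 4 → ℝ} (v : List (Fin 3)) (n p : ℕ) :
    ∀ (t : SS) (ρ ρ' : SS → ℝ), pot t ≤ n → pot t ≤ p →
    (∀ t' : SS, t'.f = (fun _ => 0) → pot t' ≤ p → ρ t' = ρ' t') →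
    (route v n t).E w ρ = (route v n t).E w ρ' := by
  induction n with
  | zero =>
    intro t ρ ρ' ht hp h
    apply h _ _ hp
    unfold pot at ht
    funext i
    fin_cases i <;> simp <;> omega
  | succ n ih =>
    intro t ρ ρ' ht hp h
    simp only [route]
    split_ifs with h0 h1 h2
    · simp only [Prog.E]
      refine Finset.sum_congr rfl fun a _ => ?_
      have := pot_take1 0 t h0
      rw [ih _ ρ ρ' (by rw [pot_move]; omega) (by rw [pot_move]; omega) h]
    · simp only [Prog.E]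
      refine Finset.sum_congr rfl fun a _ => ?_
      have := pot_take1 1 t h1
      rw [ih _ ρ ρ' (by rw [pot_move]; omega) (by rw [pot_move]; omega) h]
    · simp only [Prog.E]
      refine Finset.sum_congr rfl fun a _ => ?_
      have := pot_take1 2 t h2
      rw [ih _ ρ ρ' (by rw [pot_move]; omega) (by rw [pot_move]; omega) h]
    · apply h _ _ hp
      funext i
      fin_cases i <;> simp <;> omega

theorem ph_congr2 {w : List (Fin 3) → Side → Fin 4 → ℝ} (v : List (Fin 3)) (p : ℕ) (t : SS)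
    (ρ ρ' : SS → ℝ) (hp : pot t ≤ p)
    (h : ∀ t' : SS, t'.f = (fun _ => 0) → pot t' ≤ p → ρ t' = ρ' t') :
    (ph v t).E w ρ = (ph v t).E w ρ' := by
  simp only [ph, Prog.E, routeAll]
  exact Finset.sum_congr rfl fun a _ => by
    rw [route_congr2 v _ p _ ρ ρ' le_rfl (by rw [pot_move]; exact hp) h]

theorem ph1_congr2 {w : List (Fin 3) → Side → Fin 4 → ℝ} (v : List (Fin 3)) (p : ℕ) (t : SS)
    (ρ ρ' : SS → ℝ) (hp : pot t ≤ p)
    (h : ∀ t' : SS, t'.f = (fun _ => 0) → pot t' ≤ p → ρ t' = ρ' t') :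
    (ph1 v t).E w ρ = (ph1 v t).E w ρ' := by
  simp only [ph1, Prog.E, routeAll]
  refine Finset.sum_congr rfl fun a _ => ?_
  congr 1
  exact Finset.sum_congr rfl fun b _ => by
    rw [route_congr2 v _ p _ ρ ρ' le_rfl (by rw [pot_move, pot_move]; exact hp) h]

/-- Cut-off. -/
def cut (T : TF) : TF := fun a b c => if a.sum + b.sum + c.sum ≤ 21 then T a b c else 0

theorem Vt_zero (X : ℕ → ℕ) (T : TF) (t : SS) :
    Vt (Ker.V X T) 0 t = T (t.L 0) (t.L 1) (t.L 2) := rfl

theorem V_succ (X : ℕ → ℕ) (T : TF) (n : ℕ) (t : SS) :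
    Vt (Ker.V X T) (n + 1) t =
      if 0 < t.f 0 then X (Vt (Ker.V X T) n (take1 0 t)) +
        (Vt (Ker.V X T) n (enter 1 (take1 0 t)) + Vt (Ker.V X T) n (enter 2 (take1 0 t)))
      else if 0 < t.f 1 then X (Vt (Ker.V X T) n (take1 1 t)) +
        (Vt (Ker.V X T) n (enter 0 (take1 1 t)) + Vt (Ker.V X T) n (enter 2 (take1 1 t)))
      else if 0 < t.f 2 then X (Vt (Ker.V X T) n (take1 2 t)) +
        (Vt (Ker.V X T) n (enter 0 (take1 2 t)) + Vt (Ker.V X T) n (enter 1 (take1 2 t)))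
      else T (t.L 0) (t.L 1) (t.L 2) := by
  obtain ⟨L, f, u⟩ := t
  rw [← ent1, ← ent2, ← ent0, ← ent2, ← ent0, ← ent1]
  unfold Vt take1
  simp only
  cases h0 : f 0 with
  | succ g =>
    simp only [Nat.succ_pos, if_true, Nat.add_sub_cancel, Function.update_self,
      Function.update_of_ne (by decide : (1 : Fin 3) ≠ 0),
      Function.update_of_ne (by decide : (2 : Fin 3) ≠ 0)]
    exact st_eq g (fun g => Nat.add (X (Ker.V X T n (L 0) g (L 1) (f 1) (L 2) (f 2)))
      (Nat.add (Ker.ent (L 1) (f 1) (fun L' f' => Ker.V X T n (L 0) g L' f' (L 2) (f 2)))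
        (Ker.ent (L 2) (f 2) (fun L' f' => Ker.V X T n (L 0) g (L 1) (f 1) L' f'))))
  | zero =>
    simp only [lt_irrefl, if_false]
    cases h1 : f 1 with
    | succ g =>
      simp only [Nat.succ_pos, if_true, Nat.add_sub_cancel, Function.update_self, h0,
        Function.update_of_ne (by decide : (0 : Fin 3) ≠ 1),
        Function.update_of_ne (by decide : (2 : Fin 3) ≠ 1)]
      exact st_eq g (fun g => Nat.add (X (Ker.V X T n (L 0) 0 (L 1) g (L 2) (f 2)))
        (Nat.add (Ker.ent (L 0) 0 (fun L' f' => Ker.V X T n L' f' (L 1) g (L 2) (f 2)))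
          (Ker.ent (L 2) (f 2) (fun L' f' => Ker.V X T n (L 0) 0 (L 1) g L' f'))))
    | zero =>
      simp only [lt_irrefl, if_false]
      cases h2 : f 2 with
      | succ g =>
        simp only [Nat.succ_pos, if_true, Nat.add_sub_cancel, Function.update_self, h0, h1,
          Function.update_of_ne (by decide : (0 : Fin 3) ≠ 2),
          Function.update_of_ne (by decide : (1 : Fin 3) ≠ 2)]
        exact st_eq g (fun g => Nat.add (X (Ker.V X T n (L 0) 0 (L 1) 0 (L 2) g))
          (Nat.add (Ker.ent (L 0) 0 (fun L' f' => Ker.V X T n L' f' (L 1) 0 (L 2) g))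
            (Ker.ent (L 1) 0 (fun L' f' => Ker.V X T n (L 0) 0 L' f' (L 2) g))))
      | zero =>
        simp only [lt_irrefl, if_false]
        rfl

theorem V_congr (X : ℕ → ℕ) (T T' : TF) (n p : ℕ) : ∀ t : SS, pot t ≤ p →
    (∀ a b c : List ℕ, a.sum + b.sum + c.sum ≤ p → T a b c = T' a b c) →
    Vt (Ker.V X T) n t = Vt (Ker.V X T') n t := by
  induction n with
  | zero =>
    intro t hp h
    rw [Vt_zero, Vt_zero]
    apply h
    unfold pot at hp; omega
  | succ n ih =>
    intro t hp h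
    rw [V_succ, V_succ]
    split_ifs with h0 h1 h2
    · have := pot_take1 0 t h0
      rw [ih _ (by omega) h, ih _ (by rw [pot_enter]; omega) h, ih _ (by rw [pot_enter]; omega) h]
    · have := pot_take1 1 t h1
      rw [ih _ (by omega) h, ih _ (by rw [pot_enter]; omega) h, ih _ (by rw [pot_enter]; omega) h]
    · have := pot_take1 2 t h2
      rw [ih _ (by omega) h, ih _ (by rw [pot_enter]; omega) h, ih _ (by rw [pot_enter]; omega) h]
    · apply h
      unfold pot at hp; omega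

theorem start_congr (X : ℕ → ℕ) (T T' : TF) (L0 L1 L2 : List ℕ)
    (h : ∀ a b c : List ℕ, a.sum + b.sum + c.sum ≤ sg ![L0, L1, L2] → T a b c = T' a b c) :
    Ker.start (Ker.V X T) L0 L1 L2 = Ker.start (Ker.V X T') L0 L1 L2 := by
  rw [start_eq, start_eq]
  rw [V_congr X T T' _ (sg ![L0, L1, L2]) (enter 0 _) (by rw [pot_enter, pot_s0]) h,
    V_congr X T T' _ (sg ![L0, L1, L2]) (enter 1 _) (by rw [pot_enter, pot_s0]) h,
    V_congr X T T' _ (sg ![L0, L1, L2]) (enter 2 _) (by rw [pot_enter, pot_s0]) h]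

theorem start1_congr (X Y : ℕ → ℕ) (T T' : TF) (L0 L1 L2 : List ℕ)
    (h : ∀ a b c : List ℕ, a.sum + b.sum + c.sum ≤ sg ![L0, L1, L2] → T a b c = T' a b c) :
    Ker.start1 (Ker.V X T) Y L0 L1 L2 = Ker.start1 (Ker.V X T') Y L0 L1 L2 := by
  rw [start1_eq, start1_eq]
  have e1 : ∀ i, Vt (Ker.V X T) (sg ![L0, L1, L2]) (enter i (s0 ![L0, L1, L2])) =
      Vt (Ker.V X T') (sg ![L0, L1, L2]) (enter i (s0 ![L0, L1, L2])) := fun i =>
    V_congr X T T' _ (sg ![L0, L1, L2]) (enter i _) (by rw [pot_enter, pot_s0]) h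
  have e2 : ∀ i j, Vt (Ker.V X T) (sg ![L0, L1, L2]) (enter j (enter i (s0 ![L0, L1, L2]))) =
      Vt (Ker.V X T') (sg ![L0, L1, L2]) (enter j (enter i (s0 ![L0, L1, L2]))) := fun i j =>
    V_congr X T T' _ (sg ![L0, L1, L2]) (enter j _) (by rw [pot_enter, pot_enter, pot_s0]) h
  simp only [e1, e2]

section

variable (h : S_PV)

include h

/-- Counts of a later phase. -/
theorem cntP {A : ℕ} {T : TF} (hT : ∀ a b c : List ℕ, T a b c ≤ A * 3 ^ (a.sum + b.sum + c.sum))
    (r : ℕ) : ∃ g : TF, (∀ a b c, (g a b c : ℝ) = 3 * 3 ^ (a.sum + b.sum + c.sum) *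
      (ph [] (s0 ![a, b, c])).E (fun _ => wu) (RT T r)) ∧
      ∀ a b c : List ℕ, g a b c ≤ (3 * A) * 3 ^ (a.sum + b.sum + c.sum) := by
  have key : ∀ a b c : List ℕ, ∃ g : ℕ, (g : ℝ) = 3 * 3 ^ (a.sum + b.sum + c.sum) *
      (ph [] (s0 ![a, b, c])).E (fun _ => wu) (RT T r) := by
    intro a b c
    obtain ⟨d, _, h2⟩ := start_spec h (B := A * 3 ^ (sg ![a, b, c]) + 1) (R := 1) le_rfl hT a b c
      (Nat.lt_succ_self _)
    exact ⟨d r, by rw [h2, sg_eq]⟩
  choose g hg using key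
  refine ⟨g, hg, ?_⟩
  intro a b c
  have h4 := E_mono wuW (ph [] (s0 ![a, b, c])) (g := RT T r) (h := fun _ => (A : ℝ)) (RT_le hT r)
  rw [E_const wuW] at h4
  have h5 : (g a b c : ℝ) ≤ (((3 * A) * 3 ^ (a.sum + b.sum + c.sum) : ℕ) : ℝ) := by
    rw [hg]
    push_cast
    have h6 : (0 : ℝ) < 3 * 3 ^ (a.sum + b.sum + c.sum) := by positivity
    nlinarith
  exact_mod_cast h5

/-- Counts of the first phase. -/
theorem cntQ {A : ℕ} {T : TF} (hT : ∀ a b c : List ℕ, T a b c ≤ A * 3 ^ (a.sum + b.sum + c.sum))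
    (r : ℕ) : ∃ g : TF, (∀ a b c, (g a b c : ℝ) = 12 * 3 ^ (a.sum + b.sum + c.sum) *
      (ph1 [] (s0 ![a, b, c])).E (fun _ => wu) (RT T r)) ∧
      ∀ a b c : List ℕ, g a b c ≤ (12 * A) * 3 ^ (a.sum + b.sum + c.sum) := by
  have key : ∀ a b c : List ℕ, ∃ g : ℕ, (g : ℝ) = 12 * 3 ^ (a.sum + b.sum + c.sum) *
      (ph1 [] (s0 ![a, b, c])).E (fun _ => wu) (RT T r) := by
    intro a b c
    obtain ⟨d, _, h2⟩ := start1_spec h (B := A * 3 ^ (sg ![a, b, c]) + 1) (R := 1) le_rfl hT a b c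
      (Nat.lt_succ_self _)
    exact ⟨d r, by rw [h2, sg_eq]⟩
  choose g hg using key
  refine ⟨g, hg, ?_⟩
  intro a b c
  have h4 := E_mono wuW (ph1 [] (s0 ![a, b, c])) (g := RT T r) (h := fun _ => (A : ℝ)) (RT_le hT r)
  rw [E_const wuW] at h4
  have h5 : (g a b c : ℝ) ≤ (((12 * A) * 3 ^ (a.sum + b.sum + c.sum) : ℕ) : ℝ) := by
    rw [hg]
    push_cast
    have h6 : (0 : ℝ) < 12 * 3 ^ (a.sum + b.sum + c.sum) := by positivity
    nlinarith
  exact_mod_cast h5

end

theorem cut_le {A : ℕ} {T : TF}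
    (hT : ∀ a b c : List ℕ, a.sum + b.sum + c.sum ≤ 21 →
      T a b c ≤ A * 3 ^ (a.sum + b.sum + c.sum)) :
    ∀ a b c : List ℕ, cut T a b c ≤ A * 3 ^ (a.sum + b.sum + c.sum) := by
  intro a b c
  unfold cut
  split_ifs with h
  · exact hT a b c h
  · exact Nat.zero_le _

theorem RT_add (T T' : TF) (r : ℕ) (t : SS) :
    RT (fun a b c => T a b c + T' a b c) r t = RT T r t + RT T' r t := by
  unfold RT
  split_ifs
  · push_cast; ring
  · simp

theorem RT_mul (T : TF) (k r : ℕ) (t : SS) :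
    RT (fun a b c => T a b c * k) r t = RT T r t * k := by
  unfold RT
  split_ifs
  · push_cast; ring
  · simp

theorem eta3 (L : Fin 3 → List ℕ) : ![L 0, L 1, L 2] = L := by
  funext i
  fin_cases i <;> rfl

theorem E_sum {w : List (Fin 3) → Side → Fin 4 → ℝ} {β : Type} (P : Prog β) (m : ℕ)
    (f : ℕ → β → ℝ) (c : ℕ → ℝ) :
    P.E w (fun r => ∑ j ∈ range m, f j r * c j) = ∑ j ∈ range m, P.E w (f j) * c j := by
  induction m with
  | zero =>
    simp only [Finset.range_zero, Finset.sum_empty]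
    have := E_mul (w := w) P 0 (fun _ => 0)
    simpa using this
  | succ m ih =>
    simp only [Finset.sum_range_succ]
    rw [E_add, ih]
    congr 1
    have : (fun r => f m r * c m) = fun r => c m * f m r := by funext r; ring
    rw [this, E_mul]; ring

theorem RT_sum (u : ℕ → TF) (c : ℕ → ℕ) (m r : ℕ) (t : SS) :
    RT (fun a b d => ∑ j ∈ range m, u j a b d * c j) r t =
      ∑ j ∈ range m, RT (u j) r t * (c j : ℝ) := by
  unfold RT
  split_ifs
  · push_cast
    rw [Finset.sum_div]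
    exact Finset.sum_congr rfl fun j _ => by ring
  · simp

/-- Value of a counting function divided by the scale. -/
theorem RT_of {T : TF} {k : ℝ} {G : SS → ℝ} (r : ℕ) (t : SS)
    (hT : (T (t.L 0) (t.L 1) (t.L 2) : ℝ) =
      k * 3 ^ ((t.L 0).sum + (t.L 1).sum + (t.L 2).sum) * G t) :
    RT T r t = k * (if t.u = r then 1 else 0) * G t := by
  unfold RT
  split_ifs
  · rw [hT]
    field_simp
  · simp

theorem pot_le {t : SS} (hf : t.f = fun _ => 0) {p : ℕ} (hp : pot t ≤ p) :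
    (t.L 0).sum + (t.L 1).sum + (t.L 2).sum ≤ p := by
  unfold pot at hp
  rw [hf] at hp
  omega

theorem sum_blocks (f : ℕ → ℕ) (W m : ℕ) :
    ∑ i ∈ range (7 * m), f i * W ^ i =
      ∑ r ∈ range m, (∑ j ∈ range 7, f (7 * r + j) * W ^ j) * (W ^ 7) ^ r := by
  induction m with
  | zero => simp
  | succ m ih =>
    rw [Finset.sum_range_succ, ← ih, Nat.mul_succ, Finset.sum_range_add, Finset.sum_mul]
    congr 1
    refine Finset.sum_congr rfl fun j _ => ?_
    rw [pow_add, pow_mul]; ring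

theorem blocks_eq (d : ℕ → ℕ) (F : ℕ → ℕ → ℕ) (W : ℕ)
    (hd : ∀ r, d r = ∑ j ∈ range 7, F j r * W ^ j) :
    ∑ r ∈ range 7, d r * (W ^ 7) ^ r =
      ∑ i ∈ range 49, (if i < 49 then F (i % 7) (i / 7) else 0) * W ^ i := by
  have e := sum_blocks (fun i => if i < 49 then F (i % 7) (i / 7) else 0) W 7
  rw [show 7 * 7 = 49 by norm_num] at e
  rw [e]
  refine Finset.sum_congr rfl fun r hr => ?_
  have hr' := Finset.mem_range.1 hr
  have hsum : (∑ j ∈ range 7, F j r * W ^ j) = ∑ j ∈ range 7,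
      (if 7 * r + j < 49 then F ((7 * r + j) % 7) ((7 * r + j) / 7) else 0) * W ^ j := by
    refine Finset.sum_congr rfl fun j hj => ?_
    have hj' := Finset.mem_range.1 hj
    rw [if_pos (by omega), show (7 * r + j) % 7 = j by omega, show (7 * r + j) / 7 = r by omega]
  rw [hd, hsum]

section cls

open Classical

theorem c0 (r : ℕ) (o : List ℕ) : (if clsA (7 * r + 0) o then (1 : ℝ) else 0) =
    (if o.getD 0 0 = r then 1 else 0) * ((if o.getD 1 0 = 0 then 1 else 0) * (if o.getD 2 0 = 0 then 1 else 0)) := by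
  have h : clsA (7 * r + 0) o ↔ (o.getD 0 0 = r ∧ o.getD 1 0 = 0 ∧ o.getD 2 0 = 0) := by
    unfold clsA
    rw [show (7 * r + 0) / 7 = r by omega, show (7 * r + 0) % 7 = 0 by omega]
    exact Iff.rfl
  by_cases h1 : o.getD 0 0 = r <;> by_cases h2 : o.getD 1 0 = 0 <;>
    by_cases h3 : o.getD 2 0 = 0 <;> simp only [h, h1, h2, h3, true_and, and_true, false_and, and_false, and_self, if_true,
      if_false, mul_one, mul_zero, zero_mul, one_mul]

theorem c1 (r : ℕ) (o : List ℕ) : (if clsA (7 * r + 1) o then (1 : ℝ) else 0) =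
    (if o.getD 0 0 = r then 1 else 0) * ((if o.getD 1 0 = 0 then 1 else 0) * (if o.getD 2 0 = 1 then 1 else 0)) := by
  have h : clsA (7 * r + 1) o ↔ (o.getD 0 0 = r ∧ o.getD 1 0 = 0 ∧ o.getD 2 0 = 1) := by
    unfold clsA
    rw [show (7 * r + 1) / 7 = r by omega, show (7 * r + 1) % 7 = 1 by omega]
    exact Iff.rfl
  by_cases h1 : o.getD 0 0 = r <;> by_cases h2 : o.getD 1 0 = 0 <;>
    by_cases h3 : o.getD 2 0 = 1 <;> simp only [h, h1, h2, h3, true_and, and_true, false_and, and_false, and_self, if_true,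
      if_false, mul_one, mul_zero, zero_mul, one_mul]

theorem c2 (r : ℕ) (o : List ℕ) : (if clsA (7 * r + 2) o then (1 : ℝ) else 0) =
    (if o.getD 0 0 = r then 1 else 0) * ((if o.getD 1 0 = 0 then 1 else 0) * 1) := by
  have h : clsA (7 * r + 2) o ↔ (o.getD 0 0 = r ∧ o.getD 1 0 = 0) := by
    unfold clsA
    rw [show (7 * r + 2) / 7 = r by omega, show (7 * r + 2) % 7 = 2 by omega]
    exact Iff.rfl
  by_cases h1 : o.getD 0 0 = r <;> by_cases h2 : o.getD 1 0 = 0 <;>
    simp only [h, h1, h2, true_and, and_true, false_and, and_false, and_self, if_true,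
      if_false, mul_one, mul_zero, zero_mul, one_mul]

theorem c3 (r : ℕ) (o : List ℕ) : (if clsA (7 * r + 3) o then (1 : ℝ) else 0) =
    (if o.getD 0 0 = r then 1 else 0) * ((if o.getD 1 0 = 1 then 1 else 0) * (if o.getD 2 0 = 0 then 1 else 0)) := by
  have h : clsA (7 * r + 3) o ↔ (o.getD 0 0 = r ∧ o.getD 1 0 = 1 ∧ o.getD 2 0 = 0) := by
    unfold clsA
    rw [show (7 * r + 3) / 7 = r by omega, show (7 * r + 3) % 7 = 3 by omega]
    exact Iff.rfl
  by_cases h1 : o.getD 0 0 = r <;> by_cases h2 : o.getD 1 0 = 1 <;>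
    by_cases h3 : o.getD 2 0 = 0 <;> simp only [h, h1, h2, h3, true_and, and_true, false_and, and_false, and_self, if_true,
      if_false, mul_one, mul_zero, zero_mul, one_mul]

theorem c4 (r : ℕ) (o : List ℕ) : (if clsA (7 * r + 4) o then (1 : ℝ) else 0) =
    (if o.getD 0 0 = r then 1 else 0) * ((if o.getD 1 0 = 1 then 1 else 0) * (if o.getD 2 0 = 1 then 1 else 0)) := by
  have h : clsA (7 * r + 4) o ↔ (o.getD 0 0 = r ∧ o.getD 1 0 = 1 ∧ o.getD 2 0 = 1) := by
    unfold clsA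
    rw [show (7 * r + 4) / 7 = r by omega, show (7 * r + 4) % 7 = 4 by omega]
    exact Iff.rfl
  by_cases h1 : o.getD 0 0 = r <;> by_cases h2 : o.getD 1 0 = 1 <;>
    by_cases h3 : o.getD 2 0 = 1 <;> simp only [h, h1, h2, h3, true_and, and_true, false_and, and_false, and_self, if_true,
      if_false, mul_one, mul_zero, zero_mul, one_mul]

theorem c5 (r : ℕ) (o : List ℕ) : (if clsA (7 * r + 5) o then (1 : ℝ) else 0) =
    (if o.getD 0 0 = r then 1 else 0) * ((if o.getD 1 0 = 1 then 1 else 0) * 1) := by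
  have h : clsA (7 * r + 5) o ↔ (o.getD 0 0 = r ∧ o.getD 1 0 = 1) := by
    unfold clsA
    rw [show (7 * r + 5) / 7 = r by omega, show (7 * r + 5) % 7 = 5 by omega]
    exact Iff.rfl
  by_cases h1 : o.getD 0 0 = r <;> by_cases h2 : o.getD 1 0 = 1 <;>
    simp only [h, h1, h2, true_and, and_true, false_and, and_false, and_self, if_true,
      if_false, mul_one, mul_zero, zero_mul, one_mul]

theorem c6 (r : ℕ) (o : List ℕ) : (if clsA (7 * r + 6) o then (1 : ℝ) else 0) =
    (if o.getD 0 0 = r then 1 else 0) * 1 := by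
  have h : clsA (7 * r + 6) o ↔ (o.getD 0 0 = r ∧ True) := by
    unfold clsA
    rw [show (7 * r + 6) / 7 = r by omega, show (7 * r + 6) % 7 = 6 by omega]
    exact Iff.rfl
  by_cases h1 : o.getD 0 0 = r <;> simp only [h, h1, and_true, if_true, if_false, mul_one]

end cls

open Classical in
theorem main (h : S_PV) : S_KA := by
  have hWpos : 0 < Ker.W := by rw [W_eq]; positivity
  -- third phase
  have hT0 : ∀ a b c : List ℕ, Ker.T0 a b c ≤ 1 * 3 ^ (a.sum + b.sum + c.sum) := by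
    intro a b c; rw [T0_eq, one_mul]
  obtain ⟨e0, he0, he0'⟩ := cntP h hT0 0
  obtain ⟨e1, he1, he1'⟩ := cntP h hT0 1
  obtain ⟨all3, hall3⟩ : ∃ all3 : TF, ∀ a b c, all3 a b c = 3 * 3 ^ (a.sum + b.sum + c.sum) :=
    ⟨fun a b c => 3 * 3 ^ (a.sum + b.sum + c.sum), fun _ _ _ => rfl⟩
  obtain ⟨all9, hall9⟩ : ∃ all9 : TF, ∀ a b c, all9 a b c = 9 * 3 ^ (a.sum + b.sum + c.sum) :=
    ⟨fun a b c => 9 * 3 ^ (a.sum + b.sum + c.sum), fun _ _ _ => rfl⟩
  have h21 : ∀ a b c : List ℕ, a.sum + b.sum + c.sum ≤ 21 →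
      3 ^ (a.sum + b.sum + c.sum) ≤ 3 ^ 21 := fun a b c hs =>
    Nat.pow_le_pow_right (by norm_num) hs
  have hT2 : ∀ a b c : List ℕ, a.sum + b.sum + c.sum ≤ 21 →
      Ker.T2 a b c = e0 a b c + e1 a b c * Ker.W + all3 a b c * Ker.W ^ 2 := by
    intro a b c hs
    have hX : Ker.X3 = fun v => (v % Ker.W ^ (2 - 1)) * Ker.W := by
      funext v
      simp only [Nat.add_one_sub_one, pow_one]; rfl
    obtain ⟨d, h1, h2⟩ := start_spec h (B := Ker.W) (R := 2) (A := 1) (T := Ker.T0) (by norm_num)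
      hT0 a b c (by
        rw [sg_eq, one_mul, W_eq]
        exact lt_of_le_of_lt (h21 a b c hs) (by norm_num))
    rw [← hX] at h1
    have d0 : d 0 = e0 a b c := by
      have : (d 0 : ℝ) = e0 a b c := by rw [h2, he0, sg_eq]
      exact_mod_cast this
    have d1 : d 1 = e1 a b c := by
      have : (d 1 : ℝ) = e1 a b c := by rw [h2, he1, sg_eq]
      exact_mod_cast this
    have hW2 : Ker.W2 = Ker.W ^ 2 := by rw [W_eq, ← pow_mul]; rfl
    change Ker.start (Ker.V Ker.X3 Ker.T0) a b c + Ker.W2 * (3 * Ker.T0 a b c) = _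
    rw [h1, hW2, T0_eq, hall3, Finset.sum_range_succ, Finset.sum_range_succ, Finset.sum_range_zero,
      d0, d1]
    ring
  -- second phase
  have c0b : ∀ a b c : List ℕ, cut e0 a b c ≤ 3 * 3 ^ (a.sum + b.sum + c.sum) :=
    cut_le fun a b c _ => by simpa using he0' a b c
  have c1b : ∀ a b c : List ℕ, cut e1 a b c ≤ 3 * 3 ^ (a.sum + b.sum + c.sum) :=
    cut_le fun a b c _ => by simpa using he1' a b c
  have c2b : ∀ a b c : List ℕ, cut all3 a b c ≤ 3 * 3 ^ (a.sum + b.sum + c.sum) :=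
    cut_le fun a b c _ => (hall3 a b c).le
  obtain ⟨T2c, hT2c⟩ : ∃ T2c : TF, T2c = fun a b c =>
      (cut e0 a b c + cut e1 a b c * Ker.W) + cut all3 a b c * Ker.W ^ 2 := ⟨_, rfl⟩
  have T2cb : ∀ a b c : List ℕ, T2c a b c ≤ (3 + 3 * Ker.W + 3 * Ker.W ^ 2) *
      3 ^ (a.sum + b.sum + c.sum) := by
    intro a b c
    rw [hT2c]
    simp only
    have m1 := Nat.mul_le_mul_right Ker.W (c1b a b c)
    have m2 := Nat.mul_le_mul_right (Ker.W ^ 2) (c2b a b c)
    have m0 := c0b a b c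
    nlinarith
  have g := fun (r : ℕ) => cntP h c0b r
  choose g0 hg0 hg0' using g
  have g := fun (r : ℕ) => cntP h c1b r
  choose g1 hg1 hg1' using g
  have g := fun (r : ℕ) => cntP h c2b r
  choose g2 hg2 hg2' using g
  have hT1 : ∀ a b c : List ℕ, a.sum + b.sum + c.sum ≤ 21 →
      Ker.T1 a b c = (g0 0 a b c + g1 0 a b c * Ker.W + g2 0 a b c * Ker.W ^ 2) +
        (g0 1 a b c + g1 1 a b c * Ker.W + g2 1 a b c * Ker.W ^ 2) * Ker.W ^ 3 +
        all9 a b c * Ker.W ^ 6 := by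
    intro a b c hs
    have hW3 : Ker.W3 = Ker.W ^ 3 := by rw [W_eq, ← pow_mul]; rfl
    have hW6 : Ker.W6 = Ker.W ^ 6 := by rw [W_eq, ← pow_mul]; rfl
    have hX : Ker.X2 = fun v => (v % (Ker.W ^ 3) ^ (2 - 1)) * Ker.W ^ 3 := by
      funext v
      simp only [Nat.add_one_sub_one, pow_one, ← hW3]; rfl
    obtain ⟨d, h1, h2⟩ := start_spec h (B := Ker.W ^ 3) (R := 2)
      (A := 3 + 3 * Ker.W + 3 * Ker.W ^ 2) (T := T2c) (by norm_num)
      T2cb a b c (by
        rw [sg_eq, W_eq]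
        exact lt_of_le_of_lt (Nat.mul_le_mul_left _ (h21 a b c hs)) (by norm_num))
    rw [← hX] at h1
    have hd : ∀ r, d r = g0 r a b c + g1 r a b c * Ker.W + g2 r a b c * Ker.W ^ 2 := by
      intro r
      have : (d r : ℝ) = ((g0 r a b c + g1 r a b c * Ker.W + g2 r a b c * Ker.W ^ 2 : ℕ) : ℝ) := by
        rw [h2, sg_eq]
        have e : RT T2c r = fun t => (RT (cut e0) r t + RT (cut e1) r t * Ker.W) +
            RT (cut all3) r t * ((Ker.W ^ 2 : ℕ) : ℝ) := by
          funext t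
          rw [hT2c, RT_add, RT_add, RT_mul, RT_mul]
        rw [e, E_add, E_add]
        have e2 : ∀ (f : SS → ℝ) (k : ℝ), (fun t => f t * k) = fun t => k * f t := by
          intro f k; funext t; ring
        rw [e2, e2, E_mul, E_mul]
        push_cast
        rw [hg0, hg1, hg2]
        ring
      exact_mod_cast this
    have hcongr : Ker.start (Ker.V Ker.X2 Ker.T2) a b c = Ker.start (Ker.V Ker.X2 T2c) a b c := by
      apply start_congr
      intro a' b' c' hs'
      rw [sg_eq] at hs'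
      have hs2 : a'.sum + b'.sum + c'.sum ≤ 21 := by omega
      rw [hT2 a' b' c' hs2, hT2c]
      simp only [cut, if_pos hs2]
    change Ker.start (Ker.V Ker.X2 Ker.T2) a b c + Ker.W6 * (9 * Ker.T0 a b c) = _
    rw [hcongr, h1, hW6, T0_eq, hall9, Finset.sum_range_succ, Finset.sum_range_succ,
      Finset.sum_range_zero, hd, hd]
    ring
  -- first phase
  obtain ⟨u, hu⟩ : ∃ u : ℕ → TF, u = fun j => match j with
      | 0 => cut (g0 0)
      | 1 => cut (g1 0)
      | 2 => cut (g2 0)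
      | 3 => cut (g0 1)
      | 4 => cut (g1 1)
      | 5 => cut (g2 1)
      | _ => cut all9 := ⟨_, rfl⟩
  have ub : ∀ (j : ℕ) (a b c : List ℕ), u j a b c ≤ 9 * 3 ^ (a.sum + b.sum + c.sum) := by
    intro j
    rw [hu]
    match j with
    | 0 => exact cut_le fun a b c _ => by simpa using hg0' 0 a b c
    | 1 => exact cut_le fun a b c _ => by simpa using hg1' 0 a b c
    | 2 => exact cut_le fun a b c _ => by simpa using hg2' 0 a b c
    | 3 => exact cut_le fun a b c _ => by simpa using hg0' 1 a b c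
    | 4 => exact cut_le fun a b c _ => by simpa using hg1' 1 a b c
    | 5 => exact cut_le fun a b c _ => by simpa using hg2' 1 a b c
    | _ + 6 => exact cut_le fun a b c _ => (hall9 a b c).le
  obtain ⟨T1c, hT1c⟩ : ∃ T1c : TF, T1c = fun a b c => ∑ j ∈ range 7, u j a b c * Ker.W ^ j :=
    ⟨_, rfl⟩
  have T1cb : ∀ a b c : List ℕ, T1c a b c ≤ (9 * ∑ j ∈ range 7, Ker.W ^ j) *
      3 ^ (a.sum + b.sum + c.sum) := by
    intro a b c
    rw [hT1c, Finset.mul_sum, Finset.sum_mul]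
    refine Finset.sum_le_sum fun j _ => ?_
    have := Nat.mul_le_mul_right (Ker.W ^ j) (ub j a b c)
    nlinarith
  have q := fun (j r : ℕ) => cntQ h (ub j) r
  choose F hF hF' using q
  intro a b c hs
  have hcongr : Ker.KA a b c = Ker.start1 (Ker.V Ker.X1 T1c) Ker.X1 a b c := by
    apply start1_congr
    intro a' b' c' hs'
    rw [sg_eq] at hs'
    have hs2 : a'.sum + b'.sum + c'.sum ≤ 21 := by omega
    rw [hT1 a' b' c' hs2, hT1c, hu]
    simp only [Finset.sum_range_succ, Finset.sum_range_zero, cut, if_pos hs2]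
    ring
  have hX : Ker.X1 = fun v => (v % (Ker.W ^ 7) ^ (7 - 1)) * Ker.W ^ 7 := by
    have hW7 : Ker.W7 = Ker.W ^ 7 := by rw [W_eq, ← pow_mul]; rfl
    have hW42 : Ker.W42 = (Ker.W ^ 7) ^ 6 := by rw [W_eq, ← pow_mul, ← pow_mul]; rfl
    funext v
    unfold Ker.X1
    rw [hW7, hW42]; rfl
  obtain ⟨d, h1, h2⟩ := start1_spec h (B := Ker.W ^ 7) (R := 7)
    (A := 9 * ∑ j ∈ range 7, Ker.W ^ j) (T := T1c) (by norm_num) T1cb a b c (by
      rw [sg_eq, W_eq]
      refine lt_of_le_of_lt (Nat.mul_le_mul_left _ (h21 a b c hs)) ?_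
      simp only [Finset.sum_range_succ, Finset.sum_range_zero]
      norm_num)
  rw [← hX] at h1
  have hd : ∀ r, d r = ∑ j ∈ range 7, F j r a b c * Ker.W ^ j := by
    intro r
    have : (d r : ℝ) = ((∑ j ∈ range 7, F j r a b c * Ker.W ^ j : ℕ) : ℝ) := by
      rw [h2, sg_eq]
      have e : RT T1c r = fun t => ∑ j ∈ range 7, RT (u j) r t * ((Ker.W ^ j : ℕ) : ℝ) := by
        funext t
        rw [hT1c, RT_sum u (fun j => Ker.W ^ j)]
      rw [e, E_sum]
      push_cast
      rw [Finset.mul_sum]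
      refine Finset.sum_congr rfl fun j _ => ?_
      rw [hF]; ring
    exact_mod_cast this
  -- meaning of the terminal values
  have hT0r : ∀ (r : ℕ) (t : SS), RT Ker.T0 r t = if t.u = r then 1 else 0 := RT_T0
  have r0 : ∀ (r : ℕ) (t : SS), t.f = (fun _ => 0) → pot t ≤ 21 → RT (cut e0) r t =
      3 * (if t.u = r then 1 else 0) *
        (ph [] (s0 t.L)).E (fun _ => wu) (fun t3 => if t3.u = 0 then 1 else 0) := by
    intro r t hf hp
    apply RT_of r t (k := 3) (G := fun t => (ph [] (s0 t.L)).E (fun _ => wu)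
      (fun t3 => if t3.u = 0 then 1 else 0))
    simp only [cut, if_pos (pot_le hf hp)]
    rw [he0, eta3]
    congr 2
    funext t3
    exact hT0r 0 t3
  have r1 : ∀ (r : ℕ) (t : SS), t.f = (fun _ => 0) → pot t ≤ 21 → RT (cut e1) r t =
      3 * (if t.u = r then 1 else 0) *
        (ph [] (s0 t.L)).E (fun _ => wu) (fun t3 => if t3.u = 1 then 1 else 0) := by
    intro r t hf hp
    apply RT_of r t (k := 3) (G := fun t => (ph [] (s0 t.L)).E (fun _ => wu)
      (fun t3 => if t3.u = 1 then 1 else 0))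
    simp only [cut, if_pos (pot_le hf hp)]
    rw [he1, eta3]
    congr 2
    funext t3
    exact hT0r 1 t3
  have r2 : ∀ (r : ℕ) (t : SS), t.f = (fun _ => 0) → pot t ≤ 21 → RT (cut all3) r t =
      3 * (if t.u = r then 1 else 0) *
        (ph [] (s0 t.L)).E (fun _ => wu) (fun _ => 1) := by
    intro r t hf hp
    apply RT_of r t (k := 3) (G := fun t => (ph [] (s0 t.L)).E (fun _ => wu) (fun _ => 1))
    simp only [cut, if_pos (pot_le hf hp)]
    rw [hall3, E_const wuW]
    push_cast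
    ring
  -- general second level
  have lev2 : ∀ (T : TF) (G : ℕ → TF) (ρ : ℕ → ℝ),
      (∀ r a b c, (G r a b c : ℝ) = 3 * 3 ^ (a.sum + b.sum + c.sum) *
        (ph [] (s0 ![a, b, c])).E (fun _ => wu) (RT T r)) →
      (∀ (r : ℕ) (t : SS), t.f = (fun _ => 0) → pot t ≤ 21 → RT T r t =
        3 * (if t.u = r then 1 else 0) *
          (ph [] (s0 t.L)).E (fun _ => wu) (fun t3 => ρ t3.u)) →
      ∀ (r2 r : ℕ) (t : SS), t.f = (fun _ => 0) → pot t ≤ 21 → RT (cut (G r2)) r t =
        9 * (if t.u = r then 1 else 0) * (ph [] (s0 t.L)).E (fun _ => wu)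
          (fun t2 => (ph [] (s0 t2.L)).E (fun _ => wu)
            (fun t3 => (if t2.u = r2 then 1 else 0) * ρ t3.u)) := by
    intro T G ρ hG hT r2 r t hf hp
    apply RT_of r t (k := 9) (G := fun t => (ph [] (s0 t.L)).E (fun _ => wu)
      (fun t2 => (ph [] (s0 t2.L)).E (fun _ => wu)
            (fun t3 => (if t2.u = r2 then 1 else 0) * ρ t3.u)))
    simp only [cut, if_pos (pot_le hf hp)]
    rw [hG, eta3]
    have e : (ph [] (s0 t.L)).E (fun _ => wu) (RT T r2) =
        (ph [] (s0 t.L)).E (fun _ => wu) (fun t2 => 3 * ((ph [] (s0 t2.L)).E (fun _ => wu)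
          (fun t3 => (if t2.u = r2 then 1 else 0) * ρ t3.u))) := by
      apply ph_congr2 [] 21
      · rw [pot_s0]; exact pot_le hf hp
      · intro t' hf' hp'
        rw [hT r2 t' hf' hp', E_mul]
        ring
    rw [e, E_mul]
    ring
  have fin : ∀ (j : ℕ) (Ψ : ℕ → ℕ → ℝ), (∀ (r : ℕ) (t : SS), t.f = (fun _ => 0) → pot t ≤ 21 →
      RT (u j) r t = 9 * (if t.u = r then 1 else 0) * (ph [] (s0 t.L)).E (fun _ => wu)
          (fun t2 => (ph [] (s0 t2.L)).E (fun _ => wu) (fun t3 => Ψ t2.u t3.u))) →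
      ∀ r, (F j r a b c : ℝ) = 108 * 3 ^ (a.sum + b.sum + c.sum) *
        (star [] ![a, b, c]).E (fun _ => wu) (fun o =>
          (if o.getD 0 0 = r then 1 else 0) * Ψ (o.getD 1 0) (o.getD 2 0)) := by
    intro j Ψ hΨ r
    rw [hF, star_E (w := fun _ => wu) [] ![a, b, c]
      (fun x y z => (if x = r then 1 else 0) * Ψ y z)]
    have e : (ph1 [] (s0 ![a, b, c])).E (fun _ => wu) (RT (u j) r) =
        (ph1 [] (s0 ![a, b, c])).E (fun _ => wu) (fun t1 => 9 *
          (ph [] (s0 t1.L)).E (fun _ => wu) (fun t2 => (ph [] (s0 t2.L)).E (fun _ => wu)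
            (fun t3 => (if t1.u = r then 1 else 0) * Ψ t2.u t3.u))) := by
      apply ph1_congr2 [] 21
      · rw [pot_s0, sg_eq]; exact hs
      · intro t' hf' hp'
        rw [hΨ r t' hf' hp']
        simp only [E_mul]
        ring
    rw [e, E_mul]
    ring
  have hreal : ∀ r j, j < 7 → (F j r a b c : ℝ) = 108 * 3 ^ (a.sum + b.sum + c.sum) *
      (star [] ![a, b, c]).E (fun _ => wu) (fun o => if clsA (7 * r + j) o then 1 else 0) := by
    intro r j hj
    have hfin : ∀ Ψ : ℕ → ℕ → ℝ, (∀ (r : ℕ) (t : SS), t.f = (fun _ => 0) → pot t ≤ 21 →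
        RT (u j) r t = 9 * (if t.u = r then 1 else 0) * (ph [] (s0 t.L)).E (fun _ => wu)
          (fun t2 => (ph [] (s0 t2.L)).E (fun _ => wu) (fun t3 => Ψ t2.u t3.u))) →
        (∀ o : List ℕ, (if clsA (7 * r + j) o then (1 : ℝ) else 0) =
          (if o.getD 0 0 = r then 1 else 0) * Ψ (o.getD 1 0) (o.getD 2 0)) →
        (F j r a b c : ℝ) = 108 * 3 ^ (a.sum + b.sum + c.sum) *
          (star [] ![a, b, c]).E (fun _ => wu) (fun o => if clsA (7 * r + j) o then 1 else 0) := by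
      intro Ψ h1 h2
      rw [fin j Ψ h1 r]
      congr 2
      funext o
      exact (h2 o).symm
    interval_cases j
    · apply hfin (fun y z => (if y = 0 then 1 else 0) * (if z = 0 then 1 else 0))
      · rw [hu]; exact lev2 (cut e0) g0 (fun z => if z = 0 then 1 else 0) hg0 r0 0
      · exact c0 r
    · apply hfin (fun y z => (if y = 0 then 1 else 0) * (if z = 1 then 1 else 0))
      · rw [hu]; exact lev2 (cut e1) g1 (fun z => if z = 1 then 1 else 0) hg1 r1 0
      · exact c1 r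
    · apply hfin (fun y z => (if y = 0 then 1 else 0) * 1)
      · rw [hu]; exact lev2 (cut all3) g2 (fun z => 1) hg2 r2 0
      · exact c2 r
    · apply hfin (fun y z => (if y = 1 then 1 else 0) * (if z = 0 then 1 else 0))
      · rw [hu]; exact lev2 (cut e0) g0 (fun z => if z = 0 then 1 else 0) hg0 r0 1
      · exact c3 r
    · apply hfin (fun y z => (if y = 1 then 1 else 0) * (if z = 1 then 1 else 0))
      · rw [hu]; exact lev2 (cut e1) g1 (fun z => if z = 1 then 1 else 0) hg1 r1 1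
      · exact c4 r
    · apply hfin (fun y z => (if y = 1 then 1 else 0) * 1)
      · rw [hu]; exact lev2 (cut all3) g2 (fun z => 1) hg2 r2 1
      · exact c5 r
    · apply hfin (fun y z => 1)
      · intro r t hf hp
        rw [hu]
        apply RT_of r t (k := 9) (G := fun t => (ph [] (s0 t.L)).E (fun _ => wu)
          (fun t2 => (ph [] (s0 t2.L)).E (fun _ => wu) (fun t3 => 1)))
        simp only [cut, if_pos (pot_le hf hp), E_const wuW]
        rw [hall9]
        push_cast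
        ring
      · exact c6 r
  refine ⟨fun i => if i < 49 then F (i % 7) (i / 7) a b c else 0, ?_, ?_, ?_⟩
  · intro i
    simp only
    split_ifs with hi
    · have h5 := hF' (i % 7) (i / 7) a b c
      have h6 : 12 * 9 * 3 ^ (a.sum + b.sum + c.sum) ≤ 12 * 9 * 3 ^ 21 :=
        Nat.mul_le_mul_left _ (h21 a b c hs)
      rw [W_eq]
      refine lt_of_le_of_lt (h5.trans h6) (by norm_num)
    · exact hWpos
  · rw [hcongr, h1]
    exact blocks_eq d (fun j r => F j r a b c) Ker.W hd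
  · intro i hi
    simp only
    rw [if_pos hi, hreal (i / 7) (i % 7) (Nat.mod_lt _ (by norm_num)), Nat.div_add_mod]

end Pool.Agent.W847.T3.T_KA
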