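import Pool.Agent.W847.T3.KStart

/-!
# The kernel value of the star, stage B
-/

set_option autoImplicit false

open Finset

namespace Pool.Agent.W847.T3.T_KB

open Pool.Agent.W847.T3.KB

theorem T0_eq (a b c : List ℕ) : Ker.T0 a b c = 3 ^ (a.sum + b.sum + c.sum) := by
  unfold Ker.T0
  rw [sm_eq, sm_eq, sm_eq]
  change 3 ^ (a.sum + (b.sum + c.sum)) = _
  rw [add_assoc]

theorem W_eq : Ker.W = 2 ^ 256 := rfl

theorem sg_eq (a b c : List ℕ) : sg ![a, b, c] = a.sum + b.sum + c.sum := by
  simp [sg]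

theorem RT_T0 (r : ℕ) (t : SS) : RT Ker.T0 r t = if t.u = r then 1 else 0 := by
  unfold RT
  split_ifs
  · rw [T0_eq]; push_cast; rw [div_self (by positivity)]
  · rfl

theorem main (h : S_PV) : S_KB := by
  intro a b c hs
  have hX : Ker.XB = fun v => (v % Ker.W ^ (24 - 1)) * Ker.W := by
    funext v
    have h1 : Ker.W23 = Ker.W ^ 23 := by
      rw [W_eq, ← pow_mul]; rfl
    unfold Ker.XB
    rw [h1]; rfl
  have hB : 1 * 3 ^ (sg ![a, b, c]) < Ker.W := by
    rw [sg_eq, one_mul, W_eq]
    calc 3 ^ (a.sum + b.sum + c.sum) ≤ 3 ^ 72 := Nat.pow_le_pow_right (by norm_num) hs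
      _ < 2 ^ 256 := by norm_num
  obtain ⟨d, h1, h2⟩ := start1_spec h (B := Ker.W) (R := 24) (A := 1) (T := Ker.T0) (by norm_num)
    (by intro a b c; rw [T0_eq, one_mul]) a b c hB
  rw [← hX] at h1
  have h3 : ∀ r, (d r : ℝ) = 12 * 3 ^ (a.sum + b.sum + c.sum) *
      (star [] ![a, b, c]).E (fun _ => wu) (fun o => if o.getD 0 0 = r then 1 else 0) := by
    intro r
    rw [h2, sg_eq]
    congr 1
    have h4 := star_E (w := fun _ => wu) [] ![a, b, c] (fun r1 _ _ => if r1 = r then 1 else 0)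
    rw [h4]
    simp only [E_const wuW]
    congr 1
    funext t
    exact RT_T0 r t
  refine ⟨fun i => if i < 24 then d i else 0, ?_, ?_, ?_⟩
  · intro i
    simp only
    split_ifs with hi
    · have h5 : (star [] ![a, b, c]).E (fun _ => wu)
          (fun o => if o.getD 0 0 = i then (1 : ℝ) else 0) ≤ 1 := by
        have := E_mono wuW (star [] ![a, b, c])
          (g := fun o => if o.getD 0 0 = i then (1 : ℝ) else 0) (h := fun _ => 1)
          (fun o => by split_ifs <;> norm_num)
        rwa [E_const wuW] at this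
      have h6 : (d i : ℝ) ≤ ((12 * 3 ^ 72 : ℕ) : ℝ) := by
        rw [h3]
        push_cast
        have h7 : (3 : ℝ) ^ (a.sum + b.sum + c.sum) ≤ 3 ^ 72 :=
          pow_le_pow_right₀ (by norm_num) hs
        have h8 : (0 : ℝ) < 3 ^ (a.sum + b.sum + c.sum) := by positivity
        nlinarith
      have h9 : d i ≤ 12 * 3 ^ 72 := by exact_mod_cast h6
      rw [W_eq]
      refine lt_of_le_of_lt h9 (by norm_num)
    · rw [W_eq]; positivity
  · change Ker.start1 _ _ _ _ _ = _
    rw [h1]
    refine Finset.sum_congr rfl fun i hi => ?_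
    simp only
    rw [if_pos (Finset.mem_range.1 hi)]
  · intro i hi
    simp only
    rw [if_pos hi, h3]

end Pool.Agent.W847.T3.T_KB
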