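import Pool.Agent.W847.T3.Stm

/-!
# The packed value counts outcomes (part PV)
-/

set_option autoImplicit false

open Finset

namespace Pool.Agent.W847.T3.T_PV

/-! ### Unfolding the kernel functions -/

theorem st_eq (n : ℕ) (f : ℕ → ℕ) : Ker.st n f = f n := by
  cases n <;> rfl

theorem ent_nil (f : ℕ) (k : List ℕ → ℕ → ℕ) : Ker.ent [] f k = k [] f := rfl

theorem ent_cons (h : ℕ) (l : List ℕ) (f : ℕ) (k : List ℕ → ℕ → ℕ) :
    Ker.ent (h :: l) f k = k l (f + h) := by
  show Ker.st (Nat.add h f) (fun f' => k l f') = _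
  rw [st_eq]
  show k l (h + f) = k l (f + h)
  rw [Nat.add_comm]

theorem V_zero (X : ℕ → ℕ) (T : List ℕ → List ℕ → List ℕ → ℕ) (L0 L1 L2 : List ℕ)
    (f0 f1 f2 : ℕ) : Ker.V X T 0 L0 f0 L1 f1 L2 f2 = T L0 L1 L2 := rfl

theorem V_succ0 (X : ℕ → ℕ) (T : List ℕ → List ℕ → List ℕ → ℕ) (n : ℕ) (L0 L1 L2 : List ℕ)
    (g f1 f2 : ℕ) : Ker.V X T (n + 1) L0 (g + 1) L1 f1 L2 f2 =
      X (Ker.V X T n L0 g L1 f1 L2 f2) +
        (Ker.ent L1 f1 (fun L f => Ker.V X T n L0 g L f L2 f2) +
          Ker.ent L2 f2 (fun L f => Ker.V X T n L0 g L1 f1 L f)) := by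
  show Ker.st g (fun g => Nat.add (X (Ker.V X T n L0 g L1 f1 L2 f2))
    (Nat.add (Ker.ent L1 f1 (fun L f => Ker.V X T n L0 g L f L2 f2))
      (Ker.ent L2 f2 (fun L f => Ker.V X T n L0 g L1 f1 L f)))) = _
  rw [st_eq]
  rfl

theorem V_succ1 (X : ℕ → ℕ) (T : List ℕ → List ℕ → List ℕ → ℕ) (n : ℕ) (L0 L1 L2 : List ℕ)
    (g f2 : ℕ) : Ker.V X T (n + 1) L0 0 L1 (g + 1) L2 f2 =
      X (Ker.V X T n L0 0 L1 g L2 f2) +
        (Ker.ent L0 0 (fun L f => Ker.V X T n L f L1 g L2 f2) +
          Ker.ent L2 f2 (fun L f => Ker.V X T n L0 0 L1 g L f)) := by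
  show Ker.st g (fun g => Nat.add (X (Ker.V X T n L0 0 L1 g L2 f2))
    (Nat.add (Ker.ent L0 0 (fun L f => Ker.V X T n L f L1 g L2 f2))
      (Ker.ent L2 f2 (fun L f => Ker.V X T n L0 0 L1 g L f)))) = _
  rw [st_eq]
  rfl

theorem V_succ2 (X : ℕ → ℕ) (T : List ℕ → List ℕ → List ℕ → ℕ) (n : ℕ) (L0 L1 L2 : List ℕ)
    (g : ℕ) : Ker.V X T (n + 1) L0 0 L1 0 L2 (g + 1) =
      X (Ker.V X T n L0 0 L1 0 L2 g) +
        (Ker.ent L0 0 (fun L f => Ker.V X T n L f L1 0 L2 g) +
          Ker.ent L1 0 (fun L f => Ker.V X T n L0 0 L f L2 g)) := by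
  show Ker.st g (fun g => Nat.add (X (Ker.V X T n L0 0 L1 0 L2 g))
    (Nat.add (Ker.ent L0 0 (fun L f => Ker.V X T n L f L1 0 L2 g))
      (Ker.ent L1 0 (fun L f => Ker.V X T n L0 0 L f L2 g)))) = _
  rw [st_eq]
  rfl

theorem V_succ3 (X : ℕ → ℕ) (T : List ℕ → List ℕ → List ℕ → ℕ) (n : ℕ) (L0 L1 L2 : List ℕ) :
    Ker.V X T (n + 1) L0 0 L1 0 L2 0 = T L0 L1 L2 := rfl

/-- The value at a state. -/
noncomputable def Vs (X : ℕ → ℕ) (T : List ℕ → List ℕ → List ℕ → ℕ) (n : ℕ) (t : SS) : ℕ :=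
  Ker.V X T n (t.L 0) (t.f 0) (t.L 1) (t.f 1) (t.L 2) (t.f 2)

theorem Vs_congr (X : ℕ → ℕ) (T : List ℕ → List ℕ → List ℕ → ℕ) (n : ℕ) (s t : SS)
    (hL : s.L = t.L) (hf : s.f = t.f) : Vs X T n s = Vs X T n t := by
  unfold Vs; rw [hL, hf]

theorem enter_eq (i : Fin 3) (t : SS) (h : ℕ) (l : List ℕ) (hl : t.L i = h :: l) :
    enter i t = { L := Function.update t.L i l, f := Function.update t.f i (t.f i + h),
                  u := t.u } := by
  unfold enter; rw [hl]

theorem enter_nil (i : Fin 3) (t : SS) (hl : t.L i = []) : enter i t = t := by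
  unfold enter; rw [hl]

theorem ent0 (X : ℕ → ℕ) (T : List ℕ → List ℕ → List ℕ → ℕ) (n : ℕ) (t : SS) :
    Ker.ent (t.L 0) (t.f 0) (fun L f => Ker.V X T n L f (t.L 1) (t.f 1) (t.L 2) (t.f 2)) =
      Vs X T n (enter 0 t) := by
  cases hl : t.L 0 with
  | nil => rw [ent_nil, enter_nil 0 t hl]; unfold Vs; rw [hl]
  | cons h l => rw [ent_cons, enter_eq 0 t h l hl]; simp [Vs]

theorem ent1 (X : ℕ → ℕ) (T : List ℕ → List ℕ → List ℕ → ℕ) (n : ℕ) (t : SS) :
    Ker.ent (t.L 1) (t.f 1) (fun L f => Ker.V X T n (t.L 0) (t.f 0) L f (t.L 2) (t.f 2)) =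
      Vs X T n (enter 1 t) := by
  cases hl : t.L 1 with
  | nil => rw [ent_nil, enter_nil 1 t hl]; unfold Vs; rw [hl]
  | cons h l => rw [ent_cons, enter_eq 1 t h l hl]; simp [Vs]

theorem ent2 (X : ℕ → ℕ) (T : List ℕ → List ℕ → List ℕ → ℕ) (n : ℕ) (t : SS) :
    Ker.ent (t.L 2) (t.f 2) (fun L f => Ker.V X T n (t.L 0) (t.f 0) (t.L 1) (t.f 1) L f) =
      Vs X T n (enter 2 t) := by
  cases hl : t.L 2 with
  | nil => rw [ent_nil, enter_nil 2 t hl]; unfold Vs; rw [hl]
  | cons h l => rw [ent_cons, enter_eq 2 t h l hl]; simp [Vs]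

theorem take_L (i : Fin 3) (t : SS) : (take1 i t).L = t.L := rfl

theorem take_u (i : Fin 3) (t : SS) : (take1 i t).u = t.u := rfl

theorem take_f (i j : Fin 3) (t : SS) :
    (take1 i t).f j = if j = i then t.f i - 1 else t.f j := by
  simp [take1, Function.update_apply]

theorem enter_u (i : Fin 3) (t : SS) : (enter i t).u = t.u := by
  cases hl : t.L i with
  | nil => rw [enter_nil i t hl]
  | cons h l => rw [enter_eq i t h l hl]

theorem Vs0 (X : ℕ → ℕ) (T : List ℕ → List ℕ → List ℕ → ℕ) (n : ℕ) (t : SS) (h : 0 < t.f 0) :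
    Vs X T (n + 1) t = X (Vs X T n (take1 0 t)) +
      (Vs X T n (enter 1 (take1 0 t)) + Vs X T n (enter 2 (take1 0 t))) := by
  obtain ⟨g, hg⟩ := Nat.exists_eq_succ_of_ne_zero h.ne'
  have h0 : (take1 0 t).f 0 = g := by rw [take_f]; simp [hg]
  have h1 : (take1 0 t).f 1 = t.f 1 := by rw [take_f]; simp
  have h2 : (take1 0 t).f 2 = t.f 2 := by rw [take_f]; simp
  rw [← ent1, ← ent2]
  unfold Vs
  rw [hg, Nat.succ_eq_add_one, V_succ0, h0, h1, h2, take_L]

theorem Vs1 (X : ℕ → ℕ) (T : List ℕ → List ℕ → List ℕ → ℕ) (n : ℕ) (t : SS) (h0 : t.f 0 = 0)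
    (h : 0 < t.f 1) :
    Vs X T (n + 1) t = X (Vs X T n (take1 1 t)) +
      (Vs X T n (enter 0 (take1 1 t)) + Vs X T n (enter 2 (take1 1 t))) := by
  obtain ⟨g, hg⟩ := Nat.exists_eq_succ_of_ne_zero h.ne'
  have e0 : (take1 1 t).f 0 = 0 := by rw [take_f]; simp [h0]
  have e1 : (take1 1 t).f 1 = g := by rw [take_f]; simp [hg]
  have e2 : (take1 1 t).f 2 = t.f 2 := by rw [take_f]; simp
  rw [← ent0, ← ent2]
  unfold Vs
  rw [hg, h0, Nat.succ_eq_add_one, V_succ1, e0, e1, e2, take_L]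

theorem Vs2 (X : ℕ → ℕ) (T : List ℕ → List ℕ → List ℕ → ℕ) (n : ℕ) (t : SS) (h0 : t.f 0 = 0)
    (h1 : t.f 1 = 0) (h : 0 < t.f 2) :
    Vs X T (n + 1) t = X (Vs X T n (take1 2 t)) +
      (Vs X T n (enter 0 (take1 2 t)) + Vs X T n (enter 1 (take1 2 t))) := by
  obtain ⟨g, hg⟩ := Nat.exists_eq_succ_of_ne_zero h.ne'
  have e0 : (take1 2 t).f 0 = 0 := by rw [take_f]; simp [h0]
  have e1 : (take1 2 t).f 1 = 0 := by rw [take_f]; simp [h1]
  have e2 : (take1 2 t).f 2 = g := by rw [take_f]; simp [hg]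
  rw [← ent0, ← ent1]
  unfold Vs
  rw [hg, h0, h1, Nat.succ_eq_add_one, V_succ2, e0, e1, e2, take_L]

theorem Vs3 (X : ℕ → ℕ) (T : List ℕ → List ℕ → List ℕ → ℕ) (n : ℕ) (t : SS) (h0 : t.f 0 = 0)
    (h1 : t.f 1 = 0) (h2 : t.f 2 = 0) :
    Vs X T (n + 1) t = T (t.L 0) (t.L 1) (t.L 2) := by
  unfold Vs
  rw [h0, h1, h2, V_succ3]

/-! ### Potentials -/

theorem pot_take (i : Fin 3) (t : SS) (h : 0 < t.f i) : pot (take1 i t) + 1 = pot t := by
  unfold pot
  rw [take_L, take_f, take_f, take_f]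
  fin_cases i <;> simp at h ⊢ <;> omega

theorem pot_enter (i : Fin 3) (t : SS) : pot (enter i t) = pot t := by
  cases hl : t.L i with
  | nil => rw [enter_nil i t hl]
  | cons h l =>
    rw [enter_eq i t h l hl]
    unfold pot
    fin_cases i <;> simp at hl ⊢ <;> rw [hl] <;> simp <;> omega

theorem pot_move (a : Fin 4) (t : SS) : pot (move a t) = pot t := by
  unfold move
  refine Fin.cases ?_ ?_ a
  · rfl
  · intro j; simp only [Fin.cases_succ]; exact pot_enter j t

/-! ### Counting -/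

/-- Terminal value at a state. -/
def Tt (T : List ℕ → List ℕ → List ℕ → ℕ) (t : SS) : ℕ := T (t.L 0) (t.L 1) (t.L 2)

/-- Number of outcomes with `u = q`. -/
def Nu (T : List ℕ → List ℕ → List ℕ → ℕ) : ℕ → SS → ℕ → ℕ
  | 0, t, q => if t.u = q then Tt T t else 0
  | n + 1, t, q =>
    if 0 < t.f 0 then Nu T n (move 0 (take1 0 t)) q +
      (Nu T n (enter 1 (take1 0 t)) q + Nu T n (enter 2 (take1 0 t)) q)
    else if 0 < t.f 1 then Nu T n (move 0 (take1 1 t)) q +
      (Nu T n (enter 0 (take1 1 t)) q + Nu T n (enter 2 (take1 1 t)) q)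
    else if 0 < t.f 2 then Nu T n (move 0 (take1 2 t)) q +
      (Nu T n (enter 0 (take1 2 t)) q + Nu T n (enter 1 (take1 2 t)) q)
    else if t.u = q then Tt T t else 0

/-- The three cases of a step. -/
theorem cases3 (t : SS) : (∃ i j k : Fin 3, 0 < t.f i ∧
      (∀ (T : List ℕ → List ℕ → List ℕ → ℕ) (n q : ℕ), Nu T (n + 1) t q =
        Nu T n (move 0 (take1 i t)) q +
          (Nu T n (enter j (take1 i t)) q + Nu T n (enter k (take1 i t)) q)) ∧
      (∀ (X : ℕ → ℕ) (T : List ℕ → List ℕ → List ℕ → ℕ) (n : ℕ), Vs X T (n + 1) t =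
        X (Vs X T n (take1 i t)) +
          (Vs X T n (enter j (take1 i t)) + Vs X T n (enter k (take1 i t)))) ∧
      (∀ (v : List (Fin 3)) (n : ℕ), route v (n + 1) t =
        .ask [] v (.ch i) (fun a => route v n (move a (take1 i t)))) ∧
      (∀ F : Fin 4 → ℝ, ∑ a, wu (.ch i) a * F a = (1 / 3) * (F 0 + (F j.succ + F k.succ)))) ∨
    (t.f 0 = 0 ∧ t.f 1 = 0 ∧ t.f 2 = 0 ∧
      (∀ (T : List ℕ → List ℕ → List ℕ → ℕ) (n q : ℕ),
        Nu T n t q = if t.u = q then Tt T t else 0) ∧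
      (∀ (X : ℕ → ℕ) (T : List ℕ → List ℕ → List ℕ → ℕ) (n : ℕ), Vs X T n t = Tt T t) ∧
      (∀ (v : List (Fin 3)) (n : ℕ), route v n t = .ret t)) := by
  by_cases h0 : 0 < t.f 0
  · left
    refine ⟨0, 1, 2, h0, ?_, ?_, ?_, ?_⟩
    · intro T n q; simp [Nu, h0]
    · intro X T n; exact Vs0 X T n t h0
    · intro v n; simp [route, h0]
    · intro F
      rw [Fin.sum_univ_four]
      have e1 : wu (.ch 0) 0 = 1 / 3 := by
              show (if (0 : Fin 4) = (0 : Fin 3).succ then (0 : ℝ) else 1 / 3) = 1 / 3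
              exact if_neg (by decide)
      have e2 : wu (.ch 0) 1 = 0 := by
              show (if (1 : Fin 4) = (0 : Fin 3).succ then (0 : ℝ) else 1 / 3) = 0
              exact if_pos (by decide)
      have e3 : wu (.ch 0) 2 = 1 / 3 := by
              show (if (2 : Fin 4) = (0 : Fin 3).succ then (0 : ℝ) else 1 / 3) = 1 / 3
              exact if_neg (by decide)
      have e4 : wu (.ch 0) 3 = 1 / 3 := by
              show (if (3 : Fin 4) = (0 : Fin 3).succ then (0 : ℝ) else 1 / 3) = 1 / 3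
              exact if_neg (by decide)
      rw [e1, e2, e3, e4]
      have f2 : (1 : Fin 3).succ = 2 := rfl
      have f3 : (2 : Fin 3).succ = 3 := rfl
      rw [f2, f3]; ring
  · by_cases h1 : 0 < t.f 1
    · left
      refine ⟨1, 0, 2, h1, ?_, ?_, ?_, ?_⟩
      · intro T n q; simp [Nu, h0, h1]
      · intro X T n; exact Vs1 X T n t (by omega) h1
      · intro v n; simp [route, h0, h1]
      · intro F
        rw [Fin.sum_univ_four]
        have e1 : wu (.ch 1) 0 = 1 / 3 := by
              show (if (0 : Fin 4) = (1 : Fin 3).succ then (0 : ℝ) else 1 / 3) = 1 / 3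
              exact if_neg (by decide)
        have e2 : wu (.ch 1) 1 = 1 / 3 := by
              show (if (1 : Fin 4) = (1 : Fin 3).succ then (0 : ℝ) else 1 / 3) = 1 / 3
              exact if_neg (by decide)
        have e3 : wu (.ch 1) 2 = 0 := by
              show (if (2 : Fin 4) = (1 : Fin 3).succ then (0 : ℝ) else 1 / 3) = 0
              exact if_pos (by decide)
        have e4 : wu (.ch 1) 3 = 1 / 3 := by
              show (if (3 : Fin 4) = (1 : Fin 3).succ then (0 : ℝ) else 1 / 3) = 1 / 3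
              exact if_neg (by decide)
        rw [e1, e2, e3, e4]
        have f2 : (0 : Fin 3).succ = 1 := rfl
        have f3 : (2 : Fin 3).succ = 3 := rfl
        rw [f2, f3]; ring
    · by_cases h2 : 0 < t.f 2
      · left
        refine ⟨2, 0, 1, h2, ?_, ?_, ?_, ?_⟩
        · intro T n q; simp [Nu, h0, h1, h2]
        · intro X T n; exact Vs2 X T n t (by omega) (by omega) h2
        · intro v n; simp [route, h0, h1, h2]
        · intro F
          rw [Fin.sum_univ_four]
          have e1 : wu (.ch 2) 0 = 1 / 3 := by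
              show (if (0 : Fin 4) = (2 : Fin 3).succ then (0 : ℝ) else 1 / 3) = 1 / 3
              exact if_neg (by decide)
          have e2 : wu (.ch 2) 1 = 1 / 3 := by
              show (if (1 : Fin 4) = (2 : Fin 3).succ then (0 : ℝ) else 1 / 3) = 1 / 3
              exact if_neg (by decide)
          have e3 : wu (.ch 2) 2 = 1 / 3 := by
              show (if (2 : Fin 4) = (2 : Fin 3).succ then (0 : ℝ) else 1 / 3) = 1 / 3
              exact if_neg (by decide)
          have e4 : wu (.ch 2) 3 = 0 := by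
              show (if (3 : Fin 4) = (2 : Fin 3).succ then (0 : ℝ) else 1 / 3) = 0
              exact if_pos (by decide)
          rw [e1, e2, e3, e4]
          have f2 : (0 : Fin 3).succ = 1 := rfl
          have f3 : (1 : Fin 3).succ = 2 := rfl
          rw [f2, f3]; ring
      · right
        refine ⟨by omega, by omega, by omega, ?_, ?_, ?_⟩
        · intro T n q; cases n <;> simp [Nu, h0, h1, h2]
        · intro X T n
          cases n with
          | zero => rfl
          | succ n => exact Vs3 X T n t (by omega) (by omega) (by omega)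
        · intro v n; cases n <;> simp [route, h0, h1, h2]

theorem route_fuel (v : List (Fin 3)) : ∀ (n : ℕ) (t : SS), pot t ≤ n →
    route v n t = route v (pot t) t := by
  intro n
  induction n with
  | zero => intro t ht; rw [Nat.le_zero.mp ht]
  | succ n ih =>
    intro t ht
    rcases cases3 t with ⟨i, j, k, hi, -, -, hr, -⟩ | ⟨-, -, -, -, -, hr⟩
    · have hp := pot_take i t hi
      rw [hr, ← hp, hr]
      congr 1
      funext a
      have h1 := pot_move a (take1 i t)
      rw [ih _ (by omega), h1]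
    · rw [hr, hr]

/-- The count depends on `u` only by translation. -/
theorem Nu_shift (T : List ℕ → List ℕ → List ℕ → ℕ) : ∀ (n : ℕ) (s t : SS) (q : ℕ),
    s.L = t.L → s.f = t.f → s.u = t.u + 1 → Nu T n s q = if q = 0 then 0 else Nu T n t (q - 1) := by
  intro n
  have hTt : ∀ s t : SS, s.L = t.L → Tt T s = Tt T t := by
    intro s t h; unfold Tt; rw [h]
  have hbase : ∀ (s t : SS) (q : ℕ), s.L = t.L → s.u = t.u + 1 →
      (if s.u = q then Tt T s else 0) =
        if q = 0 then 0 else (if t.u = q - 1 then Tt T t else 0) := by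
    intro s t q hL hu
    rw [hTt s t hL, hu]
    rcases Nat.eq_zero_or_pos q with h | h
    · subst h; simp
    · rw [if_neg (by omega : ¬ q = 0)]
      by_cases h2 : t.u + 1 = q
      · rw [if_pos h2, if_pos (by omega)]
      · rw [if_neg h2, if_neg (by omega)]
  have hent : ∀ (i : Fin 3) (s t : SS), s.L = t.L → s.f = t.f → s.u = t.u + 1 →
      (enter i s).L = (enter i t).L ∧ (enter i s).f = (enter i t).f ∧
        (enter i s).u = (enter i t).u + 1 := by
    intro i s t hL hf hu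
    cases hl : t.L i with
    | nil =>
      rw [enter_nil i t hl, enter_nil i s (by rw [hL]; exact hl)]
      exact ⟨hL, hf, hu⟩
    | cons h l =>
      rw [enter_eq i t h l hl, enter_eq i s h l (by rw [hL]; exact hl)]
      exact ⟨by simp [hL], by simp [hf], hu⟩
  have htake : ∀ (i : Fin 3) (s t : SS), s.L = t.L → s.f = t.f → s.u = t.u + 1 →
      (take1 i s).L = (take1 i t).L ∧ (take1 i s).f = (take1 i t).f ∧
        (take1 i s).u = (take1 i t).u + 1 := by
    intro i s t hL hf hu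
    exact ⟨hL, by simp [take1, hf], hu⟩
  induction n with
  | zero =>
    intro s t q hL _ hu
    exact hbase s t q hL hu
  | succ n ih =>
    intro s t q hL hf hu
    have key : ∀ (i j k : Fin 3),
        Nu T n (move 0 (take1 i s)) q +
          (Nu T n (enter j (take1 i s)) q + Nu T n (enter k (take1 i s)) q) =
        if q = 0 then 0 else Nu T n (move 0 (take1 i t)) (q - 1) +
          (Nu T n (enter j (take1 i t)) (q - 1) + Nu T n (enter k (take1 i t)) (q - 1)) := by
      intro i j k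
      obtain ⟨a1, a2, a3⟩ := htake i s t hL hf hu
      obtain ⟨b1, b2, b3⟩ := hent j _ _ a1 a2 a3
      obtain ⟨c1, c2, c3⟩ := hent k _ _ a1 a2 a3
      rw [ih _ _ q b1 b2 b3, ih _ _ q c1 c2 c3,
        ih (move 0 (take1 i s)) (move 0 (take1 i t)) q a1 a2 (by
          show (take1 i s).u + 1 = (take1 i t).u + 1 + 1
          rw [a3])]
      by_cases hq : q = 0
      · simp [hq]
      · simp [hq]
    simp only [Nu]
    rw [hf, key 0 1 2, key 1 0 2, key 2 0 1, hbase s t q hL hu]
    by_cases hq : q = 0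
    · subst hq; simp
    · simp [hq]

theorem Nu_move (T : List ℕ → List ℕ → List ℕ → ℕ) (n : ℕ) (t : SS) (q : ℕ) :
    Nu T n (move 0 t) q = if q = 0 then 0 else Nu T n t (q - 1) :=
  Nu_shift T n _ _ q rfl rfl rfl

theorem sum_le_pot (t : SS) : (t.L 0).sum + (t.L 1).sum + (t.L 2).sum ≤ pot t := by
  unfold pot; omega

theorem sum_shift (K : ℕ) (c : ℕ → ℕ) :
    ∑ r ∈ range K, (if r = 0 then 0 else c (r - 1)) ≤ ∑ r ∈ range K, c r := by
  cases K with
  | zero => simp
  | succ K =>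
    rw [sum_range_succ', sum_range_succ]
    simp

theorem Nu_bound (T : List ℕ → List ℕ → List ℕ → ℕ) (A : ℕ)
    (hT : ∀ a b c : List ℕ, T a b c ≤ A * 3 ^ (a.sum + b.sum + c.sum)) (K : ℕ) :
    ∀ (n : ℕ) (t : SS), ∑ r ∈ range K, Nu T n t r ≤ A * 3 ^ (pot t) := by
  have hstop : ∀ t : SS, ∑ r ∈ range K, (if t.u = r then Tt T t else 0) ≤ A * 3 ^ (pot t) := by
    intro t
    rw [sum_ite_eq]
    have h1 : Tt T t ≤ A * 3 ^ (pot t) :=
      (hT _ _ _).trans (Nat.mul_le_mul_left _ (Nat.pow_le_pow_right (by norm_num) (sum_le_pot t)))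
    split_ifs
    · exact h1
    · exact Nat.zero_le _
  intro n
  induction n with
  | zero => intro t; simp only [Nu]; exact hstop t
  | succ n ih =>
    intro t
    rcases cases3 t with ⟨i, j, k, hi, hN, -, -, -⟩ | ⟨-, -, -, hN, -, -⟩
    · have hp := pot_take i t hi
      simp only [hN, Nu_move]
      rw [sum_add_distrib, sum_add_distrib]
      have h1 := (sum_shift K (fun r => Nu T n (take1 i t) r)).trans (ih (take1 i t))
      have h2 := ih (enter j (take1 i t))
      have h3 := ih (enter k (take1 i t))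
      rw [pot_enter] at h2 h3
      rw [← hp, pow_succ]
      linarith
    · simp only [hN]; exact hstop t

theorem Nu_lt (T : List ℕ → List ℕ → List ℕ → ℕ) (A : ℕ)
    (hT : ∀ a b c : List ℕ, T a b c ≤ A * 3 ^ (a.sum + b.sum + c.sum)) (n : ℕ) (t : SS) (r : ℕ) :
    Nu T n t r ≤ A * 3 ^ (pot t) := by
  refine le_trans ?_ (Nu_bound T A hT (r + 1) n t)
  exact single_le_sum (f := fun r => Nu T n t r) (fun _ _ => Nat.zero_le _) (self_mem_range_succ r)

/-- Shift of a packed number. -/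
theorem packed_shift (B R : ℕ) (hR : 1 ≤ R) (y : ℕ → ℕ) (hy : ∀ r, y r < B) :
    ((∑ r ∈ range R, y r * B ^ r) % B ^ (R - 1)) * B =
      ∑ r ∈ range R, (if r = 0 then 0 else y (r - 1)) * B ^ r := by
  obtain ⟨K, rfl⟩ : ∃ K, R = K + 1 := ⟨R - 1, by omega⟩
  have hlt : ∀ K : ℕ, ∑ r ∈ range K, y r * B ^ r < B ^ K := by
    intro K
    induction K with
    | zero => simp
    | succ K ih =>
      rw [sum_range_succ]
      have h1 := hy K
      have h2 : (y K + 1) * B ^ K ≤ B * B ^ K := Nat.mul_le_mul_right _ h1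
      calc ∑ r ∈ range K, y r * B ^ r + y K * B ^ K < B ^ K + y K * B ^ K := by omega
        _ = (y K + 1) * B ^ K := by ring
        _ ≤ B * B ^ K := h2
        _ = B ^ (K + 1) := by ring
  rw [Nat.add_sub_cancel, sum_range_succ, Nat.add_mul_mod_self_right, Nat.mod_eq_of_lt (hlt K),
    sum_range_succ', sum_mul]
  simp only [if_true, Nat.zero_mul, Nat.add_zero]
  refine sum_congr rfl fun r _ => ?_
  rw [if_neg (by omega), Nat.add_sub_cancel, pow_succ]
  ring

theorem V_eq (B R A : ℕ) (T : List ℕ → List ℕ → List ℕ → ℕ) (hR : 1 ≤ R)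
    (hT : ∀ a b c : List ℕ, T a b c ≤ A * 3 ^ (a.sum + b.sum + c.sum)) :
    ∀ (n : ℕ) (t : SS), t.u = 0 → A * 3 ^ (pot t) < B →
      Vs (fun v => (v % B ^ (R - 1)) * B) T n t = ∑ r ∈ range R, Nu T n t r * B ^ r := by
  have hstop : ∀ t : SS, t.u = 0 →
      Tt T t = ∑ r ∈ range R, (if t.u = r then Tt T t else 0) * B ^ r := by
    intro t hu
    rw [sum_eq_single 0]
    · simp [hu]
    · intro r _ hr
      rw [if_neg (by omega), Nat.zero_mul]
    · intro h
      exact absurd (mem_range.mpr (by omega)) h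
  intro n
  induction n with
  | zero => intro t hu _; exact hstop t hu
  | succ n ih =>
    intro t hu hB
    rcases cases3 t with ⟨i, j, k, hi, hN, hV, -, -⟩ | ⟨-, -, -, hN, hV, -⟩
    · have hp := pot_take i t hi
      have hmono : A * 3 ^ pot (take1 i t) ≤ A * 3 ^ pot t :=
        Nat.mul_le_mul_left _ (Nat.pow_le_pow_right (by norm_num) (by omega))
      have hBt : A * 3 ^ pot (take1 i t) < B := lt_of_le_of_lt hmono hB
      have h1 := ih (take1 i t) hu hBt
      have h2 := ih (enter j (take1 i t)) (by rw [enter_u]; exact hu) (by rw [pot_enter]; exact hBt)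
      have h3 := ih (enter k (take1 i t)) (by rw [enter_u]; exact hu) (by rw [pot_enter]; exact hBt)
      rw [hV, h1, h2, h3]
      simp only [hN, Nu_move]
      rw [packed_shift B R hR _ (fun r => lt_of_le_of_lt (Nu_lt T A hT n _ r) hBt),
        ← sum_add_distrib, ← sum_add_distrib]
      refine sum_congr rfl fun r _ => ?_
      ring
    · rw [hV]
      simp only [hN]
      exact hstop t hu

theorem E_eq (T : List ℕ → List ℕ → List ℕ → ℕ) (q : ℕ) : ∀ (n : ℕ) (t : SS), pot t ≤ n →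
    (Nu T n t q : ℝ) = 3 ^ (pot t) * (route [] n t).E (fun _ => wu) (fun t' =>
        if t'.u = q then (T (t'.L 0) (t'.L 1) (t'.L 2) : ℝ) /
          3 ^ ((t'.L 0).sum + (t'.L 1).sum + (t'.L 2).sum) else 0) := by
  have hstop : ∀ t : SS, t.f 0 = 0 → t.f 1 = 0 → t.f 2 = 0 →
      ((if t.u = q then Tt T t else 0 : ℕ) : ℝ) = 3 ^ (pot t) *
        (if t.u = q then (T (t.L 0) (t.L 1) (t.L 2) : ℝ) /
          3 ^ ((t.L 0).sum + (t.L 1).sum + (t.L 2).sum) else 0) := by
    intro t h0 h1 h2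
    have hp : pot t = (t.L 0).sum + (t.L 1).sum + (t.L 2).sum := by unfold pot; omega
    rw [hp]
    split_ifs
    · unfold Tt
      field_simp
    · simp
  intro n
  induction n with
  | zero =>
    intro t ht
    have h0 : t.f 0 = 0 := by unfold pot at ht; omega
    have h1 : t.f 1 = 0 := by unfold pot at ht; omega
    have h2 : t.f 2 = 0 := by unfold pot at ht; omega
    simp only [Nu, route, Prog.E]
    exact hstop t h0 h1 h2
  | succ n ih =>
    intro t ht
    rcases cases3 t with ⟨i, j, k, hi, hN, -, hr, hw⟩ | ⟨h0, h1, h2, hN, -, hr⟩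
    · have hp := pot_take i t hi
      rw [hN, hr, Prog.E, hw]
      have e1 := ih (move 0 (take1 i t)) (by rw [pot_move]; omega)
      have e2 := ih (enter j (take1 i t)) (by rw [pot_enter]; omega)
      have e3 := ih (enter k (take1 i t)) (by rw [pot_enter]; omega)
      rw [pot_move] at e1
      rw [pot_enter] at e2 e3
      have m2 : move j.succ (take1 i t) = enter j (take1 i t) := by simp [move]
      have m3 : move k.succ (take1 i t) = enter k (take1 i t) := by simp [move]
      rw [m2, m3]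
      push_cast
      rw [e1, e2, e3, ← hp, pow_succ]
      ring
    · rw [hN, hr, Prog.E]
      exact hstop t h0 h1 h2

/-- The packed value counts outcomes. -/
theorem main : S_PV := by
  intro B R A T hR hT n t hu hn hB
  refine ⟨fun r => Nu T n t r, ?_, ?_⟩
  · exact V_eq B R A T hR hT n t hu hB
  · intro r
    have h := E_eq T r n t hn
    rw [route_fuel [] n t hn] at h
    exact h

end Pool.Agent.W847.T3.T_PV
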