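import Pool.Agent.W847.T3.T_WTS

set_option autoImplicit false

open Finset

namespace Pool.Agent.W847.T3.T_ROOT

/-- All the questions of the program are at vertices of `A`. -/
def Reads (A : Set (List (Fin 3))) {β : Type} : Prog β → Prop
  | .ret _ => True
  | .ask _ z _ next => z ∈ A ∧ ∀ a, Reads A (next a)

lemma run_congr (ω : Stk) (A : Set (List (Fin 3))) {β : Type} (P : Prog β) (hP : Reads A P) :
    ∀ (cn cn' : Cnt), (∀ z ∈ A, ∀ s, cn z s = cn' z s) →
      (P.runS ω cn).1 = (P.runS ω cn').1 := by
  induction P with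
  | ret r => intro cn cn' _; rfl
  | ask x z s next ih =>
    intro cn cn' h
    simp only [Prog.runS]
    rw [h z hP.1 s]
    apply ih _ (hP.2 _)
    intro z' hz' s'
    unfold inc
    rw [h z' hz' s']

lemma reads_bind (A : Set (List (Fin 3))) {β γ : Type} (P : Prog β) (f : β → Prog γ)
    (hP : Reads A P) (hf : ∀ r, Reads A (f r)) : Reads A (P.bind f) := by
  induction P with
  | ret r => exact hf r
  | ask x z s next ih => exact ⟨hP.1, fun a => ih a (hP.2 a)⟩

lemma reads_mono (A B : Set (List (Fin 3))) (h : A ⊆ B) {β : Type} (P : Prog β)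
    (hP : Reads A P) : Reads B P := by
  induction P with
  | ret r => trivial
  | ask x z s next ih => exact ⟨h hP.1, fun a => ih a (hP.2 a)⟩

lemma reads_route (A : Set (List (Fin 3))) (v : List (Fin 3)) (hv : v ∈ A) (n : ℕ) :
    ∀ t, Reads A (route v n t) := by
  induction n with
  | zero => intro t; trivial
  | succ n ih =>
    intro t
    unfold route
    split_ifs
    · exact ⟨hv, fun a => ih _⟩
    · exact ⟨hv, fun a => ih _⟩
    · exact ⟨hv, fun a => ih _⟩
    · trivial

lemma reads_star (A : Set (List (Fin 3))) (v : List (Fin 3)) (hv : v ∈ A)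
    (L : Fin 3 → List ℕ) : Reads A (star v L) := by
  have h1 : ∀ t, Reads A (ph v t) := fun t => ⟨hv, fun a => reads_route A v hv _ _⟩
  have h0 : ∀ t, Reads A (ph1 v t) :=
    fun t => ⟨hv, fun a => ⟨hv, fun b => reads_route A v hv _ _⟩⟩
  unfold star
  refine reads_bind A _ _ (h0 _) fun t1 => reads_bind A _ _ (h1 _) fun t2 =>
    reads_bind A _ _ (h1 _) fun t3 => trivial

lemma reads_tape (h : ℕ) : ∀ v : List (Fin 3), Reads {z | v <:+ z} (tape h v) := by
  induction h with
  | zero => intro v; trivial
  | succ h ih =>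
    intro v
    have hs : ∀ i : Fin 3, {z | (i :: v) <:+ z} ⊆ {z | v <:+ z} := by
      intro i z hz
      exact (List.suffix_cons i v).trans hz
    unfold tape
    refine reads_bind _ _ _ (reads_mono _ _ (hs 0) _ (ih _)) fun a =>
      reads_bind _ _ _ (reads_mono _ _ (hs 1) _ (ih _)) fun b =>
      reads_bind _ _ _ (reads_mono _ _ (hs 2) _ (ih _)) fun c => reads_star _ _ ?_ _
    exact List.suffix_refl v

theorem main (h1 : S_COMP) (h2 : S_TAPES) (h3 : S_TAPELB) (h4 : S_EXSTK) (h5 : S_WTS) :
    S_ROOT := by
  intro n hn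
  obtain ⟨m, hm⟩ := h4 n (by omega)
  refine ⟨m, ?_⟩
  intro x hx0 hx1
  have key := h1 (wq n) (h5 n) EX (List ℕ) (expl n m ex0)
    (Prog.ask [] [] .own (fun a => Fin.cases (.ret []) (fun j => tape (n - 1) [j]) a))
    (fun r => x ^ r.rc.length) (fun L => x ^ (L.take 1).sum) ?_
  · refine key.trans (le_of_eq ?_)
    simp only [Prog.E]
    rw [Fin.sum_univ_succ, Finset.mul_sum]
    have hc : cc n 0 ≠ 0 := by
      have := T_WTS.cc_lb n 0
      intro h; rw [h] at this; norm_num at this
    have w0 : wq n [] .own 0 = 0 := by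
      simp [wq, wl, U]
    have w1 : ∀ j : Fin 3, wq n [] .own j.succ = 1 / 3 := by
      intro j
      simp only [wq, wl, List.length_nil, U, Fin.succ_ne_zero, if_false]
      field_simp
      ring
    rw [w0, zero_mul, zero_add]
    apply Finset.sum_congr rfl
    intro j _
    rw [w1]
    rfl
  · intro ω hω
    have hG : GoodS ω := by
      constructor
      · intro z k hk
        have := hω z .par k
        rw [hk] at this
        simp [wq, wl] at this
      · intro k hk
        have := hω [] .own k
        rw [hk] at this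
        simp [wq, wl, U] at this
    obtain ⟨hB, hB1, hB2⟩ := hm ω hG
    generalize (expl n m ex0).runS ω cn0 = R at *
    rcases Fin.eq_zero_or_eq_succ (ω [] .own 0) with ha | ⟨j, ha⟩
    · exact absurd ha (hG.2 0)
    · have hrun : ((Prog.ask [] [] .own
          (fun a => Fin.cases (.ret []) (fun j => tape (n - 1) [j]) a)).runS ω cn0).1 =
          tapeS ω (n - 1) [j] := by
        simp only [Prog.runS]
        rw [show cn0 [] .own = 0 from rfl, ha, Fin.cases_succ, ← h2 ω (n - 1) [j]]
        apply run_congr ω _ _ (reads_tape (n - 1) [j])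
        intro z hz s
        unfold inc
        rw [if_neg]
        rintro ⟨h, _⟩
        rw [h] at hz
        simp at hz
      rw [hrun]
      have c1 : 1 ≤ R.2 [j] .par := by
        refine le_trans ?_ (hB.1 [] j (by simp only [List.length_nil]; omega))
        have : 1 ≤ cnt ω [] .own j.succ (R.2 [] .own) := by
          unfold cnt
          apply Finset.card_pos.2
          refine ⟨0, ?_⟩
          rw [Finset.mem_filter, Finset.mem_range]
          exact ⟨by omega, ha⟩
        unfold sumS
        simp only
        omega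
      have c2 := h3 n ω R.2 hB (n - 1) [j] (by simp) (by simp only [List.length_singleton]; omega)
        1 c1
      exact pow_le_pow_of_le_one hx0 hx1 (c2.trans (hB2 j))

end Pool.Agent.W847.T3.T_ROOT
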