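import Pool.Agent.W847.T3.Stm

set_option autoImplicit false

open Finset

namespace Pool.Agent.W847.T3.T_STAR

lemma run_bind {β γ : Type} (ω : Stk) (P : Prog β) (f : β → Prog γ) :
    ∀ cn, (P.bind f).runS ω cn = (f (P.runS ω cn).1).runS ω (P.runS ω cn).2 := by
  induction P with
  | ret r => exact fun _ => rfl
  | ask x z s next ih =>
    intro cn
    simp only [Prog.bind, Prog.runS]
    exact ih _ _

lemma cnt_succ (ω : Stk) (z : List (Fin 3)) (s : Side) (a : Fin 4) (m : ℕ) :
    cnt ω z s a (m + 1) = cnt ω z s a m + if ω z s m = a then 1 else 0 := by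
  unfold cnt
  rw [Finset.range_add_one, Finset.filter_insert]
  split_ifs with h
  · rw [Finset.card_insert_of_notMem (by simp)]
  · rfl

lemma cnt_mono (ω : Stk) (z : List (Fin 3)) (s : Side) (a : Fin 4) {m m' : ℕ} (h : m ≤ m') :
    cnt ω z s a m ≤ cnt ω z s a m' :=
  Finset.card_le_card (Finset.filter_subset_filter _ (Finset.range_subset_range.2 h))

/-- total number of answers -/
def tt (ω : Stk) (v : List (Fin 3)) (a : Fin 4) (c : Side → ℕ) : ℕ :=
  sumS fun s => cnt ω v s a (c s)

lemma tt_mono (ω : Stk) (v : List (Fin 3)) (a : Fin 4) {c c' : Side → ℕ} (h : ∀ s, c s ≤ c' s) :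
    tt ω v a c ≤ tt ω v a c' := by
  unfold tt sumS
  exact Nat.add_le_add (Nat.add_le_add (Nat.add_le_add (Nat.add_le_add
    (cnt_mono ω v _ a (h _)) (cnt_mono ω v _ a (h _))) (cnt_mono ω v _ a (h _)))
    (cnt_mono ω v _ a (h _))) (cnt_mono ω v _ a (h _))

/-- increased counter -/
def incr (c : Side → ℕ) (s : Side) : Side → ℕ := fun s' => if s' = s then c s' + 1 else c s'

lemma inc_self (cn : Cnt) (v : List (Fin 3)) (s : Side) : inc cn v s v = incr (cn v) s := by
  funext s'
  unfold inc incr
  simp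

lemma le_incr (c : Side → ℕ) (s s' : Side) : c s' ≤ incr c s s' := by
  unfold incr
  split_ifs <;> omega

lemma tt_incr (ω : Stk) (v : List (Fin 3)) (a : Fin 4) (c : Side → ℕ) (s : Side) :
    tt ω v a (incr c s) = tt ω v a c + if ω v s (c s) = a then 1 else 0 := by
  have key : ∀ s', cnt ω v s' a (incr c s s') =
      cnt ω v s' a (c s') + if s' = s then (if ω v s (c s) = a then 1 else 0) else 0 := by
    intro s'
    unfold incr
    split_ifs with h1 h2
    · subst h1; rw [cnt_succ, if_pos h2]
    · subst h1; rw [cnt_succ, if_neg h2]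
    · rfl
  unfold tt sumS
  simp only [key]
  rcases s with _ | _ | i
  · simp; ring
  · simp; ring
  · fin_cases i
    · simp; ring
    · simp; ring
    · simp; ring

/-- closed configurations at the centre -/
def Cl (ω : Stk) (v : List (Fin 3)) (L : Fin 3 → List ℕ) (C : Side → ℕ) : Prop :=
  ∀ i : Fin 3, ((L i).take (tt ω v i.succ C)).sum ≤ C (.ch i)

/-- relation before the move -/
structure J (ω : Stk) (v : List (Fin 3)) (L : Fin 3 → List ℕ) (t : SS) (c c' : Side → ℕ) :
    Prop where
  hL : ∀ i, t.L i = (L i).drop (tt ω v i.succ c)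
  hf : ∀ i, c' (.ch i) + t.f i = ((L i).take (tt ω v i.succ c)).sum
  hu : t.u = tt ω v 0 c

lemma take_succ_sum (l : List ℕ) : ∀ k, (l.take (k + 1)).sum = (l.take k).sum +
    ((l.drop k).headD 0) := by
  induction l with
  | nil => intro k; simp
  | cons h l ih =>
    intro k
    cases k with
    | zero => simp
    | succ k =>
      have := ih k
      simp only [List.take_succ_cons, List.sum_cons, List.drop_succ_cons]
      omega

lemma move_inv (ω : Stk) (v : List (Fin 3)) (L : Fin 3 → List ℕ) (t : SS) (c : Side → ℕ)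
    (s : Side) (h : J ω v L t c (incr c s)) :
    J ω v L (move (ω v s (c s)) t) (incr c s) (incr c s) := by
  rcases Fin.eq_zero_or_eq_succ (ω v s (c s)) with ha | ⟨j, ha⟩
  · rw [ha]
    have h1 : ∀ i : Fin 3, tt ω v i.succ (incr c s) = tt ω v i.succ c := fun i => by
      rw [tt_incr, ha, if_neg (Fin.succ_ne_zero i).symm, add_zero]
    refine ⟨fun i => ?_, fun i => ?_, ?_⟩
    · rw [h1]
      exact h.hL i
    · rw [h1]
      exact h.hf i
    · rw [tt_incr, ha, if_pos rfl, ← h.hu]
      rfl
  · rw [ha]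
    change J ω v L (enter j t) _ _
    have hj : tt ω v j.succ (incr c s) = tt ω v j.succ c + 1 := by
      rw [tt_incr, ha, if_pos rfl]
    have hi : ∀ i : Fin 3, i ≠ j → tt ω v i.succ (incr c s) = tt ω v i.succ c := fun i hij => by
      rw [tt_incr, ha, if_neg (fun h => hij (Fin.succ_injective _ h).symm), add_zero]
    have h0 : tt ω v 0 (incr c s) = tt ω v 0 c := by
      rw [tt_incr, ha, if_neg (Fin.succ_ne_zero j), add_zero]
    have hts := take_succ_sum (L j) (tt ω v j.succ c)
    rw [← h.hL j] at hts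
    have hdrop : (L j).drop (tt ω v j.succ c + 1) = (t.L j).tail := by
      rw [h.hL j, List.tail_drop]
    unfold enter
    cases hLj : t.L j with
    | nil =>
      simp only
      rw [hLj] at hts hdrop
      simp only [List.headD_nil, add_zero, List.tail_nil] at hts hdrop
      refine ⟨fun i => ?_, fun i => ?_, ?_⟩
      · by_cases hij : i = j
        · subst hij
          rw [hj, hdrop, hLj]
        · rw [hi i hij]
          exact h.hL i
      · by_cases hij : i = j
        · subst hij
          rw [hj, hts]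
          exact h.hf i
        · rw [hi i hij]
          exact h.hf i
      · rw [h0]
        exact h.hu
    | cons a l =>
      simp only
      rw [hLj] at hts hdrop
      simp only [List.headD_cons, List.tail_cons] at hts hdrop
      refine ⟨fun i => ?_, fun i => ?_, ?_⟩
      · change Function.update t.L j l i = _
        by_cases hij : i = j
        · subst hij
          rw [hj, hdrop, Function.update_self]
        · rw [hi i hij, Function.update_of_ne hij]
          exact h.hL i
      · change incr c s (.ch i) + Function.update t.f j (t.f j + a) i = _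
        by_cases hij : i = j
        · subst hij
          rw [hj, hts, Function.update_self, ← h.hf i]
          ring
        · rw [hi i hij, Function.update_of_ne hij]
          exact h.hf i
      · rw [h0]
        exact h.hu

lemma j_par (ω : Stk) (v : List (Fin 3)) (L : Fin 3 → List ℕ) (t : SS) (c : Side → ℕ)
    (s : Side) (hs : ∀ i, s ≠ .ch i) (h : J ω v L t c c) : J ω v L t c (incr c s) := by
  refine ⟨h.hL, fun i => ?_, h.hu⟩
  have : incr c s (.ch i) = c (.ch i) := by
    unfold incr
    rw [if_neg (hs i).symm]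
  rw [this]
  exact h.hf i

lemma j_ch (ω : Stk) (v : List (Fin 3)) (L : Fin 3 → List ℕ) (t : SS) (c : Side → ℕ)
    (i : Fin 3) (hi : 0 < t.f i) (h : J ω v L t c c) :
    J ω v L (take1 i t) c (incr c (.ch i)) := by
  refine ⟨h.hL, fun j => ?_, h.hu⟩
  have h1 := h.hf j
  by_cases hij : j = i
  · subst hij
    have h2 : incr c (.ch j) (.ch j) = c (.ch j) + 1 := by
      unfold incr
      rw [if_pos rfl]
    have h3 : (take1 j t).f j = t.f j - 1 := by
      unfold take1
      simp
    rw [h2, h3]
    omega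
  · have h2 : incr c (.ch i) (.ch j) = c (.ch j) := by
      unfold incr
      rw [if_neg (fun h => hij (Side.ch.inj h))]
    have h3 : (take1 i t).f j = t.f j := by
      unfold take1
      simp [Function.update_of_ne hij]
    rw [h2, h3]
    exact h1

lemma pot_take (i : Fin 3) (t : SS) (hi : 0 < t.f i) : pot (take1 i t) + 1 = pot t := by
  unfold pot take1
  fin_cases i
  · simp [Function.update] at hi ⊢
    omega
  · simp [Function.update] at hi ⊢
    omega
  · simp [Function.update] at hi ⊢
    omega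

lemma pot_enter (j : Fin 3) (t : SS) : pot (enter j t) = pot t := by
  unfold enter
  cases h : t.L j with
  | nil => rfl
  | cons a l =>
    unfold pot
    fin_cases j
    · simp only [Fin.zero_eta] at h
      simp [Function.update, h]
      omega
    · simp only [Fin.mk_one] at h
      simp [Function.update, h]
      omega
    · simp only [Fin.reduceFinMk] at h
      simp [Function.update, h]
      omega

lemma pot_move (a : Fin 4) (t : SS) : pot (move a t) = pot t := by
  rcases Fin.eq_zero_or_eq_succ a with rfl | ⟨j, rfl⟩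
  · rfl
  · exact pot_enter j t

/-- facts about a run -/
structure RF (ω : Stk) (v : List (Fin 3)) (L : Fin 3 → List ℕ) (c : Side → ℕ) (t' : SS)
    (c' : Side → ℕ) : Prop where
  inv : J ω v L t' c' c'
  bd : ∀ C, Cl ω v L C → (∀ s, c s ≤ C s) → ∀ s, c' s ≤ C s
  le : ∀ s, c s ≤ c' s
  par : c' .par = c .par
  own : c' .own = c .own

lemma route_rf (ω : Stk) (v : List (Fin 3)) (L : Fin 3 → List ℕ) (n : ℕ) :
    ∀ (t : SS) (cn : Cnt), J ω v L t (cn v) (cn v) →
      RF ω v L (cn v) ((route v n t).runS ω cn).1 (((route v n t).runS ω cn).2 v) ∧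
      (pot t ≤ n → ∀ i, ((route v n t).runS ω cn).1.f i = 0) := by
  induction n with
  | zero =>
    intro t cn h
    refine ⟨⟨h, fun C _ hc => hc, fun s => le_rfl, rfl, rfl⟩, fun hp i => ?_⟩
    unfold pot at hp
    change t.f i = 0
    fin_cases i <;> simp <;> omega
  | succ n ih =>
    have step : ∀ (i : Fin 3) (t : SS) (cn : Cnt), J ω v L t (cn v) (cn v) → 0 < t.f i →
        RF ω v L (cn v) ((Prog.ask [] v (.ch i)
          (fun a => route v n (move a (take1 i t)))).runS ω cn).1
          (((Prog.ask [] v (.ch i) (fun a => route v n (move a (take1 i t)))).runS ω cn).2 v) ∧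
        (pot t ≤ n + 1 → ∀ j, ((Prog.ask [] v (.ch i)
          (fun a => route v n (move a (take1 i t)))).runS ω cn).1.f j = 0) := by
      intro i t cn h hi
      simp only [Prog.runS]
      have h1 := move_inv ω v L (take1 i t) (cn v) (.ch i) (j_ch ω v L t (cn v) i hi h)
      rw [← inc_self] at h1
      obtain ⟨h2, h3⟩ := ih _ (inc cn v (.ch i)) h1
      have hsame : ∀ s, (∀ i', s ≠ .ch i') → inc cn v (.ch i) v s = cn v s := by
        intro s hs
        unfold inc
        rw [if_neg (fun h => hs i h.2)]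
      refine ⟨⟨h2.inv, fun C hC hc => ?_, fun s => ?_, ?_, ?_⟩, fun hp => ?_⟩
      · refine h2.bd C hC fun s => ?_
        rw [inc_self]
        unfold incr
        split_ifs with hs
        · subst hs
          have h4 := h.hf i
          have h5 : ((L i).take (tt ω v i.succ (cn v))).sum ≤
              ((L i).take (tt ω v i.succ C)).sum := by
            have h6 := tt_mono ω v i.succ hc
            obtain ⟨k, hk⟩ := Nat.exists_eq_add_of_le h6
            rw [hk, List.take_add, List.sum_append]
            exact Nat.le_add_right _ _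
          have h6 := hC i
          omega
        · exact hc s
      · refine le_trans ?_ (h2.le s)
        rw [inc_self]
        exact le_incr _ _ _
      · rw [h2.par]
        exact hsame .par (fun i' => by simp)
      · rw [h2.own]
        exact hsame .own (fun i' => by simp)
      · refine h3 ?_
        rw [pot_move]
        have := pot_take i t hi
        omega
    intro t cn h
    unfold route
    split_ifs with h0 h1 h2
    · exact step 0 t cn h h0
    · exact step 1 t cn h h1
    · exact step 2 t cn h h2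
    · refine ⟨⟨h, fun C _ hc => hc, fun s => le_rfl, rfl, rfl⟩, fun _ i => ?_⟩
      change t.f i = 0
      fin_cases i <;> simp <;> omega

/-- facts about phase `k` -/
structure PF (ω : Stk) (v : List (Fin 3)) (L : Fin 3 → List ℕ) (k : ℕ) (t : SS)
    (c : Side → ℕ) : Prop where
  inv : J ω v L t c c
  f0 : ∀ i, t.f i = 0
  par : c .par = k
  own : c .own = 1
  bd : ∀ C, Cl ω v L C → 1 ≤ C .own → k ≤ C .par → ∀ s, c s ≤ C s

lemma ph_pf (ω : Stk) (v : List (Fin 3)) (L : Fin 3 → List ℕ) (k : ℕ) (t : SS) (cn : Cnt)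
    (h : PF ω v L k t (cn v)) :
    PF ω v L (k + 1) ((ph v t).runS ω cn).1 (((ph v t).runS ω cn).2 v) ∧
      t.u ≤ ((ph v t).runS ω cn).1.u := by
  unfold ph routeAll
  simp only [Prog.runS]
  have h1 := move_inv ω v L t (cn v) .par (j_par ω v L t (cn v) .par (by simp) h.inv)
  rw [← inc_self] at h1
  obtain ⟨h2, h3⟩ := route_rf ω v L (pot (move (ω v .par (cn v .par)) t)) _ (inc cn v .par) h1
  have hle : ∀ s, cn v s ≤ (((route v (pot (move (ω v .par (cn v .par)) t))
      (move (ω v .par (cn v .par)) t)).runS ω (inc cn v .par)).2 v) s := by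
    intro s
    refine le_trans ?_ (h2.le s)
    rw [inc_self]
    exact le_incr _ _ _
  refine ⟨⟨h2.inv, h3 le_rfl, ?_, ?_, fun C hC hC1 hC2 => ?_⟩, ?_⟩
  · rw [h2.par, inc_self]
    unfold incr
    rw [if_pos rfl, h.par]
  · rw [h2.own, inc_self]
    unfold incr
    rw [if_neg (by simp), h.own]
  · refine h2.bd C hC fun s => ?_
    rw [inc_self]
    unfold incr
    have h4 := h.bd C hC hC1 (by omega)
    split_ifs with hs
    · rw [hs, h.par]
      exact hC2
    · exact h4 s
  · rw [h.inv.hu, h2.inv.hu]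
    exact tt_mono ω v 0 hle

lemma ph1_pf (ω : Stk) (v : List (Fin 3)) (L : Fin 3 → List ℕ) :
    PF ω v L 1 ((ph1 v ⟨L, fun _ => 0, 0⟩).runS ω (fun _ _ => 0)).1
      (((ph1 v ⟨L, fun _ => 0, 0⟩).runS ω (fun _ _ => 0)).2 v) := by
  set cz : Cnt := fun _ _ => 0 with hcz
  have htt : ∀ a, tt ω v a (cz v) = 0 := by
    intro a
    unfold tt sumS
    simp [cnt, hcz]
  have hJ : J ω v L ⟨L, fun _ => 0, 0⟩ (cz v) (cz v) := by
    refine ⟨fun i => ?_, fun i => ?_, ?_⟩
    · rw [htt]
      simp
    · rw [htt]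
      simp [hcz]
    · rw [htt]
  unfold ph1 routeAll
  simp only [Prog.runS]
  have h1 := move_inv ω v L _ (cz v) .par (j_par ω v L _ (cz v) .par (by simp) hJ)
  rw [← inc_self] at h1
  have h2 := move_inv ω v L _ (inc cz v .par v) .own
    (j_par ω v L _ (inc cz v .par v) .own (by simp) h1)
  rw [← inc_self] at h2
  obtain ⟨h3, h4⟩ := route_rf ω v L (pot (move (ω v .own (inc cz v .par v .own))
    (move (ω v .par (cz v .par)) ⟨L, fun _ => 0, 0⟩))) _ (inc (inc cz v .par) v .own) h2
  have hpar : inc (inc cz v .par) v .own v .par = 1 := by simp [inc, hcz]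
  have hown : inc (inc cz v .par) v .own v .own = 1 := by simp [inc, hcz]
  have hch : ∀ i, inc (inc cz v .par) v .own v (.ch i) = 0 := by simp [inc, hcz]
  refine ⟨h3.inv, h4 le_rfl, ?_, ?_, fun C hC hC1 hC2 => ?_⟩
  · rw [h3.par, hpar]
  · rw [h3.own, hown]
  · refine h3.bd C hC fun s => ?_
    rcases s with _ | _ | i
    · rw [hown]
      exact hC1
    · rw [hpar]
      exact hC2
    · rw [hch]
      exact Nat.zero_le _

lemma star_facts (ω : Stk) (v : List (Fin 3)) (L : Fin 3 → List ℕ) :
    ∃ (t1 t2 t3 : SS) (c1 c2 c3 : Side → ℕ), starS ω v L = [t1.u, t2.u - t1.u, t3.u - t2.u] ∧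
      PF ω v L 1 t1 c1 ∧ PF ω v L 2 t2 c2 ∧ PF ω v L 3 t3 c3 ∧ t1.u ≤ t2.u ∧ t2.u ≤ t3.u := by
  have h1 := ph1_pf ω v L
  set r1 := (ph1 v ⟨L, fun _ => 0, 0⟩).runS ω (fun _ _ => 0) with hr1
  obtain ⟨h2, h2'⟩ := ph_pf ω v L 1 r1.1 r1.2 h1
  set r2 := (ph v r1.1).runS ω r1.2 with hr2
  obtain ⟨h3, h3'⟩ := ph_pf ω v L 2 r2.1 r2.2 h2
  set r3 := (ph v r2.1).runS ω r2.2 with hr3
  refine ⟨r1.1, r2.1, r3.1, r1.2 v, r2.2 v, r3.2 v, ?_, h1, h2, h3, h2', h3'⟩
  unfold starS star
  rw [run_bind, run_bind, run_bind]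
  rfl

lemma take_sum (a b c m : ℕ) (h1 : a ≤ b) (h2 : b ≤ c) :
    (([a, b - a, c - b] : List ℕ).take m).sum = if m = 0 then 0 else if m = 1 then a else
      if m = 2 then b else c := by
  rcases m with _ | _ | _ | m
  · simp
  · simp
  · simp
    omega
  · simp
    omega

theorem main1 : S_STARLB := by
  intro ω v L c m hcl hown hm
  obtain ⟨t1, t2, t3, c1, c2, c3, h0, h1, h2, h3, h4, h5⟩ := star_facts ω v L
  rw [h0, take_sum _ _ _ _ h4 h5]
  change _ ≤ tt ω v 0 c
  have hC : Cl ω v L c := hcl
  split_ifs with hm0 hm1 hm2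
  · exact Nat.zero_le _
  · rw [h1.inv.hu]
    exact tt_mono ω v 0 (h1.bd c hC hown (by omega))
  · rw [h2.inv.hu]
    exact tt_mono ω v 0 (h2.bd c hC hown (by omega))
  · rw [h3.inv.hu]
    exact tt_mono ω v 0 (h3.bd c hC hown (by omega))

theorem main2 : S_STARMONO := by
  intro ω v L L' hLe m
  obtain ⟨t1, t2, t3, c1, c2, c3, h0, h1, h2, h3, h4, h5⟩ := star_facts ω v L
  obtain ⟨t1', t2', t3', c1', c2', c3', h0', h1', h2', h3', h4', h5'⟩ := star_facts ω v L'
  have key : ∀ (k : ℕ) (t' : SS) (c' : Side → ℕ), PF ω v L' k t' c' → Cl ω v L c' := by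
    intro k t' c' hp i
    have h6 := hp.inv.hf i
    rw [hp.f0 i, add_zero] at h6
    rw [h6]
    exact hLe i _
  rw [h0, h0', take_sum _ _ _ _ h4 h5, take_sum _ _ _ _ h4' h5']
  split_ifs with hm0 hm1 hm2
  · exact le_rfl
  · rw [h1.inv.hu, h1'.inv.hu]
    exact tt_mono ω v 0 (h1.bd c1' (key 1 _ _ h1') h1'.own.ge h1'.par.ge)
  · rw [h2.inv.hu, h2'.inv.hu]
    exact tt_mono ω v 0 (h2.bd c2' (key 2 _ _ h2') h2'.own.ge h2'.par.ge)
  · rw [h3.inv.hu, h3'.inv.hu]
    exact tt_mono ω v 0 (h3.bd c3' (key 3 _ _ h3') h3'.own.ge h3'.par.ge)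

end Pool.Agent.W847.T3.T_STAR
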