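import Pool.Agent.W847.T3.T_STEP0

/-!
# One step of stage A
-/

set_option autoImplicit false

open Finset

namespace Pool.Agent.W847.T3.T_STEPA

open T_STEP0

/-- The type of a truncated outcome. -/
def trA (x y z : ℕ) : List ℕ :=
  if x ≤ 2 then
    if y = 0 then (if z = 0 then (if x = 0 then [] else [x]) else [x, 0, z])
    else if y = 1 then (if z = 0 then [x, 1] else [x, 1, 1]) else [x, 2]
  else if x ≤ 4 then
    if y = 0 then (if z = 0 then [x] else [x, 0, 1]) else [x, 1]
  else [x]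

/-- The type of an outcome. -/
def tr (o : List ℕ) : List ℕ :=
  trA (min (o.getD 0 0) 7) (min (o.getD 1 0) 2) (min (o.getD 2 0) 2)

theorem trA_le : ∀ x < 8, ∀ y < 3, ∀ z < 3, (trA x y z).length ≤ 3 ∧
    ((trA x y z).take 1).sum ≤ x ∧ ((trA x y z).take 2).sum ≤ x + y ∧
    ((trA x y z).take 3).sum ≤ x + y + z := by
  decide

theorem tr_le (x y z : ℕ) : Le (tr [x, y, z]) [x, y, z] := by
  intro m
  obtain ⟨h0, h1, h2, h3⟩ := trA_le (min x 7) (by omega) (min y 2) (by omega) (min z 2) (by omega)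
  show ((trA (min x 7) (min y 2) (min z 2)).take m).sum ≤ _
  match m with
  | 0 => simp
  | 1 =>
    simp only [List.take_succ_cons, List.take_zero, List.sum_cons, List.sum_nil]
    omega
  | 2 =>
    simp only [List.take_succ_cons, List.take_zero, List.sum_cons, List.sum_nil]
    omega
  | m + 3 =>
    have e : (trA (min x 7) (min y 2) (min z 2)).take (m + 3) =
        (trA (min x 7) (min y 2) (min z 2)).take 3 := by
      rw [List.take_of_length_le (by omega), List.take_of_length_le h0]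
    rw [e]
    simp only [List.take_succ_cons, List.take_nil, List.sum_cons, List.sum_nil]
    omega

/-- Second and third entries. -/
def qy (m y z : ℕ) : Bool :=
  match m with
  | 0 => y == 0 && z == 0
  | 1 => y == 0 && z == 1
  | 2 => y == 0
  | 3 => y == 1 && z == 0
  | 4 => y == 1 && z == 1
  | 5 => y == 1
  | _ => true

/-- Indicator of field `i`. -/
def cb (i x y z : ℕ) : ℕ := if (x == i / 7 && qy (i % 7) y z) = true then 1 else 0

/-- Indicator of the type. -/
def tb (s : List ℕ) (x y z : ℕ) : ℕ := if trA x y z = s then 1 else 0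

theorem cls_iff (i x y z : ℕ) : clsA i [x, y, z] ↔ (x == i / 7 && qy (i % 7) y z) = true := by
  unfold clsA
  rw [Bool.and_eq_true, beq_iff_eq]
  refine and_congr Iff.rfl ?_
  generalize i % 7 = m
  match m with
  | 0 => simp [qy]
  | 1 => simp [qy]
  | 2 => simp [qy]
  | 3 => simp [qy]
  | 4 => simp [qy]
  | 5 => simp [qy]
  | n + 6 => simp [qy]

theorem qy_min (m y z : ℕ) : qy m y z = qy m (min y 2) (min z 2) := by
  have a0 : (y == 0) = (min y 2 == 0) := by
    rw [Bool.eq_iff_iff, beq_iff_eq, beq_iff_eq]; omega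
  have a1 : (y == 1) = (min y 2 == 1) := by
    rw [Bool.eq_iff_iff, beq_iff_eq, beq_iff_eq]; omega
  have b0 : (z == 0) = (min z 2 == 0) := by
    rw [Bool.eq_iff_iff, beq_iff_eq, beq_iff_eq]; omega
  have b1 : (z == 1) = (min z 2 == 1) := by
    rw [Bool.eq_iff_iff, beq_iff_eq, beq_iff_eq]; omega
  unfold qy
  rw [a0, a1, b0, b1]

theorem cb_min (i x y z : ℕ) (hi : i < 49) : cb i x y z = cb i (min x 7) (min y 2) (min z 2) := by
  have a0 : (x == i / 7) = (min x 7 == i / 7) := by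
    rw [Bool.eq_iff_iff, beq_iff_eq, beq_iff_eq]; omega
  unfold cb
  rw [a0, qy_min]

open Classical in
theorem Q_eq (i x y z : ℕ) : (if clsA i [x, y, z] then (1:ℝ) else 0) = (cb i x y z : ℕ) := by
  unfold cb
  by_cases h : (x == i / 7 && qy (i % 7) y z) = true
  · rw [if_pos h, if_pos ((cls_iff i x y z).mpr h), Nat.cast_one]
  · rw [if_neg h, if_neg (fun h' => h ((cls_iff i x y z).mp h')), Nat.cast_zero]

theorem t_eq (s : List ℕ) (x y z : ℕ) : (if tr [x, y, z] = s then (1:ℝ) else 0) =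
    (tb s (min x 7) (min y 2) (min z 2) : ℕ) := by
  show (if trA (min x 7) (min y 2) (min z 2) = s then (1:ℝ) else 0) = _
  unfold tb
  split_ifs <;> simp

theorem t_nonneg (s : List ℕ) (x y z : ℕ) : (0:ℝ) ≤ if tr [x, y, z] = s then (1:ℝ) else 0 := by
  split_ifs <;> norm_num

variable (l : List (ℕ × List ℕ)) (c0 : ℕ) (G : ℕ → ℕ)

open Classical in
/-- The values of the fields. -/
def Val : Prop := ∀ i < 49, (G i : ℝ) = (c0 : ℝ) * Tri l (fun o => if clsA i o then 1 else 0)

theorem v0 (hT : Val l c0 G) (A : ℕ) (s : List ℕ)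
    (h : ∀ x < 8, ∀ y < 3, ∀ z < 3, cb A x y z = tb s x y z) (hA : A < 49) :
    ((G A : ℕ) : ℝ) = c0 * Tri l (fun o => if tr o = s then 1 else 0) := by
  classical
  rw [hT A hA]
  have e : Tri l (fun o => if clsA A o then (1:ℝ) else 0) =
      Tri l (fun o => if tr o = s then 1 else 0) := by
    refine Tri_congr l _ _ fun x y z => ?_
    show (if clsA A [x, y, z] then (1:ℝ) else 0) = if tr [x, y, z] = s then 1 else 0
    rw [Q_eq, t_eq, cb_min A x y z hA, h _ (by omega) _ (by omega) _ (by omega)]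
  rw [e]

theorem v1 (hT : Val l c0 G) (A B : ℕ) (s : List ℕ)
    (h : ∀ x < 8, ∀ y < 3, ∀ z < 3, cb A x y z = cb B x y z + tb s x y z) (hA : A < 49)
    (hB : B < 49) :
    ((G A - G B : ℕ) : ℝ) = c0 * Tri l (fun o => if tr o = s then 1 else 0) := by
  classical
  refine sub_val l c0 _ _ _ _ _ (hT A hA) (hT B hB) ?_ (t_nonneg s)
  intro x y z
  show (if clsA A [x, y, z] then (1:ℝ) else 0) = (if clsA B [x, y, z] then (1:ℝ) else 0) +
    if tr [x, y, z] = s then 1 else 0
  rw [Q_eq, Q_eq, t_eq, cb_min A x y z hA, cb_min B x y z hB,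
    h _ (by omega) _ (by omega) _ (by omega), Nat.cast_add]

theorem v2 (hT : Val l c0 G) (A B C : ℕ) (s : List ℕ)
    (h : ∀ x < 8, ∀ y < 3, ∀ z < 3, cb A x y z = (cb B x y z + cb C x y z) + tb s x y z)
    (hA : A < 49) (hB : B < 49) (hC : C < 49) :
    ((G A - (G B + G C) : ℕ) : ℝ) = c0 * Tri l (fun o => if tr o = s then 1 else 0) := by
  classical
  refine sub_val l c0 _ _ _ _ _ (hT A hA) (add_val l c0 _ _ _ _ (hT B hB) (hT C hC)) ?_
    (t_nonneg s)
  intro x y z
  show (if clsA A [x, y, z] then (1:ℝ) else 0) = ((if clsA B [x, y, z] then (1:ℝ) else 0) +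
    (if clsA C [x, y, z] then (1:ℝ) else 0)) + if tr [x, y, z] = s then 1 else 0
  rw [Q_eq, Q_eq, Q_eq, t_eq, cb_min A x y z hA, cb_min B x y z hB, cb_min C x y z hC,
    h _ (by omega) _ (by omega) _ (by omega), Nat.cast_add, Nat.cast_add]

theorem vT (hT : Val l c0 G) (T : ℕ) (hTT : (T : ℝ) = c0 * Tri l (fun _ => 1)) (s : List ℕ)
    (h : ∀ x < 8, ∀ y < 3, ∀ z < 3, 1 = (cb 6 x y z + (cb 13 x y z + (cb 20 x y z +
      (cb 27 x y z + (cb 34 x y z + (cb 41 x y z + cb 48 x y z)))))) + tb s x y z) :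
    ((T - (G 6 + (G 13 + (G 20 + (G 27 + (G 34 + (G 41 + G 48)))))) : ℕ) : ℝ) =
      c0 * Tri l (fun o => if tr o = s then 1 else 0) := by
  classical
  refine sub_val l c0 _ _ _ _ _ hTT (add_val l c0 _ _ _ _ (hT 6 (by norm_num))
    (add_val l c0 _ _ _ _ (hT 13 (by norm_num)) (add_val l c0 _ _ _ _ (hT 20 (by norm_num))
    (add_val l c0 _ _ _ _ (hT 27 (by norm_num)) (add_val l c0 _ _ _ _ (hT 34 (by norm_num))
    (add_val l c0 _ _ _ _ (hT 41 (by norm_num)) (hT 48 (by norm_num)))))))) ?_ (t_nonneg s)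
  intro x y z
  show (1:ℝ) = ((if clsA 6 [x, y, z] then (1:ℝ) else 0) + ((if clsA 13 [x, y, z] then (1:ℝ) else 0) +
    ((if clsA 20 [x, y, z] then (1:ℝ) else 0) + ((if clsA 27 [x, y, z] then (1:ℝ) else 0) +
    ((if clsA 34 [x, y, z] then (1:ℝ) else 0) + ((if clsA 41 [x, y, z] then (1:ℝ) else 0) +
    (if clsA 48 [x, y, z] then (1:ℝ) else 0))))))) + if tr [x, y, z] = s then 1 else 0
  have h' := h (min x 7) (by omega) (min y 2) (by omega) (min z 2) (by omega)
  rw [Q_eq, Q_eq, Q_eq, Q_eq, Q_eq, Q_eq, Q_eq, t_eq, cb_min 6 x y z (by norm_num),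
    cb_min 13 x y z (by norm_num), cb_min 20 x y z (by norm_num), cb_min 27 x y z (by norm_num),
    cb_min 34 x y z (by norm_num), cb_min 41 x y z (by norm_num), cb_min 48 x y z (by norm_num)]
  exact_mod_cast h'

/-- The types other than the empty one. -/
def rest : List (List ℕ) := [[0, 0, 1], [0, 0, 2], [0, 1], [0, 1, 1], [0, 2], [1], [1, 0, 1], [1, 0, 2], [1, 1], [1, 1, 1], [1, 2], [2], [2, 0, 1], [2, 0, 2], [2, 1], [2, 1, 1], [2, 2], [3], [3, 0, 1], [3, 1], [4], [4, 0, 1], [4, 1], [5], [6], [7]]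

theorem types_eq : Ker.typesA = [] :: rest := rfl

theorem rest_nodup : rest.Nodup := by unfold rest; decide

theorem types_sum : ∀ s ∈ Ker.typesA, s.sum ≤ 7 := by unfold Ker.typesA; decide

theorem rdA_eq (x : ℕ) : Ker.rdA x = rd (108 * 3 ^ (3 * 7)) x := by
  show x * (2 ^ 20 - 1) / (108 * (3 ^ 21 * (Ker.S * Ker.S * 2 ^ 20))) =
    x * (2 ^ 20 - 1) / (108 * 3 ^ (3 * 7) * (Ker.S * Ker.S * 2 ^ 20))
  congr 1

theorem nsub (a b : ℕ) : Nat.sub a b = a - b := rfl

theorem nadd (a b : ℕ) : Nat.add a b = a + b := rfl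

theorem big : 108 * 3 ^ (3 * 7) * Ker.S ^ 3 < Ker.W := by
  show 108 * 3 ^ (3 * 7) * (2 ^ 40) ^ 3 < 2 ^ 256
  norm_num

theorem main (h1 : S_KA) (h2 : S_SUM) (h3 : S_WTP) : S_STEPA := by
  classical
  intro v hv
  obtain ⟨G, hG, hF, hT'⟩ := fields Ker.KA 49 7 108
    (fun i o => if clsA i o then 1 else 0)
    (by
      intro i o
      show (if clsA i o then (1:ℝ) else 0) ≤ 1
      split_ifs <;> norm_num)
    (by
      intro a b c habc
      obtain ⟨F, _, e, hr⟩ := h1 a b c (by omega)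
      refine ⟨F, e, fun i hi => ?_⟩
      rw [hr i hi]
      norm_num) Ker.typesA types_sum h2 v hv big
  set l := Ker.unp Ker.typesA v with hl
  obtain ⟨c0, hc0⟩ : ∃ c0, c0 = 108 * 3 ^ (3 * 7) := ⟨_, rfl⟩
  have hT : Val l c0 G := by
    rw [hc0]
    exact hT'
  have hstep : Ker.stepA v = Ker.addz rest.length (Ker.pk (([G 1,
      G 2 - (G 0 + G 1),
      G 3,
      G 5 - G 3,
      G 6 - (G 2 + G 5),
      G 7,
      G 8,
      G 9 - (G 7 + G 8),
      G 10,
      G 12 - G 10,
      G 13 - (G 9 + G 12),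
      G 14,
      G 15,
      G 16 - (G 14 + G 15),
      G 17,
      G 19 - G 17,
      G 20 - (G 16 + G 19),
      G 21,
      G 23 - G 21,
      G 27 - G 23,
      G 28,
      G 30 - G 28,
      G 34 - G 30,
      G 41,
      G 48,
      Ker.totA - (G 6 + (G 13 + (G 20 + (G 27 + (G 34 + (G 41 + G 48))))))]).map (rd c0))) := by
    have e1 : Ker.stepA v = Ker.addz 26 (Ker.nlA (∑ i ∈ range 49, G i * Ker.W ^ i)) := by
      unfold Ker.stepA
      rw [h3]
      rw [st_eq, st_eq]
      rw [hF]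
    rw [e1]
    unfold Ker.nlA
    simp only [rdA_eq, nsub, nadd, ← hc0]
    rw [fld_eq 49 G hG 0 (by norm_num),
      fld_eq 49 G hG 1 (by norm_num),
      fld_eq 49 G hG 2 (by norm_num),
      fld_eq 49 G hG 3 (by norm_num),
      fld_eq 49 G hG 5 (by norm_num),
      fld_eq 49 G hG 6 (by norm_num),
      fld_eq 49 G hG 7 (by norm_num),
      fld_eq 49 G hG 8 (by norm_num),
      fld_eq 49 G hG 9 (by norm_num),
      fld_eq 49 G hG 10 (by norm_num),
      fld_eq 49 G hG 12 (by norm_num),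
      fld_eq 49 G hG 13 (by norm_num),
      fld_eq 49 G hG 14 (by norm_num),
      fld_eq 49 G hG 15 (by norm_num),
      fld_eq 49 G hG 16 (by norm_num),
      fld_eq 49 G hG 17 (by norm_num),
      fld_eq 49 G hG 19 (by norm_num),
      fld_eq 49 G hG 20 (by norm_num),
      fld_eq 49 G hG 21 (by norm_num),
      fld_eq 49 G hG 23 (by norm_num),
      fld_eq 49 G hG 27 (by norm_num),
      fld_eq 49 G hG 28 (by norm_num),
      fld_eq 49 G hG 30 (by norm_num),
      fld_eq 49 G hG 34 (by norm_num),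
      fld_eq 49 G hG 41 (by norm_num),
      fld_eq 49 G hG 48 (by norm_num)]
    have hlen : rest.length = 26 := rfl
    rw [hlen]
    simp only [List.map_cons, List.map_nil]
  have htot : ((Ker.totA : ℕ) : ℝ) = (c0 : ℝ) * Tri l (fun _ => 1) := by
    rw [Tri_const, hv]
    have : Ker.totA = c0 * Ker.S ^ 3 := by
      rw [hc0]
      show 108 * (3 ^ 21 * (Ker.S * (Ker.S * Ker.S))) = _
      ring
    rw [this]
    push_cast
    ring
  have hlast := vT l c0 G hT Ker.totA htot [7] (by decide)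
  have hcore := core rest rest_nodup tr tr_le l hv c0 (by rw [hc0]; norm_num)
    [G 1,
      G 2 - (G 0 + G 1),
      G 3,
      G 5 - G 3,
      G 6 - (G 2 + G 5),
      G 7,
      G 8,
      G 9 - (G 7 + G 8),
      G 10,
      G 12 - G 10,
      G 13 - (G 9 + G 12),
      G 14,
      G 15,
      G 16 - (G 14 + G 15),
      G 17,
      G 19 - G 17,
      G 20 - (G 16 + G 19),
      G 21,
      G 23 - G 21,
      G 27 - G 23,
      G 28,
      G 30 - G 28,
      G 34 - G 30,
      G 41,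
      G 48,
      Ker.totA - (G 6 + (G 13 + (G 20 + (G 27 + (G 34 + (G 41 + G 48))))))]
    (
      .cons (v0 l c0 G hT 1 [0, 0, 1] (by decide) (by norm_num)) <|
      .cons (v2 l c0 G hT 2 0 1 [0, 0, 2] (by decide) (by norm_num) (by norm_num) (by norm_num)) <|
      .cons (v0 l c0 G hT 3 [0, 1] (by decide) (by norm_num)) <|
      .cons (v1 l c0 G hT 5 3 [0, 1, 1] (by decide) (by norm_num) (by norm_num)) <|
      .cons (v2 l c0 G hT 6 2 5 [0, 2] (by decide) (by norm_num) (by norm_num) (by norm_num)) <|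
      .cons (v0 l c0 G hT 7 [1] (by decide) (by norm_num)) <|
      .cons (v0 l c0 G hT 8 [1, 0, 1] (by decide) (by norm_num)) <|
      .cons (v2 l c0 G hT 9 7 8 [1, 0, 2] (by decide) (by norm_num) (by norm_num) (by norm_num)) <|
      .cons (v0 l c0 G hT 10 [1, 1] (by decide) (by norm_num)) <|
      .cons (v1 l c0 G hT 12 10 [1, 1, 1] (by decide) (by norm_num) (by norm_num)) <|
      .cons (v2 l c0 G hT 13 9 12 [1, 2] (by decide) (by norm_num) (by norm_num) (by norm_num)) <|
      .cons (v0 l c0 G hT 14 [2] (by decide) (by norm_num)) <|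
      .cons (v0 l c0 G hT 15 [2, 0, 1] (by decide) (by norm_num)) <|
      .cons (v2 l c0 G hT 16 14 15 [2, 0, 2] (by decide) (by norm_num) (by norm_num) (by norm_num)) <|
      .cons (v0 l c0 G hT 17 [2, 1] (by decide) (by norm_num)) <|
      .cons (v1 l c0 G hT 19 17 [2, 1, 1] (by decide) (by norm_num) (by norm_num)) <|
      .cons (v2 l c0 G hT 20 16 19 [2, 2] (by decide) (by norm_num) (by norm_num) (by norm_num)) <|
      .cons (v0 l c0 G hT 21 [3] (by decide) (by norm_num)) <|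
      .cons (v1 l c0 G hT 23 21 [3, 0, 1] (by decide) (by norm_num) (by norm_num)) <|
      .cons (v1 l c0 G hT 27 23 [3, 1] (by decide) (by norm_num) (by norm_num)) <|
      .cons (v0 l c0 G hT 28 [4] (by decide) (by norm_num)) <|
      .cons (v1 l c0 G hT 30 28 [4, 0, 1] (by decide) (by norm_num) (by norm_num)) <|
      .cons (v1 l c0 G hT 34 30 [4, 1] (by decide) (by norm_num) (by norm_num)) <|
      .cons (v0 l c0 G hT 41 [5] (by decide) (by norm_num)) <|
      .cons (v0 l c0 G hT 48 [6] (by decide) (by norm_num)) <|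
      .cons hlast .nil)
  rw [hstep, types_eq]
  exact hcore

end Pool.Agent.W847.T3.T_STEPA
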