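import Pool.Agent.W847.T3.T_STEP0

/-!
# One step of stage B
-/

set_option autoImplicit false

open Finset

namespace Pool.Agent.W847.T3.T_STEPB

open T_STEP0

/-- The type of an outcome. -/
def tr (o : List ℕ) : List ℕ := if o.getD 0 0 = 0 then [] else [min (o.getD 0 0) 24]

theorem tr_le (x y z : ℕ) : Le (tr [x, y, z]) [x, y, z] := by
  intro m
  unfold tr
  show ((if x = 0 then [] else [min x 24]).take m).sum ≤ _
  by_cases hx : x = 0
  · rw [if_pos hx]; simp
  · rw [if_neg hx]
    cases m with
    | zero => simp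
    | succ m =>
      simp only [List.take_succ_cons, List.take_nil, List.sum_cons, List.sum_nil]
      omega

theorem tr_eq (x y z r : ℕ) (h1 : 1 ≤ r) (h2 : r < 24) : tr [x, y, z] = [r] ↔ x = r := by
  unfold tr
  show (if x = 0 then [] else [min x 24]) = [r] ↔ x = r
  by_cases hx : x = 0
  · rw [if_pos hx]
    constructor
    · intro h; simp at h
    · intro h; omega
  · rw [if_neg hx]
    constructor
    · intro h
      have : min x 24 = r := by simpa using h
      omega
    · intro h
      have : min x 24 = r := by omega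
      rw [this]

theorem tr_eq24 (x y z : ℕ) : tr [x, y, z] = [24] ↔ 24 ≤ x := by
  unfold tr
  show (if x = 0 then [] else [min x 24]) = [24] ↔ 24 ≤ x
  by_cases hx : x = 0
  · rw [if_pos hx]
    constructor
    · intro h; simp at h
    · intro h; omega
  · rw [if_neg hx]
    constructor
    · intro h
      have : min x 24 = 24 := by simpa using h
      omega
    · intro h
      have : min x 24 = 24 := by omega
      rw [this]

/-- The types other than the empty one. -/
def rest : List (List ℕ) := [[1], [2], [3], [4], [5], [6], [7], [8], [9], [10], [11], [12], [13], [14], [15], [16], [17], [18], [19], [20], [21], [22], [23], [24]]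

theorem types_eq : Ker.typesB = [] :: rest := rfl

theorem rest_nodup : rest.Nodup := by unfold rest; decide

theorem types_sum : ∀ s ∈ Ker.typesB, s.sum ≤ 24 := by unfold Ker.typesB; decide

theorem rdB_eq (x : ℕ) : Ker.rdB x = rd (12 * 3 ^ (3 * 24)) x := by
  show x * (2 ^ 20 - 1) / (12 * (3 ^ 72 * (Ker.S * Ker.S * 2 ^ 20))) =
    x * (2 ^ 20 - 1) / (12 * 3 ^ (3 * 24) * (Ker.S * Ker.S * 2 ^ 20))
  congr 1

theorem nsub (a b : ℕ) : Nat.sub a b = a - b := rfl

theorem big : 12 * 3 ^ (3 * 24) * Ker.S ^ 3 < Ker.W := by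
  show 12 * 3 ^ (3 * 24) * (2 ^ 40) ^ 3 < 2 ^ 256
  norm_num

theorem main (h1 : S_KB) (h2 : S_SUM) (h3 : S_WTP) : S_STEPB := by
  intro v hv
  obtain ⟨G, hG, hF, hT⟩ := fields Ker.KB 24 24 12
    (fun i o => if o.getD 0 0 = i then 1 else 0)
    (by
      intro i o
      show (if o.getD 0 0 = i then (1:ℝ) else 0) ≤ 1
      split_ifs <;> norm_num)
    (by
      intro a b c habc
      obtain ⟨F, _, e, hr⟩ := h1 a b c (by omega)
      refine ⟨F, e, fun i hi => ?_⟩
      rw [hr i hi]
      norm_num) Ker.typesB types_sum h2 v hv big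
  set l := Ker.unp Ker.typesB v with hl
  have hstep : Ker.stepB v = Ker.addz rest.length (Ker.pk (([G 1, G 2, G 3, G 4, G 5, G 6, G 7, G 8, G 9, G 10, G 11, G 12, G 13, G 14, G 15, G 16, G 17, G 18, G 19, G 20, G 21, G 22, G 23,
      Ker.totB - ∑ i ∈ range 24, G i]).map (rd (12 * 3 ^ (3 * 24))))) := by
    have e1 : Ker.stepB v = Ker.addz 24 (Ker.nlB (∑ i ∈ range 24, G i * Ker.W ^ i)) := by
      unfold Ker.stepB
      rw [h3]
      rw [st_eq, st_eq]
      rw [hF]
    rw [e1]
    unfold Ker.nlB
    rw [sf_eq 24 G hG]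
    simp only [rdB_eq, nsub]
    rw [fld_eq 24 G hG 1 (by norm_num),
      fld_eq 24 G hG 2 (by norm_num),
      fld_eq 24 G hG 3 (by norm_num),
      fld_eq 24 G hG 4 (by norm_num),
      fld_eq 24 G hG 5 (by norm_num),
      fld_eq 24 G hG 6 (by norm_num),
      fld_eq 24 G hG 7 (by norm_num),
      fld_eq 24 G hG 8 (by norm_num),
      fld_eq 24 G hG 9 (by norm_num),
      fld_eq 24 G hG 10 (by norm_num),
      fld_eq 24 G hG 11 (by norm_num),
      fld_eq 24 G hG 12 (by norm_num),
      fld_eq 24 G hG 13 (by norm_num),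
      fld_eq 24 G hG 14 (by norm_num),
      fld_eq 24 G hG 15 (by norm_num),
      fld_eq 24 G hG 16 (by norm_num),
      fld_eq 24 G hG 17 (by norm_num),
      fld_eq 24 G hG 18 (by norm_num),
      fld_eq 24 G hG 19 (by norm_num),
      fld_eq 24 G hG 20 (by norm_num),
      fld_eq 24 G hG 21 (by norm_num),
      fld_eq 24 G hG 22 (by norm_num),
      fld_eq 24 G hG 23 (by norm_num)]
    have hlen : rest.length = 24 := rfl
    rw [hlen]
    simp only [List.map_cons, List.map_nil]
  have hr : ∀ r, 1 ≤ r → r < 24 → (G r : ℝ) = ((12 * 3 ^ (3 * 24) : ℕ) : ℝ) *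
      Tri l (fun o => if tr o = [r] then 1 else 0) := by
    intro r hr1 hr2
    rw [hT r hr2]
    have e : Tri l (fun o => if o.getD 0 0 = r then (1:ℝ) else 0) =
        Tri l (fun o => if tr o = [r] then 1 else 0) := by
      refine Tri_congr l _ _ fun x y z => ?_
      show (if x = r then (1:ℝ) else 0) = if tr [x, y, z] = [r] then 1 else 0
      by_cases hx : x = r
      · rw [if_pos hx, if_pos ((tr_eq x y z r hr1 hr2).mpr hx)]
      · rw [if_neg hx, if_neg (fun h => hx ((tr_eq x y z r hr1 hr2).mp h))]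
    rw [e]
  have htot : ((Ker.totB : ℕ) : ℝ) = ((12 * 3 ^ (3 * 24) : ℕ) : ℝ) * Tri l (fun _ => 1) := by
    rw [Tri_const, hv]
    have : Ker.totB = 12 * 3 ^ (3 * 24) * Ker.S ^ 3 := by
      show 12 * (3 ^ 72 * (Ker.S * (Ker.S * Ker.S))) = _
      ring
    rw [this]
    push_cast
    ring
  have hlast : ((Ker.totB - ∑ i ∈ range 24, G i : ℕ) : ℝ) = ((12 * 3 ^ (3 * 24) : ℕ) : ℝ) *
      Tri l (fun o => if tr o = [24] then 1 else 0) := by
    refine sub_val l _ _ _ (fun _ => 1)
      (fun o => ∑ i ∈ range 24, if o.getD 0 0 = i then (1:ℝ) else 0) _ htot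
      (sum_val l _ G _ 24 hT) ?_ ?_
    · intro x y z
      show (1:ℝ) = ∑ i ∈ range 24, (if x = i then (1:ℝ) else 0) +
        if tr [x, y, z] = [24] then 1 else 0
      rw [Finset.sum_ite_eq (range 24) x]
      by_cases hx : x < 24
      · rw [if_pos (Finset.mem_range.mpr hx), if_neg (fun h => by
          have := (tr_eq24 x y z).mp h; omega)]
        norm_num
      · rw [if_neg (fun h => hx (Finset.mem_range.mp h)), if_pos ((tr_eq24 x y z).mpr (by omega))]
        norm_num
    · intro x y z
      show (0:ℝ) ≤ if tr [x, y, z] = [24] then 1 else 0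
      split_ifs <;> norm_num
  have hcore := core rest rest_nodup tr tr_le l hv (12 * 3 ^ (3 * 24)) (by norm_num)
    [G 1, G 2, G 3, G 4, G 5, G 6, G 7, G 8, G 9, G 10, G 11, G 12, G 13, G 14, G 15, G 16, G 17, G 18, G 19, G 20, G 21, G 22, G 23, Ker.totB - ∑ i ∈ range 24, G i]
    (
      .cons (hr 1 (by norm_num) (by norm_num)) <|
      .cons (hr 2 (by norm_num) (by norm_num)) <|
      .cons (hr 3 (by norm_num) (by norm_num)) <|
      .cons (hr 4 (by norm_num) (by norm_num)) <|
      .cons (hr 5 (by norm_num) (by norm_num)) <|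
      .cons (hr 6 (by norm_num) (by norm_num)) <|
      .cons (hr 7 (by norm_num) (by norm_num)) <|
      .cons (hr 8 (by norm_num) (by norm_num)) <|
      .cons (hr 9 (by norm_num) (by norm_num)) <|
      .cons (hr 10 (by norm_num) (by norm_num)) <|
      .cons (hr 11 (by norm_num) (by norm_num)) <|
      .cons (hr 12 (by norm_num) (by norm_num)) <|
      .cons (hr 13 (by norm_num) (by norm_num)) <|
      .cons (hr 14 (by norm_num) (by norm_num)) <|
      .cons (hr 15 (by norm_num) (by norm_num)) <|
      .cons (hr 16 (by norm_num) (by norm_num)) <|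
      .cons (hr 17 (by norm_num) (by norm_num)) <|
      .cons (hr 18 (by norm_num) (by norm_num)) <|
      .cons (hr 19 (by norm_num) (by norm_num)) <|
      .cons (hr 20 (by norm_num) (by norm_num)) <|
      .cons (hr 21 (by norm_num) (by norm_num)) <|
      .cons (hr 22 (by norm_num) (by norm_num)) <|
      .cons (hr 23 (by norm_num) (by norm_num)) <|
      .cons hlast .nil)
  rw [hstep, types_eq]
  exact hcore

end Pool.Agent.W847.T3.T_STEPB
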