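import Pool.Agent.W847.T3.Stm

/-!
# Symmetrised sum and unpacking of the weights
-/

set_option autoImplicit false

namespace Pool.Agent.W847.T3.T_SUM

theorem st_eq (n : ℕ) (f : ℕ → ℕ) : Ker.st n f = f n := by
  cases n <;> rfl

theorem sm_eq (L : List ℕ) : Ker.sm L = L.sum := by
  induction L with
  | nil => rfl
  | cons h t ih =>
    show Nat.add h (Ker.sm t) = _
    rw [ih, List.sum_cons]
    rfl

/-- Linear functional of a weighted list. -/
def lin (z : List (ℕ × List ℕ)) (f : List ℕ → ℕ) : ℕ := (z.map fun c => c.1 * f c.2).sum

theorem lin_nil (f : List ℕ → ℕ) : lin [] f = 0 := rfl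

theorem lin_cons (p : ℕ × List ℕ) (t : List (ℕ × List ℕ)) (f : List ℕ → ℕ) :
    lin (p :: t) f = p.1 * f p.2 + lin t f := by
  unfold lin; rw [List.map_cons, List.sum_cons]

theorem lin_add (t : List (ℕ × List ℕ)) (f g : List ℕ → ℕ) :
    lin t (fun c => f c + g c) = lin t f + lin t g := by
  induction t with
  | nil => rfl
  | cons p t ih => rw [lin_cons, lin_cons, lin_cons, ih]; ring

theorem lin_mul (t : List (ℕ × List ℕ)) (x : ℕ) (f : List ℕ → ℕ) :
    lin t (fun c => x * f c) = x * lin t f := by
  induction t with
  | nil => rfl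
  | cons p t ih => rw [lin_cons, lin_cons, ih]; ring

theorem sumc_eq (K : List ℕ → List ℕ → List ℕ → ℕ) (a b : List ℕ) :
    ∀ (l : List (List ℕ)) (ws : List ℕ), ws.length = l.length →
    Ker.sumc K a b l ws = lin (ws.zip l) (fun c => K a b c + (K a c b + (K b a c + (K b c a +
      (K c a b + K c b a))))) := by
  intro l
  induction l with
  | nil => intro ws h; cases ws with
    | nil => rfl
    | cons w ws => simp at h
  | cons c t ih =>
    intro ws h
    cases ws with
    | nil => simp at h
    | cons w ws =>
      rw [List.zip_cons_cons, lin_cons]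
      show Nat.add (Nat.mul w (Ker.K6 K a b c)) (Ker.sumc K a b t ws) = _
      rw [ih ws (by simpa using h)]
      rfl

theorem sumd_eq (K : List ℕ → List ℕ → List ℕ → ℕ) (a : List ℕ) :
    ∀ (l : List (List ℕ)) (ws : List ℕ), ws.length = l.length →
    Ker.sumd K a l ws = lin (ws.zip l) (fun c => K c a a + (K a c a + K a a c)) := by
  intro l
  induction l with
  | nil => intro ws h; cases ws with
    | nil => rfl
    | cons w ws => simp at h
  | cons c t ih =>
    intro ws h
    cases ws with
    | nil => simp at h
    | cons w ws =>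
      rw [List.zip_cons_cons, lin_cons]
      show Nat.add (Nat.mul w (Ker.K3 K c a)) (Ker.sumd K a t ws) = _
      rw [ih ws (by simpa using h)]
      rfl

theorem sumb_eq (K : List ℕ → List ℕ → List ℕ → ℕ) (a : List ℕ) :
    ∀ (l : List (List ℕ)) (ws : List ℕ), ws.length = l.length →
    Ker.sumb K a l ws = lin (ws.zip l) (fun b => lin (ws.zip l) (fun c =>
      K a b c + (K b a c + K b c a))) := by
  intro l
  induction l with
  | nil => intro ws h; cases ws with
    | nil => rfl
    | cons w ws => simp at h
  | cons b t ih =>
    intro ws h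
    cases ws with
    | nil => simp at h
    | cons w ws =>
      have h' : ws.length = t.length := by simpa using h
      rw [List.zip_cons_cons]
      have e : Ker.sumb K a (b :: t) (w :: ws) =
          w * (w * (K a b b + (K b a b + K b b a)) + Ker.sumc K a b t ws) +
            Ker.sumb K a t ws := rfl
      rw [e, ih ws h', sumc_eq K a b t ws h']
      simp only [lin_cons, lin_add, lin_mul]
      ring

theorem suma_eq (K : List ℕ → List ℕ → List ℕ → ℕ) :
    ∀ (l : List (List ℕ)) (ws : List ℕ), ws.length = l.length →
    Ker.suma K l ws = lin (ws.zip l) (fun a => lin (ws.zip l) (fun b => lin (ws.zip l) (fun c =>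
      K a b c))) := by
  intro l
  induction l with
  | nil => intro ws h; cases ws with
    | nil => rfl
    | cons w ws => simp at h
  | cons a t ih =>
    intro ws h
    cases ws with
    | nil => simp at h
    | cons w ws =>
      have h' : ws.length = t.length := by simpa using h
      rw [List.zip_cons_cons]
      have e : Ker.suma K (a :: t) (w :: ws) =
          w * (w * (w * K a a a + Ker.sumd K a t ws) + Ker.sumb K a t ws) +
            Ker.suma K t ws := rfl
      rw [e, ih ws h', sumd_eq K a t ws h', sumb_eq K a t ws h']
      simp only [lin_cons, lin_add, lin_mul]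
      ring

theorem main1 : S_SUM := by
  intro K l ws h
  rw [suma_eq K l ws h]
  rfl

theorem main2 : S_WTP := by
  intro P l
  induction l with
  | nil => intro v k; rfl
  | cons a t ih =>
    intro v k
    show Ker.st (Nat.mul (Nat.mod v Ker.W) (Nat.pow 3 (Nat.sub P (Ker.sm a)))) (fun w =>
      Ker.st (Nat.div v Ker.W) (fun v' => Ker.wts P t v' (fun r => k (w :: r)))) = _
    rw [st_eq, st_eq, ih, sm_eq]
    rfl

end Pool.Agent.W847.T3.T_SUM
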