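import Pool.Agent.W847.T3.T_STAR
import Pool.Agent.W847.T3.T_COMP

/-!
# The star with uniform weights is symmetric in the children
-/

set_option autoImplicit false

open Finset

namespace Pool.Agent.W847.T3.T_SYM

open T_STAR

/-- Permuted sides. -/
def sg (σ : Equiv.Perm (Fin 3)) : Side → Side
  | .own => .own
  | .par => .par
  | .ch i => .ch (σ i)

/-- Permuted answers. -/
def sa (σ : Equiv.Perm (Fin 3)) (a : Fin 4) : Fin 4 := Fin.cases 0 (fun j => (σ j).succ) a

@[simp] lemma sa_zero (σ : Equiv.Perm (Fin 3)) : sa σ 0 = 0 := rfl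

@[simp] lemma sa_succ (σ : Equiv.Perm (Fin 3)) (j : Fin 3) : sa σ j.succ = (σ j).succ := rfl

lemma sa_symm (σ : Equiv.Perm (Fin 3)) (a : Fin 4) : sa σ.symm (sa σ a) = a := by
  rcases Fin.eq_zero_or_eq_succ a with rfl | ⟨j, rfl⟩
  · rfl
  · rw [sa_succ, sa_succ, Equiv.symm_apply_apply]

lemma sa_symm' (σ : Equiv.Perm (Fin 3)) (a : Fin 4) : sa σ (sa σ.symm a) = a := by
  rcases Fin.eq_zero_or_eq_succ a with rfl | ⟨j, rfl⟩
  · rfl
  · rw [sa_succ, sa_succ, Equiv.apply_symm_apply]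

/-- The answers as a permutation. -/
def saE (σ : Equiv.Perm (Fin 3)) : Equiv.Perm (Fin 4) where
  toFun := sa σ
  invFun := sa σ.symm
  left_inv := sa_symm σ
  right_inv := sa_symm' σ

lemma sg_symm (σ : Equiv.Perm (Fin 3)) (s : Side) : sg σ.symm (sg σ s) = s := by
  rcases s with _ | _ | i
  · rfl
  · rfl
  · simp [sg]

lemma sg_symm' (σ : Equiv.Perm (Fin 3)) (s : Side) : sg σ (sg σ.symm s) = s := by
  rcases s with _ | _ | i
  · rfl
  · rfl
  · simp [sg]

lemma sg_inj (σ : Equiv.Perm (Fin 3)) {s s' : Side} : sg σ s = sg σ s' ↔ s = s' := by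
  refine ⟨fun h => ?_, fun h => by rw [h]⟩
  rw [← sg_symm σ s, h, sg_symm]

lemma wu_sg (σ : Equiv.Perm (Fin 3)) (s : Side) (a : Fin 4) : wu (sg σ s) (sa σ a) = wu s a := by
  rcases Fin.eq_zero_or_eq_succ a with rfl | ⟨j, rfl⟩
  · rcases s with _ | _ | i
    · rfl
    · rfl
    · simp only [sg, sa_zero, wu]
      rw [if_neg (Fin.succ_ne_zero _).symm, if_neg (Fin.succ_ne_zero _).symm]
  · rcases s with _ | _ | i
    · rfl
    · simp only [sg, sa_succ, wu]
      rw [if_neg (Fin.succ_ne_zero _), if_neg (Fin.succ_ne_zero _)]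
    · simp only [sg, sa_succ, wu, Fin.succ_inj, σ.injective.eq_iff]

/-- Relabelled program. -/
def rl (σ : Equiv.Perm (Fin 3)) {β : Type} : Prog β → Prog β
  | .ret r => .ret r
  | .ask x z s next => .ask x z (sg σ s) (fun a => rl σ (next (sa σ.symm a)))

lemma rl_E (σ : Equiv.Perm (Fin 3)) {β : Type} (P : Prog β) (g : β → ℝ) :
    (rl σ P).E (fun _ => wu) g = P.E (fun _ => wu) g := by
  induction P with
  | ret r => rfl
  | ask x z s next ih =>
    simp only [rl, Prog.E, ih]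
    rw [← Equiv.sum_comp (saE σ)]
    refine Finset.sum_congr rfl fun a _ => ?_
    change wu (sg σ s) (sa σ a) * (next (sa σ.symm (sa σ a))).E (fun _ => wu) g = _
    rw [wu_sg, sa_symm]

/-- Relabelled stacks. -/
def om (σ : Equiv.Perm (Fin 3)) (ω : Stk) : Stk := fun z s m => sa σ.symm (ω z (sg σ s) m)

lemma om_symm (σ : Equiv.Perm (Fin 3)) (ω : Stk) : om σ.symm (om σ ω) = ω := by
  funext z s m
  unfold om
  rw [Equiv.symm_symm, sa_symm', sg_symm']

lemma rl_run (σ : Equiv.Perm (Fin 3)) {β : Type} (P : Prog β) (ω : Stk) : ∀ cn : Cnt,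
    ((rl σ P).runS ω cn).1 = (P.runS (om σ ω) (fun z s => cn z (sg σ s))).1 := by
  induction P with
  | ret r => exact fun _ => rfl
  | ask x z s next ih =>
    intro cn
    simp only [rl, Prog.runS]
    rw [ih]
    have h : (fun z' s' => inc cn z (sg σ s) z' (sg σ s')) =
        inc (fun z' s' => cn z' (sg σ s')) z s := by
      funext z' s'
      unfold inc
      simp only [sg_inj]
    rw [h]
    rfl

lemma cnt_om (σ : Equiv.Perm (Fin 3)) (ω : Stk) (v : List (Fin 3)) (s : Side) (a : Fin 4)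
    (m : ℕ) : cnt (om σ ω) v s a m = cnt ω v (sg σ s) (sa σ a) m := by
  unfold cnt om
  congr 1
  refine Finset.filter_congr fun i _ => ?_
  constructor
  · intro h
    rw [← h, sa_symm']
  · intro h
    rw [h, sa_symm]

lemma sumS_sg (σ : Equiv.Perm (Fin 3)) (F : Side → ℕ) : (sumS fun s => F (sg σ s)) = sumS F := by
  have h := Equiv.sum_comp σ (fun i => F (.ch i))
  rw [Fin.sum_univ_three, Fin.sum_univ_three] at h
  unfold sumS
  simp only [sg]
  omega

lemma tt_om (σ : Equiv.Perm (Fin 3)) (ω : Stk) (v : List (Fin 3)) (a : Fin 4) (c : Side → ℕ) :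
    tt (om σ ω) v a (fun s => c (sg σ s)) = tt ω v (sa σ a) c := by
  unfold tt
  simp only [cnt_om]
  exact sumS_sg σ (fun s => cnt ω v s (sa σ a) (c s))

lemma le_one (σ : Equiv.Perm (Fin 3)) (ω : Stk) (v : List (Fin 3)) (L : Fin 3 → List ℕ) (k : ℕ)
    (t t' : SS) (c c' : Side → ℕ) (h : PF ω v L k t c)
    (h' : PF (om σ ω) v (fun i => L (σ i)) k t' c') : t'.u ≤ t.u := by
  have hcl : Cl (om σ ω) v (fun i => L (σ i)) (fun s => c (sg σ s)) := by
    intro i
    rw [tt_om, sa_succ]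
    have h6 := h.inv.hf (σ i)
    rw [h.f0, add_zero] at h6
    exact h6.ge
  have hb := h'.bd _ hcl h.own.ge h.par.ge
  rw [h'.inv.hu, h.inv.hu]
  refine (tt_mono (om σ ω) v 0 hb).trans ?_
  rw [tt_om, sa_zero]

lemma eq_one (σ : Equiv.Perm (Fin 3)) (ω : Stk) (v : List (Fin 3)) (L : Fin 3 → List ℕ) (k : ℕ)
    (t t' : SS) (c c' : Side → ℕ) (h : PF ω v L k t c)
    (h' : PF (om σ ω) v (fun i => L (σ i)) k t' c') : t'.u = t.u := by
  refine le_antisymm (le_one σ ω v L k t t' c c' h h') ?_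
  refine le_one σ.symm (om σ ω) v (fun i => L (σ i)) k t' t c' c h' ?_
  rw [om_symm]
  simpa using h

lemma starS_om (σ : Equiv.Perm (Fin 3)) (ω : Stk) (v : List (Fin 3)) (L : Fin 3 → List ℕ) :
    starS (om σ ω) v (fun i => L (σ i)) = starS ω v L := by
  obtain ⟨t1, t2, t3, c1, c2, c3, h0, h1, h2, h3, -, -⟩ := star_facts ω v L
  obtain ⟨t1', t2', t3', c1', c2', c3', h0', h1', h2', h3', -, -⟩ :=
    star_facts (om σ ω) v (fun i => L (σ i))
  rw [h0, h0', eq_one σ ω v L 1 t1 t1' c1 c1' h1 h1', eq_one σ ω v L 2 t2 t2' c2 c2' h2 h2',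
    eq_one σ ω v L 3 t3 t3' c3 c3' h3 h3']

lemma wt_wu : Wt (fun _ => wu) := by
  refine ⟨fun z s a => ?_, fun z s => ?_⟩
  · rcases s with _ | _ | i <;> simp only [wu]
    · norm_num
    · split_ifs <;> norm_num
    · split_ifs <;> norm_num
  · rcases s with _ | _ | i
    · simp [wu]
    · simp [wu, Fin.sum_univ_four]
      norm_num
    · fin_cases i
      · simp [wu, Fin.sum_univ_four, Fin.ext_iff]
        norm_num
      · simp [wu, Fin.sum_univ_four, Fin.ext_iff]
        norm_num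
      · simp [wu, Fin.sum_univ_four, Fin.ext_iff]
        norm_num

/-- The star with uniform weights is symmetric in the children. -/
theorem main : ∀ (σ : Equiv.Perm (Fin 3)) (L : Fin 3 → List ℕ) (φ : List ℕ → ℝ),
    (star [] L).E (fun _ => wu) φ = (star [] (fun i => L (σ i))).E (fun _ => wu) φ := by
  intro σ L φ
  have key : ∀ ω : Stk, ((rl σ (star [] (fun i => L (σ i)))).runS ω cn0).1 =
      ((star [] L).runS ω cn0).1 := by
    intro ω
    rw [rl_run]
    exact starS_om σ ω [] L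
  rw [← rl_E σ (star [] (fun i => L (σ i))) φ]
  refine le_antisymm ?_ ?_
  · exact T_COMP.main _ wt_wu _ _ _ _ _ _ (fun ω _ => by rw [key ω])
  · exact T_COMP.main _ wt_wu _ _ _ _ _ _ (fun ω _ => by rw [key ω])

end Pool.Agent.W847.T3.T_SYM
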