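import Pool.Agent.W847.T3.Stm

set_option autoImplicit false

open Finset

namespace Pool.Agent.W847.T3.T_TAPELB

theorem main (hS : S_STARLB) : S_TAPELB := by
  intro n ω cn hB h
  induction h with
  | zero =>
    intro v _ _ m _
    simp [tapeS]
  | succ h ih =>
    intro v hv hn m hm
    rcases Nat.eq_zero_or_pos m with rfl | hm0
    · simp
    · change ((starS ω v (fun i => tapeS ω h (i :: v))).take m).sum ≤ _
      apply hS ω v _ (fun s => cn v s) m _ _ hm
      · intro i
        rcases Nat.eq_zero_or_pos h with rfl | hh
        · simp [tapeS]
        · have h1 : v.length + 1 < n := by omega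
          have h2 := hB.1 v i h1
          have h3 := ih (i :: v) (by simp) (by simp only [List.length_cons]; omega) _ h2
          exact h3.trans (hB.2.1 v i hv h1)
      · exact hB.2.2 v (by omega) (by omega)

end Pool.Agent.W847.T3.T_TAPELB
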