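import Pool.Agent.W847.T3.Stm

set_option autoImplicit false

open Finset

namespace Pool.Agent.W847.T3.T_TAPES

/-- The program reads only at vertices of `A`. -/
def RI {β : Type} (A : Set (List (Fin 3))) : Prog β → Prop
  | .ret _ => True
  | .ask _ z _ next => z ∈ A ∧ ∀ a, RI A (next a)

lemma ri_mono {β : Type} {A B : Set (List (Fin 3))} (h : A ⊆ B) (P : Prog β) :
    RI A P → RI B P := by
  induction P with
  | ret r => exact fun _ => trivial
  | ask x z s next ih => exact fun hr => ⟨h hr.1, fun a => ih a (hr.2 a)⟩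

lemma ri_bind {β γ : Type} {A : Set (List (Fin 3))} (P : Prog β) (f : β → Prog γ)
    (hf : ∀ b, RI A (f b)) : RI A P → RI A (P.bind f) := by
  induction P with
  | ret r => exact fun _ => hf r
  | ask x z s next ih => exact fun hr => ⟨hr.1, fun a => ih a (hr.2 a)⟩

lemma run_bind {β γ : Type} (ω : Stk) (P : Prog β) (f : β → Prog γ) :
    ∀ cn, (P.bind f).runS ω cn = (f (P.runS ω cn).1).runS ω (P.runS ω cn).2 := by
  induction P with
  | ret r => exact fun _ => rfl
  | ask x z s next ih =>
    intro cn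
    simp only [Prog.bind, Prog.runS]
    exact ih _ _

lemma run_agree {β : Type} (ω : Stk) {A : Set (List (Fin 3))} (P : Prog β) :
    ∀ cn cn' : Cnt, RI A P → (∀ z ∈ A, cn z = cn' z) →
      (P.runS ω cn).1 = (P.runS ω cn').1 ∧
        ∀ z ∈ A, (P.runS ω cn).2 z = (P.runS ω cn').2 z := by
  induction P with
  | ret r => exact fun cn cn' _ h => ⟨rfl, h⟩
  | ask x z s next ih =>
    intro cn cn' hr h
    simp only [Prog.runS]
    rw [show cn z s = cn' z s by rw [h z hr.1]]
    refine ih _ _ _ (hr.2 _) fun z' hz' => ?_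
    funext s'
    unfold inc
    rw [h z' hz']

lemma run_out {β : Type} (ω : Stk) {A : Set (List (Fin 3))} (P : Prog β) :
    ∀ cn : Cnt, RI A P → ∀ z ∉ A, (P.runS ω cn).2 z = cn z := by
  induction P with
  | ret r => exact fun cn _ z _ => rfl
  | ask x z s next ih =>
    intro cn hr z' hz'
    simp only [Prog.runS]
    rw [ih _ _ (hr.2 _) z' hz']
    funext s'
    unfold inc
    rw [if_neg]
    rintro ⟨rfl, -⟩
    exact hz' hr.1

lemma ri_route (v : List (Fin 3)) (n : ℕ) : ∀ t, RI {v} (route v n t) := by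
  induction n with
  | zero => exact fun _ => trivial
  | succ n ih =>
    intro t
    unfold route
    split_ifs
    · exact ⟨rfl, fun a => ih _⟩
    · exact ⟨rfl, fun a => ih _⟩
    · exact ⟨rfl, fun a => ih _⟩
    · trivial

lemma ri_star (v : List (Fin 3)) (L : Fin 3 → List ℕ) : RI {v} (star v L) := by
  unfold star
  refine ri_bind _ _ (fun t1 => ri_bind _ _ (fun t2 => ri_bind _ _ (fun t3 => trivial) ?_) ?_) ?_
  · exact ⟨rfl, fun a => ri_route _ _ _⟩
  · exact ⟨rfl, fun a => ri_route _ _ _⟩
  · exact ⟨rfl, fun a => ⟨rfl, fun b => ri_route _ _ _⟩⟩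

lemma ri_tape (h : ℕ) : ∀ v : List (Fin 3), RI {z | v <:+ z} (tape h v) := by
  induction h with
  | zero => exact fun _ => trivial
  | succ h ih =>
    intro v
    have hsub : ∀ i : Fin 3, {z | (i :: v) <:+ z} ⊆ {z | v <:+ z} := fun i z hz =>
      (List.suffix_cons i v).trans hz
    unfold tape
    refine ri_bind _ _ (fun a => ri_bind _ _ (fun b => ri_bind _ _ (fun c => ?_) ?_) ?_) ?_
    · refine ri_mono ?_ _ (ri_star v _)
      rintro z rfl
      exact List.suffix_rfl
    · exact ri_mono (hsub 2) _ (ih _)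
    · exact ri_mono (hsub 1) _ (ih _)
    · exact ri_mono (hsub 0) _ (ih _)

lemma disj_sub (i j : Fin 3) (hij : i ≠ j) (v z : List (Fin 3)) (hz : (i :: v) <:+ z) :
    ¬ (j :: v) <:+ z := by
  intro hz'
  have h1 := List.suffix_of_suffix_length_le hz hz' (by simp)
  have h2 := h1.eq_of_length (by simp)
  injection h2 with h3
  exact hij h3

lemma not_self (i : Fin 3) (v : List (Fin 3)) : ¬ (i :: v) <:+ v := by
  intro h
  have := h.length_le
  simp at this

theorem main : S_TAPES := by
  intro ω h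
  induction h with
  | zero => exact fun _ => rfl
  | succ h ih =>
    intro v
    unfold tape
    rw [run_bind, run_bind, run_bind]
    set ra := (tape h (0 :: v)).runS ω cn0 with hra
    set rb := (tape h (1 :: v)).runS ω ra.2 with hrb
    set rc := (tape h (2 :: v)).runS ω rb.2 with hrc
    have ha1 : ra.1 = tapeS ω h (0 :: v) := ih (0 :: v)
    have ha2 : ∀ z, ¬ (0 :: v) <:+ z → ra.2 z = cn0 z := fun z hz =>
      run_out ω _ _ (ri_tape h (0 :: v)) z hz
    have hb1 : rb.1 = tapeS ω h (1 :: v) := by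
      rw [← ih (1 :: v)]
      refine (run_agree ω _ _ _ (ri_tape h (1 :: v)) fun z hz => ?_).1
      exact ha2 z (disj_sub 1 0 (by decide) v z hz)
    have hb2 : ∀ z, ¬ (1 :: v) <:+ z → rb.2 z = ra.2 z := fun z hz =>
      run_out ω _ _ (ri_tape h (1 :: v)) z hz
    have hc1 : rc.1 = tapeS ω h (2 :: v) := by
      rw [← ih (2 :: v)]
      refine (run_agree ω _ _ _ (ri_tape h (2 :: v)) fun z hz => ?_).1
      rw [hb2 z (disj_sub 2 1 (by decide) v z hz)]
      exact ha2 z (disj_sub 2 0 (by decide) v z hz)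
    have hc2 : ∀ z, ¬ (2 :: v) <:+ z → rc.2 z = rb.2 z := fun z hz =>
      run_out ω _ _ (ri_tape h (2 :: v)) z hz
    have hL : (![ra.1, rb.1, rc.1] : Fin 3 → List ℕ) = fun i => tapeS ω h (i :: v) := by
      funext i
      fin_cases i
      · exact ha1
      · exact hb1
      · exact hc1
    rw [hL]
    change _ = starS ω v (fun i => tapeS ω h (i :: v))
    unfold starS
    refine (run_agree ω _ _ _ (ri_star v _) fun z hz => ?_).1
    rw [Set.mem_singleton_iff] at hz
    subst hz
    rw [hc2 z (not_self 2 z), hb2 z (not_self 1 z), ha2 z (not_self 0 z)]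
    rfl

end Pool.Agent.W847.T3.T_TAPES
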