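import Pool.Agent.W847.T3.Stm

set_option autoImplicit false

open Finset

namespace Pool.Agent.W847.T3.T_WTS

lemma C_lb (d : ℕ) : 2 / 3 ≤ C d := by
  induction d with
  | zero => simp only [C]; norm_num
  | succ d ih =>
    simp only [C]
    rw [div_le_div_iff₀ (by norm_num) (by linarith)]
    linarith

lemma C_ub (d : ℕ) : C d ≤ 1 := by
  cases d with
  | zero => simp only [C]; norm_num
  | succ d =>
    have := C_lb d
    simp only [C]
    rw [div_le_one (by linarith)]
    linarith

lemma C_step (d : ℕ) : C (d + 1) ≤ C d := by
  have := C_lb d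
  simp only [C]
  rw [div_le_iff₀ (by linarith)]
  nlinarith

lemma C_anti : Antitone C := antitone_nat_of_succ_le C_step

lemma C_three : C 3 = 27 / 40 := by
  simp only [C]; norm_num

lemma cc_lb (n l : ℕ) : 2 / 3 ≤ cc n l := C_lb _

lemma cc_ub (n l : ℕ) : cc n l ≤ 1 := C_ub _

lemma U_nonneg (n l : ℕ) : 0 ≤ U n l := by
  induction l with
  | zero => simp only [U]; norm_num
  | succ l ih =>
    have := cc_lb n l
    simp only [U]
    exact div_nonneg (by linarith) (by linarith)

lemma U_ge (n l : ℕ) : 4 / 7 ≤ U n (l + 1) := by
  have := cc_lb n l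
  have := U_nonneg n l
  simp only [U]
  rw [div_le_div_iff₀ (by norm_num) (by linarith)]
  linarith

lemma U_le_cc (n l : ℕ) (h : l < n) : U n l ≤ cc n l := by
  induction l with
  | zero =>
    have := cc_lb n 0
    simp only [U]; linarith
  | succ l ih =>
    have h1 := ih (by omega)
    have h2 := cc_lb n l
    have h3 := U_nonneg n l
    have h4 : C (n - (l + 1) + 1) ≤ cc n (l + 1) := by
      unfold cc
      apply C_anti
      omega
    have h5 : U n (l + 1) ≤ C (n - (l + 1) + 1) := by
      simp only [U, C]
      change (U n l + 2 * cc n l) / (1 + (U n l + 2 * cc n l)) ≤ 3 * cc n l / (1 + 3 * cc n l)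
      rw [div_le_div_iff₀ (by linarith) (by linarith)]
      nlinarith
    linarith

theorem main1 : S_WTS := by
  intro n
  constructor
  · intro z s a
    have h1 := cc_lb n z.length
    have h2 := U_nonneg n z.length
    unfold wq
    cases s with
    | own =>
      simp only [wl]
      split_ifs
      · exact div_nonneg h2 (by linarith)
      · exact div_nonneg (by linarith) (by linarith)
    | par =>
      simp only [wl]
      split_ifs <;> norm_num
    | ch i =>
      simp only [wl]
      split_ifs
      · exact div_nonneg h2 (by linarith)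
      · exact le_rfl
      · exact div_nonneg (by linarith) (by linarith)
  · intro z s
    have h1 := cc_lb n z.length
    have h2 := U_nonneg n z.length
    have h3 : U n z.length + 3 * cc n z.length ≠ 0 := by
      have : 0 < U n z.length + 3 * cc n z.length := by linarith
      exact this.ne'
    have h4 : U n z.length + 2 * cc n z.length ≠ 0 := by
      have : 0 < U n z.length + 2 * cc n z.length := by linarith
      exact this.ne'
    unfold wq
    cases s with
    | own =>
      simp only [wl, Fin.sum_univ_succ, Fin.succ_ne_zero, if_true, if_false, Finset.univ_eq_empty,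
        Finset.sum_empty]
      field_simp
      ring
    | par =>
      simp only [wl, Fin.sum_univ_succ, Fin.succ_ne_zero, if_true, if_false, Finset.univ_eq_empty,
        Finset.sum_empty]
      norm_num
    | ch i =>
      fin_cases i <;>
      · simp [wl, Fin.sum_univ_succ]
        field_simp
        try ring

theorem main2 : S_LEV := by
  intro n l hl hn
  have h1 := cc_lb n l
  have h2 := U_nonneg n l
  refine ⟨?_, U_le_cc n l (by omega), h1, ?_, ?_⟩
  · obtain ⟨k, rfl⟩ : ∃ k, l = k + 1 := ⟨l - 1, by omega⟩
    exact U_ge n k
  · have : cc n l ≤ C 3 := by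
      unfold cc
      apply C_anti
      omega
    rw [C_three] at this
    exact this
  · have h3 := cc_lb n (l + 1)
    have hc : cc n l = 3 * cc n (l + 1) / (1 + 3 * cc n (l + 1)) := by
      unfold cc
      have : n - (l + 1) = n - (l + 1 + 1) + 1 := by omega
      rw [this]
      simp only [C]
    have hU : U n (l + 1) = (U n l + 2 * cc n l) / (1 + (U n l + 2 * cc n l)) := by
      simp only [U]
    unfold psi
    rw [hU]
    generalize U n l = u at *
    generalize cc n (l + 1) = d at *
    have hd : 0 < 1 + 3 * d := by linarith
    have hd' : d ≠ 0 := by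
      have : 0 < d := by linarith
      exact this.ne'
    generalize cc n l = c at *
    have e1 : u + 2 * c ≠ 0 := by
      have : 0 < u + 2 * c := by linarith
      exact this.ne'
    have e2 : 1 + (u + 2 * c) ≠ 0 := by
      have : 0 < 1 + (u + 2 * c) := by linarith
      exact this.ne'
    have e3 : u + 3 * c ≠ 0 := by
      have : 0 < u + 3 * c := by linarith
      exact this.ne'
    have e4 : (u + 2 * c) / (1 + (u + 2 * c)) + 3 * d ≠ 0 := by
      have : 0 < (u + 2 * c) / (1 + (u + 2 * c)) := div_pos (by linarith) (by linarith)
      have : 0 < (u + 2 * c) / (1 + (u + 2 * c)) + 3 * d := by linarith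
      exact this.ne'
    have hc' : c * (1 + 3 * d) = 3 * d := by
      rw [hc]; field_simp
    have e5 : (u + 2 * c) + 3 * d * (1 + (u + 2 * c)) ≠ 0 := by
      have : 0 < (u + 2 * c) + 3 * d * (1 + (u + 2 * c)) := by positivity
      exact this.ne'
    rw [div_add' _ _ _ e2]
    field_simp
    linear_combination (-(u * (u + 2 * c))) * hc'

end Pool.Agent.W847.T3.T_WTS
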