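import Pool.Agent.W847.T3.Stm

/-!
# Elementary facts on expectations of programs
-/

set_option autoImplicit false

open Finset

namespace Pool.Agent.W847.T3

section E

variable {w : List (Fin 3) → Side → Fin 4 → ℝ} {β γ : Type}

theorem E_mono (hw : Wt w) (P : Prog β) : ∀ {g h : β → ℝ}, (∀ r, g r ≤ h r) →
    P.E w g ≤ P.E w h := by
  induction P with
  | ret r => intro g h hgh; exact hgh r
  | ask x z s next ih =>
    intro g h hgh
    simp only [Prog.E]
    exact Finset.sum_le_sum fun a _ => mul_le_mul_of_nonneg_left (ih a hgh) (hw.1 z s a)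

theorem E_const (hw : Wt w) (P : Prog β) (c : ℝ) : P.E w (fun _ => c) = c := by
  induction P with
  | ret r => rfl
  | ask x z s next ih =>
    simp only [Prog.E, ih]
    rw [← Finset.sum_mul, hw.2, one_mul]

theorem E_add (P : Prog β) (g h : β → ℝ) :
    P.E w (fun r => g r + h r) = P.E w g + P.E w h := by
  induction P with
  | ret r => rfl
  | ask x z s next ih =>
    simp only [Prog.E, ih]
    rw [← Finset.sum_add_distrib]
    exact Finset.sum_congr rfl fun a _ => by ring

theorem E_mul (P : Prog β) (c : ℝ) (g : β → ℝ) :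
    P.E w (fun r => c * g r) = c * P.E w g := by
  induction P with
  | ret r => rfl
  | ask x z s next ih =>
    simp only [Prog.E, ih]
    rw [Finset.mul_sum]
    exact Finset.sum_congr rfl fun a _ => by ring

theorem E_sub (P : Prog β) (g h : β → ℝ) :
    P.E w (fun r => g r - h r) = P.E w g - P.E w h := by
  have h1 := E_add (w := w) P g (fun r => (-1) * h r)
  rw [E_mul] at h1
  simp only [neg_mul, one_mul] at h1
  simpa [sub_eq_add_neg] using h1

theorem E_nonneg (hw : Wt w) (P : Prog β) {g : β → ℝ} (h : ∀ r, 0 ≤ g r) : 0 ≤ P.E w g := by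
  have := E_mono hw P (g := fun _ => 0) (h := g) h
  rwa [E_const hw] at this

end E

theorem Le_nil (A : List ℕ) : Le [] A := by intro m; simp

end Pool.Agent.W847.T3
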