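import Mathlib

/-!
# Frog model on the rooted ternary tree: weights, programs, stars, tapes

Vertices are lists over `Fin 3`, the children of `z` being `j :: z`.
-/

set_option autoImplicit false

open Finset

namespace Pool.Agent.W847.T3

/-- Where the asked frog comes from: it starts at the vertex, comes from the parent, or comes from
child number `i`. -/
inductive Side : Type
  | own : Side
  | par : Side
  | ch (i : Fin 3) : Side
  deriving DecidableEq

/-- Sum over the five sides. -/
def sumS {α : Type} [Add α] (F : Side → α) : α :=
  F .own + F .par + F (.ch 0) + F (.ch 1) + F (.ch 2)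

/-- Conductance of an edge in series with the tree of depth `d` below it. -/
noncomputable def C : ℕ → ℝ
  | 0 => 1
  | d + 1 => 3 * C d / (1 + 3 * C d)

/-- Conductance of a branch below a vertex of level `l`, in the tree cut at generation `n`. -/
noncomputable def cc (n l : ℕ) : ℝ := C (n - (l + 1))

/-- Upward conductance at level `l`. -/
noncomputable def U (n : ℕ) : ℕ → ℝ
  | 0 => 0
  | l + 1 => (U n l + 2 * cc n l) / (1 + (U n l + 2 * cc n l))

/-- Weight of the answer `a` (`0` = up, `j + 1` = child number `j`) at a vertex of level `l`. -/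
noncomputable def wl (n l : ℕ) : Side → Fin 4 → ℝ
  | .own, a => if a = 0 then U n l / (U n l + 3 * cc n l) else cc n l / (U n l + 3 * cc n l)
  | .par, a => if a = 0 then 0 else 1 / 3
  | .ch i, a => if a = 0 then U n l / (U n l + 2 * cc n l)
      else if a = i.succ then 0 else cc n l / (U n l + 2 * cc n l)

/-- The weights of the tree cut at generation `n`. -/
noncomputable def wq (n : ℕ) (z : List (Fin 3)) : Side → Fin 4 → ℝ := wl n z.length

/-- The limiting (uniform) weights. -/
noncomputable def wu : Side → Fin 4 → ℝ
  | .own, _ => 1 / 4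
  | .par, a => if a = 0 then 0 else 1 / 3
  | .ch i, a => if a = i.succ then 0 else 1 / 3

/-- Nonnegative weights of total mass one. -/
def Wt (w : List (Fin 3) → Side → Fin 4 → ℝ) : Prop :=
  (∀ z s a, 0 ≤ w z s a) ∧ ∀ z s, ∑ a, w z s a = 1

/-- Programs. `ask x z s next`: the frog `x` at `z` with side `s` is asked for its next step. -/
inductive Prog (β : Type) : Type
  | ret (r : β) : Prog β
  | ask (x z : List (Fin 3)) (s : Side) (next : Fin 4 → Prog β) : Prog β

/-- Stacks of answers. -/
abbrev Stk : Type := List (Fin 3) → Side → ℕ → Fin 4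

/-- Counters. -/
abbrev Cnt : Type := List (Fin 3) → Side → ℕ

/-- Increase a counter. -/
def inc (cn : Cnt) (z : List (Fin 3)) (s : Side) : Cnt :=
  fun z' s' => if z' = z ∧ s' = s then cn z' s' + 1 else cn z' s'

/-- The next step of a frog with endpoint `y` standing at `z`. -/
def dir (z y : List (Fin 3)) : Fin 4 :=
  if z <:+ y then
    match (y.take (y.length - z.length)).getLast? with
    | some j => j.succ
    | none => 0
  else 0

namespace Prog

variable {β γ : Type}

/-- Composition. -/
def bind : Prog β → (β → Prog γ) → Prog γ
  | ret r, f => f r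
  | ask x z s next, f => ask x z s (fun a => (next a).bind f)

/-- Expectation. -/
noncomputable def E (w : List (Fin 3) → Side → Fin 4 → ℝ) : Prog β → (β → ℝ) → ℝ
  | ret r, g => g r
  | ask _ z s next, g => ∑ a, w z s a * (next a).E w g

/-- Run on stacks, starting from the counters `cn`. -/
def runS (ω : Stk) : Cnt → Prog β → β × Cnt
  | cn, ret r => (r, cn)
  | cn, ask _ z s next => (next (ω z s (cn z s))).runS ω (inc cn z s)

/-- Run on endpoints. -/
def runF (η : List (Fin 3) → List (Fin 3)) : Prog β → β
  | ret r => r
  | ask x z _ next => (next (dir z (η x))).runF η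

end Prog

/-! ## The star -/

/-- State of the star: tapes of the children, waiting frogs at the children, frogs gone up. -/
structure SS : Type where
  /-- The tapes. -/
  L : Fin 3 → List ℕ
  /-- The frogs which came out of the children and wait at the centre. -/
  f : Fin 3 → ℕ
  /-- The number of frogs gone up. -/
  u : ℕ

/-- A frog enters child `i`. -/
def enter (i : Fin 3) (t : SS) : SS :=
  match t.L i with
  | [] => t
  | h :: l => { L := Function.update t.L i l, f := Function.update t.f i (t.f i + h), u := t.u }

/-- A frog at the centre makes the step `a`. -/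
def move (a : Fin 4) (t : SS) : SS :=
  Fin.cases { t with u := t.u + 1 } (fun j => enter j t) a

/-- Take a waiting frog of child `i`. -/
def take1 (i : Fin 3) (t : SS) : SS := { t with f := Function.update t.f i (t.f i - 1) }

/-- Route the waiting frogs, lowest child first; the first argument is fuel. -/
def route (v : List (Fin 3)) : ℕ → SS → Prog SS
  | 0, t => .ret t
  | n + 1, t =>
    if 0 < t.f 0 then .ask [] v (.ch 0) (fun a => route v n (move a (take1 0 t)))
    else if 0 < t.f 1 then .ask [] v (.ch 1) (fun a => route v n (move a (take1 1 t)))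
    else if 0 < t.f 2 then .ask [] v (.ch 2) (fun a => route v n (move a (take1 2 t)))
    else .ret t

/-- Number of routings left. -/
def pot (t : SS) : ℕ := (t.L 0).sum + (t.L 1).sum + (t.L 2).sum + (t.f 0 + t.f 1 + t.f 2)

/-- Route all the waiting frogs. -/
def routeAll (v : List (Fin 3)) (t : SS) : Prog SS := route v (pot t) t

/-- First phase: the first visitor and the frog of the vertex. -/
def ph1 (v : List (Fin 3)) (t : SS) : Prog SS :=
  .ask [] v .par (fun a => .ask [] v .own (fun b => routeAll v (move b (move a t))))

/-- Later phases: one more visitor. -/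
def ph (v : List (Fin 3)) (t : SS) : Prog SS :=
  .ask [] v .par (fun a => routeAll v (move a t))

/-- The star with the tapes `L` of the children. -/
def star (v : List (Fin 3)) (L : Fin 3 → List ℕ) : Prog (List ℕ) :=
  (ph1 v ⟨L, fun _ => 0, 0⟩).bind fun t1 => (ph v t1).bind fun t2 => (ph v t2).bind fun t3 =>
    .ret [t1.u, t2.u - t1.u, t3.u - t2.u]

/-- The tape of `v` with `h` generations: the numbers of frogs sent up by the first three
visitors. -/
def tape : ℕ → List (Fin 3) → Prog (List ℕ)
  | 0, _ => .ret []
  | h + 1, v => (tape h (0 :: v)).bind fun a => (tape h (1 :: v)).bind fun b =>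
      (tape h (2 :: v)).bind fun c => star v ![a, b, c]

/-- The star as a function of the stacks. -/
def starS (ω : Stk) (v : List (Fin 3)) (L : Fin 3 → List ℕ) : List ℕ :=
  ((star v L).runS ω (fun _ _ => 0)).1

/-- The tape as a function of the stacks. -/
def tapeS (ω : Stk) : ℕ → List (Fin 3) → List ℕ
  | 0, _ => []
  | h + 1, v => starS ω v (fun i => tapeS ω h (i :: v))

/-- Comparison of tapes. -/
def Le (A B : List ℕ) : Prop := ∀ m, (A.take m).sum ≤ (B.take m).sum

/-- Monotone functionals. -/
def Mono (φ : List ℕ → ℝ) : Prop := ∀ A B, Le A B → φ A ≤ φ B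

/-- Number of answers `a` among the first `m`. -/
def cnt (ω : Stk) (z : List (Fin 3)) (s : Side) (a : Fin 4) (m : ℕ) : ℕ :=
  ((Finset.range m).filter (fun i => ω z s i = a)).card

/-- Good stacks: no forbidden answers. -/
def GoodS (ω : Stk) : Prop := (∀ z m, ω z .par m ≠ 0) ∧ ∀ m, ω [] .own m ≠ 0

/-! ## The exploration -/

/-- State of the exploration: frogs (name, position, side) on the move, woken vertices, frogs which
came back to the root. -/
structure EX : Type where
  /-- The frogs on the move. -/
  q : List (List (Fin 3) × List (Fin 3) × Side)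
  /-- The woken vertices. -/
  vis : List (List (Fin 3))
  /-- The frogs which came back to the root. -/
  rc : List (List (Fin 3))

/-- Effect of the step `a` of the frog `x` at `z`, the other frogs being those of `t`. -/
def adv (n : ℕ) (x z : List (Fin 3)) (t : EX) (a : Fin 4) : EX :=
  Fin.cases
    (match z with
      | [] => t
      | [_] => { t with rc := x :: t.rc }
      | i :: y :: z' => { t with q := (x, y :: z', .ch i) :: t.q })
    (fun j =>
      if n ≤ z.length + 1 then t
      else if j :: z ∈ t.vis then { t with q := (x, j :: z, .par) :: t.q }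
      else { q := (x, j :: z, .par) :: (j :: z, j :: z, .own) :: t.q,
             vis := (j :: z) :: t.vis, rc := t.rc })
    a

/-- The exploration. -/
def expl (n : ℕ) : ℕ → EX → Prog EX
  | 0, t => .ret t
  | m + 1, t =>
    match t.q with
    | [] => .ret t
    | (x, z, s) :: q => .ask x z s (fun a => expl n m (adv n x z { t with q := q } a))

/-- Start of the exploration: the frog of the root. -/
def ex0 : EX := { q := [([], [], .own)], vis := [[]], rc := [] }

/-! ## Endpoints -/

/-- Words of length `n`. -/
def words : ℕ → Finset (List (Fin 3))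
  | 0 => {[]}
  | n + 1 => (Finset.univ ×ˢ words n).image (fun q => q.1 :: q.2)

/-- Words of length less than `n`. -/
def frogs (n : ℕ) : Finset (List (Fin 3)) := (range n).biUnion words

/-- Average over the descendants `d` generations below `z`. -/
noncomputable def down : ℕ → List (Fin 3) → (List (Fin 3) → ℝ) → ℝ
  | 0, z, h => h z
  | d + 1, z, h => (1 / 3) * ∑ j : Fin 3, down d (j :: z) h

/-- Average over the descendants of `z` at generation `n`. -/
noncomputable def dl (n : ℕ) (z : List (Fin 3)) (h : List (Fin 3) → ℝ) : ℝ :=
  down (n - z.length) z h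

/-- Law of the endpoint at generation `n` of a walk at `z` with side `s` (not `par`). -/
noncomputable def nuF (n : ℕ) : List (Fin 3) → Side → (List (Fin 3) → ℝ) → ℝ
  | [], s, h => ∑ j : Fin 3, wl n 0 s j.succ * dl n [j] h
  | i :: z, s, h => wl n (z.length + 1) s 0 * nuF n z (.ch i) h +
      ∑ j : Fin 3, wl n (z.length + 1) s j.succ * dl n (j :: i :: z) h

/-- Law of the endpoint of a frog at `z` with side `s`. -/
noncomputable def law (n : ℕ) (z : List (Fin 3)) (s : Side) (h : List (Fin 3) → ℝ) : ℝ :=
  if s = .par then dl n z h else nuF n z s h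

/-- Indicator of a point. -/
noncomputable def ind (y : List (Fin 3)) : List (Fin 3) → ℝ := fun y' => if y' = y then 1 else 0

/-- Extension of an assignment by the root. -/
def ext {F : Finset (List (Fin 3))} (y : F → List (Fin 3)) (x : List (Fin 3)) : List (Fin 3) :=
  if h : x ∈ F then y ⟨x, h⟩ else []

/-- The average over independent endpoints of the frogs, given what is known about them. -/
noncomputable def JF (n : ℕ) (B : List (Fin 3) → List (Fin 3) × Side)
    (G : (List (Fin 3) → List (Fin 3)) → ℝ) : ℝ :=
  ∑ y ∈ Fintype.piFinset (fun _ : frogs n => words n),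
    (∏ x : frogs n, law n (B x).1 (B x).2 (ind (y x))) * G (ext y)

/-- Position and side after the step `a` from `z`. -/
def stepI (z : List (Fin 3)) (a : Fin 4) : List (Fin 3) × Side :=
  Fin.cases (match z with
    | [] => ([], .own)
    | i :: z' => (z', .ch i)) (fun j => (j :: z, .par)) a

/-- Validity of all the questions of a program. -/
def Prog.Ok (n : ℕ) {β : Type} : Prog β → (List (Fin 3) → List (Fin 3) × Side) → Prop
  | .ret _, _ => True
  | .ask x z s next, B => x.length < n ∧ B x = (z, s) ∧ z.length < n ∧
      ∀ a, 0 < wq n z s a → (next a).Ok n (Function.update B x (stepI z a))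

/-! ## The walks -/

/-- One step of the walk. -/
def stp (z : List (Fin 3)) (c : Fin 3 × Fin 4) : List (Fin 3) :=
  if z = [] then [c.1] else if c.2 = 0 then z.tail else c.1 :: z

/-- The walk from `x` with steps `c 0, c 1, …`, stopped at generation `n`. -/
def W (n : ℕ) (x : List (Fin 3)) (c : ℕ → Fin 3 × Fin 4) : ℕ → List (Fin 3)
  | 0 => x
  | m + 1 => if n ≤ (W n x c m).length then W n x c m else stp (W n x c m) (c m)

/-! ## Laws on types -/

/-- Unnormalised average for a list of weighted types. -/
noncomputable def av (l : List (ℕ × List ℕ)) (φ : List ℕ → ℝ) : ℝ :=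
  (l.map fun p => (p.1 : ℝ) * φ p.2).sum

/-- The tape of `v` dominates the weighted types `l` of total weight `S`. -/
def Dom (S : ℕ) (l : List (ℕ × List ℕ)) (w : List (Fin 3) → Side → Fin 4 → ℝ) (h : ℕ)
    (v : List (Fin 3)) : Prop :=
  ∀ φ : List ℕ → ℝ, Mono φ → (∀ A, 0 ≤ φ A) → av l φ ≤ S * (tape h v).E w φ

/-- Triple average of the star with uniform weights. -/
noncomputable def Tri (l : List (ℕ × List ℕ)) (φ : List ℕ → ℝ) : ℝ :=
  (l.map fun a => (a.1 : ℝ) * (l.map fun b => (b.1 : ℝ) * (l.map fun c => (c.1 : ℝ) *
    (star [] ![a.2, b.2, c.2]).E (fun _ => wu) φ).sum).sum).sum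

end Pool.Agent.W847.T3
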