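import Pool.Agent.W847.T3.FastB
import Pool.Agent.W847.T3.Lits

/-!
# Stage B: 80 iterations
-/

set_option autoImplicit false

namespace Pool.Agent.W847.T3.Ker

theorem runFB : Nat.beq (iter fstepB 80 litB0) litB = true := by decide +kernel

end Pool.Agent.W847.T3.Ker
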