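import Pool.Agent.W847.T3.Iter
import Pool.Agent.W847.T3.RunFA
import Pool.Agent.W847.T3.RunFB

/-!
# Assembly
-/

set_option autoImplicit false

open Finset MeasureTheory ProbabilityTheory

namespace Pool.Agent.W847.T3

theorem typesA_sum : ∀ a ∈ Ker.typesA, a.sum ≤ 7 := by decide

theorem typesB_sum : ∀ a ∈ Ker.typesB, a.sum ≤ 24 := by decide

/-- The law at the end of stage B. -/
theorem unpB : Ker.unp Ker.typesB Ker.litB = [(1418638, []), (682876, [1]), (2581122, [2]), (15095645, [3]), (68224666, [4]), (248138579, [5]), (753387385, [6]), (1960999500, [7]), (4464407718, [8]), (9028174087, [9]), (16417684399, [10]), (27114826248, [11]), (41004123027, [12]), (57164894735, [13]), (73893463232, [14]), (88998034606, [15]), (100293557610, [16]), (106133687820, [17]), (105798426191, [18]), (99616007080, [19]), (88802740668, [20]), (75103403185, [21]), (60366980856, [22]), (46186178142, [23]), (96074509761, [24])] := by decide +kernel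

theorem checkB : ((Ker.unp Ker.typesB Ker.litB).map
    fun p => (p.1 : ℝ) * (3 / 8) ^ p.2.sum).sum ≤ Ker.S * Real.exp (-11) := by
  have h1 : Real.exp 11 ≤ 60300 := by
    have h2 : Real.exp 11 = Real.exp 1 ^ 11 := by
      rw [← Real.exp_nat_mul]; norm_num
    rw [h2]
    have h3 := Real.exp_one_lt_d9
    calc Real.exp 1 ^ 11 ≤ (2.72 : ℝ) ^ 11 := by
          apply pow_le_pow_left₀ (Real.exp_pos _).le
          linarith
      _ ≤ 60300 := by norm_num
  have h4 : (1 : ℝ) / 60300 ≤ Real.exp (-11) := by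
    rw [Real.exp_neg, ← one_div]
    exact one_div_le_one_div_of_le (Real.exp_pos _) h1
  refine le_trans ?_ (mul_le_mul_of_nonneg_left h4 S_pos.le)
  rw [unpB]
  simp only [List.map_cons, List.map_nil, List.sum_cons, List.sum_nil, Ker.S]
  norm_num

section

variable (hW : S_WTS) (hC : S_CLOSE) (hD : S_DSTEP) (hA : S_STEPA) (hB : S_STEPB)
  (hV : S_CONV) (hFA : Ker.fstepA = Ker.stepA) (hFB : Ker.fstepB = Ker.stepB)

include hW hC hD hA hB hV hFA hFB

/-- The start of the growth. -/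
theorem window : ∃ K0 : ℕ, ∀ n l1 : ℕ, K0 ≤ l1 → l1 + 342 + K0 ≤ n →
    ∀ v : List (Fin 3), v.length = l1 → ∀ x : ℝ, 0 ≤ x → x ≤ 1 →
      pgf (wq n) (n - l1) v x ≤ Real.exp (-(11 * (1 - x))) := by
  obtain ⟨K0, hK⟩ := hC (1 / (80 * 2 ^ 20)) (by positivity)
  refine ⟨K0, ?_⟩
  intro n l1 hl1 hn
  have hK' : ∀ (z : List (Fin 3)) (s : Side) (a : Fin 4), K0 ≤ z.length → z.length + K0 ≤ n →
      (1 - 1 / (80 * 2 ^ 20) : ℝ) * wu s a ≤ wq n z s a := fun z s a h1 h2 => hK n z s a h1 h2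
  have itA := iter_gen (types := Ker.typesA) (step := Ker.stepA) (n := n) (K0 := K0)
    (fun v l h h1 h2 h3 => step_gen hA typesA_sum (by norm_num) hW hD hK' h h1 h2 h3)
  have itB := iter_gen (types := Ker.typesB) (step := Ker.stepB) (n := n) (K0 := K0)
    (fun v l h h1 h2 h3 => step_gen hB typesB_sum (by norm_num) hW hD hK' h h1 h2 h3)
  have a0 : DL Ker.typesA n Ker.S (l1 + 80 + 262) := base_A hW
  have a3 := itA 262 _ (l1 + 80) a0 (by omega) (by omega)
  rw [← hFA, Nat.eq_of_beq_eq_true Ker.runFA] at a3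
  have b1 := itB 80 _ l1 (pass a3) (by omega) (by omega)
  rw [← hFB, Nat.eq_of_beq_eq_true Ker.runFB] at b1
  intro v hv
  refine hV (wq n) (hW n) (Ker.unp Ker.typesB Ker.litB) (n - l1) v b1.1 (b1.2 v hv) ?_ checkB
  intro p hp
  have : ∀ a ∈ Ker.typesB, a.length ≤ 1 := by decide
  exact this _ (unp_mem hp)

omit hW hC hD hA hB hV hFA hFB in
theorem psi_bds (hL : S_LEV) {n l : ℕ} (h1 : 1 ≤ l) (h2 : l + 5 ≤ n) :
    4 / 9 ≤ psi n l ∧ psi n l ≤ 1 := by
  obtain ⟨a1, a2, a3, a4, _⟩ := hL n l h1 h2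
  unfold psi
  constructor
  · rw [le_div_iff₀ (by linarith)]; nlinarith
  · rw [div_le_one (by linarith)]; nlinarith

/-- The expected exponential of the number of frogs tends to zero. -/
theorem small (hL : S_LEV) (hS : S_STC) (hR : S_ROOT) (m0 : ℕ) (ε : ℝ) (hε : 0 < ε) :
    ∃ n m : ℕ, 1 ≤ n ∧ (expl n m ex0).E (wq n) (fun r => if r.rc.length < m0 then 1 else 0) ≤ ε := by
  obtain ⟨K0, hK⟩ := window hW hC hD hA hB hV hFA hFB
  obtain ⟨N, hN⟩ := exists_nat_gt (300 * ((2 : ℝ) ^ m0 * (5 / 4) / ε))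
  obtain ⟨l1, hl1⟩ : ∃ l1, l1 = K0 + N + 1 := ⟨_, rfl⟩
  obtain ⟨n, hn⟩ : ∃ n, n = l1 + 342 + K0 := ⟨_, rfl⟩
  have hstc := hS n l1 (by omega) (by omega) (hK n l1 (by omega) (by omega)) 1 le_rfl (by omega)
  obtain ⟨m, hm⟩ := hR n (by omega)
  refine ⟨n, m, by omega, ?_⟩
  have h1 := hm (1 / 2) (by norm_num) (by norm_num)
  obtain ⟨p1, p2⟩ := psi_bds hL (n := n) (l := l1) (by omega) (by omega)
  obtain ⟨q1, q2⟩ := psi_bds hL (n := n) (l := 1) (by omega) (by omega)
  have hNl : (N : ℝ) ≤ (l1 : ℝ) - 1 := by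
    have : ((K0 + N + 1 : ℕ) : ℝ) = l1 := by rw [hl1]
    push_cast at this
    have h0 : (0 : ℝ) ≤ K0 := Nat.cast_nonneg _
    linarith
  have hN0 : (0 : ℝ) ≤ N := Nat.cast_nonneg _
  have h2 : ∀ j : Fin 3, (tape (n - 1) [j]).E (wq n) (fun L => (1 / 2 : ℝ) ^ (L.take 1).sum) ≤
      5 / 4 * (1 / (1 + (N : ℝ) / 300)) := by
    intro j
    have h3 := hstc [j] rfl (1 / 2) (by norm_num) (by norm_num)
    unfold pgf at h3
    refine h3.trans ?_
    have hCx : Cx (1 / 2) ≤ 5 / 4 := by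
      unfold Cx; split_ifs <;> norm_num
    have hCx0 : 0 ≤ Cx (1 / 2) := by
      unfold Cx; split_ifs <;> norm_num
    have hexp : Real.exp (-((11 / psi n l1 + 19 / 1000 * ((l1 : ℝ) - (1 : ℕ))) * psi n 1 *
        (1 - 1 / 2))) ≤ 1 / (1 + (N : ℝ) / 300) := by
      rw [Real.exp_neg, ← one_div]
      apply one_div_le_one_div_of_le (by positivity)
      refine le_trans ?_ (Real.add_one_le_exp _)
      have e1 : 0 ≤ 11 / psi n l1 := by positivity
      have e2 : 19 / 1000 * (N : ℝ) ≤ 11 / psi n l1 + 19 / 1000 * ((l1 : ℝ) - (1 : ℕ)) := by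
        push_cast
        nlinarith
      have e3 : 19 / 1000 * (N : ℝ) * (4 / 9) ≤
          (11 / psi n l1 + 19 / 1000 * ((l1 : ℝ) - (1 : ℕ))) * psi n 1 :=
        mul_le_mul e2 q1 (by norm_num) (le_trans (by positivity) e2)
      linarith
    exact mul_le_mul hCx hexp (Real.exp_pos _).le (by norm_num)
  have h4 : (1 / 3 : ℝ) * ∑ j : Fin 3, (tape (n - 1) [j]).E (wq n)
      (fun L => (1 / 2 : ℝ) ^ (L.take 1).sum) ≤ 5 / 4 * (1 / (1 + (N : ℝ) / 300)) := by
    have := Finset.sum_le_sum fun j (_ : j ∈ (Finset.univ : Finset (Fin 3))) => h2 j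
    simp only [Finset.sum_const, Finset.card_univ, Fintype.card_fin, nsmul_eq_mul] at this
    push_cast at this
    linarith
  have h5 : (expl n m ex0).E (wq n) (fun r => if r.rc.length < m0 then 1 else 0) ≤
      (expl n m ex0).E (wq n) (fun r => (2 : ℝ) ^ m0 * (1 / 2) ^ r.rc.length) := by
    apply E_mono (hW n)
    intro r
    split_ifs with h
    · rw [one_div, inv_pow, ← div_eq_mul_inv, le_div_iff₀ (by positivity), one_mul]
      exact pow_le_pow_right₀ (by norm_num) h.le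
    · positivity
  rw [E_mul] at h5
  refine h5.trans ?_
  have h6 := mul_le_mul_of_nonneg_left (h1.trans h4) (by positivity : (0 : ℝ) ≤ 2 ^ m0)
  refine h6.trans ?_
  have h7 : (2 : ℝ) ^ m0 * (5 / 4) / ε < N / 300 := by linarith
  have h8 : (0 : ℝ) < 1 + (N : ℝ) / 300 := by positivity
  rw [mul_one_div, ← mul_div_assoc, div_le_iff₀ h8]
  rw [div_lt_iff₀ hε] at h7
  nlinarith

end

end Pool.Agent.W847.T3
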