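import Pool.Agent.W847.T3.Basic
import Pool.Agent.W847.T3.T_SUM

/-!
# Sums over sorted triples
-/

set_option autoImplicit false

namespace Pool.Agent.W847.T3.Glue

variable (K : List ℕ → List ℕ → List ℕ → ℕ)

/-- Sum over `c`, sorted version. -/
def sumc1 (a b : List ℕ) : List (List ℕ) → List ℕ → ℕ
  | [], _ => 0
  | _ :: _, [] => 0
  | c :: t, w :: ws => Nat.add (Nat.mul w (Nat.mul 6 (K a b c))) (sumc1 a b t ws)

/-- Sum over `c` of the terms `a a c`, sorted version. -/
def sumd1 (a : List ℕ) : List (List ℕ) → List ℕ → ℕ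
  | [], _ => 0
  | _ :: _, [] => 0
  | c :: t, w :: ws => Nat.add (Nat.mul w (Nat.mul 3 (K a a c))) (sumd1 a t ws)

/-- Sum over `b` and `c`, sorted version. -/
def sumb1 (a : List ℕ) : List (List ℕ) → List ℕ → ℕ
  | [], _ => 0
  | _ :: _, [] => 0
  | b :: t, w :: ws => Nat.add (Nat.mul w (Nat.add (Nat.mul w (Nat.mul 3 (K a b b)))
      (sumc1 K a b t ws))) (sumb1 a t ws)

/-- Sum over all triples, sorted version. -/
def suma1 : List (List ℕ) → List ℕ → ℕ
  | [], _ => 0
  | _ :: _, [] => 0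
  | a :: t, w :: ws => Nat.add (Nat.mul w (Nat.add (Nat.mul w (Nat.add (Nat.mul w (K a a a))
      (sumd1 K a t ws))) (sumb1 K a t ws))) (suma1 t ws)

variable {K}

/-- Symmetry on a list of types. -/
def Sym (K : List ℕ → List ℕ → List ℕ → ℕ) (l : List (List ℕ)) : Prop :=
  ∀ a ∈ l, ∀ b ∈ l, ∀ c ∈ l, K b a c = K a b c ∧ K a c b = K a b c

theorem K6_eq {l : List (List ℕ)} (h : Sym K l) {a b c : List ℕ} (ha : a ∈ l) (hb : b ∈ l)
    (hc : c ∈ l) : Ker.K6 K a b c = Nat.mul 6 (K a b c) := by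
  have e1 := (h a ha b hb c hc).2
  have e2 := (h a ha b hb c hc).1
  have e3 : K b c a = K a b c := by rw [(h b hb a ha c hc).2, e2]
  have e4 : K c a b = K a b c := by rw [(h a ha c hc b hb).1, e1]
  have e5 : K c b a = K a b c := by rw [(h b hb c hc a ha).1, e3]
  change K a b c + (K a c b + (K b a c + (K b c a + (K c a b + K c b a)))) = 6 * K a b c
  rw [e1, e2, e3, e4, e5]; ring

theorem K3_eq {l : List (List ℕ)} (h : Sym K l) {a b : List ℕ} (ha : a ∈ l) (hb : b ∈ l) :
    Ker.K3 K a b = Nat.mul 3 (K a b b) := by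
  have e1 : K b a b = K a b b := (h a ha b hb b hb).1
  have e2 : K b b a = K a b b := by rw [(h b hb a ha b hb).2, e1]
  change K a b b + (K b a b + K b b a) = 3 * K a b b
  rw [e1, e2]; ring

theorem K3_eq' {l : List (List ℕ)} (h : Sym K l) {a c : List ℕ} (ha : a ∈ l) (hc : c ∈ l) :
    Ker.K3 K c a = Nat.mul 3 (K a a c) := by
  have e1 : K a c a = K a a c := (h a ha a ha c hc).2
  have e2 : K c a a = K a a c := by rw [(h a ha c hc a ha).1, e1]
  change K c a a + (K a c a + K a a c) = 3 * K a a c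
  rw [e1, e2]; ring

theorem sumc_eq {L : List (List ℕ)} (h : Sym K L) {a b : List ℕ} (ha : a ∈ L) (hb : b ∈ L)
    (l : List (List ℕ)) (hl : ∀ c ∈ l, c ∈ L) : ∀ ws, Ker.sumc K a b l ws = sumc1 K a b l ws := by
  induction l with
  | nil => intro ws; rfl
  | cons c t ih =>
    intro ws
    cases ws with
    | nil => rfl
    | cons w ws =>
      have e : Ker.sumc K a b (c :: t) (w :: ws) =
          Nat.add (Nat.mul w (Ker.K6 K a b c)) (Ker.sumc K a b t ws) := rfl
      rw [e, ih (fun c hc => hl c (List.mem_cons_of_mem _ hc)),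
        K6_eq h ha hb (hl c List.mem_cons_self)]
      rfl

theorem sumd_eq {L : List (List ℕ)} (h : Sym K L) {a : List ℕ} (ha : a ∈ L)
    (l : List (List ℕ)) (hl : ∀ c ∈ l, c ∈ L) : ∀ ws, Ker.sumd K a l ws = sumd1 K a l ws := by
  induction l with
  | nil => intro ws; rfl
  | cons c t ih =>
    intro ws
    cases ws with
    | nil => rfl
    | cons w ws =>
      have e : Ker.sumd K a (c :: t) (w :: ws) =
          Nat.add (Nat.mul w (Ker.K3 K c a)) (Ker.sumd K a t ws) := rfl
      rw [e, ih (fun c hc => hl c (List.mem_cons_of_mem _ hc)),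
        K3_eq' h ha (hl c List.mem_cons_self)]
      rfl

theorem sumb_eq {L : List (List ℕ)} (h : Sym K L) {a : List ℕ} (ha : a ∈ L)
    (l : List (List ℕ)) (hl : ∀ c ∈ l, c ∈ L) : ∀ ws, Ker.sumb K a l ws = sumb1 K a l ws := by
  induction l with
  | nil => intro ws; rfl
  | cons b t ih =>
    intro ws
    cases ws with
    | nil => rfl
    | cons w ws =>
      have e : Ker.sumb K a (b :: t) (w :: ws) = Nat.add (Nat.mul w (Nat.add
        (Nat.mul w (Ker.K3 K a b)) (Ker.sumc K a b t ws))) (Ker.sumb K a t ws) := rfl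
      rw [e, ih (fun c hc => hl c (List.mem_cons_of_mem _ hc)),
        K3_eq h ha (hl b List.mem_cons_self),
        sumc_eq h ha (hl b List.mem_cons_self) t (fun c hc => hl c (List.mem_cons_of_mem _ hc))]
      rfl

theorem suma_eq {L : List (List ℕ)} (h : Sym K L) (l : List (List ℕ)) (hl : ∀ c ∈ l, c ∈ L) :
    ∀ ws, Ker.suma K l ws = suma1 K l ws := by
  induction l with
  | nil => intro ws; rfl
  | cons a t ih =>
    intro ws
    cases ws with
    | nil => rfl
    | cons w ws =>
      have e : Ker.suma K (a :: t) (w :: ws) = Nat.add (Nat.mul w (Nat.add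
        (Nat.mul w (Nat.add (Nat.mul w (K a a a)) (Ker.sumd K a t ws)))
        (Ker.sumb K a t ws))) (Ker.suma K t ws) := rfl
      rw [e, ih (fun c hc => hl c (List.mem_cons_of_mem _ hc)),
        sumd_eq h (hl a List.mem_cons_self) t (fun c hc => hl c (List.mem_cons_of_mem _ hc)),
        sumb_eq h (hl a List.mem_cons_self) t (fun c hc => hl c (List.mem_cons_of_mem _ hc))]
      rfl

end Pool.Agent.W847.T3.Glue
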