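import Pool.Agent.W847.T3.Basic

/-!
# Phases of the star and the kernel functions
-/

set_option autoImplicit false

open Finset

namespace Pool.Agent.W847.T3.KB

theorem wuW : Wt (fun _ : List (Fin 3) => wu) := by
  constructor
  · intro z s a
    cases s <;> simp only [wu]
    · norm_num
    · split_ifs <;> norm_num
    · split_ifs <;> norm_num
  · intro z s
    cases s with
    | own => simp [wu]
    | par => simp [wu, Fin.sum_univ_succ]
    | ch i => fin_cases i <;> simp [wu, Fin.sum_univ_succ] <;> norm_num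

/-- Adding `k` to the number of frogs gone up. -/
def sh (k : ℕ) (t : SS) : SS := { t with u := t.u + k }

theorem enter_sh (i : Fin 3) (k : ℕ) (t : SS) : enter i (sh k t) = sh k (enter i t) := by
  unfold enter sh
  cases h : t.L i <;> simp [h]

theorem move_sh (a : Fin 4) (k : ℕ) (t : SS) : move a (sh k t) = sh k (move a t) := by
  unfold move
  refine Fin.cases ?_ (fun j => ?_) a
  · simp only [Fin.cases_zero, sh, SS.mk.injEq, true_and]; omega
  · simp only [Fin.cases_succ]; exact enter_sh j k t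

theorem take1_sh (i : Fin 3) (k : ℕ) (t : SS) : take1 i (sh k t) = sh k (take1 i t) := rfl

theorem pot_sh (k : ℕ) (t : SS) : pot (sh k t) = pot t := rfl

variable {w : List (Fin 3) → Side → Fin 4 → ℝ}

theorem route_sh (v : List (Fin 3)) (n k : ℕ) : ∀ (t : SS) (ρ : SS → ℝ),
    (route v n (sh k t)).E w ρ = (route v n t).E w (fun t' => ρ (sh k t')) := by
  induction n with
  | zero => intro t ρ; rfl
  | succ n ih =>
    intro t ρ
    have hf : (sh k t).f = t.f := rfl
    simp only [route, hf, take1_sh, move_sh]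
    split_ifs <;> simp only [Prog.E, ih]

theorem routeAll_sh (v : List (Fin 3)) (k : ℕ) (t : SS) (ρ : SS → ℝ) :
    (routeAll v (sh k t)).E w ρ = (routeAll v t).E w (fun t' => ρ (sh k t')) :=
  route_sh v _ k t ρ

theorem ph_sh (v : List (Fin 3)) (k : ℕ) (t : SS) (ρ : SS → ℝ) :
    (ph v (sh k t)).E w ρ = (ph v t).E w (fun t' => ρ (sh k t')) := by
  simp only [ph, Prog.E, move_sh, routeAll_sh]

theorem pot_enter (i : Fin 3) (t : SS) : pot (enter i t) = pot t := by
  unfold enter
  cases h : t.L i with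
  | nil => rfl
  | cons a l => fin_cases i <;> (simp at h; simp [pot, Function.update, h]; omega)

theorem pot_move (a : Fin 4) (t : SS) : pot (move a t) = pot t := by
  unfold move
  refine Fin.cases ?_ (fun j => ?_) a
  · rfl
  · simp only [Fin.cases_succ]; exact pot_enter j t

theorem pot_take1 (i : Fin 3) (t : SS) (h : 0 < t.f i) : pot (take1 i t) + 1 = pot t := by
  fin_cases i <;> (simp at h; simp [pot, take1, Function.update]; omega)

theorem route_congr (v : List (Fin 3)) (n : ℕ) : ∀ (t : SS) (ρ ρ' : SS → ℝ), pot t ≤ n →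
    (∀ t' : SS, t'.f = (fun _ => 0) → ρ t' = ρ' t') →
    (route v n t).E w ρ = (route v n t).E w ρ' := by
  induction n with
  | zero =>
    intro t ρ ρ' ht h
    apply h
    unfold pot at ht
    funext i
    fin_cases i <;> simp <;> omega
  | succ n ih =>
    intro t ρ ρ' ht h
    simp only [route]
    split_ifs with h0 h1 h2
    · simp only [Prog.E]
      refine Finset.sum_congr rfl fun a _ => ?_
      rw [ih _ ρ ρ' _ h]
      rw [pot_move]; have := pot_take1 0 t h0; omega
    · simp only [Prog.E]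
      refine Finset.sum_congr rfl fun a _ => ?_
      rw [ih _ ρ ρ' _ h]
      rw [pot_move]; have := pot_take1 1 t h1; omega
    · simp only [Prog.E]
      refine Finset.sum_congr rfl fun a _ => ?_
      rw [ih _ ρ ρ' _ h]
      rw [pot_move]; have := pot_take1 2 t h2; omega
    · apply h
      funext i
      fin_cases i <;> simp <;> omega

theorem routeAll_congr (v : List (Fin 3)) (t : SS) (ρ ρ' : SS → ℝ)
    (h : ∀ t' : SS, t'.f = (fun _ => 0) → ρ t' = ρ' t') :
    (routeAll v t).E w ρ = (routeAll v t).E w ρ' := route_congr v _ t ρ ρ' le_rfl h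

theorem ph_congr (v : List (Fin 3)) (t : SS) (ρ ρ' : SS → ℝ)
    (h : ∀ t' : SS, t'.f = (fun _ => 0) → ρ t' = ρ' t') :
    (ph v t).E w ρ = (ph v t).E w ρ' := by
  simp only [ph, Prog.E]
  exact Finset.sum_congr rfl fun a _ => by rw [routeAll_congr v _ ρ ρ' h]

theorem ph1_congr (v : List (Fin 3)) (t : SS) (ρ ρ' : SS → ℝ)
    (h : ∀ t' : SS, t'.f = (fun _ => 0) → ρ t' = ρ' t') :
    (ph1 v t).E w ρ = (ph1 v t).E w ρ' := by
  simp only [ph1, Prog.E]
  refine Finset.sum_congr rfl fun a _ => ?_
  congr 1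
  exact Finset.sum_congr rfl fun b _ => by rw [routeAll_congr v _ ρ ρ' h]

theorem E_bind {β γ : Type} (P : Prog β) (f : β → Prog γ) (g : γ → ℝ) :
    (P.bind f).E w g = P.E w (fun r => (f r).E w g) := by
  induction P with
  | ret r => rfl
  | ask x z s next ih => simp only [Prog.bind, Prog.E, ih]

/-- The state at the start of a phase. -/
def s0 (L : Fin 3 → List ℕ) : SS := ⟨L, fun _ => 0, 0⟩

theorem eq_sh (t : SS) (h : t.f = fun _ => 0) : t = sh t.u (s0 t.L) := by
  cases t
  simp only at h
  subst h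
  simp [sh, s0]

/-- The law of the star through its phases. -/
theorem star_E (v : List (Fin 3)) (L : Fin 3 → List ℕ) (Φ : ℕ → ℕ → ℕ → ℝ) :
    (star v L).E w (fun o => Φ (o.getD 0 0) (o.getD 1 0) (o.getD 2 0)) =
      (ph1 v (s0 L)).E w (fun t1 => (ph v (s0 t1.L)).E w (fun t2 =>
        (ph v (s0 t2.L)).E w (fun t3 => Φ t1.u t2.u t3.u))) := by
  unfold star
  rw [E_bind]
  apply ph1_congr
  intro t1 h1
  rw [E_bind]
  conv_lhs => rw [eq_sh t1 h1]
  rw [ph_sh]
  apply ph_congr
  intro t2 h2
  have h3 : sh t1.u t2 = sh (t2.u + t1.u) (s0 t2.L) := by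
    rw [eq_sh t2 h2]
    simp [sh, s0]
  rw [E_bind, h3, ph_sh]
  apply ph_congr
  intro t3 h4
  simp only [Prog.E, sh, s0, List.getD_cons_zero, List.getD_cons_succ]
  congr 1 <;> simp

end Pool.Agent.W847.T3.KB
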