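import Mathlib.Data.Nat.Basic

/-!
# Evaluation of the star by the kernel

All functions are written with recursors, so that the kernel evaluates them with memoisation.
Laws are packed in base `W`.
-/

set_option autoImplicit false

namespace Pool.Agent.W847.T3.Ker

/-- Strict application. -/
noncomputable def st (n : Nat) (f : Nat → Nat) : Nat :=
  @Nat.rec (fun _ => Nat) (f 0) (fun m _ => f (Nat.succ m)) n

/-- Enter a child with tape `L` and `f` waiting frogs. -/
noncomputable def ent (L : List Nat) (f : Nat) (k : List Nat → Nat → Nat) : Nat :=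
  @List.rec Nat (fun _ => Nat) (k [] f) (fun h t _ => st (Nat.add h f) (fun f' => k t f')) L

/-- Sum of a list. -/
noncomputable def sm (L : List Nat) : Nat :=
  @List.rec Nat (fun _ => Nat) 0 (fun h _ ih => Nat.add h ih) L

/-- Routing value: shift `X`, terminal value `T`, fuel `n`, tapes and waiting frogs. -/
noncomputable def V (X : Nat → Nat) (T : List Nat → List Nat → List Nat → Nat) (n : Nat) :
    List Nat → Nat → List Nat → Nat → List Nat → Nat → Nat :=
  @Nat.rec (fun _ => List Nat → Nat → List Nat → Nat → List Nat → Nat → Nat)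
    (fun L0 _ L1 _ L2 _ => T L0 L1 L2)
    (fun _ ih L0 f0 L1 f1 L2 f2 =>
      @Nat.rec (fun _ => Nat)
        (@Nat.rec (fun _ => Nat)
          (@Nat.rec (fun _ => Nat)
            (T L0 L1 L2)
            (fun g2 _ => st g2 (fun g => Nat.add (X (ih L0 0 L1 0 L2 g))
              (Nat.add (ent L0 0 (fun L f => ih L f L1 0 L2 g))
                (ent L1 0 (fun L f => ih L0 0 L f L2 g)))))
            f2)
          (fun g1 _ => st g1 (fun g => Nat.add (X (ih L0 0 L1 g L2 f2))
            (Nat.add (ent L0 0 (fun L f => ih L f L1 g L2 f2))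
              (ent L2 f2 (fun L f => ih L0 0 L1 g L f)))))
          f1)
        (fun g0 _ => st g0 (fun g => Nat.add (X (ih L0 g L1 f1 L2 f2))
          (Nat.add (ent L1 f1 (fun L f => ih L0 g L f L2 f2))
            (ent L2 f2 (fun L f => ih L0 g L1 f1 L f)))))
        f0) n

/-- Start of a phase with one visitor. -/
noncomputable def start (v : Nat → List Nat → Nat → List Nat → Nat → List Nat → Nat → Nat)
    (L0 L1 L2 : List Nat) : Nat :=
  st (Nat.add (sm L0) (Nat.add (sm L1) (sm L2))) (fun p =>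
    Nat.add (ent L0 0 (fun L f => v p L f L1 0 L2 0))
      (Nat.add (ent L1 0 (fun L f => v p L0 0 L f L2 0)) (ent L2 0 (fun L f => v p L0 0 L1 0 L f))))

/-- First phase: one visitor and the frog of the vertex. -/
noncomputable def start1 (v : Nat → List Nat → Nat → List Nat → Nat → List Nat → Nat → Nat)
    (X : Nat → Nat) (L0 L1 L2 : List Nat) : Nat :=
  st (Nat.add (sm L0) (Nat.add (sm L1) (sm L2))) (fun p =>
    let g (L0 : List Nat) (f0 : Nat) (L1 : List Nat) (f1 : Nat) (L2 : List Nat) (f2 : Nat) : Nat :=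
      Nat.add (X (v p L0 f0 L1 f1 L2 f2)) (Nat.add (ent L0 f0 (fun L f => v p L f L1 f1 L2 f2))
        (Nat.add (ent L1 f1 (fun L f => v p L0 f0 L f L2 f2))
        (ent L2 f2 (fun L f => v p L0 f0 L1 f1 L f))))
    Nat.add (ent L0 0 (fun L f => g L f L1 0 L2 0))
      (Nat.add (ent L1 0 (fun L f => g L0 0 L f L2 0)) (ent L2 0 (fun L f => g L0 0 L1 0 L f))))

/-- The base. -/
def W : Nat := Nat.pow 2 256

/-- Total weight. -/
def S : Nat := Nat.pow 2 40

/-- Powers of the base. -/
def Wp (n : Nat) : Nat := Nat.pow 2 (Nat.mul 256 n)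

/-- `W ^ 2`. -/
def W2 : Nat := Nat.pow 2 512

/-- `W ^ 3`. -/
def W3 : Nat := Nat.pow 2 768

/-- `W ^ 6`. -/
def W6 : Nat := Nat.pow 2 1536

/-- `W ^ 7`. -/
def W7 : Nat := Nat.pow 2 1792

/-- `W ^ 23`. -/
def W23 : Nat := Nat.pow 2 5888

/-- `W ^ 42`. -/
def W42 : Nat := Nat.pow 2 10752

/-- Shift in the third phase. -/
noncomputable def X3 (v : Nat) : Nat := Nat.mul (Nat.mod v W) W

/-- Shift in the second phase. -/
noncomputable def X2 (v : Nat) : Nat := Nat.mul (Nat.mod v W3) W3

/-- Shift in the first phase. -/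
noncomputable def X1 (v : Nat) : Nat := Nat.mul (Nat.mod v W42) W7

/-- Shift of stage B. -/
noncomputable def XB (v : Nat) : Nat := Nat.mul (Nat.mod v W23) W

/-- Terminal value. -/
noncomputable def T0 (L0 L1 L2 : List Nat) : Nat :=
  Nat.pow 3 (Nat.add (sm L0) (Nat.add (sm L1) (sm L2)))

/-- Value of the third phase: fields `r3 = 0`, `r3 = 1`, all. -/
noncomputable def T2 (L0 L1 L2 : List Nat) : Nat :=
  Nat.add (start (V X3 T0) L0 L1 L2) (Nat.mul W2 (Nat.mul 3 (T0 L0 L1 L2)))

/-- Value of the last two phases: the three fields for `r2 = 0`, for `r2 = 1`, and all. -/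
noncomputable def T1 (L0 L1 L2 : List Nat) : Nat :=
  Nat.add (start (V X2 T2) L0 L1 L2) (Nat.mul W6 (Nat.mul 9 (T0 L0 L1 L2)))

/-- Value of the star, stage A: the seven fields for `r1 = 0, …, 6`. -/
noncomputable def KA (a b c : List Nat) : Nat := start1 (V X1 T1) X1 a b c

/-- Value of the star, stage B: fields `r1 = 0, …, 23`. -/
noncomputable def KB (a b c : List Nat) : Nat := start1 (V XB T0) XB a b c

/-- Symmetrised value. -/
noncomputable def K6 (K : List Nat → List Nat → List Nat → Nat) (a b c : List Nat) : Nat :=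
  Nat.add (K a b c) (Nat.add (K a c b) (Nat.add (K b a c) (Nat.add (K b c a)
    (Nat.add (K c a b) (K c b a)))))

/-- Symmetrised value with two equal arguments. -/
noncomputable def K3 (K : List Nat → List Nat → List Nat → Nat) (a b : List Nat) : Nat :=
  Nat.add (K a b b) (Nat.add (K b a b) (K b b a))

/-- Sum over `c`. -/
noncomputable def sumc (K : List Nat → List Nat → List Nat → Nat) (a b : List Nat)
    (l : List (List Nat)) : List Nat → Nat :=
  @List.rec (List Nat) (fun _ => List Nat → Nat) (fun _ => 0) (fun c _ ih ws =>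
    @List.rec Nat (fun _ => Nat) 0 (fun w ws' _ =>
      Nat.add (Nat.mul w (K6 K a b c)) (ih ws')) ws) l

/-- Sum over `c` of the terms `a a c`. -/
noncomputable def sumd (K : List Nat → List Nat → List Nat → Nat) (a : List Nat)
    (l : List (List Nat)) : List Nat → Nat :=
  @List.rec (List Nat) (fun _ => List Nat → Nat) (fun _ => 0) (fun c _ ih ws =>
    @List.rec Nat (fun _ => Nat) 0 (fun w ws' _ =>
      Nat.add (Nat.mul w (K3 K c a)) (ih ws')) ws) l

/-- Sum over `b` and `c`. -/
noncomputable def sumb (K : List Nat → List Nat → List Nat → Nat) (a : List Nat)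
    (l : List (List Nat)) : List Nat → Nat :=
  @List.rec (List Nat) (fun _ => List Nat → Nat) (fun _ => 0) (fun b t ih ws =>
    @List.rec Nat (fun _ => Nat) 0 (fun w ws' _ => Nat.add (Nat.mul w (Nat.add
      (Nat.mul w (K3 K a b)) (sumc K a b t ws'))) (ih ws')) ws) l

/-- Sum over all triples. -/
noncomputable def suma (K : List Nat → List Nat → List Nat → Nat)
    (l : List (List Nat)) : List Nat → Nat :=
  @List.rec (List Nat) (fun _ => List Nat → Nat) (fun _ => 0) (fun a t ih ws =>
    @List.rec Nat (fun _ => Nat) 0 (fun w ws' _ => Nat.add (Nat.mul w (Nat.add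
      (Nat.mul w (Nat.add (Nat.mul w (K a a a)) (sumd K a t ws')))
      (sumb K a t ws'))) (ih ws')) ws) l

/-- The weighted list of a packed law: the weight of `a` is multiplied by `3 ^ (P - sum a)`. -/
noncomputable def wts (P : Nat) (l : List (List Nat)) : Nat → (List Nat → Nat) → Nat :=
  @List.rec (List Nat) (fun _ => Nat → (List Nat → Nat) → Nat)
    (fun _ k => k [])
    (fun a _ ih v k => st (Nat.mul (Nat.mod v W) (Nat.pow 3 (Nat.sub P (sm a)))) (fun w =>
      st (Nat.div v W) (fun v' => ih v' (fun r => k (w :: r))))) l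

/-- Packing. -/
noncomputable def pk (l : List Nat) : Nat :=
  @List.rec Nat (fun _ => Nat) 0 (fun a _ ih => Nat.add a (Nat.mul W ih)) l

/-- Sum of the first `n` fields. -/
noncomputable def sf (v : Nat) (n : Nat) : Nat :=
  @Nat.rec (fun _ => Nat → Nat) (fun _ => 0) (fun _ ih v =>
    Nat.add (Nat.mod v W) (ih (Nat.div v W))) n v

/-- Field number `i`. -/
noncomputable def fld (v i : Nat) : Nat := Nat.mod (Nat.div v (Wp i)) W

/-- Adding the remaining weight as the first field. -/
noncomputable def addz (m u : Nat) : Nat := Nat.add (Nat.mul u W) (Nat.sub S (sf u m))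

/-- `2 ^ 20 - 1`. -/
def c1 : Nat := Nat.sub (Nat.pow 2 20) 1

/-! ### Stage A -/

/-- The 27 types of stage A. -/
def typesA : List (List Nat) := [[], [0,0,1], [0,0,2], [0,1], [0,1,1], [0,2],
  [1], [1,0,1], [1,0,2], [1,1], [1,1,1], [1,2],
  [2], [2,0,1], [2,0,2], [2,1], [2,1,1], [2,2],
  [3], [3,0,1], [3,1], [4], [4,0,1], [4,1], [5], [6], [7]]

/-- Scale of stage A. -/
def cA : Nat := Nat.mul 108 (Nat.mul (Nat.pow 3 21) (Nat.mul (Nat.mul S S) (Nat.pow 2 20)))

/-- Total of stage A. -/
def totA : Nat := Nat.mul 108 (Nat.mul (Nat.pow 3 21) (Nat.mul S (Nat.mul S S)))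

/-- Rounding down. -/
noncomputable def rdA (x : Nat) : Nat := Nat.div (Nat.mul x c1) cA

/-- The new weights of the types other than `[]`. -/
noncomputable def nlA (F : Nat) : Nat :=
  pk [rdA (fld F 1), rdA (Nat.sub (fld F 2) (Nat.add (fld F 0) (fld F 1))),
    rdA (fld F 3), rdA (Nat.sub (fld F 5) (fld F 3)),
    rdA (Nat.sub (fld F 6) (Nat.add (fld F 2) (fld F 5))),
    rdA (fld F 7), rdA (fld F 8), rdA (Nat.sub (fld F 9) (Nat.add (fld F 7) (fld F 8))),
    rdA (fld F 10), rdA (Nat.sub (fld F 12) (fld F 10)),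
    rdA (Nat.sub (fld F 13) (Nat.add (fld F 9) (fld F 12))),
    rdA (fld F 14), rdA (fld F 15), rdA (Nat.sub (fld F 16) (Nat.add (fld F 14) (fld F 15))),
    rdA (fld F 17), rdA (Nat.sub (fld F 19) (fld F 17)),
    rdA (Nat.sub (fld F 20) (Nat.add (fld F 16) (fld F 19))),
    rdA (fld F 21), rdA (Nat.sub (fld F 23) (fld F 21)), rdA (Nat.sub (fld F 27) (fld F 23)),
    rdA (fld F 28), rdA (Nat.sub (fld F 30) (fld F 28)), rdA (Nat.sub (fld F 34) (fld F 30)),
    rdA (fld F 41), rdA (fld F 48),
    rdA (Nat.sub totA (Nat.add (fld F 6) (Nat.add (fld F 13) (Nat.add (fld F 20)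
      (Nat.add (fld F 27) (Nat.add (fld F 34) (Nat.add (fld F 41) (fld F 48)))))))) ]

/-- One step of stage A. -/
noncomputable def stepA (v : Nat) : Nat :=
  wts 7 typesA v (fun l => st (suma KA typesA l) (fun F => st (nlA F) (addz 26)))

/-- Iteration. -/
noncomputable def iter (f : Nat → Nat) (n : Nat) (v : Nat) : Nat :=
  @Nat.rec (fun _ => Nat → Nat) (fun v => v) (fun _ ih v => st (f v) ih) n v

/-! ### Stage B -/

/-- The 25 types of stage B. -/
def typesB : List (List Nat) := [[], [1], [2], [3], [4], [5], [6], [7], [8], [9], [10], [11],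
  [12], [13], [14], [15], [16], [17], [18], [19], [20], [21], [22], [23], [24]]

/-- Scale of stage B. -/
def cB : Nat := Nat.mul 12 (Nat.mul (Nat.pow 3 72) (Nat.mul (Nat.mul S S) (Nat.pow 2 20)))

/-- Total of stage B. -/
def totB : Nat := Nat.mul 12 (Nat.mul (Nat.pow 3 72) (Nat.mul S (Nat.mul S S)))

/-- Rounding down. -/
noncomputable def rdB (x : Nat) : Nat := Nat.div (Nat.mul x c1) cB

/-- The new weights of the types other than `[]`. -/
noncomputable def nlB (F : Nat) : Nat :=
  pk [rdB (fld F 1), rdB (fld F 2), rdB (fld F 3), rdB (fld F 4), rdB (fld F 5), rdB (fld F 6),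
    rdB (fld F 7), rdB (fld F 8), rdB (fld F 9), rdB (fld F 10), rdB (fld F 11), rdB (fld F 12),
    rdB (fld F 13), rdB (fld F 14), rdB (fld F 15), rdB (fld F 16), rdB (fld F 17),
    rdB (fld F 18), rdB (fld F 19), rdB (fld F 20), rdB (fld F 21), rdB (fld F 22),
    rdB (fld F 23), rdB (Nat.sub totB (sf F 24))]

/-- One step of stage B. -/
noncomputable def stepB (v : Nat) : Nat :=
  wts 24 typesB v (fun l => st (suma KB typesB l) (fun F => st (nlB F) (addz 24)))

/-- Unpacking. -/
def unp : List (List Nat) → Nat → List (Nat × List Nat)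
  | [], _ => []
  | a :: t, v => (v % W, a) :: unp t (v / W)

end Pool.Agent.W847.T3.Ker
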