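import Pool.Agent.W847.T3.Defs
import Pool.Agent.W847.T3.Ker

/-!
# Statements of the parts of the proof of recurrence
-/

set_option autoImplicit false

open Finset MeasureTheory ProbabilityTheory

namespace Pool.Agent.W847.T3

/-- Zero counters. -/
def cn0 : Cnt := fun _ _ => 0

/-! ### Programs and stacks -/

/-- Comparison of programs through stacks. -/
def S_COMP : Prop := ∀ w : List (Fin 3) → Side → Fin 4 → ℝ, Wt w →
  ∀ (β γ : Type) (P : Prog β) (Q : Prog γ) (g : β → ℝ) (h : γ → ℝ),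
    (∀ ω : Stk, (∀ z s m, 0 < w z s (ω z s m)) →
      g (P.runS ω cn0).1 ≤ h (Q.runS ω cn0).1) → P.E w g ≤ Q.E w h

/-- The tape program computes the recursive tape. -/
def S_TAPES : Prop := ∀ (ω : Stk) (h : ℕ) (v : List (Fin 3)),
  ((tape h v).runS ω cn0).1 = tapeS ω h v

/-- The star sends up at most as many frogs as any closed configuration. -/
def S_STARLB : Prop := ∀ (ω : Stk) (v : List (Fin 3)) (L : Fin 3 → List ℕ) (c : Side → ℕ) (m : ℕ),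
  (∀ i : Fin 3, ((L i).take (sumS fun s => cnt ω v s i.succ (c s))).sum ≤ c (.ch i)) →
  1 ≤ c .own → m ≤ c .par → ((starS ω v L).take m).sum ≤ sumS fun s => cnt ω v s 0 (c s)

/-- The star is monotone in the tapes of the children. -/
def S_STARMONO : Prop := ∀ (ω : Stk) (v : List (Fin 3)) (L L' : Fin 3 → List ℕ),
  (∀ i, Le (L i) (L' i)) → Le (starS ω v L) (starS ω v L')

/-- A closed configuration of the tree cut at generation `n`. -/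
def Bal (n : ℕ) (ω : Stk) (cn : Cnt) : Prop :=
  (∀ (z : List (Fin 3)) (j : Fin 3), z.length + 1 < n →
    (sumS fun s => cnt ω z s j.succ (cn z s)) ≤ cn (j :: z) .par) ∧
  (∀ (z : List (Fin 3)) (j : Fin 3), z ≠ [] → z.length + 1 < n →
    (sumS fun s => cnt ω (j :: z) s 0 (cn (j :: z) s)) ≤ cn z (.ch j)) ∧
  (∀ z : List (Fin 3), z.length < n → 1 ≤ cn z .par → 1 ≤ cn z .own)

/-- In a closed configuration at least as many frogs leave a subtree as its tape says. -/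
def S_TAPELB : Prop := ∀ (n : ℕ) (ω : Stk) (cn : Cnt), Bal n ω cn →
  ∀ (h : ℕ) (v : List (Fin 3)), v ≠ [] → v.length + h = n → ∀ m ≤ cn v .par,
    ((tapeS ω h v).take m).sum ≤ sumS fun s => cnt ω v s 0 (cn v s)

/-- The exploration ends, with a closed configuration. -/
def S_EXSTK : Prop := ∀ n : ℕ, 1 ≤ n → ∃ m : ℕ, ∀ ω : Stk, GoodS ω →
  Bal n ω ((expl n m ex0).runS ω cn0).2 ∧
  1 ≤ ((expl n m ex0).runS ω cn0).2 [] .own ∧
  ∀ j : Fin 3, (sumS fun s => cnt ω [j] s 0 (((expl n m ex0).runS ω cn0).2 [j] s)) ≤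
    ((expl n m ex0).runS ω cn0).1.rc.length

/-- The exploration finds at least as many frogs as the tape of a child of the root says. -/
def S_ROOT : Prop := ∀ n : ℕ, 2 ≤ n → ∃ m : ℕ, ∀ x : ℝ, 0 ≤ x → x ≤ 1 →
  (expl n m ex0).E (wq n) (fun r => x ^ r.rc.length) ≤
    (1 / 3) * ∑ j : Fin 3, (tape (n - 1) [j]).E (wq n) (fun L => x ^ (L.take 1).sum)

/-! ### Weights -/

def S_WTS : Prop := ∀ n : ℕ, Wt (wq n)

/-- Far from the root and from generation `n` the weights are nearly uniform. -/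
def S_CLOSE : Prop := ∀ η : ℝ, 0 < η → ∃ K0 : ℕ, ∀ (n : ℕ) (z : List (Fin 3)) (s : Side)
  (a : Fin 4), K0 ≤ z.length → z.length + K0 ≤ n → (1 - η) * wu s a ≤ wq n z s a

/-- The harmonic weight. -/
noncomputable def psi (n l : ℕ) : ℝ := U n l * (3 * cc n l) / (U n l + 3 * cc n l)

def S_LEV : Prop := ∀ n l : ℕ, 1 ≤ l → l + 5 ≤ n →
  4 / 7 ≤ U n l ∧ U n l ≤ cc n l ∧ 2 / 3 ≤ cc n l ∧ cc n l ≤ 27 / 40 ∧
  U n l / (U n l + 2 * cc n l) * psi n (l + 1) = psi n l / 3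

/-! ### One step for laws on types -/

def S_DSTEP : Prop := ∀ w : List (Fin 3) → Side → Fin 4 → ℝ, Wt w →
  ∀ (l : List (ℕ × List ℕ)) (h : ℕ) (v : List (Fin 3)) (S M : ℕ) (η : ℝ), 0 ≤ η → η ≤ 1 →
    (∀ s a, (1 - η) * wu s a ≤ w v s a) → (∀ p ∈ l, p.2.sum ≤ M) →
    (∀ i : Fin 3, Dom S l w h (i :: v)) →
    ∀ φ : List ℕ → ℝ, Mono φ → (∀ A, 0 ≤ φ A) →
      (1 - η) ^ (3 * M + 4) * Tri l φ ≤ (S : ℝ) ^ 3 * (tape (h + 1) v).E w φ

/-! ### Evaluation by the kernel -/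

/-- The packed value counts outcomes. -/
def S_PV : Prop := ∀ (B R A : ℕ) (T : List ℕ → List ℕ → List ℕ → ℕ), 1 ≤ R →
  (∀ a b c : List ℕ, T a b c ≤ A * 3 ^ (a.sum + b.sum + c.sum)) →
  ∀ (n : ℕ) (t : SS), t.u = 0 → pot t ≤ n → A * 3 ^ (pot t) < B →
    ∃ c : ℕ → ℕ, Ker.V (fun v => (v % B ^ (R - 1)) * B) T n
        (t.L 0) (t.f 0) (t.L 1) (t.f 1) (t.L 2) (t.f 2) = ∑ r ∈ range R, c r * B ^ r ∧
      ∀ r, (c r : ℝ) = 3 ^ (pot t) * (routeAll [] t).E (fun _ => wu) (fun t' =>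
        if t'.u = r then (T (t'.L 0) (t'.L 1) (t'.L 2) : ℝ) /
          3 ^ ((t'.L 0).sum + (t'.L 1).sum + (t'.L 2).sum) else 0)

/-- The event counted by field `i` of stage A. -/
def clsA (i : ℕ) (o : List ℕ) : Prop :=
  o.getD 0 0 = i / 7 ∧
    match i % 7 with
    | 0 => o.getD 1 0 = 0 ∧ o.getD 2 0 = 0
    | 1 => o.getD 1 0 = 0 ∧ o.getD 2 0 = 1
    | 2 => o.getD 1 0 = 0
    | 3 => o.getD 1 0 = 1 ∧ o.getD 2 0 = 0
    | 4 => o.getD 1 0 = 1 ∧ o.getD 2 0 = 1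
    | 5 => o.getD 1 0 = 1
    | _ => True

open Classical in
def S_KA : Prop := ∀ a b c : List ℕ, a.sum + b.sum + c.sum ≤ 21 → ∃ F : ℕ → ℕ,
  (∀ i, F i < Ker.W) ∧ Ker.KA a b c = ∑ i ∈ range 49, F i * Ker.W ^ i ∧
  ∀ i < 49, (F i : ℝ) = 108 * 3 ^ (a.sum + b.sum + c.sum) *
    (star [] ![a, b, c]).E (fun _ => wu) (fun o => if clsA i o then 1 else 0)

def S_KB : Prop := ∀ a b c : List ℕ, a.sum + b.sum + c.sum ≤ 72 → ∃ F : ℕ → ℕ,
  (∀ i, F i < Ker.W) ∧ Ker.KB a b c = ∑ i ∈ range 24, F i * Ker.W ^ i ∧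
  ∀ i < 24, (F i : ℝ) = 12 * 3 ^ (a.sum + b.sum + c.sum) *
    (star [] ![a, b, c]).E (fun _ => wu) (fun o => if o.getD 0 0 = i then 1 else 0)

/-- The symmetrised sum is the sum over all ordered triples. -/
def S_SUM : Prop := ∀ (K : List ℕ → List ℕ → List ℕ → ℕ) (l : List (List ℕ)) (ws : List ℕ),
  ws.length = l.length →
  Ker.suma K l ws = ((ws.zip l).map fun a => a.1 * ((ws.zip l).map fun b => b.1 *
    ((ws.zip l).map fun c => c.1 * K a.2 b.2 c.2).sum).sum).sum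

/-- Unpacking of the weights. -/
def S_WTP : Prop := ∀ (P : ℕ) (l : List (List ℕ)) (v : ℕ) (k : List ℕ → ℕ),
  Ker.wts P l v k = k ((Ker.unp l v).map fun p => p.1 * 3 ^ (P - p.2.sum))

/-- Total weight. -/
def tot (l : List (ℕ × List ℕ)) : ℕ := (l.map Prod.fst).sum

def S_STEPA : Prop := ∀ v : ℕ, tot (Ker.unp Ker.typesA v) = Ker.S →
  tot (Ker.unp Ker.typesA (Ker.stepA v)) = Ker.S ∧
  ∀ φ : List ℕ → ℝ, Mono φ → (∀ A, 0 ≤ φ A) → φ [] = 0 →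
    av (Ker.unp Ker.typesA (Ker.stepA v)) φ * (2 ^ 20 * (Ker.S : ℝ) ^ 2) ≤
      (2 ^ 20 - 1) * Tri (Ker.unp Ker.typesA v) φ

def S_STEPB : Prop := ∀ v : ℕ, tot (Ker.unp Ker.typesB v) = Ker.S →
  tot (Ker.unp Ker.typesB (Ker.stepB v)) = Ker.S ∧
  ∀ φ : List ℕ → ℝ, Mono φ → (∀ A, 0 ≤ φ A) → φ [] = 0 →
    av (Ker.unp Ker.typesB (Ker.stepB v)) φ * (2 ^ 20 * (Ker.S : ℝ) ^ 2) ≤
      (2 ^ 20 - 1) * Tri (Ker.unp Ker.typesB v) φ

/-! ### Growth of the generating functions -/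

/-- Generating function of the star entered at `i`. -/
noncomputable def GG (s0 s1 s2 : Fin 3 → ℝ) (i j k : Fin 3) : ℝ :=
  s2 i * s2 j * s2 k + s1 i * (s1 j * (1 - s2 k) + s1 k * (1 - s2 j)) +
    s0 i * (1 - s2 j * s2 k - s1 j * (1 - s2 k) - s1 k * (1 - s2 j))

/-- Generating function of the star entered at `i` and `j`. -/
noncomputable def GG2 (s1 s2 : Fin 3 → ℝ) (i j k : Fin 3) : ℝ :=
  s2 i * s2 j * s2 k + s1 i * s1 j * (1 - s2 k)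

/-- Generating function of the number of frogs sent up by the first visitor. -/
noncomputable def FF (A θ x : ℝ) (s0 s1 s2 : Fin 3 → ℝ) : ℝ :=
  (1 / 3) * ((A * x + θ) * (GG s0 s1 s2 0 1 2 + GG s0 s1 s2 1 0 2 + GG s0 s1 s2 2 0 1) +
    2 * θ * (GG2 s1 s2 0 1 2 + GG2 s1 s2 0 2 1 + GG2 s1 s2 1 2 0))

/-- Generating function of the first entry of the tape. -/
noncomputable def pgf (w : List (Fin 3) → Side → Fin 4 → ℝ) (h : ℕ) (v : List (Fin 3)) (x : ℝ) :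
    ℝ := (tape h v).E w (fun L => x ^ (L.take 1).sum)

def S_FORM : Prop := ∀ w : List (Fin 3) → Side → Fin 4 → ℝ, Wt w →
  ∀ (h : ℕ) (v : List (Fin 3)) (a b A θ : ℝ),
    w v .own 0 = A → (∀ j : Fin 3, w v .own j.succ = θ) →
    w v .par 0 = 0 → (∀ j : Fin 3, w v .par j.succ = 1 / 3) →
    (∀ i : Fin 3, w v (.ch i) 0 = a) →
    (∀ i j : Fin 3, w v (.ch i) j.succ = if i = j then 0 else b) →
    ∀ x : ℝ, 0 ≤ x → x ≤ 1 →
      pgf w (h + 1) v x ≤ FF A θ x (fun i => pgf w h (i :: v) (a * x))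
        (fun i => pgf w h (i :: v) (a * x + b)) (fun i => pgf w h (i :: v) (a * x + 2 * b))

/-- The prefactor. -/
noncomputable def Cx (x : ℝ) : ℝ := if x < 1 / 3 then 5 / 4 else 1

def S_INEQ : Prop := ∀ (M x A θ : ℝ) (s0 s1 s2 : Fin 3 → ℝ), 9 ≤ M → 0 ≤ x → x ≤ 1 →
  11 / 50 ≤ A → A ≤ 1 / 4 → A + 3 * θ = 1 →
  (∀ i, 0 ≤ s0 i) → (∀ i, s0 i ≤ s1 i) → (∀ i, s1 i ≤ s2 i) →
  (∀ i, s2 i ≤ Real.exp (-(M * (1 - x) / 3))) →
  (∀ i, s1 i ≤ Real.exp (-(M * (1 - x) / 3)) * Real.exp (-(M / 3))) →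
  (∀ i, s0 i ≤ 5 / 4 * Real.exp (-(M * (1 - x) / 3)) * Real.exp (-(M / 3)) ^ 2) →
  FF A θ x s0 s1 s2 ≤ Cx x * Real.exp (-((M + 1 / 100) * (1 - x)))

def S_STC : Prop := ∀ n l1 : ℕ, 1 ≤ l1 → l1 + 5 ≤ n →
  (∀ v : List (Fin 3), v.length = l1 → ∀ x : ℝ, 0 ≤ x → x ≤ 1 →
    pgf (wq n) (n - l1) v x ≤ Real.exp (-(11 * (1 - x)))) →
  ∀ l : ℕ, 1 ≤ l → l ≤ l1 → ∀ v : List (Fin 3), v.length = l → ∀ x : ℝ, 0 ≤ x → x ≤ 1 →
    pgf (wq n) (n - l) v x ≤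
      Cx x * Real.exp (-((11 / psi n l1 + 19 / 1000 * ((l1 : ℝ) - l)) * psi n l * (1 - x)))

/-- From one point to all points. -/
def S_CONV : Prop := ∀ (w : List (Fin 3) → Side → Fin 4 → ℝ), Wt w →
  ∀ (l : List (ℕ × List ℕ)) (h : ℕ) (v : List (Fin 3)), tot l = Ker.S → Dom Ker.S l w h v →
    (∀ p ∈ l, p.2.length ≤ 1) →
    (l.map fun p => (p.1 : ℝ) * (3 / 8) ^ p.2.sum).sum ≤ Ker.S * Real.exp (-11) →
    ∀ x : ℝ, 0 ≤ x → x ≤ 1 → pgf w h v x ≤ Real.exp (-(11 * (1 - x)))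

/-! ### Endpoints, walks -/

/-- Consistent information. -/
def VI (n : ℕ) (q : List (Fin 3) × Side) : Prop :=
  q.1.length ≤ n ∧ (q.2 ≠ .par → q.1.length < n)

def S_FRUN : Prop := ∀ (n : ℕ) (β : Type) (P : Prog β) (g : β → ℝ)
  (B : List (Fin 3) → List (Fin 3) × Side), (∀ x, x.length < n → VI n (B x)) → P.Ok n B →
    P.E (wq n) g = JF n B (fun η => g (P.runF η))

def S_EXOK : Prop := ∀ n : ℕ, 1 ≤ n → ∀ m : ℕ, (expl n m ex0).Ok n (fun x => (x, .own))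

def S_EXMEAN : Prop := ∀ n : ℕ, 1 ≤ n → ∀ (m : ℕ) (η : List (Fin 3) → List (Fin 3)),
  (∀ x, x.length < n → (η x).length = n) → ∀ A : Set (List (Fin 3)), [] ∈ A →
  (∀ x ∈ A, x.length < n → ∀ v, v <:+ η x → ¬ (v <:+ x) → v.length < n → v ∈ A) →
  ((expl n m ex0).runF η).rc.Nodup ∧ ∀ x ∈ ((expl n m ex0).runF η).rc,
    x ∈ A ∧ x.length < n ∧ ∃ j : Fin 3, [j] <:+ x ∧ ¬ ([j] <:+ η x)

/-- Harmonic extension. -/
def S_HARM : Prop := ∀ (n : ℕ) (h : List (Fin 3) → ℝ), ∃ H : List (Fin 3) → ℝ,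
  (∀ z, n ≤ z.length → H z = h z) ∧ (∀ z, z.length < n → H z = law n z .own h) ∧
  (0 < n → ∑ j : Fin 3, H [j] = 3 * H []) ∧
  ∀ (i : Fin 3) (z : List (Fin 3)), z.length + 1 < n →
    ∑ j : Fin 3, H (j :: i :: z) + H z = 4 * H (i :: z)

/-- Law of the endpoint. -/
def S_HIT : Prop := ∀ (Ω : Type) [MeasurableSpace Ω] (P : Measure Ω) [IsProbabilityMeasure P]
  (c : ℕ → Ω → Fin 3 × Fin 4), (∀ k, Measurable (c k)) → iIndepFun c P →
  (∀ k (a : Fin 3 × Fin 4), P (c k ⁻¹' {a}) = 1 / 12) →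
  ∀ (n : ℕ) (x y : List (Fin 3)), x.length < n → y.length = n →
    Filter.Tendsto (fun m => P.real {ω | W n x (fun j => c j ω) m = y}) Filter.atTop
      (nhds (law n x .own (ind y)))

/-- The probability of few visits is at most the expectation of the exploration. -/
def S_PROB : Prop := ∀ (Ω : Type) [MeasurableSpace Ω] (P : Measure Ω) [IsProbabilityMeasure P]
  (ξ : List (Fin 3) → ℕ → Ω → Fin 3 × Fin 4), (∀ v k, Measurable (ξ v k)) →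
  iIndepFun (fun p : List (Fin 3) × ℕ => ξ p.1 p.2) P →
  (∀ v k (a : Fin 3 × Fin 4), P (ξ v k ⁻¹' {a}) = 1 / 12) →
  ∀ (S : List (Fin 3) → ℕ → Ω → List (Fin 3)), (∀ v ω, S v 0 ω = v) →
  (∀ v k ω, S v (k + 1) ω = stp (S v k ω) (ξ v k ω)) →
  ∀ n : ℕ, 1 ≤ n → ∀ m m0 : ℕ,
    P.real {ω | ¬ ∃ T : Finset (List (Fin 3) × ℕ), m0 ≤ T.card ∧ ∀ q ∈ T,
      (∀ A : Set (List (Fin 3)), [] ∈ A → (∀ v ∈ A, ∀ k, S v k ω ∈ A) → q.1 ∈ A) ∧
        S q.1 q.2 ω = []} ≤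
    (expl n m ex0).E (wq n) (fun r => if r.rc.length < m0 then 1 else 0)

end Pool.Agent.W847.T3
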