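import Pool.Agent.W847.T3.T_HIT

set_option autoImplicit false

open Finset MeasureTheory ProbabilityTheory

namespace Pool.Agent.W847.T3.T_PROB

open T_WTS T_HARM T_FRUN T_HIT

section det

variable {n : ℕ} {x : List (Fin 3)} {v : ℕ → Al} {Y : ℕ → List (Fin 3)}
  (h0 : Y 0 = x) (hs : ∀ k, Y (k + 1) = stp (Y k) (v k))

include h0 hs

theorem cpl_eq (m : ℕ) (h : (W n x v m).length < n) : Y m = W n x v m := by
  induction m with
  | zero => exact h0
  | succ m ih =>
    by_cases h1 : n ≤ (W n x v m).length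
    · simp only [W, if_pos h1] at h
      omega
    · have h2 := ih (by omega)
      rw [hs, h2]
      simp only [W, if_neg h1]

theorem cpl_eq_succ (m : ℕ) (h : (W n x v m).length < n) : Y (m + 1) = W n x v (m + 1) := by
  rw [hs, cpl_eq h0 hs m h]
  simp only [W, if_neg (not_le.2 h)]

/-- Vertices above the end but not above the start are visited. -/
theorem cpl_enter (m : ℕ) : ∀ u, u <:+ W n x v m → ¬ (u <:+ x) → ∃ i, Y i = u := by
  induction m with
  | zero => intro u h1 h2; exact absurd h1 h2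
  | succ m ih =>
    intro u h1 h2
    by_cases h : n ≤ (W n x v m).length
    · simp only [W, if_pos h] at h1
      exact ih u h1 h2
    · by_cases h3 : u <:+ W n x v m
      · exact ih u h3 h2
      · have h4 : W n x v (m + 1) = stp (W n x v m) (v m) := by
          simp only [W, if_neg h]
        rcases stp_cases (W n x v m) (v m) with ⟨c, hc⟩ | ⟨_, hc⟩
        · rw [h4, hc, List.suffix_cons_iff] at h1
          rcases h1 with h1 | h1
          · exact ⟨m + 1, by rw [cpl_eq_succ (n := n) h0 hs m (by omega), h4, hc, h1]⟩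
          · exact absurd h1 h3
        · rw [h4, hc] at h1
          exact absurd (h1.trans (List.tail_suffix _)) h3

/-- The parent of a vertex above the start but not above the end is visited. -/
theorem cpl_leave (m : ℕ) : ∀ u, u <:+ x → ¬ (u <:+ W n x v m) → ∃ i, Y i = u.tail := by
  induction m with
  | zero => intro u h1 h2; exact absurd h1 h2
  | succ m ih =>
    intro u h1 h2
    by_cases h : n ≤ (W n x v m).length
    · simp only [W, if_pos h] at h2
      exact ih u h1 h2
    · by_cases h3 : u <:+ W n x v m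
      · have h4 : W n x v (m + 1) = stp (W n x v m) (v m) := by
          simp only [W, if_neg h]
        rcases stp_cases (W n x v m) (v m) with ⟨c, hc⟩ | ⟨hn, hc⟩
        · rw [h4, hc] at h2
          exact absurd (h3.trans (List.suffix_cons _ _)) h2
        · rw [h4, hc] at h2
          obtain ⟨a, t, ht⟩ := List.exists_cons_of_ne_nil hn
          rw [ht] at h3 h2
          rw [List.suffix_cons_iff] at h3
          rcases h3 with h3 | h3
          · refine ⟨m + 1, ?_⟩
            rw [cpl_eq_succ (n := n) h0 hs m (by omega), h4, hc, ht, h3]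
          · exact absurd h3 h2
      · exact ih u h1 h3

end det

/-- The woken frogs. -/
def Act {Ω : Type} (S : List (Fin 3) → ℕ → Ω → List (Fin 3)) (ω : Ω) : Set (List (Fin 3)) :=
  {w | ∀ A : Set (List (Fin 3)), [] ∈ A → (∀ v ∈ A, ∀ k, S v k ω ∈ A) → w ∈ A}

/-- The event of at least `m0` visits. -/
def RR {Ω : Type} (S : List (Fin 3) → ℕ → Ω → List (Fin 3)) (m0 : ℕ) : Set Ω :=
  {ω | ∃ T : Finset (List (Fin 3) × ℕ), m0 ≤ T.card ∧ ∀ q ∈ T,
      (∀ A : Set (List (Fin 3)), [] ∈ A → (∀ v ∈ A, ∀ k, S v k ω ∈ A) → q.1 ∈ A) ∧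
        S q.1 q.2 ω = []}

theorem many_visits (h3 : S_EXMEAN) {Ω : Type} {ξ : List (Fin 3) → ℕ → Ω → Al}
    {S : List (Fin 3) → ℕ → Ω → List (Fin 3)} (hS0 : ∀ v ω, S v 0 ω = v)
    (hS1 : ∀ v k ω, S v (k + 1) ω = stp (S v k ω) (ξ v k ω))
    {n : ℕ} (hn : 1 ≤ n) {m m0 M : ℕ} {ω : Ω} (y : frogs n → List (Fin 3))
    (hy : ∀ x, y x ∈ words n)
    (hW : ∀ x : frogs n, W n x (fun j => ξ x j ω) M = y x)
    (hm0 : m0 ≤ ((expl n m ex0).runF (ext y)).rc.length) : ω ∈ RR S m0 := by
  have hex : ∀ x (hx : x ∈ frogs n), ext y x = y ⟨x, hx⟩ := by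
    intro x hx; simp [ext, hx]
  have hηF : ∀ x, x.length < n → ext y x = W n x (fun j => ξ x j ω) M := by
    intro x hx
    have hx' := (mem_frogs n x).2 hx
    rw [hW ⟨x, hx'⟩, hex x hx']
  have hηl : ∀ x, x.length < n → (ext y x).length = n := by
    intro x hx
    have hx' := (mem_frogs n x).2 hx
    rw [hex x hx']
    exact (mem_words n _).1 (hy _)
  have hroot : [] ∈ Act S ω := fun A hA _ => hA
  have hcl : ∀ v ∈ Act S ω, ∀ k, S v k ω ∈ Act S ω :=
    fun v hv k A hA1 hA2 => hA2 v (hv A hA1 hA2) k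
  obtain ⟨hnd, hrc⟩ := h3 n hn m (ext y) hηl (Act S ω) hroot (by
    intro x hx hxn v hv1 hv2 _
    rw [hηF x hxn] at hv1
    obtain ⟨i, hi⟩ := cpl_enter (Y := fun k => S x k ω) (hS0 x ω) (fun k => hS1 x k ω) M v hv1 hv2
    rw [← hi]
    exact hcl x hx i)
  have hvis : ∀ x ∈ ((expl n m ex0).runF (ext y)).rc, ∃ i, S x i ω = [] := by
    intro x hx
    obtain ⟨_, hxn, j, hj1, hj2⟩ := hrc x hx
    rw [hηF x hxn] at hj2
    obtain ⟨i, hi⟩ := cpl_leave (Y := fun k => S x k ω) (hS0 x ω) (fun k => hS1 x k ω) M [j]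
      hj1 hj2
    exact ⟨i, hi⟩
  choose! g hg using hvis
  refine ⟨((expl n m ex0).runF (ext y)).rc.toFinset.image (fun x => (x, g x)), ?_, ?_⟩
  · rw [Finset.card_image_of_injective _ (fun a b h => (Prod.mk.inj h).1),
      List.toFinset_card_of_nodup hnd]
    exact hm0
  · intro a ha
    obtain ⟨x, hx, rfl⟩ := Finset.mem_image.1 ha
    rw [List.mem_toFinset] at hx
    exact ⟨(hrc x hx).1, hg x hx⟩

section prob

variable {Ω : Type} [mΩ : MeasurableSpace Ω] {P : Measure Ω} [IsProbabilityMeasure P]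
  {ξ : List (Fin 3) → ℕ → Ω → Al} (hm : ∀ v k, Measurable (ξ v k))
  (hI : iIndepFun (fun p : List (Fin 3) × ℕ => ξ p.1 p.2) P)

/-- The event that the endpoints are `y`. -/
def DD {Ω : Type} (ξ : List (Fin 3) → ℕ → Ω → Al) (n : ℕ) (M : ℕ)
    (y : frogs n → List (Fin 3)) : Set Ω :=
  ⋂ x ∈ frogs n, WE (ξ x) n x M (ext y x)

include hm in
theorem DD_meas (n M : ℕ) (y : frogs n → List (Fin 3)) : MeasurableSet (DD ξ n M y) :=
  Finset.measurableSet_biInter _ fun x _ => WE_meas' (fun k => hm x k) M _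

include hI hm in
theorem DD_prob (n M : ℕ) (y : frogs n → List (Fin 3)) :
    P.real (DD ξ n M y) = ∏ x : frogs n, aa P (ξ x) n x M (y x) := by
  have h1 := sg_prod hI (fun p => hm p.1 p.2) (frogs n) (fun x => {i | i.1 = x})
    (by
      intro x _ x' _ hxx
      rw [Set.disjoint_left]
      intro i h1 h2
      exact hxx (h1.symm.trans h2))
    (fun x => WE (ξ x) n x M (ext y x)) (by
      intro x _
      have hle : sg (ξ x) {i | i < M} ≤
          sg (fun p : List (Fin 3) × ℕ => ξ p.1 p.2) {i | i.1 = x} := by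
        unfold sg
        refine iSup₂_le fun i _ => ?_
        exact le_biSup (f := fun p : List (Fin 3) × ℕ =>
          MeasurableSpace.comap (ξ p.1 p.2) inferInstance) (i := (x, i)) rfl
      exact hle _ (WE_meas (ξ x) n x M _))
  unfold DD
  rw [measureReal_def, h1.1, ENNReal.toReal_prod, ← Finset.prod_coe_sort]
  refine Finset.prod_congr rfl fun x _ => ?_
  unfold aa
  rw [measureReal_def]
  congr 3
  simp [ext]

end prob

theorem main (h1 : S_FRUN) (h2 : S_EXOK) (h3 : S_EXMEAN) (h4 : S_HIT) : S_PROB := by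
  classical
  intro Ω _ P _ ξ hm hI hU S hS0 hS1 n hn m m0
  set B : List (Fin 3) → List (Fin 3) × Side := fun x => (x, .own) with hB
  have hVI : ∀ x : List (Fin 3), x.length < n → VI n (B x) := fun x hx => ⟨hx.le, fun _ => hx⟩
  set A : Finset (frogs n → List (Fin 3)) :=
    (Fintype.piFinset (fun _ : frogs n => words n)).filter
      (fun y => m0 ≤ ((expl n m ex0).runF (ext y)).rc.length) with hA
  have hsub : ∀ M, (⋃ y ∈ A, DD ξ n M y) ⊆ RR S m0 := by
    intro M ω hω
    simp only [Set.mem_iUnion, exists_prop] at hω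
    obtain ⟨y, hy, hD⟩ := hω
    obtain ⟨hy1, hy2⟩ := Finset.mem_filter.1 hy
    apply many_visits h3 hS0 hS1 hn y (Fintype.mem_piFinset.1 hy1) (M := M) _ hy2
    intro x
    have h3 := Set.mem_iInter₂.1 hD x.1 x.2
    have h4 : W n x (fun j => ξ x j ω) M = ext y x := h3
    rw [h4]
    simp [ext]
  have hle : ∀ M, ∑ y ∈ A, ∏ x : frogs n, aa P (ξ x) n x M (y x) ≤ 1 - P.real (RR S m0)ᶜ := by
    intro M
    have hmeasS : MeasurableSet (⋃ y ∈ A, DD ξ n M y) :=
      Finset.measurableSet_biUnion _ fun y _ => DD_meas hm n M y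
    have hcompl : P.real (RR S m0)ᶜ ≤ 1 - P.real (⋃ y ∈ A, DD ξ n M y) := by
      rw [← probReal_compl_eq_one_sub hmeasS]
      exact measureReal_mono (Set.compl_subset_compl.2 (hsub M)) (measure_ne_top _ _)
    refine le_trans (le_of_eq ?_) (by linarith :
      P.real (⋃ y ∈ A, DD ξ n M y) ≤ 1 - P.real (RR S m0)ᶜ)
    rw [measureReal_biUnion_finset]
    · exact Finset.sum_congr rfl fun y _ => (DD_prob hm hI n M y).symm
    · intro y _ y' _ hyy
      rw [Function.onFun, Set.disjoint_left]
      intro ω h1 h2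
      apply hyy
      funext x
      have h3 := Set.mem_iInter₂.1 h1 x.1 x.2
      have h4 := Set.mem_iInter₂.1 h2 x.1 x.2
      have h5 : ext y x.1 = ext y' x.1 := Eq.trans (Eq.symm h3) h4
      simpa [ext] using h5
    · intro y _
      exact DD_meas hm n M y
  have hlim : Filter.Tendsto (fun M => ∑ y ∈ A, ∏ x : frogs n, aa P (ξ x) n x M (y x))
      Filter.atTop (nhds (JF n B (fun η => if m0 ≤ ((expl n m ex0).runF η).rc.length then 1
        else 0))) := by
    have hJ : JF n B (fun η => if m0 ≤ ((expl n m ex0).runF η).rc.length then 1 else 0) =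
        ∑ y ∈ A, ∏ x : frogs n, law n x .own (ind (y x)) := by
      unfold JF
      rw [hA, Finset.sum_filter]
      refine Finset.sum_congr rfl fun y _ => ?_
      by_cases h : m0 ≤ ((expl n m ex0).runF (ext y)).rc.length
      · simp [h, hB]
      · simp [h]
    rw [hJ]
    apply tendsto_finsetSum
    intro y hy
    apply tendsto_finsetProd
    intro x _
    have hIx : iIndepFun (ξ x) P := hI.precomp (g := fun k => ((x : List (Fin 3)), k))
      (fun a b h => (Prod.mk.inj h).2)
    exact h4 Ω P (ξ x) (fun k => hm x k) hIx (fun k a => hU x k a) n x (y x)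
      ((mem_frogs n _).1 x.2)
      ((mem_words n _).1 (Fintype.mem_piFinset.1 (Finset.mem_filter.1 hy).1 x))
  have hfin := le_of_tendsto' hlim hle
  have hE := h1 n EX (expl n m ex0) (fun r => if r.rc.length < m0 then 1 else 0) B hVI (h2 n hn m)
  rw [hE]
  have hsum : JF n B (fun η => if m0 ≤ ((expl n m ex0).runF η).rc.length then 1 else 0) +
      JF n B (fun η => if ((expl n m ex0).runF η).rc.length < m0 then 1 else 0) = 1 := by
    refine Eq.trans ?_ (J_const hVI (1 : ℝ))
    unfold JF
    rw [← Finset.sum_add_distrib]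
    refine Finset.sum_congr rfl fun y _ => ?_
    rw [← mul_add]
    congr 1
    simp only
    by_cases h : m0 ≤ ((expl n m ex0).runF (ext y)).rc.length
    · rw [if_pos h, if_neg (by omega), add_zero]
    · rw [if_neg h, if_pos (by omega), zero_add]
  have : P.real (RR S m0)ᶜ ≤
      JF n B (fun η => if ((expl n m ex0).runF η).rc.length < m0 then 1 else 0) := by
    linarith
  exact this

end Pool.Agent.W847.T3.T_PROB
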