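import Pool.Agent.W847.T3.Stm

/-!
# Common lemmas for the steps of the stages A and B
-/

set_option autoImplicit false

open Finset

namespace Pool.Agent.W847.T3.T_STEP0

theorem st_eq (n : ℕ) (f : ℕ → ℕ) : Ker.st n f = f n := by
  cases n <;> rfl

/-! ### Expectations -/

variable {β γ : Type}

theorem E_mono (w : List (Fin 3) → Side → Fin 4 → ℝ) (hw : ∀ z s a, 0 ≤ w z s a)
    (P : Prog β) (g h : β → ℝ) (hgh : ∀ r, g r ≤ h r) : P.E w g ≤ P.E w h := by
  induction P with
  | ret r => exact hgh r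
  | ask x z s next ih =>
    show ∑ a, w z s a * (next a).E w g ≤ ∑ a, w z s a * (next a).E w h
    exact Finset.sum_le_sum fun a _ => mul_le_mul_of_nonneg_left (ih a) (hw z s a)

theorem E_const (w : List (Fin 3) → Side → Fin 4 → ℝ) (hw : ∀ z s, ∑ a, w z s a = 1)
    (P : Prog β) (c : ℝ) : P.E w (fun _ => c) = c := by
  induction P with
  | ret r => rfl
  | ask x z s next ih =>
    show ∑ a, w z s a * (next a).E w (fun _ => c) = c
    have : ∀ a ∈ (univ : Finset (Fin 4)), w z s a * (next a).E w (fun _ => c) = w z s a * c := by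
      intro a _; rw [ih a]
    rw [Finset.sum_congr rfl this, ← Finset.sum_mul, hw, one_mul]

theorem E_add (w : List (Fin 3) → Side → Fin 4 → ℝ) (P : Prog β) (g h : β → ℝ) :
    P.E w (fun r => g r + h r) = P.E w g + P.E w h := by
  induction P with
  | ret r => rfl
  | ask x z s next ih =>
    show ∑ a, w z s a * (next a).E w (fun r => g r + h r) =
      ∑ a, w z s a * (next a).E w g + ∑ a, w z s a * (next a).E w h
    rw [← Finset.sum_add_distrib]
    refine Finset.sum_congr rfl fun a _ => ?_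
    rw [ih a]; ring

theorem E_mul (w : List (Fin 3) → Side → Fin 4 → ℝ) (P : Prog β) (c : ℝ) (g : β → ℝ) :
    P.E w (fun r => c * g r) = c * P.E w g := by
  induction P with
  | ret r => rfl
  | ask x z s next ih =>
    show ∑ a, w z s a * (next a).E w (fun r => c * g r) = c * ∑ a, w z s a * (next a).E w g
    rw [Finset.mul_sum]
    refine Finset.sum_congr rfl fun a _ => ?_
    rw [ih a]; ring

theorem E_bind (w : List (Fin 3) → Side → Fin 4 → ℝ) (P : Prog β) (f : β → Prog γ)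
    (g : γ → ℝ) : (P.bind f).E w g = P.E w (fun r => (f r).E w g) := by
  induction P with
  | ret r => rfl
  | ask x z s next ih =>
    show ∑ a, w z s a * ((next a).bind f).E w g = ∑ a, w z s a * (next a).E w _
    refine Finset.sum_congr rfl fun a _ => ?_
    rw [ih a]

theorem star_mono (w : List (Fin 3) → Side → Fin 4 → ℝ) (hw : ∀ z s a, 0 ≤ w z s a)
    (v : List (Fin 3)) (L : Fin 3 → List ℕ) (f g : List ℕ → ℝ)
    (hfg : ∀ x y z, f [x, y, z] ≤ g [x, y, z]) : (star v L).E w f ≤ (star v L).E w g := by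
  unfold star
  rw [E_bind, E_bind]
  refine E_mono w hw _ _ _ fun t1 => ?_
  rw [E_bind, E_bind]
  refine E_mono w hw _ _ _ fun t2 => ?_
  rw [E_bind, E_bind]
  refine E_mono w hw _ _ _ fun t3 => ?_
  exact hfg _ _ _

theorem wu_nonneg (s : Side) (a : Fin 4) : 0 ≤ wu s a := by
  unfold wu
  cases s with
  | own => norm_num
  | par => show (0:ℝ) ≤ if a = 0 then 0 else 1 / 3
           split_ifs <;> norm_num
  | ch i => show (0:ℝ) ≤ if a = i.succ then 0 else 1 / 3
            split_ifs <;> norm_num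

theorem wu_sum (s : Side) : ∑ a, wu s a = 1 := by
  cases s with
  | own =>
    rw [Fin.sum_univ_four]; show (1:ℝ)/4 + 1/4 + 1/4 + 1/4 = 1; norm_num
  | par =>
    rw [Fin.sum_univ_four]
    have e0 : wu .par 0 = 0 := by
      show (if (0 : Fin 4) = 0 then (0:ℝ) else 1 / 3) = 0
      exact if_pos rfl
    have e1 : wu .par 1 = 1 / 3 := by
      show (if (1 : Fin 4) = 0 then (0:ℝ) else 1 / 3) = 1 / 3
      exact if_neg (by decide)
    have e2 : wu .par 2 = 1 / 3 := by
      show (if (2 : Fin 4) = 0 then (0:ℝ) else 1 / 3) = 1 / 3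
      exact if_neg (by decide)
    have e3 : wu .par 3 = 1 / 3 := by
      show (if (3 : Fin 4) = 0 then (0:ℝ) else 1 / 3) = 1 / 3
      exact if_neg (by decide)
    rw [e0, e1, e2, e3]; norm_num
  | ch i =>
    show ∑ a : Fin 4, (if a = i.succ then (0:ℝ) else 1 / 3) = 1
    have h : ∀ a ∈ (univ : Finset (Fin 4)), (if a = i.succ then (0:ℝ) else 1 / 3) =
        1 / 3 - (if a = i.succ then (1:ℝ) / 3 else 0) := by
      intro a _; split_ifs <;> norm_num
    rw [Finset.sum_congr rfl h, Finset.sum_sub_distrib, Finset.sum_ite_eq' univ i.succ]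
    simp
    norm_num

/-! ### Weighted lists -/

/-- Weighted sum. -/
noncomputable def lr (z : List (ℕ × List ℕ)) (f : List ℕ → ℝ) : ℝ :=
  (z.map fun c => (c.1 : ℝ) * f c.2).sum

theorem lr_cons (p : ℕ × List ℕ) (t : List (ℕ × List ℕ)) (f : List ℕ → ℝ) :
    lr (p :: t) f = (p.1 : ℝ) * f p.2 + lr t f := by
  unfold lr; rw [List.map_cons, List.sum_cons]

theorem lr_add (t : List (ℕ × List ℕ)) (f g : List ℕ → ℝ) :
    lr t (fun c => f c + g c) = lr t f + lr t g := by
  induction t with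
  | nil => simp [lr]
  | cons p t ih => rw [lr_cons, lr_cons, lr_cons, ih]; ring

theorem lr_mul (t : List (ℕ × List ℕ)) (x : ℝ) (f : List ℕ → ℝ) :
    lr t (fun c => x * f c) = x * lr t f := by
  induction t with
  | nil => simp [lr]
  | cons p t ih => rw [lr_cons, lr_cons, ih]; ring

theorem lr_mono (t : List (ℕ × List ℕ)) (f g : List ℕ → ℝ) (h : ∀ c, f c ≤ g c) :
    lr t f ≤ lr t g := by
  induction t with
  | nil => simp [lr]
  | cons p t ih =>
    rw [lr_cons, lr_cons]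
    exact add_le_add (mul_le_mul_of_nonneg_left (h _) (Nat.cast_nonneg _)) ih

theorem lr_const (t : List (ℕ × List ℕ)) (x : ℝ) : lr t (fun _ => x) = (tot t : ℝ) * x := by
  induction t with
  | nil => simp [lr, tot]
  | cons p t ih =>
    rw [lr_cons, ih]
    have : tot (p :: t) = p.1 + tot t := by unfold tot; rw [List.map_cons, List.sum_cons]
    rw [this]; push_cast; ring

theorem Tri_eq (l : List (ℕ × List ℕ)) (φ : List ℕ → ℝ) :
    Tri l φ = lr l (fun a => lr l (fun b => lr l (fun c =>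
      (star [] ![a, b, c]).E (fun _ => wu) φ))) := rfl

theorem Tri_mono (l : List (ℕ × List ℕ)) (f g : List ℕ → ℝ)
    (h : ∀ x y z, f [x, y, z] ≤ g [x, y, z]) : Tri l f ≤ Tri l g := by
  rw [Tri_eq, Tri_eq]
  refine lr_mono _ _ _ fun a => lr_mono _ _ _ fun b => lr_mono _ _ _ fun c => ?_
  exact star_mono _ (fun _ s a => wu_nonneg s a) _ _ _ _ h

theorem Tri_congr (l : List (ℕ × List ℕ)) (f g : List ℕ → ℝ)
    (h : ∀ x y z, f [x, y, z] = g [x, y, z]) : Tri l f = Tri l g :=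
  le_antisymm (Tri_mono l f g fun x y z => (h x y z).le)
    (Tri_mono l g f fun x y z => (h x y z).ge)

theorem Tri_add (l : List (ℕ × List ℕ)) (f g : List ℕ → ℝ) :
    Tri l (fun o => f o + g o) = Tri l f + Tri l g := by
  simp only [Tri_eq, E_add, lr_add]

theorem Tri_mul (l : List (ℕ × List ℕ)) (x : ℝ) (f : List ℕ → ℝ) :
    Tri l (fun o => x * f o) = x * Tri l f := by
  simp only [Tri_eq, E_mul, lr_mul]

theorem Tri_const (l : List (ℕ × List ℕ)) (x : ℝ) : Tri l (fun _ => x) = (tot l : ℝ) ^ 3 * x := by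
  rw [Tri_eq]
  simp only [E_const (fun _ => wu) (fun _ s => wu_sum s), lr_const]
  ring

/-! ### Digits -/

theorem digits (B : ℕ) (hB : 0 < B) : ∀ (n : ℕ) (G : ℕ → ℕ), (∀ i < n, G i < B) → ∀ j < n,
    (∑ i ∈ range n, G i * B ^ i) / B ^ j % B = G j := by
  intro n
  induction n with
  | zero => intro G _ j hj; omega
  | succ n ih =>
    intro G hG j hj
    have e : ∑ i ∈ range (n + 1), G i * B ^ i =
        G 0 + B * ∑ i ∈ range n, G (i + 1) * B ^ i := by
      rw [Finset.sum_range_succ', Finset.mul_sum, add_comm]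
      congr 1
      · simp
      · exact Finset.sum_congr rfl fun i _ => by ring
    rw [e]
    cases j with
    | zero =>
      rw [pow_zero, Nat.div_one, Nat.add_mul_mod_self_left, Nat.mod_eq_of_lt (hG 0 (by omega))]
    | succ j =>
      have h1 : (G 0 + B * ∑ i ∈ range n, G (i + 1) * B ^ i) / B ^ (j + 1) =
          (∑ i ∈ range n, G (i + 1) * B ^ i) / B ^ j := by
        rw [pow_succ', ← Nat.div_div_eq_div_mul, Nat.add_mul_div_left _ _ hB,
          Nat.div_eq_of_lt (hG 0 (by omega)), zero_add]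
      rw [h1]
      exact ih (fun i => G (i + 1)) (fun i hi => hG (i + 1) (by omega)) j (by omega)

theorem sf_succ (v n : ℕ) : Ker.sf v (n + 1) = v % Ker.W + Ker.sf (v / Ker.W) n := rfl

theorem W_pos : 0 < Ker.W := by unfold Ker.W; exact Nat.pow_pos (by norm_num)

theorem sf_eq : ∀ (n : ℕ) (G : ℕ → ℕ), (∀ i < n, G i < Ker.W) →
    Ker.sf (∑ i ∈ range n, G i * Ker.W ^ i) n = ∑ i ∈ range n, G i := by
  intro n
  induction n with
  | zero => intro G _; rfl
  | succ n ih =>
    intro G hG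
    have e : ∑ i ∈ range (n + 1), G i * Ker.W ^ i =
        G 0 + Ker.W * ∑ i ∈ range n, G (i + 1) * Ker.W ^ i := by
      rw [Finset.sum_range_succ', Finset.mul_sum, add_comm]
      congr 1
      · simp
      · exact Finset.sum_congr rfl fun i _ => by ring
    rw [e, sf_succ, Nat.add_mul_mod_self_left, Nat.mod_eq_of_lt (hG 0 (by omega)),
      Nat.add_mul_div_left _ _ W_pos, Nat.div_eq_of_lt (hG 0 (by omega)), zero_add,
      ih (fun i => G (i + 1)) (fun i hi => hG (i + 1) (by omega)), Finset.sum_range_succ', add_comm]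

theorem Wp_eq (i : ℕ) : Ker.Wp i = Ker.W ^ i := by
  show 2 ^ (256 * i) = (2 ^ 256) ^ i
  rw [pow_mul]

theorem fld_eq (n : ℕ) (G : ℕ → ℕ) (hG : ∀ i < n, G i < Ker.W) (j : ℕ) (hj : j < n) :
    Ker.fld (∑ i ∈ range n, G i * Ker.W ^ i) j = G j := by
  show (∑ i ∈ range n, G i * Ker.W ^ i) / Ker.Wp j % Ker.W = G j
  rw [Wp_eq]
  exact digits Ker.W W_pos n G hG j hj

theorem pk_cons (a : ℕ) (L : List ℕ) : Ker.pk (a :: L) = a + Ker.W * Ker.pk L := rfl

theorem sf_pk : ∀ (L : List ℕ), (∀ a ∈ L, a < Ker.W) → Ker.sf (Ker.pk L) L.length = L.sum := by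
  intro L
  induction L with
  | nil => intro _; rfl
  | cons a L ih =>
    intro h
    have ha : a < Ker.W := h a (List.mem_cons_self)
    rw [List.length_cons, pk_cons, sf_succ, Nat.add_mul_mod_self_left, Nat.mod_eq_of_lt ha,
      Nat.add_mul_div_left _ _ W_pos, Nat.div_eq_of_lt ha, zero_add,
      ih (fun b hb => h b (List.mem_cons_of_mem _ hb)), List.sum_cons]

theorem unp_pk : ∀ (L : List ℕ) (t : List (List ℕ)), t.length = L.length →
    (∀ a ∈ L, a < Ker.W) → Ker.unp t (Ker.pk L) = L.zip t := by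
  intro L
  induction L with
  | nil =>
    intro t ht _
    have : t = [] := List.length_eq_zero_iff.mp ht
    subst this; rfl
  | cons a L ih =>
    intro t ht h
    cases t with
    | nil => simp at ht
    | cons b t =>
      have ha : a < Ker.W := h a (List.mem_cons_self)
      rw [pk_cons, List.zip_cons_cons]
      show ((a + Ker.W * Ker.pk L) % Ker.W, b) :: Ker.unp t ((a + Ker.W * Ker.pk L) / Ker.W) = _
      rw [Nat.add_mul_mod_self_left, Nat.mod_eq_of_lt ha, Nat.add_mul_div_left _ _ W_pos,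
        Nat.div_eq_of_lt ha, zero_add, ih t (by simpa using ht)
          (fun b hb => h b (List.mem_cons_of_mem _ hb))]

theorem S_lt_W : Ker.S < Ker.W := by
  show 2 ^ 40 < 2 ^ 256
  exact Nat.pow_lt_pow_right (by norm_num) (by norm_num)

/-- Unpacking of a list completed by the remaining weight. -/
theorem unp_addz (rest : List (List ℕ)) (L : List ℕ) (hlen : rest.length = L.length)
    (hL : L.sum ≤ Ker.S) :
    Ker.unp ([] :: rest) (Ker.addz rest.length (Ker.pk L)) =
      (Ker.S - L.sum, []) :: L.zip rest := by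
  have hlt : ∀ a ∈ L, a < Ker.W := fun a ha =>
    lt_of_le_of_lt ((List.single_le_sum (fun _ _ => Nat.zero_le _) a ha).trans hL) S_lt_W
  have e : Ker.addz rest.length (Ker.pk L) = Ker.W * Ker.pk L + (Ker.S - L.sum) := by
    show Ker.pk L * Ker.W + (Ker.S - Ker.sf (Ker.pk L) rest.length) = _
    rw [hlen, sf_pk L hlt, mul_comm]
  have h1 : Ker.S - L.sum < Ker.W := lt_of_le_of_lt (Nat.sub_le _ _) S_lt_W
  rw [e]
  show ((Ker.W * Ker.pk L + (Ker.S - L.sum)) % Ker.W, []) ::
    Ker.unp rest ((Ker.W * Ker.pk L + (Ker.S - L.sum)) / Ker.W) = _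
  rw [Nat.mul_add_mod, Nat.mod_eq_of_lt h1, Nat.mul_add_div W_pos, Nat.div_eq_of_lt h1, add_zero,
    unp_pk L rest hlen hlt]

/-! ### The core -/

/-- Rounding. -/
def rd (c0 x : ℕ) : ℕ := x * (2 ^ 20 - 1) / (c0 * (Ker.S * Ker.S * 2 ^ 20))

theorem S_pos : 0 < Ker.S := Nat.pow_pos (by norm_num)

theorem rd_le (c0 x : ℕ) (h0 : 0 < c0) (T : ℝ) (hx : (x : ℝ) = c0 * T) :
    (rd c0 x : ℝ) * (2 ^ 20 * (Ker.S : ℝ) ^ 2) ≤ (2 ^ 20 - 1) * T := by
  have h1 : rd c0 x * (c0 * (Ker.S * Ker.S * 2 ^ 20)) ≤ x * (2 ^ 20 - 1) :=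
    Nat.div_mul_le_self _ _
  have h2 : ((rd c0 x * (c0 * (Ker.S * Ker.S * 2 ^ 20)) : ℕ) : ℝ) ≤
      ((x * (2 ^ 20 - 1) : ℕ) : ℝ) := by exact_mod_cast h1
  have e3 : (((2 ^ 20 - 1 : ℕ)) : ℝ) = 2 ^ 20 - 1 := by norm_num
  rw [Nat.cast_mul, Nat.cast_mul, Nat.cast_mul, Nat.cast_mul, Nat.cast_mul, e3, hx] at h2
  push_cast at h2
  have h0' : (0:ℝ) < c0 := by exact_mod_cast h0
  have h3 : (c0 : ℝ) * ((rd c0 x : ℝ) * (2 ^ 20 * (Ker.S : ℝ) ^ 2)) ≤
      (c0 : ℝ) * ((2 ^ 20 - 1) * T) := by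
    ring_nf at h2 ⊢
    linarith
  exact le_of_mul_le_mul_left h3 h0'

/-- The key estimate. -/
theorem key (l : List (ℕ × List ℕ)) (c0 : ℕ) (h0 : 0 < c0) (tr : List ℕ → List ℕ)
    (φ : List ℕ → ℝ) (hφ : ∀ A, 0 ≤ φ A) : ∀ (rest : List (List ℕ)) (Hs : List ℕ),
    List.Forall₂ (fun s (h : ℕ) => (h : ℝ) = c0 * Tri l (fun o => if tr o = s then 1 else 0))
      rest Hs →
    lr ((Hs.map (rd c0)).zip rest) φ * (2 ^ 20 * (Ker.S : ℝ) ^ 2) ≤
      (2 ^ 20 - 1) * Tri l (fun o => (rest.map fun s => if tr o = s then φ s else 0).sum) := by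
  intro rest Hs h
  induction h with
  | nil =>
    have : Tri l (fun o => (([] : List (List ℕ)).map fun s => if tr o = s then φ s else 0).sum) =
        Tri l (fun _ => (0:ℝ)) := rfl
    rw [this, Tri_const]
    simp [lr]
  | @cons s x rest Hs hx _ ih =>
    rw [List.map_cons, List.zip_cons_cons, lr_cons]
    have e : Tri l (fun o => ((s :: rest).map fun s => if tr o = s then φ s else 0).sum) =
        φ s * Tri l (fun o => if tr o = s then 1 else 0) +
          Tri l (fun o => (rest.map fun s => if tr o = s then φ s else 0).sum) := by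
      rw [← Tri_mul, ← Tri_add]
      congr 1
      funext o
      rw [List.map_cons, List.sum_cons]
      congr 1
      split_ifs <;> simp
    rw [e]
    have h1 := mul_le_mul_of_nonneg_left (rd_le c0 x h0 _ hx) (hφ s)
    show ((rd c0 x : ℝ) * φ s + lr ((Hs.map (rd c0)).zip rest) φ) * _ ≤ _
    nlinarith [h1, ih]

theorem sum_ite_le (tr : List ℕ) (φ : List ℕ → ℝ) (hφ : ∀ A, 0 ≤ φ A) :
    ∀ rest : List (List ℕ), rest.Nodup →
      (rest.map fun s => if tr = s then φ s else 0).sum ≤ φ tr := by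
  intro rest
  induction rest with
  | nil => intro _; simpa using hφ tr
  | cons s rest ih =>
    intro hnd
    rw [List.map_cons, List.sum_cons]
    obtain ⟨h1, h2⟩ := List.nodup_cons.mp hnd
    by_cases h : tr = s
    · rw [if_pos h, h]
      have : (rest.map fun s' => if s = s' then φ s' else 0).sum = 0 := by
        apply List.sum_eq_zero
        intro x hx
        obtain ⟨s', hs', rfl⟩ := List.mem_map.mp hx
        rw [if_neg]
        rintro rfl
        exact h1 hs'
      rw [this, add_zero]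
    · rw [if_neg h, zero_add]
      exact ih h2

theorem lr_zip_one : ∀ (L : List ℕ) (t : List (List ℕ)), t.length = L.length →
    lr (L.zip t) (fun _ => 1) = (L.sum : ℝ) := by
  intro L
  induction L with
  | nil => intro t _; simp [lr]
  | cons a L ih =>
    intro t ht
    cases t with
    | nil => simp at ht
    | cons b t =>
      rw [List.zip_cons_cons, lr_cons, ih t (by simpa using ht), List.sum_cons]
      push_cast; ring

/-- One step, abstract form. -/
theorem core (rest : List (List ℕ)) (hnd : rest.Nodup) (tr : List ℕ → List ℕ)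
    (htr : ∀ x y z, Le (tr [x, y, z]) [x, y, z]) (l : List (ℕ × List ℕ)) (hl : tot l = Ker.S)
    (c0 : ℕ) (h0 : 0 < c0) (Hs : List ℕ)
    (hH : List.Forall₂ (fun s (h : ℕ) => (h : ℝ) = c0 * Tri l (fun o =>
      if tr o = s then 1 else 0)) rest Hs) :
    tot (Ker.unp ([] :: rest) (Ker.addz rest.length (Ker.pk (Hs.map (rd c0))))) = Ker.S ∧
    ∀ φ : List ℕ → ℝ, Mono φ → (∀ A, 0 ≤ φ A) → φ [] = 0 →
      av (Ker.unp ([] :: rest) (Ker.addz rest.length (Ker.pk (Hs.map (rd c0))))) φ *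
        (2 ^ 20 * (Ker.S : ℝ) ^ 2) ≤ (2 ^ 20 - 1) * Tri l φ := by
  have hlen : rest.length = (Hs.map (rd c0)).length := by
    rw [List.length_map]; exact hH.length_eq
  have hS : (0:ℝ) < Ker.S := by exact_mod_cast S_pos
  have hsum : (Hs.map (rd c0)).sum ≤ Ker.S := by
    have h1 := key l c0 h0 tr (fun _ => 1) (fun _ => zero_le_one) rest Hs hH
    have h2 : Tri l (fun o => (rest.map fun s => if tr o = s then (1:ℝ) else 0).sum) ≤
        Tri l (fun _ => 1) := by
      refine Tri_mono l _ _ fun x y z => ?_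
      exact sum_ite_le (tr [x, y, z]) (fun _ => 1) (fun _ => zero_le_one) rest hnd
    rw [Tri_const, hl, mul_one] at h2
    rw [lr_zip_one _ _ hlen] at h1
    have h3 : (((Hs.map (rd c0)).sum : ℕ) : ℝ) * (2 ^ 20 * (Ker.S : ℝ) ^ 2) ≤
        Ker.S * (2 ^ 20 * (Ker.S : ℝ) ^ 2) := by
      have h4 : ((2:ℝ) ^ 20 - 1) * Tri l (fun o => (rest.map fun s =>
          if tr o = s then (1:ℝ) else 0).sum) ≤ (2 ^ 20 - 1) * (Ker.S : ℝ) ^ 3 :=
        mul_le_mul_of_nonneg_left h2 (by norm_num)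
      have h5 : ((2:ℝ) ^ 20 - 1) * (Ker.S : ℝ) ^ 3 ≤ Ker.S * (2 ^ 20 * (Ker.S : ℝ) ^ 2) := by
        have : 0 ≤ (Ker.S : ℝ) ^ 3 := by positivity
        nlinarith
      exact h1.trans (h4.trans h5)
    have h6 := le_of_mul_le_mul_right h3 (by positivity)
    exact_mod_cast h6
  rw [unp_addz rest _ hlen hsum]
  constructor
  · have e : tot ((Hs.map (rd c0)).zip rest) = (Hs.map (rd c0)).sum := by
      unfold tot
      rw [List.map_fst_zip (by omega)]
    have : tot ((Ker.S - (Hs.map (rd c0)).sum, []) :: (Hs.map (rd c0)).zip rest) =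
        (Ker.S - (Hs.map (rd c0)).sum) + tot ((Hs.map (rd c0)).zip rest) := by
      unfold tot; rw [List.map_cons, List.sum_cons]
    rw [this, e]
    omega
  · intro φ hm hφ hz
    have e : av ((Ker.S - (Hs.map (rd c0)).sum, []) :: (Hs.map (rd c0)).zip rest) φ =
        lr ((Hs.map (rd c0)).zip rest) φ := by
      show lr ((Ker.S - (Hs.map (rd c0)).sum, []) :: (Hs.map (rd c0)).zip rest) φ = _
      rw [lr_cons, hz, mul_zero, zero_add]
    rw [e]
    refine (key l c0 h0 tr φ hφ rest Hs hH).trans ?_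
    refine mul_le_mul_of_nonneg_left ?_ (by norm_num)
    refine Tri_mono l _ _ fun x y z => ?_
    exact (sum_ite_le (tr [x, y, z]) φ hφ rest hnd).trans (hm _ _ (htr x y z))

/-! ### The fields -/

theorem unp_snd : ∀ (t : List (List ℕ)) (v : ℕ), (Ker.unp t v).map Prod.snd = t := by
  intro t
  induction t with
  | nil => intro v; rfl
  | cons a t ih =>
    intro v
    show a :: (Ker.unp t (v / Ker.W)).map Prod.snd = _
    rw [ih]

/-- Weighted sum of naturals over pairs. -/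
def ln (z : List (ℕ × List ℕ)) (f : ℕ × List ℕ → ℕ) : ℕ := (z.map f).sum

theorem ln_cons (p : ℕ × List ℕ) (t : List (ℕ × List ℕ)) (f : ℕ × List ℕ → ℕ) :
    ln (p :: t) f = f p + ln t f := by
  unfold ln; rw [List.map_cons, List.sum_cons]

theorem ln_congr (t : List (ℕ × List ℕ)) (f g : ℕ × List ℕ → ℕ) (h : ∀ p ∈ t, f p = g p) :
    ln t f = ln t g := by
  unfold ln
  rw [List.map_congr_left h]

theorem ln_sum (t : List (ℕ × List ℕ)) (n B : ℕ) (f : ℕ → ℕ × List ℕ → ℕ) :
    ln t (fun p => ∑ i ∈ range n, f i p * B ^ i) = ∑ i ∈ range n, ln t (f i) * B ^ i := by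
  induction t with
  | nil => simp [ln]
  | cons p t ih =>
    rw [ln_cons, ih, ← Finset.sum_add_distrib]
    refine Finset.sum_congr rfl fun i _ => ?_
    rw [ln_cons]; ring

/-- The weight with its power of three. -/
def wt3 (P : ℕ) (p : ℕ × List ℕ) : ℕ := p.1 * 3 ^ (P - p.2.sum)

theorem lstep (t : List (ℕ × List ℕ)) (P : ℕ) (ht : ∀ p ∈ t, p.2.sum ≤ P) (f : List ℕ → ℕ)
    (x : ℝ) (e : List ℕ → ℝ) (hf : ∀ p ∈ t, (f p.2 : ℝ) = x * 3 ^ (p.2.sum) * e p.2) :
    ((ln t (fun p => wt3 P p * f p.2) : ℕ) : ℝ) = x * 3 ^ P * lr t e := by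
  induction t with
  | nil => simp [ln, lr]
  | cons p t ih =>
    rw [ln_cons, lr_cons, Nat.cast_add, ih (fun q hq => ht q (List.mem_cons_of_mem _ hq))
      (fun q hq => hf q (List.mem_cons_of_mem _ hq)), Nat.cast_mul, hf p List.mem_cons_self]
    have h1 : (3:ℝ) ^ P = 3 ^ (P - p.2.sum) * 3 ^ (p.2.sum) := by
      rw [← pow_add, Nat.sub_add_cancel (ht p List.mem_cons_self)]
    unfold wt3
    push_cast
    rw [h1]
    ring

/-- The fields of the symmetrised sum. -/
theorem fields (K : List ℕ → List ℕ → List ℕ → ℕ) (n P c1 : ℕ) (Q : ℕ → List ℕ → ℝ)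
    (hQ1 : ∀ i o, Q i o ≤ 1)
    (hK : ∀ a b c : List ℕ, a.sum + b.sum + c.sum ≤ 3 * P → ∃ F : ℕ → ℕ,
      K a b c = ∑ i ∈ range n, F i * Ker.W ^ i ∧
      ∀ i < n, (F i : ℝ) = c1 * 3 ^ (a.sum + b.sum + c.sum) *
        (star [] ![a, b, c]).E (fun _ => wu) (Q i))
    (types : List (List ℕ)) (hty : ∀ s ∈ types, s.sum ≤ P) (h2 : S_SUM) (v : ℕ)
    (hS : tot (Ker.unp types v) = Ker.S) (hbig : c1 * 3 ^ (3 * P) * Ker.S ^ 3 < Ker.W) :
    ∃ G : ℕ → ℕ, (∀ i < n, G i < Ker.W) ∧
      Ker.suma K types ((Ker.unp types v).map fun p => p.1 * 3 ^ (P - p.2.sum)) =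
        ∑ i ∈ range n, G i * Ker.W ^ i ∧
      ∀ i < n, (G i : ℝ) = ((c1 * 3 ^ (3 * P) : ℕ) : ℝ) * Tri (Ker.unp types v) (Q i) := by
  classical
  have hK' : ∀ a b c : List ℕ, ∃ F : ℕ → ℕ, a.sum + b.sum + c.sum ≤ 3 * P →
      K a b c = ∑ i ∈ range n, F i * Ker.W ^ i ∧
      ∀ i < n, (F i : ℝ) = c1 * 3 ^ (a.sum + b.sum + c.sum) *
        (star [] ![a, b, c]).E (fun _ => wu) (Q i) := by
    intro a b c
    by_cases h : a.sum + b.sum + c.sum ≤ 3 * P
    · obtain ⟨F, hF⟩ := hK a b c h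
      exact ⟨F, fun _ => hF⟩
    · exact ⟨fun _ => 0, fun h' => absurd h' h⟩
  choose FF hFF using hK'
  set l := Ker.unp types v with hl
  have hsnd : l.map Prod.snd = types := unp_snd types v
  have hmem : ∀ p ∈ l, p.2.sum ≤ P := by
    intro p hp
    apply hty
    rw [← hsnd]
    exact List.mem_map_of_mem hp
  have hval : ∀ i < n, ((ln l (fun a => wt3 P a * ln l (fun b => wt3 P b * ln l (fun c =>
      wt3 P c * FF a.2 b.2 c.2 i))) : ℕ) : ℝ) = ((c1 * 3 ^ (3 * P) : ℕ) : ℝ) * Tri l (Q i) := by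
    intro i hi
    have inner : ∀ a ∈ l, ∀ b ∈ l, ((ln l (fun c => wt3 P c * FF a.2 b.2 c.2 i) : ℕ) : ℝ) =
        (c1 * 3 ^ (a.2.sum + b.2.sum)) * 3 ^ P * lr l (fun c =>
          (star [] ![a.2, b.2, c]).E (fun _ => wu) (Q i)) := by
      intro a ha b hb
      refine lstep l P hmem (fun c => FF a.2 b.2 c i) _ _ fun c hc => ?_
      have h3 : a.2.sum + b.2.sum + c.2.sum ≤ 3 * P := by
        have := hmem a ha; have := hmem b hb; have := hmem c hc; omega
      rw [(hFF a.2 b.2 c.2 h3).2 i hi]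
      ring
    have middle : ∀ a ∈ l, ((ln l (fun b => wt3 P b * ln l (fun c =>
        wt3 P c * FF a.2 b.2 c.2 i)) : ℕ) : ℝ) =
        (c1 * 3 ^ (a.2.sum) * 3 ^ P) * 3 ^ P * lr l (fun b => lr l (fun c =>
          (star [] ![a.2, b, c]).E (fun _ => wu) (Q i))) := by
      intro a ha
      refine lstep l P hmem (fun b => ln l (fun c => wt3 P c * FF a.2 b c.2 i)) _ _ fun b hb => ?_
      rw [inner a ha b hb]
      ring
    have outer := lstep l P hmem (fun a => ln l (fun b => wt3 P b * ln l (fun c =>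
        wt3 P c * FF a b.2 c.2 i))) (c1 * 3 ^ P * 3 ^ P) (fun a => lr l (fun b => lr l (fun c =>
          (star [] ![a, b, c]).E (fun _ => wu) (Q i)))) (fun a ha => by
            rw [middle a ha]; ring)
    rw [outer, Tri_eq]
    push_cast
    ring
  refine ⟨fun i => ln l (fun a => wt3 P a * ln l (fun b => wt3 P b * ln l (fun c =>
    wt3 P c * FF a.2 b.2 c.2 i))), ?_, ?_, hval⟩
  · intro i hi
    have h1 : Tri l (Q i) ≤ Tri l (fun _ => 1) := Tri_mono l _ _ fun x y z => hQ1 i _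
    rw [Tri_const, hS, mul_one] at h1
    have h3 := hval i hi
    have h4 : ((c1 * 3 ^ (3 * P) : ℕ) : ℝ) * Tri l (Q i) ≤
        ((c1 * 3 ^ (3 * P) : ℕ) : ℝ) * (Ker.S : ℝ) ^ 3 :=
      mul_le_mul_of_nonneg_left h1 (Nat.cast_nonneg _)
    rw [← h3] at h4
    have h5 : ln l (fun a => wt3 P a * ln l (fun b => wt3 P b * ln l (fun c =>
      wt3 P c * FF a.2 b.2 c.2 i))) ≤ c1 * 3 ^ (3 * P) * Ker.S ^ 3 := by exact_mod_cast h4
    exact lt_of_le_of_lt h5 hbig
  · have hzip : (l.map fun p => p.1 * 3 ^ (P - p.2.sum)).zip types =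
        l.map (fun p => (wt3 P p, p.2)) := by
      conv_lhs => rw [← hsnd]
      exact List.zip_map'
    rw [h2 K types _ (by rw [List.length_map, ← hsnd, List.length_map]), hzip]
    have e1 : ∀ f : List ℕ → ℕ, ((l.map (fun p => (wt3 P p, p.2))).map fun c => c.1 * f c.2).sum =
        ln l (fun c => wt3 P c * f c.2) := by
      intro f
      rw [List.map_map]
      rfl
    rw [e1 (fun a => ((l.map (fun p => (wt3 P p, p.2))).map fun b => b.1 *
      ((l.map (fun p => (wt3 P p, p.2))).map fun c => c.1 * K a b.2 c.2).sum).sum)]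
    have e2 : ∀ a ∈ l, wt3 P a * ((l.map (fun p => (wt3 P p, p.2))).map fun b => b.1 *
        ((l.map (fun p => (wt3 P p, p.2))).map fun c => c.1 * K a.2 b.2 c.2).sum).sum =
        ∑ i ∈ range n, (wt3 P a * ln l (fun b => wt3 P b * ln l (fun c =>
          wt3 P c * FF a.2 b.2 c.2 i))) * Ker.W ^ i := by
      intro a ha
      rw [e1 (fun b => ((l.map (fun p => (wt3 P p, p.2))).map fun c => c.1 * K a.2 b c.2).sum)]
      have e3 : ∀ b ∈ l, wt3 P b * ((l.map (fun p => (wt3 P p, p.2))).map fun c =>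
          c.1 * K a.2 b.2 c.2).sum = ∑ i ∈ range n, (wt3 P b * ln l (fun c =>
          wt3 P c * FF a.2 b.2 c.2 i)) * Ker.W ^ i := by
        intro b hb
        rw [e1 (fun c => K a.2 b.2 c)]
        have e4 : ∀ c ∈ l, wt3 P c * K a.2 b.2 c.2 =
            ∑ i ∈ range n, (wt3 P c * FF a.2 b.2 c.2 i) * Ker.W ^ i := by
          intro c hc
          have h3 : a.2.sum + b.2.sum + c.2.sum ≤ 3 * P := by
            have := hmem a ha; have := hmem b hb; have := hmem c hc; omega
          rw [(hFF a.2 b.2 c.2 h3).1, Finset.mul_sum]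
          exact Finset.sum_congr rfl fun i _ => by ring
        rw [ln_congr l _ _ e4, ln_sum, Finset.mul_sum]
        exact Finset.sum_congr rfl fun i _ => by ring
      rw [ln_congr l _ _ e3, ln_sum, Finset.mul_sum]
      exact Finset.sum_congr rfl fun i _ => by ring
    rw [ln_congr l _ _ e2, ln_sum]

theorem Tri_nonneg (l : List (ℕ × List ℕ)) (h : List ℕ → ℝ)
    (hh : ∀ x y z, 0 ≤ h [x, y, z]) : 0 ≤ Tri l h := by
  have h1 : Tri l (fun _ => (0:ℝ)) ≤ Tri l h := Tri_mono l _ _ fun x y z => hh x y z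
  rw [Tri_const, mul_zero] at h1
  exact h1

theorem sub_val (l : List (ℕ × List ℕ)) (c0 a b : ℕ) (f g h : List ℕ → ℝ)
    (ha : (a : ℝ) = c0 * Tri l f) (hb : (b : ℝ) = c0 * Tri l g)
    (hfg : ∀ x y z, f [x, y, z] = g [x, y, z] + h [x, y, z])
    (hh : ∀ x y z, 0 ≤ h [x, y, z]) : ((a - b : ℕ) : ℝ) = c0 * Tri l h := by
  have e : Tri l f = Tri l g + Tri l h := by
    rw [← Tri_add]
    exact Tri_congr l _ _ hfg
  have h0 := Tri_nonneg l h hh
  have h1 : (b : ℝ) ≤ a := by
    rw [ha, hb, e, mul_add]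
    have : (0:ℝ) ≤ c0 * Tri l h := mul_nonneg (Nat.cast_nonneg _) h0
    linarith
  have h2 : b ≤ a := by exact_mod_cast h1
  rw [Nat.cast_sub h2, ha, hb, e]
  ring

theorem add_val (l : List (ℕ × List ℕ)) (c0 a b : ℕ) (f g : List ℕ → ℝ)
    (ha : (a : ℝ) = c0 * Tri l f) (hb : (b : ℝ) = c0 * Tri l g) :
    ((a + b : ℕ) : ℝ) = c0 * Tri l (fun o => f o + g o) := by
  rw [Nat.cast_add, ha, hb, Tri_add]
  ring

theorem sum_val (l : List (ℕ × List ℕ)) (c0 : ℕ) (G : ℕ → ℕ) (Q : ℕ → List ℕ → ℝ) :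
    ∀ n : ℕ, (∀ i < n, (G i : ℝ) = c0 * Tri l (Q i)) →
    ((∑ i ∈ range n, G i : ℕ) : ℝ) = c0 * Tri l (fun o => ∑ i ∈ range n, Q i o) := by
  intro n
  induction n with
  | zero =>
    intro _
    have : Tri l (fun o => ∑ i ∈ range 0, Q i o) = Tri l (fun _ => (0:ℝ)) := rfl
    rw [this, Tri_const]
    simp
  | succ n ih =>
    intro h
    rw [Finset.sum_range_succ]
    rw [add_val l c0 _ _ _ _ (ih fun i hi => h i (by omega)) (h n (by omega))]
    congr 1
    refine Tri_congr l _ _ fun x y z => ?_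
    rw [Finset.sum_range_succ]

end Pool.Agent.W847.T3.T_STEP0
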